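import Pool.Agent.Lib.DMA.TrDef

/-! # DMA, row A0: lemmas on truncations -/

set_option autoImplicit false

open scoped Topology
open Set Filter

noncomputable section

namespace Pool.Agent.DMA

/-- `{φ ≤ -x}` -/
def lowS {X : Type*} (φ : X → EReal) (x : ℝ) : Set X := {y | φ y ≤ ((-x : ℝ) : EReal)}

/-- `{φ > -x}` -/
def hiS {X : Type*} (φ : X → EReal) (x : ℝ) : Set X := {y | ((-x : ℝ) : EReal) < φ y}

variable {X : Type*} {φ : X → EReal} {x : X} {s t : ℝ}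

theorem lowS_compl (φ : X → EReal) (x : ℝ) : (lowS φ x)ᶜ = hiS φ x := by
  ext y
  simp only [lowS, hiS, mem_compl_iff, mem_ofPred_eq, not_le]

theorem hiS_compl (φ : X → EReal) (x : ℝ) : (hiS φ x)ᶜ = lowS φ x := by
  ext y
  simp only [lowS, hiS, mem_compl_iff, mem_ofPred_eq, not_lt]

theorem lowS_anti (φ : X → EReal) (hst : s ≤ t) : lowS φ t ⊆ lowS φ s := by
  intro y hy
  exact le_trans hy (EReal.coe_le_coe_iff.2 (neg_le_neg hst))

theorem hiS_mono (φ : X → EReal) (hst : s ≤ t) : hiS φ s ⊆ hiS φ t := by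
  intro y hy
  exact lt_of_le_of_lt (EReal.coe_le_coe_iff.2 (neg_le_neg hst)) hy

theorem tr_coe (h : φ x ≠ ⊤) (t : ℝ) :
    ((tr t φ x : ℝ) : EReal) = max (φ x) ((-t : ℝ) : EReal) := by
  refine EReal.coe_toReal ?_ ?_
  · rw [Ne, max_eq_top]
    push Not
    exact ⟨h, EReal.coe_ne_top _⟩
  · rw [Ne, max_eq_bot]
    push Not
    intro _
    exact EReal.coe_ne_bot _

theorem neg_le_tr (h : φ x ≠ ⊤) (t : ℝ) : -t ≤ tr t φ x := by
  rw [← EReal.coe_le_coe_iff, tr_coe h]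
  exact le_max_right _ _

theorem le_tr (h : φ x ≠ ⊤) (t : ℝ) : φ x ≤ (tr t φ x : EReal) := by
  rw [tr_coe h]
  exact le_max_left _ _

theorem tr_anti (h : φ x ≠ ⊤) (hst : s ≤ t) : tr t φ x ≤ tr s φ x := by
  rw [← EReal.coe_le_coe_iff, tr_coe h, tr_coe h]
  exact max_le_max_left _ (EReal.coe_le_coe_iff.2 (neg_le_neg hst))

theorem tr_max (h : φ x ≠ ⊤) (hst : s ≤ t) : tr s φ x = max (tr t φ x) (-s) := by
  rw [← EReal.coe_eq_coe_iff, tr_coe h, EReal.coe_strictMono.monotone.map_max, tr_coe h, max_assoc,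
    max_eq_right (EReal.coe_le_coe_iff.2 (neg_le_neg hst))]

theorem mem_hiS_iff (h : φ x ≠ ⊤) (hst : s ≤ t) : x ∈ hiS φ s ↔ -s < tr t φ x := by
  rw [← EReal.coe_lt_coe_iff, tr_coe h, lt_max_iff]
  constructor
  · intro h1
    exact Or.inl h1
  · rintro (h1 | h1)
    · exact h1
    · exact absurd (EReal.coe_lt_coe_iff.1 h1) (not_lt.2 (neg_le_neg hst))

theorem mem_lowS_iff (h : φ x ≠ ⊤) (hst : s ≤ t) : x ∈ lowS φ s ↔ tr t φ x ≤ -s := by
  rw [← hiS_compl, mem_compl_iff, mem_hiS_iff h hst, not_lt]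

theorem tr_eq_of_hiS (h : φ x ≠ ⊤) (hx : x ∈ hiS φ s) (hst : s ≤ t) : tr t φ x = tr s φ x := by
  rw [tr_max h hst, max_eq_left ((mem_hiS_iff h hst).1 hx).le]

theorem tr_eq_of_lowS (hx : x ∈ lowS φ t) : tr t φ x = -t := by
  have h1 : φ x ≤ ((-t : ℝ) : EReal) := hx
  unfold tr
  rw [max_eq_right h1, EReal.toReal_coe]

theorem tr_tendsto (h : φ x ≠ ⊤) :
    Tendsto (fun t : ℝ => ((tr t φ x : ℝ) : EReal)) atTop (𝓝 (φ x)) := by
  by_cases hb : φ x = ⊥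
  · have h1 : ∀ t : ℝ, ((tr t φ x : ℝ) : EReal) = ((-t : ℝ) : EReal) := by
      intro t
      rw [tr_coe h, hb, max_eq_right bot_le]
    simp only [h1]
    rw [hb]
    rw [EReal.tendsto_nhds_bot_iff_real]
    intro c
    filter_upwards [eventually_gt_atTop (-c)] with t ht
    exact EReal.coe_lt_coe_iff.2 (by linarith)
  · refine tendsto_const_nhds.congr' ?_
    obtain ⟨r, hr⟩ : ∃ r : ℝ, φ x = r := ⟨(φ x).toReal, (EReal.coe_toReal h hb).symm⟩
    filter_upwards [eventually_ge_atTop (-r)] with t ht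
    rw [tr_coe h, hr, max_eq_left]
    exact EReal.coe_le_coe_iff.2 (by linarith)

theorem tr_le_of_le {c : ℝ} (h : φ x ≤ (c : EReal)) (hc : -t ≤ c) : tr t φ x ≤ c := by
  have h1 : φ x ≠ ⊤ := fun h2 => by
    rw [h2] at h
    exact EReal.coe_ne_top c (top_le_iff.1 h)
  rw [← EReal.coe_le_coe_iff, tr_coe h1]
  exact max_le h (EReal.coe_le_coe_iff.2 hc)

/-- `|φ_s - φ_t|` is at most `|s - t|`; here the case `s = t + 1` used in Lemma A. -/
theorem tr_add_one (h : φ x ≠ ⊤) (t : ℝ) : tr t φ x ≤ tr (t + 1) φ x + 1 := by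
  rw [tr_max h (by linarith : t ≤ t + 1)]
  have h1 := neg_le_tr h (t + 1)
  refine max_le (by linarith) (by linarith)

theorem iUnion_hiS (φ : X → EReal) : ⋃ j : ℕ, hiS φ (j : ℝ) = {x | φ x ≠ ⊥} := by
  ext x
  simp only [mem_iUnion, hiS, mem_ofPred_eq]
  constructor
  · rintro ⟨j, hj⟩ h
    rw [h] at hj
    exact not_lt_bot hj
  · intro h
    by_cases ht : φ x = ⊤
    · exact ⟨0, by rw [ht]; exact EReal.coe_lt_top _⟩
    · obtain ⟨r, hr⟩ : ∃ r : ℝ, φ x = r := ⟨(φ x).toReal, (EReal.coe_toReal ht h).symm⟩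
      obtain ⟨j, hj⟩ := exists_nat_gt (-r)
      exact ⟨j, by rw [hr]; exact EReal.coe_lt_coe_iff.2 (by linarith)⟩

end Pool.Agent.DMA
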