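import Pool.Agent.Lib.DMA.Calc
import Pool.Agent.Lib.DMA.A0

/-! # DMA, row AB1: functions -/

set_option autoImplicit false

open scoped Topology
open Set Filter MeasureTheory

noncomputable section

namespace Pool.Agent.DMA

variable {X : Type*} [TopologicalSpace X] [CompactSpace X] [T2Space X] [SecondCountableTopology X]
  [MeasurableSpace X] [BorelSpace X] {n : ℕ} {C : Calc X n}

instance calc_fin_M (C : Calc X n) (Θ : Multiset (X → ℝ)) : IsFiniteMeasure (C.M Θ) := C.fin Θ

instance calc_fin_MA (C : Calc X n) (u : X → ℝ) : IsFiniteMeasure (C.MA u) := C.fin _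

namespace Calc

/-! ## AB1: functions -/



theorem meas {u : X → ℝ} (hu : u ∈ C.P) : Measurable u :=
  (C.P_usc u hu).measurable

theorem intg {u : X → ℝ} (hu : u ∈ C.P) (ν : Measure X) [IsFiniteMeasure ν] :
    Integrable u ν := by
  obtain ⟨B, hB⟩ := C.P_bdd u hu
  exact Integrable.of_bound (meas hu).aestronglyMeasurable B (Eventually.of_forall hB)

theorem intgS {f : X → ℝ} (hf : f ∈ C.S) (ν : Measure X) [IsFiniteMeasure ν] :
    Integrable f ν := by
  have h := C.S_cont f hf
  obtain ⟨B, hB⟩ := isCompact_univ.exists_bound_of_continuousOn h.continuousOn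
  exact Integrable.of_bound h.measurable.aestronglyMeasurable B
    (Eventually.of_forall fun x => hB x (mem_univ x))

/-- Products of a continuous function and an element of `P` are integrable. -/
theorem intg_mul {f u : X → ℝ} (hf : Continuous f) (hu : u ∈ C.P) (ν : Measure X)
    [IsFiniteMeasure ν] : Integrable (fun x => f x * u x) ν := by
  obtain ⟨B, hB⟩ := isCompact_univ.exists_bound_of_continuousOn hf.continuousOn
  exact (intg hu ν).bdd_mul (c := B) hf.measurable.aestronglyMeasurable
    (Eventually.of_forall fun x => hB x (mem_univ x))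

theorem const_mem (c : ℝ) : (fun _ => c) ∈ C.P := by
  have h := C.P_const _ C.P_zero c
  simpa only [zero_add] using h

theorem smul_mem {u : X → ℝ} (hu : u ∈ C.P) {c : ℝ} (h0 : 0 ≤ c) (h1 : c ≤ 1) :
    (fun x => c * u x) ∈ C.P := by
  have h := C.P_conv u hu _ C.P_zero c h0 h1
  simpa only [mul_zero, add_zero] using h

/-- `(1 - ε) u - ε x` -/
theorem z_mem {u : X → ℝ} (hu : u ∈ C.P) {ε : ℝ} (h0 : 0 ≤ ε) (h1 : ε ≤ 1) (x : ℝ) :
    (fun y => (1 - ε) * u y - ε * x) ∈ C.P := by
  have h := C.P_const _ (smul_mem hu (c := 1 - ε) (by linarith) (by linarith)) (-(ε * x))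
  simpa only [← sub_eq_add_neg] using h

/-- A smooth function can be scaled so that it and its opposite are in `P`; the same for all
smaller factors. -/
theorem small {f : X → ℝ} (hf : f ∈ C.S) :
    ∃ c : ℝ, 0 < c ∧ ∀ c' : ℝ, |c'| ≤ c → (fun x => c' * f x) ∈ C.P := by
  obtain ⟨a, ha, hfa⟩ := C.S_small f hf
  obtain ⟨b, hb, hfb⟩ := C.S_small _ (C.S_mul _ (C.S_const (-1)) f hf)
  refine ⟨min a b, lt_min ha hb, fun c' hc' => ?_⟩
  rcases le_total 0 c' with h | h
  · have h1 : c' ≤ a := by
      rw [abs_of_nonneg h] at hc'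
      exact hc'.trans (min_le_left _ _)
    have h2 := smul_mem hfa (c := c' / a) (by positivity) ((div_le_one ha).2 h1)
    have h3 : (fun x => c' / a * (a * f x)) = fun x => c' * f x := by
      funext x
      field_simp
    rwa [h3] at h2
  · have h1 : -c' ≤ b := by
      rw [abs_of_nonpos h] at hc'
      exact hc'.trans (min_le_right _ _)
    have h2 := smul_mem hfb (c := -c' / b) (div_nonneg (by linarith) hb.le) ((div_le_one hb).2 h1)
    have h3 : (fun x => -c' / b * (b * (-1 * f x))) = fun x => c' * f x := by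
      funext x
      field_simp
    rwa [h3] at h2

end Calc

end Pool.Agent.DMA
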