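import Pool.Agent.Lib.DMA.AB1

/-! # DMA, row AB2: masses and locality for several entries -/

set_option autoImplicit false

open scoped Topology
open Set Filter MeasureTheory

noncomputable section

namespace Pool.Agent.DMA

variable {X : Type*} [TopologicalSpace X] [CompactSpace X] [T2Space X] [SecondCountableTopology X]
  [MeasurableSpace X] [BorelSpace X] {n : ℕ} {C : Calc X n}

namespace Calc

/-! ## AB2: masses and locality for several entries -/

theorem massR {Θ : Multiset (X → ℝ)} (h : Multiset.card Θ = n) (h' : ∀ u ∈ Θ, u ∈ C.P) :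
    (C.M Θ).real univ = C.V := C.mass Θ h h'

theorem V_nonneg : 0 ≤ C.V := by
  have h : ∀ u ∈ Multiset.replicate n (fun _ : X => (0 : ℝ)), u ∈ C.P := by
    intro u hu
    rw [Multiset.eq_of_mem_replicate hu]
    exact C.P_zero
  rw [← C.mass (Multiset.replicate n (fun _ => (0 : ℝ))) (Multiset.card_replicate _ _) h]
  exact measureReal_nonneg

theorem real_le {Θ : Multiset (X → ℝ)} (h : Multiset.card Θ = n) (h' : ∀ u ∈ Θ, u ∈ C.P)
    (A : Set X) : (C.M Θ).real A ≤ C.V := by
  rw [← massR h h']
  exact measureReal_mono (subset_univ A)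

/-- Locality for `k` equal entries. -/
theorem locN {a b : X → ℝ} (ha : a ∈ C.P) (hb : b ∈ C.P) {U : Set X} (hU : IsOpen U)
    (hab : ∀ x ∈ U, a x = b x) (k : ℕ) (Ψ : Multiset (X → ℝ)) (hΨ : Multiset.card Ψ + k = n)
    (hΨ' : ∀ u ∈ Ψ, u ∈ C.P) :
    (C.M (Multiset.replicate k a + Ψ)).restrict U =
      (C.M (Multiset.replicate k b + Ψ)).restrict U := by
  induction k generalizing Ψ with
  | zero => rfl
  | succ k ih =>
    have h1 : ∀ u ∈ Multiset.replicate k a + Ψ, u ∈ C.P := by
      intro u hu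
      rcases Multiset.mem_add.1 hu with h | h
      · rw [Multiset.eq_of_mem_replicate h]
        exact ha
      · exact hΨ' u h
    have h2 := C.loc (Multiset.replicate k a + Ψ)
      (by rw [Multiset.card_add, Multiset.card_replicate]; omega) h1 a ha b hb U hU hab
    have h3 := ih (b ::ₘ Ψ) (by rw [Multiset.card_cons]; omega) (by
      intro u hu
      rcases Multiset.mem_cons.1 hu with h | h
      · rw [h]
        exact hb
      · exact hΨ' u h)
    rw [Multiset.replicate_succ, Multiset.cons_add, h2, ← Multiset.add_cons, h3,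
      Multiset.add_cons, Multiset.replicate_succ, Multiset.cons_add]

/-- Plurifine locality for `k` equal entries. -/
theorem maxlocN {a b : X → ℝ} (ha : a ∈ C.P) (hb : b ∈ C.P) (k : ℕ) (Ψ : Multiset (X → ℝ))
    (hΨ : Multiset.card Ψ + k = n) (hΨ' : ∀ u ∈ Ψ, u ∈ C.P) :
    (C.M (Multiset.replicate k (fun x => max (a x) (b x)) + Ψ)).restrict {x | b x < a x} =
      (C.M (Multiset.replicate k a + Ψ)).restrict {x | b x < a x} := by
  have hm : (fun x => max (a x) (b x)) ∈ C.P := C.P_max a ha b hb
  induction k generalizing Ψ with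
  | zero => rfl
  | succ k ih =>
    have h1 : ∀ u ∈ Multiset.replicate k (fun x => max (a x) (b x)) + Ψ, u ∈ C.P := by
      intro u hu
      rcases Multiset.mem_add.1 hu with h | h
      · rw [Multiset.eq_of_mem_replicate h]
        exact hm
      · exact hΨ' u h
    have h2 := C.maxloc (Multiset.replicate k (fun x => max (a x) (b x)) + Ψ)
      (by rw [Multiset.card_add, Multiset.card_replicate]; omega) h1 a ha b hb
    have h3 := ih (a ::ₘ Ψ) (by rw [Multiset.card_cons]; omega) (by
      intro u hu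
      rcases Multiset.mem_cons.1 hu with h | h
      · rw [h]
        exact ha
      · exact hΨ' u h)
    rw [Multiset.replicate_succ, Multiset.cons_add, h2, ← Multiset.add_cons, h3,
      Multiset.add_cons, Multiset.replicate_succ, Multiset.cons_add]

/-- Mass conservation: if two admissible measures agree on `A` they give the same mass to the
complement. -/
theorem massC {Θ Θ' : Multiset (X → ℝ)} (h : Multiset.card Θ = n) (h' : ∀ u ∈ Θ, u ∈ C.P)
    (k : Multiset.card Θ' = n) (k' : ∀ u ∈ Θ', u ∈ C.P) {A : Set X} (hA : MeasurableSet A)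
    (hr : (C.M Θ).restrict A = (C.M Θ').restrict A) : (C.M Θ).real Aᶜ = (C.M Θ').real Aᶜ := by
  have h1 : (C.M Θ).real A = (C.M Θ').real A := by
    have h2 : (C.M Θ) A = (C.M Θ') A := by
      rw [← Measure.restrict_apply_self, hr, Measure.restrict_apply_self]
    rw [measureReal_def, measureReal_def, h2]
  rw [measureReal_compl hA, measureReal_compl hA, h1, massR h h', massR k k']

/-- The mixed measures with entries `φ_t` (`k` times) and `φ_s` agree on `{φ > -s}`, `s ≤ t`. -/
theorem trlocN {φ : X → EReal} (hφ : ∀ x, φ x ≠ ⊤) (hP : ∀ t : ℝ, tr t φ ∈ C.P) {s t : ℝ}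
    (hst : s ≤ t) (k : ℕ) (Ψ : Multiset (X → ℝ)) (hΨ : Multiset.card Ψ + k = n)
    (hΨ' : ∀ u ∈ Ψ, u ∈ C.P) :
    (C.M (Multiset.replicate k (tr s φ) + Ψ)).restrict (hiS φ s) =
      (C.M (Multiset.replicate k (tr t φ) + Ψ)).restrict (hiS φ s) := by
  have h1 : tr s φ = fun x => max (tr t φ x) ((fun _ => -s) x) := by
    funext x
    exact tr_max (hφ x) hst
  have h2 : hiS φ s = {x | (fun _ => -s) x < tr t φ x} := by
    ext x
    exact mem_hiS_iff (hφ x) hst
  rw [h1, h2]
  exact maxlocN (hP t) (const_mem (-s)) k Ψ hΨ hΨ'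

theorem meas_hiS {φ : X → EReal} (hφ : ∀ x, φ x ≠ ⊤) (hP : ∀ t : ℝ, tr t φ ∈ C.P) (s : ℝ) :
    MeasurableSet (hiS φ s) := by
  have h2 : hiS φ s = {x | -s < tr s φ x} := by
    ext x
    exact mem_hiS_iff (hφ x) le_rfl
  rw [h2]
  exact measurableSet_lt measurable_const (meas (hP s))

theorem meas_lowS {φ : X → EReal} (hφ : ∀ x, φ x ≠ ⊤) (hP : ∀ t : ℝ, tr t φ ∈ C.P) (s : ℝ) :
    MeasurableSet (lowS φ s) := by
  rw [← hiS_compl]
  exact (meas_hiS hφ hP s).compl

end Calc

end Pool.Agent.DMA
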