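import Pool.Agent.Lib.DMA.AB2

/-! # DMA, row AB3: domination, scaling, perturbation -/

set_option autoImplicit false

open scoped Topology
open Set Filter MeasureTheory

noncomputable section

namespace Pool.Agent.DMA

variable {X : Type*} [TopologicalSpace X] [CompactSpace X] [T2Space X] [SecondCountableTopology X]
  [MeasurableSpace X] [BorelSpace X] {n : ℕ} {C : Calc X n}

namespace Calc

/-! ## AB3: domination, scaling, perturbation -/

/-- `M(s, Θ) ≤ 2 M(0, Θ)` if `s` and `-s` are in `P`. -/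
theorem dom {s : X → ℝ} (hs : s ∈ C.P) (hs' : (fun x => -s x) ∈ C.P) {Θ : Multiset (X → ℝ)}
    (hΘ : C.Ok Θ) : C.M (s ::ₘ Θ) ≤ 2 • C.M ((fun _ => 0) ::ₘ Θ) := by
  have h := C.affine Θ hΘ.1 hΘ.2 s hs (fun x => -s x) hs' (1 / 2) (by norm_num) (by norm_num)
  have h0 : (fun x => 1 / 2 * s x + (1 - 1 / 2) * (fun x => -s x) x) = fun _ => (0 : ℝ) := by
    funext x
    ring
  rw [h0] at h
  have h2 : (2 : ENNReal) * ENNReal.ofReal (1 / 2) = 1 := by
    rw [← ENNReal.ofReal_ofNat, ← ENNReal.ofReal_mul (by norm_num)]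
    norm_num
  rw [h]
  intro A
  rw [Measure.smul_apply, Measure.add_apply, Measure.smul_apply, nsmul_eq_mul, Nat.cast_ofNat,
    smul_eq_mul, mul_add, ← mul_assoc, h2, one_mul]
  exact le_self_add

namespace AB3

/-- One entry. -/
theorem z_one {u : X → ℝ} (hu : u ∈ C.P) {ε : ℝ} (h0 : 0 ≤ ε) (h1 : ε ≤ 1) (x : ℝ)
    {Θ : Multiset (X → ℝ)} (hΘ : Multiset.card Θ + 1 = n) (hΘ' : ∀ u ∈ Θ, u ∈ C.P) :
    ENNReal.ofReal (1 - ε) • C.M (u ::ₘ Θ) ≤ C.M ((fun y => (1 - ε) * u y - ε * x) ::ₘ Θ) := by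
  have h := C.affine Θ hΘ hΘ' u hu (fun _ => 0) C.P_zero (1 - ε) (by linarith) (by linarith)
  have h2 := C.shift Θ hΘ hΘ' _ (C.P_conv u hu (fun _ => 0) C.P_zero (1 - ε) (by linarith)
    (by linarith)) (-(ε * x))
  rw [h] at h2
  have h3 : (fun y => (1 - ε) * u y + (1 - (1 - ε)) * (fun _ => (0 : ℝ)) y + -(ε * x)) =
      fun y => (1 - ε) * u y - ε * x := by
    funext y
    ring
  rw [h3] at h2
  rw [h2]
  exact Measure.le_add_right le_rfl

/-- `k` entries. -/
theorem z_many {u : X → ℝ} (hu : u ∈ C.P) {ε : ℝ} (h0 : 0 ≤ ε) (h1 : ε ≤ 1) (x : ℝ) (k : ℕ) :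
    ∀ Ψ : Multiset (X → ℝ), Multiset.card Ψ + k = n → (∀ u ∈ Ψ, u ∈ C.P) →
    ENNReal.ofReal (1 - ε) ^ k • C.M (Multiset.replicate k u + Ψ) ≤
      C.M (Multiset.replicate k (fun y => (1 - ε) * u y - ε * x) + Ψ) := by
  induction k with
  | zero =>
    intro Ψ _ _
    rw [Multiset.replicate_zero, Multiset.replicate_zero, pow_zero, one_smul]
  | succ k ih =>
    intro Ψ hΨ hΨ'
    have hz := z_mem hu h0 h1 x
    have e1 := ih ((fun y => (1 - ε) * u y - ε * x) ::ₘ Ψ)
      (by rw [Multiset.card_cons]; omega) (by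
        intro v hv
        rcases Multiset.mem_cons.1 hv with h | h
        · rw [h]
          exact hz
        · exact hΨ' v h)
    rw [Multiset.add_cons, Multiset.add_cons] at e1
    have e2 := z_one hu h0 h1 x (Θ := Multiset.replicate k u + Ψ)
      (by rw [Multiset.card_add, Multiset.card_replicate]; omega) (by
        intro v hv
        rcases Multiset.mem_add.1 hv with h | h
        · rw [Multiset.eq_of_mem_replicate h]
          exact hu
        · exact hΨ' v h)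
    rw [Multiset.replicate_succ, Multiset.replicate_succ, Multiset.cons_add, Multiset.cons_add]
    refine le_trans ?_ e1
    rw [pow_succ, mul_smul]
    intro A
    rw [Measure.smul_apply, Measure.smul_apply]
    have := e2 A
    rw [smul_eq_mul]
    exact mul_le_mul_right this _

/-- One step of the perturbation. -/
theorem chg_one {a b : X → ℝ} (ha : a ∈ C.P) (hb : b ∈ C.P) {ε : ℝ}
    (hab : ∀ x, |a x - b x| ≤ ε) {v : X → ℝ} {c : ℝ} (hc : 0 < c)
    (hv : (fun x => c * v x) ∈ C.P) {Θ : Multiset (X → ℝ)} (hΘ : Multiset.card Θ + 1 = n)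
    (hΘ' : ∀ u ∈ Θ, u ∈ C.P) :
    |∫ x, v x ∂(C.M (a ::ₘ Θ)) - ∫ x, v x ∂(C.M (b ::ₘ Θ))| ≤ 2 * ε / c * C.V := by
  have h := C.ibp Θ hΘ hΘ' a ha b hb (fun x => c * v x) hv (fun _ => 0) C.P_zero
  simp only [sub_zero, integral_const_mul] at h
  have key : ∀ w ∈ C.P, |∫ x, (a x - b x) ∂(C.M (w ::ₘ Θ))| ≤ ε * C.V := by
    intro w hw
    have h1 := norm_integral_le_of_norm_le_const (μ := C.M (w ::ₘ Θ)) (f := fun x => a x - b x)
      (C := ε) (ae_of_all _ hab)
    rw [massR (by rw [Multiset.card_cons]; exact hΘ) (by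
      intro u hu
      rcases Multiset.mem_cons.1 hu with h | h
      · rw [h]
        exact hw
      · exact hΘ' u h)] at h1
    exact h1
  have h1 := abs_le.1 (key _ hv)
  have h2 := abs_le.1 (key _ C.P_zero)
  have h3 : c * |∫ x, v x ∂(C.M (a ::ₘ Θ)) - ∫ x, v x ∂(C.M (b ::ₘ Θ))| ≤ 2 * ε * C.V := by
    have h4 : c * |∫ x, v x ∂(C.M (a ::ₘ Θ)) - ∫ x, v x ∂(C.M (b ::ₘ Θ))| =
        |c * (∫ x, v x ∂(C.M (a ::ₘ Θ)) - ∫ x, v x ∂(C.M (b ::ₘ Θ)))| := by
      rw [abs_mul, abs_of_pos hc]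
    rw [h4, mul_sub, h, abs_le]
    constructor <;> linarith [h1.1, h1.2, h2.1, h2.2]
  rw [div_mul_eq_mul_div, le_div_iff₀ hc]
  linarith

end AB3

open AB3

/-- `MA ((1 - ε) u - ε x) ≥ (1 - ε)^n MA u ≥ MA u - n ε V`. -/
theorem MA_z {u : X → ℝ} (hu : u ∈ C.P) {ε : ℝ} (h0 : 0 ≤ ε) (h1 : ε ≤ 1) (x : ℝ) (A : Set X) :
    (C.MA u).real A - n * ε * C.V ≤ (C.MA fun y => (1 - ε) * u y - ε * x).real A := by
  have h := z_many hu h0 h1 x n 0 (by simp) (by simp) A
  rw [add_zero, add_zero, Measure.smul_apply, smul_eq_mul] at h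
  have h2 := ENNReal.toReal_mono (measure_ne_top (C.MA fun y => (1 - ε) * u y - ε * x) A) h
  rw [ENNReal.toReal_mul, ENNReal.toReal_pow, ENNReal.toReal_ofReal (by linarith)] at h2
  have h3 : (1 - ε) ^ n * (C.MA u).real A ≤ (C.MA fun y => (1 - ε) * u y - ε * x).real A := h2
  have h4 : 1 + (n : ℝ) * (-ε) ≤ (1 + -ε) ^ n := one_add_mul_le_pow (by linarith) n
  have h5 : (C.MA u).real A ≤ C.V := real_le (Multiset.card_replicate n u) (by
    intro v hv
    rw [Multiset.eq_of_mem_replicate hv]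
    exact hu) A
  have h6 : 0 ≤ (C.MA u).real A := measureReal_nonneg
  have h7 : (1 + (n : ℝ) * (-ε)) * (C.MA u).real A ≤ (1 - ε) ^ n * (C.MA u).real A := by
    have := mul_le_mul_of_nonneg_right h4 h6
    rwa [← sub_eq_add_neg 1 ε] at this
  have h8 : (n : ℝ) * ε * (C.MA u).real A ≤ n * ε * C.V :=
    mul_le_mul_of_nonneg_left h5 (by positivity)
  nlinarith

/-- Change of `k` entries by at most `ε` against a smooth function `v` with `c v ∈ P`. -/
theorem chg {a b : X → ℝ} (ha : a ∈ C.P) (hb : b ∈ C.P) {ε : ℝ} (hab : ∀ x, |a x - b x| ≤ ε)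
    {v : X → ℝ} {c : ℝ} (hc : 0 < c) (hv : (fun x => c * v x) ∈ C.P) (k : ℕ)
    (Ψ : Multiset (X → ℝ)) (hΨ : Multiset.card Ψ + k = n) (hΨ' : ∀ u ∈ Ψ, u ∈ C.P) :
    |∫ x, v x ∂(C.M (Multiset.replicate k a + Ψ)) -
      ∫ x, v x ∂(C.M (Multiset.replicate k b + Ψ))| ≤ k * (2 * ε / c) * C.V := by
  induction k generalizing Ψ with
  | zero => simp
  | succ k ih =>
    have e1 := ih (b ::ₘ Ψ) (by rw [Multiset.card_cons]; omega) (by
        intro v hv
        rcases Multiset.mem_cons.1 hv with h | h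
        · rw [h]
          exact hb
        · exact hΨ' v h)
    rw [Multiset.add_cons, Multiset.add_cons] at e1
    have e2 := chg_one ha hb hab hc hv (Θ := Multiset.replicate k a + Ψ)
      (by rw [Multiset.card_add, Multiset.card_replicate]; omega) (by
        intro v hv
        rcases Multiset.mem_add.1 hv with h | h
        · rw [Multiset.eq_of_mem_replicate h]
          exact ha
        · exact hΨ' v h)
    rw [Multiset.replicate_succ, Multiset.replicate_succ, Multiset.cons_add, Multiset.cons_add]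
    have e3 := abs_sub_le (∫ x, v x ∂(C.M (a ::ₘ (Multiset.replicate k a + Ψ))))
      (∫ x, v x ∂(C.M (b ::ₘ (Multiset.replicate k a + Ψ))))
      (∫ x, v x ∂(C.M (b ::ₘ (Multiset.replicate k b + Ψ))))
    push_cast
    linarith

end Calc

end Pool.Agent.DMA
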