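import Pool.Agent.Lib.DMA.AB3

/-! # DMA, row AB4: telescoping -/

set_option autoImplicit false

open scoped Topology
open Set Filter MeasureTheory

noncomputable section

namespace Pool.Agent.DMA

variable {X : Type*} [TopologicalSpace X] [CompactSpace X] [T2Space X] [SecondCountableTopology X]
  [MeasurableSpace X] [BorelSpace X] {n : ℕ} {C : Calc X n}

namespace Calc

/-! ## AB4: telescoping -/

private theorem tele_ok_aux {a b : X → ℝ} (ha : a ∈ C.P) (hb : b ∈ C.P) {k : ℕ} (hk : k < n) :
    Multiset.card (Multiset.replicate (n - 1 - k) a + Multiset.replicate k b) + 1 = n ∧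
      ∀ u ∈ Multiset.replicate (n - 1 - k) a + Multiset.replicate k b, u ∈ C.P := by
  refine ⟨?_, ?_⟩
  · rw [Multiset.card_add, Multiset.card_replicate, Multiset.card_replicate]; omega
  · intro u hu
    rcases Multiset.mem_add.1 hu with h | h
    · rw [Multiset.eq_of_mem_replicate h]; exact ha
    · rw [Multiset.eq_of_mem_replicate h]; exact hb

/-- `∫ s (MA a - MA b) = ∑_k ∫ (a - b) dd^c s ∧ ω_a^{n-1-k} ∧ ω_b^k`. -/
theorem tele {a b s : X → ℝ} (ha : a ∈ C.P) (hb : b ∈ C.P) (hs : s ∈ C.P) :
    ∫ x, s x ∂(C.MA a) - ∫ x, s x ∂(C.MA b) =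
      ∑ k ∈ Finset.range n,
        (∫ x, (a x - b x) ∂(C.M (s ::ₘ (Multiset.replicate (n - 1 - k) a +
            Multiset.replicate k b))) -
          ∫ x, (a x - b x) ∂(C.M ((fun _ => 0) ::ₘ (Multiset.replicate (n - 1 - k) a +
            Multiset.replicate k b)))) := by
  have key : ∀ k ∈ Finset.range n,
      (∫ x, (a x - b x) ∂(C.M (s ::ₘ (Multiset.replicate (n - 1 - k) a +
            Multiset.replicate k b))) -
          ∫ x, (a x - b x) ∂(C.M ((fun _ => 0) ::ₘ (Multiset.replicate (n - 1 - k) a +
            Multiset.replicate k b)))) =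
      (fun k => ∫ x, s x ∂(C.M (Multiset.replicate (n - k) a + Multiset.replicate k b))) k -
        (fun k => ∫ x, s x ∂(C.M (Multiset.replicate (n - k) a + Multiset.replicate k b)))
          (k + 1) := by
    intro k hk
    have hk' := Finset.mem_range.1 hk
    obtain ⟨h1, h2⟩ := tele_ok_aux (C := C) ha hb hk'
    have h := C.ibp _ h1 h2 a ha b hb s hs (fun _ => 0) C.P_zero
    simp only [sub_zero] at h
    have e1 : Multiset.replicate (n - k) a + Multiset.replicate k b =
        a ::ₘ (Multiset.replicate (n - 1 - k) a + Multiset.replicate k b) := by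
      have : n - k = (n - 1 - k) + 1 := by omega
      rw [this, Multiset.replicate_succ, Multiset.cons_add]
    have e2 : Multiset.replicate (n - (k + 1)) a + Multiset.replicate (k + 1) b =
        b ::ₘ (Multiset.replicate (n - 1 - k) a + Multiset.replicate k b) := by
      have : n - (k + 1) = n - 1 - k := by omega
      rw [this, Multiset.replicate_succ, Multiset.add_cons]
    simp only
    rw [e1, e2]
    exact h.symm
  rw [Finset.sum_congr rfl key, Finset.sum_range_sub']
  simp [MA]

/-- The entries of the telescoping sum are admissible. -/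
theorem tele_ok {a b : X → ℝ} (ha : a ∈ C.P) (hb : b ∈ C.P) {k : ℕ} (hk : k < n) :
    C.Ok (Multiset.replicate (n - 1 - k) a + Multiset.replicate k b) :=
  tele_ok_aux ha hb hk

end Calc

end Pool.Agent.DMA
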