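import Pool.Agent.Lib.DMA.AT2

/-! # DMA, row AC1: the basic inequality -/

set_option autoImplicit false

open scoped Topology
open Set Filter MeasureTheory

noncomputable section

namespace Pool.Agent.DMA

variable {X : Type*} [TopologicalSpace X] [CompactSpace X] [T2Space X] [SecondCountableTopology X]
  [MeasurableSpace X] [BorelSpace X] {n : ℕ} {C : Calc X n} {φ : X → EReal} {c : ℝ}

/-- `z = (1 - ε) u - ε x`. -/
def zz (u : X → ℝ) (ε x : ℝ) (y : X) : ℝ := (1 - ε) * u y - ε * x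

namespace AC1

omit [TopologicalSpace X] [CompactSpace X] [T2Space X] [SecondCountableTopology X]
  [BorelSpace X] in
private theorem intdiff {μ₁ μ₂ : Measure X} {A : Set X} (hA : MeasurableSet A)
    (h : μ₁.restrict A = μ₂.restrict A) {f₁ f₂ : X → ℝ} (hf : ∀ y ∈ A, f₁ y = f₂ y)
    (i₁ : Integrable f₁ μ₁) (i₂ : Integrable f₂ μ₂) :
    ∫ y, f₁ y ∂μ₁ - ∫ y, f₂ y ∂μ₂ = ∫ y in Aᶜ, f₁ y ∂μ₁ - ∫ y in Aᶜ, f₂ y ∂μ₂ := by
  rw [← integral_add_compl hA i₁, ← integral_add_compl hA i₂]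
  have h1 : ∫ y in A, f₁ y ∂μ₁ = ∫ y in A, f₂ y ∂μ₂ := by
    rw [h]
    exact setIntegral_congr_fun hA hf
  rw [h1]
  ring

omit [TopologicalSpace X] [CompactSpace X] [T2Space X] [SecondCountableTopology X]
  [BorelSpace X] in
private theorem bnd {μ : Measure X} [IsFiniteMeasure μ] {A : Set X} (hA : MeasurableSet A)
    {f : X → ℝ} {N m : ℝ} (hN : 0 ≤ N) (hf : ∀ y, 0 ≤ f y ∧ f y ≤ N) (hm : μ.real A ≤ m) :
    0 ≤ ∫ y in A, f y ∂μ ∧ ∫ y in A, f y ∂μ ≤ N * m := by
  refine ⟨setIntegral_nonneg hA fun y _ => (hf y).1, ?_⟩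
  have h1 : ‖∫ y in A, f y ∂μ‖ ≤ N * μ.real A := by
    refine norm_setIntegral_le_of_norm_le_const (measure_lt_top _ _) fun y _ => ?_
    rw [Real.norm_eq_abs, abs_of_nonneg (hf y).1]
    exact (hf y).2
  exact (le_abs_self _).trans (h1.trans (mul_le_mul_of_nonneg_left hm hN))

private theorem agree {a b : X → ℝ} (ha : a ∈ C.P) (hb : b ∈ C.P) {A : Set X}
    (hA : A ⊆ {y | b y < a y}) (k : ℕ) (Ψ : Multiset (X → ℝ))
    (hΨ : Multiset.card Ψ + k = n) (hΨ' : ∀ u ∈ Ψ, u ∈ C.P) :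
    (C.M (Multiset.replicate k (fun y => max (a y) (b y)) + Ψ)).restrict A =
      (C.M (Multiset.replicate k a + Ψ)).restrict A :=
  Measure.restrict_congr_mono hA (Calc.maxlocN ha hb k Ψ hΨ hΨ')

private theorem agree2 {v u z : X → ℝ} (hv : v ∈ C.P) (hu : u ∈ C.P) (hz : z ∈ C.P) {A : Set X}
    (hA : A ⊆ {y | z y < v y}) (hA' : A ⊆ {y | z y < u y}) {g : X → ℝ} (hg : g ∈ C.P) {a k : ℕ}
    (hn : a + k + 1 = n) :
    (C.M (g ::ₘ (Multiset.replicate a v + Multiset.replicate k u))).restrict A =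
      (C.M (g ::ₘ (Multiset.replicate a (fun y => max (v y) (z y)) +
        Multiset.replicate k (fun y => max (u y) (z y))))).restrict A := by
  have hw : (fun y => max (v y) (z y)) ∈ C.P := C.P_max _ hv _ hz
  have e1 : g ::ₘ (Multiset.replicate a v + Multiset.replicate k u) =
      Multiset.replicate a v + (g ::ₘ Multiset.replicate k u) := by
    rw [Multiset.add_cons]
  have e2 : Multiset.replicate a (fun y => max (v y) (z y)) + (g ::ₘ Multiset.replicate k u) =
      Multiset.replicate k u + (g ::ₘ Multiset.replicate a (fun y => max (v y) (z y))) := by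
    rw [Multiset.add_cons, Multiset.add_cons, add_comm]
  have e3 : g ::ₘ (Multiset.replicate a (fun y => max (v y) (z y)) +
        Multiset.replicate k (fun y => max (u y) (z y))) =
      Multiset.replicate k (fun y => max (u y) (z y)) +
        (g ::ₘ Multiset.replicate a (fun y => max (v y) (z y))) := by
    rw [Multiset.add_cons, add_comm]
  rw [e1, ← agree hv hz hA a (g ::ₘ Multiset.replicate k u) ?_ ?_, e2, e3,
    agree hu hz hA' k (g ::ₘ Multiset.replicate a (fun y => max (v y) (z y))) ?_ ?_]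
  · rw [Multiset.card_cons, Multiset.card_replicate]
    omega
  · intro f hf
    rcases Multiset.mem_cons.1 hf with h | h
    · rw [h]; exact hg
    · rw [Multiset.eq_of_mem_replicate h]; exact hw
  · rw [Multiset.card_cons, Multiset.card_replicate]
    omega
  · intro f hf
    rcases Multiset.mem_cons.1 hf with h | h
    · rw [h]; exact hg
    · rw [Multiset.eq_of_mem_replicate h]; exact hu

end AC1

open AC1 in
/-- AC1: the basic inequality. -/
theorem basic (h : Adm C φ c) {u v : X → ℝ} (hu : Btw C φ c u) (hv : Btw C φ c v) {N : ℝ}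
    (hN : 0 ≤ N)
    (huv : ∀ x, u x ≤ v x ∧ v x ≤ u x + N) {ε : ℝ} (h0 : 0 < ε) (h1 : ε < 1) {x : ℝ} (hx : 0 < x)
    (hxc : -c ≤ x) {s : X → ℝ} {κ : ℝ} (hκ : 0 < κ) (hs : Continuous s)
    (hsP : (fun y => κ * s y) ∈ C.P) (hsP' : (fun y => -(κ * s y)) ∈ C.P) {S : ℝ}
    (hS : ∀ y, |s y| ≤ S) {q : ℝ}
    (hq : ∀ Θ : Multiset (X → ℝ), Multiset.card Θ + 1 = n → (∀ w ∈ Θ, Btw C φ c w) →
      (C.M ((fun _ => 0) ::ₘ Θ)).real (lowS φ x) ≤ q) :
    |∫ y in {y | u y ≤ -x}, s y ∂(C.MA v) - ∫ y in {y | u y ≤ -x}, s y ∂(C.MA u)| ≤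
      6 * n * N * q / κ +
        S * ((C.MA fun y => max (v y) (zz u ε x y)).real {y | -x - N / ε ≤ u y ∧ u y ≤ -x} +
          (C.MA fun y => max (u y) (zz u ε x y)).real {y | -x - N / ε ≤ u y ∧ u y ≤ -x}) := by
  set z : X → ℝ := zz u ε x with hz
  have hzP : z ∈ C.P := Calc.z_mem hu.1 h0.le h1.le x
  set w : X → ℝ := fun y => max (v y) (z y) with hw
  set w' : X → ℝ := fun y => max (u y) (z y) with hw'
  have hwP : w ∈ C.P := C.P_max _ hv.1 _ hzP
  have hwP' : w' ∈ C.P := C.P_max _ hu.1 _ hzP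
  have hzc : ∀ y, z y ≤ c := by
    intro y
    have h2 := (hu.2 y).2
    show (1 - ε) * u y - ε * x ≤ c
    nlinarith
  have hwB : Btw C φ c w := by
    refine ⟨hwP, fun y => ⟨?_, max_le (hv.2 y).2 (hzc y)⟩⟩
    exact (hv.2 y).1.trans (EReal.coe_le_coe_iff.2 (le_max_left _ _))
  have hwB' : Btw C φ c w' := by
    refine ⟨hwP', fun y => ⟨?_, max_le (hu.2 y).2 (hzc y)⟩⟩
    exact (hu.2 y).1.trans (EReal.coe_le_coe_iff.2 (le_max_left _ _))
  have hum : Measurable u := Calc.meas hu.1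
  set A : Set X := {y | -x < u y} with hAdef
  have hA : MeasurableSet A := measurableSet_lt measurable_const hum
  have hAc : Aᶜ = {y | u y ≤ -x} := by
    ext y
    simp [hAdef]
  have hzu : A ⊆ {y | z y < u y} := by
    intro y hy
    have hy' : -x < u y := hy
    show (1 - ε) * u y - ε * x < u y
    nlinarith
  have hzv : A ⊆ {y | z y < v y} := fun y hy => lt_of_lt_of_le (hzu hy) (huv y).1
  have hlow : Aᶜ ⊆ lowS φ x := by
    intro y hy
    rw [hAc] at hy
    exact (hu.2 y).1.trans (EReal.coe_le_coe_iff.2 hy)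
  set s' : X → ℝ := fun y => κ * s y with hs'
  -- the two telescoping sums
  have T1 := Calc.tele hv.1 hu.1 hsP
  have T2 := Calc.tele hwP hwP' hsP
  have hww : ∀ y, 0 ≤ w y - w' y ∧ w y - w' y ≤ N := by
    intro y
    have h2 := (huv y).1
    have h3 := (huv y).2
    constructor
    · have : w' y ≤ w y := max_le_max h2 le_rfl
      linarith
    · have : w y ≤ w' y + N := by
        refine max_le ?_ ?_
        · exact h3.trans (by linarith [le_max_left (u y) (z y)])
        · linarith [le_max_right (u y) (z y)]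
      linarith
  have hvu : ∀ y, 0 ≤ v y - u y ∧ v y - u y ≤ N := by
    intro y
    exact ⟨by linarith [(huv y).1], by linarith [(huv y).2]⟩
  have heqA : ∀ y ∈ A, v y - u y = w y - w' y := by
    intro y hy
    have e1 : w y = v y := max_eq_left (le_of_lt (hzv hy))
    have e2 : w' y = u y := max_eq_left (le_of_lt (hzu hy))
    rw [e1, e2]
  have hint : ∀ (f g : X → ℝ), f ∈ C.P → g ∈ C.P → ∀ (μ : Measure X) [IsFiniteMeasure μ],
      Integrable (fun y => f y - g y) μ := fun f g hf hg μ _ =>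
    (Calc.intg hf μ).sub (Calc.intg hg μ)
  have hterm : ∀ k ∈ Finset.range n,
      |((∫ y, (v y - u y) ∂(C.M (s' ::ₘ (Multiset.replicate (n - 1 - k) v +
            Multiset.replicate k u))) -
          ∫ y, (v y - u y) ∂(C.M ((fun _ => 0) ::ₘ (Multiset.replicate (n - 1 - k) v +
            Multiset.replicate k u)))) -
        (∫ y, (w y - w' y) ∂(C.M (s' ::ₘ (Multiset.replicate (n - 1 - k) w +
            Multiset.replicate k w'))) -
          ∫ y, (w y - w' y) ∂(C.M ((fun _ => 0) ::ₘ (Multiset.replicate (n - 1 - k) w +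
            Multiset.replicate k w')))))| ≤ 6 * N * q := by
    intro k hk
    have hk' := Finset.mem_range.1 hk
    have hok1 := Calc.tele_ok hv.1 hu.1 hk'
    have hok2 := Calc.tele_ok hwP hwP' hk'
    have hB1 : ∀ f ∈ Multiset.replicate (n - 1 - k) v + Multiset.replicate k u, Btw C φ c f := by
      intro f hf
      rcases Multiset.mem_add.1 hf with h2 | h2
      · rw [Multiset.eq_of_mem_replicate h2]; exact hv
      · rw [Multiset.eq_of_mem_replicate h2]; exact hu
    have hB2 : ∀ f ∈ Multiset.replicate (n - 1 - k) w + Multiset.replicate k w',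
        Btw C φ c f := by
      intro f hf
      rcases Multiset.mem_add.1 hf with h2 | h2
      · rw [Multiset.eq_of_mem_replicate h2]; exact hwB
      · rw [Multiset.eq_of_mem_replicate h2]; exact hwB'
    have m0 : ∀ Θ : Multiset (X → ℝ), C.Ok Θ → (∀ f ∈ Θ, Btw C φ c f) →
        (C.M ((fun _ => 0) ::ₘ Θ)).real Aᶜ ≤ q := by
      intro Θ hΘ hΘB
      exact (measureReal_mono hlow).trans (hq Θ hΘ.1 hΘB)
    have ms : ∀ Θ : Multiset (X → ℝ), C.Ok Θ → (∀ f ∈ Θ, Btw C φ c f) →
        (C.M (s' ::ₘ Θ)).real Aᶜ ≤ 2 * q := by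
      intro Θ hΘ hΘB
      have h2 : C.M (s' ::ₘ Θ) Aᶜ ≤ 2 * C.M ((fun _ => 0) ::ₘ Θ) Aᶜ := by
        have h3 := Calc.dom hsP hsP' hΘ Aᶜ
        rw [Measure.smul_apply, nsmul_eq_mul] at h3
        exact_mod_cast h3
      have h4 : (C.M (s' ::ₘ Θ)).real Aᶜ ≤ 2 * (C.M ((fun _ => 0) ::ₘ Θ)).real Aᶜ := by
        unfold Measure.real
        have h5 : (2 * C.M ((fun _ => 0) ::ₘ Θ) Aᶜ).toReal =
            2 * (C.M ((fun _ => 0) ::ₘ Θ) Aᶜ).toReal := by
          rw [ENNReal.toReal_mul]; norm_num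
        rw [← h5]
        exact ENNReal.toReal_mono (ENNReal.mul_ne_top (by norm_num) (measure_ne_top _ _)) h2
      linarith [m0 Θ hΘ hΘB]
    have hkn : (n - 1 - k) + k + 1 = n := by omega
    have d1 := intdiff hA (agree2 hv.1 hu.1 hzP hzv hzu hsP hkn) heqA
      (hint v u hv.1 hu.1 _) (hint w w' hwP hwP' _)
    have d2 := intdiff hA (agree2 hv.1 hu.1 hzP hzv hzu C.P_zero hkn) heqA
      (hint v u hv.1 hu.1 _) (hint w w' hwP hwP' _)
    have b1 := bnd hA.compl hN hvu (ms _ hok1 hB1)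
    have b2 := bnd hA.compl hN hww (ms _ hok2 hB2)
    have b3 := bnd hA.compl hN hvu (m0 _ hok1 hB1)
    have b4 := bnd hA.compl hN hww (m0 _ hok2 hB2)
    have hq0 : 0 ≤ q := measureReal_nonneg.trans (m0 _ hok1 hB1)
    have hNq : 0 ≤ N * q := mul_nonneg hN hq0
    rw [abs_le]
    constructor <;> nlinarith [d1, d2, b1.1, b1.2, b2.1, b2.2, b3.1, b3.2, b4.1, b4.2]
  have hsum : |(∫ y, s' y ∂(C.MA v) - ∫ y, s' y ∂(C.MA u)) -
      (∫ y, s' y ∂(C.MA w) - ∫ y, s' y ∂(C.MA w'))| ≤ n * (6 * N * q) := by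
    rw [T1, T2, ← Finset.sum_sub_distrib]
    refine (Finset.abs_sum_le_sum_abs _ _).trans ?_
    refine (Finset.sum_le_sum hterm).trans ?_
    rw [Finset.sum_const, Finset.card_range, nsmul_eq_mul]
  -- the measures agree on `A`
  have hMAv : (C.MA v).restrict A = (C.MA w).restrict A := by
    have h2 := agree hv.1 hzP hzv n 0 (by simp) (by simp)
    rw [add_zero, add_zero] at h2
    exact h2.symm
  have hMAu : (C.MA u).restrict A = (C.MA w').restrict A := by
    have h2 := agree hu.1 hzP hzu n 0 (by simp) (by simp)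
    rw [add_zero, add_zero] at h2
    exact h2.symm
  have dv := intdiff hA hMAv (f₁ := s') (f₂ := s') (fun _ _ => rfl)
    (Calc.intg hsP _) (Calc.intg hsP _)
  have du := intdiff hA hMAu (f₁ := s') (f₂ := s') (fun _ _ => rfl)
    (Calc.intg hsP _) (Calc.intg hsP _)
  -- the set `R`
  set R : Set X := {y | u y < -x - N / ε} with hR
  have hRo : IsOpen R := (C.P_usc u hu.1).isOpen_preimage _
  set Tr : Set X := {y | -x - N / ε ≤ u y ∧ u y ≤ -x} with hTr
  have hRm : MeasurableSet R := hRo.measurableSet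
  have hTrm : MeasurableSet Tr :=
    (measurableSet_le measurable_const hum).inter (measurableSet_le hum measurable_const)
  have hNε : 0 ≤ N / ε := div_nonneg hN h0.le
  have hunion : Aᶜ = Tr ∪ R := by
    rw [hAc]
    ext y
    simp only [hTr, hR, mem_setOf_eq, mem_union]
    constructor
    · intro hy
      rcases le_or_gt (-x - N / ε) (u y) with h2 | h2
      · exact Or.inl ⟨h2, hy⟩
      · exact Or.inr h2
    · rintro (h2 | h2)
      · exact h2.2
      · linarith
  have hdisj : Disjoint Tr R := by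
    rw [Set.disjoint_left]
    intro y hy hy'
    exact absurd hy.1 (not_le.2 hy')
  have hwwR : ∀ y ∈ R, w y = w' y := by
    intro y hy
    have hy' : u y < -x - N / ε := hy
    have h2 : v y ≤ z y := by
      have h3 := (huv y).2
      have h4 : N / ε * ε = N := div_mul_cancel₀ N h0.ne'
      show v y ≤ (1 - ε) * u y - ε * x
      nlinarith
    have h3 : u y ≤ z y := (huv y).1.trans h2
    show max (v y) (z y) = max (u y) (z y)
    rw [max_eq_right h2, max_eq_right h3]
  have hMAR : (C.MA w).restrict R = (C.MA w').restrict R := by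
    have h2 := Calc.locN hwP hwP' hRo hwwR n 0 (by simp) (by simp)
    rw [add_zero, add_zero] at h2
    exact h2
  have hsi : ∀ (μ : Measure X) [IsFiniteMeasure μ], Integrable s' μ := fun μ _ =>
    Calc.intg hsP μ
  have split : ∀ (μ : Measure X) [IsFiniteMeasure μ],
      ∫ y in Aᶜ, s' y ∂μ = ∫ y in Tr, s' y ∂μ + ∫ y in R, s' y ∂μ := by
    intro μ _
    rw [hunion]
    exact setIntegral_union hdisj hRm (hsi μ).integrableOn (hsi μ).integrableOn
  have hw1 := split (C.MA w)
  have hw2 := split (C.MA w')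
  have hR12 : ∫ y in R, s' y ∂(C.MA w) = ∫ y in R, s' y ∂(C.MA w') := by
    rw [hMAR]
  have bT : ∀ (μ : Measure X) [IsFiniteMeasure μ], |∫ y in Tr, s' y ∂μ| ≤ κ * S * μ.real Tr := by
    intro μ _
    have h2 : ‖∫ y in Tr, s' y ∂μ‖ ≤ κ * S * μ.real Tr := by
      refine norm_setIntegral_le_of_norm_le_const (measure_lt_top _ _) fun y _ => ?_
      rw [Real.norm_eq_abs, hs', abs_mul, abs_of_pos hκ]
      exact mul_le_mul_of_nonneg_left (hS y) hκ.le
    exact h2
  have bw := bT (C.MA w)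
  have bw' := bT (C.MA w')
  have hfin : |∫ y in Aᶜ, s' y ∂(C.MA v) - ∫ y in Aᶜ, s' y ∂(C.MA u)| ≤
      n * (6 * N * q) + κ * S * ((C.MA w).real Tr + (C.MA w').real Tr) := by
    rw [abs_le] at hsum bw bw' ⊢
    constructor <;> linarith [hsum.1, hsum.2, bw.1, bw.2, bw'.1, bw'.2]
  have hscal : ∀ (μ : Measure X), ∫ y in Aᶜ, s' y ∂μ = κ * ∫ y in Aᶜ, s y ∂μ := fun μ =>
    integral_const_mul κ _
  rw [hscal, hscal, ← mul_sub, abs_mul, abs_of_pos hκ] at hfin
  rw [← hAc]
  have h5 : κ * (6 * n * N * q / κ + S * ((C.MA w).real Tr + (C.MA w').real Tr)) =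
      n * (6 * N * q) + κ * S * ((C.MA w).real Tr + (C.MA w').real Tr) := by
    field_simp
  refine le_of_mul_le_mul_left ?_ hκ
  rw [h5]
  exact hfin

end Pool.Agent.DMA
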