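import Pool.Agent.Lib.DMA.AC1

/-! # DMA, row AC2: transition masses -/

set_option autoImplicit false

open scoped Topology
open Set Filter MeasureTheory

noncomputable section

namespace Pool.Agent.DMA

variable {X : Type*} [TopologicalSpace X] [CompactSpace X] [T2Space X] [SecondCountableTopology X]
  [MeasurableSpace X] [BorelSpace X] {n : ℕ} {C : Calc X n} {φ : X → EReal} {c : ℝ}

/-- measures which agree on `S` give the same mass to measurable subsets of `S` -/
theorem AC2_real_eq {μ ν : Measure X} {S A : Set X} (h : μ.restrict S = ν.restrict S)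
    (hA : MeasurableSet A) (hAS : A ⊆ S) : μ.real A = ν.real A := by
  have h1 : μ.restrict S A = ν.restrict S A := by rw [h]
  rw [Measure.restrict_apply hA, Measure.restrict_apply hA, inter_eq_left.2 hAS] at h1
  rw [measureReal_def, measureReal_def, h1]

theorem AC2_max_left {a b : X → ℝ} (ha : a ∈ C.P) (hb : b ∈ C.P) {A : Set X}
    (hA : MeasurableSet A) (hAS : ∀ y ∈ A, b y < a y) :
    (C.MA fun y => max (a y) (b y)).real A = (C.MA a).real A := by
  have h := Calc.maxlocN (C := C) ha hb n 0 (by simp) (by simp)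
  rw [add_zero, add_zero] at h
  exact AC2_real_eq h hA hAS

theorem AC2_max_right {a b : X → ℝ} (ha : a ∈ C.P) (hb : b ∈ C.P) {A : Set X}
    (hA : MeasurableSet A) (hAS : ∀ y ∈ A, a y < b y) :
    (C.MA fun y => max (a y) (b y)).real A = (C.MA b).real A := by
  have h := AC2_max_left (C := C) hb ha hA hAS
  rw [← h]
  simp only [max_comm]

theorem AC2_massMA {u : X → ℝ} (hu : u ∈ C.P) : (C.MA u).real univ = C.V :=
  Calc.massR (by simp) (fun w hw => by rw [Multiset.eq_of_mem_replicate hw]; exact hu)

private theorem key {u v : X → ℝ} (hu : u ∈ C.P) (hv : v ∈ C.P) {N : ℝ} {ε : ℝ} (h0 : 0 < ε)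
    (h1 : ε < 1) {x : ℝ} {K : ℝ} (hK : N / ε < K) (hN : 0 ≤ N)
    (hA : ∀ y, -x < u y → zz u ε x y < v y) (hR : ∀ y, u y < -x - N / ε → v y < zz u ε x y) :
    (C.MA fun y => max (v y) (zz u ε x y)).real {y | -x - N / ε ≤ u y ∧ u y ≤ -x} ≤
      (C.MA u).real {y | -(x + K) < u y} - (C.MA v).real {y | -x < u y} + n * ε * C.V := by
  have hz : zz u ε x ∈ C.P := Calc.z_mem hu h0.le h1.le x
  have hw : (fun y => max (v y) (zz u ε x y)) ∈ C.P := C.P_max _ hv _ hz
  have mu : Measurable u := Calc.meas hu
  have mA : MeasurableSet {y | -x < u y} := measurableSet_lt measurable_const mu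
  have mR : MeasurableSet {y | u y < -x - N / ε} := measurableSet_lt mu measurable_const
  have mT : MeasurableSet {y | -x - N / ε ≤ u y ∧ u y ≤ -x} :=
    (measurableSet_le measurable_const mu).inter (measurableSet_le mu measurable_const)
  have hNε : 0 ≤ N / ε := div_nonneg hN h0.le
  have e1 : (C.MA fun y => max (v y) (zz u ε x y)).real {y | -x < u y} =
      (C.MA v).real {y | -x < u y} := AC2_max_left hv hz mA hA
  have e2 : (C.MA fun y => max (v y) (zz u ε x y)).real {y | u y < -x - N / ε} =
      (C.MA (zz u ε x)).real {y | u y < -x - N / ε} := AC2_max_right hv hz mR hR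
  have e3 : (C.MA u).real {y | u y < -x - N / ε} - n * ε * C.V ≤
      (C.MA (zz u ε x)).real {y | u y < -x - N / ε} := Calc.MA_z hu h0.le h1.le x _
  have e4 : (C.MA u).real {y | -(x + K) < u y}ᶜ ≤ (C.MA u).real {y | u y < -x - N / ε} := by
    refine measureReal_mono ?_
    intro y hy
    simp only [mem_compl_iff, mem_setOf_eq, not_lt] at hy ⊢
    linarith
  have e5 : (C.MA u).real {y | -(x + K) < u y} + (C.MA u).real {y | -(x + K) < u y}ᶜ = C.V := by
    rw [measureReal_add_measureReal_compl (measurableSet_lt measurable_const mu), AC2_massMA hu]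
  have e6 : (C.MA fun y => max (v y) (zz u ε x y)).real {y | -x < u y} +
      (C.MA fun y => max (v y) (zz u ε x y)).real {y | -x < u y}ᶜ = C.V := by
    rw [measureReal_add_measureReal_compl mA, AC2_massMA hw]
  have e7 : {y | -x < u y}ᶜ =
      {y | -x - N / ε ≤ u y ∧ u y ≤ -x} ∪ {y | u y < -x - N / ε} := by
    ext y
    simp only [mem_compl_iff, mem_setOf_eq, not_lt, mem_union]
    constructor
    · intro h
      by_cases h' : u y < -x - N / ε
      · exact Or.inr h'
      · exact Or.inl ⟨not_lt.1 h', h⟩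
    · rintro (h | h)
      · exact h.2
      · linarith
  have e8 : (C.MA fun y => max (v y) (zz u ε x y)).real {y | -x < u y}ᶜ =
      (C.MA fun y => max (v y) (zz u ε x y)).real {y | -x - N / ε ≤ u y ∧ u y ≤ -x} +
      (C.MA fun y => max (v y) (zz u ε x y)).real {y | u y < -x - N / ε} := by
    rw [e7]
    refine measureReal_union ?_ mR
    rw [Set.disjoint_left]
    intro y hy hy'
    exact absurd hy.1 (not_le.2 hy')
  linarith

/-- AC2: the transition masses. -/
theorem transit {u v : X → ℝ} (hu : u ∈ C.P) (hv : v ∈ C.P) {N : ℝ}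
    (huv : ∀ x, u x ≤ v x ∧ v x ≤ u x + N) {ε : ℝ} (h0 : 0 < ε) (h1 : ε < 1) {x : ℝ}
    {K : ℝ} (hK : N / ε < K) :
    (C.MA fun y => max (u y) (zz u ε x y)).real {y | -x - N / ε ≤ u y ∧ u y ≤ -x} ≤
      (C.MA u).real {y | -(x + K) < u y} - (C.MA u).real {y | -x < u y} + n * ε * C.V ∧
    (C.MA fun y => max (v y) (zz u ε x y)).real {y | -x - N / ε ≤ u y ∧ u y ≤ -x} ≤
      (C.MA u).real {y | -(x + K) < u y} - (C.MA v).real {y | -x < u y} + n * ε * C.V := by
  rcases isEmpty_or_nonempty X with hX | hX
  · have hz : ∀ (μ : Measure X) (A : Set X), μ.real A = 0 := by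
      intro μ A
      rw [Set.eq_empty_of_isEmpty A]
      simp
    have hV : C.V = 0 := by
      rw [← AC2_massMA hu]
      exact hz _ _
    simp only [hz, hV]
    simp
  · obtain ⟨y0⟩ := hX
    have hN : 0 ≤ N := by
      have := huv y0
      linarith
    have hzz : ∀ y, zz u ε x y = (1 - ε) * u y - ε * x := fun y => rfl
    refine ⟨key hu hu h0 h1 hK hN ?_ ?_, key hu hv h0 h1 hK hN ?_ ?_⟩
    · intro y hy
      rw [hzz]
      nlinarith
    · intro y hy
      rw [hzz]
      have : 0 ≤ N / ε := div_nonneg hN h0.le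
      nlinarith
    · intro y hy
      rw [hzz]
      have := (huv y).1
      nlinarith
    · intro y hy
      rw [hzz]
      have h2 := (huv y).2
      have h3 : ε * (N / ε) = N := by field_simp
      have h4 : ε * u y < ε * (-x - N / ε) := mul_lt_mul_of_pos_left hy h0
      nlinarith

end Pool.Agent.DMA
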