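import Pool.Agent.Lib.DMA.AC2

/-! # DMA, row AC3: reverse comparison -/

set_option autoImplicit false

open scoped Topology
open Set Filter MeasureTheory

noncomputable section

namespace Pool.Agent.DMA

variable {X : Type*} [TopologicalSpace X] [CompactSpace X] [T2Space X] [SecondCountableTopology X]
  [MeasurableSpace X] [BorelSpace X] {n : ℕ} {C : Calc X n} {φ : X → EReal} {c : ℝ}

/-- AC3: the reverse comparison. -/
theorem revcmp {u v : X → ℝ} (hu : u ∈ C.P) (hv : v ∈ C.P) {N : ℝ}
    (huv : ∀ x, u x ≤ v x ∧ v x ≤ u x + N) {ε : ℝ} (h0 : 0 < ε) (h1 : ε < 1) {x : ℝ}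
    {K : ℝ} (hK : N / ε + N < K) :
    (C.MA u).real {y | -x < u y} ≤ (C.MA v).real {y | -(x + K) < u y} + n * ε * C.V := by
  rcases isEmpty_or_nonempty X with hX | hX
  · have hz : ∀ (μ : Measure X) (A : Set X), μ.real A = 0 := by
      intro μ A
      rw [Set.eq_empty_of_isEmpty A]
      simp
    have hV : C.V = 0 := by
      rw [← AC2_massMA hu]
      exact hz _ _
    simp only [hz, hV]
    simp
  · obtain ⟨y0⟩ := hX
    have hN : 0 ≤ N := by
      have := huv y0
      linarith
    have hNε : 0 ≤ N / ε := div_nonneg hN h0.le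
    set x' := x + N / ε with hx'
    have hx'ε : ε * x' = ε * x + N := by
      rw [hx']
      field_simp
    have hz : zz v ε x' ∈ C.P := Calc.z_mem hv h0.le h1.le x'
    have hzz : ∀ y, zz v ε x' y = (1 - ε) * v y - ε * x' := fun y => rfl
    have hw : (fun y => max (u y) (zz v ε x' y)) ∈ C.P := C.P_max _ hu _ hz
    have mu : Measurable u := Calc.meas hu
    have mv : Measurable v := Calc.meas hv
    have mA : MeasurableSet {y | -x < u y} := measurableSet_lt measurable_const mu
    have mR : MeasurableSet {y | v y < -x'} := measurableSet_lt mv measurable_const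
    have e1 : (C.MA fun y => max (u y) (zz v ε x' y)).real {y | -x < u y} =
        (C.MA u).real {y | -x < u y} := by
      refine AC2_max_left hu hz mA ?_
      intro y hy
      rw [hzz, hx'ε]
      have h2 := (huv y).2
      have h3 : ε * (-x) < ε * u y := mul_lt_mul_of_pos_left hy h0
      have h4 : (1 - ε) * v y ≤ (1 - ε) * (u y + N) :=
        mul_le_mul_of_nonneg_left h2 (by linarith)
      have h5 : 0 ≤ ε * N := mul_nonneg h0.le hN
      nlinarith
    have e2 : (C.MA fun y => max (u y) (zz v ε x' y)).real {y | v y < -x'} =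
        (C.MA (zz v ε x')).real {y | v y < -x'} := by
      refine AC2_max_right hu hz mR ?_
      intro y hy
      rw [hzz]
      have h2 := (huv y).1
      have h3 : ε * v y < ε * (-x') := mul_lt_mul_of_pos_left hy h0
      nlinarith
    have e3 : (C.MA v).real {y | v y < -x'} - n * ε * C.V ≤
        (C.MA (zz v ε x')).real {y | v y < -x'} := Calc.MA_z hv h0.le h1.le x' _
    have e4 : (C.MA fun y => max (u y) (zz v ε x' y)).real ({y | -x < u y} ∪ {y | v y < -x'}) =
        (C.MA fun y => max (u y) (zz v ε x' y)).real {y | -x < u y} +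
        (C.MA fun y => max (u y) (zz v ε x' y)).real {y | v y < -x'} := by
      refine measureReal_union ?_ mR
      rw [Set.disjoint_left]
      intro y hy hy'
      simp only [mem_setOf_eq] at hy hy'
      have h2 := (huv y).1
      linarith
    have e5 : (C.MA fun y => max (u y) (zz v ε x' y)).real ({y | -x < u y} ∪ {y | v y < -x'}) ≤
        C.V := by
      rw [← AC2_massMA hw]
      exact measureReal_mono (subset_univ _)
    have e6 : (C.MA v).real {y | v y < -x'} + (C.MA v).real {y | v y < -x'}ᶜ = C.V := by
      rw [measureReal_add_measureReal_compl mR, AC2_massMA hv]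
    have e7 : (C.MA v).real {y | v y < -x'}ᶜ ≤ (C.MA v).real {y | -(x + K) < u y} := by
      refine measureReal_mono ?_
      intro y hy
      simp only [mem_compl_iff, mem_setOf_eq, not_lt] at hy ⊢
      have h2 := (huv y).2
      linarith
    linarith

end Pool.Agent.DMA
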