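import Pool.Agent.Lib.DMA.AC3

/-! # DMA, row AC4: pigeonhole -/

set_option autoImplicit false

open scoped Topology
open Set Filter MeasureTheory

noncomputable section

namespace Pool.Agent.DMA

variable {X : Type*} [TopologicalSpace X] [CompactSpace X] [T2Space X] [SecondCountableTopology X]
  [MeasurableSpace X] [BorelSpace X] {n : ℕ} {C : Calc X n} {φ : X → EReal} {c : ℝ}

/-- AC4: pigeonhole. -/
theorem pigeon {f g : ℝ → ℝ} (hf : Monotone f) {V K a : ℝ} (hK : 0 < K)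
    (hfV : ∀ x, 0 ≤ f x ∧ f x ≤ V) (hfg : ∀ x, f x ≤ g (x + K) + a) (x0 : ℝ) {m : ℕ}
    (hm : 0 < m) :
    ∃ x, x0 ≤ x ∧ x ≤ x0 + m * K ∧ (f (x + K) - g x) + (f (x + K) - f x) ≤ 3 * V / m + a := by
  by_contra! h
  have hm' : (0 : ℝ) < m := by exact_mod_cast hm
  set F : ℕ → ℝ := fun i => f (x0 + i * K) with hF
  have h1 : ∀ i ∈ Finset.range m, 3 * V / m + a <
      ((F (i + 1 + 1) - F (i + 1)) + (F (i + 1) - F i) + a) + (F (i + 1 + 1) - F (i + 1)) := by
    intro i hi
    have hi' : ((i : ℝ) + 1) ≤ m := by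
      have := Finset.mem_range.1 hi
      exact_mod_cast this
    have hi0 : (0 : ℝ) ≤ i := Nat.cast_nonneg i
    have h2 := h (x0 + ((i : ℝ) + 1) * K) (by nlinarith) (by nlinarith)
    have h3 := hfg (x0 + (i : ℝ) * K)
    have e1 : x0 + (i : ℝ) * K + K = x0 + ((i : ℝ) + 1) * K := by ring
    have e2 : F (i + 1 + 1) = f (x0 + ((i : ℝ) + 1) * K + K) := by
      simp only [hF]; congr 1; push_cast; ring
    have e3 : F (i + 1) = f (x0 + ((i : ℝ) + 1) * K) := by
      simp only [hF]; congr 1; push_cast; ring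
    have e4 : F i = f (x0 + (i : ℝ) * K) := rfl
    rw [e1] at h3
    rw [e2, e3, e4]
    linarith
  have h2 := Finset.sum_lt_sum_of_nonempty (Finset.nonempty_range_iff.2 hm.ne') h1
  rw [Finset.sum_const, Finset.card_range, nsmul_eq_mul, Finset.sum_add_distrib,
    Finset.sum_add_distrib, Finset.sum_add_distrib, Finset.sum_const, Finset.card_range,
    nsmul_eq_mul, Finset.sum_range_sub (fun i => F (i + 1)), Finset.sum_range_sub F] at h2
  have h3 : (m : ℝ) * (3 * V / m + a) = 3 * V + m * a := by field_simp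
  rw [h3] at h2
  have a1 := (hfV (x0 + ((m + 1 : ℕ) : ℝ) * K)).2
  have a2 := (hfV (x0 + ((0 + 1 : ℕ) : ℝ) * K)).1
  have a3 := (hfV (x0 + (m : ℝ) * K)).2
  have a4 := (hfV (x0 + ((0 : ℕ) : ℝ) * K)).1
  simp only [hF] at h2
  linarith

end Pool.Agent.DMA
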