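import Pool.Agent.Lib.DMA.AC4

/-! # DMA, row AC5: no concentration -/

set_option autoImplicit false

open scoped Topology
open Set Filter MeasureTheory

noncomputable section

namespace Pool.Agent.DMA

variable {X : Type*} [TopologicalSpace X] [CompactSpace X] [T2Space X] [SecondCountableTopology X]
  [MeasurableSpace X] [BorelSpace X] {n : ℕ} {C : Calc X n} {φ : X → EReal} {c : ℝ}

/-- AC5: no concentration. -/
theorem noconc (h : Adm C φ c)
    (hA : ∀ a b : ℕ, a + b = n → 0 < a → Tendsto (dlt C φ a b) atTop (𝓝 0)) (hn : 0 < n)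
    {χ : X → ℝ} (hχ : χ ∈ C.S) (h01 : ∀ x, 0 ≤ χ x ∧ χ x ≤ 1) {N : ℝ} (hN : 0 ≤ N) {η : ℝ}
    (hη : 0 < η) :
    ∃ x1 > 0, ∀ u v : X → ℝ, Btw C φ c u → Btw C φ c v →
      (∀ x, u x ≤ v x ∧ v x ≤ u x + N) → ∫ x, χ x ∂(C.MA v) = 0 →
      ∫ y in {y | u y ≤ -x1}, χ y ∂(C.MA u) ≤ η := by
  have hV : 0 ≤ C.V := Calc.V_nonneg
  have hnR : (0 : ℝ) ≤ n := Nat.cast_nonneg n
  have hnV : 0 ≤ (n : ℝ) * C.V := mul_nonneg hnR hV
  have hnN : 0 ≤ (n : ℝ) * N := mul_nonneg hnR hN
  obtain ⟨κ, hκ, hsm⟩ := Calc.small hχ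
  -- the parameters
  set ε : ℝ := min (1 / 2) (η / (9 * (n * C.V + 1))) with hε
  have hε0 : 0 < ε := lt_min (by norm_num) (by positivity)
  have hε1 : ε < 1 := lt_of_le_of_lt (min_le_left _ _) (by norm_num)
  have hεV : 3 * (n * ε * C.V) ≤ η / 3 := by
    have h1 : ε ≤ η / (9 * (n * C.V + 1)) := min_le_right _ _
    rw [le_div_iff₀ (by positivity)] at h1
    nlinarith
  set K : ℝ := N / ε + N + 1 with hKd
  have hNε : 0 ≤ N / ε := div_nonneg hN hε0.le
  have hK : 0 < K := by linarith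
  obtain ⟨m, hm0, hm⟩ : ∃ m : ℕ, 0 < m ∧ 3 * C.V / m ≤ η / 3 := by
    refine ⟨⌈9 * C.V / η⌉₊ + 1, Nat.succ_pos _, ?_⟩
    have h1 : 9 * C.V / η ≤ ((⌈9 * C.V / η⌉₊ + 1 : ℕ) : ℝ) := by
      push_cast
      linarith [Nat.le_ceil (9 * C.V / η)]
    have h2 : (0 : ℝ) < ((⌈9 * C.V / η⌉₊ + 1 : ℕ) : ℝ) := by positivity
    rw [div_le_iff₀ hη] at h1
    rw [div_le_iff₀ h2]
    nlinarith
  set q : ℝ := η * κ / (18 * (n * N + 1)) with hqd
  have hq0 : 0 < q := by positivity
  have hqb : 6 * n * N * q / κ ≤ η / 3 := by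
    rw [hqd]
    have e : 6 * (n : ℝ) * N * (η * κ / (18 * (n * N + 1))) / κ
        = (n * N) * η / (3 * (n * N + 1)) := by
      field_simp
      ring
    rw [e, div_le_div_iff₀ (by positivity) (by norm_num)]
    nlinarith
  obtain ⟨x0', hx0', htr⟩ := trace h hA hn q hq0
  set x0 : ℝ := max x0' |c| with hx0d
  have hx0 : 0 < x0 := lt_of_lt_of_le hx0' (le_max_left _ _)
  have hx0c : -c ≤ x0 := (neg_le_abs c).trans (le_max_right _ _)
  refine ⟨x0 + m * K, by positivity, ?_⟩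
  intro u v hu hv huv hzero
  haveI := C.fin (Multiset.replicate n u)
  haveI := C.fin (Multiset.replicate n v)
  haveI : IsFiniteMeasure (C.MA u) := C.fin _
  haveI : IsFiniteMeasure (C.MA v) := C.fin _
  -- the pigeonhole principle
  have hf : Monotone fun x : ℝ => (C.MA u).real {y | -x < u y} := by
    intro x x' hxx
    apply measureReal_mono
    · intro y hy
      exact lt_of_le_of_lt (neg_le_neg hxx) hy
    · exact measure_ne_top _ _
  have hfV : ∀ x : ℝ, 0 ≤ (C.MA u).real {y | -x < u y} ∧ (C.MA u).real {y | -x < u y} ≤ C.V := by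
    intro x
    refine ⟨measureReal_nonneg, ?_⟩
    exact Calc.real_le (Multiset.card_replicate n u)
      (fun w hw => by rw [Multiset.eq_of_mem_replicate hw]; exact hu.1) _
  have hfg : ∀ x : ℝ, (C.MA u).real {y | -x < u y} ≤
      (C.MA v).real {y | -(x + K) < u y} + n * ε * C.V := by
    intro x
    exact revcmp hu.1 hv.1 huv hε0 hε1 (by rw [hKd]; linarith)
  obtain ⟨x, hxl, hxr, hpg⟩ := pigeon (f := fun x : ℝ => (C.MA u).real {y | -x < u y})
    (g := fun x : ℝ => (C.MA v).real {y | -x < u y}) hf hK hfV hfg x0 hm0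
  have hx : 0 < x := lt_of_lt_of_le hx0 hxl
  have hxc : -c ≤ x := hx0c.trans hxl
  have hmainb := basic h hu hv hN huv hε0 hε1 hx hxc hκ (C.S_cont χ hχ)
    (hsm κ (by rw [abs_of_pos hκ]))
    (by
      have h2 := hsm (-κ) (by rw [abs_neg, abs_of_pos hκ])
      have e : (fun y => -(κ * χ y)) = fun y => -κ * χ y := by
        funext y; ring
      rw [e]; exact h2)
    (S := 1) (fun y => by rw [abs_of_nonneg (h01 y).1]; exact (h01 y).2)
    (q := q) (fun Θ hΘ hw => htr x ((le_max_left _ _).trans hxl) Θ hΘ hw)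
  obtain ⟨ht1, ht2⟩ := transit hu.1 hv.1 huv hε0 hε1 (x := x) (K := K)
    (by rw [hKd]; linarith)
  -- the integral against `MA v` vanishes
  have hnn : ∀ y, 0 ≤ χ y := fun y => (h01 y).1
  have hv0 : ∫ y in {y | u y ≤ -x}, χ y ∂(C.MA v) = 0 := by
    apply le_antisymm
    · rw [← hzero]
      exact setIntegral_le_integral (Calc.intgS hχ _) (Eventually.of_forall hnn)
    · exact integral_nonneg hnn
  rw [hv0, zero_sub, abs_neg, one_mul] at hmainb
  have hle1 : ∫ y in {y | u y ≤ -x}, χ y ∂(C.MA u) ≤ η := by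
    have h3 := le_abs_self (∫ y in {y | u y ≤ -x}, χ y ∂(C.MA u))
    have hpg' : ((C.MA u).real {y | -(x + K) < u y} - (C.MA v).real {y | -x < u y}) +
      ((C.MA u).real {y | -(x + K) < u y} - (C.MA u).real {y | -x < u y}) ≤
        3 * C.V / m + n * ε * C.V := hpg
    linarith
  refine le_trans ?_ hle1
  apply setIntegral_mono_set
  · exact (Calc.intgS hχ (C.MA u)).integrableOn
  · exact Eventually.of_forall hnn
  · apply HasSubset.Subset.eventuallyLE
    intro y hy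
    exact le_trans hy (neg_le_neg hxr)

end Pool.Agent.DMA
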