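import Pool.Agent.Lib.DMA.AB4

/-! # DMA: definitions for Lemma A -/

set_option autoImplicit false

open scoped Topology
open Set Filter MeasureTheory

noncomputable section

namespace Pool.Agent.DMA

variable {X : Type*} [TopologicalSpace X] [CompactSpace X] [T2Space X] [SecondCountableTopology X]
  [MeasurableSpace X] [BorelSpace X] {n : ℕ} {C : Calc X n}

/-- Admissible functions: bounded above by `c`, truncations in `P`. -/
structure Adm (C : Calc X n) (φ : X → EReal) (c : ℝ) : Prop where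
  ub : ∀ x, φ x ≤ (c : EReal)
  trP : ∀ t : ℝ, tr t φ ∈ C.P

/-- `φ` is in the domain of definition, with measure `μ` (bounded approximants). -/
structure ADma (C : Calc X n) (φ : X → EReal) (c : ℝ) (μ : Measure X) : Prop
    extends Adm C φ c where
  fin : IsFiniteMeasure μ
  lim : ∀ u : ℕ → X → ℝ, (∀ j, u j ∈ C.P) → (∀ x, Antitone fun j => u j x) →
    (∀ x, Tendsto (fun j => ((u j x : ℝ) : EReal)) atTop (𝓝 (φ x))) →
    ∀ f : X → ℝ, Continuous f → Tendsto (fun j => ∫ x, f x ∂(C.MA (u j))) atTop (𝓝 (∫ x, f x ∂μ))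

variable {φ : X → EReal} {c : ℝ} {μ : Measure X}

theorem Adm.ne_top (h : Adm C φ c) (x : X) : φ x ≠ ⊤ := by
  intro hx
  have := h.ub x
  rw [hx] at this
  exact absurd (top_le_iff.1 this) (EReal.coe_ne_top c)

/-- `b_t = max (φ, -t + ε v)`. -/
def bt (φ : X → EReal) (v : X → ℝ) (ε t : ℝ) (x : X) : ℝ := max (tr (t + 1) φ x) (-t + ε * v x)

end Pool.Agent.DMA
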