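import Pool.Agent.Lib.DMA.W2

/-! # DMA, row W3 -/

set_option autoImplicit false

open scoped Topology
open Set Filter MeasureTheory

noncomputable section

namespace Pool.Agent.DMA

variable {X : Type*} [TopologicalSpace X] [CompactSpace X] [T2Space X] [SecondCountableTopology X]
  [MeasurableSpace X] [BorelSpace X]

/-- The upper limit of the masses of a closed set is at most the mass of the limit. -/
theorem ulim_closed {F : Filter ℕ} [F.NeBot] {ν : ℕ → Measure X} {l : Measure X}
    (hf : ∀ j, IsFiniteMeasure (ν j)) [IsFiniteMeasure l]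
    (hl : ∀ f : X → ℝ, Continuous f → Tendsto (fun j => ∫ x, f x ∂(ν j)) F (𝓝 (∫ x, f x ∂l)))
    {K : Set X} (hK : IsClosed K) {ε : ℝ} (hε : 0 < ε) :
    ∀ᶠ j in F, (ν j).real K ≤ l.real K + ε := by
  have hlt : l K < l K + ENNReal.ofReal (ε / 2) :=
    ENNReal.lt_add_right (measure_ne_top l K) (by simpa using hε)
  obtain ⟨U, hKU, hU, hUlt⟩ := K.exists_isOpen_lt_of_lt _ hlt
  obtain ⟨f, hf0, hf1, hf01⟩ := exists_continuous_zero_one_of_isClosed hU.isClosed_compl hK
    (by
      rw [Set.disjoint_left]
      intro x hx hxK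
      exact hx (hKU hxK))
  have hint : ∀ (m : Measure X) [IsFiniteMeasure m], Integrable (fun x => f x) m := by
    intro m _
    refine Integrable.of_bound f.continuous.aestronglyMeasurable 1 (Filter.Eventually.of_forall
      fun x => ?_)
    rw [Real.norm_eq_abs, abs_of_nonneg (hf01 x).1]
    exact (hf01 x).2
  have h1 : ∫ x, f x ∂l ≤ l.real K + ε / 2 := by
    have h2 : ∫ x, f x ∂l ≤ ∫ x, U.indicator (fun _ => (1 : ℝ)) x ∂l := by
      refine integral_mono (hint l) ?_ fun x => ?_
      · exact (integrable_const (1 : ℝ)).indicator hU.measurableSet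
      · by_cases hx : x ∈ U
        · rw [Set.indicator_of_mem hx]
          exact (hf01 x).2
        · rw [Set.indicator_of_notMem hx]
          exact (hf0 (show x ∈ Uᶜ from hx)).le
    have h3 : ∫ x, U.indicator (fun _ => (1 : ℝ)) x ∂l = l.real U := by
      rw [integral_indicator hU.measurableSet, setIntegral_const, smul_eq_mul, mul_one]
    have h4 : l.real U ≤ l.real K + ε / 2 := by
      rw [measureReal_def, measureReal_def]
      have h5 : (l U).toReal ≤ (l K + ENNReal.ofReal (ε / 2)).toReal :=
        ENNReal.toReal_mono (by finiteness) hUlt.le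
      rw [ENNReal.toReal_add (measure_ne_top l K) ENNReal.ofReal_ne_top,
        ENNReal.toReal_ofReal (by linarith)] at h5
      exact h5
    linarith
  have h2 : ∀ᶠ j in F, ∫ x, f x ∂(ν j) < l.real K + ε :=
    (hl f f.continuous).eventually (gt_mem_nhds (by linarith))
  filter_upwards [h2] with j hj
  have := hf j
  have h3 : (ν j).real K ≤ ∫ x, f x ∂(ν j) := by
    have h4 : (ν j).real K = ∫ x, K.indicator (fun _ => (1 : ℝ)) x ∂(ν j) := by
      rw [integral_indicator hK.measurableSet, setIntegral_const, smul_eq_mul, mul_one]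
    rw [h4]
    refine integral_mono ((integrable_const (1 : ℝ)).indicator hK.measurableSet) (hint (ν j))
      fun x => ?_
    by_cases hx : x ∈ K
    · rw [Set.indicator_of_mem hx]
      exact (hf1 hx).ge
    · rw [Set.indicator_of_notMem hx]
      exact (hf01 x).1
  linarith

/-- The mass of an open set is at most the lower limit of the masses. -/
theorem ulim_open_le {F : Filter ℕ} [F.NeBot] {ν : ℕ → Measure X} {l : Measure X}
    (hf : ∀ j, IsFiniteMeasure (ν j)) [IsFiniteMeasure l]
    (hl : ∀ f : X → ℝ, Continuous f → Tendsto (fun j => ∫ x, f x ∂(ν j)) F (𝓝 (∫ x, f x ∂l)))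
    {U : Set X} (hU : IsOpen U) {ε : ℝ} (hε : 0 < ε) :
    ∀ᶠ j in F, l.real U ≤ (ν j).real U + ε := by
  have h1 := ulim_closed hf hl hU.isClosed_compl (half_pos hε)
  have h2 : ∀ᶠ j in F, l.real univ - ε / 2 < (ν j).real univ := by
    have h3 := hl (fun _ => 1) continuous_const
    simp only [integral_const, smul_eq_mul, mul_one] at h3
    exact h3.eventually (lt_mem_nhds (by linarith))
  filter_upwards [h1, h2] with j hj1 hj2
  have := hf j
  have h3 := measureReal_add_measureReal_compl (μ := ν j) hU.measurableSet
  have h4 := measureReal_add_measureReal_compl (μ := l) hU.measurableSet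
  linarith

end Pool.Agent.DMA
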