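import Pool.Agent.Lib.DMA.AC5
import Pool.Agent.Lib.DMA.W3

/-! # DMA, row AF1: the balayage family -/

set_option autoImplicit false

open scoped Topology
open Set Filter MeasureTheory

noncomputable section

namespace Pool.Agent.DMA

variable {X : Type*} [TopologicalSpace X] [CompactSpace X] [T2Space X] [SecondCountableTopology X]
  [MeasurableSpace X] [BorelSpace X] {n : ℕ} {C : Calc X n} {φ : X → EReal} {c : ℝ}
  {μ : Measure X}

/-! ## AF1: the balayage family -/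

/-- `Y_t`, the balayage of `φ_t`. -/
def YY (φ : X → EReal) (hat : (X → ℝ) → (X → ℝ)) (t : ℝ) : X → ℝ := hat (tr t φ)

/-- `b_{N,t} = max (φ_t, Y_t - N)`. -/
def bb (φ : X → EReal) (hat : (X → ℝ) → (X → ℝ)) (N t : ℝ) (x : X) : ℝ :=
  max (tr t φ x) (YY φ hat t x - N)

/-- The upper bound of the family. -/
theorem exists_c0 (h : Adm C φ c) {B : Set X} {hat : (X → ℝ) → (X → ℝ)} (hb : C.Bal B hat) :
    ∃ c0 ≥ c, ∀ t : ℝ, -c ≤ t → Btw C φ c0 (YY φ hat t) := by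
  have hcP : (fun _ : X => c) ∈ C.P := C.const_mem c
  obtain ⟨D, hD⟩ := C.P_bdd _ (hb.mem _ hcP)
  refine ⟨max c D, le_max_left _ _, fun t ht => ⟨hb.mem _ (h.trP t), fun x => ⟨?_, ?_⟩⟩⟩
  · refine (le_tr (h.ne_top x) t).trans ?_
    exact EReal.coe_le_coe_iff.mpr (hb.max _ (h.trP t) _ (h.trP t) (fun _ _ => le_rfl) x)
  · have h1 : hat (tr t φ) x ≤ hat (fun _ => c) x := by
      refine hb.max _ hcP _ (hb.mem _ (h.trP t)) (fun y hy => ?_) x
      rw [hb.eq _ (h.trP t) y hy]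
      exact tr_le_of_le (h.ub y) (by linarith)
    exact (h1.trans ((le_abs_self _).trans (hD x))).trans (le_max_right _ _)

theorem YY_mono (h : Adm C φ c) {B : Set X} {hat : (X → ℝ) → (X → ℝ)} (hb : C.Bal B hat)
    {s t : ℝ} (hst : s ≤ t) (x : X) : YY φ hat t x ≤ YY φ hat s x := by
  refine hb.max _ (h.trP s) _ (hb.mem _ (h.trP t)) (fun y hy => ?_) x
  rw [hb.eq _ (h.trP t) y hy]
  exact tr_anti (h.ne_top y) hst

theorem tr_le_YY (h : Adm C φ c) {B : Set X} {hat : (X → ℝ) → (X → ℝ)} (hb : C.Bal B hat)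
    (t : ℝ) (x : X) : tr t φ x ≤ YY φ hat t x :=
  hb.max _ (h.trP t) _ (h.trP t) (fun _ _ => le_rfl) x

theorem bb_btw (h : Adm C φ c) {B : Set X} {hat : (X → ℝ) → (X → ℝ)} (hb : C.Bal B hat)
    {c0 : ℝ} (hc0 : c ≤ c0) {t : ℝ} (ht : -c ≤ t) (hY : Btw C φ c0 (YY φ hat t)) {N : ℝ}
    (hN : 0 ≤ N) : Btw C φ c0 (bb φ hat N t) ∧
      (∀ x, bb φ hat N t x ≤ YY φ hat t x ∧ YY φ hat t x ≤ bb φ hat N t x + N) ∧
      (∀ x, tr t φ x ≤ bb φ hat N t x) ∧ ∀ x, x ∉ B → bb φ hat N t x = tr t φ x := by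
  have hY2 : (fun x => YY φ hat t x - N) ∈ C.P := by
    have := C.P_const _ hY.1 (-N)
    simpa only [sub_eq_add_neg] using this
  refine ⟨⟨C.P_max _ (h.trP t) _ hY2, fun x => ⟨?_, ?_⟩⟩, fun x => ⟨?_, ?_⟩, fun x => ?_,
    fun x hx => ?_⟩
  · exact (le_tr (h.ne_top x) t).trans (EReal.coe_le_coe_iff.mpr (le_max_left _ _))
  · refine max_le ?_ ?_
    · exact (tr_le_of_le (h.ub x) (by linarith)).trans hc0
    · linarith [(hY.2 x).2]
  · exact max_le (tr_le_YY h hb t x) (by linarith)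
  · have : YY φ hat t x - N ≤ bb φ hat N t x := le_max_right _ _
    linarith
  · exact le_max_left _ _
  · have : YY φ hat t x = tr t φ x := hb.eq _ (h.trP t) x hx
    rw [bb, this]
    exact max_eq_left (by linarith)

end Pool.Agent.DMA
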