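import Pool.Agent.Lib.DMA.AF1

/-! # DMA, row AF2: limits of the family -/

set_option autoImplicit false

open scoped Topology
open Set Filter MeasureTheory

noncomputable section

namespace Pool.Agent.DMA

variable {X : Type*} [TopologicalSpace X] [CompactSpace X] [T2Space X] [SecondCountableTopology X]
  [MeasurableSpace X] [BorelSpace X] {n : ℕ} {C : Calc X n} {φ : X → EReal} {c : ℝ}
  {μ : Measure X}

/-! ## AF2: limits of the family -/

/-- Any diagonal sequence decreases to `φ`; hence its Monge–Ampère measures converge to `μ`. -/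
theorem bb_diag (h : ADma C φ c μ) {B : Set X} {hat : (X → ℝ) → (X → ℝ)} (hb : C.Bal B hat)
    {N t : ℕ → ℕ} (hN : StrictMono N) (ht : StrictMono t) {f : X → ℝ} (hf : Continuous f) :
    Tendsto (fun j => ∫ x, f x ∂(C.MA (bb φ hat (N j) (t j)))) atTop (𝓝 (∫ x, f x ∂μ)) := by
  have hA := h.toAdm
  have hNt : Tendsto (fun j => ((N j : ℕ) : ℝ)) atTop atTop :=
    tendsto_natCast_atTop_atTop.comp hN.tendsto_atTop
  have htt : Tendsto (fun j => ((t j : ℕ) : ℝ)) atTop atTop :=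
    tendsto_natCast_atTop_atTop.comp ht.tendsto_atTop
  refine h.lim (fun j => bb φ hat (N j) (t j)) (fun j => ?_) (fun x i j hij => ?_) (fun x => ?_)
    f hf
  · have hY2 : (fun x => YY φ hat (t j) x - (N j : ℝ)) ∈ C.P := by
      have h0 : YY φ hat (t j) ∈ C.P := hb.mem _ (hA.trP (t j))
      have := C.P_const _ h0 (-(N j : ℝ))
      simpa only [sub_eq_add_neg] using this
    exact C.P_max _ (hA.trP _) _ hY2
  · have h1 : ((t i : ℕ) : ℝ) ≤ ((t j : ℕ) : ℝ) := by exact_mod_cast ht.monotone hij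
    have h2 : ((N i : ℕ) : ℝ) ≤ ((N j : ℕ) : ℝ) := by exact_mod_cast hN.monotone hij
    have h3 := YY_mono hA hb h1 x
    exact max_le_max (tr_anti (hA.ne_top x) h1) (by linarith)
  · have e1 : Tendsto (fun j => ((tr (t j) φ x : ℝ) : EReal)) atTop (𝓝 (φ x)) :=
      (tr_tendsto (hA.ne_top x)).comp htt
    have e2 : Tendsto (fun j => YY φ hat 0 x - (N j : ℝ)) atTop atBot := by
      simp only [sub_eq_add_neg]
      exact tendsto_atBot_add_const_left _ _ (tendsto_neg_atTop_atBot.comp hNt)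
    have e3 : Tendsto (fun j => ((YY φ hat 0 x - (N j : ℝ) : ℝ) : EReal)) atTop (𝓝 ⊥) :=
      EReal.tendsto_coe_nhds_bot_iff.mpr e2
    have e4 := e1.max e3
    rw [max_bot_right] at e4
    refine tendsto_of_tendsto_of_tendsto_of_le_of_le e1 e4 (fun j => ?_) (fun j => ?_)
    · exact EReal.coe_le_coe_iff.mpr (le_max_left _ _)
    · rw [← EReal.coe_strictMono.monotone.map_max]
      refine EReal.coe_le_coe_iff.mpr (max_le_max le_rfl ?_)
      have h3 := YY_mono hA hb (Nat.cast_nonneg (α := ℝ) (t j)) x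
      linarith

/-- Double limit. -/
theorem bb_dbl (h : ADma C φ c μ) {B : Set X} {hat : (X → ℝ) → (X → ℝ)} (hb : C.Bal B hat)
    {f : X → ℝ} (hf : Continuous f) {ε : ℝ} (hε : 0 < ε) :
    ∃ N0 : ℕ, ∀ N : ℕ, N0 ≤ N → ∃ t0 : ℕ, ∀ t : ℕ, t0 ≤ t →
      |∫ x, f x ∂(C.MA (bb φ hat (N : ℝ) (t : ℝ))) - ∫ x, f x ∂μ| ≤ ε := by
  by_contra hcon
  push Not at hcon
  have hex : ∀ a : ℕ × ℕ, ∃ b : ℕ × ℕ, a.1 < b.1 ∧ a.2 < b.2 ∧
      ε < |∫ x, f x ∂(C.MA (bb φ hat (b.1 : ℝ) (b.2 : ℝ))) - ∫ x, f x ∂μ| := by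
    rintro ⟨a1, a2⟩
    obtain ⟨N, hN, h1⟩ := hcon (a1 + 1)
    obtain ⟨t, ht, h2⟩ := h1 (a2 + 1)
    exact ⟨(N, t), hN, ht, h2⟩
  choose g hg1 hg2 hg3 using hex
  let p : ℕ → ℕ × ℕ := fun j => g^[j + 1] (0, 0)
  have hp : ∀ j, p (j + 1) = g (p j) := fun j => by
    simp only [p]
    rw [Function.iterate_succ_apply' g (j + 1)]
  have hbad : ∀ j, ε < |∫ x, f x ∂(C.MA (bb φ hat ((p j).1 : ℝ) ((p j).2 : ℝ))) -
      ∫ x, f x ∂μ| := by
    intro j
    have : p j = g (g^[j] (0, 0)) := Function.iterate_succ_apply' g j (0, 0)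
    rw [this]
    exact hg3 _
  have m1 : StrictMono fun j => (p j).1 := strictMono_nat_of_lt_succ fun j => by
    rw [hp]
    exact hg1 _
  have m2 : StrictMono fun j => (p j).2 := strictMono_nat_of_lt_succ fun j => by
    rw [hp]
    exact hg2 _
  have hlim := bb_diag h hb m1 m2 hf
  have hev := (Metric.tendsto_nhds.mp hlim) ε hε
  obtain ⟨j, hj⟩ := hev.exists
  rw [Real.dist_eq] at hj
  exact absurd hj (not_lt.mpr (hbad j).le)

end Pool.Agent.DMA
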