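import Pool.Agent.Lib.DMA.AF2

/-! # DMA, row AF3: part (i) -/

set_option autoImplicit false

open scoped Topology
open Set Filter MeasureTheory

noncomputable section

namespace Pool.Agent.DMA

variable {X : Type*} [TopologicalSpace X] [CompactSpace X] [T2Space X] [SecondCountableTopology X]
  [MeasurableSpace X] [BorelSpace X] {n : ℕ} {C : Calc X n} {φ : X → EReal} {c : ℝ}
  {μ : Measure X}

/-- (i) -/
theorem bb_hiS (h : Adm C φ c) {B : Set X} {hat : (X → ℝ) → (X → ℝ)} (hb : C.Bal B hat)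
    {c0 : ℝ} (hc0 : c ≤ c0) {τ N t : ℝ} (hN : τ + c0 ≤ N) (ht : τ ≤ t) (htc : -c ≤ t)
    (hY : Btw C φ c0 (YY φ hat t)) :
    (C.MA (bb φ hat N t)).restrict (hiS φ τ) = (C.MA (tr τ φ)).restrict (hiS φ τ) := by
  have hb1 : (fun x => YY φ hat t x - N) ∈ C.P := by
    have := C.P_const _ hY.1 (-N)
    simpa only [sub_eq_add_neg] using this
  have h1 := Calc.maxlocN (C := C) (h.trP t) hb1 n 0 (by simp) (by simp)
  rw [add_zero, add_zero] at h1
  have hsub : hiS φ τ ⊆ {x | YY φ hat t x - N < tr t φ x} := by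
    intro x hx
    have h2 := (mem_hiS_iff (h.ne_top x) ht).1 hx
    have h3 := (hY.2 x).2
    show YY φ hat t x - N < tr t φ x
    linarith
  have h2 : (C.MA (bb φ hat N t)).restrict (hiS φ τ) =
      (C.MA (tr t φ)).restrict (hiS φ τ) := Measure.restrict_congr_mono hsub h1
  have h3 := Calc.trlocN (C := C) h.ne_top h.trP ht n 0 (by simp) (by simp)
  rw [add_zero, add_zero] at h3
  rw [h2]
  exact h3.symm

end Pool.Agent.DMA
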