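import Pool.Agent.Lib.DMA.AF3

/-! # DMA, row AF4: part (ii) -/

set_option autoImplicit false

open scoped Topology
open Set Filter MeasureTheory

noncomputable section

namespace Pool.Agent.DMA

variable {X : Type*} [TopologicalSpace X] [CompactSpace X] [T2Space X] [SecondCountableTopology X]
  [MeasurableSpace X] [BorelSpace X] {n : ℕ} {C : Calc X n} {φ : X → EReal} {c : ℝ}
  {μ : Measure X}

namespace AF4

theorem meas_F {χ H u : X → ℝ} (hχ : Continuous χ) (hH : H ∈ C.P) (hu : u ∈ C.P) :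
    Measurable fun x => χ x * (H x - u x) :=
  hχ.measurable.mul ((Calc.meas hH).sub (Calc.meas hu))

theorem intg_F {χ H u : X → ℝ} (hχ : Continuous χ) (hH : H ∈ C.P) (hu : u ∈ C.P)
    (m : Measure X) [IsFiniteMeasure m] : Integrable (fun x => χ x * (H x - u x)) m :=
  ((Calc.intg_mul hχ hH m).sub (Calc.intg_mul hχ hu m)).congr
    (Filter.Eventually.of_forall fun x => by
      change χ x * H x - χ x * u x = χ x * (H x - u x)
      ring)

/-- dominated convergence -/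
theorem dom {χ : X → ℝ} (hχ : Continuous χ) (h01 : ∀ x, 0 ≤ χ x ∧ χ x ≤ 1) {H : ℕ → X → ℝ}
    {u : X → ℝ} (hH : ∀ j, H j ∈ C.P) (hu : u ∈ C.P) {C1 : ℝ}
    (hb : ∀ j x, 0 ≤ H j x - u x ∧ H j x - u x ≤ C1)
    (hlim : ∀ x, Tendsto (fun j => H j x) atTop (𝓝 (u x))) (m : Measure X) [IsFiniteMeasure m] :
    Tendsto (fun j => ∫ x, χ x * (H j x - u x) ∂m) atTop (𝓝 0) := by
  have h1 := tendsto_integral_of_dominated_convergence (μ := m)
    (F := fun j x => χ x * (H j x - u x)) (f := fun _ => (0 : ℝ)) (fun _ => C1)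
    (fun j => (meas_F hχ (hH j) hu).aestronglyMeasurable) (integrable_const C1)
    (fun j => Filter.Eventually.of_forall fun x => by
      rw [Real.norm_eq_abs, abs_of_nonneg (mul_nonneg (h01 x).1 (hb j x).1)]
      calc χ x * (H j x - u x) ≤ 1 * (H j x - u x) :=
            mul_le_mul_of_nonneg_right (h01 x).2 (hb j x).1
        _ = H j x - u x := one_mul _
        _ ≤ C1 := (hb j x).2)
    (Filter.Eventually.of_forall fun x => by
      have h2 := ((hlim x).sub_const (u x)).const_mul (χ x)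
      rwa [sub_self, mul_zero] at h2)
  rwa [integral_zero] at h1

omit [CompactSpace X] [T2Space X] [SecondCountableTopology X] [BorelSpace X] in
theorem int_zero {B : Set X} {v χ : X → ℝ} (hv : C.MA v B = 0) (hχB : ∀ x, x ∉ B → χ x = 0) :
    ∫ x, χ x ∂(C.MA v) = 0 := by
  apply integral_eq_zero_of_ae
  have h1 : ∀ᵐ x ∂(C.MA v), x ∉ B := by
    rw [ae_iff]
    have e : {x | ¬ x ∉ B} = B := by
      ext x
      exact not_not
    rw [e]
    exact hv
  filter_upwards [h1] with x hx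
  exact hχB x hx

/-- Splitting of the integral at the level `-x1`. -/
theorem split {b : X → ℝ} (hbP : b ∈ C.P) {x1 : ℝ} {χ F : X → ℝ} {C1 : ℝ}
    (hχi : ∀ m : Measure X, IsFiniteMeasure m → Integrable χ m)
    (hF : ∀ m : Measure X, IsFiniteMeasure m → Integrable F m) (hF0 : ∀ x, 0 ≤ F x)
    (hF1 : ∀ x, F x ≤ C1 * χ x) :
    ∫ x, F x ∂(C.MA b) ≤ ∫ x, F x ∂(C.MA fun x => max (b x) (-x1)) +
      C1 * ∫ x in {y | b y ≤ -x1}, χ x ∂(C.MA b) := by
  have hm : MeasurableSet {x | -x1 < b x} := measurableSet_lt measurable_const (Calc.meas hbP)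
  have hc : {x | -x1 < b x}ᶜ = {y | b y ≤ -x1} := by
    ext x
    change ¬ (-x1 < b x) ↔ b x ≤ -x1
    exact not_lt
  rw [← integral_add_compl hm (hF (C.MA b) inferInstance), hc]
  refine add_le_add ?_ ?_
  · have h1 := Calc.maxlocN (C := C) hbP (Calc.const_mem (C := C) (-x1)) n 0 (by simp)
      (fun u hu => absurd hu (Multiset.notMem_zero u))
    rw [add_zero, add_zero] at h1
    have h2 : (C.MA b).restrict {x | -x1 < b x} =
        (C.MA fun x => max (b x) (-x1)).restrict {x | -x1 < b x} := h1.symm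
    rw [h2]
    exact setIntegral_le_integral (hF _ inferInstance) (Filter.Eventually.of_forall hF0)
  · rw [← integral_const_mul]
    exact setIntegral_mono (hF _ inferInstance).integrableOn
      ((hχi _ inferInstance).const_mul C1).integrableOn hF1

end AF4

/-- (ii): the limit `ν` (as `t → ∞`, `N` fixed) satisfies `∫ χ G dν = ∫ χ G dMA(φ_τ)`,
`G = φ_τ + τ`. -/
theorem lim_G (h : Adm C φ c) {B : Set X} {hat : (X → ℝ) → (X → ℝ)} (hb : C.Bal B hat)
    (hA : ∀ a b : ℕ, a + b = n → 0 < a → Tendsto (dlt C φ a b) atTop (𝓝 0)) (hn : 0 < n)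
    {c0 : ℝ} (hc0 : c ≤ c0) (hY : ∀ t : ℝ, -c ≤ t → Btw C φ c0 (YY φ hat t))
    {χ : X → ℝ} (hχ : χ ∈ C.S) (h01 : ∀ x, 0 ≤ χ x ∧ χ x ≤ 1) (hχB : ∀ x, x ∉ B → χ x = 0)
    {τ N : ℝ} (hN0 : 0 ≤ N) (hN : τ + c0 ≤ N) {ν : Measure X} [IsFiniteMeasure ν]
    (hν : ∀ f : X → ℝ, Continuous f → Tendsto (fun t : ℕ => ∫ x, f x ∂(C.MA (bb φ hat N (t : ℝ))))
      (hyperfilter ℕ : Filter ℕ) (𝓝 (∫ x, f x ∂ν))) :
    ∫ x, χ x * (tr τ φ x + τ) ∂ν = ∫ x, χ x * (tr τ φ x + τ) ∂(C.MA (tr τ φ)) := by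
  classical
  have hφ : ∀ x, φ x ≠ ⊤ := h.ne_top
  have hadm : Adm C φ c0 := ⟨fun x => (h.ub x).trans (by exact_mod_cast hc0), h.trP⟩
  have hχc : Continuous χ := C.S_cont χ hχ
  have hτP := h.trP τ
  have hGP : (fun x => tr τ φ x + τ) ∈ C.P := C.P_const _ hτP τ
  have hYP : ∀ t : ℝ, YY φ hat t ∈ C.P := fun t => hb.mem _ (h.trP t)
  have hbbP : ∀ t : ℝ, bb φ hat N t ∈ C.P := fun t => by
    have h1 := C.P_max _ (h.trP t) _ (C.P_const _ (hYP t) (-N))
    have h2 : bb φ hat N t = fun x => max (tr t φ x) (YY φ hat t x + -N) := by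
      funext x
      rw [bb, sub_eq_add_neg]
    rw [h2]
    exact h1
  -- part (i)
  have hi : ∀ t : ℝ, τ ≤ t → -c ≤ t → ∫ x, χ x * (tr τ φ x + τ) ∂(C.MA (bb φ hat N t)) =
      ∫ x, χ x * (tr τ φ x + τ) ∂(C.MA (tr τ φ)) := by
    intro t ht htc
    have hr := bb_hiS h hb hc0 hN ht htc (hY t htc)
    have hz : ∀ x, x ∉ hiS φ τ → χ x * (tr τ φ x + τ) = 0 := by
      intro x hx
      have h1 : x ∈ lowS φ τ := by
        rw [← hiS_compl]
        exact hx
      rw [tr_eq_of_lowS h1]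
      ring
    rw [← setIntegral_eq_integral_of_forall_compl_eq_zero (μ := C.MA (bb φ hat N t)) hz,
      ← setIntegral_eq_integral_of_forall_compl_eq_zero (μ := C.MA (tr τ φ)) hz, hr]
  obtain ⟨H, ⟨hHP, -, hHa, hHt⟩, hHS⟩ := C.P_apx (tr τ φ) hτP
  have hHge : ∀ j x, tr τ φ x ≤ H j x := fun j x => (hHa x).le_of_tendsto (hHt x) j
  obtain ⟨K0, hK0⟩ := C.P_bdd (H 0) (hHP 0)
  set C1 : ℝ := |K0| + |τ| + 1 with hC1
  have hC1pos : 0 < C1 := by positivity
  have hD : ∀ j x, 0 ≤ H j x - tr τ φ x ∧ H j x - tr τ φ x ≤ C1 := by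
    intro j x
    refine ⟨sub_nonneg.2 (hHge j x), ?_⟩
    have h1 : H j x ≤ H 0 x := hHa x (Nat.zero_le j)
    have h2 := le_abs_self (H 0 x)
    have h3 := hK0 x
    have h4 := le_abs_self K0
    have h5 := neg_le_tr (hφ x) τ
    have h6 := le_abs_self τ
    rw [hC1]
    linarith
  have hF0 : ∀ j x, 0 ≤ χ x * (H j x - tr τ φ x) := fun j x => mul_nonneg (h01 x).1 (hD j x).1
  -- the main claim
  have claim : ∀ η : ℝ, 0 < η → ∃ J : ℕ, ∀ j : ℕ, J ≤ j → ∀ᶠ t : ℕ in atTop,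
      ∫ x, χ x * (H j x - tr τ φ x) ∂(C.MA (bb φ hat N (t : ℝ))) ≤ η := by
    intro η hη
    obtain ⟨x1, hx1, hnc⟩ := noconc hadm hA hn hχ h01 hN0 (η := η / (2 * C1)) (by positivity)
    set g : ℕ → X → ℝ := fun t x => max (bb φ hat N (t : ℝ) x) (-x1) with hg
    have hgP : ∀ t, g t ∈ C.P := fun t => C.P_max _ (hbbP t) _ (Calc.const_mem (C := C) (-x1))
    have hga : ∀ x, Antitone fun t => g t x := by
      intro x s t hst
      have hst' : (s : ℝ) ≤ (t : ℝ) := by exact_mod_cast hst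
      exact max_le_max (max_le_max (tr_anti (hφ x) hst')
        (sub_le_sub_right (YY_mono h hb hst' x) N)) le_rfl
    have hgb : ∀ x, BddBelow (Set.range fun t => g t x) := by
      intro x
      refine ⟨-x1, ?_⟩
      rintro _ ⟨t, rfl⟩
      exact le_max_right _ _
    set gl : X → ℝ := fun x => ⨅ t, g t x with hgl
    have hglt : ∀ x, Tendsto (fun t => g t x) atTop (𝓝 (gl x)) :=
      fun x => tendsto_atTop_ciInf (hga x) (hgb x)
    have hglP : gl ∈ C.P := C.P_lim g gl hgP hga hglt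
      ⟨-x1, fun x => le_ciInf fun t => le_max_right _ _⟩
    have hconv : ∀ f ∈ C.P, Tendsto (fun t : ℕ => ∫ x, χ x * f x ∂(C.MA (g t))) atTop
        (𝓝 (∫ x, χ x * f x ∂(C.MA gl))) := by
      intro f hf
      have h1 := C.conv (fun _ => f, f) ⟨fun _ => hf, hf, fun x => antitone_const,
        fun x => tendsto_const_nhds⟩ (Multiset.replicate n (g, gl)) (Multiset.card_replicate _ _)
        (by
          intro q hq
          rw [Multiset.eq_of_mem_replicate hq]
          exact ⟨hgP, hglP, hga, hglt⟩) χ hχc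
      simp only [Multiset.map_replicate] at h1
      exact h1
    have hdiff : ∀ (j : ℕ) (m : Measure X), IsFiniteMeasure m →
        ∫ x, χ x * (H j x - tr τ φ x) ∂m = ∫ x, χ x * H j x ∂m - ∫ x, χ x * tr τ φ x ∂m := by
      intro j m hm
      rw [← integral_sub (Calc.intg_mul hχc (hHP j) m) (Calc.intg_mul hχc hτP m)]
      refine integral_congr_ae (Filter.Eventually.of_forall fun x => ?_)
      change χ x * (H j x - tr τ φ x) = χ x * H j x - χ x * tr τ φ x
      ring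
    have hconv2 : ∀ j : ℕ, Tendsto (fun t : ℕ => ∫ x, χ x * (H j x - tr τ φ x) ∂(C.MA (g t)))
        atTop (𝓝 (∫ x, χ x * (H j x - tr τ φ x) ∂(C.MA gl))) := by
      intro j
      rw [hdiff j _ inferInstance]
      refine ((hconv _ (hHP j)).sub (hconv _ hτP)).congr fun t => ?_
      rw [hdiff j _ inferInstance]
    have hdom := AF4.dom hχc h01 hHP hτP hD hHt (C.MA gl)
    have hev := hdom.eventually_lt_const (half_pos hη)
    obtain ⟨J, hJ⟩ := Filter.eventually_atTop.1 hev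
    refine ⟨J, fun j hj => ?_⟩
    have hev2 := (hconv2 j).eventually_lt_const (hJ j hj)
    obtain ⟨T0, hT0⟩ := exists_nat_ge (-c)
    filter_upwards [hev2, Filter.eventually_ge_atTop T0] with t ht1 ht2
    have htc : -c ≤ (t : ℝ) := hT0.trans (by exact_mod_cast ht2)
    have hYt := hY t htc
    obtain ⟨hB1, hB2, -, -⟩ := bb_btw h hb hc0 htc hYt hN0
    have h3 := hnc (bb φ hat N (t : ℝ)) (YY φ hat (t : ℝ)) hB1 hYt hB2
      (AF4.int_zero (hb.zero _ (h.trP t)) hχB)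
    have h4 := AF4.split (C := C) (hbbP (t : ℝ)) (x1 := x1) (χ := χ)
      (F := fun x => χ x * (H j x - tr τ φ x)) (C1 := C1)
      (fun m hm => Calc.intgS hχ m) (fun m hm => AF4.intg_F hχc (hHP j) hτP m) (hF0 j)
      (fun x => by
        rw [mul_comm C1]
        exact mul_le_mul_of_nonneg_left (hD j x).2 (h01 x).1)
    have h5 : C1 * ∫ x in {y | bb φ hat N (t : ℝ) y ≤ -x1}, χ x ∂(C.MA (bb φ hat N (t : ℝ))) ≤
        η / 2 := by
      calc C1 * ∫ x in {y | bb φ hat N (t : ℝ) y ≤ -x1}, χ x ∂(C.MA (bb φ hat N (t : ℝ)))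
          ≤ C1 * (η / (2 * C1)) := mul_le_mul_of_nonneg_left h3 hC1pos.le
        _ = η / 2 := by field_simp
    have h6 : ∫ x, χ x * (H j x - tr τ φ x) ∂(C.MA (g t)) ≤ η / 2 := ht1.le
    exact h4.trans (by
      change ∫ x, χ x * (H j x - tr τ φ x) ∂(C.MA (g t)) + _ ≤ η
      linarith)
  -- decomposition
  have hdec : ∀ (j : ℕ) (m : Measure X), IsFiniteMeasure m →
      ∫ x, χ x * (H j x + τ) ∂m = ∫ x, χ x * (tr τ φ x + τ) ∂m +
        ∫ x, χ x * (H j x - tr τ φ x) ∂m := by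
    intro j m hm
    rw [← integral_add (Calc.intg_mul hχc hGP m) (AF4.intg_F hχc (hHP j) hτP m)]
    refine integral_congr_ae (Filter.Eventually.of_forall fun x => ?_)
    change χ x * (H j x + τ) = χ x * (tr τ φ x + τ) + χ x * (H j x - tr τ φ x)
    ring
  have hlim : ∀ j : ℕ, Tendsto (fun t : ℕ => ∫ x, χ x * (H j x + τ) ∂(C.MA (bb φ hat N (t : ℝ))))
      (hyperfilter ℕ : Filter ℕ) (𝓝 (∫ x, χ x * (tr τ φ x + τ) ∂ν +
        ∫ x, χ x * (H j x - tr τ φ x) ∂ν)) := by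
    intro j
    rw [← hdec j ν inferInstance]
    exact hν _ (hχc.mul ((C.S_cont _ (hHS j)).add continuous_const))
  obtain ⟨T1, hT1⟩ := exists_nat_ge (max τ (-c))
  have heq : ∀ j : ℕ, ∀ᶠ t : ℕ in (hyperfilter ℕ : Filter ℕ),
      ∫ x, χ x * (H j x + τ) ∂(C.MA (bb φ hat N (t : ℝ))) =
        ∫ x, χ x * (tr τ φ x + τ) ∂(C.MA (tr τ φ)) +
          ∫ x, χ x * (H j x - tr τ φ x) ∂(C.MA (bb φ hat N (t : ℝ))) := by
    intro j
    refine Nat.hyperfilter_le_atTop ?_
    filter_upwards [Filter.eventually_ge_atTop T1] with t ht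
    have h1 : max τ (-c) ≤ (t : ℝ) := hT1.trans (by exact_mod_cast ht)
    rw [hdec j _ inferInstance, hi t ((le_max_left _ _).trans h1) ((le_max_right _ _).trans h1)]
  have hdomν := AF4.dom hχc h01 hHP hτP hD hHt ν
  apply le_antisymm
  · refine le_of_forall_pos_le_add fun η hη => ?_
    obtain ⟨J, hJ⟩ := claim η hη
    have h1 : ∀ j : ℕ, J ≤ j → ∫ x, χ x * (tr τ φ x + τ) ∂ν +
        ∫ x, χ x * (H j x - tr τ φ x) ∂ν ≤
          ∫ x, χ x * (tr τ φ x + τ) ∂(C.MA (tr τ φ)) + η := by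
      intro j hj
      refine le_of_tendsto (hlim j) ?_
      filter_upwards [heq j, Nat.hyperfilter_le_atTop (hJ j hj)] with t h2 h3
      rw [h2]
      exact add_le_add le_rfl h3
    have h2 := hdomν.const_add (∫ x, χ x * (tr τ φ x + τ) ∂ν)
    rw [add_zero] at h2
    exact le_of_tendsto h2 (Filter.eventually_atTop.2 ⟨J, h1⟩)
  · have h1 : ∀ j : ℕ, ∫ x, χ x * (tr τ φ x + τ) ∂(C.MA (tr τ φ)) ≤
        ∫ x, χ x * (tr τ φ x + τ) ∂ν + ∫ x, χ x * (H j x - tr τ φ x) ∂ν := by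
      intro j
      refine ge_of_tendsto (hlim j) ?_
      filter_upwards [heq j] with t h2
      rw [h2]
      exact le_add_of_nonneg_right (integral_nonneg (hF0 j))
    have h2 := hdomν.const_add (∫ x, χ x * (tr τ φ x + τ) ∂ν)
    rw [add_zero] at h2
    exact ge_of_tendsto' h2 h1

end Pool.Agent.DMA
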