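import Pool.Agent.Lib.DMA.AF4

/-! # DMA, row AF5: Jensen inequality -/

set_option autoImplicit false

open scoped Topology
open Set Filter MeasureTheory

noncomputable section

namespace Pool.Agent.DMA

variable {X : Type*} [TopologicalSpace X] [CompactSpace X] [T2Space X] [SecondCountableTopology X]
  [MeasurableSpace X] [BorelSpace X] {n : ℕ} {C : Calc X n} {φ : X → EReal} {c : ℝ}
  {μ : Measure X}

/-! ## AF5: part (iii), Jensen inequality -/

theorem jensen {a b : X → ℝ} (ha : a ∈ C.P) (hb : b ∈ C.P) (hab : ∀ x, a x ≤ b x) {B B1 : Set X}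
    (hBB : B ⊆ B1) (he : ∀ x, x ∉ B → b x = a x) {ρ : X → ℝ} (hρ : C.Pot B1 ρ) {s : X → ℝ}
    (hs : s ∈ C.P) :
    ∫ x, (s x + ρ x) ∂(C.MA a) ≤ ∫ x, (s x + ρ x) ∂(C.MA b) := by
  classical
  obtain ⟨κ, hκ, hκP⟩ := Calc.small (C := C) hρ.mem
  have hκρ : (fun x => κ * ρ x) ∈ C.P := hκP κ (abs_of_pos hκ).le
  have h1 := Calc.tele (C := C) ha hb hs
  have h2 := Calc.tele (C := C) ha hb hκρ
  have key : ∀ k ∈ Finset.range n,
      ∫ x, (a x - b x) ∂(C.M ((fun x => κ * ρ x) ::ₘ (Multiset.replicate (n - 1 - k) a +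
        Multiset.replicate k b))) =
      (1 + κ) * ∫ x, (a x - b x) ∂(C.M ((fun _ => 0) ::ₘ (Multiset.replicate (n - 1 - k) a +
        Multiset.replicate k b))) := by
    intro k hk
    have hok := Calc.tele_ok (C := C) ha hb (Finset.mem_range.1 hk)
    have hr := hρ.pos κ hκ hκρ _ hok
    have e : ∀ ν : Measure X, ∫ x, (a x - b x) ∂ν = ∫ x in B1, (a x - b x) ∂ν := by
      intro ν
      rw [setIntegral_eq_integral_of_forall_compl_eq_zero]
      intro x hx
      rw [he x (fun h => hx (hBB h)), sub_self]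
    rw [e, e (C.M ((fun _ => 0) ::ₘ _)), hr, integral_smul_measure,
      ENNReal.toReal_ofReal (by linarith), smul_eq_mul]
  have hsum : κ * (∫ x, ρ x ∂(C.MA a) - ∫ x, ρ x ∂(C.MA b)) =
      κ * ∑ k ∈ Finset.range n,
        ∫ x, (a x - b x) ∂(C.M ((fun _ => 0) ::ₘ (Multiset.replicate (n - 1 - k) a +
          Multiset.replicate k b))) := by
    rw [integral_const_mul, integral_const_mul] at h2
    rw [mul_sub, h2, Finset.mul_sum]
    refine Finset.sum_congr rfl fun k hk => ?_
    rw [key k hk]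
    ring
  have hsum2 := mul_left_cancel₀ hκ.ne' hsum
  rw [Finset.sum_sub_distrib, ← hsum2] at h1
  have hneg : ∑ k ∈ Finset.range n,
      ∫ x, (a x - b x) ∂(C.M (s ::ₘ (Multiset.replicate (n - 1 - k) a +
        Multiset.replicate k b))) ≤ 0 :=
    Finset.sum_nonpos fun k _ => integral_nonpos fun x => by
      have := hab x
      simp only [Pi.zero_apply]
      linarith
  rw [integral_add (Calc.intg hs _) (Calc.intgS hρ.mem _),
    integral_add (Calc.intg hs _) (Calc.intgS hρ.mem _)]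
  linarith

end Pool.Agent.DMA
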