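import Pool.Agent.Lib.DMA.AF5

/-! # DMA, row AF6: limit inequality for fixed N -/

set_option autoImplicit false

open scoped Topology
open Set Filter MeasureTheory

noncomputable section

namespace Pool.Agent.DMA

variable {X : Type*} [TopologicalSpace X] [CompactSpace X] [T2Space X] [SecondCountableTopology X]
  [MeasurableSpace X] [BorelSpace X] {n : ℕ} {C : Calc X n} {φ : X → EReal} {c : ℝ}
  {μ : Measure X}

/-! ## AF6: the limit inequality for fixed `N` -/

theorem lim_ineq (h : ADma C φ c μ) {B B1 : Set X} {hat : (X → ℝ) → (X → ℝ)} (hb : C.Bal B hat)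
    (hBB : closure B ⊆ B1) {ρ : X → ℝ} (hρ : C.Pot B1 ρ) {c0 : ℝ} (hc0 : c ≤ c0)
    (hY : ∀ t : ℝ, -c ≤ t → Btw C φ c0 (YY φ hat t)) {τ N : ℝ} (hN0 : 0 ≤ N)
    {ν : Measure X} [IsFiniteMeasure ν]
    (hν : ∀ f : X → ℝ, Continuous f → Tendsto (fun t : ℕ => ∫ x, f x ∂(C.MA (bb φ hat N (t : ℝ))))
      (hyperfilter ℕ : Filter ℕ) (𝓝 (∫ x, f x ∂ν))) :
    ∫ x in closure B, (tr τ φ x + τ) ∂μ ≤
      ∫ x in closure B, (tr τ φ x + τ) ∂ν + (∫ x, ρ x ∂ν - ∫ x, ρ x ∂μ) := by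
  have := h.fin
  have hnt : ∀ x, φ x ≠ ⊤ := h.toAdm.ne_top
  -- the limits along the integers of the Monge-Ampere measures of `φ_t`
  have hμ : ∀ f : X → ℝ, Continuous f → Tendsto (fun t : ℕ => ∫ x, f x ∂(C.MA (tr (t : ℝ) φ)))
      (hyperfilter ℕ : Filter ℕ) (𝓝 (∫ x, f x ∂μ)) := by
    intro f hf
    have h1 := h.lim (fun t : ℕ => tr (t : ℝ) φ) (fun t => h.trP t)
      (fun x => fun s t hst => tr_anti (hnt x) (by exact_mod_cast hst))
      (fun x => (tr_tendsto (hnt x)).comp tendsto_natCast_atTop_atTop) f hf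
    refine h1.mono_left ?_
    have := Filter.hyperfilter_le_cofinite (α := ℕ)
    rwa [Nat.cofinite_eq_atTop] at this
  have hev : ∀ᶠ t : ℕ in (hyperfilter ℕ : Filter ℕ), -c ≤ (t : ℝ) := by
    have h1 : ∀ᶠ t : ℕ in atTop, -c ≤ (t : ℝ) :=
      tendsto_natCast_atTop_atTop.eventually (eventually_ge_atTop (-c))
    have h2 := Filter.hyperfilter_le_cofinite (α := ℕ)
    rw [Nat.cofinite_eq_atTop] at h2
    exact h2 h1
  have hρS : ρ ∈ C.S := hρ.mem
  have hρc : Continuous ρ := C.S_cont ρ hρS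
  -- step 1: the inequality for continuous elements of `P`
  have step1 : ∀ s : X → ℝ, s ∈ C.P → Continuous s →
      ∫ x, s x ∂μ ≤ ∫ x, s x ∂ν + (∫ x, ρ x ∂ν - ∫ x, ρ x ∂μ) := by
    intro s hs hsc
    have hcont : Continuous fun x => s x + ρ x := hsc.add hρc
    have hle : ∫ x, (s x + ρ x) ∂μ ≤ ∫ x, (s x + ρ x) ∂ν := by
      refine le_of_tendsto_of_tendsto (hμ _ hcont) (hν _ hcont) ?_
      filter_upwards [hev] with t ht
      obtain ⟨hbt, -, hle, heq⟩ := bb_btw h.toAdm hb hc0 ht (hY t ht) hN0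
      exact jensen (h.trP t) hbt.1 hle (subset_closure.trans hBB) heq hρ hs
    rw [integral_add (Calc.intg hs μ) (Calc.intgS hρS μ),
      integral_add (Calc.intg hs ν) (Calc.intgS hρS ν)] at hle
    linarith
  -- step 2: the inequality for `φ_τ`
  have step2 : ∫ x, tr τ φ x ∂μ ≤ ∫ x, tr τ φ x ∂ν + (∫ x, ρ x ∂ν - ∫ x, ρ x ∂μ) := by
    obtain ⟨H, ⟨hHP, -, hHa, hHt⟩, hHS⟩ := C.P_apx _ (h.trP τ)
    simp only at hHP hHa hHt
    obtain ⟨K0, hK0⟩ := C.P_bdd _ (hHP 0)
    obtain ⟨K1, hK1⟩ := C.P_bdd _ (h.trP τ)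
    have hdom : ∀ (ζ : Measure X) [IsFiniteMeasure ζ],
        Tendsto (fun j => ∫ x, H j x ∂ζ) atTop (𝓝 (∫ x, tr τ φ x ∂ζ)) := by
      intro ζ _
      refine tendsto_integral_of_dominated_convergence (fun _ => K0 + K1)
        (fun j => (Calc.meas (hHP j)).aestronglyMeasurable) (integrable_const _)
        (fun j => Eventually.of_forall fun x => ?_) (Eventually.of_forall fun x => hHt x)
      have h1 : H j x ≤ H 0 x := hHa x (Nat.zero_le j)
      have h2 : tr τ φ x ≤ H j x := (hHa x).le_of_tendsto (hHt x) j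
      have h3 := abs_le.1 (hK0 x)
      have h4 := abs_le.1 (hK1 x)
      rw [Real.norm_eq_abs, abs_le]
      have h5 : 0 ≤ K0 := (abs_nonneg _).trans (hK0 x)
      have h6 : 0 ≤ K1 := (abs_nonneg _).trans (hK1 x)
      constructor <;> linarith [h3.1, h3.2, h4.1, h4.2]
    exact le_of_tendsto_of_tendsto' (hdom μ) ((hdom ν).add_const _)
      fun j => step1 (H j) (hHP j) (C.S_cont _ (hHS j))
  -- the masses
  have hbbP : ∀ t : ℕ, -c ≤ (t : ℝ) → bb φ hat N (t : ℝ) ∈ C.P := fun t ht =>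
    (bb_btw h.toAdm hb hc0 ht (hY t ht) hN0).1.1
  have hmass : ∀ u : X → ℝ, u ∈ C.P → ∫ _x : X, (1 : ℝ) ∂(C.MA u) = C.V := by
    intro u hu
    rw [integral_const, smul_eq_mul, mul_one]
    exact C.mass _ (Multiset.card_replicate _ _)
      fun w hw => by rw [Multiset.eq_of_mem_replicate hw]; exact hu
  have hμV : ∫ _x : X, (1 : ℝ) ∂μ = C.V := by
    refine tendsto_nhds_unique (hμ _ continuous_const) ?_
    exact tendsto_const_nhds.congr fun t => (hmass _ (h.trP t)).symm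
  have hνV : ∫ _x : X, (1 : ℝ) ∂ν = C.V := by
    refine tendsto_nhds_unique (hν _ continuous_const) ?_
    refine tendsto_const_nhds.congr' ?_
    filter_upwards [hev] with t ht
    exact (hmass _ (hbbP t ht)).symm
  -- the measures agree off `closure B`
  have hloc : μ.restrict (closure B)ᶜ = ν.restrict (closure B)ᶜ := by
    refine (ulim_open (F := (hyperfilter ℕ : Filter ℕ))
      (ν := fun t : ℕ => C.MA (bb φ hat N (t : ℝ))) (ν' := fun t : ℕ => C.MA (tr (t : ℝ) φ))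
      (fun t => inferInstance) (fun t => inferInstance) hν hμ isClosed_closure.isOpen_compl
      ?_).symm
    filter_upwards [hev] with t ht
    have hx : ∀ x ∈ (closure B)ᶜ, bb φ hat N (t : ℝ) x = tr (t : ℝ) φ x := fun x hx =>
      (bb_btw h.toAdm hb hc0 ht (hY t ht) hN0).2.2.2 x fun hxB => hx (subset_closure hxB)
    have := Calc.locN (C := C) (hbbP t ht) (h.trP t) isClosed_closure.isOpen_compl hx n 0
      (by simp) (by simp)
    simpa [Calc.MA] using this
  have hG : ∀ (ζ : Measure X) [IsFiniteMeasure ζ], ∫ x, (tr τ φ x + τ) ∂ζ =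
      ∫ x, tr τ φ x ∂ζ + τ * ∫ _x : X, (1 : ℝ) ∂ζ := by
    intro ζ _
    rw [integral_add (Calc.intg (h.trP τ) ζ) (integrable_const _), integral_const,
      integral_const, smul_eq_mul, smul_eq_mul, mul_one, mul_comm τ]
  have hint : ∀ (ζ : Measure X) [IsFiniteMeasure ζ], Integrable (fun x => tr τ φ x + τ) ζ :=
    fun ζ _ => (Calc.intg (h.trP τ) ζ).add (integrable_const _)
  have htot : ∫ x, (tr τ φ x + τ) ∂μ ≤
      ∫ x, (tr τ φ x + τ) ∂ν + (∫ x, ρ x ∂ν - ∫ x, ρ x ∂μ) := by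
    rw [hG μ, hG ν, hμV, hνV]
    linarith
  have hc : ∫ x in (closure B)ᶜ, (tr τ φ x + τ) ∂μ = ∫ x in (closure B)ᶜ, (tr τ φ x + τ) ∂ν := by
    rw [hloc]
  have hmc : MeasurableSet (closure B) := isClosed_closure.measurableSet
  rw [← integral_add_compl hmc (hint μ), ← integral_add_compl hmc (hint ν), hc] at htot
  linarith

end Pool.Agent.DMA
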