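import Pool.Agent.Lib.DMA.AF6

/-! # DMA, row AF7: lower bound -/

set_option autoImplicit false

open scoped Topology
open Set Filter MeasureTheory

noncomputable section

namespace Pool.Agent.DMA

variable {X : Type*} [TopologicalSpace X] [CompactSpace X] [T2Space X] [SecondCountableTopology X]
  [MeasurableSpace X] [BorelSpace X] {n : ℕ} {C : Calc X n} {φ : X → EReal} {c : ℝ}
  {μ : Measure X}

/-! ## AF7: lower bound -/

/-- `μ ≥ 1_{φ > -τ} MA(φ_τ)`. -/
theorem mu_ge (h : ADma C φ c μ) (τ : ℝ) :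
    (C.MA (tr τ φ)).restrict (hiS φ τ) ≤ μ := by
  have hfin : IsFiniteMeasure μ := h.fin
  have hfin1 : ∀ u, IsFiniteMeasure (C.MA u) := fun u => C.fin _
  have key : ∀ f : X → ℝ, Continuous f → (∀ x, 0 ≤ f x ∧ f x ≤ 1) →
      ∫ x, f x ∂((C.MA (tr τ φ)).restrict (hiS φ τ)) ≤ ∫ x, f x ∂μ := by
    intro f hf hf01
    have hlim := h.lim (fun j : ℕ => tr (τ + j) φ) (fun j => h.trP _)
      (fun x i j hij => tr_anti (h.ne_top x) (by
        have : (i : ℝ) ≤ j := by exact_mod_cast hij
        linarith))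
      (fun x => (tr_tendsto (h.ne_top x)).comp
        (tendsto_atTop_add_const_left _ τ tendsto_natCast_atTop_atTop)) f hf
    refine ge_of_tendsto' hlim (fun j => ?_)
    have h1 := Calc.trlocN (C := C) h.ne_top h.trP (s := τ) (t := τ + j)
      (by have : (0 : ℝ) ≤ j := Nat.cast_nonneg j
          linarith) n 0 (by simp) (by simp)
    rw [add_zero, add_zero] at h1
    have h2 : (C.MA (tr τ φ)).restrict (hiS φ τ) = (C.MA (tr (τ + j) φ)).restrict (hiS φ τ) := h1
    rw [h2]
    have hint : Integrable f (C.MA (tr (τ + j) φ)) :=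
      hf.integrable_of_hasCompactSupport (HasCompactSupport.of_compactSpace f)
    exact setIntegral_le_integral hint (Eventually.of_forall fun x => (hf01 x).1)
  have h3 := restrict_le_of_int (l := (C.MA (tr τ φ)).restrict (hiS φ τ)) (l' := μ)
    isOpen_univ (fun f hf h01 _ => key f hf h01)
  rwa [Measure.restrict_univ, Measure.restrict_univ] at h3

end Pool.Agent.DMA
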