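import Pool.Agent.Lib.DMA.AF7

/-! # DMA, row AF8: the inequality on B -/

set_option autoImplicit false
set_option linter.unusedSectionVars false

open scoped Topology
open Set Filter MeasureTheory

noncomputable section

namespace Pool.Agent.DMA

variable {X : Type*} [TopologicalSpace X] [CompactSpace X] [T2Space X] [SecondCountableTopology X]
  [MeasurableSpace X] [BorelSpace X] {n : ℕ} {C : Calc X n} {φ : X → EReal} {c : ℝ}
  {μ : Measure X}

/-! ## AF8: the inequality on `B` -/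

private theorem AF8_bbP (h : Adm C φ c) {B : Set X} {hat : (X → ℝ) → (X → ℝ)} (hb : C.Bal B hat)
    (N t : ℝ) : bb φ hat N t ∈ C.P := by
  refine C.P_max _ (h.trP t) _ ?_
  have := C.P_const _ (hb.mem _ (h.trP t)) (-N)
  simpa [YY, sub_eq_add_neg] using this

private theorem AF8_lim (h : ADma C φ c μ) {B : Set X} {hat : (X → ℝ) → (X → ℝ)}
    (hb : C.Bal B hat) {ν : ℕ → Measure X}
    (hν : ∀ N : ℕ, ∀ f : X → ℝ, Continuous f →
      Tendsto (fun t : ℕ => ∫ x, f x ∂(C.MA (bb φ hat (N : ℝ) (t : ℝ))))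
      (hyperfilter ℕ : Filter ℕ) (𝓝 (∫ x, f x ∂(ν N)))) {f : X → ℝ} (hf : Continuous f) :
    Tendsto (fun N => ∫ x, f x ∂(ν N)) atTop (𝓝 (∫ x, f x ∂μ)) := by
  rw [Metric.tendsto_atTop]
  intro ε hε
  obtain ⟨N0, hN0⟩ := bb_dbl h hb hf (half_pos hε)
  refine ⟨N0, fun N hN => ?_⟩
  obtain ⟨t0, ht0⟩ := hN0 N hN
  have h1 : |∫ x, f x ∂(ν N) - ∫ x, f x ∂μ| ≤ ε / 2 := by
    refine le_of_tendsto ((hν N f hf).sub_const _).abs ?_
    have h2 : ∀ᶠ t in (hyperfilter ℕ : Filter ℕ), t0 ≤ t :=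
      Nat.hyperfilter_le_atTop (eventually_ge_atTop t0)
    filter_upwards [h2] with t ht using ht0 t ht
  rw [Real.dist_eq]
  linarith

theorem G_ineq (h : ADma C φ c μ) {B B1 : Set X} {hat : (X → ℝ) → (X → ℝ)} (hb : C.Bal B hat)
    (hA : ∀ a b : ℕ, a + b = n → 0 < a → Tendsto (dlt C φ a b) atTop (𝓝 0)) (hn : 0 < n)
    (hB : IsOpen B) (hBB : closure B ⊆ B1) {ρ : X → ℝ} (hρ : C.Pot B1 ρ)
    (hμB : μ (frontier B) = 0) {τ : ℝ} :
    ∫ x in B, (tr τ φ x + τ) ∂μ ≤ ∫ x in B, (tr τ φ x + τ) ∂(C.MA (tr τ φ)) := by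
  have hfin : IsFiniteMeasure μ := h.fin
  have hGm : Measurable (fun x => tr τ φ x + τ) := (Calc.meas (h.trP τ)).add_const τ
  have hG0 : ∀ x, 0 ≤ tr τ φ x + τ := fun x => by
    have := neg_le_tr (h.ne_top x) τ
    linarith
  obtain ⟨D0, hD0⟩ := C.P_bdd _ (h.trP τ)
  obtain ⟨D, hD, hGD⟩ : ∃ D : ℝ, 0 ≤ D ∧ ∀ x, tr τ φ x + τ ≤ D :=
    ⟨|D0| + |τ|, by positivity, fun x => by
      have h1 := (abs_le.1 (hD0 x)).2
      have h2 := le_abs_self D0
      have h3 := le_abs_self τ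
      linarith⟩
  have hGi : ∀ (ν : Measure X) [IsFiniteMeasure ν], Integrable (fun x => tr τ φ x + τ) ν := by
    intro ν _
    exact (Calc.intg (h.trP τ) ν).add (integrable_const τ)
  obtain ⟨c0, hc0, hY⟩ := exists_c0 h.toAdm hb
  have hν : ∀ N : ℕ, ∃ ν : Measure X, IsFiniteMeasure ν ∧ ∀ f : X → ℝ, Continuous f →
      Tendsto (fun t : ℕ => ∫ x, f x ∂(C.MA (bb φ hat (N : ℝ) (t : ℝ))))
      (hyperfilter ℕ : Filter ℕ) (𝓝 (∫ x, f x ∂ν)) := by
    intro N
    refine exists_ulim (fun t : ℕ => C.MA (bb φ hat (N : ℝ) (t : ℝ))) (m := C.V)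
      (fun j => inferInstance) (fun j => ?_)
    refine (C.mass _ (Multiset.card_replicate _ _) ?_).le
    intro u hu
    rw [Multiset.eq_of_mem_replicate hu]
    exact AF8_bbP h.toAdm hb _ _
  choose ν hνf hνl using hν
  have hlim : ∀ f : X → ℝ, Continuous f →
      Tendsto (fun N => ∫ x, f x ∂(ν N)) atTop (𝓝 (∫ x, f x ∂μ)) :=
    fun f hf => AF8_lim h hb hνl hf
  refine le_of_forall_pos_le_add fun ε hε => ?_
  obtain ⟨δ, hδ, hδε⟩ : ∃ δ : ℝ, 0 < δ ∧ (2 * D + 1) * δ ≤ ε :=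
    ⟨ε / (2 * D + 1), by positivity, by
      rw [mul_div_cancel₀ _ (by positivity)]⟩
  obtain ⟨L0, hL0B, hL0, hμL0⟩ := hB.measurableSet.exists_isCompact_sdiff_lt
    (measure_ne_top μ B) (ENNReal.ofReal_pos.2 hδ).ne'
  obtain ⟨L, hL, hL0L, hLB⟩ := exists_compact_between hL0 hB hL0B
  obtain ⟨χ, hχS, h01, hχL, hχt⟩ := C.S_bump L B hL hB hLB
  have hχB : ∀ x, x ∉ B → χ x = 0 := fun x hx =>
    image_eq_zero_of_notMem_tsupport fun hx' => hx (hχt hx')
  have hK : IsClosed (closure B \ interior L) := isClosed_closure.sdiff isOpen_interior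
  have hμK : μ.real (closure B \ interior L) ≤ δ := by
    have h1 : closure B \ interior L ⊆ frontier B ∪ (B \ L0) := by
      rintro x ⟨hx1, hx2⟩
      by_cases hxB : x ∈ B
      · exact Or.inr ⟨hxB, fun h' => hx2 (hL0L h')⟩
      · left
        rw [hB.frontier_eq]
        exact ⟨hx1, hxB⟩
    have h2 : μ (closure B \ interior L) ≤ ENNReal.ofReal δ :=
      calc μ (closure B \ interior L) ≤ μ (frontier B ∪ (B \ L0)) := measure_mono h1
        _ ≤ μ (frontier B) + μ (B \ L0) := measure_union_le _ _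
        _ ≤ ENNReal.ofReal δ := by rw [hμB, zero_add]; exact hμL0.le
    exact ENNReal.toReal_le_of_le_ofReal hδ.le h2
  have ev1 := ulim_closed (F := atTop) hνf hlim hK hδ
  have ev2 : ∀ᶠ N in atTop, ∫ x, ρ x ∂(ν N) < ∫ x, ρ x ∂μ + δ :=
    (hlim ρ (C.S_cont _ hρ.mem)).eventually_lt_const (by linarith)
  obtain ⟨N1, hN1⟩ := exists_nat_ge (max 0 (τ + c0))
  obtain ⟨N, e1, e2, hN⟩ := (ev1.and (ev2.and (eventually_ge_atTop N1))).exists
  have hNr : max 0 (τ + c0) ≤ (N : ℝ) := hN1.trans (by exact_mod_cast hN)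
  have hN0 : (0 : ℝ) ≤ N := (le_max_left _ _).trans hNr
  have hNc : τ + c0 ≤ (N : ℝ) := (le_max_right _ _).trans hNr
  have := hνf N
  have i1 := lim_ineq h hb hBB hρ hc0 hY (τ := τ) hN0 (hνl N)
  have i2 := lim_G h.toAdm hb hA hn hc0 hY hχS h01 hχB (τ := τ) hN0 hNc (hνl N)
  have hχG : ∀ (m : Measure X) [IsFiniteMeasure m],
      Integrable (fun x => χ x * (tr τ φ x + τ)) m := by
    intro m _
    refine (hGi m).bdd_mul (c := 1) (C.S_cont _ hχS).aestronglyMeasurable ?_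
    filter_upwards with x
    rw [Real.norm_eq_abs, abs_le]
    constructor <;> linarith [(h01 x).1, (h01 x).2]
  have i3 : ∫ x in closure B, (tr τ φ x + τ) ∂(ν N) ≤
      ∫ x, χ x * (tr τ φ x + τ) ∂(ν N) + D * (ν N).real (closure B \ interior L) := by
    rw [← integral_indicator measurableSet_closure]
    have h1 : ∫ x, (χ x * (tr τ φ x + τ) + (closure B \ interior L).indicator (fun _ => D) x)
        ∂(ν N) = ∫ x, χ x * (tr τ φ x + τ) ∂(ν N) +
          D * (ν N).real (closure B \ interior L) := by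
      rw [integral_add (hχG _) ((integrable_const D).indicator hK.measurableSet),
        integral_indicator_const D hK.measurableSet, smul_eq_mul, mul_comm]
    rw [← h1]
    refine integral_mono ((hGi _).indicator measurableSet_closure)
      ((hχG _).add ((integrable_const D).indicator hK.measurableSet)) fun x => ?_
    simp only [indicator]
    have g0 := hG0 x
    have gD := hGD x
    have x0 := (h01 x).1
    have hp : 0 ≤ χ x * (tr τ φ x + τ) := mul_nonneg x0 g0
    by_cases hx : x ∈ closure B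
    · by_cases hx' : x ∈ interior L
      · have : x ∉ closure B \ interior L := fun h' => h'.2 hx'
        rw [if_pos hx, if_neg this, hχL x (interior_subset hx')]
        linarith
      · rw [if_pos hx, if_pos ⟨hx, hx'⟩]
        linarith
    · have : x ∉ closure B \ interior L := fun h' => hx h'.1
      rw [if_neg hx, if_neg this]
      linarith
  have i4 : ∫ x, χ x * (tr τ φ x + τ) ∂(C.MA (tr τ φ)) ≤
      ∫ x in B, (tr τ φ x + τ) ∂(C.MA (tr τ φ)) := by
    rw [← integral_indicator hB.measurableSet]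
    refine integral_mono (hχG _) ((hGi _).indicator hB.measurableSet) fun x => ?_
    simp only [indicator]
    by_cases hx : x ∈ B
    · rw [if_pos hx]
      exact mul_le_of_le_one_left (hG0 x) (h01 x).2
    · rw [if_neg hx, hχB x hx, zero_mul]
  have i5 : ∫ x in B, (tr τ φ x + τ) ∂μ ≤ ∫ x in closure B, (tr τ φ x + τ) ∂μ :=
    setIntegral_mono_set (hGi μ).integrableOn (ae_of_all _ hG0) subset_closure.eventuallyLE
  have i6 : D * (ν N).real (closure B \ interior L) ≤ D * (2 * δ) :=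
    mul_le_mul_of_nonneg_left (by linarith) hD
  nlinarith

end Pool.Agent.DMA
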