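import Pool.Agent.Lib.DMA.AF8

/-! # DMA, row AF9: conclusion -/

set_option autoImplicit false

open scoped Topology
open Set Filter MeasureTheory

noncomputable section

namespace Pool.Agent.DMA

variable {X : Type*} [TopologicalSpace X] [CompactSpace X] [T2Space X] [SecondCountableTopology X]
  [MeasurableSpace X] [BorelSpace X] {n : ℕ} {C : Calc X n} {φ : X → EReal} {c : ℝ}
  {μ : Measure X}

/-! ## AF9: conclusion -/

/-- Two finite measures `m ≤ μ` on `B` with `∫ G dμ ≤ ∫ G dm`, `G ≥ 0`, agree on `B ∩ {G > 0}`. -/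
theorem eq_of_int_le {m μ : Measure X} [IsFiniteMeasure m] [IsFiniteMeasure μ] {B : Set X}
    (hB : MeasurableSet B) {G : X → ℝ} (hG : Measurable G) (hG0 : ∀ x, 0 ≤ G x)
    (hGb : ∃ D, ∀ x, G x ≤ D) {A : Set X} (hA : MeasurableSet A) (hAG : ∀ x, x ∈ A ↔ 0 < G x)
    (hle : m.restrict A ≤ μ) (hint : ∫ x in B, G x ∂μ ≤ ∫ x in B, G x ∂m) :
    μ.restrict (B ∩ A) = m.restrict (B ∩ A) := by
  obtain ⟨D, hD⟩ := hGb
  have hBA : MeasurableSet (B ∩ A) := hB.inter hA
  have hintG : ∀ (ν : Measure X) [IsFiniteMeasure ν], Integrable G ν := by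
    intro ν _
    refine Integrable.of_bound hG.aestronglyMeasurable D (Eventually.of_forall fun x => ?_)
    rw [Real.norm_eq_abs, abs_of_nonneg (hG0 x)]
    exact hD x
  have hle1 : m.restrict (B ∩ A) ≤ μ.restrict (B ∩ A) := by
    have h1 : (m.restrict A).restrict (B ∩ A) ≤ μ.restrict (B ∩ A) :=
      Measure.restrict_mono le_rfl hle
    rwa [Measure.restrict_restrict hBA, inter_assoc, inter_self] at h1
  have hset : ∀ ν : Measure X, ∫ x in B, G x ∂ν = ∫ x in B ∩ A, G x ∂ν := by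
    intro ν
    refine setIntegral_eq_of_subset_of_forall_sdiff_eq_zero hB inter_subset_left ?_
    rintro x ⟨hx, hx'⟩
    by_contra h0
    exact hx' ⟨hx, (hAG x).2 (lt_of_le_of_ne (hG0 x) (Ne.symm h0))⟩
  have hadd : μ.restrict (B ∩ A) =
      (μ.restrict (B ∩ A) - m.restrict (B ∩ A)) + m.restrict (B ∩ A) :=
    (Measure.sub_add_cancel_of_le hle1).symm
  set ρ := μ.restrict (B ∩ A) - m.restrict (B ∩ A) with hρ
  have hρle : ρ ≤ μ.restrict (B ∩ A) := Measure.sub_le
  have hρfin : IsFiniteMeasure ρ := isFiniteMeasure_of_le _ hρle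
  have h2 : ∫ x in B ∩ A, G x ∂μ = ∫ x, G x ∂ρ + ∫ x in B ∩ A, G x ∂m := by
    rw [hadd, integral_add_measure (hintG ρ) (hintG _)]
  have h3 : ∫ x, G x ∂ρ = 0 := by
    have h4 : 0 ≤ ∫ x, G x ∂ρ := integral_nonneg hG0
    have h5 := hset μ
    have h6 := hset m
    linarith
  have h4 : G =ᵐ[ρ] 0 := (integral_eq_zero_iff_of_nonneg hG0 (hintG ρ)).1 h3
  have h5 : ρ (B ∩ A) = 0 := by
    refine measure_mono_null ?_ (ae_iff.1 h4)
    rintro x ⟨-, hx⟩
    exact ((hAG x).1 hx).ne'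
  have h6 : ρ (B ∩ A)ᶜ = 0 := by
    have h7 := hρle (B ∩ A)ᶜ
    rw [Measure.restrict_apply hBA.compl, compl_inter_self, measure_empty] at h7
    exact le_antisymm h7 bot_le
  have h7 : ρ = 0 := by
    rw [← Measure.measure_univ_eq_zero, ← union_compl_self (B ∩ A)]
    exact measure_union_null h5 h6
  rw [hadd, h7, zero_add]

/-- The family of balls: one with boundary of measure zero. -/
theorem exists_good_ball (μ : Measure X) [IsFiniteMeasure μ] {B : ℝ → Set X}
    (hB : ∀ r ∈ Ioo (0 : ℝ) 1, ∀ s ∈ Ioo (0 : ℝ) 1, r ≠ s →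
      Disjoint (frontier (B r)) (frontier (B s))) : ∃ r ∈ Ioo (0 : ℝ) 1, μ (frontier (B r)) = 0 := by
  by_contra hcon
  push Not at hcon
  have h1 : Set.Countable {i : Ioo (0 : ℝ) 1 | 0 < μ (frontier (B i))} :=
    Measure.countable_meas_pos_of_disjoint_iUnion
      (fun i => isClosed_frontier.measurableSet) (fun i j hij =>
        hB i i.2 j j.2 fun h => hij (Subtype.ext h))
  have h2 : {i : Ioo (0 : ℝ) 1 | 0 < μ (frontier (B i))} = univ := by
    ext i
    simp only [mem_ofPred_eq, mem_univ, iff_true]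
    exact pos_iff_ne_zero.2 (hcon i i.2)
  rw [h2, countable_univ_iff, Set.countable_coe_iff, ← Cardinal.le_aleph0_iff_set_countable,
    Cardinal.mk_Ioo_real one_pos] at h1
  exact absurd h1 (not_le.2 Cardinal.aleph0_lt_continuum)

end Pool.Agent.DMA
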