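import Pool.Agent.Lib.DMA.ADef

/-! # DMA, row AL0: monotone masses -/

set_option autoImplicit false

open scoped Topology
open Set Filter MeasureTheory

noncomputable section

namespace Pool.Agent.DMA

variable {X : Type*} [TopologicalSpace X] [CompactSpace X] [T2Space X] [SecondCountableTopology X]
  [MeasurableSpace X] [BorelSpace X] {n : ℕ} {C : Calc X n}

variable {φ : X → EReal} {c : ℝ} {μ : Measure X}

/-! ## AL0 -/

/-- `δ_k(t) = ∫_{φ ≤ -t} ω^{n-k} ∧ ω_{φ_t}^k`. -/
def dlt (C : Calc X n) (φ : X → EReal) (a b : ℕ) (t : ℝ) : ℝ :=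
  (C.M (Multiset.replicate a (fun _ => (0 : ℝ)) + Multiset.replicate b (tr t φ))).real (lowS φ t)

namespace AL0

theorem entry_card {a b : ℕ} (hab : a + b = n) (t : ℝ) (φ : X → EReal) :
    Multiset.card (Multiset.replicate a (fun _ : X => (0 : ℝ)) +
      Multiset.replicate b (tr t φ)) = n := by
  rw [Multiset.card_add, Multiset.card_replicate, Multiset.card_replicate, hab]

theorem entry_mem (h : Adm C φ c) (a b : ℕ) (t : ℝ) :
    ∀ u ∈ Multiset.replicate a (fun _ : X => (0 : ℝ)) + Multiset.replicate b (tr t φ),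
      u ∈ C.P := by
  intro u hu
  rcases Multiset.mem_add.1 hu with h1 | h1
  · rw [Multiset.eq_of_mem_replicate h1]; exact C.P_zero
  · rw [Multiset.eq_of_mem_replicate h1]; exact h.trP t

/-- `δ(s)` computed with the entries `φ_t`, `s ≤ t`. -/
theorem dlt_eq (h : Adm C φ c) {a b : ℕ} (hab : a + b = n) {s t : ℝ} (hst : s ≤ t) :
    dlt C φ a b s = (C.M (Multiset.replicate a (fun _ => (0 : ℝ)) +
      Multiset.replicate b (tr t φ))).real (lowS φ s) := by
  have h1 := Calc.trlocN (C := C) (fun x => h.ne_top x) h.trP hst b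
    (Multiset.replicate a (fun _ : X => (0 : ℝ)))
    (by rw [Multiset.card_replicate]; exact hab)
    (by intro u hu; rw [Multiset.eq_of_mem_replicate hu]; exact C.P_zero)
  rw [add_comm (Multiset.replicate b (tr s φ)), add_comm (Multiset.replicate b (tr t φ))] at h1
  have h2 := Calc.massC (C := C) (entry_card hab s φ) (entry_mem h a b s)
    (entry_card hab t φ) (entry_mem h a b t)
    (Calc.meas_hiS (C := C) (fun x => h.ne_top x) h.trP s) h1
  rw [hiS_compl] at h2
  exact h2

end AL0

open AL0 in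
/-- The masses `δ_k(t)` are nonincreasing in `t`. -/
theorem dlt_anti (h : Adm C φ c) {a b : ℕ} (hab : a + b = n) : Antitone (dlt C φ a b) := by
  intro s t hst
  rw [dlt_eq h hab hst]
  unfold dlt
  exact measureReal_mono (lowS_anti φ hst) (measure_ne_top _ _)

open AL0 in
/-- The transition masses tend to zero. -/
theorem trans_tendsto (h : Adm C φ c) {a b : ℕ} (hab : a + b = n) :
    Tendsto (fun j : ℕ => (C.M (Multiset.replicate a (fun _ => (0 : ℝ)) +
      Multiset.replicate b (tr ((j : ℝ) + 1) φ))).real (lowS φ (j : ℝ) ∩ hiS φ ((j : ℝ) + 1)))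
      atTop (𝓝 0) := by
  have hA : Antitone fun j : ℕ => dlt C φ a b (j : ℝ) := fun i j hij =>
    dlt_anti h hab (by exact_mod_cast hij)
  have hB : BddBelow (range fun j : ℕ => dlt C φ a b (j : ℝ)) := by
    refine ⟨0, ?_⟩
    rintro _ ⟨j, rfl⟩
    exact measureReal_nonneg
  have hT := tendsto_atTop_ciInf hA hB
  have hT1 := hT.comp (tendsto_add_atTop_nat 1)
  have hD := hT.sub hT1
  rw [sub_self] at hD
  refine hD.congr fun j => ?_
  simp only [Function.comp_apply, Nat.cast_add, Nat.cast_one]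
  rw [dlt_eq h hab (show (j : ℝ) ≤ (j : ℝ) + 1 by linarith)]
  unfold dlt
  have hsub : lowS φ ((j : ℝ) + 1) ⊆ lowS φ (j : ℝ) := lowS_anti φ (by linarith)
  rw [← measureReal_diff hsub (Calc.meas_lowS (C := C) (fun x => h.ne_top x) h.trP _)]
  congr 1
  rw [diff_eq, lowS_compl]

end Pool.Agent.DMA
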