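import Pool.Agent.Lib.DMA.AL0

/-! # DMA, row AL1: the sequence b_t -/

set_option autoImplicit false

open scoped Topology
open Set Filter MeasureTheory

noncomputable section

namespace Pool.Agent.DMA

variable {X : Type*} [TopologicalSpace X] [CompactSpace X] [T2Space X] [SecondCountableTopology X]
  [MeasurableSpace X] [BorelSpace X] {n : ℕ} {C : Calc X n}

variable {φ : X → EReal} {c : ℝ} {μ : Measure X}

/-! ## AL1 -/

theorem bt_mem (h : Adm C φ c) {v : X → ℝ} {ε : ℝ} (hv : (fun x => ε * v x) ∈ C.P) (t : ℝ) :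
    bt φ v ε t ∈ C.P := by
  have h1 : (fun x => ε * v x + -t) ∈ C.P := C.P_const _ hv (-t)
  have h2 : (fun x => max (tr (t + 1) φ x) (ε * v x + -t)) ∈ C.P :=
    C.P_max _ (h.trP (t + 1)) _ h1
  have h3 : bt φ v ε t = fun x => max (tr (t + 1) φ x) (ε * v x + -t) := by
    funext x
    unfold bt
    rw [add_comm (-t) (ε * v x)]
  rw [h3]
  exact h2

/-- The Monge–Ampère measures of `φ_j` and of `b_j` have the same limit. -/
theorem bt_lim (h : ADma C φ c μ) {v : X → ℝ} (hv0 : ∀ x, -1 ≤ v x ∧ v x ≤ 0) {ε : ℝ}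
    (hε : 0 < ε) (hε1 : ε ≤ 1) (hv : (fun x => ε * v x) ∈ C.P) {s : X → ℝ} (hs : Continuous s) :
    Tendsto (fun j : ℕ => ∫ x, s x ∂(C.MA (tr (j : ℝ) φ)) - ∫ x, s x ∂(C.MA (bt φ v ε (j : ℝ))))
      atTop (𝓝 0) := by
  have hA : Adm C φ c := h.toAdm
  have h1 : Tendsto (fun j : ℕ => ∫ x, s x ∂(C.MA (tr (j : ℝ) φ))) atTop (𝓝 (∫ x, s x ∂μ)) := by
    refine h.lim (fun j : ℕ => tr (j : ℝ) φ) (fun j => hA.trP _) ?_ ?_ s hs
    · intro x i j hij
      exact tr_anti (hA.ne_top x) (by exact_mod_cast hij)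
    · intro x
      exact (tr_tendsto (hA.ne_top x)).comp tendsto_natCast_atTop_atTop
  have hle : ∀ (t : ℝ) (x : X), bt φ v ε t x ≤ tr t φ x := by
    intro t x
    refine max_le (tr_anti (hA.ne_top x) (by linarith)) ?_
    refine le_trans ?_ (neg_le_tr (hA.ne_top x) t)
    have := mul_nonpos_of_nonneg_of_nonpos hε.le (hv0 x).2
    linarith
  have hge : ∀ (t : ℝ) (x : X), tr (t + 1) φ x ≤ bt φ v ε t x := fun t x => le_max_left _ _
  have h2 : Tendsto (fun j : ℕ => ∫ x, s x ∂(C.MA (bt φ v ε (j : ℝ)))) atTop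
      (𝓝 (∫ x, s x ∂μ)) := by
    refine h.lim (fun j : ℕ => bt φ v ε (j : ℝ)) (fun j => bt_mem hA hv _) ?_ ?_ s hs
    · intro x i j hij
      have hij' : (i : ℝ) ≤ j := by exact_mod_cast hij
      exact max_le_max (tr_anti (hA.ne_top x) (by linarith)) (by linarith)
    · intro x
      have l1 : Tendsto (fun j : ℕ => ((tr (j : ℝ) φ x : ℝ) : EReal)) atTop (𝓝 (φ x)) :=
        (tr_tendsto (hA.ne_top x)).comp tendsto_natCast_atTop_atTop
      have l2 : Tendsto (fun j : ℕ => ((tr ((j : ℝ) + 1) φ x : ℝ) : EReal)) atTop (𝓝 (φ x)) :=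
        (tr_tendsto (hA.ne_top x)).comp
          (tendsto_atTop_add_const_right _ _ tendsto_natCast_atTop_atTop)
      refine tendsto_of_tendsto_of_tendsto_of_le_of_le l2 l1 ?_ ?_
      · intro j
        exact EReal.coe_le_coe_iff.2 (hge _ x)
      · intro j
        exact EReal.coe_le_coe_iff.2 (hle _ x)
  have h3 := h1.sub h2
  rwa [sub_self] at h3

end Pool.Agent.DMA
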