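import Pool.Agent.Lib.DMA.AL1

/-! # DMA, row AL2: the main estimate -/

set_option autoImplicit false

open scoped Topology
open Set Filter MeasureTheory

noncomputable section

namespace Pool.Agent.DMA

variable {X : Type*} [TopologicalSpace X] [CompactSpace X] [T2Space X] [SecondCountableTopology X]
  [MeasurableSpace X] [BorelSpace X] {n : ℕ} {C : Calc X n}

variable {φ : X → EReal} {c : ℝ} {μ : Measure X}

/-! ## AL2 -/

/-- Pointwise: `φ_t - b_t` vanishes off `{φ < -t}` and is `-ε v` on `{φ ≤ -t}` up to an error of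
`ε` on the transition set `{-t-1 < φ ≤ -t} ∩ {-t + ε v < φ_{t+1}}`. -/
theorem bt_diff (h : Adm C φ c) {v : X → ℝ} (hv0 : ∀ x, -1 ≤ v x ∧ v x ≤ 0) {ε : ℝ}
    (hε : 0 < ε) (hε1 : ε ≤ 1) (t : ℝ) (x : X) :
    (tr (t + 1) φ x < -t ∨ tr t φ x - bt φ v ε t x = 0) ∧
    (-t ≤ tr (t + 1) φ x ∨ tr t φ x = -t) ∧
    0 ≤ tr t φ x - bt φ v ε t x ∧ tr t φ x - bt φ v ε t x ≤ ε ∧
    |tr t φ x - bt φ v ε t x + ε * (lowS φ t).indicator v x| ≤
      ({y | -t + ε * v y < tr (t + 1) φ y} ∩ (lowS φ t ∩ hiS φ (t + 1))).indicator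
        (fun _ => ε) x := by
  classical
  have hne := h.ne_top x
  have hT : tr t φ x = max (tr (t + 1) φ x) (-t) := tr_max hne (by linarith)
  have hlow : x ∈ lowS φ t ↔ tr (t + 1) φ x ≤ -t := mem_lowS_iff hne (by linarith)
  have hhi : x ∈ hiS φ (t + 1) ↔ -(t + 1) < tr (t + 1) φ x := mem_hiS_iff hne le_rfl
  have hv1 : ε * v x ≤ 0 := mul_nonpos_of_nonneg_of_nonpos hε.le (hv0 x).2
  have hv2 : -ε ≤ ε * v x := by nlinarith [(hv0 x).1]
  unfold bt
  by_cases h1 : -t ≤ tr (t + 1) φ x
  · -- above the level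
    have hb : max (tr (t + 1) φ x) (-t + ε * v x) = tr (t + 1) φ x :=
      max_eq_left (by linarith)
    have ha : tr t φ x = tr (t + 1) φ x := by rw [hT, max_eq_left h1]
    rw [ha, hb, sub_self]
    refine ⟨Or.inr rfl, Or.inl h1, le_rfl, hε.le, ?_⟩
    by_cases hx : x ∈ lowS φ t
    · have h2 : tr (t + 1) φ x = -t := le_antisymm (hlow.1 hx) h1
      rw [indicator_of_mem hx, zero_add]
      by_cases h3 : -t + ε * v x < tr (t + 1) φ x
      · rw [indicator_of_mem (show x ∈ {y | -t + ε * v y < tr (t + 1) φ y} ∩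
          (lowS φ t ∩ hiS φ (t + 1)) from ⟨h3, hx, hhi.2 (by linarith)⟩), abs_le]
        exact ⟨by linarith, by linarith⟩
      · have h4 : ε * v x = 0 := by linarith
        rw [h4, abs_zero]
        exact indicator_nonneg (fun _ _ => hε.le) x
    · rw [indicator_of_notMem hx, mul_zero, add_zero, abs_zero]
      exact indicator_nonneg (fun _ _ => hε.le) x
  · rw [not_le] at h1
    have hx : x ∈ lowS φ t := hlow.2 h1.le
    have ha : tr t φ x = -t := by rw [hT, max_eq_right h1.le]
    rw [ha, indicator_of_mem hx]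
    by_cases h3 : -t + ε * v x < tr (t + 1) φ x
    · have hb : max (tr (t + 1) φ x) (-t + ε * v x) = tr (t + 1) φ x := max_eq_left h3.le
      rw [hb, indicator_of_mem (show x ∈ {y | -t + ε * v y < tr (t + 1) φ y} ∩
          (lowS φ t ∩ hiS φ (t + 1)) from ⟨h3, hx, hhi.2 (by linarith)⟩), abs_le]
      exact ⟨Or.inl h1, Or.inr rfl, by linarith, by linarith, by linarith, by linarith⟩
    · have hb : max (tr (t + 1) φ x) (-t + ε * v x) = -t + ε * v x :=
        max_eq_right (not_lt.1 h3)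
      rw [hb]
      have h5 : -t - (-t + ε * v x) + ε * v x = 0 := by ring
      rw [h5, abs_zero]
      exact ⟨Or.inl h1, Or.inr rfl, by linarith, by linarith,
        indicator_nonneg (fun _ _ => hε.le) x⟩

namespace AL2

/-- Constants can be added to several entries. -/
theorem shiftN {a : X → ℝ} (ha : a ∈ C.P) (r : ℝ) (k : ℕ) (Ψ : Multiset (X → ℝ))
    (hΨ : Multiset.card Ψ + k = n) (hΨ' : ∀ u ∈ Ψ, u ∈ C.P) :
    C.M (Multiset.replicate k (fun x => a x + r) + Ψ) = C.M (Multiset.replicate k a + Ψ) := by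
  induction k generalizing Ψ with
  | zero => rfl
  | succ k ih =>
    have har : (fun x => a x + r) ∈ C.P := C.P_const _ ha r
    rw [Multiset.replicate_succ, Multiset.cons_add, C.shift _ ?_ ?_ a ha r, ← Multiset.add_cons,
      ih (a ::ₘ Ψ) ?_ ?_, Multiset.add_cons, Multiset.replicate_succ, Multiset.cons_add]
    · rw [Multiset.card_cons]
      omega
    · intro u hu
      rcases Multiset.mem_cons.1 hu with rfl | hu
      · exact ha
      · exact hΨ' u hu
    · rw [Multiset.card_add, Multiset.card_replicate]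
      omega
    · intro u hu
      rcases Multiset.mem_add.1 hu with hu | hu
      · rw [Multiset.eq_of_mem_replicate hu]
        exact har
      · exact hΨ' u hu

end AL2

/-- The main estimate of Lemma A. -/
theorem bt_est (h : Adm C φ c) {v : X → ℝ} (hvS : v ∈ C.S) (hv0 : ∀ x, -1 ≤ v x ∧ v x ≤ 0)
    {ε : ℝ} (hε : 0 < ε) (hε1 : ε ≤ 1) (hv : (fun x => ε * v x) ∈ C.P) {s : X → ℝ} (hs : s ∈ C.P)
    (hs' : (fun x => -s x) ∈ C.P) (t : ℝ) :
    |(∫ x, s x ∂(C.MA (tr t φ)) - ∫ x, s x ∂(C.MA (bt φ v ε t))) +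
      ε * ∑ k ∈ Finset.range n,
        (∫ x in lowS φ t, v x ∂(C.M (s ::ₘ (Multiset.replicate (n - 1 - k) (fun _ => (0 : ℝ)) +
            Multiset.replicate k (bt φ v ε t)))) -
          ∫ x in lowS φ t, v x ∂(C.M ((fun _ => 0) ::ₘ
            (Multiset.replicate (n - 1 - k) (fun _ => (0 : ℝ)) +
            Multiset.replicate k (bt φ v ε t)))))| ≤
    3 * ε * ∑ k ∈ Finset.range n, (C.M ((fun _ => 0) ::ₘ
      (Multiset.replicate (n - 1 - k) (fun _ => (0 : ℝ)) +
        Multiset.replicate k (tr (t + 1) φ)))).real (lowS φ t ∩ hiS φ (t + 1)) := by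
  classical
  have hne := h.ne_top
  have ha : tr t φ ∈ C.P := h.trP t
  have ha1 : tr (t + 1) φ ∈ C.P := h.trP (t + 1)
  have hb : bt φ v ε t ∈ C.P := bt_mem h hv t
  have hc : (fun _ : X => -t) ∈ C.P := Calc.const_mem (-t)
  have hcv : (fun x => -t + ε * v x) ∈ C.P := by
    have h1 : (fun x => ε * v x + -t) ∈ C.P := C.P_const _ hv (-t)
    have h2 : (fun x => -t + ε * v x) = fun x => ε * v x + -t := by
      funext x
      rw [add_comm]
    rw [h2]
    exact h1
  have hmL : MeasurableSet (lowS φ t) := Calc.meas_lowS hne h.trP t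
  have hmH : MeasurableSet (hiS φ (t + 1)) := Calc.meas_hiS hne h.trP (t + 1)
  set W : Set X := {y | -t + ε * v y < tr (t + 1) φ y} with hW
  have hmW : MeasurableSet W := measurableSet_lt (Calc.meas hcv) (Calc.meas ha1)
  set O : Set X := {x | tr (t + 1) φ x < -t} with hO
  have hOo : IsOpen O := (C.P_usc _ ha1).isOpen_preimage (-t)
  -- the difference
  set D : X → ℝ := fun x => tr t φ x - bt φ v ε t x with hD
  have hDi : ∀ (ν : Measure X) [IsFiniteMeasure ν], Integrable D ν := fun ν _ =>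
    (Calc.intg ha ν).sub (Calc.intg hb ν)
  -- replacing the entries a by 0
  have step1 : ∀ (σ : X → ℝ), σ ∈ C.P → ∀ k, k < n →
      ∫ x, D x ∂(C.M (σ ::ₘ (Multiset.replicate (n - 1 - k) (tr t φ) +
        Multiset.replicate k (bt φ v ε t)))) =
      ∫ x, D x ∂(C.M (σ ::ₘ (Multiset.replicate (n - 1 - k) (fun _ => (0 : ℝ)) +
        Multiset.replicate k (bt φ v ε t)))) := by
    intro σ hσ k hk
    have hΨ : Multiset.card (σ ::ₘ Multiset.replicate k (bt φ v ε t)) + (n - 1 - k) = n := by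
      rw [Multiset.card_cons, Multiset.card_replicate]
      omega
    have hΨ' : ∀ u ∈ (σ ::ₘ Multiset.replicate k (bt φ v ε t)), u ∈ C.P := by
      intro u hu
      rcases Multiset.mem_cons.1 hu with rfl | hu
      · exact hσ
      · rw [Multiset.eq_of_mem_replicate hu]
        exact hb
    have e1 := Calc.locN ha hc hOo (fun x hx => by
      obtain ⟨-, h2, -⟩ := bt_diff h hv0 hε hε1 t x
      rcases h2 with h2 | h2
      · exact absurd hx (not_lt.2 h2)
      · exact h2) (n - 1 - k) _ hΨ hΨ'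
    have e2 := AL2.shiftN (C := C) (a := fun _ => (0 : ℝ)) C.P_zero (-t) (n - 1 - k) _ hΨ hΨ'
    simp only [zero_add] at e2
    rw [e2] at e1
    rw [Multiset.add_cons, Multiset.add_cons] at e1
    have hoff : ∀ x, x ∉ O → D x = 0 := by
      intro x hx
      obtain ⟨h1, -⟩ := bt_diff h hv0 hε hε1 t x
      rcases h1 with h1 | h1
      · exact absurd h1 hx
      · exact h1
    rw [← setIntegral_eq_integral_of_forall_compl_eq_zero hoff,
      ← setIntegral_eq_integral_of_forall_compl_eq_zero (μ := C.M (σ ::ₘ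
        (Multiset.replicate (n - 1 - k) (fun _ => (0 : ℝ)) +
        Multiset.replicate k (bt φ v ε t)))) hoff, e1]
  -- the integral of the difference
  have step2 : ∀ (ν : Measure X) [IsFiniteMeasure ν],
      |∫ x, D x ∂ν + ε * ∫ x in lowS φ t, v x ∂ν| ≤
        ε * ν.real (W ∩ (lowS φ t ∩ hiS φ (t + 1))) := by
    intro ν _
    have hvi : Integrable v ν := Calc.intgS hvS ν
    have hmI : MeasurableSet (W ∩ (lowS φ t ∩ hiS φ (t + 1))) := hmW.inter (hmL.inter hmH)
    have e1 : ∫ x, D x ∂ν + ε * ∫ x in lowS φ t, v x ∂ν =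
        ∫ x, (D x + ε * (lowS φ t).indicator v x) ∂ν := by
      rw [integral_add (hDi ν) ((hvi.indicator hmL).const_mul ε), integral_const_mul,
        integral_indicator hmL]
    have e2 : ∫ x, (W ∩ (lowS φ t ∩ hiS φ (t + 1))).indicator (fun _ => ε) x ∂ν =
        ε * ν.real (W ∩ (lowS φ t ∩ hiS φ (t + 1))) := by
      rw [integral_indicator hmI, setIntegral_const, smul_eq_mul, mul_comm]
    rw [e1, ← e2]
    refine (abs_integral_le_integral_abs).trans ?_
    refine integral_mono_of_nonneg (Eventually.of_forall fun x => abs_nonneg _)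
      ((integrable_const ε).indicator hmI) (Eventually.of_forall fun x => ?_)
    exact (bt_diff h hv0 hε hε1 t x).2.2.2.2
  -- every term
  have step3 : ∀ k, k < n →
      |(∫ x, D x ∂(C.M (s ::ₘ (Multiset.replicate (n - 1 - k) (tr t φ) +
          Multiset.replicate k (bt φ v ε t)))) -
        ∫ x, D x ∂(C.M ((fun _ => 0) ::ₘ (Multiset.replicate (n - 1 - k) (tr t φ) +
          Multiset.replicate k (bt φ v ε t))))) +
        ε * (∫ x in lowS φ t, v x ∂(C.M (s ::ₘ
            (Multiset.replicate (n - 1 - k) (fun _ => (0 : ℝ)) +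
            Multiset.replicate k (bt φ v ε t)))) -
          ∫ x in lowS φ t, v x ∂(C.M ((fun _ => 0) ::ₘ
            (Multiset.replicate (n - 1 - k) (fun _ => (0 : ℝ)) +
            Multiset.replicate k (bt φ v ε t)))))| ≤
      3 * ε * (C.M ((fun _ => 0) ::ₘ
        (Multiset.replicate (n - 1 - k) (fun _ => (0 : ℝ)) +
          Multiset.replicate k (tr (t + 1) φ)))).real (lowS φ t ∩ hiS φ (t + 1)) := by
    intro k hk
    rw [step1 s hs k hk, step1 _ C.P_zero k hk]
    set ν1 := C.M (s ::ₘ (Multiset.replicate (n - 1 - k) (fun _ => (0 : ℝ)) +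
      Multiset.replicate k (bt φ v ε t))) with hν1
    set ν0 := C.M ((fun _ => 0) ::ₘ (Multiset.replicate (n - 1 - k) (fun _ => (0 : ℝ)) +
      Multiset.replicate k (bt φ v ε t))) with hν0
    have hok : C.Ok (Multiset.replicate (n - 1 - k) (fun _ => (0 : ℝ)) +
        Multiset.replicate k (bt φ v ε t)) := Calc.tele_ok C.P_zero hb hk
    have hdom : ν1 ≤ 2 • ν0 := Calc.dom hs hs' hok
    have f1 := step2 ν1
    have f0 := step2 ν0
    have g1 : ν1.real (W ∩ (lowS φ t ∩ hiS φ (t + 1))) ≤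
        2 * ν0.real (W ∩ (lowS φ t ∩ hiS φ (t + 1))) := by
      have h1 := hdom (W ∩ (lowS φ t ∩ hiS φ (t + 1)))
      have h2 : ((2 : ℕ) • ν0) (W ∩ (lowS φ t ∩ hiS φ (t + 1))) =
          2 * ν0 (W ∩ (lowS φ t ∩ hiS φ (t + 1))) := by
        rw [Measure.smul_apply, nsmul_eq_mul]
        rfl
      rw [h2] at h1
      have h3 := ENNReal.toReal_mono (ENNReal.mul_ne_top ENNReal.ofNat_ne_top
        (measure_ne_top ν0 _)) h1
      rw [ENNReal.toReal_mul] at h3
      exact h3
    have g2 : ν0.real (W ∩ (lowS φ t ∩ hiS φ (t + 1))) ≤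
        (C.M ((fun _ => 0) ::ₘ
        (Multiset.replicate (n - 1 - k) (fun _ => (0 : ℝ)) +
          Multiset.replicate k (tr (t + 1) φ)))).real (lowS φ t ∩ hiS φ (t + 1)) := by
      have hΨ : Multiset.card ((fun _ : X => (0 : ℝ)) ::ₘ
          Multiset.replicate (n - 1 - k) (fun _ : X => (0 : ℝ))) + k = n := by
        rw [Multiset.card_cons, Multiset.card_replicate]
        omega
      have hΨ' : ∀ u ∈ ((fun _ : X => (0 : ℝ)) ::ₘ
          Multiset.replicate (n - 1 - k) (fun _ : X => (0 : ℝ))), u ∈ C.P := by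
        intro u hu
        rcases Multiset.mem_cons.1 hu with rfl | hu
        · exact C.P_zero
        · rw [Multiset.eq_of_mem_replicate hu]
          exact C.P_zero
      have h1 := Calc.maxlocN ha1 hcv k _ hΨ hΨ'
      have h2 : ν0.restrict W = (C.M ((fun _ => 0) ::ₘ
        (Multiset.replicate (n - 1 - k) (fun _ => (0 : ℝ)) +
          Multiset.replicate k (tr (t + 1) φ)))).restrict W := by
        rw [add_comm, Multiset.cons_add, add_comm (Multiset.replicate k (tr (t + 1) φ)),
          Multiset.cons_add] at h1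
        exact h1
      have h3 : ν0.real (W ∩ (lowS φ t ∩ hiS φ (t + 1))) =
          (C.M ((fun _ => 0) ::ₘ
          (Multiset.replicate (n - 1 - k) (fun _ => (0 : ℝ)) +
          Multiset.replicate k (tr (t + 1) φ)))).real (W ∩ (lowS φ t ∩ hiS φ (t + 1))) := by
        have h4 := congrArg (fun m : Measure X => m.real (lowS φ t ∩ hiS φ (t + 1))) h2
        simp only [measureReal_def] at h4 ⊢
        rw [Measure.restrict_apply (hmL.inter hmH), Measure.restrict_apply (hmL.inter hmH),
          inter_comm _ W] at h4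
        exact h4
      rw [h3]
      exact measureReal_mono inter_subset_right
    have e : (∫ x, D x ∂ν1 - ∫ x, D x ∂ν0) +
        ε * (∫ x in lowS φ t, v x ∂ν1 - ∫ x in lowS φ t, v x ∂ν0) =
        (∫ x, D x ∂ν1 + ε * ∫ x in lowS φ t, v x ∂ν1) -
          (∫ x, D x ∂ν0 + ε * ∫ x in lowS φ t, v x ∂ν0) := by ring
    rw [e]
    refine (abs_sub _ _).trans ?_
    have h5 := mul_le_mul_of_nonneg_left g1 hε.le
    have h6 := mul_le_mul_of_nonneg_left g2 hε.le
    linarith
  rw [Calc.tele ha hb hs, Finset.mul_sum, Finset.mul_sum, ← Finset.sum_add_distrib]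
  refine (Finset.abs_sum_le_sum_abs _ _).trans (Finset.sum_le_sum fun k hk => ?_)
  exact step3 k (Finset.mem_range.1 hk)

end Pool.Agent.DMA
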