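import Pool.Agent.Lib.DMA.AL2

/-! # DMA, row AL3: change of b_t into φ_t -/

set_option autoImplicit false

open scoped Topology
open Set Filter MeasureTheory

noncomputable section

namespace Pool.Agent.DMA

variable {X : Type*} [TopologicalSpace X] [CompactSpace X] [T2Space X] [SecondCountableTopology X]
  [MeasurableSpace X] [BorelSpace X] {n : ℕ} {C : Calc X n}

variable {φ : X → EReal} {c : ℝ} {μ : Measure X}

/-! ## AL3 -/

/-- Replacing `b_t` by `φ_t` on `{φ ≤ -t}`. -/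
theorem bt_chg (h : Adm C φ c) {v : X → ℝ} (hvS : v ∈ C.S) (hv0 : ∀ x, -1 ≤ v x ∧ v x ≤ 0)
    {ε : ℝ} (hε : 0 < ε) (hε1 : ε ≤ 1) (hv : (fun x => ε * v x) ∈ C.P) {κ : ℝ} (hκ : 0 < κ)
    (hκv : (fun x => κ * v x) ∈ C.P) (t : ℝ) (k : ℕ) (Ψ : Multiset (X → ℝ))
    (hΨ : Multiset.card Ψ + k = n) (hΨ' : ∀ u ∈ Ψ, u ∈ C.P) :
    |∫ x in lowS φ t, v x ∂(C.M (Ψ + Multiset.replicate k (bt φ v ε t))) -
      ∫ x in lowS φ t, v x ∂(C.M (Ψ + Multiset.replicate k (tr t φ)))| ≤
      k * (2 * ε / κ) * C.V := by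
  have hne := h.ne_top
  have hb : bt φ v ε t ∈ C.P := bt_mem h hv t
  have ha : tr t φ ∈ C.P := h.trP t
  have hd : ∀ x, |bt φ v ε t x - tr t φ x| ≤ ε := by
    intro x
    obtain ⟨-, -, h0, h1, -⟩ := bt_diff h hv0 hε hε1 t x
    rw [abs_sub_comm, abs_of_nonneg h0]
    exact h1
  have key := Calc.chg hb ha hd hκ hκv k Ψ hΨ hΨ'
  have hmH : MeasurableSet (hiS φ t) := Calc.meas_hiS hne h.trP t
  -- the measures agree on the set where the function is large
  have hsub : hiS φ t ⊆ {x | -t + ε * v x < tr (t + 1) φ x} := by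
    intro x hx
    have h1 : -t < tr (t + 1) φ x := (mem_hiS_iff (hne x) (by linarith)).1 hx
    have h2 := mul_nonpos_of_nonneg_of_nonpos hε.le (hv0 x).2
    change -t + ε * v x < tr (t + 1) φ x
    linarith
  have hcv : (fun x => -t + ε * v x) ∈ C.P := by
    have h1 : (fun x => ε * v x + -t) ∈ C.P := C.P_const _ hv (-t)
    have h2 : (fun x => -t + ε * v x) = fun x => ε * v x + -t := by
      funext x
      rw [add_comm]
    rw [h2]
    exact h1
  have e1 : (C.M (Multiset.replicate k (bt φ v ε t) + Ψ)).restrict (hiS φ t) =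
      (C.M (Multiset.replicate k (tr (t + 1) φ) + Ψ)).restrict (hiS φ t) := by
    have h1 := Calc.maxlocN (h.trP (t + 1)) hcv k Ψ hΨ hΨ'
    have h2 := congrArg (fun m : Measure X => m.restrict (hiS φ t)) h1
    rw [Measure.restrict_restrict_of_subset hsub, Measure.restrict_restrict_of_subset hsub] at h2
    exact h2
  have e2 : (C.M (Multiset.replicate k (tr t φ) + Ψ)).restrict (hiS φ t) =
      (C.M (Multiset.replicate k (tr (t + 1) φ) + Ψ)).restrict (hiS φ t) :=
    Calc.trlocN hne h.trP (by linarith) k Ψ hΨ hΨ'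
  have e3 : ∫ x in hiS φ t, v x ∂(C.M (Multiset.replicate k (bt φ v ε t) + Ψ)) =
      ∫ x in hiS φ t, v x ∂(C.M (Multiset.replicate k (tr t φ) + Ψ)) := by
    rw [e1, e2]
  have hi1 : Integrable v (C.M (Multiset.replicate k (bt φ v ε t) + Ψ)) := Calc.intgS hvS _
  have hi2 : Integrable v (C.M (Multiset.replicate k (tr t φ) + Ψ)) := Calc.intgS hvS _
  have s1 := integral_add_compl hmH hi1
  have s2 := integral_add_compl hmH hi2
  rw [hiS_compl] at s1 s2
  rw [add_comm Ψ, add_comm Ψ]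
  have e4 : ∫ x in lowS φ t, v x ∂(C.M (Multiset.replicate k (bt φ v ε t) + Ψ)) -
      ∫ x in lowS φ t, v x ∂(C.M (Multiset.replicate k (tr t φ) + Ψ)) =
      ∫ x, v x ∂(C.M (Multiset.replicate k (bt φ v ε t) + Ψ)) -
      ∫ x, v x ∂(C.M (Multiset.replicate k (tr t φ) + Ψ)) := by
    rw [← s1, ← s2, e3]
    ring
  rw [e4]
  exact key

end Pool.Agent.DMA
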