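import Pool.Agent.Lib.DMA.AL3

/-! # DMA, row AL4: the limit for all v, s -/

set_option autoImplicit false

open scoped Topology
open Set Filter MeasureTheory

noncomputable section

namespace Pool.Agent.DMA

variable {X : Type*} [TopologicalSpace X] [CompactSpace X] [T2Space X] [SecondCountableTopology X]
  [MeasurableSpace X] [BorelSpace X] {n : ℕ} {C : Calc X n}

variable {φ : X → EReal} {c : ℝ} {μ : Measure X}

/-! ## AL4 -/

/-- The limit along the integers, for all `v` and `s`. -/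
theorem lemA_vs (h : ADma C φ c μ) {v : X → ℝ} (hvS : v ∈ C.S) (hv0 : ∀ x, -1 ≤ v x ∧ v x ≤ 0)
    {s : X → ℝ} (hs : s ∈ C.P) (hs' : (fun x => -s x) ∈ C.P) (hsc : Continuous s) :
    Tendsto (fun j : ℕ => ∑ k ∈ Finset.range n,
        (∫ x in lowS φ j, v x ∂(C.M (s ::ₘ (Multiset.replicate (n - 1 - k) (fun _ => (0 : ℝ)) +
            Multiset.replicate k (tr (j : ℝ) φ)))) -
          ∫ x in lowS φ j, v x ∂(C.M ((fun _ => 0) ::ₘ
            (Multiset.replicate (n - 1 - k) (fun _ => (0 : ℝ)) +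
            Multiset.replicate k (tr (j : ℝ) φ)))))) atTop (𝓝 0) := by
  obtain ⟨κ, hκ, hκP⟩ := Calc.small hvS
  have hκv : (fun x => κ * v x) ∈ C.P := hκP κ (by rw [abs_of_pos hκ])
  have hV : 0 ≤ C.V := Calc.V_nonneg (C := C)
  set C1 : ℝ := ∑ k ∈ Finset.range n, 2 * ((k : ℝ) * (2 / κ) * C.V) with hC1
  have hC1n : 0 ≤ C1 := Finset.sum_nonneg fun k _ => by positivity
  set tm : ℕ → ℕ → ℝ := fun j k => (C.M ((fun _ => 0) ::ₘ
      (Multiset.replicate (n - 1 - k) (fun _ => (0 : ℝ)) +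
        Multiset.replicate k (tr ((j : ℝ) + 1) φ)))).real (lowS φ (j : ℝ) ∩ hiS φ ((j : ℝ) + 1))
    with htm
  have htm0 : ∀ k ∈ Finset.range n, Tendsto (fun j => tm j k) atTop (𝓝 0) := by
    intro k hk
    have hk' : k < n := Finset.mem_range.1 hk
    have := trans_tendsto (C := C) h.toAdm (a := n - k) (b := k) (by omega)
    refine this.congr fun j => ?_
    simp only [htm]
    have e : n - k = (n - 1 - k) + 1 := by omega
    rw [e, Multiset.replicate_succ, Multiset.cons_add]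
  have htms : Tendsto (fun j => ∑ k ∈ Finset.range n, tm j k) atTop (𝓝 0) := by
    have := tendsto_finsetSum (Finset.range n) htm0
    simpa using this
  -- the key estimate
  have key : ∀ ε : ℝ, 0 < ε → ε ≤ 1 → ε ≤ κ → ∀ j : ℕ,
      |∑ k ∈ Finset.range n,
        (∫ x in lowS φ j, v x ∂(C.M (s ::ₘ (Multiset.replicate (n - 1 - k) (fun _ => (0 : ℝ)) +
            Multiset.replicate k (tr (j : ℝ) φ)))) -
          ∫ x in lowS φ j, v x ∂(C.M ((fun _ => 0) ::ₘ
            (Multiset.replicate (n - 1 - k) (fun _ => (0 : ℝ)) +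
            Multiset.replicate k (tr (j : ℝ) φ)))))| ≤
        ε⁻¹ * |∫ x, s x ∂(C.MA (tr (j : ℝ) φ)) - ∫ x, s x ∂(C.MA (bt φ v ε (j : ℝ)))| +
          3 * ∑ k ∈ Finset.range n, tm j k + C1 * ε := by
    intro ε hε hε1 hεκ j
    have hεv : (fun x => ε * v x) ∈ C.P := hκP ε (by rw [abs_of_pos hε]; exact hεκ)
    have h2 := bt_est h.toAdm hvS hv0 hε hε1 hεv hs hs' (j : ℝ)
    have h3 : ∀ f : X → ℝ, f ∈ C.P → ∀ k ∈ Finset.range n,
        |∫ x in lowS φ j, v x ∂(C.M (f ::ₘ (Multiset.replicate (n - 1 - k) (fun _ => (0 : ℝ)) +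
            Multiset.replicate k (bt φ v ε (j : ℝ))))) -
          ∫ x in lowS φ j, v x ∂(C.M (f ::ₘ
            (Multiset.replicate (n - 1 - k) (fun _ => (0 : ℝ)) +
            Multiset.replicate k (tr (j : ℝ) φ))))| ≤ (k : ℝ) * (2 / κ) * C.V * ε := by
      intro f hf k hk
      have hk' : k < n := Finset.mem_range.1 hk
      have := bt_chg h.toAdm hvS hv0 hε hε1 hεv hκ hκv (j : ℝ) k
        (f ::ₘ Multiset.replicate (n - 1 - k) (fun _ => (0 : ℝ)))
        (by rw [Multiset.card_cons, Multiset.card_replicate]; omega)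
        (by
          intro u hu
          rcases Multiset.mem_cons.1 hu with rfl | hu
          · exact hf
          · rw [Multiset.eq_of_mem_replicate hu]; exact C.P_zero)
      rw [Multiset.cons_add, Multiset.cons_add] at this
      refine this.trans (le_of_eq ?_)
      field_simp
    set A : ℝ := ∑ k ∈ Finset.range n,
        (∫ x in lowS φ j, v x ∂(C.M (s ::ₘ (Multiset.replicate (n - 1 - k) (fun _ => (0 : ℝ)) +
            Multiset.replicate k (tr (j : ℝ) φ)))) -
          ∫ x in lowS φ j, v x ∂(C.M ((fun _ => 0) ::ₘ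
            (Multiset.replicate (n - 1 - k) (fun _ => (0 : ℝ)) +
            Multiset.replicate k (tr (j : ℝ) φ))))) with hA
    set B : ℝ := ∑ k ∈ Finset.range n,
        (∫ x in lowS φ j, v x ∂(C.M (s ::ₘ (Multiset.replicate (n - 1 - k) (fun _ => (0 : ℝ)) +
            Multiset.replicate k (bt φ v ε (j : ℝ))))) -
          ∫ x in lowS φ j, v x ∂(C.M ((fun _ => 0) ::ₘ
            (Multiset.replicate (n - 1 - k) (fun _ => (0 : ℝ)) +
            Multiset.replicate k (bt φ v ε (j : ℝ)))))) with hB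
    have hAB : |B - A| ≤ C1 * ε := by
      rw [hA, hB, ← Finset.sum_sub_distrib, hC1, Finset.sum_mul]
      refine (Finset.abs_sum_le_sum_abs _ _).trans (Finset.sum_le_sum fun k hk => ?_)
      have e1 := h3 s hs k hk
      have e2 := h3 (fun _ => 0) C.P_zero k hk
      have e3 : ∀ a b c d : ℝ, a - b - (c - d) = (a - c) - (b - d) := by intros; ring
      rw [e3]
      refine (abs_sub _ _).trans ?_
      linarith
    set D : ℝ := ∫ x, s x ∂(C.MA (tr (j : ℝ) φ)) - ∫ x, s x ∂(C.MA (bt φ v ε (j : ℝ))) with hD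
    have hBle : |B| ≤ ε⁻¹ * |D| + 3 * ∑ k ∈ Finset.range n, tm j k := by
      have h4 : |ε * B| ≤ |D| + 3 * ε * ∑ k ∈ Finset.range n, tm j k := by
        have e : ε * B = (D + ε * B) - D := by ring
        rw [e]
        refine (abs_sub _ _).trans ?_
        linarith [h2]
      rw [abs_mul, abs_of_pos hε] at h4
      have h5 : |B| = ε⁻¹ * (ε * |B|) := by field_simp
      rw [h5]
      calc ε⁻¹ * (ε * |B|) ≤ ε⁻¹ * (|D| + 3 * ε * ∑ k ∈ Finset.range n, tm j k) :=
            mul_le_mul_of_nonneg_left h4 (by positivity)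
        _ = ε⁻¹ * |D| + 3 * ∑ k ∈ Finset.range n, tm j k := by field_simp
    have e : A = B - (B - A) := by ring
    rw [e]
    refine (abs_sub _ _).trans ?_
    linarith
  -- conclusion
  rw [Metric.tendsto_atTop]
  intro η hη
  set ε : ℝ := min (min 1 κ) (η / (2 * (C1 + 1))) with hεd
  have hε : 0 < ε := by
    simp only [hεd, lt_min_iff]
    exact ⟨⟨one_pos, hκ⟩, by positivity⟩
  have hε1 : ε ≤ 1 := (min_le_left _ _).trans (min_le_left _ _)
  have hεκ : ε ≤ κ := (min_le_left _ _).trans (min_le_right _ _)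
  have hεη : C1 * ε < η / 2 := by
    have h1 : ε ≤ η / (2 * (C1 + 1)) := min_le_right _ _
    have h2 : (C1 + 1) * ε ≤ η / 2 := by
      calc (C1 + 1) * ε ≤ (C1 + 1) * (η / (2 * (C1 + 1))) :=
            mul_le_mul_of_nonneg_left h1 (by linarith)
        _ = η / 2 := by field_simp
    nlinarith
  have hεv : (fun x => ε * v x) ∈ C.P := hκP ε (by rw [abs_of_pos hε]; exact hεκ)
  have hlim := bt_lim h hv0 hε hε1 hεv hsc
  have hlim2 : Tendsto (fun j : ℕ => ε⁻¹ *
      |∫ x, s x ∂(C.MA (tr (j : ℝ) φ)) - ∫ x, s x ∂(C.MA (bt φ v ε (j : ℝ)))| +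
          3 * ∑ k ∈ Finset.range n, tm j k) atTop (𝓝 0) := by
    have := (hlim.abs.const_mul ε⁻¹).add (htms.const_mul 3)
    simpa using this
  have hev := hlim2.eventually (gt_mem_nhds (show (0 : ℝ) < η / 2 by positivity))
  obtain ⟨N, hN⟩ := eventually_atTop.1 hev
  refine ⟨N, fun j hj => ?_⟩
  rw [Real.dist_eq, sub_zero]
  have h1 := key ε hε hε1 hεκ j
  have h2 := hN j hj
  linarith

end Pool.Agent.DMA
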