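import Pool.Agent.Lib.DMA.AL4

/-! # DMA, row AL5: LEMMA A -/

set_option autoImplicit false

open scoped Topology
open Set Filter MeasureTheory

noncomputable section

namespace Pool.Agent.DMA

variable {X : Type*} [TopologicalSpace X] [CompactSpace X] [T2Space X] [SecondCountableTopology X]
  [MeasurableSpace X] [BorelSpace X] {n : ℕ} {C : Calc X n}

variable {φ : X → EReal} {c : ℝ} {μ : Measure X}

/-! ## AL5 -/

namespace AL5

/-- The `k`-th multiset of Lemma A. -/
def Th (φ : X → EReal) (n k : ℕ) (t : ℝ) : Multiset (X → ℝ) :=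
  Multiset.replicate (n - 1 - k) (fun _ => (0 : ℝ)) + Multiset.replicate k (tr t φ)

omit [TopologicalSpace X] [CompactSpace X] [T2Space X] [SecondCountableTopology X]
  [MeasurableSpace X] [BorelSpace X] in
theorem Th_cons {a b : ℕ} (hab : a + b = n) (ha : 0 < a) (t : ℝ) :
    (fun _ => (0 : ℝ)) ::ₘ Th φ n b t =
      Multiset.replicate a (fun _ : X => (0 : ℝ)) + Multiset.replicate b (tr t φ) := by
  unfold Th
  have e : a = (n - 1 - b) + 1 := by omega
  rw [e, Multiset.replicate_succ, Multiset.cons_add]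

omit [CompactSpace X] [T2Space X] [SecondCountableTopology X] [BorelSpace X] in
theorem Th_ok (h : Adm C φ c) {k : ℕ} (hk : k < n) (t : ℝ) : C.Ok (Th φ n k t) := by
  refine ⟨?_, fun u hu => ?_⟩
  · unfold Th
    rw [Multiset.card_add, Multiset.card_replicate, Multiset.card_replicate]
    omega
  · unfold Th at hu
    rcases Multiset.mem_add.1 hu with hu | hu
    · rw [Multiset.eq_of_mem_replicate hu]
      exact C.P_zero
    · rw [Multiset.eq_of_mem_replicate hu]
      exact h.trP t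

omit [CompactSpace X] [T2Space X] [SecondCountableTopology X] [BorelSpace X] in
theorem int_scale {M1 M2 : Measure X} {B S : Set X} (_ : IsOpen B) (hS : MeasurableSet S)
    {κ : ℝ} (hκ : 0 < κ) {v : X → ℝ} (hv : ∀ x, x ∉ B → v x = 0)
    (h : M1.restrict B = ENNReal.ofReal (1 + κ) • M2.restrict B) :
    ∫ x in S, v x ∂M1 = (1 + κ) * ∫ x in S, v x ∂M2 := by
  have key : ∀ M : Measure X, ∫ x in S, v x ∂M = ∫ x, v x ∂((M.restrict B).restrict S) := by
    intro M
    rw [Measure.restrict_restrict hS]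
    exact setIntegral_eq_of_subset_of_forall_sdiff_eq_zero hS inter_subset_left
      (fun x hx => hv x fun hxB => hx.2 ⟨hx.1, hxB⟩)
  rw [key M1, key M2, h, Measure.restrict_smul, integral_smul_measure,
    ENNReal.toReal_ofReal (by linarith), smul_eq_mul]

/-- The bump at a point. -/
structure Bmp (C : Calc X n) (φ : X → EReal) (x : X) (χ : X → ℝ) : Prop where
  mem : χ ∈ C.S
  nonneg : ∀ y, 0 ≤ χ y
  one : ∀ᶠ y in 𝓝 x, χ y = 1
  lim : Tendsto (fun j : ℕ => ∑ k ∈ Finset.range n,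
    ∫ y in lowS φ (j : ℝ), χ y ∂(C.M ((fun _ => (0 : ℝ)) ::ₘ Th φ n k (j : ℝ)))) atTop (𝓝 0)

theorem exists_bmp (hpot : ∀ x : X, ∃ (B : Set X) (ρ : X → ℝ), x ∈ B ∧ C.Pot B ρ)
    (h : ADma C φ c μ) (x : X) : ∃ χ, Bmp C φ x χ := by
  obtain ⟨B, ρ, hxB, hP⟩ := hpot x
  obtain ⟨κ, hκ, hsm⟩ := Calc.small hP.mem
  have h1 : (fun y => κ * ρ y) ∈ C.P := hsm κ (by rw [abs_of_pos hκ])
  have h2 : (fun y => -(κ * ρ y)) ∈ C.P := by
    have := hsm (-κ) (by rw [abs_neg, abs_of_pos hκ])
    simpa only [neg_mul] using this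
  obtain ⟨K, hK, hxK, hKB⟩ := exists_compact_subset hP.opn hxB
  obtain ⟨χ, hχS, hχ01, hχ1, hχs⟩ := C.S_bump K B hK hP.opn hKB
  have hvS : (fun y => -1 * χ y) ∈ C.S := C.S_mul _ (C.S_const (-1)) _ hχS
  have hv := lemA_vs h hvS (fun y => ⟨by linarith [(hχ01 y).2], by linarith [(hχ01 y).1]⟩) h1 h2
    (continuous_const.mul (C.S_cont _ hP.mem))
  have hχB : ∀ y, y ∉ B → -1 * χ y = 0 := by
    intro y hy
    have : χ y = 0 := by
      by_contra hne
      exact hy (hχs (subset_tsupport _ hne))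
    rw [this, mul_zero]
  refine ⟨χ, hχS, fun y => (hχ01 y).1, ?_, ?_⟩
  · filter_upwards [mem_interior_iff_mem_nhds.1 hxK] with y hy using hχ1 y hy
  · have hlim := hv.const_mul (-(1 / κ))
    rw [mul_zero] at hlim
    refine hlim.congr fun j => ?_
    rw [Finset.mul_sum]
    refine Finset.sum_congr rfl fun k hk => ?_
    have hk' : k < n := Finset.mem_range.1 hk
    have hpos := hP.pos κ hκ h1 (Th φ n k (j : ℝ)) (Th_ok h.toAdm hk' _)
    have hS := Calc.meas_lowS (C := C) h.toAdm.ne_top h.trP (j : ℝ)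
    have hi := int_scale hP.opn hS hκ hχB hpos
    unfold Th at hi ⊢
    rw [hi]
    have e : ∀ M : Measure X, ∫ y in lowS φ (j : ℝ), -1 * χ y ∂M =
        -∫ y in lowS φ (j : ℝ), χ y ∂M := by
      intro M
      rw [integral_const_mul]
      ring
    rw [e]
    field_simp
    ring

end AL5

open AL5

/-- LEMMA A. -/
theorem lemA (hpot : ∀ x : X, ∃ (B : Set X) (ρ : X → ℝ), x ∈ B ∧ C.Pot B ρ)
    (h : ADma C φ c μ) {a b : ℕ} (hab : a + b = n) (ha : 0 < a) :
    Tendsto (dlt C φ a b) atTop (𝓝 0) := by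
  have hb : b < n := by omega
  choose χ hχ using exists_bmp hpot h
  obtain ⟨t, ht⟩ := isCompact_univ.elim_nhds_subcover (fun x => {y | χ x y = 1})
    (fun x _ => (hχ x).one)
  have hnn : ∀ s : ℝ, 0 ≤ dlt C φ a b s := fun s => ENNReal.toReal_nonneg
  -- limit along the integers
  have hN : Tendsto (fun j : ℕ => dlt C φ a b (j : ℝ)) atTop (𝓝 0) := by
    have hsum : Tendsto (fun j : ℕ => ∑ x ∈ t, ∑ k ∈ Finset.range n,
        ∫ y in lowS φ (j : ℝ), χ x y ∂(C.M ((fun _ => (0 : ℝ)) ::ₘ Th φ n k (j : ℝ))))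
        atTop (𝓝 0) := by
      have := tendsto_finsetSum t (fun x _ => (hχ x).lim)
      simpa using this
    refine squeeze_zero (fun j => hnn _) (fun j => ?_) hsum
    set M := C.M ((fun _ => (0 : ℝ)) ::ₘ Th φ n b (j : ℝ)) with hM
    have hfin : IsFiniteMeasure M := C.fin _
    have hint : ∀ x, Integrable (χ x) M := fun x => Calc.intgS (hχ x).mem M
    have e1 : dlt C φ a b (j : ℝ) = ∫ y in lowS φ (j : ℝ), (1 : ℝ) ∂M := by
      unfold dlt
      rw [← Th_cons hab ha, setIntegral_const, smul_eq_mul, mul_one]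
    rw [e1]
    have e2 : ∫ y in lowS φ (j : ℝ), (1 : ℝ) ∂M ≤
        ∫ y in lowS φ (j : ℝ), ∑ x ∈ t, χ x y ∂M := by
      refine integral_mono (integrable_const _) ?_ fun y => ?_
      · exact integrable_finsetSum _ fun x _ => (hint x).integrableOn
      · obtain ⟨x, hx, hxy⟩ := mem_iUnion₂.1 (ht.2 (mem_univ y))
        have hx1 : χ x y = 1 := hxy
        rw [← hx1]
        exact Finset.single_le_sum (f := fun x => χ x y) (fun x _ => (hχ x).nonneg y) hx
    refine e2.trans ?_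
    rw [integral_finsetSum _ fun x _ => (hint x).integrableOn]
    refine Finset.sum_le_sum fun x _ => ?_
    exact Finset.single_le_sum (f := fun k => ∫ y in lowS φ (j : ℝ), χ x y
      ∂(C.M ((fun _ => (0 : ℝ)) ::ₘ Th φ n k (j : ℝ))))
      (fun k _ => integral_nonneg fun y => (hχ x).nonneg y) (Finset.mem_range.2 hb)
  -- from integers to reals
  have hanti := dlt_anti h.toAdm hab
  rw [Metric.tendsto_atTop] at hN ⊢
  intro ε hε
  obtain ⟨N, hN⟩ := hN ε hε
  refine ⟨(N : ℝ), fun s hs => ?_⟩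
  have h1 := hN N le_rfl
  rw [Real.dist_eq, sub_zero, abs_of_nonneg (hnn _)] at h1 ⊢
  exact (hanti hs).trans_lt h1

end Pool.Agent.DMA
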