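import Pool.Agent.Lib.DMA.AF9

/-! # DMA, row AMain: main theorem, abstract form -/

set_option autoImplicit false

open scoped Topology
open Set Filter MeasureTheory

noncomputable section

namespace Pool.Agent.DMA

variable {X : Type*} [TopologicalSpace X] [CompactSpace X] [T2Space X] [SecondCountableTopology X]
  [MeasurableSpace X] [BorelSpace X] {n : ℕ} {C : Calc X n} {φ : X → EReal} {c : ℝ}
  {μ : Measure X}

/-- MAIN THEOREM (abstract form). -/
theorem amain (hgeo : C.Geo) (hn : 0 < n) (h : ADma C φ c μ) (τ : ℝ) :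
    μ.restrict (hiS φ τ) = (C.MA (tr τ φ)).restrict (hiS φ τ) := by
  have hfin := h.fin
  have hpot : ∀ x : X, ∃ (B : Set X) (ρ : X → ℝ), x ∈ B ∧ C.Pot B ρ := by
    intro x
    obtain ⟨B, B1, ρ, hρ, hB, -⟩ := hgeo x
    obtain ⟨-, hx, hcl, -⟩ := hB (1 / 2) ⟨by norm_num, by norm_num⟩
    exact ⟨B1, ρ, hcl (subset_closure hx), hρ⟩
  have hA : ∀ a b : ℕ, a + b = n → 0 < a → Tendsto (dlt C φ a b) atTop (𝓝 0) :=
    fun a b hab ha => lemA hpot h hab ha
  have hloc : ∀ x : X, ∃ B : Set X, IsOpen B ∧ x ∈ B ∧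
      μ.restrict (B ∩ hiS φ τ) = (C.MA (tr τ φ)).restrict (B ∩ hiS φ τ) := by
    intro x
    obtain ⟨B, B1, ρ, hρ, hB, hdis⟩ := hgeo x
    obtain ⟨r, hr, hμ⟩ := exists_good_ball μ hdis
    obtain ⟨hBo, hx, hcl, hat, hbal⟩ := hB r hr
    refine ⟨B r, hBo, hx, ?_⟩
    refine eq_of_int_le hBo.measurableSet (G := fun y => tr τ φ y + τ) ?_ ?_ ?_
      (C.meas_hiS h.ne_top h.trP τ) ?_ (mu_ge h τ) (G_ineq h hbal hA hn hBo hcl hρ hμ)
    · exact (Calc.meas (h.trP τ)).add_const τ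
    · intro y
      have := neg_le_tr (h.ne_top y) τ
      linarith
    · obtain ⟨D, hD⟩ := C.P_bdd _ (h.trP τ)
      exact ⟨D + τ, fun y => by have := (abs_le.1 (hD y)).2; linarith⟩
    · intro y
      rw [mem_hiS_iff (h.ne_top y) le_rfl]
      constructor <;> intro <;> linarith
  choose B hBo hxB hBe using hloc
  obtain ⟨t, ht⟩ := isCompact_univ.elim_nhds_subcover B (fun x _ => (hBo x).mem_nhds (hxB x))
  have hcov : (⋃ x ∈ t, B x) = univ := by
    refine eq_univ_of_univ_subset ?_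
    simpa using ht.2
  have : ∀ s : Finset X, μ.restrict ((⋃ x ∈ s, B x) ∩ hiS φ τ) =
      (C.MA (tr τ φ)).restrict ((⋃ x ∈ s, B x) ∩ hiS φ τ) := by
    intro s
    rw [iUnion₂_inter]
    refine Measure.restrict_biUnion_congr s.countable_toSet |>.2 fun x _ => hBe x
  have := this t
  rwa [hcov, univ_inter] at this

end Pool.Agent.DMA
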