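import Pool.Agent.Lib.DMA.AL5

/-! # DMA, row AT1: one step of the recursion -/

set_option autoImplicit false

open scoped Topology
open Set Filter MeasureTheory

noncomputable section

namespace Pool.Agent.DMA

variable {X : Type*} [TopologicalSpace X] [CompactSpace X] [T2Space X] [SecondCountableTopology X]
  [MeasurableSpace X] [BorelSpace X] {n : ℕ} {C : Calc X n} {φ : X → EReal} {c : ℝ}

/-- `∫_{φ ≤ -x} ω^a ∧ ω_{φ_x}^b ∧ Ψ`. -/
def TT (C : Calc X n) (φ : X → EReal) (a b : ℕ) (Ψ : Multiset (X → ℝ)) (x : ℝ) : ℝ :=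
  (C.M (Multiset.replicate a (fun _ => (0 : ℝ)) + (Multiset.replicate b (tr x φ) + Ψ))).real
    (lowS φ x)

/-- Functions of `P` between `φ` and the constant `c`. -/
def Btw (C : Calc X n) (φ : X → EReal) (c : ℝ) (u : X → ℝ) : Prop :=
  u ∈ C.P ∧ ∀ x, φ x ≤ (u x : EReal) ∧ u x ≤ c

/-- the mass of `{φ ≤ -x}` does not change if `φ_{2x}` is replaced by `φ_x` (`k` entries). -/
private theorem mass_swap (h : Adm C φ c) {x y : ℝ} (hxy : x ≤ y) (k : ℕ) (Ψ : Multiset (X → ℝ))
    (hΨ : Multiset.card Ψ + k = n) (hΨ' : ∀ u ∈ Ψ, u ∈ C.P) :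
    (C.M (Multiset.replicate k (tr y φ) + Ψ)).real (lowS φ x) =
      (C.M (Multiset.replicate k (tr x φ) + Ψ)).real (lowS φ x) := by
  have hne := h.ne_top
  have h1 := Calc.trlocN hne h.trP hxy k Ψ hΨ hΨ'
  have hmem : ∀ t : ℝ, ∀ u ∈ Multiset.replicate k (tr t φ) + Ψ, u ∈ C.P := by
    intro t u hu
    rcases Multiset.mem_add.1 hu with hu | hu
    · rw [Multiset.eq_of_mem_replicate hu]; exact h.trP t
    · exact hΨ' u hu
  have hcard : ∀ t : ℝ, Multiset.card (Multiset.replicate k (tr t φ) + Ψ) = n := by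
    intro t
    rw [Multiset.card_add, Multiset.card_replicate]; omega
  have h2 := Calc.massC (hcard y) (hmem y) (hcard x) (hmem x) (Calc.meas_hiS hne h.trP x) h1.symm
  rwa [hiS_compl] at h2

/-- AT1: one step of the recursion. -/
theorem TT_step (h : Adm C φ c) {a b : ℕ} {u : X → ℝ} {Ψ : Multiset (X → ℝ)}
    (hu : Btw C φ c u) (hΨ : ∀ w ∈ Ψ, Btw C φ c w) (hn : a + b + 1 + Multiset.card Ψ = n)
    {x : ℝ} (hx : 0 < x) (hxc : c ≤ x) :
    TT C φ a b (u ::ₘ Ψ) (2 * x) ≤ TT C φ (a + 1) b Ψ x + 3 * TT C φ a (b + 1) Ψ x := by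
  have hne := h.ne_top
  have hx2 : x ≤ 2 * x := by linarith
  set f : X → ℝ := tr x φ with hf
  set g : X → ℝ := tr (2 * x) φ with hg
  have hfP : f ∈ C.P := h.trP x
  have hgP : g ∈ C.P := h.trP (2 * x)
  set Θ : Multiset (X → ℝ) :=
    Multiset.replicate a (fun _ => (0 : ℝ)) + (Multiset.replicate b g + Ψ) with hΘ
  have hΘP : ∀ w ∈ Θ, w ∈ C.P := by
    intro w hw
    rcases Multiset.mem_add.1 hw with hw | hw
    · rw [Multiset.eq_of_mem_replicate hw]; exact C.P_zero
    · rcases Multiset.mem_add.1 hw with hw | hw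
      · rw [Multiset.eq_of_mem_replicate hw]; exact hgP
      · exact (hΨ w hw).1
  have hΘc : Multiset.card Θ + 1 = n := by
    rw [hΘ, Multiset.card_add, Multiset.card_add, Multiset.card_replicate,
      Multiset.card_replicate]; omega
  have hcons : ∀ v ∈ C.P, (∀ w ∈ v ::ₘ Θ, w ∈ C.P) := by
    intro v hv w hw
    rcases Multiset.mem_cons.1 hw with rfl | hw
    · exact hv
    · exact hΘP w hw
  have hconsc : ∀ v : X → ℝ, Multiset.card (v ::ₘ Θ) = n := by
    intro v; rw [Multiset.card_cons]; exact hΘc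
  -- the truncated function
  set u1 : X → ℝ := fun y => max (u y) (-(2 * x)) with hu1
  have hu1P : u1 ∈ C.P := C.P_max _ hu.1 _ (Calc.const_mem (-(2 * x)))
  have hmeasH2 : MeasurableSet (hiS φ (2 * x)) := Calc.meas_hiS hne h.trP _
  have hmeasL2 : MeasurableSet (lowS φ (2 * x)) := Calc.meas_lowS hne h.trP _
  have hmeasH : MeasurableSet (hiS φ x) := Calc.meas_hiS hne h.trP _
  have hmeasL : MeasurableSet (lowS φ x) := Calc.meas_lowS hne h.trP _
  -- step 1
  have step1 : (C.M (u ::ₘ Θ)).real (lowS φ (2 * x)) = (C.M (u1 ::ₘ Θ)).real (lowS φ (2 * x)) := by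
    have h1 := C.maxloc Θ hΘc hΘP u hu.1 (fun _ => -(2 * x)) (Calc.const_mem _)
    have hsub : hiS φ (2 * x) ⊆ {y | -(2 * x) < u y} := by
      intro y hy
      have hy' : ((-(2 * x) : ℝ) : EReal) < φ y := hy
      exact EReal.coe_lt_coe_iff.1 (lt_of_lt_of_le hy' (hu.2 y).1)
    have h2 : (C.M (u1 ::ₘ Θ)).restrict (hiS φ (2 * x)) =
        (C.M (u ::ₘ Θ)).restrict (hiS φ (2 * x)) := by
      have h3 := congrArg (fun ν : Measure X => ν.restrict (hiS φ (2 * x))) h1
      rw [Measure.restrict_restrict hmeasH2, Measure.restrict_restrict hmeasH2,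
        inter_eq_left.2 hsub] at h3
      exact h3
    have h4 := Calc.massC (hconsc u1) (hcons u1 hu1P) (hconsc u) (hcons u hu.1) hmeasH2 h2
    rw [hiS_compl] at h4
    exact h4.symm
  -- the function `h`
  have hfg : ∀ y, f y - g y ≤ x * (lowS φ x).indicator (fun _ => (1 : ℝ)) y := by
    intro y
    by_cases hy : y ∈ lowS φ x
    · rw [indicator_of_mem hy, hf, tr_eq_of_lowS hy]
      have := neg_le_tr (hne y) (2 * x)
      rw [← hg] at this
      linarith
    · have hy' : y ∈ hiS φ x := by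
        rw [← lowS_compl]; exact hy
      rw [indicator_of_notMem hy, hg, tr_eq_of_hiS (hne y) hy' hx2, hf]
      simp
  have hfg0 : ∀ y, 0 ≤ f y - g y := fun y => sub_nonneg.2 (tr_anti (hne y) hx2)
  have hfg1 : ∀ y, x * (lowS φ (2 * x)).indicator (fun _ => (1 : ℝ)) y ≤ f y - g y := by
    intro y
    by_cases hy : y ∈ lowS φ (2 * x)
    · rw [indicator_of_mem hy, hg, tr_eq_of_lowS hy, hf, tr_eq_of_lowS (lowS_anti φ hx2 hy)]
      linarith
    · rw [indicator_of_notMem hy]; simpa using hfg0 y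
  have hint : ∀ v : X → ℝ, v ∈ C.P → ∀ ν : Measure X, IsFiniteMeasure ν → Integrable v ν :=
    fun v hv ν hν => Calc.intg hv ν
  have hindL : ∀ (ν : Measure X) [IsFiniteMeasure ν] (s : Set X), MeasurableSet s →
      ∫ y, x * s.indicator (fun _ => (1 : ℝ)) y ∂ν = x * ν.real s := by
    intro ν _ s hs
    rw [integral_const_mul, integral_indicator hs]
    simp
  have hindI : ∀ (ν : Measure X) [IsFiniteMeasure ν] (s : Set X), MeasurableSet s →
      Integrable (fun y => x * s.indicator (fun _ => (1 : ℝ)) y) ν := by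
    intro ν _ s hs
    exact ((integrable_const (1 : ℝ)).indicator hs).const_mul x
  -- step 2
  have step2 : x * (C.M (u1 ::ₘ Θ)).real (lowS φ (2 * x)) ≤
      ∫ y, (f y - g y) ∂(C.M (u1 ::ₘ Θ)) := by
    rw [← hindL _ _ hmeasL2]
    exact integral_mono (hindI _ _ hmeasL2)
      ((hint f hfP _ inferInstance).sub (hint g hgP _ inferInstance)) hfg1
  have step3 : ∫ y, (f y - g y) ∂(C.M ((fun _ => (0 : ℝ)) ::ₘ Θ)) ≤
      x * (C.M ((fun _ => (0 : ℝ)) ::ₘ Θ)).real (lowS φ x) := by
    rw [← hindL _ _ hmeasL]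
    exact integral_mono ((hint f hfP _ inferInstance).sub (hint g hgP _ inferInstance))
      (hindI _ _ hmeasL) hfg
  have hibp := C.ibp Θ hΘc hΘP u1 hu1P (fun _ => (0 : ℝ)) C.P_zero f hfP g hgP
  -- the two measures
  set νf := C.M (f ::ₘ Θ) with hνf
  set νg := C.M (g ::ₘ Θ) with hνg
  have hνf' : IsFiniteMeasure νf := C.fin _
  have hνg' : IsFiniteMeasure νg := C.fin _
  have hagree : νf.restrict (hiS φ x) = νg.restrict (hiS φ x) := by
    have h1 := Calc.trlocN hne h.trP hx2 1 Θ hΘc hΘP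
    rw [Multiset.replicate_one, Multiset.replicate_one, Multiset.singleton_add,
      Multiset.singleton_add] at h1
    exact h1
  have hmass : νf.real (lowS φ x) = νg.real (lowS φ x) := by
    have h4 := Calc.massC (hconsc f) (hcons f hfP) (hconsc g) (hcons g hgP) hmeasH hagree
    rw [hiS_compl] at h4
    exact h4
  have hsplit : ∀ ν : Measure X, IsFiniteMeasure ν → ∫ y, u1 y ∂ν =
      (∫ y in lowS φ x, u1 y ∂ν) + ∫ y in hiS φ x, u1 y ∂ν := by
    intro ν hν
    rw [← lowS_compl]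
    exact (integral_add_compl hmeasL (hint u1 hu1P ν hν)).symm
  have hu1le : ∀ y, u1 y ≤ x := fun y =>
    max_le (le_trans (hu.2 y).2 hxc) (by linarith)
  have hu1ge : ∀ y, -(2 * x) ≤ u1 y := fun y => le_max_right _ _
  have hup : ∫ y in lowS φ x, u1 y ∂νf ≤ x * νf.real (lowS φ x) := by
    have h1 : ∫ y in lowS φ x, u1 y ∂νf ≤ ∫ _y in lowS φ x, x ∂νf :=
      integral_mono (hint u1 hu1P _ inferInstance) (integrable_const _) hu1le
    refine h1.trans (le_of_eq ?_)
    rw [setIntegral_const, smul_eq_mul, mul_comm]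
  have hlo : -(2 * x) * νg.real (lowS φ x) ≤ ∫ y in lowS φ x, u1 y ∂νg := by
    have h1 : ∫ _y in lowS φ x, -(2 * x) ∂νg ≤ ∫ y in lowS φ x, u1 y ∂νg :=
      integral_mono (integrable_const _) (hint u1 hu1P _ inferInstance) hu1ge
    refine le_trans (le_of_eq ?_) h1
    rw [setIntegral_const, smul_eq_mul, mul_comm]
  have step4 : ∫ y, (u1 y - 0) ∂νf - ∫ y, (u1 y - 0) ∂νg ≤ 3 * x * νg.real (lowS φ x) := by
    simp only [sub_zero]
    rw [hsplit νf inferInstance, hsplit νg inferInstance, hagree]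
    rw [hmass] at hup
    linarith
  -- masses
  have hm1 : (C.M ((fun _ => (0 : ℝ)) ::ₘ Θ)).real (lowS φ x) = TT C φ (a + 1) b Ψ x := by
    have h1 := mass_swap h hx2 b (Multiset.replicate (a + 1) (fun _ => (0 : ℝ)) + Ψ)
      (by rw [Multiset.card_add, Multiset.card_replicate]; omega)
      (by
        intro w hw
        rcases Multiset.mem_add.1 hw with hw | hw
        · rw [Multiset.eq_of_mem_replicate hw]; exact C.P_zero
        · exact (hΨ w hw).1)
    have e1 : (fun _ => (0 : ℝ)) ::ₘ Θ =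
        Multiset.replicate b (tr (2 * x) φ) +
          (Multiset.replicate (a + 1) (fun _ => (0 : ℝ)) + Ψ) := by
      rw [hΘ, ← Multiset.cons_add, ← Multiset.replicate_succ, hg]
      abel
    have e2 : Multiset.replicate (a + 1) (fun _ : X => (0 : ℝ)) +
        (Multiset.replicate b (tr x φ) + Ψ) =
        Multiset.replicate b (tr x φ) +
          (Multiset.replicate (a + 1) (fun _ => (0 : ℝ)) + Ψ) := by
      abel
    rw [TT, e1, e2]
    exact h1
  have hm2 : νg.real (lowS φ x) = TT C φ a (b + 1) Ψ x := by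
    have h1 := mass_swap h hx2 (b + 1) (Multiset.replicate a (fun _ => (0 : ℝ)) + Ψ)
      (by rw [Multiset.card_add, Multiset.card_replicate]; omega)
      (by
        intro w hw
        rcases Multiset.mem_add.1 hw with hw | hw
        · rw [Multiset.eq_of_mem_replicate hw]; exact C.P_zero
        · exact (hΨ w hw).1)
    have e1 : g ::ₘ Θ =
        Multiset.replicate (b + 1) (tr (2 * x) φ) +
          (Multiset.replicate a (fun _ => (0 : ℝ)) + Ψ) := by
      rw [hΘ, Multiset.replicate_succ, ← hg, Multiset.cons_add]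
      congr 1
      abel
    have e2 : Multiset.replicate a (fun _ : X => (0 : ℝ)) +
        (Multiset.replicate (b + 1) (tr x φ) + Ψ) =
        Multiset.replicate (b + 1) (tr x φ) +
          (Multiset.replicate a (fun _ => (0 : ℝ)) + Ψ) := by
      abel
    rw [hνg, TT, e1, e2]
    exact h1
  have hm0 : TT C φ a b (u ::ₘ Ψ) (2 * x) = (C.M (u1 ::ₘ Θ)).real (lowS φ (2 * x)) := by
    rw [← step1, TT]
    congr 2
    rw [hΘ, ← hg, Multiset.add_cons, Multiset.add_cons]
  rw [hm0, ← hm1, ← hm2]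
  have hfin : x * (C.M (u1 ::ₘ Θ)).real (lowS φ (2 * x)) ≤
      x * ((C.M ((fun _ => (0 : ℝ)) ::ₘ Θ)).real (lowS φ x) + 3 * νg.real (lowS φ x)) := by
    linarith
  exact le_of_mul_le_mul_left hfin hx

end Pool.Agent.DMA
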