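import Pool.Agent.Lib.DMA.AT1

/-! # DMA, row AT2: the trace lemma -/

set_option autoImplicit false

open scoped Topology
open Set Filter MeasureTheory

noncomputable section

namespace Pool.Agent.DMA

variable {X : Type*} [TopologicalSpace X] [CompactSpace X] [T2Space X] [SecondCountableTopology X]
  [MeasurableSpace X] [BorelSpace X] {n : ℕ} {C : Calc X n} {φ : X → EReal} {c : ℝ}

/-- AT2: the trace lemma (general form). -/
theorem TT_small (h : Adm C φ c)
    (hA : ∀ a b : ℕ, a + b = n → 0 < a → Tendsto (dlt C φ a b) atTop (𝓝 0)) (m : ℕ) :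
    ∀ a b : ℕ, a + b + m = n → 0 < a → ∀ η > 0, ∃ x0 > 0, ∀ x ≥ x0, ∀ Ψ : Multiset (X → ℝ),
      Multiset.card Ψ = m → (∀ w ∈ Ψ, Btw C φ c w) → TT C φ a b Ψ x ≤ η := by
  induction m with
  | zero =>
    intro a b hab ha η hη
    have h1 := (hA a b (by omega) ha).eventually (Iio_mem_nhds hη)
    obtain ⟨x0, hx0⟩ := eventually_atTop.1 h1
    refine ⟨max x0 1, lt_of_lt_of_le one_pos (le_max_right _ _), ?_⟩
    intro x hx Ψ hΨ _
    have hΨ0 : Ψ = 0 := Multiset.card_eq_zero.1 hΨ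
    subst hΨ0
    have h2 : dlt C φ a b x < η := hx0 x (le_trans (le_max_left _ _) hx)
    rw [TT, add_zero]
    exact le_of_lt h2
  | succ m ih =>
    intro a b hab ha η hη
    obtain ⟨x1, hx1, H1⟩ := ih (a + 1) b (by omega) (by omega) (η / 4) (by positivity)
    obtain ⟨x2, hx2, H2⟩ := ih a (b + 1) (by omega) ha (η / 4) (by positivity)
    refine ⟨max (2 * x1) (max (2 * x2) (2 * c)), lt_of_lt_of_le (by linarith) (le_max_left _ _), ?_⟩
    intro x hx Ψ hΨ hw
    obtain ⟨u, hu0⟩ := Multiset.card_pos_iff_exists_mem.1 (by omega : 0 < Multiset.card Ψ)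
    obtain ⟨Ψ', hΨ'⟩ := Multiset.exists_cons_of_mem hu0
    subst hΨ'
    have hc : Multiset.card Ψ' = m := by
      rw [Multiset.card_cons] at hΨ; omega
    have hxa : 2 * x1 ≤ x := le_trans (le_max_left _ _) hx
    have hxb : 2 * x2 ≤ x := le_trans (le_trans (le_max_left _ _) (le_max_right _ _)) hx
    have hxc : 2 * c ≤ x := le_trans (le_trans (le_max_right _ _) (le_max_right _ _)) hx
    have hu : Btw C φ c u := hw u (Multiset.mem_cons_self _ _)
    have hΨw : ∀ w ∈ Ψ', Btw C φ c w := fun w hw' => hw w (Multiset.mem_cons_of_mem hw')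
    have h1 := TT_step h (a := a) (b := b) hu hΨw (by omega) (x := x / 2) (by linarith)
      (by linarith)
    rw [mul_div_cancel₀ x two_ne_zero] at h1
    have h2 := H1 (x / 2) (by linarith) Ψ' hc hΨw
    have h3 := H2 (x / 2) (by linarith) Ψ' hc hΨw
    linarith

/-- The trace lemma. -/
theorem trace (h : Adm C φ c)
    (hA : ∀ a b : ℕ, a + b = n → 0 < a → Tendsto (dlt C φ a b) atTop (𝓝 0)) (hn : 0 < n) :
    ∀ η > 0, ∃ x0 > 0, ∀ x ≥ x0, ∀ Θ : Multiset (X → ℝ), Multiset.card Θ + 1 = n →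
      (∀ w ∈ Θ, Btw C φ c w) → (C.M ((fun _ => 0) ::ₘ Θ)).real (lowS φ x) ≤ η := by
  intro η hη
  obtain ⟨x0, hx0, H⟩ := TT_small h hA (n - 1) 1 0 (by omega) (by norm_num) η hη
  refine ⟨x0, hx0, fun x hx Θ hΘ hw => ?_⟩
  have := H x hx Θ (by omega) hw
  simpa [TT, Multiset.replicate_one, Multiset.singleton_add] using this

end Pool.Agent.DMA
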