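import Pool.Agent.Lib.DMA.Defs

/-! # DMA: balayage on the manifold -/

set_option autoImplicit false

open scoped Manifold ContDiff Topology ComplexOrder
open Set Filter MeasureTheory

noncomputable section

namespace Pool.Agent.DMA

open Pool.Agent.K708 (E CMfd)

variable {n : ℕ}

/-- `h` is the balayage of the smooth function `f` on `B`, with smooth approximations `W` of small
Monge–Ampère mass. -/
structure IsBal {X : CMfd n} (K : Kahler X) (B : Set X) (f h : X → ℝ) : Prop where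
  bpsh : BPsh K h
  eq : ∀ x, x ∉ B → h x = f x
  max : ∀ g, BPsh K g → (∀ x, x ∉ B → g x ≤ f x) → ∀ x, g x ≤ h x
  apx : ∀ L ⊆ B, IsCompact L → ∀ δ > 0, ∃ (A : Set X) (W : X → ℝ) (ψ : OpenPartialHomeomorph X (E n))
    (U : Set X) (ρ : X → ℝ), IsOpen A ∧ L ⊆ A ∧ A ⊆ B ∧ BPsh K W ∧
    ContMDiffOn 𝓘(ℝ, E n) 𝓘(ℝ, ℝ) ∞ W A ∧ (∀ x, |W x - h x| ≤ δ) ∧ ψ ∈ CA X ∧ IsPot K.g U ρ ∧
    A ⊆ ψ.source ∩ U ∧
    (∫⁻ z in ψ.target ∩ ψ.symm ⁻¹' A,
      ENNReal.ofReal (CH (fun w => ρ (ψ.symm w) + W (ψ.symm w)) z).det.re) ≤ ENNReal.ofReal δ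

end Pool.Agent.DMA
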