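import Pool.Agent.Lib.DMA.CInt

/-! # DMA, section C: integrals of densities in one chart -/

set_option autoImplicit false

open scoped Manifold ContDiff Topology ComplexOrder
open Set Filter MeasureTheory

noncomputable section

namespace Pool.Agent.DMA

open Pool.Agent.K708 (E CMfd PUnit')

variable {n : ℕ} {X : CMfd n}

namespace CChgAux

theorem image_overlap (φ ψ : OpenPartialHomeomorph X (E n)) :
    (ψ ∘ φ.symm) '' (φ.target ∩ φ.symm ⁻¹' ψ.source) = ψ.target ∩ ψ.symm ⁻¹' φ.source := by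
  ext w
  constructor
  · rintro ⟨z, ⟨hz, hz'⟩, rfl⟩
    refine ⟨ψ.map_source hz', ?_⟩
    show ψ.symm (ψ (φ.symm z)) ∈ φ.source
    rw [ψ.left_inv hz']
    exact φ.map_target hz
  · rintro ⟨hw, hw'⟩
    refine ⟨φ (ψ.symm w), ⟨φ.map_source hw', ?_⟩, ?_⟩
    · show φ.symm (φ (ψ.symm w)) ∈ ψ.source
      rw [φ.left_inv hw']
      exact ψ.map_target hw
    · show ψ (φ.symm (φ (ψ.symm w))) = w
      rw [φ.left_inv hw', ψ.right_inv hw]

theorem isOpen_overlap (φ ψ : OpenPartialHomeomorph X (E n)) :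
    IsOpen (φ.target ∩ φ.symm ⁻¹' ψ.source) :=
  φ.continuousOn_symm.isOpen_inter_preimage φ.open_target ψ.open_source

/-- Change of variables for densities on the overlap of two charts. -/
theorem integral_change {φ ψ : OpenPartialHomeomorph X (E n)} (hφ : φ ∈ CA X) (hψ : ψ ∈ CA X)
    (S : X → ℝ) :
    ∫ z in φ.target ∩ φ.symm ⁻¹' ψ.source, S (φ.symm z) * wt φ z =
      ∫ z in ψ.target ∩ ψ.symm ⁻¹' φ.source, S (ψ.symm z) * wt ψ z := by
  have hm : MeasurableSet (φ.target ∩ φ.symm ⁻¹' ψ.source) := (isOpen_overlap φ ψ).measurableSet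
  have hd : ∀ z ∈ φ.target ∩ φ.symm ⁻¹' ψ.source,
      HasFDerivWithinAt (ψ ∘ φ.symm) (fderiv ℝ (ψ ∘ φ.symm) z)
        (φ.target ∩ φ.symm ⁻¹' ψ.source) z := by
    rintro z ⟨hz, hz'⟩
    have h1 : DifferentiableAt ℂ (ψ ∘ φ.symm) z :=
      (trans_holo hφ hψ hz hz').differentiableAt (by simp)
    exact (h1.restrictScalars ℝ).hasFDerivAt.hasFDerivWithinAt
  have hi : InjOn (ψ ∘ φ.symm) (φ.target ∩ φ.symm ⁻¹' ψ.source) := by
    rintro z ⟨hz, hz'⟩ w ⟨hw, hw'⟩ h
    exact φ.symm.injOn hz hw (ψ.injOn hz' hw' h)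
  rw [← image_overlap φ ψ, integral_image_eq_integral_abs_det_fderiv_smul volume hm hd hi]
  refine setIntegral_congr_fun hm ?_
  rintro z ⟨hz, hz'⟩
  show S (φ.symm z) * wt φ z = |(fderiv ℝ (ψ ∘ φ.symm) z).det| •
    (S (ψ.symm (ψ (φ.symm z))) * wt ψ (ψ (φ.symm z)))
  rw [ψ.left_inv hz', wt_change hφ hψ hz hz', smul_eq_mul]
  ring

/-- One term of the partition of unity. -/
theorem term {φ ψ : OpenPartialHomeomorph X (E n)} (hφ : φ ∈ CA X) (hψ : ψ ∈ CA X)
    {χ R : X → ℝ} (hs : tsupport χ ⊆ φ.source) (h0 : ∀ x, x ∉ ψ.source → R x = 0) :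
    ∫ z in φ.target, χ (φ.symm z) * (R (φ.symm z) * wt φ z) =
      ∫ z in ψ.target, χ (ψ.symm z) * (R (ψ.symm z) * wt ψ z) := by
  have e1 : ∀ (θ : OpenPartialHomeomorph X (E n)) (z : E n),
      χ (θ.symm z) * (R (θ.symm z) * wt θ z) = (fun x => χ x * R x) (θ.symm z) * wt θ z := by
    intro θ z
    ring
  simp_rw [e1]
  rw [setIntegral_eq_of_subset_of_forall_sdiff_eq_zero (s := φ.target ∩ φ.symm ⁻¹' ψ.source)
      φ.open_target.measurableSet inter_subset_left,
    setIntegral_eq_of_subset_of_forall_sdiff_eq_zero (s := ψ.target ∩ ψ.symm ⁻¹' φ.source)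
      ψ.open_target.measurableSet inter_subset_left]
  · exact integral_change hφ hψ (fun x => χ x * R x)
  · rintro z ⟨hz, hz'⟩
    have h1 : χ (ψ.symm z) = 0 := by
      by_contra hne
      exact hz' ⟨hz, hs (subset_tsupport χ hne)⟩
    simp only [h1, zero_mul]
  · rintro z ⟨hz, hz'⟩
    have h1 : R (φ.symm z) = 0 := h0 _ (fun h => hz' ⟨hz, h⟩)
    simp only [h1, mul_zero, zero_mul]

/-- Integrability of a density with compact support in a chart. -/
theorem integrable_chart {R χ : X → ℝ} (hR : CD R) (hχ : Continuous χ)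
    {ψ : OpenPartialHomeomorph X (E n)} (hψ : ψ ∈ CA X) {L : Set X} (hL : IsCompact L)
    (hLs : L ⊆ ψ.source) (h0 : ∀ x, x ∉ L → R x = 0) :
    IntegrableOn (fun z => χ (ψ.symm z) * (R (ψ.symm z) * wt ψ z)) ψ.target := by
  have hc : IsCompact (ψ '' L) := hL.image_of_continuousOn (ψ.continuousOn.mono hLs)
  have hct : ψ '' L ⊆ ψ.target := by
    rintro _ ⟨x, hx, rfl⟩
    exact ψ.map_source (hLs hx)
  have hf : ContinuousOn (fun z => χ (ψ.symm z) * (R (ψ.symm z) * wt ψ z)) ψ.target :=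
    (hχ.comp_continuousOn ψ.continuousOn_symm).mul (hR ψ hψ)
  refine IntegrableOn.of_forall_sdiff_eq_zero ((hf.mono hct).integrableOn_compact hc)
    ψ.open_target.measurableSet ?_
  rintro z ⟨hz, hz'⟩
  have h1 : ψ.symm z ∉ L := by
    intro h
    exact hz' ⟨ψ.symm z, h, ψ.right_inv hz⟩
  simp only [h0 _ h1, zero_mul, mul_zero]

end CChgAux

open CChgAux

theorem Int_chart (hX : CompactSpace X) (P : PUnit' n X) {R : X → ℝ} (hR : CD R)
    {ψ : OpenPartialHomeomorph X (E n)} (hψ : ψ ∈ CA X) {L : Set X} (hL : IsCompact L)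
    (hLs : L ⊆ ψ.source) (h0 : ∀ x, x ∉ L → R x = 0) :
    Int P R = ∫ z in ψ.target, R (ψ.symm z) * wt ψ z := by
  have _ := hX
  unfold Int
  have h1 : ∀ k, ∫ z in (P.φ k).target,
      P.χ k ((P.φ k).symm z) * (R ((P.φ k).symm z) * wt (P.φ k) z)
      = ∫ z in ψ.target, P.χ k (ψ.symm z) * (R (ψ.symm z) * wt ψ z) :=
    fun k => term (P.mem k) hψ (P.supp k) (fun x hx => h0 x (fun h => hx (hLs h)))
  rw [Finset.sum_congr rfl fun k _ => h1 k, ← integral_finsetSum]
  · refine setIntegral_congr_fun ψ.open_target.measurableSet fun z _ => ?_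
    show ∑ k, P.χ k (ψ.symm z) * (R (ψ.symm z) * wt ψ z) = _
    rw [← Finset.sum_mul, P.sum, one_mul]
  · intro k _
    exact integrable_chart hR (P.smooth k).continuous hψ hL hLs h0

end Pool.Agent.DMA
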