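import Pool.Agent.Lib.DMA.CLin

/-! # DMA, section C: the complex Hessian of a composition with a holomorphic map -/

set_option autoImplicit false

open scoped ContDiff Topology ComplexOrder
open Set Filter

noncomputable section

namespace Pool.Agent.DMA

open Pool.Agent.K708 (E)

variable {n m k : ℕ}

/-- The matrix of a `ℂ`-linear map. -/
def mat (A : E m →L[ℂ] E n) : Matrix (Fin n) (Fin m) ℂ := fun a b => A (Pi.single b 1) a

namespace CCompAux

theorem cdecomp (v : E n) : v = ∑ j, v j • (Pi.single j 1 : E n) := by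
  funext k
  rw [Finset.sum_apply]
  simp [Pi.single_apply]

/-- The Hermitian form of a real bilinear form. -/
def hh (B : E n →L[ℝ] E n →L[ℝ] ℝ) (u v : E n) : ℂ :=
  ((B u v : ℂ) + (B (Complex.I • u) (Complex.I • v) : ℂ)
    + Complex.I * ((B u (Complex.I • v) : ℂ) - (B (Complex.I • u) v : ℂ))) / 4

theorem cH_eq_hh (B : E n →L[ℝ] E n →L[ℝ] ℝ) (j k : Fin n) :
    cH B j k = hh B (Pi.single j 1) (Pi.single k 1) := rfl

theorem hh_add_left (B : E n →L[ℝ] E n →L[ℝ] ℝ) (u u' v : E n) :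
    hh B (u + u') v = hh B u v + hh B u' v := by
  simp only [hh, smul_add, map_add, add_apply]
  push_cast
  ring

theorem hh_add_right (B : E n →L[ℝ] E n →L[ℝ] ℝ) (u v v' : E n) :
    hh B u (v + v') = hh B u v + hh B u v' := by
  simp only [hh, smul_add, map_add, add_apply]
  push_cast
  ring

theorem I_I_smul (u : E n) : Complex.I • Complex.I • u = -u := by
  rw [smul_smul, Complex.I_mul_I, neg_one_smul]

theorem csmul (c : ℂ) (u : E n) : c • u = c.re • u + c.im • (Complex.I • u) := by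
  funext k
  simp only [Pi.smul_apply, Pi.add_apply, smul_eq_mul, Complex.real_smul]
  conv_lhs => rw [← Complex.re_add_im c]
  ring

theorem hh_smul_left (B : E n →L[ℝ] E n →L[ℝ] ℝ) (c : ℂ) (u v : E n) :
    hh B (c • u) v = c * hh B u v := by
  have e2 : Complex.I • (c • u) = c.re • (Complex.I • u) - c.im • u := by
    rw [csmul c u, smul_add, smul_comm _ c.re, smul_comm _ c.im, I_I_smul, smul_neg,
      sub_eq_add_neg]
  simp only [hh]
  rw [e2, csmul c u]
  simp only [map_add, map_sub, map_smul, add_apply, sub_apply, smul_apply, smul_eq_mul]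
  push_cast
  conv_rhs => rw [← Complex.re_add_im c]
  linear_combination (-(c.im : ℂ) * (((B u) (Complex.I • v) : ℂ) - ((B (Complex.I • u)) v : ℂ)) / 4)
    * Complex.I_mul_I

theorem hh_smul_right (B : E n →L[ℝ] E n →L[ℝ] ℝ) (c : ℂ) (u v : E n) :
    hh B u (c • v) = (starRingEnd ℂ) c * hh B u v := by
  have e2 : Complex.I • (c • v) = c.re • (Complex.I • v) - c.im • v := by
    rw [csmul c v, smul_add, smul_comm _ c.re, smul_comm _ c.im, I_I_smul, smul_neg,
      sub_eq_add_neg]
  have e3 : (starRingEnd ℂ) c = (c.re : ℂ) - c.im * Complex.I := by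
    apply Complex.ext <;> simp
  simp only [hh]
  rw [e2, csmul c v, e3]
  simp only [map_add, map_sub, map_smul, add_apply, sub_apply, smul_apply, smul_eq_mul]
  push_cast
  linear_combination ((c.im : ℂ) * (((B u) (Complex.I • v) : ℂ) - ((B (Complex.I • u)) v : ℂ)) / 4)
    * Complex.I_mul_I

theorem hh_sum_left {ι : Type} (B : E n →L[ℝ] E n →L[ℝ] ℝ) (s : Finset ι) (f : ι → E n) (v : E n) :
    hh B (∑ i ∈ s, f i) v = ∑ i ∈ s, hh B (f i) v := by
  classical
  induction s using Finset.induction_on with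
  | empty => simp [hh]
  | insert i s hi ih => rw [Finset.sum_insert hi, Finset.sum_insert hi, hh_add_left, ih]

theorem hh_sum_right {ι : Type} (B : E n →L[ℝ] E n →L[ℝ] ℝ) (s : Finset ι) (f : ι → E n) (v : E n) :
    hh B v (∑ i ∈ s, f i) = ∑ i ∈ s, hh B v (f i) := by
  classical
  induction s using Finset.induction_on with
  | empty => simp [hh]
  | insert i s hi ih => rw [Finset.sum_insert hi, Finset.sum_insert hi, hh_add_right, ih]

theorem hh_eq_sum (B : E n →L[ℝ] E n →L[ℝ] ℝ) (u v : E n) :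
    hh B u v = ∑ j, ∑ k, u j * cH B j k * (starRingEnd ℂ) (v k) := by
  conv_lhs => rw [cdecomp u, hh_sum_left]
  refine Finset.sum_congr rfl fun j _ => ?_
  conv_lhs => rw [cdecomp v, hh_sum_right]
  refine Finset.sum_congr rfl fun k _ => ?_
  rw [hh_smul_left, hh_smul_right, cH_eq_hh]
  ring

end CCompAux

open CCompAux

theorem mat_comp (A : E m →L[ℂ] E n) (B : E k →L[ℂ] E m) : mat (A.comp B) = mat A * mat B := by
  ext a b
  rw [Matrix.mul_apply]
  simp only [mat, ContinuousLinearMap.comp_apply]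
  conv_lhs => rw [cdecomp (B (Pi.single b 1)), map_sum, Finset.sum_apply]
  refine Finset.sum_congr rfl fun j _ => ?_
  rw [map_smul, Pi.smul_apply, smul_eq_mul, mul_comm]

theorem mat_id : mat (ContinuousLinearMap.id ℂ (E n)) = 1 := by
  ext a b
  simp only [mat, ContinuousLinearMap.id_apply, Matrix.one_apply, Pi.single_apply]

theorem cH_pull (A : E m →L[ℂ] E n) (B : E n →L[ℝ] E n →L[ℝ] ℝ) :
    cH (B.bilinearComp (A.restrictScalars ℝ) (A.restrictScalars ℝ)) =
      (mat A).transpose * cH B * (mat A).map (starRingEnd ℂ) := by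
  ext j k
  have e1 : cH (B.bilinearComp (A.restrictScalars ℝ) (A.restrictScalars ℝ)) j k =
      hh B (A (Pi.single j 1)) (A (Pi.single k 1)) := by
    have e2 : ∀ j : Fin m, Complex.I • A (Pi.single j 1) = A (Complex.I • Pi.single j 1) :=
      fun j => (map_smul A _ _).symm
    simp only [hh, e2]
    rfl
  rw [e1, hh_eq_sum, Matrix.mul_apply, Finset.sum_comm]
  refine Finset.sum_congr rfl fun b _ => ?_
  rw [Matrix.mul_apply, Finset.sum_mul]
  refine Finset.sum_congr rfl fun a _ => ?_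
  rfl

theorem cH_quad {B : E n →L[ℝ] E n →L[ℝ] ℝ} (hB : ∀ u v, B u v = B v u) (v : E n) :
    ∑ j, ∑ k, v j * cH B j k * (starRingEnd ℂ) (v k) =
      (((B v v + B (Complex.I • v) (Complex.I • v)) / 4 : ℝ) : ℂ) := by
  rw [← hh_eq_sum, hh, hB (Complex.I • v) v, sub_self, mul_zero, add_zero]
  push_cast
  ring

namespace CCompAux

theorem quad_star {B : E n →L[ℝ] E n →L[ℝ] ℝ} (hB : ∀ u v, B u v = B v u) (x : E n) :
    star x ⬝ᵥ (cH B).mulVec x =
      (((B (star x) (star x) + B (Complex.I • star x) (Complex.I • star x)) / 4 : ℝ) : ℂ) := by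
  rw [← cH_quad hB (star x), dotProduct]
  refine Finset.sum_congr rfl fun j _ => ?_
  rw [Matrix.mulVec, dotProduct, Finset.mul_sum]
  refine Finset.sum_congr rfl fun k _ => ?_
  simp only [Pi.star_apply, Complex.star_def, Complex.conj_conj]
  ring

end CCompAux

theorem CH_posSemidef_iff {f : E n → ℝ} {z : E n} (hf : ContDiffAt ℝ 2 f z) :
    (CH f z).PosSemidef ↔ ∀ v : E n, 0 ≤ D2 f z v v + D2 f z (Complex.I • v) (Complex.I • v) := by
  have hs : ∀ u v, D2 f z u v = D2 f z v u := fun u v => (hf.isSymmSndFDerivAt (by simp)).eq u v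
  rw [CH_eq, Matrix.posSemidef_iff_dotProduct_mulVec]
  constructor
  · intro h v
    have h1 := h.2 (star v)
    rw [quad_star hs, star_star] at h1
    have h2 : (0 : ℝ) ≤ (D2 f z v v + D2 f z (Complex.I • v) (Complex.I • v)) / 4 := by
      exact_mod_cast h1
    linarith
  · intro h
    refine ⟨cH_herm hs, fun x => ?_⟩
    rw [quad_star hs]
    exact_mod_cast (by linarith [h (star x)] :
      (0 : ℝ) ≤ (D2 f z (star x) (star x) + D2 f z (Complex.I • star x) (Complex.I • star x)) / 4)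

theorem CH_posDef_iff {f : E n → ℝ} {z : E n} (hf : ContDiffAt ℝ 2 f z) :
    (CH f z).PosDef ↔
      ∀ v : E n, v ≠ 0 → 0 < D2 f z v v + D2 f z (Complex.I • v) (Complex.I • v) := by
  have hs : ∀ u v, D2 f z u v = D2 f z v u := fun u v => (hf.isSymmSndFDerivAt (by simp)).eq u v
  rw [CH_eq, Matrix.posDef_iff_dotProduct_mulVec]
  constructor
  · intro h v hv
    have h1 := h.2 (x := star v) (by simpa using hv)
    rw [quad_star hs, star_star] at h1
    have h2 : (0 : ℝ) < (D2 f z v v + D2 f z (Complex.I • v) (Complex.I • v)) / 4 := by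
      exact_mod_cast h1
    linarith
  · intro h
    refine ⟨cH_herm hs, fun x hx => ?_⟩
    rw [quad_star hs]
    exact_mod_cast (by linarith [h (star x) (by simpa using hx)] :
      (0 : ℝ) < (D2 f z (star x) (star x) + D2 f z (Complex.I • star x) (Complex.I • star x)) / 4)

namespace CCompAux

theorem D2_comp {w : E n → ℝ} {F : E m → E n} {z : E m} (hF : ContDiffAt ℂ 2 F z)
    (hw : ContDiffAt ℝ 2 w (F z)) (u v : E m) :
    D2 (fun y => w (F y)) z u v = D2 w (F z) (fderiv ℂ F z u) (fderiv ℂ F z v) +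
      fderiv ℝ w (F z) (fderiv ℂ (fderiv ℂ F) z u v) := by
  have hFd : ∀ᶠ y in 𝓝 z, DifferentiableAt ℂ F y :=
    (hF.eventually (by simp)).mono fun _ h => h.differentiableAt (by norm_num)
  have hwd : ∀ᶠ y in 𝓝 z, DifferentiableAt ℝ w (F y) :=
    hF.continuousAt.eventually (CLinAux.ev_diff hw)
  have h1 : fderiv ℝ (fun y => w (F y)) =ᶠ[𝓝 z]
      fun y => (fderiv ℝ w (F y)).comp ((fderiv ℂ F y).restrictScalars ℝ) := by
    filter_upwards [hFd, hwd] with y h1 h2
    exact (h2.hasFDerivAt.comp y (h1.hasFDerivAt.restrictScalars ℝ)).fderiv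
  have hF0 : HasFDerivAt F ((fderiv ℂ F z).restrictScalars ℝ) z :=
    hFd.self_of_nhds.hasFDerivAt.restrictScalars ℝ
  have ha : HasFDerivAt (fun y => fderiv ℝ w (F y))
      ((fderiv ℝ (fderiv ℝ w) (F z)).comp ((fderiv ℂ F z).restrictScalars ℝ)) z :=
    HasFDerivAt.comp z (CLinAux.diff_fderiv hw).hasFDerivAt hF0
  have hb0 : HasFDerivAt (fderiv ℂ F) (fderiv ℂ (fderiv ℂ F) z) z :=
    ((hF.fderiv_right (m := 1) (by norm_num)).differentiableAt (by norm_num)).hasFDerivAt
  have hb : HasFDerivAt (fun y => (fderiv ℂ F y).restrictScalars ℝ)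
      ((ContinuousLinearMap.restrictScalarsL ℂ (E m) (E n) ℝ ℝ).comp
        ((fderiv ℂ (fderiv ℂ F) z).restrictScalars ℝ)) z :=
    (ContinuousLinearMap.restrictScalarsL ℂ (E m) (E n) ℝ ℝ).hasFDerivAt.comp z
      (hb0.restrictScalars ℝ)
  have h2 := (ha.clm_comp hb).fderiv
  rw [D2, h1.fderiv_eq, h2]
  simp only [add_apply, ContinuousLinearMap.comp_apply]
  rw [add_comm]
  rfl

end CCompAux

theorem CH_comp {w : E n → ℝ} {F : E m → E n} {z : E m} (hF : ContDiffAt ℂ 2 F z)
    (hw : ContDiffAt ℝ 2 w (F z)) :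
    CH (fun y => w (F y)) z =
      (mat (fderiv ℂ F z)).transpose * CH w (F z) * (mat (fderiv ℂ F z)).map (starRingEnd ℂ) := by
  rw [CH_eq, CH_eq, ← cH_pull]
  obtain ⟨C, hC⟩ : ∃ C : E m →L[ℝ] E m →L[ℝ] ℝ, C = (D2 w (F z)).bilinearComp
    ((fderiv ℂ F z).restrictScalars ℝ) ((fderiv ℂ F z).restrictScalars ℝ) := ⟨_, rfl⟩
  rw [← hC]
  have h0 : ∀ u v : E m, (D2 (fun y => w (F y)) z - C) u v =
      fderiv ℝ w (F z) (fderiv ℂ (fderiv ℂ F) z u v) := by
    intro u v
    rw [sub_apply, sub_apply, D2_comp hF hw, hC]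
    exact add_sub_cancel_left _ _
  have h1 : cH (D2 (fun y => w (F y)) z - C) = 0 := by
    ext j k
    rw [Matrix.zero_apply, cH, h0, h0, h0, h0]
    simp only [map_smul, smul_apply, I_I_smul, map_neg]
    push_cast
    ring
  have h2 : cH (D2 (fun y => w (F y)) z) = cH (D2 (fun y => w (F y)) z - C) + cH C :=
    (congrArg cH (sub_add_cancel (D2 (fun y => w (F y)) z) C).symm).trans (cH_add _ _)
  rw [h2, h1, zero_add]

theorem real_det (A : E n →L[ℂ] E n) : (A.restrictScalars ℝ).det = ‖(mat A).det‖ ^ 2 := by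
  have e1 : (A.restrictScalars ℝ).det = LinearMap.det ((A : E n →ₗ[ℂ] E n).restrictScalars ℝ) := rfl
  rw [e1, LinearMap.det_restrictScalars, Algebra.norm_complex_apply, Complex.normSq_eq_norm_sq]
  have e2 : LinearMap.toMatrix' (A : E n →ₗ[ℂ] E n) = mat A := by
    ext a b
    rw [LinearMap.toMatrix'_apply, mat]
    rfl
  rw [← e2, LinearMap.det_toMatrix']

end Pool.Agent.DMA
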