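import Pool.Agent.Lib.DMA.Mix

/-! # DMA, section C: algebra of mixed discriminants -/

set_option autoImplicit false

open scoped ContDiff Topology ComplexOrder
open Set Filter

noncomputable section

namespace Pool.Agent.DMA

open Pool.Agent.K708 (E)

variable {n : ℕ}

namespace CMixAux

theorem row (H : Fin n → Matrix (Fin n) (Fin n) ℂ) : mixD H =
    (∑ σ : Equiv.Perm (Fin n), ((Equiv.Perm.sign σ : ℤ) : ℂ) *
      (Matrix.of fun i k => H i (σ i) k).det) / (n.factorial : ℂ) := by
  unfold mixD
  congr 1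
  refine Finset.sum_congr rfl fun σ _ => ?_
  rw [← Matrix.det_transpose, Matrix.det_apply', Finset.mul_sum]
  refine Finset.sum_congr rfl fun τ _ => ?_
  simp only [Matrix.transpose_apply, Matrix.of_apply]
  ring

theorem col (H : Fin n → Matrix (Fin n) (Fin n) ℂ) : mixD H =
    (∑ τ : Equiv.Perm (Fin n), ((Equiv.Perm.sign τ : ℤ) : ℂ) *
      (Matrix.of fun i j => H i j (τ i)).det) / (n.factorial : ℂ) := by
  unfold mixD
  rw [Finset.sum_comm]
  congr 1
  refine Finset.sum_congr rfl fun τ _ => ?_
  rw [← Matrix.det_transpose, Matrix.det_apply', Finset.mul_sum]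
  refine Finset.sum_congr rfl fun σ _ => ?_
  simp only [Matrix.transpose_apply, Matrix.of_apply]
  ring

theorem prod_update (H : Fin n → Matrix (Fin n) (Fin n) ℂ) (i : Fin n)
    (A : Matrix (Fin n) (Fin n) ℂ) (σ τ : Equiv.Perm (Fin n)) :
    ∏ j, Function.update H i A j (σ j) (τ j) =
      A (σ i) (τ i) * ∏ j ∈ Finset.univ \ {i}, H j (σ j) (τ j) := by
  have h : (fun j => Function.update H i A j (σ j) (τ j)) =
      Function.update (fun j => H j (σ j) (τ j)) i (A (σ i) (τ i)) := by
    funext j
    by_cases hj : j = i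
    · subst hj
      simp
    · simp [hj]
  rw [h, Finset.prod_update_of_mem (Finset.mem_univ i)]

end CMixAux

open CMixAux

theorem mixD_perm (H : Fin n → Matrix (Fin n) (Fin n) ℂ) (σ : Equiv.Perm (Fin n)) :
    mixD (fun i => H (σ i)) = mixD H := by
  unfold mixD
  congr 1
  symm
  rw [← Equiv.sum_comp (Equiv.mulRight σ⁻¹)]
  refine Finset.sum_congr rfl fun α _ => ?_
  rw [← Equiv.sum_comp (Equiv.mulRight σ⁻¹)]
  refine Finset.sum_congr rfl fun β _ => ?_
  rw [← Equiv.prod_comp σ]
  have hi : ∀ i, σ⁻¹ (σ i) = i := fun i => σ.symm_apply_apply i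
  simp only [Equiv.coe_mulRight, Equiv.Perm.sign_mul, Equiv.Perm.sign_inv, Equiv.Perm.coe_mul,
    Function.comp_apply, hi]
  have h : (((Equiv.Perm.sign σ : ℤˣ) : ℤ) : ℂ) * (((Equiv.Perm.sign σ : ℤˣ) : ℤ) : ℂ) = 1 := by
    rw [← Int.cast_mul, Int.units_coe_mul_self, Int.cast_one]
  push_cast
  linear_combination (((Equiv.Perm.sign α : ℤˣ) : ℤ) : ℂ) * (((Equiv.Perm.sign β : ℤˣ) : ℤ) : ℂ) *
    (∏ x, H (σ x) (α x) (β x)) * h

theorem mixD_update_add (H : Fin n → Matrix (Fin n) (Fin n) ℂ) (i : Fin n)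
    (A B : Matrix (Fin n) (Fin n) ℂ) :
    mixD (Function.update H i (A + B)) =
      mixD (Function.update H i A) + mixD (Function.update H i B) := by
  unfold mixD
  rw [← add_div, ← Finset.sum_add_distrib]
  congr 1
  refine Finset.sum_congr rfl fun σ _ => ?_
  rw [← Finset.sum_add_distrib]
  refine Finset.sum_congr rfl fun τ _ => ?_
  rw [prod_update, prod_update, prod_update, Matrix.add_apply]
  ring

theorem mixD_update_smul (H : Fin n → Matrix (Fin n) (Fin n) ℂ) (i : Fin n) (c : ℂ)
    (A : Matrix (Fin n) (Fin n) ℂ) :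
    mixD (Function.update H i (c • A)) = c * mixD (Function.update H i A) := by
  unfold mixD
  rw [← mul_div_assoc, Finset.mul_sum]
  congr 1
  refine Finset.sum_congr rfl fun σ _ => ?_
  rw [Finset.mul_sum]
  refine Finset.sum_congr rfl fun τ _ => ?_
  rw [prod_update, prod_update, Matrix.smul_apply, smul_eq_mul]
  ring

theorem mixD_const (A : Matrix (Fin n) (Fin n) ℂ) : mixD (fun _ => A) = A.det := by
  rw [row]
  have h : ∀ σ : Equiv.Perm (Fin n), ((Equiv.Perm.sign σ : ℤ) : ℂ) *
      (Matrix.of fun i k => A (σ i) k).det = A.det := by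
    intro σ
    have h1 : (Matrix.of fun i k => A (σ i) k) = A.submatrix σ id := rfl
    rw [h1, Matrix.det_permute, ← mul_assoc, ← Int.cast_mul, Int.units_coe_mul_self, Int.cast_one,
      one_mul]
  rw [Finset.sum_congr rfl fun σ _ => h σ, Finset.sum_const, Finset.card_univ, Fintype.card_perm,
    Fintype.card_fin, nsmul_eq_mul]
  have h2 : (n.factorial : ℂ) ≠ 0 := by exact_mod_cast n.factorial_ne_zero
  field_simp

theorem mixD_pull (J : Matrix (Fin n) (Fin n) ℂ) (H : Fin n → Matrix (Fin n) (Fin n) ℂ) :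
    mixD (fun i => J.transpose * H i * J.map (starRingEnd ℂ)) =
      ((‖J.det‖ ^ 2 : ℝ) : ℂ) * mixD H := by
  have h1 : mixD (fun i => J.transpose * H i * J.map (starRingEnd ℂ)) =
      (J.map (starRingEnd ℂ)).det * mixD (fun i => J.transpose * H i) := by
    rw [row, row, ← mul_div_assoc, Finset.mul_sum]
    congr 1
    refine Finset.sum_congr rfl fun σ _ => ?_
    have h : (Matrix.of fun i k => (J.transpose * H i * J.map (starRingEnd ℂ)) (σ i) k) =
        (Matrix.of fun i k => (J.transpose * H i) (σ i) k) * J.map (starRingEnd ℂ) := by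
      ext i k
      simp only [Matrix.of_apply, Matrix.mul_apply]
    rw [h, Matrix.det_mul]
    ring
  have h2 : mixD (fun i => J.transpose * H i) = J.det * mixD H := by
    rw [col, col, ← mul_div_assoc, Finset.mul_sum]
    congr 1
    refine Finset.sum_congr rfl fun τ _ => ?_
    have h : (Matrix.of fun i j => (J.transpose * H i) j (τ i)) =
        (Matrix.of fun i j => H i j (τ i)) * J := by
      ext i j
      simp only [Matrix.of_apply, Matrix.mul_apply, Matrix.transpose_apply]
      exact Finset.sum_congr rfl fun l _ => mul_comm _ _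
    rw [h, Matrix.det_mul]
    ring
  have h3 : (J.map (starRingEnd ℂ)).det = (starRingEnd ℂ) J.det := by
    rw [RingHom.map_det]
    rfl
  rw [h1, h2, h3, ← mul_assoc, mul_comm ((starRingEnd ℂ) J.det), Complex.mul_conj']
  push_cast
  rfl

theorem mixD_im {H : Fin n → Matrix (Fin n) (Fin n) ℂ} (h : ∀ i, (H i).IsHermitian) :
    (mixD H).im = 0 := by
  rw [← Complex.conj_eq_iff_im]
  unfold mixD
  rw [map_div₀, map_natCast, map_sum]
  congr 1
  rw [Finset.sum_comm]
  refine Finset.sum_congr rfl fun σ _ => ?_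
  rw [map_sum]
  refine Finset.sum_congr rfl fun τ _ => ?_
  rw [map_mul, map_mul, map_prod, map_intCast, map_intCast,
    mul_comm ((Equiv.Perm.sign σ : ℤ) : ℂ)]
  congr 1
  refine Finset.prod_congr rfl fun i _ => ?_
  exact (h i).apply (τ i) (σ i)

theorem continuous_mixD : Continuous (mixD (n := n)) := by
  unfold mixD
  refine Continuous.div_const ?_ _
  refine continuous_finsetSum _ fun σ _ => continuous_finsetSum _ fun τ _ => ?_
  refine continuous_const.mul (continuous_finsetProd _ fun i _ => ?_)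
  exact (continuous_apply_apply (σ i) (τ i)).comp (continuous_apply i)

end Pool.Agent.DMA
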