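import Pool.Agent.Lib.DMA.CInt
import Pool.Agent.Lib.DMA.CMix

/-! # DMA, section C: closed fields of Hermitian matrices -/

set_option autoImplicit false

open scoped Manifold ContDiff Topology ComplexOrder
open Set Filter MeasureTheory

noncomputable section

namespace Pool.Agent.DMA

open Pool.Agent.K708 (E CMfd PUnit')

variable {n : ℕ} {X : CMfd n}

/-- Fields of matrices which are locally complex Hessians of smooth functions. -/
def Fld (H : X → Matrix (Fin n) (Fin n) ℂ) : Prop :=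
  ∀ φ ∈ CA X, ∀ z ∈ φ.target, ∃ w : E n → ℝ, ContDiff ℝ ∞ w ∧ ∀ᶠ y in 𝓝 z, CH w y = inCh φ H y

/-- Smooth functions. -/
abbrev Sm (f : X → ℝ) : Prop := ContMDiff 𝓘(ℝ, E n) 𝓘(ℝ, ℝ) ∞ f

/-- Globalisation of a smooth function on an open set of `ℂⁿ` near a compact set. -/
theorem exists_global {Ω L : Set (E n)} (hΩ : IsOpen Ω) (hL : IsCompact L) (hLΩ : L ⊆ Ω)
    {f : E n → ℝ} (hf : ContDiffOn ℝ ∞ f Ω) :
    ∃ w : E n → ℝ, ContDiff ℝ ∞ w ∧ HasCompactSupport w ∧ ∀ᶠ y in 𝓝ˢ L, w y = f y := by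
  obtain ⟨K, hK, hLK, hKΩ⟩ := exists_compact_between hL hΩ hLΩ
  obtain ⟨χ, h1, h0, -⟩ := exists_contMDiffMap_one_nhds_of_subset_interior (n := (⊤ : ℕ∞)) 𝓘(ℝ, E n)
    hL.isClosed hLK
  have hχ : ContDiff ℝ ∞ (χ : E n → ℝ) := χ.contMDiff.contDiff
  refine ⟨fun y => χ y * f y, ?_, ?_, ?_⟩
  · rw [contDiff_iff_contDiffAt]
    intro y
    by_cases hy : y ∈ Ω
    · exact hχ.contDiffAt.mul (hf.contDiffAt (hΩ.mem_nhds hy))
    · have hyK : Kᶜ ∈ 𝓝 y := hK.isClosed.isOpen_compl.mem_nhds (fun h => hy (hKΩ h))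
      have h2 : (fun y => χ y * f y) =ᶠ[𝓝 y] fun _ => (0 : ℝ) := by
        filter_upwards [hyK] with x hx
        rw [h0 x hx, zero_mul]
      exact contDiffAt_const.congr_of_eventuallyEq h2
  · refine HasCompactSupport.intro hK fun x hx => ?_
    rw [h0 x hx, zero_mul]
  · filter_upwards [h1] with y hy
    rw [hy, one_mul]

namespace CFldAux

/-- Near a point, a smooth function on an open set is a globally smooth one. -/
theorem exists_near {Ω : Set (E n)} (hΩ : IsOpen Ω) {z : E n} (hz : z ∈ Ω) {f : E n → ℝ}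
    (hf : ContDiffOn ℝ ∞ f Ω) :
    ∃ w : E n → ℝ, ContDiff ℝ ∞ w ∧ ∀ᶠ y in 𝓝 z, CH w y = CH f y := by
  obtain ⟨w, hw, -, hwf⟩ := exists_global hΩ isCompact_singleton (singleton_subset_iff.2 hz) hf
  rw [nhdsSet_singleton] at hwf
  refine ⟨w, hw, ?_⟩
  filter_upwards [eventually_eventually_nhds.2 hwf] with y hy
  exact CH_congr hy

end CFldAux

theorem Fld_hess {f : X → ℝ} (hf : Sm f) : Fld (hess f) := by
  intro φ hφ z hz
  have h1 : ContDiffOn ℝ ∞ (fun z => f (φ.symm z)) φ.target := by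
    have h2 := smooth_chart isOpen_univ hf.contMDiffOn hφ
    rwa [preimage_univ, inter_univ] at h2
  obtain ⟨w, hw, hwf⟩ := CFldAux.exists_near φ.open_target hz h1
  refine ⟨w, hw, ?_⟩
  filter_upwards [hwf, φ.open_target.mem_nhds hz] with y hy hyt
  rw [hy]
  exact CH_chart hφ hyt hf.contMDiffAt

theorem Fld_pot (K : Kahler X) {u : X → ℝ} (hu : Sm u) : Fld (fun x => K.g x + hess u x) := by
  intro φ hφ z hz
  obtain ⟨U, ρ, hxU, hρ⟩ := K.pot (φ.symm z)
  have hΩ : IsOpen (φ.target ∩ φ.symm ⁻¹' U) := φ.symm.isOpen_inter_preimage hρ.opn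
  have h1 : ContDiffOn ℝ ∞ (fun z => ρ (φ.symm z)) (φ.target ∩ φ.symm ⁻¹' U) :=
    smooth_chart hρ.opn hρ.smooth hφ
  have h2 : ContDiffOn ℝ ∞ (fun z => u (φ.symm z)) (φ.target ∩ φ.symm ⁻¹' U) :=
    smooth_chart hρ.opn hu.contMDiffOn hφ
  obtain ⟨w, hw, hwf⟩ := CFldAux.exists_near hΩ ⟨hz, hxU⟩ (h1.add h2)
  refine ⟨w, hw, ?_⟩
  filter_upwards [hwf, hΩ.mem_nhds ⟨hz, hxU⟩] with y hy hyt
  rw [hy]
  exact inCh_pot hρ hφ hyt.1 hyt.2 hu.contMDiffAt

theorem Fld.herm {H : X → Matrix (Fin n) (Fin n) ℂ} (hH : Fld H) (x : X) :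
    (H x).IsHermitian := by
  have hmem : chartAt (E n) x ∈ CA X := IsManifold.chart_mem_maximalAtlas x
  obtain ⟨w, hw, hwH⟩ := hH (chartAt (E n) x) hmem (chartAt (E n) x x) (mem_chart_target _ x)
  have h1 := hwH.self_of_nhds
  have h2 : (chartAt (E n) x).symm (chartAt (E n) x x) = x :=
    (chartAt (E n) x).left_inv (mem_chart_source _ x)
  have h3 : inCh (chartAt (E n) x) H (chartAt (E n) x x) = H x := by
    rw [inCh, Jc_chartAt, h2, Matrix.transpose_one, Matrix.one_mul,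
      Matrix.map_one _ (map_zero _) (map_one _), Matrix.mul_one]
  rw [← h3, ← h1]
  exact CH_herm (hw.contDiffAt.of_le ENat.LEInfty.out)

/-- The mixed discriminant of closed fields is a continuous density. -/
theorem Fld.cd {H : Fin n → X → Matrix (Fin n) (Fin n) ℂ} (hH : ∀ j, Fld (H j)) :
    CD fun x => (mixD fun j => H j x).re := by
  intro φ hφ z hz
  choose w hw hwH using fun j => hH j φ hφ z hz
  have h1 : ∀ᶠ y in 𝓝 z, ∀ j, CH (w j) y = inCh φ (H j) y := eventually_all.2 hwH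
  have h2 : Continuous fun y => (mixD fun j => CH (w j) y).re := by
    refine Complex.continuous_re.comp (continuous_mixD.comp (continuous_pi fun j => ?_))
    have h3 := CH_continuousOn isOpen_univ (hw j).contDiffOn
    rwa [continuousOn_univ] at h3
  refine ContinuousAt.continuousWithinAt ?_
  refine h2.continuousAt.congr ?_
  filter_upwards [h1] with y hy
  have h4 : (fun j => CH (w j) y) =
      fun j => (Jc φ y).transpose * H j (φ.symm y) * (Jc φ y).map (starRingEnd ℂ) := by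
    funext j
    rw [hy j]
    rfl
  rw [h4, mixD_pull, Complex.re_ofReal_mul, wt, mul_comm]

end Pool.Agent.DMA
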