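import Pool.Agent.Lib.DMA.CGlobA

/-! # DMA, section C: global integration by parts -/

set_option autoImplicit false

open scoped Manifold ContDiff Topology ComplexOrder
open Set Filter MeasureTheory

noncomputable section

namespace Pool.Agent.DMA

open Pool.Agent.K708 (E CMfd PUnit')

variable {n : ℕ} {X : CMfd n}

namespace CGlobAux

theorem mixD_update_zero (H : Fin n → Matrix (Fin n) (Fin n) ℂ) (i : Fin n) :
    mixD (Function.update H i 0) = 0 := by
  have h := mixD_update_smul H i 0 (0 : Matrix (Fin n) (Fin n) ℂ)
  simpa using h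

theorem mixD_update_sum {ι : Type} (s : Finset ι) (H : Fin n → Matrix (Fin n) (Fin n) ℂ)
    (i : Fin n) (A : ι → Matrix (Fin n) (Fin n) ℂ) :
    mixD (Function.update H i (∑ k ∈ s, A k)) = ∑ k ∈ s, mixD (Function.update H i (A k)) := by
  classical
  induction s using Finset.induction_on with
  | empty => simpa using mixD_update_zero H i
  | insert k s hk ih =>
    rw [Finset.sum_insert hk, Finset.sum_insert hk, mixD_update_add, ih]

theorem sm_sum {ι : Type} (s : Finset ι) {f : ι → X → ℝ} (hf : ∀ k, Sm (f k)) :
    Sm (fun y => ∑ k ∈ s, f k y) := by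
  classical
  induction s using Finset.induction_on with
  | empty =>
    simp only [Finset.sum_empty]
    exact contMDiff_const
  | insert k s hk ih =>
    simp only [Finset.sum_insert hk]
    exact (hf k).add ih

theorem hess_sum {ι : Type} (s : Finset ι) {f : ι → X → ℝ} (hf : ∀ k, Sm (f k)) (x : X) :
    hess (fun y => ∑ k ∈ s, f k y) x = ∑ k ∈ s, hess (f k) x := by
  classical
  induction s using Finset.induction_on with
  | empty =>
    simp only [Finset.sum_empty]
    exact hess_const 0 x
  | insert k s hk ih =>
    simp only [Finset.sum_insert hk]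
    rw [hess_add ((hf k) x) ((sm_sum s hf) x), ih]

theorem cd_update {H : Fin n → X → Matrix (Fin n) (Fin n) ℂ} (hH : ∀ j, Fld (H j)) (i : Fin n)
    {a b : X → ℝ} (ha : Sm a) (hb : Sm b) :
    CD (fun x => b x * (mixD (Function.update (fun j => H j x) i (hess a x))).re) := by
  have h1 : ∀ j, Fld ((Function.update H i (hess a)) j) := by
    intro j
    by_cases hj : j = i
    · subst hj
      rw [Function.update_self]
      exact Fld_hess ha
    · rw [Function.update_of_ne hj]
      exact hH j
  have h2 := (Fld.cd h1).mul hb.continuous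
  have h3 : ∀ x, (fun j => (Function.update H i (hess a)) j x) =
      Function.update (fun j => H j x) i (hess a x) := by
    intro x
    funext j
    by_cases hj : j = i
    · subst hj
      rw [Function.update_self, Function.update_self]
    · rw [Function.update_of_ne hj, Function.update_of_ne hj]
  simp only [h3] at h2
  exact h2

theorem exists_nhd {H : Fin n → X → Matrix (Fin n) (Fin n) ℂ} (hH : ∀ j, Fld (H j)) (x : X) :
    ∃ (U : Set X) (w : Fin n → E n → ℝ), IsOpen U ∧ x ∈ U ∧ U ⊆ (chartAt (E n) x).source ∧
      (∀ j, ContDiff ℝ ∞ (w j)) ∧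
      ∀ j, ∀ y ∈ U, CH (w j) (chartAt (E n) x y) = inCh (chartAt (E n) x) (H j)
        (chartAt (E n) x y) := by
  have hφ : chartAt (E n) x ∈ CA X := IsManifold.chart_mem_maximalAtlas x
  have hz : chartAt (E n) x x ∈ (chartAt (E n) x).target := mem_chart_target (E n) x
  choose w hw1 hw2 using fun j => hH j _ hφ _ hz
  have hall : ∀ᶠ y in 𝓝 (chartAt (E n) x x), ∀ j, CH (w j) y = inCh (chartAt (E n) x) (H j) y :=
    Filter.eventually_all.2 hw2
  obtain ⟨V, hV, hVo, hxV⟩ := eventually_nhds_iff.1 hall
  refine ⟨(chartAt (E n) x).source ∩ (chartAt (E n) x) ⁻¹' V, w, ?_, ?_, inter_subset_left, hw1,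
    ?_⟩
  · exact (chartAt (E n) x).isOpen_inter_preimage hVo
  · exact ⟨mem_chart_source (E n) x, hxV⟩
  · intro j y hy
    exact hV _ hy.2 j

end CGlobAux

open CGlobAux in
theorem glob_ibp (hX : CompactSpace X) (P : PUnit' n X)
    {H : Fin n → X → Matrix (Fin n) (Fin n) ℂ} (hH : ∀ j, Fld (H j)) (i : Fin n) {a b : X → ℝ}
    (ha : Sm a) (hb : Sm b) :
    Int P (fun x => b x * (mixD (Function.update (fun j => H j x) i (hess a x))).re) =
      Int P (fun x => a x * (mixD (Function.update (fun j => H j x) i (hess b x))).re) := by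
  choose U w hUo hxU hUs hw hwH using fun x => exists_nhd hH x
  obtain ⟨Q, c, hQ⟩ := Pool.Agent.K708.exists_pu X hX U (fun x => (hUo x).mem_nhds (hxU x))
  have hsm : ∀ k, Sm (fun x => Q.χ k x * a x) := fun k => (Q.smooth k).mul ha
  have hloc : ∀ k : Fin Q.N,
      Int P (fun x => b x * (mixD (Function.update (fun j => H j x) i
        (hess (fun x => Q.χ k x * a x) x))).re) =
      Int P (fun x => (Q.χ k x * a x) *
        (mixD (Function.update (fun j => H j x) i (hess b x))).re) := by
    intro k
    refine glob_ibp_loc hX P hH i (hsm k) hb (ψ := chartAt (E n) (c k))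
      (IsManifold.chart_mem_maximalAtlas (c k)) (L := tsupport (Q.χ k)) (U := U (c k))
      (isClosed_tsupport _).isCompact (hUo (c k)) ((Q.supp k).trans (hQ k)) (hUs (c k)) ?_
      (hw (c k)) (hwH (c k))
    intro x hx
    rw [image_eq_zero_of_notMem_tsupport hx, zero_mul]
  have hsum : ∀ x, ∑ k, Q.χ k x * a x = a x := by
    intro x
    rw [← Finset.sum_mul, Q.sum, one_mul]
  have hL : (fun x => b x * (mixD (Function.update (fun j => H j x) i (hess a x))).re) =
      fun x => ∑ k, b x * (mixD (Function.update (fun j => H j x) i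
        (hess (fun x => Q.χ k x * a x) x))).re := by
    funext x
    have h1 : hess a x = ∑ k, hess (fun x => Q.χ k x * a x) x := by
      rw [← hess_sum Finset.univ hsm x]
      congr 1
      funext y
      exact (hsum y).symm
    rw [h1, mixD_update_sum, Complex.re_sum, Finset.mul_sum]
  have hR : (fun x => a x * (mixD (Function.update (fun j => H j x) i (hess b x))).re) =
      fun x => ∑ k, (Q.χ k x * a x) *
        (mixD (Function.update (fun j => H j x) i (hess b x))).re := by
    funext x
    rw [← Finset.sum_mul, hsum]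
  rw [hL, hR, Int_sum hX P Finset.univ (fun k _ => cd_update hH i (hsm k) hb),
    Int_sum hX P Finset.univ (fun k _ => cd_update hH i hb (hsm k))]
  exact Finset.sum_congr rfl (fun k _ => hloc k)

end Pool.Agent.DMA
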