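import Pool.Agent.Lib.DMA.Defs

/-! # DMA: mixed discriminants and the local formula for mixed Monge–Ampère measures -/

set_option autoImplicit false

open scoped Manifold ContDiff Topology ComplexOrder
open Set Filter MeasureTheory

noncomputable section

namespace Pool.Agent.DMA

open Pool.Agent.K708 (E CMfd)

variable {n : ℕ}

/-- Mixed discriminant, normalised by `mixD (fun _ => H) = det H`. -/
def mixD (H : Fin n → Matrix (Fin n) (Fin n) ℂ) : ℂ :=
  (∑ σ : Equiv.Perm (Fin n), ∑ τ : Equiv.Perm (Fin n),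
    ((Equiv.Perm.sign σ : ℤ) : ℂ) * ((Equiv.Perm.sign τ : ℤ) : ℂ) *
      ∏ i, H i (σ i) (τ i)) / (n.factorial : ℂ)

/-- The local formula for the mixed Monge–Ampère measure of smooth functions on an open set `A`. -/
def LocMix {X : CMfd n} (K : Kahler X) (A : Set X) (u : Fin n → X → ℝ) (ν : Measure X) : Prop :=
  ∀ (U : Set X) (ρ : X → ℝ), IsPot K.g U ρ → ∀ ψ ∈ CA X, ∀ f : X → ℝ, Continuous f →
    tsupport f ⊆ ψ.source ∩ U ∩ A → ∫ x, f x ∂ν =
      ∫ z in ψ.target ∩ ψ.symm ⁻¹' (U ∩ A),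
        f (ψ.symm z) * (mixD fun i => CH (fun w => ρ (ψ.symm w) + u i (ψ.symm w)) z).re

end Pool.Agent.DMA
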