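import Pool.Agent.Lib.DMA.CJac
import Pool.Agent.Lib.DMA.Mix

/-! # DMA, section C: local integration by parts -/

set_option autoImplicit false

open scoped ContDiff Topology ComplexOrder
open Set Filter MeasureTheory

noncomputable section

namespace Pool.Agent.DMA

open Pool.Agent.K708 (E)

variable {n : ℕ}

namespace CIbpAux

open CJacAux

/-- the mixed determinant of two families of derivations -/
def M (d e : Fin n → (E n → ℂ) → E n → ℂ) (W : Fin n → E n → ℂ) (z : E n) : ℂ :=
  ∑ σ : Equiv.Perm (Fin n), ∑ τ : Equiv.Perm (Fin n),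
    ((Equiv.Perm.sign σ : ℤ) : ℂ) * ((Equiv.Perm.sign τ : ℤ) : ℂ) *
      ∏ j, d (σ j) (e (τ j) (W j)) z

variable {d e : Fin n → (E n → ℂ) → E n → ℂ}

lemma fam_update (W : Fin n → E n → ℂ) (i : Fin n) (A : E n → ℂ) (τ : Equiv.Perm (Fin n)) :
    (fun j => e (τ j) (Function.update W i A j)) =
      Function.update (fun j => e (τ j) (W j)) i (e (τ i) A) := by
  funext j
  by_cases h : j = i
  · subst h
    rw [Function.update_self, Function.update_self]
  · rw [Function.update_of_ne h, Function.update_of_ne h]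

lemma M_eq_J (W : Fin n → E n → ℂ) (i : Fin n) (A : E n → ℂ) (z : E n) :
    M d e (Function.update W i A) z = ∑ τ : Equiv.Perm (Fin n), ((Equiv.Perm.sign τ : ℤ) : ℂ) *
      J d (Function.update (fun j => e (τ j) (W j)) i (e (τ i) A)) z := by
  unfold M
  rw [Finset.sum_comm]
  refine Finset.sum_congr rfl fun τ _ => ?_
  rw [← fam_update W i A τ]
  unfold J
  rw [Finset.mul_sum]
  refine Finset.sum_congr rfl fun σ _ => ?_
  ring

lemma M_eq_J' (he : ∀ F : E n → ℂ, ContDiff ℝ ∞ F → ∀ j k z, d j (e k F) z = e k (d j F) z)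
    {W : Fin n → E n → ℂ} (hW : ∀ j, ContDiff ℝ ∞ (W j)) (i : Fin n) {A : E n → ℂ}
    (hA : ContDiff ℝ ∞ A) (z : E n) :
    M d e (Function.update W i A) z = ∑ σ : Equiv.Perm (Fin n), ((Equiv.Perm.sign σ : ℤ) : ℂ) *
      J e (Function.update (fun j => d (σ j) (W j)) i (d (σ i) A)) z := by
  unfold M
  refine Finset.sum_congr rfl fun σ _ => ?_
  rw [← fam_update W i A σ]
  unfold J
  rw [Finset.mul_sum]
  refine Finset.sum_congr rfl fun τ _ => ?_
  have h1 : ∏ j, d (σ j) (e (τ j) (Function.update W i A j)) z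
      = ∏ j, e (τ j) (d (σ j) (Function.update W i A j)) z :=
    Finset.prod_congr rfl fun j _ => he _ (update_smooth hW i hA j) _ _ _
  rw [h1]
  ring

/-- one step: exchange of `A` and `B` under one determinant -/
lemma step (hd : Der d) (he : Der e)
    (hde : ∀ F : E n → ℂ, ContDiff ℝ ∞ F → ∀ j k z, d j (e k F) z = e k (d j F) z)
    {W : Fin n → E n → ℂ} (hW : ∀ j, ContDiff ℝ ∞ (W j)) (i : Fin n) {A B : E n → ℂ}
    (hA : ContDiff ℝ ∞ A) (hB : ContDiff ℝ ∞ B) (hc : HasCompactSupport A)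
    (τ : Equiv.Perm (Fin n)) :
    ∫ z, B z * J d (Function.update (fun j => e (τ j) (W j)) i (e (τ i) A)) z
      = - ∑ σ : Equiv.Perm (Fin n), ((Equiv.Perm.sign σ : ℤ) : ℂ) *
        ∫ z, e (τ i) A z * (d (σ i) B z *
          ∏ j ∈ Finset.univ.erase i, d (σ j) (e (τ j) (W j)) z) := by
  have hV : ∀ j, ContDiff ℝ ∞ ((fun j => e (τ j) (W j)) j) := fun j => he.smooth _ (hW j) _
  rw [J_ibp hd hV i (he.smooth _ hA _) hB (he.supp _ hc _)]
  congr 1
  have h1 : ∀ z, e (τ i) A z * J d (Function.update (fun j => e (τ j) (W j)) i B) z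
      = ∑ σ : Equiv.Perm (Fin n), ((Equiv.Perm.sign σ : ℤ) : ℂ) * (e (τ i) A z * (d (σ i) B z *
          ∏ j ∈ Finset.univ.erase i, d (σ j) (e (τ j) (W j)) z)) := by
    intro z
    rw [J_update, Finset.mul_sum]
    refine Finset.sum_congr rfl fun σ _ => ?_
    ring
  simp only [h1]
  rw [integral_finsetSum]
  · refine Finset.sum_congr rfl fun σ _ => ?_
    rw [integral_const_mul]
  · intro σ _
    refine Integrable.const_mul ?_ _
    refine Continuous.integrable_of_hasCompactSupport ?_ (he.supp _ hc _).mul_right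
    exact (he.smooth _ hA _).continuous.mul ((hd.smooth _ hB _).continuous.mul
      (prod_smooth hd hV _ σ).continuous)

lemma step' (hd : Der d) (he : Der e)
    (hde : ∀ F : E n → ℂ, ContDiff ℝ ∞ F → ∀ j k z, d j (e k F) z = e k (d j F) z)
    {W : Fin n → E n → ℂ} (hW : ∀ j, ContDiff ℝ ∞ (W j)) (i : Fin n) {A B : E n → ℂ}
    (hA : ContDiff ℝ ∞ A) (hB : ContDiff ℝ ∞ B) (hc : HasCompactSupport A)
    (σ : Equiv.Perm (Fin n)) :
    ∫ z, A z * J e (Function.update (fun j => d (σ j) (W j)) i (d (σ i) B)) z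
      = - ∑ τ : Equiv.Perm (Fin n), ((Equiv.Perm.sign τ : ℤ) : ℂ) *
        ∫ z, e (τ i) A z * (d (σ i) B z *
          ∏ j ∈ Finset.univ.erase i, d (σ j) (e (τ j) (W j)) z) := by
  have hV : ∀ j, ContDiff ℝ ∞ ((fun j => d (σ j) (W j)) j) := fun j => hd.smooth _ (hW j) _
  have h0 := J_ibp he hV i hA (hd.smooth _ hB (σ i)) hc
  rw [eq_neg_iff_add_eq_zero, add_comm, ← eq_neg_iff_add_eq_zero] at h0
  rw [h0]
  congr 1
  have h1 : ∀ z, d (σ i) B z * J e (Function.update (fun j => d (σ j) (W j)) i A) z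
      = ∑ τ : Equiv.Perm (Fin n), ((Equiv.Perm.sign τ : ℤ) : ℂ) * (e (τ i) A z * (d (σ i) B z *
          ∏ j ∈ Finset.univ.erase i, d (σ j) (e (τ j) (W j)) z)) := by
    intro z
    rw [J_update, Finset.mul_sum]
    refine Finset.sum_congr rfl fun τ _ => ?_
    have h2 : ∏ j ∈ Finset.univ.erase i, e (τ j) (d (σ j) (W j)) z
        = ∏ j ∈ Finset.univ.erase i, d (σ j) (e (τ j) (W j)) z :=
      Finset.prod_congr rfl fun j _ => (hde _ (hW j) _ _ _).symm
    rw [h2]
    ring
  simp only [h1]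
  rw [integral_finsetSum]
  · refine Finset.sum_congr rfl fun τ _ => ?_
    rw [integral_const_mul]
  · intro τ _
    refine Integrable.const_mul ?_ _
    refine Continuous.integrable_of_hasCompactSupport ?_ (he.supp _ hc _).mul_right
    have hV' : ∀ j, ContDiff ℝ ∞ ((fun j => e (τ j) (W j)) j) := fun j => he.smooth _ (hW j) _
    exact (he.smooth _ hA _).continuous.mul ((hd.smooth _ hB _).continuous.mul
      (prod_smooth hd hV' _ σ).continuous)

theorem ibp2 (hd : Der d) (he : Der e)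
    (hde : ∀ F : E n → ℂ, ContDiff ℝ ∞ F → ∀ j k z, d j (e k F) z = e k (d j F) z)
    {W : Fin n → E n → ℂ} (hW : ∀ j, ContDiff ℝ ∞ (W j)) (i : Fin n) {A B : E n → ℂ}
    (hA : ContDiff ℝ ∞ A) (hB : ContDiff ℝ ∞ B) (hc : HasCompactSupport A) :
    ∫ z, B z * M d e (Function.update W i A) z = ∫ z, A z * M d e (Function.update W i B) z := by
  have h1 : ∫ z, B z * M d e (Function.update W i A) z
      = ∑ τ : Equiv.Perm (Fin n), ((Equiv.Perm.sign τ : ℤ) : ℂ) *
        ∫ z, B z * J d (Function.update (fun j => e (τ j) (W j)) i (e (τ i) A)) z := by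
    have h2 : ∀ z, B z * M d e (Function.update W i A) z
        = ∑ τ : Equiv.Perm (Fin n), ((Equiv.Perm.sign τ : ℤ) : ℂ) *
          (B z * J d (Function.update (fun j => e (τ j) (W j)) i (e (τ i) A)) z) := by
      intro z
      rw [M_eq_J, Finset.mul_sum]
      refine Finset.sum_congr rfl fun τ _ => ?_
      ring
    simp only [h2]
    rw [integral_finsetSum]
    · refine Finset.sum_congr rfl fun τ _ => ?_
      rw [integral_const_mul]
    · intro τ _
      refine Integrable.const_mul ?_ _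
      have hV : ∀ j, ContDiff ℝ ∞ ((fun j => e (τ j) (W j)) j) := fun j => he.smooth _ (hW j) _
      exact Continuous.integrable_of_hasCompactSupport
        (hB.continuous.mul (J_smooth hd (update_smooth hV i (he.smooth _ hA _))).continuous)
        (J_supp hd _ i (he.supp _ hc _)).mul_left
  have h3 : ∫ z, A z * M d e (Function.update W i B) z
      = ∑ σ : Equiv.Perm (Fin n), ((Equiv.Perm.sign σ : ℤ) : ℂ) *
        ∫ z, A z * J e (Function.update (fun j => d (σ j) (W j)) i (d (σ i) B)) z := by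
    have h4 : ∀ z, A z * M d e (Function.update W i B) z
        = ∑ σ : Equiv.Perm (Fin n), ((Equiv.Perm.sign σ : ℤ) : ℂ) *
          (A z * J e (Function.update (fun j => d (σ j) (W j)) i (d (σ i) B)) z) := by
      intro z
      rw [M_eq_J' hde hW i hB, Finset.mul_sum]
      refine Finset.sum_congr rfl fun σ _ => ?_
      ring
    simp only [h4]
    rw [integral_finsetSum]
    · refine Finset.sum_congr rfl fun σ _ => ?_
      rw [integral_const_mul]
    · intro σ _
      refine Integrable.const_mul ?_ _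
      have hV : ∀ j, ContDiff ℝ ∞ ((fun j => d (σ j) (W j)) j) := fun j => hd.smooth _ (hW j) _
      exact Continuous.integrable_of_hasCompactSupport
        (hA.continuous.mul (J_smooth he (update_smooth hV i (hd.smooth _ hB _))).continuous)
        hc.mul_right
  rw [h1, h3]
  have h5 : ∀ τ : Equiv.Perm (Fin n),
      ∫ z, B z * J d (Function.update (fun j => e (τ j) (W j)) i (e (τ i) A)) z
      = - ∑ σ : Equiv.Perm (Fin n), ((Equiv.Perm.sign σ : ℤ) : ℂ) *
        ∫ z, e (τ i) A z * (d (σ i) B z *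
          ∏ j ∈ Finset.univ.erase i, d (σ j) (e (τ j) (W j)) z) :=
    fun τ => step hd he hde hW i hA hB hc τ
  have h6 : ∀ σ : Equiv.Perm (Fin n),
      ∫ z, A z * J e (Function.update (fun j => d (σ j) (W j)) i (d (σ i) B)) z
      = - ∑ τ : Equiv.Perm (Fin n), ((Equiv.Perm.sign τ : ℤ) : ℂ) *
        ∫ z, e (τ i) A z * (d (σ i) B z *
          ∏ j ∈ Finset.univ.erase i, d (σ j) (e (τ j) (W j)) z) :=
    fun σ => step' hd he hde hW i hA hB hc σ
  simp only [h5, h6, mul_neg, Finset.sum_neg_distrib, Finset.mul_sum]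
  congr 1
  rw [Finset.sum_comm]
  refine Finset.sum_congr rfl fun σ _ => Finset.sum_congr rfl fun τ _ => ?_
  ring

lemma mixD_eq_M {w : Fin n → E n → ℝ} (hw : ∀ j, ContDiff ℝ ∞ (w j)) (i : Fin n)
    {a : E n → ℝ} (ha : ContDiff ℝ ∞ a) (z : E n) :
    mixD (Function.update (fun j => CH (w j) z) i (CH a z)) =
      M wd wb (Function.update (fun j x => ((w j x : ℝ) : ℂ)) i (fun x => ((a x : ℝ) : ℂ))) z
        / (n.factorial : ℂ) := by
  unfold mixD M
  congr 1
  refine Finset.sum_congr rfl fun σ _ => Finset.sum_congr rfl fun τ _ => ?_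
  congr 1
  refine Finset.prod_congr rfl fun j _ => ?_
  by_cases h : j = i
  · subst h
    rw [Function.update_self, Function.update_self, CH_eq_wd ha]
  · rw [Function.update_of_ne h, Function.update_of_ne h, CH_eq_wd (hw j)]

end CIbpAux

theorem loc_ibp {w : Fin n → E n → ℝ} (hw : ∀ j, ContDiff ℝ ∞ (w j)) (i : Fin n)
    {a b : E n → ℝ} (ha : ContDiff ℝ ∞ a) (hb : ContDiff ℝ ∞ b) (hc : HasCompactSupport a) :
    ∫ z, (b z : ℂ) * mixD (Function.update (fun j => CH (w j) z) i (CH a z)) =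
      ∫ z, (a z : ℂ) * mixD (Function.update (fun j => CH (w j) z) i (CH b z)) := by
  have hof : ∀ {f : E n → ℝ}, ContDiff ℝ ∞ f → ContDiff ℝ ∞ (fun x => ((f x : ℝ) : ℂ)) :=
    fun hf => Complex.ofRealCLM.contDiff.comp hf
  have hc' : HasCompactSupport (fun x => ((a x : ℝ) : ℂ)) :=
    hc.comp_left (g := fun t : ℝ => (t : ℂ)) Complex.ofReal_zero
  have h1 := CIbpAux.ibp2 (n := n) CJacAux.der_wd CJacAux.der_wb (fun F hF j k z => wd_wb hF j k z)
    (W := fun j x => ((w j x : ℝ) : ℂ)) (fun j => hof (hw j)) i (hof ha) (hof hb) hc'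
  have h2 : ∀ z, (b z : ℂ) * mixD (Function.update (fun j => CH (w j) z) i (CH a z))
      = (n.factorial : ℂ)⁻¹ * ((b z : ℂ) * CIbpAux.M wd wb
        (Function.update (fun j x => ((w j x : ℝ) : ℂ)) i (fun x => ((a x : ℝ) : ℂ))) z) := by
    intro z
    rw [CIbpAux.mixD_eq_M hw i ha]
    ring
  have h3 : ∀ z, (a z : ℂ) * mixD (Function.update (fun j => CH (w j) z) i (CH b z))
      = (n.factorial : ℂ)⁻¹ * ((a z : ℂ) * CIbpAux.M wd wb
        (Function.update (fun j x => ((w j x : ℝ) : ℂ)) i (fun x => ((b x : ℝ) : ℂ))) z) := by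
    intro z
    rw [CIbpAux.mixD_eq_M hw i hb]
    ring
  simp only [h2, h3]
  rw [integral_const_mul, integral_const_mul, h1]

end Pool.Agent.DMA
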