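import Pool.Agent.Lib.DMA.CFld
import Pool.Agent.Lib.DMA.CChg
import Pool.Agent.Lib.DMA.CIbp

/-! # DMA, section C: integration by parts in one chart -/

set_option autoImplicit false

open scoped Manifold ContDiff Topology ComplexOrder
open Set Filter MeasureTheory

noncomputable section

namespace Pool.Agent.DMA

open Pool.Agent.K708 (E CMfd PUnit')

variable {n : ℕ} {X : CMfd n}

namespace CGlobAAux

theorem mixD_zero_entry (H : Fin n → Matrix (Fin n) (Fin n) ℂ) (i : Fin n) :
    mixD (Function.update H i 0) = 0 := by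
  have h := mixD_update_smul H i 0 0
  simpa using h

theorem update_field (H : Fin n → X → Matrix (Fin n) (Fin n) ℂ) (i : Fin n)
    (G : X → Matrix (Fin n) (Fin n) ℂ) (x : X) :
    Function.update (fun j => H j x) i (G x) = fun j => Function.update H i G j x := by
  funext j
  by_cases h : j = i
  · subst h; simp
  · simp [h]

theorem fld_update {H : Fin n → X → Matrix (Fin n) (Fin n) ℂ} (hH : ∀ j, Fld (H j)) (i : Fin n)
    {G : X → Matrix (Fin n) (Fin n) ℂ} (hG : Fld G) (j : Fin n) :
    Fld (Function.update H i G j) := by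
  by_cases h : j = i
  · subst h; simpa using hG
  · simpa [h] using hH j

/-- The density of the statement. -/
theorem cd_dens {H : Fin n → X → Matrix (Fin n) (Fin n) ℂ} (hH : ∀ j, Fld (H j)) (i : Fin n)
    {a b : X → ℝ} (ha : Sm a) (hb : Sm b) :
    CD fun x => b x * (mixD (Function.update (fun j => H j x) i (hess a x))).re := by
  have h1 : CD fun x => (mixD fun j => Function.update H i (hess a) j x).re :=
    Fld.cd (fld_update hH i (Fld_hess ha))
  have h2 : CD fun x => (mixD (Function.update (fun j => H j x) i (hess a x))).re := by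
    have : (fun x => (mixD (Function.update (fun j => H j x) i (hess a x))).re) =
        fun x => (mixD fun j => Function.update H i (hess a) j x).re := by
      funext x
      rw [update_field]
    rw [this]
    exact h1
  exact h2.mul hb.continuous

theorem hess_zero {a : X → ℝ} {L : Set X} (hL : IsCompact L) (hs : ∀ x, x ∉ L → a x = 0)
    {x : X} (hx : x ∉ L) : hess a x = 0 := by
  have h : a =ᶠ[𝓝 x] fun _ => (0 : ℝ) := by
    filter_upwards [hL.isClosed.isOpen_compl.mem_nhds hx] with y hy using hs y hy
  rw [hess_congr h]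
  exact hess_const 0 x

/-- Complex Hessians of smooth functions are continuous. -/
theorem continuous_CH {w : E n → ℝ} (hw : ContDiff ℝ ∞ w) : Continuous (CH w) := by
  rw [← continuousOn_univ]
  exact CH_continuousOn isOpen_univ hw.contDiffOn

theorem continuous_mixCH {w : Fin n → E n → ℝ} (hw : ∀ j, ContDiff ℝ ∞ (w j)) (i : Fin n)
    {a : E n → ℝ} (ha : ContDiff ℝ ∞ a) :
    Continuous fun z => mixD (Function.update (fun j => CH (w j) z) i (CH a z)) := by
  refine continuous_mixD.comp (continuous_pi fun j => ?_)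
  by_cases h : j = i
  · subst h
    simpa using continuous_CH ha
  · simpa [h] using continuous_CH (hw j)

end CGlobAAux

open CGlobAAux

theorem glob_ibp_loc (hX : CompactSpace X) (P : PUnit' n X)
    {H : Fin n → X → Matrix (Fin n) (Fin n) ℂ} (hH : ∀ j, Fld (H j)) (i : Fin n) {a b : X → ℝ}
    (ha : Sm a) (hb : Sm b) {ψ : OpenPartialHomeomorph X (E n)} (hψ : ψ ∈ CA X) {L U : Set X}
    (hL : IsCompact L) (hU : IsOpen U) (hLU : L ⊆ U) (hUψ : U ⊆ ψ.source)
    (hs : ∀ x, x ∉ L → a x = 0) {w : Fin n → E n → ℝ} (hw : ∀ j, ContDiff ℝ ∞ (w j))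
    (hwH : ∀ j, ∀ x ∈ U, CH (w j) (ψ x) = inCh ψ (H j) (ψ x)) :
    Int P (fun x => b x * (mixD (Function.update (fun j => H j x) i (hess a x))).re) =
      Int P (fun x => a x * (mixD (Function.update (fun j => H j x) i (hess b x))).re) := by
  classical
  have hLψ : L ⊆ ψ.source := hLU.trans hUψ
  rw [Int_chart hX P (cd_dens hH i ha hb) hψ hL hLψ (fun x hx => by
      rw [hess_zero hL hs hx, mixD_zero_entry]; simp),
    Int_chart hX P (cd_dens hH i hb ha) hψ hL hLψ (fun x hx => by rw [hs x hx]; simp)]
  -- the image of the support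
  set M : Set (E n) := ψ '' L with hM
  have hMc : IsCompact M := hL.image_of_continuousOn (ψ.continuousOn.mono hLψ)
  have hMt : M ⊆ ψ.target := by
    rintro _ ⟨x, hx, rfl⟩
    exact ψ.map_source (hLψ hx)
  have hML : ∀ z ∈ ψ.target, z ∉ M → ψ.symm z ∉ L := by
    intro z hz hzM hc
    exact hzM ⟨ψ.symm z, hc, ψ.right_inv hz⟩
  -- the local function `a'`
  set a' : E n → ℝ := fun z => if z ∈ ψ.target then a (ψ.symm z) else 0 with ha'
  have ha0 : ∀ z, z ∉ M → a' z = 0 := by
    intro z hz
    simp only [ha']
    split_ifs with h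
    · exact hs _ (hML z h hz)
    · rfl
  have haM : ∀ z, z ∉ M → a' =ᶠ[𝓝 z] fun _ => (0 : ℝ) := by
    intro z hz
    filter_upwards [hMc.isClosed.isOpen_compl.mem_nhds hz] with y hy using ha0 y hy
  have hat : ∀ z ∈ ψ.target, a' =ᶠ[𝓝 z] fun y => a (ψ.symm y) := by
    intro z hz
    filter_upwards [ψ.open_target.mem_nhds hz] with y hy
    simp [ha', hy]
  have hsm : ∀ {f : X → ℝ}, Sm f → ContDiffOn ℝ ∞ (fun z => f (ψ.symm z)) ψ.target := by
    intro f hf
    have h := smooth_chart isOpen_univ hf.contMDiffOn hψ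
    simpa using h
  have ha's : ContDiff ℝ ∞ a' := by
    rw [contDiff_iff_contDiffAt]
    intro z
    by_cases hz : z ∈ M
    · exact (((hsm ha).contDiffAt (ψ.open_target.mem_nhds (hMt hz))).congr_of_eventuallyEq
        (hat z (hMt hz)))
    · exact contDiffAt_const.congr_of_eventuallyEq (haM z hz)
  have ha'c : HasCompactSupport a' := by
    refine HasCompactSupport.intro hMc ?_
    intro z hz
    exact ha0 z hz
  -- the local function `b'`
  obtain ⟨b', hb's, -, hb'M⟩ := exists_global ψ.open_target hMc hMt (hsm hb)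
  have hb't : ∀ z ∈ M, b' =ᶠ[𝓝 z] fun y => b (ψ.symm y) := by
    intro z hz
    exact (eventually_nhdsSet_iff_forall.1 hb'M) z hz
  -- the key pointwise formula
  have key : ∀ {f : X → ℝ} {f' : E n → ℝ}, Sm f → ∀ z ∈ M,
      (f' =ᶠ[𝓝 z] fun y => f (ψ.symm y)) →
      (mixD (Function.update (fun j => CH (w j) z) i (CH f' z))).re =
        (mixD (Function.update (fun j => H j (ψ.symm z)) i (hess f (ψ.symm z)))).re * wt ψ z := by
    intro f f' hf z hz hff'
    have hzt := hMt hz
    obtain ⟨x, hx, rfl⟩ := hz
    have hxs : x ∈ ψ.source := hLψ hx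
    have e1 : CH f' (ψ x) = inCh ψ (hess f) (ψ x) := by
      rw [CH_congr hff']
      exact CH_chart hψ hzt hf.contMDiffAt
    have e2 : Function.update (fun j => CH (w j) (ψ x)) i (CH f' (ψ x)) =
        fun j => (Jc ψ (ψ x)).transpose *
          (Function.update (fun j => H j (ψ.symm (ψ x))) i (hess f (ψ.symm (ψ x))) j) *
            (Jc ψ (ψ x)).map (starRingEnd ℂ) := by
      funext j
      by_cases h : j = i
      · subst h
        simp only [Function.update_self]
        rw [e1]; rfl
      · rw [Function.update_of_ne h, Function.update_of_ne h, hwH j x (hLU hx)]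
        rfl
    rw [e2, mixD_pull]
    simp only [Complex.re_ofReal_mul, wt]
    ring
  -- rewriting of both sides
  have hrw : ∀ {F : E n → ℝ} {G : E n → ℂ}, (∀ z ∈ M, F z = (G z).re) →
      (∀ z ∈ ψ.target, z ∉ M → F z = 0) → (∀ z, z ∉ M → G z = 0) → Integrable G →
      ∫ z in ψ.target, F z = (∫ z, G z).re := by
    intro F G h1 h2 h3 h4
    have e1 : ∫ z in ψ.target, F z = ∫ z in ψ.target, (G z).re := by
      refine setIntegral_congr_fun ψ.open_target.measurableSet fun z hz => ?_
      by_cases h : z ∈ M
      · exact h1 z h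
      · rw [h2 z hz h, h3 z h]; rfl
    rw [e1, setIntegral_eq_integral_of_forall_compl_eq_zero (fun z hz => by
      rw [h3 z (fun h => hz (hMt h))]; rfl)]
    exact integral_re h4
  have hwa := continuous_mixCH hw i ha's
  have hwb := continuous_mixCH hw i hb's
  have cha0 : ∀ z, z ∉ M → CH a' z = 0 := fun z hz => by
    rw [CH_congr (haM z hz)]; exact CH_const 0 z
  rw [hrw (F := fun z => b (ψ.symm z) *
      (mixD (Function.update (fun j => H j (ψ.symm z)) i (hess a (ψ.symm z)))).re * wt ψ z)
      (G := fun z => (b' z : ℂ) * mixD (Function.update (fun j => CH (w j) z) i (CH a' z)))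
      ?_ ?_ ?_ ?_,
    hrw (F := fun z => a (ψ.symm z) *
      (mixD (Function.update (fun j => H j (ψ.symm z)) i (hess b (ψ.symm z)))).re * wt ψ z)
      (G := fun z => (a' z : ℂ) * mixD (Function.update (fun j => CH (w j) z) i (CH b' z)))
      ?_ ?_ ?_ ?_, loc_ibp hw i ha's hb's ha'c]
  · intro z hz
    have h := key hb z hz (hb't z hz)
    have h2 : a' z = a (ψ.symm z) := (hat z (hMt hz)).self_of_nhds
    simp only [Complex.re_ofReal_mul]
    rw [h, h2]
    ring
  · intro z hz hzM
    rw [hs _ (hML z hz hzM)]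
    simp
  · intro z hz
    rw [ha0 z hz]
    simp
  · refine Continuous.integrable_of_hasCompactSupport
      ((Complex.continuous_ofReal.comp ha's.continuous).mul hwb) ?_
    refine HasCompactSupport.intro hMc fun z hz => ?_
    rw [ha0 z hz]
    simp
  · intro z hz
    have h := key ha z hz (hat z (hMt hz))
    have h2 : b' z = b (ψ.symm z) := (hb't z hz).self_of_nhds
    simp only [Complex.re_ofReal_mul]
    rw [h, h2]
    ring
  · intro z hz hzM
    rw [hess_zero hL hs (hML z hz hzM), mixD_zero_entry]
    simp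
  · intro z hz
    rw [cha0 z hz, mixD_zero_entry]
    simp
  · refine Continuous.integrable_of_hasCompactSupport
      ((Complex.continuous_ofReal.comp hb's.continuous).mul hwa) ?_
    refine HasCompactSupport.intro hMc fun z hz => ?_
    rw [cha0 z hz, mixD_zero_entry]
    simp

end Pool.Agent.DMA
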