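import Pool.Agent.Lib.DMA.CRule

/-! # DMA, section C: integrals of densities, definition and linearity -/

set_option autoImplicit false

open scoped Manifold ContDiff Topology ComplexOrder
open Set Filter MeasureTheory

noncomputable section

namespace Pool.Agent.DMA

open Pool.Agent.K708 (E CMfd PUnit')

variable {n : ℕ} {X : CMfd n}

/-- Continuous densities. -/
def CD (R : X → ℝ) : Prop := ∀ φ ∈ CA X, ContinuousOn (fun z => R (φ.symm z) * wt φ z) φ.target

/-- The integral of a density. -/
def Int (P : PUnit' n X) (R : X → ℝ) : ℝ :=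
  ∑ k, ∫ z in (P.φ k).target,
    P.χ k ((P.φ k).symm z) * (R ((P.φ k).symm z) * wt (P.φ k) z)

theorem CD.add {R S : X → ℝ} (hR : CD R) (hS : CD S) : CD (fun x => R x + S x) := by
  intro φ hφ
  refine ((hR φ hφ).add (hS φ hφ)).congr fun z _ => ?_
  simp only [Pi.add_apply]
  ring

theorem CD.smul {R : X → ℝ} (hR : CD R) (c : ℝ) : CD (fun x => c * R x) := by
  intro φ hφ
  have h : ContinuousOn (fun z => c * (R (φ.symm z) * wt φ z)) φ.target :=
    continuousOn_const.mul (hR φ hφ)
  refine h.congr fun z _ => ?_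
  simp only
  ring

theorem CD.sub {R S : X → ℝ} (hR : CD R) (hS : CD S) : CD (fun x => R x - S x) := by
  intro φ hφ
  refine ((hR φ hφ).sub (hS φ hφ)).congr fun z _ => ?_
  simp only [Pi.sub_apply]
  ring

theorem CD.mul {R f : X → ℝ} (hR : CD R) (hf : Continuous f) : CD (fun x => f x * R x) := by
  intro φ hφ
  have h : ContinuousOn (fun z => f (φ.symm z) * (R (φ.symm z) * wt φ z)) φ.target :=
    (hf.comp_continuousOn φ.continuousOn_symm).mul (hR φ hφ)
  refine h.congr fun z _ => ?_
  simp only
  ring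

theorem CD.sum {ι : Type} (s : Finset ι) {R : ι → X → ℝ} (hR : ∀ i ∈ s, CD (R i)) :
    CD (fun x => ∑ i ∈ s, R i x) := by
  intro φ hφ
  have h : ContinuousOn (fun z => ∑ i ∈ s, R i (φ.symm z) * wt φ z) φ.target :=
    continuousOn_finsetSum s fun i hi => hR i hi φ hφ
  refine h.congr fun z _ => ?_
  simp only
  rw [Finset.sum_mul]

theorem integrable_term (hX : CompactSpace X) {R χ : X → ℝ} (hR : CD R) (hχ : Continuous χ)
    {φ : OpenPartialHomeomorph X (E n)} (hφ : φ ∈ CA X) (hs : tsupport χ ⊆ φ.source) :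
    IntegrableOn (fun z => χ (φ.symm z) * (R (φ.symm z) * wt φ z)) φ.target := by
  have hK : IsCompact (φ '' tsupport χ) :=
    (isClosed_tsupport χ).isCompact.image_of_continuousOn (φ.continuousOn.mono hs)
  have hKt : φ '' tsupport χ ⊆ φ.target := by
    rintro _ ⟨x, hx, rfl⟩
    exact φ.map_source (hs hx)
  have hcont : ContinuousOn (fun z => χ (φ.symm z) * (R (φ.symm z) * wt φ z)) φ.target :=
    (hχ.comp_continuousOn φ.continuousOn_symm).mul (hR φ hφ)
  have h1 : IntegrableOn (fun z => χ (φ.symm z) * (R (φ.symm z) * wt φ z)) (φ '' tsupport χ) :=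
    (hcont.mono hKt).integrableOn_compact hK
  have h2 : IntegrableOn (fun z => χ (φ.symm z) * (R (φ.symm z) * wt φ z))
      (φ.target \ φ '' tsupport χ) := by
    have hmeas : MeasurableSet (φ.target \ φ '' tsupport χ) :=
      φ.open_target.measurableSet.diff hK.isClosed.measurableSet
    have h0 : IntegrableOn (fun _ : E n => (0 : ℝ)) (φ.target \ φ '' tsupport χ) :=
      integrableOn_zero
    refine h0.congr_fun (fun z hz => ?_) hmeas
    have h3 : φ.symm z ∉ tsupport χ := fun h => hz.2 ⟨φ.symm z, h, φ.right_inv hz.1⟩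
    have h4 : χ (φ.symm z) = 0 := image_eq_zero_of_notMem_tsupport h3
    simp only [h4, zero_mul]
  have h5 : φ.target = φ '' tsupport χ ∪ φ.target \ φ '' tsupport χ :=
    (union_sdiff_cancel hKt).symm
  rw [h5]
  exact h1.union h2

theorem CIntAux.term (hX : CompactSpace X) (P : PUnit' n X) {R : X → ℝ} (hR : CD R)
    (k : Fin P.N) : IntegrableOn (fun z => P.χ k ((P.φ k).symm z)
      * (R ((P.φ k).symm z) * wt (P.φ k) z)) (P.φ k).target :=
  integrable_term hX hR (P.smooth k).continuous (P.mem k) (P.supp k)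

theorem Int_add (hX : CompactSpace X) (P : PUnit' n X) {R S : X → ℝ} (hR : CD R) (hS : CD S) :
    Int P (fun x => R x + S x) = Int P R + Int P S := by
  unfold Int
  rw [← Finset.sum_add_distrib]
  refine Finset.sum_congr rfl fun k _ => ?_
  rw [← integral_add (CIntAux.term hX P hR k) (CIntAux.term hX P hS k)]
  congr 1
  funext z
  ring

theorem Int_sub (hX : CompactSpace X) (P : PUnit' n X) {R S : X → ℝ} (hR : CD R) (hS : CD S) :
    Int P (fun x => R x - S x) = Int P R - Int P S := by
  unfold Int
  rw [← Finset.sum_sub_distrib]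
  refine Finset.sum_congr rfl fun k _ => ?_
  rw [← integral_sub (CIntAux.term hX P hR k) (CIntAux.term hX P hS k)]
  congr 1
  funext z
  ring

theorem CIntAux.zero (P : PUnit' n X) : Int P (fun _ => 0) = 0 := by
  unfold Int
  simp

theorem Int_sum (hX : CompactSpace X) (P : PUnit' n X) {ι : Type} (s : Finset ι) {R : ι → X → ℝ}
    (hR : ∀ i ∈ s, CD (R i)) : Int P (fun x => ∑ i ∈ s, R i x) = ∑ i ∈ s, Int P (R i) := by
  classical
  induction s using Finset.induction_on with
  | empty => simpa using CIntAux.zero P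
  | insert a s ha ih =>
    have h1 : (fun x => ∑ i ∈ insert a s, R i x) = fun x => R a x + ∑ i ∈ s, R i x := by
      funext x
      rw [Finset.sum_insert ha]
    rw [h1, Int_add hX P (hR a (Finset.mem_insert_self a s))
      (CD.sum s fun i hi => hR i (Finset.mem_insert_of_mem hi)),
      ih fun i hi => hR i (Finset.mem_insert_of_mem hi), Finset.sum_insert ha]

theorem Int_smul (P : PUnit' n X) (c : ℝ) (R : X → ℝ) :
    Int P (fun x => c * R x) = c * Int P R := by
  unfold Int
  rw [Finset.mul_sum]
  refine Finset.sum_congr rfl fun k _ => ?_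
  rw [← integral_const_mul]
  congr 1
  funext z
  ring

theorem Int_nonneg (P : PUnit' n X) {R : X → ℝ} (h : ∀ x, 0 ≤ R x) : 0 ≤ Int P R := by
  unfold Int
  refine Finset.sum_nonneg fun k _ => integral_nonneg fun z => ?_
  have h1 : 0 ≤ wt (P.φ k) z := by
    unfold wt
    positivity
  exact mul_nonneg (P.nonneg k _) (mul_nonneg (h _) h1)

end Pool.Agent.DMA
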