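import Pool.Agent.Lib.DMA.CWirt

/-! # DMA, section C: integration by parts for Jacobian determinants -/

set_option autoImplicit false

open scoped ContDiff Topology ComplexOrder
open Set Filter MeasureTheory

noncomputable section

namespace Pool.Agent.DMA

open Pool.Agent.K708 (E)

variable {n : ℕ}

/-- `det (∂_k v_j)`. -/
def jd (v : Fin n → E n → ℂ) (z : E n) : ℂ :=
  ∑ σ : Equiv.Perm (Fin n), ((Equiv.Perm.sign σ : ℤ) : ℂ) * ∏ j, wd (σ j) (v j) z

/-- `det (∂bar_k v_j)`. -/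
def jb (v : Fin n → E n → ℂ) (z : E n) : ℂ :=
  ∑ σ : Equiv.Perm (Fin n), ((Equiv.Perm.sign σ : ℤ) : ℂ) * ∏ j, wb (σ j) (v j) z

namespace CJacAux

/-- a commuting family of derivations with vanishing integrals -/
structure Der (d : Fin n → (E n → ℂ) → E n → ℂ) : Prop where
  smooth : ∀ (F : E n → ℂ), ContDiff ℝ ∞ F → ∀ j, ContDiff ℝ ∞ (d j F)
  mul : ∀ (F G : E n → ℂ), ContDiff ℝ ∞ F → ContDiff ℝ ∞ G → ∀ j z,
    d j (fun w => F w * G w) z = F z * d j G z + G z * d j F z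
  prod : ∀ (s : Finset (Fin n)) (F : Fin n → E n → ℂ), (∀ i, ContDiff ℝ ∞ (F i)) → ∀ j z,
    d j (fun w => ∏ i ∈ s, F i w) z = ∑ i ∈ s, d j (F i) z * ∏ l ∈ s.erase i, F l z
  comm : ∀ (F : E n → ℂ), ContDiff ℝ ∞ F → ∀ j k z, d j (d k F) z = d k (d j F) z
  supp : ∀ (F : E n → ℂ), HasCompactSupport F → ∀ j, HasCompactSupport (d j F)
  int : ∀ (F : E n → ℂ), ContDiff ℝ ∞ F → HasCompactSupport F → ∀ j, ∫ z, d j F z = 0

/-- the Jacobian determinant of a family of derivations -/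
def J (d : Fin n → (E n → ℂ) → E n → ℂ) (v : Fin n → E n → ℂ) (z : E n) : ℂ :=
  ∑ σ : Equiv.Perm (Fin n), ((Equiv.Perm.sign σ : ℤ) : ℂ) * ∏ j, d (σ j) (v j) z

variable {d : Fin n → (E n → ℂ) → E n → ℂ}

lemma J_update (v : Fin n → E n → ℂ) (i : Fin n) (F : E n → ℂ) (z : E n) :
    J d (Function.update v i F) z = ∑ σ : Equiv.Perm (Fin n), ((Equiv.Perm.sign σ : ℤ) : ℂ) *
      (d (σ i) F z * ∏ j ∈ Finset.univ.erase i, d (σ j) (v j) z) := by
  unfold J
  refine Finset.sum_congr rfl fun σ _ => ?_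
  rw [← Finset.mul_prod_erase Finset.univ (fun j => d (σ j) (Function.update v i F j) z)
    (Finset.mem_univ i), Function.update_self]
  congr 2
  refine Finset.prod_congr rfl fun j hj => ?_
  rw [Function.update_of_ne (Finset.ne_of_mem_erase hj)]

lemma J_mul (hd : Der d) (v : Fin n → E n → ℂ) (i : Fin n) {F G : E n → ℂ}
    (hF : ContDiff ℝ ∞ F) (hG : ContDiff ℝ ∞ G) (z : E n) :
    J d (Function.update v i (fun w => F w * G w)) z =
      G z * J d (Function.update v i F) z + F z * J d (Function.update v i G) z := by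
  rw [J_update, J_update, J_update, Finset.mul_sum, Finset.mul_sum, ← Finset.sum_add_distrib]
  refine Finset.sum_congr rfl fun σ _ => ?_
  rw [hd.mul F G hF hG]
  ring

lemma sum_zero (hd : Der d) {v : Fin n → E n → ℂ} (hv : ∀ j, ContDiff ℝ ∞ (v j)) (i : Fin n)
    (z : E n) :
    ∑ σ : Equiv.Perm (Fin n), ((Equiv.Perm.sign σ : ℤ) : ℂ) *
      ∑ l ∈ Finset.univ.erase i, d (σ i) (d (σ l) (v l)) z *
        ∏ j ∈ (Finset.univ.erase i).erase l, d (σ j) (v j) z = 0 := by
  simp only [Finset.mul_sum]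
  rw [Finset.sum_comm]
  refine Finset.sum_eq_zero fun l hl => ?_
  have hli : l ≠ i := Finset.ne_of_mem_erase hl
  set f : Equiv.Perm (Fin n) → ℂ := fun σ => ((Equiv.Perm.sign σ : ℤ) : ℂ) *
    (d (σ i) (d (σ l) (v l)) z * ∏ j ∈ (Finset.univ.erase i).erase l, d (σ j) (v j) z) with hf
  have h1 : ∑ σ : Equiv.Perm (Fin n), f σ = ∑ σ : Equiv.Perm (Fin n), f (σ * Equiv.swap i l) :=
    (Equiv.sum_comp (Equiv.mulRight (Equiv.swap i l)) f).symm
  have h2 : ∀ σ : Equiv.Perm (Fin n), f (σ * Equiv.swap i l) = - f σ := by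
    intro σ
    simp only [hf]
    have h3 : (σ * Equiv.swap i l) i = σ l := by
      rw [Equiv.Perm.mul_apply, Equiv.swap_apply_left]
    have h4 : (σ * Equiv.swap i l) l = σ i := by
      rw [Equiv.Perm.mul_apply, Equiv.swap_apply_right]
    have h5 : ∏ j ∈ (Finset.univ.erase i).erase l, d ((σ * Equiv.swap i l) j) (v j) z
        = ∏ j ∈ (Finset.univ.erase i).erase l, d (σ j) (v j) z := by
      refine Finset.prod_congr rfl fun j hj => ?_
      have hjl : j ≠ l := Finset.ne_of_mem_erase hj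
      have hji : j ≠ i := Finset.ne_of_mem_erase (Finset.mem_of_mem_erase hj)
      rw [Equiv.Perm.mul_apply, Equiv.swap_apply_of_ne_of_ne hji hjl]
    rw [h3, h4, h5, Equiv.Perm.sign_mul, Equiv.Perm.sign_swap hli.symm, hd.comm _ (hv l)]
    push_cast
    ring
  have h3 : ∑ σ : Equiv.Perm (Fin n), f σ = - ∑ σ : Equiv.Perm (Fin n), f σ := by
    rw [← Finset.sum_neg_distrib]
    conv_lhs => rw [h1]
    exact Finset.sum_congr rfl fun σ _ => h2 σ
  exact self_eq_neg.1 h3

lemma prod_smooth (hd : Der d) {v : Fin n → E n → ℂ} (hv : ∀ j, ContDiff ℝ ∞ (v j))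
    (s : Finset (Fin n)) (σ : Equiv.Perm (Fin n)) :
    ContDiff ℝ ∞ (fun z => ∏ j ∈ s, d (σ j) (v j) z) :=
  contDiff_prod fun j _ => hd.smooth _ (hv j) _

/-- the Jacobian determinant as a sum of derivatives -/
lemma J_eq (hd : Der d) {v : Fin n → E n → ℂ} (hv : ∀ j, ContDiff ℝ ∞ (v j)) (i : Fin n)
    {F : E n → ℂ} (hF : ContDiff ℝ ∞ F) (z : E n) :
    J d (Function.update v i F) z = ∑ σ : Equiv.Perm (Fin n), ((Equiv.Perm.sign σ : ℤ) : ℂ) *
      d (σ i) (fun w => F w * ∏ j ∈ Finset.univ.erase i, d (σ j) (v j) w) z := by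
  have h1 : ∀ σ : Equiv.Perm (Fin n),
      d (σ i) (fun w => F w * ∏ j ∈ Finset.univ.erase i, d (σ j) (v j) w) z
      = d (σ i) F z * ∏ j ∈ Finset.univ.erase i, d (σ j) (v j) z
        + F z * ∑ l ∈ Finset.univ.erase i, d (σ i) (d (σ l) (v l)) z *
          ∏ j ∈ (Finset.univ.erase i).erase l, d (σ j) (v j) z := by
    intro σ
    rw [hd.mul _ _ hF (prod_smooth hd hv _ σ),
      hd.prod _ (fun j => d (σ j) (v j)) (fun j => hd.smooth _ (hv j) _)]
    ring
  have h2 := sum_zero hd hv i z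
  rw [J_update]
  have h3 : ∑ σ : Equiv.Perm (Fin n), ((Equiv.Perm.sign σ : ℤ) : ℂ) *
      d (σ i) (fun w => F w * ∏ j ∈ Finset.univ.erase i, d (σ j) (v j) w) z
      = ∑ σ : Equiv.Perm (Fin n), ((Equiv.Perm.sign σ : ℤ) : ℂ) *
        (d (σ i) F z * ∏ j ∈ Finset.univ.erase i, d (σ j) (v j) z)
        + F z * ∑ σ : Equiv.Perm (Fin n), ((Equiv.Perm.sign σ : ℤ) : ℂ) *
          ∑ l ∈ Finset.univ.erase i, d (σ i) (d (σ l) (v l)) z *
          ∏ j ∈ (Finset.univ.erase i).erase l, d (σ j) (v j) z := by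
    rw [Finset.mul_sum, ← Finset.sum_add_distrib]
    refine Finset.sum_congr rfl fun σ _ => ?_
    rw [h1 σ]
    ring
  rw [h3, h2, mul_zero, add_zero]

lemma integral_J (hd : Der d) {v : Fin n → E n → ℂ} (hv : ∀ j, ContDiff ℝ ∞ (v j)) (i : Fin n)
    {F : E n → ℂ} (hF : ContDiff ℝ ∞ F) (hc : HasCompactSupport F) :
    ∫ z, J d (Function.update v i F) z = 0 := by
  have h1 : ∀ σ : Equiv.Perm (Fin n), ContDiff ℝ ∞
      (fun w => F w * ∏ j ∈ Finset.univ.erase i, d (σ j) (v j) w) :=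
    fun σ => hF.mul (prod_smooth hd hv _ σ)
  have h2 : ∀ σ : Equiv.Perm (Fin n), HasCompactSupport
      (fun w => F w * ∏ j ∈ Finset.univ.erase i, d (σ j) (v j) w) := fun σ => hc.mul_right
  simp only [J_eq hd hv i hF]
  rw [integral_finsetSum]
  · refine Finset.sum_eq_zero fun σ _ => ?_
    rw [integral_const_mul, hd.int _ (h1 σ) (h2 σ), mul_zero]
  · intro σ _
    exact (((hd.smooth _ (h1 σ) _).continuous).integrable_of_hasCompactSupport
      (hd.supp _ (h2 σ) _)).const_mul _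

lemma J_smooth (hd : Der d) {v : Fin n → E n → ℂ} (hv : ∀ j, ContDiff ℝ ∞ (v j)) :
    ContDiff ℝ ∞ (J d v) := by
  unfold J
  exact ContDiff.sum fun σ _ => contDiff_const.mul (prod_smooth hd hv _ σ)

lemma update_smooth {v : Fin n → E n → ℂ} (hv : ∀ j, ContDiff ℝ ∞ (v j)) (i : Fin n)
    {F : E n → ℂ} (hF : ContDiff ℝ ∞ F) (j : Fin n) :
    ContDiff ℝ ∞ (Function.update v i F j) := by
  by_cases h : j = i
  · rw [h, Function.update_self]
    exact hF
  · rw [Function.update_of_ne h]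
    exact hv j

lemma J_supp (hd : Der d) (v : Fin n → E n → ℂ) (i : Fin n)
    {F : E n → ℂ} (hc : HasCompactSupport F) :
    HasCompactSupport (J d (Function.update v i F)) := by
  have h1 : J d (Function.update v i F) = fun z => ∑ σ : Equiv.Perm (Fin n),
      ((Equiv.Perm.sign σ : ℤ) : ℂ) *
      (d (σ i) F z * ∏ j ∈ Finset.univ.erase i, d (σ j) (v j) z) := by
    funext z
    exact J_update v i F z
  rw [h1]
  refine HasCompactSupport.intro (K := ⋃ k : Fin n, tsupport (d k F)) ?_ ?_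
  · exact isCompact_iUnion fun k => hd.supp F hc k
  · intro z hz
    refine Finset.sum_eq_zero fun σ _ => ?_
    have h2 : d (σ i) F z = 0 := by
      by_contra h
      exact hz (Set.mem_iUnion.2 ⟨σ i, subset_tsupport _ h⟩)
    rw [h2, zero_mul, mul_zero]

theorem J_ibp (hd : Der d) {v : Fin n → E n → ℂ} (hv : ∀ j, ContDiff ℝ ∞ (v j)) (i : Fin n)
    {F G : E n → ℂ} (hF : ContDiff ℝ ∞ F) (hG : ContDiff ℝ ∞ G) (hc : HasCompactSupport F) :
    ∫ z, G z * J d (Function.update v i F) z = - ∫ z, F z * J d (Function.update v i G) z := by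
  have h1 := integral_J hd hv i (hF.mul hG) (F := fun w => F w * G w) hc.mul_right
  simp only [J_mul hd v i hF hG] at h1
  have hi1 : Integrable (fun z => G z * J d (Function.update v i F) z) :=
    (hG.continuous.mul (J_smooth hd (update_smooth hv i hF)).continuous).integrable_of_hasCompactSupport
      (J_supp hd v i hc).mul_left
  have hi2 : Integrable (fun z => F z * J d (Function.update v i G) z) :=
    (hF.continuous.mul (J_smooth hd (update_smooth hv i hG)).continuous).integrable_of_hasCompactSupport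
      hc.mul_right
  rw [integral_add hi1 hi2] at h1
  exact eq_neg_of_add_eq_zero_left h1

lemma der_wd : Der (n := n) wd where
  smooth _ hF j := wd_smooth hF j
  mul _ _ hF hG j z := wd_mul hF hG j z
  prod s _ hF j z := wd_prod s hF j z
  comm _ hF j k z := wd_comm hF j k z
  supp _ hc j := wd_supp hc j
  int _ hF hc j := integral_wd hF hc j

lemma der_wb : Der (n := n) wb where
  smooth _ hF j := wb_smooth hF j
  mul _ _ hF hG j z := wb_mul hF hG j z
  prod s _ hF j z := wb_prod s hF j z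
  comm _ hF j k z := wb_comm hF j k z
  supp _ hc j := wb_supp hc j
  int _ hF hc j := integral_wb hF hc j

end CJacAux

theorem jd_ibp {v : Fin n → E n → ℂ} (hv : ∀ j, ContDiff ℝ ∞ (v j)) (i : Fin n) {F G : E n → ℂ}
    (hF : ContDiff ℝ ∞ F) (hG : ContDiff ℝ ∞ G) (hc : HasCompactSupport F) :
    ∫ z, G z * jd (Function.update v i F) z = - ∫ z, F z * jd (Function.update v i G) z :=
  CJacAux.J_ibp CJacAux.der_wd hv i hF hG hc

theorem jb_ibp {v : Fin n → E n → ℂ} (hv : ∀ j, ContDiff ℝ ∞ (v j)) (i : Fin n) {F G : E n → ℂ}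
    (hF : ContDiff ℝ ∞ F) (hG : ContDiff ℝ ∞ G) (hc : HasCompactSupport F) :
    ∫ z, G z * jb (Function.update v i F) z = - ∫ z, F z * jb (Function.update v i G) z :=
  CJacAux.J_ibp CJacAux.der_wb hv i hF hG hc

end Pool.Agent.DMA
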