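import Pool.Agent.Lib.DMA.Defs

/-! # DMA, section C: rules for the complex Hessian -/

set_option autoImplicit false

open scoped ContDiff Topology ComplexOrder
open Set Filter

noncomputable section

namespace Pool.Agent.DMA

open Pool.Agent.K708 (E)

variable {n : ℕ}

/-- The Hermitian matrix of a real bilinear form. -/
def cH (B : E n →L[ℝ] E n →L[ℝ] ℝ) : Matrix (Fin n) (Fin n) ℂ := fun j k =>
  ((B (Pi.single j 1) (Pi.single k 1) : ℂ)
    + (B (Complex.I • Pi.single j 1) (Complex.I • Pi.single k 1) : ℂ)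
    + Complex.I * ((B (Pi.single j 1) (Complex.I • Pi.single k 1) : ℂ)
      - (B (Complex.I • Pi.single j 1) (Pi.single k 1) : ℂ))) / 4

theorem CH_eq (f : E n → ℝ) (z : E n) : CH f z = cH (D2 f z) := rfl

theorem cH_add (B C : E n →L[ℝ] E n →L[ℝ] ℝ) : cH (B + C) = cH B + cH C := by
  ext j k
  rw [Matrix.add_apply]
  simp only [cH, add_apply]
  push_cast
  ring

theorem cH_smul (c : ℝ) (B : E n →L[ℝ] E n →L[ℝ] ℝ) : cH (c • B) = (c : ℂ) • cH B := by
  ext j k
  rw [Matrix.smul_apply]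
  simp only [cH, smul_apply, smul_eq_mul]
  push_cast
  ring

theorem cH_zero : cH (0 : E n →L[ℝ] E n →L[ℝ] ℝ) = 0 := by
  ext j k
  rw [Matrix.zero_apply]
  simp only [cH, zero_apply]
  push_cast
  ring

theorem continuous_cH : Continuous (cH (n := n)) := by
  refine continuous_pi fun j => continuous_pi fun k => ?_
  have h : ∀ u v : E n, Continuous fun B : E n →L[ℝ] E n →L[ℝ] ℝ => ((B u v : ℝ) : ℂ) :=
    fun u v => Complex.continuous_ofReal.comp
      (((ContinuousLinearMap.apply ℝ ℝ v).comp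
        (ContinuousLinearMap.apply ℝ (E n →L[ℝ] ℝ) u)).continuous)
  unfold cH
  exact ((((h _ _).add (h _ _)).add (continuous_const.mul ((h _ _).sub (h _ _))))).div_const _

theorem cH_herm {B : E n →L[ℝ] E n →L[ℝ] ℝ} (hB : ∀ u v, B u v = B v u) :
    (cH B).IsHermitian := by
  ext j k
  rw [Matrix.conjTranspose_apply, cH, cH]
  simp only [star_div₀, star_add, star_mul', star_sub, Complex.star_def, Complex.conj_ofReal,
    Complex.conj_I, map_ofNat]
  rw [hB (Pi.single k 1) (Pi.single j 1), hB (Complex.I • Pi.single k 1) (Complex.I • Pi.single j 1),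
    hB (Pi.single k 1) (Complex.I • Pi.single j 1), hB (Complex.I • Pi.single k 1) (Pi.single j 1)]
  ring

namespace CLinAux

theorem D2_congr {f g : E n → ℝ} {z : E n} (h : f =ᶠ[𝓝 z] g) : D2 f z = D2 g z :=
  h.fderiv.fderiv_eq

theorem ev_diff {f : E n → ℝ} {z : E n} (hf : ContDiffAt ℝ 2 f z) :
    ∀ᶠ w in 𝓝 z, DifferentiableAt ℝ f w :=
  (hf.eventually (by simp)).mono fun _ hw => hw.differentiableAt (by norm_num)

theorem diff_fderiv {f : E n → ℝ} {z : E n} (hf : ContDiffAt ℝ 2 f z) :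
    DifferentiableAt ℝ (fderiv ℝ f) z :=
  (hf.fderiv_right (m := 1) (by norm_num)).differentiableAt (by norm_num)

theorem D2_add {f g : E n → ℝ} {z : E n} (hf : ContDiffAt ℝ 2 f z) (hg : ContDiffAt ℝ 2 g z) :
    D2 (fun w => f w + g w) z = D2 f z + D2 g z := by
  have h1 : fderiv ℝ (fun w => f w + g w) =ᶠ[𝓝 z] fun w => fderiv ℝ f w + fderiv ℝ g w := by
    filter_upwards [ev_diff hf, ev_diff hg] with w h1 h2
    exact fderiv_fun_add h1 h2
  rw [D2, h1.fderiv_eq, fderiv_fun_add (diff_fderiv hf) (diff_fderiv hg)]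
  rfl

theorem D2_smul (c : ℝ) {f : E n → ℝ} {z : E n} (hf : ContDiffAt ℝ 2 f z) :
    D2 (fun w => c * f w) z = c • D2 f z := by
  have h1 : fderiv ℝ (fun w => c * f w) =ᶠ[𝓝 z] fun w => c • fderiv ℝ f w := by
    filter_upwards [ev_diff hf] with w h1
    exact fderiv_const_mul h1 c
  rw [D2, h1.fderiv_eq, fderiv_fun_const_smul (diff_fderiv hf)]
  rfl

end CLinAux

open CLinAux

theorem CH_congr {f g : E n → ℝ} {z : E n} (h : f =ᶠ[𝓝 z] g) : CH f z = CH g z := by
  rw [CH_eq, CH_eq, D2_congr h]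

theorem CH_add {f g : E n → ℝ} {z : E n} (hf : ContDiffAt ℝ 2 f z) (hg : ContDiffAt ℝ 2 g z) :
    CH (fun w => f w + g w) z = CH f z + CH g z := by
  rw [CH_eq, CH_eq, CH_eq, D2_add hf hg, cH_add]

theorem CH_smul (c : ℝ) {f : E n → ℝ} {z : E n} (hf : ContDiffAt ℝ 2 f z) :
    CH (fun w => c * f w) z = (c : ℂ) • CH f z := by
  rw [CH_eq, CH_eq, D2_smul c hf, cH_smul]

theorem CH_addc (f : E n → ℝ) (c : ℝ) (z : E n) : CH (fun w => f w + c) z = CH f z := by
  have h : fderiv ℝ (fun w => f w + c) = fderiv ℝ f := by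
    funext w
    exact fderiv_add_const c
  rw [CH_eq, CH_eq, D2, D2, h]

theorem CH_const (c : ℝ) (z : E n) : CH (fun _ => c) z = 0 := by
  have h : fderiv ℝ (fun _ : E n => c) = fun _ => 0 := by
    funext w
    exact fderiv_const_apply c
  rw [CH_eq, D2, h, fderiv_const_apply, cH_zero]

theorem CH_herm {f : E n → ℝ} {z : E n} (hf : ContDiffAt ℝ 2 f z) : (CH f z).IsHermitian := by
  rw [CH_eq]
  refine cH_herm fun u v => ?_
  exact (hf.isSymmSndFDerivAt (by simp)).eq u v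

theorem CH_contDiffOn {Ω : Set (E n)} (hΩ : IsOpen Ω) {f : E n → ℝ} (hf : ContDiffOn ℝ ∞ f Ω)
    (j k : Fin n) : ContDiffOn ℝ ∞ (fun z => CH f z j k) Ω := by
  have h1 : ContDiffOn ℝ ∞ (fderiv ℝ f) Ω := hf.fderiv_of_isOpen hΩ (by simp)
  have h2 : ContDiffOn ℝ ∞ (fderiv ℝ (fderiv ℝ f)) Ω := h1.fderiv_of_isOpen hΩ (by simp)
  have h3 : ∀ u v : E n, ContDiffOn ℝ ∞ (fun z => ((D2 f z u v : ℝ) : ℂ)) Ω := fun u v =>
    Complex.ofRealCLM.contDiff.comp_contDiffOn ((h2.clm_apply contDiffOn_const).clm_apply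
      contDiffOn_const)
  simp only [CH_D2]
  exact ((((h3 _ _).add (h3 _ _)).add (contDiffOn_const.mul ((h3 _ _).sub (h3 _ _))))).div_const _

theorem CH_continuousOn {Ω : Set (E n)} (hΩ : IsOpen Ω) {f : E n → ℝ}
    (hf : ContDiffOn ℝ ∞ f Ω) : ContinuousOn (CH f) Ω := by
  refine continuousOn_pi.2 fun j => continuousOn_pi.2 fun k => ?_
  exact (CH_contDiffOn hΩ hf j k).continuousOn

end Pool.Agent.DMA
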