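import Pool.Agent.Lib.DMA.CInt

/-! # DMA, section C: the measure of a density -/

set_option autoImplicit false

open scoped Manifold ContDiff Topology ComplexOrder CompactlySupported
open Set Filter MeasureTheory

noncomputable section

namespace Pool.Agent.DMA

open Pool.Agent.K708 (E CMfd PUnit')

variable {n : ℕ} {X : CMfd n}

theorem exists_meas (hX : CompactSpace X) (P : PUnit' n X) {R : X → ℝ} (hR : CD R)
    (h0 : ∀ x, 0 ≤ R x) : ∃ μ : Measure X, IsFiniteMeasure μ ∧
      ∀ f : X → ℝ, Continuous f → ∫ x, f x ∂μ = Int P (fun x => f x * R x) := by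
  have : LocallyCompactSpace X := ChartedSpace.locallyCompactSpace (E n) X
  let Λ : C_c(X, ℝ) →ₚ[ℝ] ℝ := PositiveLinearMap.mk₀
    { toFun := fun f => Int P (fun x => f x * R x)
      map_add' := by
        intro f g
        have h1 := Int_add hX P (hR.mul (map_continuous f)) (hR.mul (map_continuous g))
        refine Eq.trans ?_ h1
        congr 1
        funext x
        rw [CompactlySupportedContinuousMap.coe_add, Pi.add_apply, add_mul]
      map_smul' := by
        intro c f
        rw [RingHom.id_apply, smul_eq_mul, ← Int_smul]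
        congr 1
        funext x
        rw [CompactlySupportedContinuousMap.coe_smul, Pi.smul_apply, smul_eq_mul, mul_assoc] }
    (by
      intro f hf
      exact Int_nonneg P fun x => mul_nonneg (hf x) (h0 x))
  have hΛ : ∀ f : C_c(X, ℝ), Λ f = Int P (fun x => f x * R x) := fun f => rfl
  have hfin : IsFiniteMeasure (RealRMK.rieszMeasure Λ) := by
    refine ⟨?_⟩
    have h1 := RealRMK.rieszMeasure_le_of_eq_one Λ (f := (⟨ContinuousMap.const X 1,
      HasCompactSupport.of_compactSpace _⟩ : C_c(X, ℝ))) (fun x => zero_le_one)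
      (K := univ) isCompact_univ (fun x _ => rfl)
    exact h1.trans_lt ENNReal.ofReal_lt_top
  refine ⟨RealRMK.rieszMeasure Λ, hfin, fun f hf => ?_⟩
  have h2 := RealRMK.integral_rieszMeasure Λ (⟨⟨f, hf⟩,
      HasCompactSupport.of_compactSpace _⟩ : C_c(X, ℝ))
  rw [hΛ] at h2
  exact h2

/-- Finite measures with the same integrals of continuous functions are equal. -/
theorem meas_ext (hX : CompactSpace X) {μ ν : Measure X} (hμ : IsFiniteMeasure μ)
    (hν : IsFiniteMeasure ν) (h : ∀ f : X → ℝ, Continuous f → ∫ x, f x ∂μ = ∫ x, f x ∂ν) :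
    μ = ν := by
  have : TopologicalSpace.MetrizableSpace X := TopologicalSpace.metrizableSpace_of_t3_secondCountable X
  exact ext_of_forall_integral_eq_of_IsFiniteMeasure fun f => h f f.continuous

end Pool.Agent.DMA
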