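import Pool.Agent.Lib.DMA.Mix

/-! # DMA, section C: mixed discriminants of positive semidefinite matrices -/

set_option autoImplicit false

open scoped ContDiff Topology ComplexOrder
open Set Filter

noncomputable section

namespace Pool.Agent.DMA

open Pool.Agent.K708 (E)

variable {n : ℕ}

theorem mixD_nonneg {H : Fin n → Matrix (Fin n) (Fin n) ℂ} (h : ∀ i, (H i).PosSemidef) :
    0 ≤ (mixD H).re := by
  choose m v hv using fun i => Matrix.posSemidef_iff_eq_sum_vecMulVec.1 (h i)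
  have hH : ∀ i p q, H i p q = ∑ a : Fin (m i), v i a p * (starRingEnd ℂ) (v i a q) := by
    intro i p q
    rw [hv i, Matrix.sum_apply]
    rfl
  have key : (∑ σ : Equiv.Perm (Fin n), ∑ τ : Equiv.Perm (Fin n),
      ((Equiv.Perm.sign σ : ℤ) : ℂ) * ((Equiv.Perm.sign τ : ℤ) : ℂ) * ∏ i, H i (σ i) (τ i)) =
      ∑ x ∈ Fintype.piFinset (fun i => (Finset.univ : Finset (Fin (m i)))),
        (∑ σ : Equiv.Perm (Fin n), ((Equiv.Perm.sign σ : ℤ) : ℂ) * ∏ i, v i (x i) (σ i)) *
          (starRingEnd ℂ) (∑ σ : Equiv.Perm (Fin n), ((Equiv.Perm.sign σ : ℤ) : ℂ) *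
            ∏ i, v i (x i) (σ i)) := by
    have h1 : ∀ σ τ : Equiv.Perm (Fin n), ((Equiv.Perm.sign σ : ℤ) : ℂ) *
        ((Equiv.Perm.sign τ : ℤ) : ℂ) * ∏ i, H i (σ i) (τ i) =
        ∑ x ∈ Fintype.piFinset (fun i => (Finset.univ : Finset (Fin (m i)))),
          (((Equiv.Perm.sign σ : ℤ) : ℂ) * ∏ i, v i (x i) (σ i)) *
            (((Equiv.Perm.sign τ : ℤ) : ℂ) * ∏ i, (starRingEnd ℂ) (v i (x i) (τ i))) := by
      intro σ τ
      simp only [hH]
      rw [Finset.prod_univ_sum, Finset.mul_sum]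
      refine Finset.sum_congr rfl fun x _ => ?_
      rw [Finset.prod_mul_distrib]
      ring
    simp only [h1]
    rw [Finset.sum_congr rfl fun σ _ => Finset.sum_comm, Finset.sum_comm]
    refine Finset.sum_congr rfl fun x _ => ?_
    rw [map_sum, Finset.sum_mul]
    refine Finset.sum_congr rfl fun σ _ => ?_
    rw [Finset.mul_sum]
    refine Finset.sum_congr rfl fun τ _ => ?_
    rw [map_mul, map_prod, map_intCast]
  unfold mixD
  rw [key, ← Complex.ofReal_natCast, Complex.div_ofReal_re, Complex.re_sum]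
  refine div_nonneg (Finset.sum_nonneg fun x _ => ?_) (Nat.cast_nonneg _)
  rw [Complex.mul_conj, Complex.ofReal_re]
  exact Complex.normSq_nonneg _

end Pool.Agent.DMA
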