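import Pool.Agent.Lib.DMA.CFld

/-! # DMA, section C: small multiples of smooth functions are `ω`-psh -/

set_option autoImplicit false

open scoped Manifold ContDiff Topology ComplexOrder
open Set Filter MeasureTheory

noncomputable section

namespace Pool.Agent.DMA

open Pool.Agent.K708 (E CMfd PUnit')

variable {n : ℕ} {X : CMfd n}

namespace CScaleAux

/-- The real quadratic form of a matrix. -/
def quad (M : Matrix (Fin n) (Fin n) ℂ) (v : E n) : ℝ := (star v ⬝ᵥ (M.mulVec v)).re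

theorem quad_smul (M : Matrix (Fin n) (Fin n) ℂ) (r : ℝ) (v : E n) :
    quad M ((r : ℂ) • v) = r ^ 2 * quad M v := by
  unfold quad
  rw [Matrix.mulVec_smul, star_smul, smul_dotProduct, dotProduct_smul, smul_smul]
  have e : (star (r : ℂ) * (r : ℂ)) = ((r ^ 2 : ℝ) : ℂ) := by
    simp [sq]
  rw [e, smul_eq_mul, Complex.re_ofReal_mul]

theorem continuous_quad :
    Continuous fun q : Matrix (Fin n) (Fin n) ℂ × E n => quad q.1 q.2 := by
  unfold quad
  refine Complex.continuous_re.comp ?_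
  refine Continuous.dotProduct ?_ ?_
  · exact continuous_star.comp continuous_snd
  · exact Continuous.matrix_mulVec continuous_fst continuous_snd

theorem psd_of_quad {M : Matrix (Fin n) (Fin n) ℂ} (hM : M.IsHermitian)
    (h : ∀ v : E n, ‖v‖ = 1 → 0 < quad M v) : M.PosSemidef := by
  rw [Matrix.posSemidef_iff_dotProduct_mulVec]
  refine ⟨hM, fun x => ?_⟩
  have him := hM.im_star_dotProduct_mulVec_self x
  have hre : 0 ≤ quad M x := by
    by_cases hx : x = 0
    · rw [hx]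
      simp [quad]
    · have hn : ‖x‖ ≠ 0 := norm_ne_zero_iff.2 hx
      have e : x = ((‖x‖ : ℝ) : ℂ) • (((‖x‖⁻¹ : ℝ) : ℂ) • x) := by
        rw [smul_smul, ← Complex.ofReal_mul, mul_inv_cancel₀ hn, Complex.ofReal_one, one_smul]
      rw [e, quad_smul]
      refine mul_nonneg (sq_nonneg _) (h _ ?_).le
      rw [norm_smul, Complex.norm_real, norm_inv, norm_norm, inv_mul_cancel₀ hn]
  rw [Complex.le_def]
  refine ⟨?_, ?_⟩
  · simpa [quad] using hre
  · have : (star x ⬝ᵥ (M.mulVec x)).im = 0 := by simpa using him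
    rw [this]
    rfl

theorem eventually_psd {A B : E n → Matrix (Fin n) (Fin n) ℂ} {z : E n}
    (hA : ContinuousAt A z) (hB : ContinuousAt B z)
    (hAh : ∀ᶠ y in 𝓝 z, (A y).IsHermitian) (hBh : ∀ᶠ y in 𝓝 z, (B y).IsHermitian)
    (hp : (A z).PosDef) :
    ∀ᶠ p in 𝓝 ((z, 0) : E n × ℝ), (A p.1 + (p.2 : ℂ) • B p.1).PosSemidef := by
  have hcont : ∀ v : E n, ContinuousAt (fun q : (E n × ℝ) × E n =>
      quad (A q.1.1 + (q.1.2 : ℂ) • B q.1.1) q.2) ((z, 0), v) := by
    intro v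
    have h1 : ContinuousAt (fun q : (E n × ℝ) × E n => A q.1.1) ((z, 0), v) :=
      ContinuousAt.comp (f := fun q : (E n × ℝ) × E n => q.1.1) (g := A) hA
        (by fun_prop)
    have h2 : ContinuousAt (fun q : (E n × ℝ) × E n => B q.1.1) ((z, 0), v) :=
      ContinuousAt.comp (f := fun q : (E n × ℝ) × E n => q.1.1) (g := B) hB
        (by fun_prop)
    have h3 : ContinuousAt (fun q : (E n × ℝ) × E n => (q.1.2 : ℂ)) ((z, 0), v) := by
      fun_prop
    have h4 : ContinuousAt (fun q : (E n × ℝ) × E n =>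
        (A q.1.1 + (q.1.2 : ℂ) • B q.1.1, q.2)) ((z, 0), v) :=
      (h1.add (h3.smul h2)).prodMk continuousAt_snd
    exact ContinuousAt.comp (f := fun q : (E n × ℝ) × E n =>
        (A q.1.1 + (q.1.2 : ℂ) • B q.1.1, q.2))
      (g := fun q : Matrix (Fin n) (Fin n) ℂ × E n => quad q.1 q.2)
      continuous_quad.continuousAt h4
  have hK : IsCompact (Metric.sphere (0 : E n) 1) := isCompact_sphere 0 1
  have hev : ∀ᶠ p in 𝓝 ((z, 0) : E n × ℝ), ∀ v ∈ Metric.sphere (0 : E n) 1,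
      0 < quad (A p.1 + (p.2 : ℂ) • B p.1) v := by
    refine hK.eventually_forall_of_forall_eventually fun v hv => ?_
    have hv0 : v ≠ 0 := by
      rintro rfl
      simp at hv
    have hpos : 0 < quad (A z + ((0 : ℝ) : ℂ) • B z) v := by
      rw [Complex.ofReal_zero, zero_smul, add_zero]
      exact (Complex.lt_def.1 (hp.dotProduct_mulVec_pos hv0)).1
    exact (hcont v).tendsto.eventually (lt_mem_nhds hpos)
  have hAh' : ∀ᶠ p in 𝓝 ((z, 0) : E n × ℝ), (A p.1).IsHermitian :=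
    (continuous_fst.tendsto (z, (0 : ℝ))).eventually hAh
  have hBh' : ∀ᶠ p in 𝓝 ((z, 0) : E n × ℝ), (B p.1).IsHermitian :=
    (continuous_fst.tendsto (z, (0 : ℝ))).eventually hBh
  filter_upwards [hev, hAh', hBh'] with p h1 h2 h3
  refine psd_of_quad ?_ fun v hv => h1 v (by simpa using hv)
  refine h2.add ?_
  rw [Matrix.IsHermitian, Matrix.conjTranspose_smul, h3.eq]
  simp

theorem inCh_lin (φ : OpenPartialHomeomorph X (E n)) (G H : X → Matrix (Fin n) (Fin n) ℂ)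
    (t : ℂ) (z : E n) :
    inCh φ (fun x => G x + t • H x) z = inCh φ G z + t • inCh φ H z := by
  unfold inCh
  rw [Matrix.mul_add, Matrix.add_mul, Matrix.mul_smul, Matrix.smul_mul]

theorem star_conj (J : Matrix (Fin n) (Fin n) ℂ) :
    star (J.map (starRingEnd ℂ)) = J.transpose := by
  ext i j
  simp [Matrix.star_apply]

theorem isUnit_conj {φ : OpenPartialHomeomorph X (E n)} (hφ : φ ∈ CA X) {z : E n}
    (hz : z ∈ φ.target) : IsUnit ((Jc φ z).map (starRingEnd ℂ)) := by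
  rw [Matrix.isUnit_iff_isUnit_det]
  have h := Jc_det_ne hφ hz
  have e : ((Jc φ z).map (starRingEnd ℂ)).det = starRingEnd ℂ (Jc φ z).det :=
    (RingHom.map_det (starRingEnd ℂ) (Jc φ z)).symm
  rw [e]
  exact (IsUnit.mk0 _ h).map (starRingEnd ℂ)

theorem exists_local (K : Kahler X) {s : X → ℝ} (hs : Sm s) (x0 : X) :
    ∃ C0 : ℝ, 0 < C0 ∧ ∃ U ∈ 𝓝 x0, ∀ C : ℝ, C0 ≤ C → ∀ x ∈ U,
      (K.g x + ((C⁻¹ : ℝ) : ℂ) • hess s x).PosSemidef := by
  set φ := chartAt (E n) x0 with hφd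
  have hφ : φ ∈ CA X := IsManifold.chart_mem_maximalAtlas x0
  have hx0 : x0 ∈ φ.source := mem_chart_source _ x0
  have hz0 : φ x0 ∈ φ.target := φ.map_source hx0
  have hF1 : Fld (K.g) := by
    have h := Fld_pot K (u := fun _ => 0) contMDiff_const
    have e : (fun x => K.g x + hess (fun _ : X => (0 : ℝ)) x) = K.g := by
      funext x
      rw [hess_const, add_zero]
    rwa [e] at h
  obtain ⟨w1, hw1, h1⟩ := hF1 φ hφ _ hz0
  obtain ⟨w2, hw2, h2⟩ := Fld_hess hs φ hφ _ hz0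
  have hc1 : ContinuousAt (CH w1) (φ x0) :=
    (CH_continuousOn isOpen_univ hw1.contDiffOn).continuousAt univ_mem
  have hc2 : ContinuousAt (CH w2) (φ x0) :=
    (CH_continuousOn isOpen_univ hw2.contDiffOn).continuousAt univ_mem
  have hpd : (CH w1 (φ x0)).PosDef := by
    rw [h1.self_of_nhds]
    unfold inCh
    rw [← star_conj]
    exact (Matrix.IsUnit.posDef_star_left_conjugate_iff (isUnit_conj hφ hz0)).2 (K.pos _)
  have hev := eventually_psd hc1 hc2
    (Eventually.of_forall fun y => CH_herm (hw1.contDiffAt.of_le (WithTop.coe_le_coe.2 le_top)))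
    (Eventually.of_forall fun y => CH_herm (hw2.contDiffAt.of_le (WithTop.coe_le_coe.2 le_top))) hpd
  rw [nhds_prod_eq] at hev
  obtain ⟨pa, hpa, pb, hpb, hab⟩ := eventually_prod_iff.1 hev
  obtain ⟨δ, hδ, hδb⟩ := Metric.eventually_nhds_iff.1 hpb
  have hall : ∀ᶠ y in 𝓝 (φ x0), pa y ∧ CH w1 y = inCh φ K.g y ∧
      CH w2 y = inCh φ (hess s) y ∧ y ∈ φ.target :=
    hpa.and (h1.and (h2.and (φ.open_target.mem_nhds hz0)))
  have hx : ∀ᶠ x in 𝓝 x0, (pa (φ x) ∧ CH w1 (φ x) = inCh φ K.g (φ x) ∧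
      CH w2 (φ x) = inCh φ (hess s) (φ x) ∧ φ x ∈ φ.target) ∧ x ∈ φ.source :=
    ((φ.continuousAt hx0).tendsto.eventually hall).and (φ.open_source.mem_nhds hx0)
  refine ⟨2 / δ, by positivity, {x | _}, hx, fun C hC x hxU => ?_⟩
  obtain ⟨⟨ha, hb, hc, hd⟩, hxs⟩ := hxU
  have hCpos : 0 < C := lt_of_lt_of_le (by positivity) hC
  have hCi : pb C⁻¹ := by
    apply hδb
    rw [Real.dist_eq, sub_zero, abs_of_pos (inv_pos.2 hCpos)]
    rw [inv_lt_comm₀ hCpos hδ]
    refine lt_of_lt_of_le ?_ hC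
    rw [inv_eq_one_div]
    exact div_lt_div_of_pos_right one_lt_two hδ
  have hps := hab ha hCi
  simp only at hps
  rw [hb, hc, ← inCh_lin] at hps
  unfold inCh at hps
  rw [← star_conj, Matrix.IsUnit.posSemidef_star_left_conjugate_iff (isUnit_conj hφ hd),
    φ.left_inv hxs] at hps
  exact hps

end CScaleAux

open CScaleAux

theorem exists_scale (hX : CompactSpace X) (K : Kahler X) {s : X → ℝ} (hs : Sm s) :
    ∃ C : ℝ, 0 < C ∧ SPsh K (fun x => s x / C) := by
  have hall : ∃ C0 : ℝ, 0 < C0 ∧ ∀ C : ℝ, C0 ≤ C → ∀ x ∈ (univ : Set X),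
      (K.g x + ((C⁻¹ : ℝ) : ℂ) • hess s x).PosSemidef := by
    refine isCompact_univ.induction_on (p := fun S => ∃ C0 : ℝ, 0 < C0 ∧ ∀ C : ℝ, C0 ≤ C →
      ∀ x ∈ S, (K.g x + ((C⁻¹ : ℝ) : ℂ) • hess s x).PosSemidef) ?_ ?_ ?_ ?_
    · exact ⟨1, one_pos, fun _ _ x hx => hx.elim⟩
    · rintro S T hST ⟨C0, hC0, h⟩
      exact ⟨C0, hC0, fun C hC x hx => h C hC x (hST hx)⟩
    · rintro S T ⟨C0, hC0, h⟩ ⟨C1, hC1, h'⟩
      refine ⟨max C0 C1, lt_max_of_lt_left hC0, fun C hC x hx => ?_⟩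
      rcases hx with hx | hx
      · exact h C ((le_max_left _ _).trans hC) x hx
      · exact h' C ((le_max_right _ _).trans hC) x hx
    · intro x0 _
      obtain ⟨C0, hC0, U, hU, h⟩ := exists_local K hs x0
      exact ⟨U, mem_nhdsWithin_of_mem_nhds hU, C0, hC0, h⟩
  obtain ⟨C, hC, h⟩ := hall
  refine ⟨C, hC, ?_, fun x => ?_⟩
  · exact hs.div_const C
  · have e : (fun x => s x / C) = fun x => C⁻¹ * s x := by
      funext x
      rw [div_eq_inv_mul]
    rw [e, hess_smul C⁻¹ (hs x)]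
    exact h C le_rfl x (mem_univ x)

theorem SPsh.addc {K : Kahler X} {u : X → ℝ} (hu : SPsh K u) (c : ℝ) :
    SPsh K (fun x => u x + c) := by
  refine ⟨hu.1.add contMDiff_const, fun x => ?_⟩
  rw [hess_addc]
  exact hu.2 x

theorem SPsh.zero (K : Kahler X) : SPsh K (fun _ => 0) := by
  refine ⟨contMDiff_const, fun x => ?_⟩
  rw [hess_const, add_zero]
  exact (K.pos x).posSemidef

theorem SPsh.convex {K : Kahler X} {u v : X → ℝ} (hu : SPsh K u) (hv : SPsh K v) {t : ℝ}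
    (ht : t ∈ Icc (0 : ℝ) 1) : SPsh K (fun x => t * u x + (1 - t) * v x) := by
  have hu1 : Sm fun x => t * u x := contMDiff_const.mul hu.1
  have hv1 : Sm fun x => (1 - t) * v x := contMDiff_const.mul hv.1
  refine ⟨hu1.add hv1, fun x => ?_⟩
  rw [hess_add (hu1 x) (hv1 x), hess_smul t (hu.1 x), hess_smul (1 - t) (hv.1 x)]
  have e : K.g x + ((t : ℂ) • hess u x + ((1 - t : ℝ) : ℂ) • hess v x) =
      (t : ℂ) • (K.g x + hess u x) + ((1 - t : ℝ) : ℂ) • (K.g x + hess v x) := by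
    rw [smul_add, smul_add]
    have h1 : K.g x = (t : ℂ) • K.g x + ((1 - t : ℝ) : ℂ) • K.g x := by
      rw [← add_smul]
      simp
    nth_rewrite 1 [h1]
    abel
  rw [e]
  refine Matrix.PosSemidef.add ((hu.2 x).smul ?_) ((hv.2 x).smul ?_)
  · exact Complex.zero_le_real.2 ht.1
  · exact Complex.zero_le_real.2 (by linarith [ht.2])

theorem exists_smooth_approx (hX : CompactSpace X) {f : X → ℝ} (hf : Continuous f) {ε : ℝ}
    (hε : 0 < ε) : ∃ s : X → ℝ, Sm s ∧ ∀ x, |f x - s x| ≤ ε := by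
  obtain ⟨g, hg, -⟩ := hf.exists_contMDiff_approx 𝓘(ℝ, E n) ⊤ (ε := fun _ => ε)
    continuous_const (fun _ => hε)
  refine ⟨g, g.contMDiff, fun x => ?_⟩
  have := hg x
  rw [Real.dist_eq, abs_sub_comm] at this
  exact this.le

end Pool.Agent.DMA
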