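import Pool.Agent.Lib.DMA.CGlob
import Pool.Agent.Lib.DMA.CMeas
import Pool.Agent.Lib.DMA.CPos
import Pool.Agent.Lib.DMA.CScale

/-! # DMA, section C: mixed Monge–Ampère measures of smooth functions -/

set_option autoImplicit false

open scoped Manifold ContDiff Topology ComplexOrder
open Set Filter MeasureTheory

noncomputable section

namespace Pool.Agent.DMA

open Pool.Agent.K708 (E CMfd PUnit')

variable {n : ℕ} {X : CMfd n}

/-- The density of the mixed Monge–Ampère measure. -/
def Rd (K : Kahler X) (u : Fin n → X → ℝ) (x : X) : ℝ :=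
  (mixD fun i => K.g x + hess (u i) x).re

theorem Rd_cd (K : Kahler X) {u : Fin n → X → ℝ} (hu : ∀ i, Sm (u i)) : CD (Rd K u) :=
  Fld.cd fun i => Fld_pot K (hu i)

theorem Rd_nonneg (K : Kahler X) {u : Fin n → X → ℝ} (hu : ∀ i, SPsh K (u i)) (x : X) :
    0 ≤ Rd K u x :=
  mixD_nonneg fun i => (hu i).2 x

open Classical in
/-- The mixed Monge–Ampère measure of a multiset of smooth `ω`-psh functions. -/
def M0m (P : PUnit' n X) (K : Kahler X) (m : Multiset (X → ℝ)) : Measure X :=
  if h : ∃ (μ : Measure X) (u : Fin n → X → ℝ), IsFiniteMeasure μ ∧ (∀ i, SPsh K (u i)) ∧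
    Finset.univ.val.map u = m ∧ ∀ f : X → ℝ, Continuous f →
      ∫ x, f x ∂μ = Int P (fun x => f x * Rd K u x) then h.choose else 0

/-- Families with the same multiset of values differ by a permutation. -/
private theorem exists_perm_of_map {Y : Type} {u v : Fin n → Y}
    (h : Finset.univ.val.map u = Finset.univ.val.map v) :
    ∃ σ : Equiv.Perm (Fin n), ∀ i, v (σ i) = u i := by
  classical
  have hc : ∀ (w : Fin n → Y) (y : Y),
      Fintype.card {i // w i = y} = (Finset.univ.val.map w).count y := by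
    intro w y
    rw [Multiset.count_map, Fintype.card_subtype, Finset.card_def, Finset.filter_val]
    congr 1
    exact Multiset.filter_congr fun i _ => eq_comm
  have e : ∀ y : Y, Nonempty ({i // u i = y} ≃ {i // v i = y}) := by
    intro y
    rw [← Fintype.card_eq, hc, hc, h]
  let e0 : ∀ y : Y, {i // u i = y} ≃ {i // v i = y} := fun y => Classical.choice (e y)
  refine ⟨(Equiv.sigmaFiberEquiv u).symm.trans ((Equiv.sigmaCongrRight e0).trans
    (Equiv.sigmaFiberEquiv v)), fun i => ?_⟩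
  exact (e0 (u i) ⟨i, rfl⟩).2

/-- Enumerations of the same multiset give the same density. -/
theorem Rd_eq (K : Kahler X) {u v : Fin n → X → ℝ}
    (h : Finset.univ.val.map u = Finset.univ.val.map v) (x : X) : Rd K u x = Rd K v x := by
  obtain ⟨σ, hσ⟩ := exists_perm_of_map h
  have h1 := mixD_perm (fun i => K.g x + hess (v i) x) σ
  unfold Rd
  rw [← h1]
  congr 2
  funext i
  rw [hσ]

theorem M0m_spec (hX : CompactSpace X) (P : PUnit' n X) (K : Kahler X) {u : Fin n → X → ℝ}
    (hu : ∀ i, SPsh K (u i)) : IsFiniteMeasure (M0m P K (Finset.univ.val.map u)) ∧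
      ∀ f : X → ℝ, Continuous f →
        ∫ x, f x ∂M0m P K (Finset.univ.val.map u) = Int P (fun x => f x * Rd K u x) := by
  obtain ⟨μ, hμ1, hμ2⟩ := exists_meas hX P (Rd_cd K fun i => (hu i).1) (Rd_nonneg K hu)
  have hex : ∃ (μ : Measure X) (v : Fin n → X → ℝ), IsFiniteMeasure μ ∧ (∀ i, SPsh K (v i)) ∧
      Finset.univ.val.map v = Finset.univ.val.map u ∧ ∀ f : X → ℝ, Continuous f →
      ∫ x, f x ∂μ = Int P (fun x => f x * Rd K v x) := ⟨μ, u, hμ1, hu, rfl, hμ2⟩
  have h1 : M0m P K (Finset.univ.val.map u) = hex.choose := by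
    unfold M0m
    rw [dif_pos hex]
  obtain ⟨v, h2, h3, h4, h5⟩ := hex.choose_spec
  rw [h1]
  refine ⟨h2, fun f hf => ?_⟩
  rw [h5 f hf]
  congr 1
  funext x
  rw [Rd_eq K h4]

theorem M0m_locMix (hX : CompactSpace X) (P : PUnit' n X) (K : Kahler X) {u : Fin n → X → ℝ}
    (hu : ∀ i, SPsh K (u i)) : LocMix K univ u (M0m P K (Finset.univ.val.map u)) := by
  intro U ρ hρ ψ hψ f hf hs
  rw [(M0m_spec hX P K hu).2 f hf]
  have hcd : CD (fun x => f x * Rd K u x) := (Rd_cd K fun i => (hu i).1).mul hf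
  rw [Int_chart hX P hcd hψ (L := tsupport f) (isClosed_tsupport f).isCompact
    (fun x hx => (hs hx).1.1) (fun x hx => by rw [image_eq_zero_of_notMem_tsupport hx, zero_mul])]
  have hzero : ∀ x, x ∉ U → f x = 0 := fun x hx =>
    image_eq_zero_of_notMem_tsupport fun h => hx (hs h).1.2
  have hopen : IsOpen (ψ.target ∩ ψ.symm ⁻¹' (U ∩ univ)) := by
    rw [inter_univ]
    exact ψ.isOpen_inter_preimage_symm hρ.opn
  rw [setIntegral_eq_of_subset_of_forall_diff_eq_zero (t := ψ.target)
    (s := ψ.target ∩ ψ.symm ⁻¹' (U ∩ univ)) ψ.open_target.measurableSet inter_subset_left]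
  · refine setIntegral_congr_fun hopen.measurableSet fun z hz => ?_
    have hz1 : z ∈ ψ.target := hz.1
    have hz2 : ψ.symm z ∈ U := hz.2.1
    have h1 : (fun i => CH (fun w => ρ (ψ.symm w) + u i (ψ.symm w)) z) =
        fun i => (Jc ψ z).transpose * (K.g (ψ.symm z) + hess (u i) (ψ.symm z)) *
          (Jc ψ z).map (starRingEnd ℂ) := by
      funext i
      exact inCh_pot hρ hψ hz1 hz2 ((hu i).1 (ψ.symm z))
    simp only [h1]
    rw [mixD_pull, Complex.re_ofReal_mul]
    unfold Rd wt
    ring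
  · intro z hz
    have hz2 : ψ.symm z ∉ U := fun h => hz.2 ⟨hz.1, h, mem_univ _⟩
    simp only [hzero _ hz2, zero_mul]

end Pool.Agent.DMA
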