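import Pool.Agent.Lib.DMA.CM0

/-! # DMA, section C: properties of the mixed Monge–Ampère measures of smooth functions -/

set_option autoImplicit false

open scoped Manifold ContDiff Topology ComplexOrder
open Set Filter MeasureTheory

noncomputable section

namespace Pool.Agent.DMA

open Pool.Agent.K708 (E CMfd PUnit')

variable {n : ℕ} {X : CMfd n}

/-- Enumeration of a multiset with a free entry. -/
theorem exists_enum {Y : Type} {m : Multiset Y} (y : Y) (hm : m.card + 1 = n) :
    ∃ (i : Fin n) (w : Fin n → Y), (∀ j, w j ∈ y ::ₘ m) ∧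
      (∀ j, j ≠ i → w j ∈ m) ∧ ∀ u : Y, Finset.univ.val.map (Function.update w i u) = u ::ₘ m := by
  obtain ⟨L, rfl⟩ : ∃ L : List Y, (L : Multiset Y) = m := ⟨m.toList, m.coe_toList⟩
  rw [Multiset.coe_card] at hm
  subst hm
  have hmem : ∀ j : Fin L.length, L.get j ∈ (L : Multiset Y) := fun j =>
    Multiset.mem_coe.2 (List.get_mem L j)
  refine ⟨0, Fin.cons y L.get, ?_, ?_, ?_⟩
  · intro j
    refine Fin.cases ?_ (fun k => ?_) j
    · rw [Fin.cons_zero]
      exact Multiset.mem_cons_self y _
    · rw [Fin.cons_succ]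
      exact Multiset.mem_cons_of_mem (hmem k)
  · intro j hj
    obtain ⟨k, rfl⟩ := Fin.exists_succ_eq.2 hj
    rw [Fin.cons_succ]
    exact hmem k
  · intro u
    rw [Fin.update_cons_zero, Fin.univ_val_map, List.ofFn_cons, List.ofFn_get,
      ← Multiset.cons_coe]

private theorem exists_enum0 {Y : Type} {m : Multiset Y} (hm : m.card = n) :
    ∃ w : Fin n → Y, (∀ j, w j ∈ m) ∧ Finset.univ.val.map w = m := by
  obtain ⟨L, rfl⟩ : ∃ L : List Y, (L : Multiset Y) = m := ⟨m.toList, m.coe_toList⟩
  rw [Multiset.coe_card] at hm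
  subst hm
  refine ⟨L.get, fun j => Multiset.mem_coe.2 (List.get_mem L j), ?_⟩
  rw [Fin.univ_val_map, List.ofFn_get]

/-- The density with a free entry. -/
private theorem Rd_update (K : Kahler X) (w : Fin n → X → ℝ) (i : Fin n) (u : X → ℝ) (x : X) :
    Rd K (Function.update w i u) x =
      (mixD (Function.update (fun j => K.g x + hess (w j) x) i (K.g x + hess u x))).re := by
  unfold Rd
  congr 2
  funext j
  by_cases hj : j = i
  · subst hj
    simp only [Function.update_self]
  · simp only [Function.update_of_ne hj]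

private theorem Sm_sub {a b : X → ℝ} (ha : Sm a) (hb : Sm b) : Sm (fun x => a x - b x) :=
  ContMDiff.sub ha hb

private theorem hess_sub {a b : X → ℝ} (ha : Sm a) (hb : Sm b) (x : X) :
    hess (fun y => a y - b y) x = hess a x - hess b x := by
  have h1 : hess a x = hess (fun y => a y - b y) x + hess b x := by
    rw [← hess_add (Sm_sub ha hb x) (hb x)]
    congr 1
    funext y
    ring
  rw [h1, add_sub_cancel_right]

/-- The difference of two densities which differ in one entry. -/
private theorem Rd_sub (K : Kahler X) (w : Fin n → X → ℝ) (i : Fin n) {a b : X → ℝ} (ha : Sm a)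
    (hb : Sm b) (x : X) :
    Rd K (Function.update w i a) x - Rd K (Function.update w i b) x =
      (mixD (Function.update (fun j => K.g x + hess (w j) x) i
        (hess (fun y => a y - b y) x))).re := by
  rw [Rd_update, Rd_update, hess_sub ha hb]
  have h1 : K.g x + hess a x = (hess a x - hess b x) + (K.g x + hess b x) := by abel
  rw [h1, mixD_update_add, Complex.add_re]
  ring

private theorem SPsh_update {K : Kahler X} {m : Multiset (X → ℝ)} {w : Fin n → X → ℝ} {i : Fin n}
    (hw : ∀ j, j ≠ i → w j ∈ m) (hm : ∀ u ∈ m, SPsh K u) {a : X → ℝ} (ha : SPsh K a) (j : Fin n) :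
    SPsh K (Function.update w i a j) := by
  by_cases hj : j = i
  · subst hj
    rw [Function.update_self]
    exact ha
  · rw [Function.update_of_ne hj]
    exact hm _ (hw j hj)

private theorem M0m_update (hX : CompactSpace X) (P : PUnit' n X) (K : Kahler X)
    {m : Multiset (X → ℝ)} (hm : ∀ u ∈ m, SPsh K u) {w : Fin n → X → ℝ} {i : Fin n}
    (hw : ∀ j, j ≠ i → w j ∈ m)
    (hwm : ∀ u : X → ℝ, Finset.univ.val.map (Function.update w i u) = u ::ₘ m) {a : X → ℝ}
    (ha : SPsh K a) {f : X → ℝ} (hf : Continuous f) :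
    ∫ x, f x ∂M0m P K (a ::ₘ m) = Int P (fun x => f x * Rd K (Function.update w i a) x) := by
  rw [← hwm a]
  exact (M0m_spec hX P K (SPsh_update hw hm ha)).2 f hf

private theorem Rd_update_cd {K : Kahler X} {m : Multiset (X → ℝ)} {w : Fin n → X → ℝ} {i : Fin n}
    (hw : ∀ j, j ≠ i → w j ∈ m) (hm : ∀ u ∈ m, SPsh K u) {a : X → ℝ} (ha : SPsh K a) :
    CD (Rd K (Function.update w i a)) :=
  Rd_cd K fun j => (SPsh_update hw hm ha j).1

private theorem M0m_fin (hX : CompactSpace X) (P : PUnit' n X) (K : Kahler X)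
    {m : Multiset (X → ℝ)} (hc : m.card + 1 = n) (hm : ∀ u ∈ m, SPsh K u) {a : X → ℝ}
    (ha : SPsh K a) : IsFiniteMeasure (M0m P K (a ::ₘ m)) := by
  obtain ⟨i, w, -, hw2, hw3⟩ := exists_enum a hc
  rw [← hw3 a]
  exact (M0m_spec hX P K (SPsh_update hw2 hm ha)).1

theorem M0m_ibp (hX : CompactSpace X) (P : PUnit' n X) (K : Kahler X) {m : Multiset (X → ℝ)}
    (hc : m.card + 1 = n) (hm : ∀ u ∈ m, SPsh K u) {f a b : X → ℝ} (hf : SPsh K f)
    (ha : SPsh K a) (hb : SPsh K b) :
    (∫ x, f x ∂M0m P K (a ::ₘ m)) - ∫ x, f x ∂M0m P K (b ::ₘ m) =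
      (∫ x, (a x - b x) ∂M0m P K (f ::ₘ m)) -
        ∫ x, (a x - b x) ∂M0m P K ((fun _ => 0) ::ₘ m) := by
  obtain ⟨i, w, hw1, hw2, hw3⟩ := exists_enum (fun _ => 0 : X → ℝ) hc
  have hz := SPsh.zero (X := X) K
  have hab : Sm (fun x => a x - b x) := Sm_sub ha.1 hb.1
  rw [M0m_update hX P K hm hw2 hw3 ha hf.1.continuous,
    M0m_update hX P K hm hw2 hw3 hb hf.1.continuous,
    M0m_update hX P K hm hw2 hw3 hf hab.continuous,
    M0m_update hX P K hm hw2 hw3 hz hab.continuous]
  rw [← Int_sub hX P ((Rd_update_cd hw2 hm ha).mul hf.1.continuous)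
    ((Rd_update_cd hw2 hm hb).mul hf.1.continuous),
    ← Int_sub hX P ((Rd_update_cd hw2 hm hf).mul hab.continuous)
    ((Rd_update_cd hw2 hm hz).mul hab.continuous)]
  have hwS : ∀ j, SPsh K (w j) := by
    intro j
    rcases Multiset.mem_cons.1 (hw1 j) with h | h
    · rw [h]
      exact hz
    · exact hm _ h
  have h1 := glob_ibp hX P (H := fun j x => K.g x + hess (w j) x)
    (fun j => Fld_pot K (hwS j).1) i hab hf.1
  have e1 : (fun x => f x * Rd K (Function.update w i a) x - f x * Rd K (Function.update w i b) x) =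
      fun x => f x * (mixD (Function.update (fun j => K.g x + hess (w j) x) i
        (hess (fun y => a y - b y) x))).re := by
    funext x
    rw [← mul_sub, Rd_sub K w i ha.1 hb.1]
  have e2 : (fun x => (a x - b x) * Rd K (Function.update w i f) x -
      (a x - b x) * Rd K (Function.update w i (fun _ => 0)) x) =
      fun x => (a x - b x) * (mixD (Function.update (fun j => K.g x + hess (w j) x) i
        (hess f x))).re := by
    funext x
    rw [← mul_sub, Rd_sub K w i hf.1 hz.1]
    have e3 : (fun y => f y - 0) = f := funext fun y => sub_zero _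
    rw [e3]
  rw [e1, e2]
  exact h1

theorem M0m_affine (hX : CompactSpace X) (P : PUnit' n X) (K : Kahler X) {m : Multiset (X → ℝ)}
    (hc : m.card + 1 = n) (hm : ∀ u ∈ m, SPsh K u) {u v : X → ℝ} (hu : SPsh K u)
    (hv : SPsh K v) {t : ℝ} (ht : t ∈ Icc (0 : ℝ) 1) {f : X → ℝ} (hf : Continuous f) :
    ∫ x, f x ∂M0m P K ((fun x => t * u x + (1 - t) * v x) ::ₘ m) =
      t * (∫ x, f x ∂M0m P K (u ::ₘ m)) + (1 - t) * ∫ x, f x ∂M0m P K (v ::ₘ m) := by
  obtain ⟨i, w, -, hw2, hw3⟩ := exists_enum u hc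
  have huv := hu.convex hv ht
  rw [M0m_update hX P K hm hw2 hw3 hu hf, M0m_update hX P K hm hw2 hw3 hv hf,
    M0m_update hX P K hm hw2 hw3 huv hf, ← Int_smul, ← Int_smul,
    ← Int_add hX P (((Rd_update_cd hw2 hm hu).mul hf).smul t)
      (((Rd_update_cd hw2 hm hv).mul hf).smul (1 - t))]
  congr 1
  funext x
  have h1 : hess (fun x => t * u x + (1 - t) * v x) x =
      (t : ℂ) • hess u x + ((1 - t : ℝ) : ℂ) • hess v x := by
    rw [hess_add (f := fun x => t * u x) (g := fun x => (1 - t) * v x),
      hess_smul t (hu.1 x), hess_smul (1 - t) (hv.1 x)]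
    · exact (ContMDiff.mul contMDiff_const hu.1) x
    · exact (ContMDiff.mul contMDiff_const hv.1) x
  have h2 : K.g x + hess (fun x => t * u x + (1 - t) * v x) x =
      (t : ℂ) • (K.g x + hess u x) + ((1 - t : ℝ) : ℂ) • (K.g x + hess v x) := by
    rw [h1]
    push_cast
    module
  rw [Rd_update, Rd_update, Rd_update, h2, mixD_update_add, mixD_update_smul, mixD_update_smul,
    Complex.add_re, Complex.re_ofReal_mul, Complex.re_ofReal_mul]
  ring

theorem M0m_addc (hX : CompactSpace X) (P : PUnit' n X) (K : Kahler X) {m : Multiset (X → ℝ)}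
    (hc : m.card + 1 = n) (hm : ∀ u ∈ m, SPsh K u) {u : X → ℝ} (hu : SPsh K u) (c : ℝ) :
    M0m P K ((fun x => u x + c) ::ₘ m) = M0m P K (u ::ₘ m) := by
  obtain ⟨i, w, -, hw2, hw3⟩ := exists_enum u hc
  refine meas_ext hX (M0m_fin hX P K hc hm (hu.addc c)) (M0m_fin hX P K hc hm hu) fun f hf => ?_
  rw [M0m_update hX P K hm hw2 hw3 hu hf, M0m_update hX P K hm hw2 hw3 (hu.addc c) hf]
  congr 1
  funext x
  rw [Rd_update, Rd_update, hess_addc]

theorem M0m_loc (hX : CompactSpace X) (P : PUnit' n X) (K : Kahler X) {m : Multiset (X → ℝ)}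
    (hc : m.card + 1 = n) (hm : ∀ u ∈ m, SPsh K u) {a b : X → ℝ} (ha : SPsh K a)
    (hb : SPsh K b) {U : Set X} (hU : IsOpen U) (h : ∀ x ∈ U, a x = b x) {f : X → ℝ}
    (hf : Continuous f) (hfU : ∀ x, x ∉ U → f x = 0) :
    ∫ x, f x ∂M0m P K (a ::ₘ m) = ∫ x, f x ∂M0m P K (b ::ₘ m) := by
  obtain ⟨i, w, -, hw2, hw3⟩ := exists_enum a hc
  rw [M0m_update hX P K hm hw2 hw3 ha hf, M0m_update hX P K hm hw2 hw3 hb hf]
  congr 1
  funext x
  by_cases hx : x ∈ U
  · have h1 : hess a x = hess b x := by
      refine hess_congr ?_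
      filter_upwards [hU.mem_nhds hx] with y hy
      exact h y hy
    rw [Rd_update, Rd_update, h1]
  · rw [hfU x hx, zero_mul, zero_mul]

/-- Replacing one entry by zero does not change the total mass. -/
private theorem Int_update (hX : CompactSpace X) (P : PUnit' n X) (K : Kahler X)
    {u : Fin n → X → ℝ} (hu : ∀ j, SPsh K (u j)) (i : Fin n) :
    Int P (Rd K (Function.update u i (fun _ => 0))) = Int P (Rd K u) := by
  have hz := SPsh.zero (X := X) K
  have h1 := glob_ibp hX P (H := fun j x => K.g x + hess (u j) x)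
    (fun j => Fld_pot K (hu j).1) i (hu i).1 (contMDiff_const (c := (1 : ℝ)))
  have h2 : (fun x => (1 : ℝ) * (mixD (Function.update (fun j => K.g x + hess (u j) x) i
      (hess (u i) x))).re) =
      fun x => Rd K u x - Rd K (Function.update u i (fun _ => 0)) x := by
    funext x
    have h3 := Rd_sub K u i (hu i).1 hz.1 x
    have e3 : (fun y => u i y - 0) = u i := funext fun y => sub_zero _
    rw [e3, Function.update_eq_self] at h3
    rw [h3, one_mul]
  have h4 : (fun x => u i x * (mixD (Function.update (fun j => K.g x + hess (u j) x) i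
      (hess (fun _ => (1 : ℝ)) x))).re) = fun _ => 0 := by
    funext x
    have h5 : mixD (Function.update (fun j => K.g x + hess (u j) x) i
        (0 : Matrix (Fin n) (Fin n) ℂ)) = 0 := by
      have h6 := mixD_update_smul (fun j => K.g x + hess (u j) x) i 0
        (0 : Matrix (Fin n) (Fin n) ℂ)
      rwa [zero_smul, zero_mul] at h6
    rw [hess_const, h5, Complex.zero_re, mul_zero]
  rw [h2, h4] at h1
  have h0 : Int P (fun _ : X => (0 : ℝ)) = 0 := by
    have h6 := Int_smul P 0 (fun _ : X => (0 : ℝ))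
    rwa [zero_mul, zero_mul] at h6
  rw [h0, Int_sub hX P (Rd_cd K fun j => (hu j).1) (Rd_cd K fun j => ?_)] at h1
  · linarith
  · by_cases hj : j = i
    · subst hj
      rw [Function.update_self]
      exact hz.1
    · rw [Function.update_of_ne hj]
      exact (hu j).1

private theorem Int_zero_entries (hX : CompactSpace X) (P : PUnit' n X) (K : Kahler X)
    {u : Fin n → X → ℝ} (hu : ∀ j, SPsh K (u j)) (s : Finset (Fin n)) :
    Int P (Rd K fun j => if j ∈ s then (fun _ => 0) else u j) = Int P (Rd K u) := by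
  classical
  induction s using Finset.induction_on with
  | empty =>
    congr 2
  | insert i s hi ih =>
    rw [← ih]
    have hz := SPsh.zero (X := X) K
    rw [← Int_update hX P K (u := fun j => if j ∈ s then (fun _ => 0) else u j) (fun j => ?_) i]
    · congr 2
      funext j
      by_cases hj : j = i
      · subst hj
        rw [if_pos (Finset.mem_insert_self _ _), Function.update_self]
      · rw [Function.update_of_ne hj]
        by_cases hjs : j ∈ s
        · rw [if_pos (Finset.mem_insert_of_mem hjs), if_pos hjs]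
        · rw [if_neg hjs, if_neg]
          rw [Finset.mem_insert]
          tauto
    · split_ifs
      · exact hz
      · exact hu j

theorem M0m_mass (hX : CompactSpace X) (P : PUnit' n X) (K : Kahler X) {m : Multiset (X → ℝ)}
    (hc : m.card = n) (hm : ∀ u ∈ m, SPsh K u) :
    M0m P K m univ = ENNReal.ofReal (Int P fun x => ((K.g x).det).re) := by
  obtain ⟨u, hu0, hu2⟩ := exists_enum0 hc
  have hu1 : ∀ j, SPsh K (u j) := fun j => hm _ (hu0 j)
  obtain ⟨h1, h2⟩ := M0m_spec hX P K hu1
  have h3 := h2 (fun _ => 1) continuous_const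
  rw [hu2] at h1 h3
  rw [integral_const, smul_eq_mul, mul_one] at h3
  rw [← ENNReal.ofReal_toReal (measure_ne_top (M0m P K m) univ)]
  congr 1
  change (M0m P K m).real univ = _
  rw [h3]
  have h4 : (fun x => (1 : ℝ) * Rd K u x) = Rd K u := funext fun x => one_mul _
  rw [h4, ← Int_zero_entries hX P K hu1 Finset.univ]
  congr 1
  funext x
  unfold Rd
  have h5 : (fun i : Fin n => K.g x + hess (if i ∈ Finset.univ then (fun _ => 0) else u i) x) =
      fun _ => K.g x := by
    funext i
    rw [if_pos (Finset.mem_univ i), hess_const, add_zero]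
  rw [h5, mixD_const]

/-- The volume is positive. -/
theorem vol_pos (hX : CompactSpace X) (hne : Nonempty X) (P : PUnit' n X) (K : Kahler X) :
    0 < Int P fun x => ((K.g x).det).re := by
  have hdet : ∀ x, 0 < ((K.g x).det).re := by
    intro x
    have h1 := (K.pos x).det_pos
    exact (Complex.lt_def.1 h1).1
  have hcd : CD (fun x => ((K.g x).det).re) := by
    have h1 := Rd_cd K (u := fun _ _ => (0 : ℝ)) (fun _ => contMDiff_const)
    have h2 : (Rd K fun (_ : Fin n) (_ : X) => (0 : ℝ)) = fun x => ((K.g x).det).re := by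
      funext x
      change (mixD fun _ => K.g x + hess (fun _ : X => (0 : ℝ)) x).re = _
      rw [hess_const, add_zero, mixD_const]
    rwa [h2] at h1
  obtain ⟨x⟩ := hne
  obtain ⟨k, hk⟩ : ∃ k, 0 < P.χ k x := by
    by_contra hcon
    push Not at hcon
    have h1 : ∑ k, P.χ k x ≤ 0 := Finset.sum_nonpos fun k _ => hcon k
    rw [P.sum] at h1
    exact absurd h1 (not_le.2 one_pos)
  have hnn : ∀ k, ∀ z ∈ (P.φ k).target,
      0 ≤ P.χ k ((P.φ k).symm z) * (((K.g ((P.φ k).symm z)).det).re * wt (P.φ k) z) := by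
    intro k z _
    exact mul_nonneg (P.nonneg k _) (mul_nonneg (hdet _).le (by unfold wt; positivity))
  unfold Int
  refine Finset.sum_pos' (fun k _ => setIntegral_nonneg (P.φ k).open_target.measurableSet
    (hnn k)) ⟨k, Finset.mem_univ k, ?_⟩
  have hint := integrable_term hX hcd (P.smooth k).continuous (P.mem k) (P.supp k)
  rw [setIntegral_pos_iff_support_of_nonneg_ae
    ((ae_restrict_iff' (P.φ k).open_target.measurableSet).2 (Filter.Eventually.of_forall (hnn k)))
    hint]
  have hxs : x ∈ (P.φ k).source := P.supp k (subset_tsupport _ hk.ne')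
  have hopen : IsOpen ((P.φ k).target ∩ (P.φ k).symm ⁻¹' {y | 0 < P.χ k y}) :=
    (P.φ k).isOpen_inter_preimage_symm (isOpen_lt continuous_const (P.smooth k).continuous)
  refine lt_of_lt_of_le (hopen.measure_pos volume
    ⟨P.φ k x, (P.φ k).map_source hxs, ?_⟩) (measure_mono ?_)
  · change 0 < P.χ k ((P.φ k).symm (P.φ k x))
    rw [(P.φ k).left_inv hxs]
    exact hk
  · rintro z ⟨hz1, hz2⟩
    refine ⟨?_, hz1⟩
    exact (mul_pos hz2 (mul_pos (hdet _) (wt_pos (P.mem k) hz1))).ne'

end Pool.Agent.DMA
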