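import Pool.Agent.Lib.DMA.CSma

/-! # DMA, section C: the Monge–Ampère measure of a smooth function -/

set_option autoImplicit false

open scoped Manifold ContDiff Topology ComplexOrder
open Set Filter MeasureTheory

noncomputable section

namespace Pool.Agent.DMA

open Pool.Agent.K708 (E CMfd PUnit')

variable {n : ℕ} {X : CMfd n}

namespace CMaAux

/-- Continuous functions on a compact manifold are integrable for a finite measure. -/
theorem integrable_cont (hX : CompactSpace X) {μ : Measure X} (hμ : IsFiniteMeasure μ)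
    {f : X → ℝ} (hf : Continuous f) : Integrable f μ := by
  obtain ⟨C, hC⟩ := isCompact_univ.exists_bound_of_continuousOn hf.continuousOn
  refine Integrable.of_bound hf.aestronglyMeasurable C ?_
  exact Eventually.of_forall fun x => hC x (mem_univ x)

end CMaAux

theorem IsMA.unique (hX : CompactSpace X) {K : Kahler X} {u : X → ℝ} {μ ν : Measure X}
    (hμ : IsMA K u μ) (hν : IsMA K u ν) : μ = ν := by
  classical
  choose U ρ hxU hpot using K.pot
  obtain ⟨P, c, hP⟩ := Pool.Agent.K708.exists_pu X hX U
    (fun x => (hpot x).opn.mem_nhds (hxU x))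
  refine meas_ext hX hμ.fin hν.fin fun f hf => ?_
  have hcont : ∀ k, Continuous (P.χ k) := fun k => (P.smooth k).continuous
  have hsum : ∀ x, f x = ∑ k, P.χ k x * f x := by
    intro x
    rw [← Finset.sum_mul, P.sum x, one_mul]
  have hdec : ∀ {κ : Measure X}, IsFiniteMeasure κ →
      ∫ x, f x ∂κ = ∑ k, ∫ x, P.χ k x * f x ∂κ := by
    intro κ hκ
    have hi : ∀ k ∈ (Finset.univ : Finset (Fin P.N)),
        Integrable (fun x => P.χ k x * f x) κ := fun k _ =>
      CMaAux.integrable_cont hX hκ ((hcont k).mul hf)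
    rw [← integral_finsetSum _ hi]
    exact integral_congr_ae (Eventually.of_forall fun x => hsum x)
  rw [hdec hμ.fin, hdec hν.fin]
  refine Finset.sum_congr rfl fun k _ => ?_
  have hs : tsupport (fun x => P.χ k x * f x) ⊆ (P.φ k).source ∩ U (c k) := by
    have h1 : tsupport (fun x => P.χ k x * f x) ⊆ tsupport (P.χ k) :=
      closure_mono fun x hx => by
        intro h0
        exact hx (by simp [h0])
    exact fun x hx => ⟨P.supp k (h1 hx), hP k (P.supp k (h1 hx))⟩
  have hc : Continuous fun x => P.χ k x * f x := (hcont k).mul hf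
  rw [hμ.eq (U (c k)) (ρ (c k)) (hpot (c k)) (P.φ k) (P.mem k) _ hc hs,
    hν.eq (U (c k)) (ρ (c k)) (hpot (c k)) (P.φ k) (P.mem k) _ hc hs]

theorem ma_eq_of_isMA (hX : CompactSpace X) {K : Kahler X} {u : X → ℝ} {μ : Measure X}
    (hμ : IsMA K u μ) : ma K u = μ := by
  have h : ∃ ν, IsMA K u ν := ⟨μ, hμ⟩
  rw [ma, dif_pos h]
  exact IsMA.unique hX h.choose_spec hμ

theorem LocMix.isMA {K : Kahler X} {u : X → ℝ} {μ : Measure X} (hf : IsFiniteMeasure μ)
    (h : LocMix K univ (fun _ => u) μ) : IsMA K u μ := by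
  refine ⟨hf, fun U ρ hρ ψ hψ f hfc hs => ?_⟩
  have h1 := h U ρ hρ ψ hψ f hfc (by rwa [inter_univ])
  rw [h1]
  simp only [inter_univ, mixD_const]

/-- The Monge–Ampère measure of a smooth function, in terms of the calculus. -/
theorem ma_eq_calc (hX : CompactSpace X) {K : Kahler X} {C : Calc X n}
    (hC : ∀ u : Fin n → X → ℝ, (∀ i, SPsh K (u i)) →
      LocMix K univ u (C.M (Finset.univ.val.map u))) {u : X → ℝ} (hu : SPsh K u) :
    ma K u = C.MA u := by
  have h := hC (fun _ => u) (fun _ => hu)
  have e : (Finset.univ : Finset (Fin n)).val.map (fun _ => u) = Multiset.replicate n u := by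
    rw [Multiset.map_const']
    simp
  rw [e] at h
  exact ma_eq_of_isMA hX (LocMix.isMA (C.fin _) h)

end Pool.Agent.DMA
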