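import Pool.Agent.Lib.DMA.Iface
import Pool.Agent.Lib.K708.PU

/-! # DMA, section C: decreasing smooth approximations -/

set_option autoImplicit false

open scoped Manifold ContDiff Topology ComplexOrder
open Set Filter MeasureTheory

noncomputable section

namespace Pool.Agent.DMA

open Pool.Agent.K708 (E CMfd PUnit')

variable {n : ℕ} {X : CMfd n}

namespace CRegAux

section metric

variable {Y : Type} [MetricSpace Y]

/-- the Lipschitz regularisation from above -/
def g (u : Y → ℝ) (j : ℕ) (x : Y) : ℝ := ⨆ y, (u y - j * dist x y)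

variable {u : Y → ℝ} {C : ℝ}

theorem bdd (hC : ∀ x, |u x| ≤ C) (j : ℕ) (x : Y) :
    BddAbove (range fun y => u y - j * dist x y) := by
  refine ⟨C, ?_⟩
  rintro _ ⟨y, rfl⟩
  have h1 := (abs_le.1 (hC y)).2
  have h2 : 0 ≤ (j : ℝ) * dist x y := by positivity
  simp only
  linarith

theorem le_g (hC : ∀ x, |u x| ≤ C) (j : ℕ) (x : Y) : u x ≤ g u j x := by
  have h : u x - j * dist x x ≤ g u j x := le_ciSup (bdd hC j x) x
  rwa [dist_self, mul_zero, sub_zero] at h

theorem g_lip (hC : ∀ x, |u x| ≤ C) (j : ℕ) (x x' : Y) : g u j x ≤ g u j x' + j * dist x x' := by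
  have : Nonempty Y := ⟨x⟩
  refine ciSup_le fun y => ?_
  have h1 := le_ciSup (bdd hC j x') y
  have h2 : dist x' y ≤ dist x' x + dist x y := dist_triangle _ _ _
  have h3 : (0 : ℝ) ≤ j := Nat.cast_nonneg _
  have h4 : (j : ℝ) * dist x' y ≤ j * (dist x' x + dist x y) := mul_le_mul_of_nonneg_left h2 h3
  rw [dist_comm x' x] at h4
  have h5 : u y - j * dist x' y ≤ g u j x' := h1
  linarith

theorem g_cont (hC : ∀ x, |u x| ≤ C) (j : ℕ) : Continuous (g u j) := by
  have h : LipschitzWith (Real.toNNReal j) (g u j) := by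
    refine LipschitzWith.of_le_add_mul _ fun x y => ?_
    rw [Real.coe_toNNReal _ (Nat.cast_nonneg j)]
    exact g_lip hC j x y
  exact h.continuous

theorem g_anti (hC : ∀ x, |u x| ≤ C) {j k : ℕ} (h : j ≤ k) (x : Y) : g u k x ≤ g u j x := by
  have : Nonempty Y := ⟨x⟩
  refine ciSup_le fun y => ?_
  have h1 : u y - j * dist x y ≤ g u j x := le_ciSup (bdd hC j x) y
  have h2 : (j : ℝ) * dist x y ≤ k * dist x y :=
    mul_le_mul_of_nonneg_right (by exact_mod_cast h) dist_nonneg
  linarith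

theorem g_lim (hu : UpperSemicontinuous u) (hC : ∀ x, |u x| ≤ C) (x : Y) {ε : ℝ} (hε : 0 < ε) :
    ∀ᶠ j : ℕ in atTop, g u j x ≤ u x + ε := by
  have h1 : ∀ᶠ y in 𝓝 x, u y < u x + ε := hu x _ (by linarith)
  obtain ⟨δ, hδ, h2⟩ := Metric.eventually_nhds_iff.1 h1
  obtain ⟨N, hN⟩ := exists_nat_gt ((2 * C) / δ)
  filter_upwards [eventually_ge_atTop N] with j hj
  have : Nonempty Y := ⟨x⟩
  refine ciSup_le fun y => ?_
  have h3 : 0 ≤ (j : ℝ) * dist x y := by positivity
  rcases lt_or_ge (dist y x) δ with h | h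
  · have := h2 h
    linarith
  · have h4 := (abs_le.1 (hC y)).2
    have h5 := (abs_le.1 (hC x)).1
    have h6 : (2 * C) / δ < j := lt_of_lt_of_le hN (by exact_mod_cast hj)
    rw [div_lt_iff₀ hδ] at h6
    have h7 : (j : ℝ) * δ ≤ j * dist x y := by
      rw [dist_comm x y]
      exact mul_le_mul_of_nonneg_left h (Nat.cast_nonneg _)
    linarith

end metric

end CRegAux

/-- An upper semicontinuous function on a compact metrizable space which is bounded is the limit of
a decreasing sequence of continuous functions. -/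
theorem exists_cont_dec {Y : Type} [TopologicalSpace Y] [CompactSpace Y]
    [TopologicalSpace.MetrizableSpace Y] {u : Y → ℝ} (hu : UpperSemicontinuous u)
    (hb : ∃ C, ∀ x, |u x| ≤ C) :
    ∃ h : ℕ → Y → ℝ, (∀ j, Continuous (h j)) ∧ Antitone h ∧ (∀ j x, u x < h j x) ∧
      ∀ x, Tendsto (fun j => h j x) atTop (𝓝 (u x)) := by
  let _ := TopologicalSpace.metrizableSpaceMetric Y
  obtain ⟨C, hC⟩ := hb
  have hpos : ∀ j : ℕ, (0 : ℝ) < 1 / ((j : ℝ) + 1) := fun j => by positivity
  refine ⟨fun j x => CRegAux.g u j x + 1 / ((j : ℝ) + 1), fun j => ?_, ?_, fun j x => ?_,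
    fun x => ?_⟩
  · exact (CRegAux.g_cont hC j).add continuous_const
  · intro j k hjk x
    have h1 := CRegAux.g_anti hC hjk x
    have h2 : 1 / ((k : ℝ) + 1) ≤ 1 / ((j : ℝ) + 1) := by
      apply one_div_le_one_div_of_le (by positivity)
      have : (j : ℝ) ≤ k := by exact_mod_cast hjk
      linarith
    simp only
    linarith
  · have h1 := CRegAux.le_g hC j x
    have h2 := hpos j
    simp only
    linarith
  · have h1 : Tendsto (fun j : ℕ => CRegAux.g u j x) atTop (𝓝 (u x)) := by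
      rw [tendsto_order]
      refine ⟨fun a ha => Eventually.of_forall fun j => lt_of_lt_of_le ha (CRegAux.le_g hC j x),
        fun a ha => ?_⟩
      filter_upwards [CRegAux.g_lim hu hC x (ε := (a - u x) / 2) (by linarith)] with j hj
      linarith
    have h2 : Tendsto (fun j : ℕ => 1 / ((j : ℝ) + 1)) atTop (𝓝 0) :=
      tendsto_one_div_add_atTop_nhds_zero_nat
    have h3 := h1.add h2
    rwa [add_zero] at h3

theorem exists_reg (hn : 0 < n) (hX : CompactSpace X) (K : Kahler X) {u : X → ℝ}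
    (hu : BPsh K u) : ∃ s : ℕ → X → ℝ, (∀ j, SPsh K (s j)) ∧ Antitone s ∧
      ∀ x, Tendsto (fun j => s j x) atTop (𝓝 (u x)) := by
  obtain ⟨h, hc, ha, hl, hlim⟩ := exists_cont_dec hu.usc hu.bdd
  have base := bk hn hX K hu (hc 0) (hl 0)
  have stp : ∀ (j : ℕ) (w : {w : X → ℝ // SPsh K w ∧ ∀ x, u x < w x}),
      ∃ v : {w : X → ℝ // SPsh K w ∧ ∀ x, u x < w x}, ∀ x, v.1 x < min (w.1 x) (h (j + 1) x) := by
    intro j w
    obtain ⟨v, hv, hv2⟩ := bk hn hX K hu (h := fun x => min (w.1 x) (h (j + 1) x))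
      ((w.2.1.1.continuous).min (hc (j + 1))) (fun x => lt_min (w.2.2 x) (hl (j + 1) x))
    exact ⟨⟨v, hv, fun x => (hv2 x).1⟩, fun x => (hv2 x).2⟩
  choose nx hnx using stp
  obtain ⟨w0, hw0, hw0'⟩ := base
  let s : ℕ → {w : X → ℝ // SPsh K w ∧ ∀ x, u x < w x} :=
    fun j => Nat.rec ⟨w0, hw0, fun x => (hw0' x).1⟩ (fun j w => nx j w) j
  have hs : ∀ j, s (j + 1) = nx j (s j) := fun j => rfl
  have hlt : ∀ j x, (s j).1 x < h j x := by
    intro j x
    cases j with
    | zero => exact (hw0' x).2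
    | succ j =>
      rw [hs]
      exact lt_of_lt_of_le (hnx j (s j) x) (min_le_right _ _)
  refine ⟨fun j => (s j).1, fun j => (s j).2.1, ?_, fun x => ?_⟩
  · refine antitone_nat_of_succ_le fun j x => ?_
    rw [hs]
    exact ((hnx j (s j) x).trans_le (min_le_left _ _)).le
  · refine tendsto_of_tendsto_of_tendsto_of_le_of_le tendsto_const_nhds (hlim x)
      (fun j => ((s j).2.2 x).le) (fun j => (hlt j x).le)

end Pool.Agent.DMA
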