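import Pool.Agent.Lib.DMA.CComp
import Pool.Agent.Lib.K708.PU

/-! # DMA, section C: complex Hessians in charts -/

set_option autoImplicit false

open scoped Manifold ContDiff Topology ComplexOrder
open Set Filter

noncomputable section

namespace Pool.Agent.DMA

open Pool.Agent.K708 (E CMfd)

variable {n : ℕ} {X : CMfd n}

/-- The complex derivative at `z` of the transition map from `φ` to the preferred chart. -/
def Jc (φ : OpenPartialHomeomorph X (E n)) (z : E n) : Matrix (Fin n) (Fin n) ℂ :=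
  mat (fderiv ℂ (chartAt (E n) (φ.symm z) ∘ φ.symm) z)

/-- The weight of a density in a chart. -/
def wt (φ : OpenPartialHomeomorph X (E n)) (z : E n) : ℝ := ‖(Jc φ z).det‖ ^ 2

/-- The matrix field `H` in the chart `φ`. -/
def inCh (φ : OpenPartialHomeomorph X (E n)) (H : X → Matrix (Fin n) (Fin n) ℂ) (z : E n) :
    Matrix (Fin n) (Fin n) ℂ :=
  (Jc φ z).transpose * H (φ.symm z) * (Jc φ z).map (starRingEnd ℂ)

theorem trans_holo {φ ψ : OpenPartialHomeomorph X (E n)} (hφ : φ ∈ CA X) (hψ : ψ ∈ CA X)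
    {z : E n} (hz : z ∈ φ.target) (hz' : φ.symm z ∈ ψ.source) :
    ContDiffAt ℂ ω (ψ ∘ φ.symm) z := by
  have h : φ.symm ≫ₕ ψ ∈ contDiffGroupoid ω 𝓘(ℂ, E n) :=
    StructureGroupoid.compatible_of_mem_maximalAtlas hφ hψ
  rw [contDiffGroupoid, mem_groupoid_of_pregroupoid] at h
  have h1 : ContDiffOn ℂ ω (ψ ∘ φ.symm) (φ.symm ≫ₕ ψ).source := by
    simpa [contDiffPregroupoid] using h.1
  refine h1.contDiffAt ((φ.symm ≫ₕ ψ).open_source.mem_nhds ?_)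
  rw [OpenPartialHomeomorph.trans_source]
  exact ⟨hz, hz'⟩

namespace CRuleAux

theorem chart_mem (x : X) : chartAt (E n) x ∈ CA X := IsManifold.chart_mem_maximalAtlas x

/-- Near `z` the point `φ.symm w` is in the open set `S`. -/
theorem ev_symm {φ : OpenPartialHomeomorph X (E n)} {z : E n} (hz : z ∈ φ.target) {S : Set X}
    (hS : IsOpen S) (h : φ.symm z ∈ S) : ∀ᶠ w in 𝓝 z, φ.symm w ∈ S :=
  (φ.symm.continuousAt hz).eventually_mem (hS.mem_nhds h)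

/-- The factorisation of `g ∘ φ.symm` through the chart `ψ`. -/
theorem ev_comp {β : Type*} {φ ψ : OpenPartialHomeomorph X (E n)} {z : E n} (hz : z ∈ φ.target)
    (hz' : φ.symm z ∈ ψ.source) (g : X → β) :
    (fun w => g (φ.symm w)) =ᶠ[𝓝 z] fun w => (fun y => g (ψ.symm y)) ((ψ ∘ φ.symm) w) := by
  filter_upwards [ev_symm hz ψ.open_source hz'] with w hw
  simp only [Function.comp_apply, ψ.left_inv hw]

theorem trans_diff {φ ψ : OpenPartialHomeomorph X (E n)} (hφ : φ ∈ CA X) (hψ : ψ ∈ CA X)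
    {z : E n} (hz : z ∈ φ.target) (hz' : φ.symm z ∈ ψ.source) :
    DifferentiableAt ℂ (ψ ∘ φ.symm) z :=
  (trans_holo hφ hψ hz hz').differentiableAt (by simp)

/-- The general chain rule for transition maps. -/
theorem chain {φ ψ c : OpenPartialHomeomorph X (E n)} (hφ : φ ∈ CA X) (hψ : ψ ∈ CA X)
    (hc : c ∈ CA X) {z : E n} (hz : z ∈ φ.target) (hz' : φ.symm z ∈ ψ.source)
    (hz'' : φ.symm z ∈ c.source) :
    mat (fderiv ℂ (c ∘ φ.symm) z)
      = mat (fderiv ℂ (c ∘ ψ.symm) (ψ (φ.symm z))) * mat (fderiv ℂ (ψ ∘ φ.symm) z) := by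
  have h1 : (c ∘ φ.symm) =ᶠ[𝓝 z] (c ∘ ψ.symm) ∘ (ψ ∘ φ.symm) := ev_comp hz hz' c
  have h2 : ψ.symm (ψ (φ.symm z)) ∈ c.source := by
    rw [ψ.left_inv hz']
    exact hz''
  have h3 : DifferentiableAt ℂ (c ∘ ψ.symm) ((ψ ∘ φ.symm) z) :=
    trans_diff hψ hc (ψ.map_source hz') h2
  rw [h1.fderiv_eq, fderiv_comp z h3 (trans_diff hφ hψ hz hz'), mat_comp]
  rfl

theorem fderiv_real {φ ψ : OpenPartialHomeomorph X (E n)} (hφ : φ ∈ CA X) (hψ : ψ ∈ CA X)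
    {z : E n} (hz : z ∈ φ.target) (hz' : φ.symm z ∈ ψ.source) :
    fderiv ℝ (ψ ∘ φ.symm) z = (fderiv ℂ (ψ ∘ φ.symm) z).restrictScalars ℝ :=
  ((trans_diff hφ hψ hz hz').hasFDerivAt.restrictScalars ℝ).fderiv

end CRuleAux

open CRuleAux

theorem Jc_change {φ ψ : OpenPartialHomeomorph X (E n)} (hφ : φ ∈ CA X) (hψ : ψ ∈ CA X)
    {z : E n} (hz : z ∈ φ.target) (hz' : φ.symm z ∈ ψ.source) :
    Jc φ z = Jc ψ (ψ (φ.symm z)) * mat (fderiv ℂ (ψ ∘ φ.symm) z) := by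
  unfold Jc
  rw [ψ.left_inv hz']
  exact chain hφ hψ (chart_mem _) hz hz' (mem_chart_source _ _)

theorem wt_change {φ ψ : OpenPartialHomeomorph X (E n)} (hφ : φ ∈ CA X) (hψ : ψ ∈ CA X)
    {z : E n} (hz : z ∈ φ.target) (hz' : φ.symm z ∈ ψ.source) :
    wt φ z = |(fderiv ℝ (ψ ∘ φ.symm) z).det| * wt ψ (ψ (φ.symm z)) := by
  unfold wt
  rw [Jc_change hφ hψ hz hz', Matrix.det_mul, norm_mul, mul_pow, fderiv_real hφ hψ hz hz',
    real_det, abs_of_nonneg (by positivity), mul_comm]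

theorem Jc_det_ne {φ : OpenPartialHomeomorph X (E n)} (hφ : φ ∈ CA X) {z : E n}
    (hz : z ∈ φ.target) : (Jc φ z).det ≠ 0 := by
  set c := chartAt (E n) (φ.symm z) with hc
  have hcs : φ.symm z ∈ c.source := mem_chart_source _ _
  have h1 : mat (fderiv ℂ (φ ∘ φ.symm) z)
      = mat (fderiv ℂ (φ ∘ c.symm) (c (φ.symm z))) * mat (fderiv ℂ (c ∘ φ.symm) z) :=
    chain hφ (chart_mem _) hφ hz hcs (φ.map_target hz)
  have h2 : (φ ∘ φ.symm) =ᶠ[𝓝 z] id := by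
    filter_upwards [φ.open_target.mem_nhds hz] with w hw
    exact φ.right_inv hw
  rw [h2.fderiv_eq, fderiv_id, mat_id] at h1
  intro h0
  have h3 := congrArg Matrix.det h1
  rw [Matrix.det_one, Matrix.det_mul] at h3
  have h4 : (mat (fderiv ℂ (c ∘ φ.symm) z)).det = 0 := h0
  rw [h4, mul_zero] at h3
  exact one_ne_zero h3

theorem wt_pos {φ : OpenPartialHomeomorph X (E n)} (hφ : φ ∈ CA X) {z : E n}
    (hz : z ∈ φ.target) : 0 < wt φ z := by
  unfold wt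
  have := norm_pos_iff.2 (Jc_det_ne hφ hz)
  positivity

/-- The preferred chart at its own point. -/
theorem Jc_chartAt (x : X) : Jc (chartAt (E n) x) (chartAt (E n) x x) = 1 := by
  unfold Jc
  have hx : x ∈ (chartAt (E n) x).source := mem_chart_source _ _
  rw [(chartAt (E n) x).left_inv hx]
  have h2 : (chartAt (E n) x ∘ (chartAt (E n) x).symm) =ᶠ[𝓝 (chartAt (E n) x x)] id := by
    filter_upwards [(chartAt (E n) x).open_target.mem_nhds
      ((chartAt (E n) x).map_source hx)] with w hw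
    exact (chartAt (E n) x).right_inv hw
  rw [h2.fderiv_eq, fderiv_id, mat_id]

theorem smooth_chart {f : X → ℝ} {U : Set X} (hU : IsOpen U)
    (hf : ContMDiffOn 𝓘(ℝ, E n) 𝓘(ℝ, ℝ) ∞ f U) {φ : OpenPartialHomeomorph X (E n)}
    (hφ : φ ∈ CA X) : ContDiffOn ℝ ∞ (fun z => f (φ.symm z)) (φ.target ∩ φ.symm ⁻¹' U) := by
  rw [← contMDiffOn_iff_contDiffOn]
  have h1 : ContMDiffOn 𝓘(ℝ, E n) 𝓘(ℝ, E n) ∞ φ.symm φ.target :=
    contMDiffOn_symm_of_mem_maximalAtlas (Pool.Agent.K708.ra_of_ca hφ)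
  exact hf.comp (h1.mono Set.inter_subset_left) (fun z hz => hz.2)

namespace CRuleAux

theorem smooth_at {f : X → ℝ} {φ : OpenPartialHomeomorph X (E n)} (hφ : φ ∈ CA X) {z : E n}
    (hz : z ∈ φ.target) (hf : ContMDiffAt 𝓘(ℝ, E n) 𝓘(ℝ, ℝ) ∞ f (φ.symm z)) :
    ContDiffAt ℝ ∞ (fun w => f (φ.symm w)) z := by
  rw [← contMDiffAt_iff_contDiffAt]
  have h1 : ContMDiffAt 𝓘(ℝ, E n) 𝓘(ℝ, E n) ∞ φ.symm z :=
    contMDiffAt_symm_of_mem_maximalAtlas (Pool.Agent.K708.ra_of_ca hφ) hz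
  exact ContMDiffAt.comp z hf h1

theorem smooth_at2 {f : X → ℝ} {φ : OpenPartialHomeomorph X (E n)} (hφ : φ ∈ CA X) {z : E n}
    (hz : z ∈ φ.target) (hf : ContMDiffAt 𝓘(ℝ, E n) 𝓘(ℝ, ℝ) ∞ f (φ.symm z)) :
    ContDiffAt ℝ 2 (fun w => f (φ.symm w)) z :=
  (smooth_at hφ hz hf).of_le (WithTop.coe_le_coe.2 le_top)

theorem smooth_pt {f : X → ℝ} {x : X} (hf : ContMDiffAt 𝓘(ℝ, E n) 𝓘(ℝ, ℝ) ∞ f x) :
    ContDiffAt ℝ 2 (fun w => f ((chartAt (E n) x).symm w)) (chartAt (E n) x x) := by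
  have hx : x ∈ (chartAt (E n) x).source := mem_chart_source _ _
  refine smooth_at2 (chart_mem x) ((chartAt (E n) x).map_source hx) ?_
  rw [(chartAt (E n) x).left_inv hx]
  exact hf

end CRuleAux

/-- The complex Hessian in a chart. -/
theorem CH_chart {f : X → ℝ} {φ : OpenPartialHomeomorph X (E n)} (hφ : φ ∈ CA X) {z : E n}
    (hz : z ∈ φ.target) (hf : ContMDiffAt 𝓘(ℝ, E n) 𝓘(ℝ, ℝ) ∞ f (φ.symm z)) :
    CH (fun w => f (φ.symm w)) z = inCh φ (hess f) z := by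
  set c := chartAt (E n) (φ.symm z) with hc
  have hcs : φ.symm z ∈ c.source := mem_chart_source _ _
  rw [CH_congr (ev_comp hz hcs f)]
  have h1 : ContDiffAt ℂ 2 (c ∘ φ.symm) z :=
    (trans_holo hφ (chart_mem _) hz hcs).of_le le_top
  have h2 : ContDiffAt ℝ 2 (fun y => f (c.symm y)) ((c ∘ φ.symm) z) := smooth_pt hf
  rw [CH_comp h1 h2]
  rfl

theorem hess_congr {f g : X → ℝ} {x : X} (h : f =ᶠ[𝓝 x] g) : hess f x = hess g x := by
  unfold hess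
  apply CH_congr
  have hx : x ∈ (chartAt (E n) x).source := mem_chart_source _ _
  have h1 : Tendsto (chartAt (E n) x).symm (𝓝 (chartAt (E n) x x)) (𝓝 x) := by
    have := (chartAt (E n) x).symm.continuousAt ((chartAt (E n) x).map_source hx)
    rw [ContinuousAt, (chartAt (E n) x).left_inv hx] at this
    exact this
  exact h1.eventually h

theorem hess_add {f g : X → ℝ} {x : X} (hf : ContMDiffAt 𝓘(ℝ, E n) 𝓘(ℝ, ℝ) ∞ f x)
    (hg : ContMDiffAt 𝓘(ℝ, E n) 𝓘(ℝ, ℝ) ∞ g x) :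
    hess (fun y => f y + g y) x = hess f x + hess g x :=
  CH_add (smooth_pt hf) (smooth_pt hg)

theorem hess_smul (c : ℝ) {f : X → ℝ} {x : X} (hf : ContMDiffAt 𝓘(ℝ, E n) 𝓘(ℝ, ℝ) ∞ f x) :
    hess (fun y => c * f y) x = (c : ℂ) • hess f x :=
  CH_smul c (smooth_pt hf)

theorem hess_addc (f : X → ℝ) (c : ℝ) (x : X) : hess (fun y => f y + c) x = hess f x :=
  CH_addc _ c _

theorem hess_const (c : ℝ) (x : X) : hess (fun _ : X => c) x = 0 :=
  CH_const c _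

theorem hess_herm {f : X → ℝ} {x : X} (hf : ContMDiffAt 𝓘(ℝ, E n) 𝓘(ℝ, ℝ) ∞ f x) :
    (hess f x).IsHermitian :=
  CH_herm (smooth_pt hf)

/-- The local formula for `ω + dd^c u`. -/
theorem inCh_pot {K : Kahler X} {U : Set X} {ρ : X → ℝ} (h : IsPot K.g U ρ) {u : X → ℝ}
    {φ : OpenPartialHomeomorph X (E n)} (hφ : φ ∈ CA X) {z : E n} (hz : z ∈ φ.target)
    (hzU : φ.symm z ∈ U) (hu : ContMDiffAt 𝓘(ℝ, E n) 𝓘(ℝ, ℝ) ∞ u (φ.symm z)) :
    CH (fun w => ρ (φ.symm w) + u (φ.symm w)) z =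
      inCh φ (fun x => K.g x + hess u x) z := by
  have hρ : ContMDiffAt 𝓘(ℝ, E n) 𝓘(ℝ, ℝ) ∞ ρ (φ.symm z) :=
    h.smooth.contMDiffAt (h.opn.mem_nhds hzU)
  rw [CH_add (smooth_at2 hφ hz hρ) (smooth_at2 hφ hz hu), CH_chart hφ hz hρ, CH_chart hφ hz hu]
  unfold inCh
  rw [h.hess _ hzU, Matrix.mul_add, Matrix.add_mul]

end Pool.Agent.DMA
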