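import Pool.Agent.Lib.DMA.LocO

/-!
# Plurifine locality
-/

set_option autoImplicit false

namespace Pool.Agent.DMA

open MeasureTheory Filter Topology Set
open scoped ENNReal

variable {X : Type} [TopologicalSpace X] [CompactSpace X] [TopologicalSpace.MetrizableSpace X]
  [MeasurableSpace X] [BorelSpace X] {n : ℕ} (T : SMA X n)

namespace LocMAux

/-- Measures with the same densities with respect to a nonnegative function agree where it is
positive. -/
theorem restrict_eq_of_density {μ ν : Measure X} [IsFiniteMeasure μ] [IsFiniteMeasure ν]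
    {g : X → ℝ} (hg : Measurable g) (h0 : ∀ x, 0 ≤ g x) (hμ : Integrable g μ)
    (hν : Integrable g ν) (h : ∀ χ : X → ℝ, Continuous χ →
      ∫ x, χ x * g x ∂μ = ∫ x, χ x * g x ∂ν) :
    μ.restrict {x | 0 < g x} = ν.restrict {x | 0 < g x} := by
  have hgm : Measurable (fun x => ENNReal.ofReal (g x)) := hg.ennreal_ofReal
  have f1 : IsFiniteMeasure (μ.withDensity fun x => ENNReal.ofReal (g x)) :=
    isFiniteMeasure_withDensity_ofReal hμ.2
  have f2 : IsFiniteMeasure (ν.withDensity fun x => ENNReal.ofReal (g x)) :=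
    isFiniteMeasure_withDensity_ofReal hν.2
  have e0 : ∀ (ρ : Measure X) (χ : X → ℝ),
      ∫ x, χ x ∂(ρ.withDensity fun x => ENNReal.ofReal (g x)) = ∫ x, χ x * g x ∂ρ := by
    intro ρ χ
    rw [integral_withDensity_eq_integral_toReal_smul hgm
      (Eventually.of_forall fun x => ENNReal.ofReal_lt_top)]
    refine integral_congr_ae (Eventually.of_forall fun x => ?_)
    simp only [smul_eq_mul]
    rw [ENNReal.toReal_ofReal (h0 x), mul_comm]
  have e1 : (μ.withDensity fun x => ENNReal.ofReal (g x)) =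
      ν.withDensity fun x => ENNReal.ofReal (g x) := by
    refine ext_of_forall_integral_eq_of_IsFiniteMeasure fun χ => ?_
    rw [e0, e0]
    exact h _ χ.continuous
  have hS : MeasurableSet {x | 0 < g x} := measurableSet_lt measurable_const hg
  have e2 : ∀ ρ : Measure X, ρ.restrict {x | 0 < g x} =
      (ρ.withDensity fun x => ENNReal.ofReal (g x)).withDensity
        (fun x => (ENNReal.ofReal (g x))⁻¹) := by
    intro ρ
    have h3 := withDensity_mul ρ hgm (g := fun x => (ENNReal.ofReal (g x))⁻¹) hgm.inv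
    rw [← h3, ← withDensity_indicator_one hS]
    congr 1
    funext x
    by_cases hx : 0 < g x
    · rw [indicator_of_mem (by exact hx), Pi.one_apply, Pi.mul_apply,
        ENNReal.mul_inv_cancel (by simpa using hx) ENNReal.ofReal_ne_top]
    · rw [indicator_of_notMem (by exact hx), Pi.mul_apply,
        ENNReal.ofReal_of_nonpos (not_lt.1 hx), zero_mul]
  rw [e2, e2, e1]

variable {T}

theorem const_dec {u : X → ℝ} (hu : u ∈ T.P) : T.Dec (fun _ => u) u :=
  ⟨fun _ => hu, fun _ _ _ => le_rfl, fun _ => tendsto_const_nhds, hu⟩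

theorem integrable_mul {ν : Measure X} [IsFiniteMeasure ν] {χ F : X → ℝ} (hχ : Continuous χ)
    (hF : F ∈ T.P) : Integrable (fun x => χ x * F x) ν := by
  obtain ⟨C, hC⟩ := (isCompact_univ (X := X)).exists_bound_of_continuousOn hχ.continuousOn
  exact (T.P_integrable hF ν).bdd_mul (c := C) hχ.aestronglyMeasurable
    (Eventually.of_forall fun x => hC x (mem_univ x))

theorem measurable_P {F : X → ℝ} (hF : F ∈ T.P) : Measurable F := (T.usc F hF).measurable

/-- Convergence with constant other entries. -/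
theorem conv_cons {m : Multiset (X → ℝ)} (hc : m.card + 1 = n) (hm : T.In m)
    {u : ℕ → X → ℝ} {v : X → ℝ} (hu : T.Dec u v) {F : ℕ → X → ℝ} {G : X → ℝ} (hF : T.Dec F G)
    {χ : X → ℝ} (hχ : Continuous χ) :
    Tendsto (fun j => ∫ x, χ x * F j x ∂T.M (u j ::ₘ m)) atTop
      (𝓝 (∫ x, χ x * G x ∂T.M (v ::ₘ m))) := by
  have h1 := T.conv (q := (u, v) ::ₘ m.map fun w => ((fun _ : ℕ => w), w))
    (by rw [Multiset.card_cons, Multiset.card_map]; exact hc)
    (by
      intro p hp
      rcases Multiset.mem_cons.1 hp with rfl | hp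
      · exact hu
      · obtain ⟨w, hw, rfl⟩ := Multiset.mem_map.1 hp
        exact const_dec (hm w hw)) hF hχ
  simpa only [Multiset.map_cons, Multiset.map_map, Function.comp_def, Multiset.map_id'] using h1

end LocMAux

open LocMAux

/-- Plurifine locality. -/
theorem SMA.loc_max {m : Multiset (X → ℝ)} (hc : m.card + 1 = n) (hm : T.In m)
    {a b : X → ℝ} (ha : a ∈ T.P) (hb : b ∈ T.P) :
    (T.M ((fun x => max (a x) (b x)) ::ₘ m)).restrict {x | b x < a x} =
      (T.M (a ::ₘ m)).restrict {x | b x < a x} := by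
  obtain ⟨s, hs0, hs1, hs2⟩ := T.reg a ha
  have hsP : ∀ j, s j ∈ T.P := fun j => T.P0_P (hs0 j)
  have dA : T.Dec s a := ⟨hsP, hs1, hs2, ha⟩
  have dC : T.Dec (fun j x => max (s j x) (b x)) (fun x => max (a x) (b x)) :=
    ⟨fun j => T.max_P _ (hsP j) _ hb, fun i j hij x => max_le_max_right _ (hs1 hij x),
      fun x => (hs2 x).max tendsto_const_nhds, T.max_P _ ha _ hb⟩
  set c : X → ℝ := fun x => max (a x) (b x) with hcdef
  set cj : ℕ → X → ℝ := fun j x => max (s j x) (b x) with hcj
  have hcP : c ∈ T.P := dC.lim_mem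
  have key : ∀ χ : X → ℝ, Continuous χ → ∫ x, χ x * (c x - b x) ∂T.M (c ::ₘ m) =
      ∫ x, χ x * (c x - b x) ∂T.M (a ::ₘ m) := by
    intro χ hχ
    have t1 := (conv_cons hc hm dC dC hχ).sub (conv_cons hc hm dC (const_dec hb) hχ)
    have t2 := (conv_cons hc hm dA dC hχ).sub (conv_cons hc hm dA (const_dec hb) hχ)
    have split : ∀ (ν : Measure X) [IsFiniteMeasure ν] (w : X → ℝ), w ∈ T.P →
        (∫ x, χ x * w x ∂ν) - ∫ x, χ x * b x ∂ν = ∫ x, χ x * (w x - b x) ∂ν := by
      intro ν _ w hw
      rw [← integral_sub (integrable_mul hχ hw) (integrable_mul hχ hb)]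
      exact integral_congr_ae (Eventually.of_forall fun x => by ring)
    have heq : ∀ j, (∫ x, χ x * cj j x ∂T.M (cj j ::ₘ m)) - ∫ x, χ x * b x ∂T.M (cj j ::ₘ m) =
        (∫ x, χ x * cj j x ∂T.M (s j ::ₘ m)) - ∫ x, χ x * b x ∂T.M (s j ::ₘ m) := by
      intro j
      rw [split _ _ (dC.mem j), split _ _ (dC.mem j)]
      have hU : IsOpen {x | b x < s j x} := by
        have h1 : UpperSemicontinuous fun x => b x + -s j x :=
          (T.usc b hb).add ((T.S_cont _ (T.P0_S (hs0 j))).neg.upperSemicontinuous)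
        have h2 := h1.isOpen_preimage 0
        convert h2 using 1
        ext x
        simp only [mem_ofPred_eq, mem_preimage, mem_Iio]
        constructor <;> intro h <;> linarith
      have hloc := T.loc_open hc hm (dC.mem j) (hsP j) hU (fun x hx => max_eq_left (le_of_lt hx))
      have hoff : ∀ x, x ∉ {x | b x < s j x} → χ x * (cj j x - b x) = 0 := by
        intro x hx
        have h1 : s j x ≤ b x := not_lt.1 hx
        have h2 : cj j x = b x := max_eq_right h1
        rw [h2, sub_self, mul_zero]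
      rw [← setIntegral_eq_integral_of_forall_compl_eq_zero hoff,
        ← setIntegral_eq_integral_of_forall_compl_eq_zero (μ := T.M (s j ::ₘ m)) hoff, hloc]
    have t3 := tendsto_nhds_unique (t1.congr heq) t2
    rw [split _ _ hcP, split _ _ hcP] at t3
    exact t3
  have hint : ∀ (ν : Measure X) [IsFiniteMeasure ν], Integrable (fun x => c x - b x) ν :=
    fun ν _ => (T.P_integrable hcP ν).sub (T.P_integrable hb ν)
  have h1 := restrict_eq_of_density (g := fun x => c x - b x)
    ((measurable_P hcP).sub (measurable_P hb))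
    (fun x => sub_nonneg.2 (le_max_right _ _)) (hint _) (hint _) key
  have h2 : {x | 0 < c x - b x} = {x | b x < a x} := by
    ext x
    simp only [mem_ofPred_eq, sub_pos, hcdef, lt_max_iff, lt_irrefl, or_false]
  rwa [h2] at h1

end Pool.Agent.DMA
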