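import Pool.Agent.Lib.DMA.CM1
import Pool.Agent.Lib.DMA.CReg
import Pool.Agent.Lib.DMA.LocM

/-! # DMA, section C: the calculus of bounded `ω`-psh functions on a compact Kähler manifold -/

set_option autoImplicit false

open scoped Manifold ContDiff Topology ComplexOrder
open Set Filter MeasureTheory

noncomputable section

namespace Pool.Agent.DMA

open Pool.Agent.K708 (E CMfd PUnit')

variable {n : ℕ} {X : CMfd n}

namespace CSmaAux

theorem metr (hX : CompactSpace X) : TopologicalSpace.MetrizableSpace X := by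
  infer_instance

theorem spsh_cont {K : Kahler X} {u : X → ℝ} (hu : SPsh K u) : Continuous u := hu.1.continuous

/-- The data of the abstract theory. -/
def mk (hn : 0 < n) (hX : CompactSpace X) (hne : Nonempty X) (K : Kahler X) (P : PUnit' n X) :
    SMA X n where
  S := {f | Sm f}
  P0 := {u | SPsh K u}
  P := {u | BPsh K u}
  M0 := M0m P K
  V := Int P fun x => ((K.g x).det).re
  n_pos := hn
  V_pos := vol_pos hX hne P K
  P0_P := fun u hu => SPsh.bpsh hn hX hu
  P0_S := fun u hu => hu.1
  S_cont := fun s hs => ContMDiff.continuous hs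
  S_add := fun s hs t ht => ContMDiff.add hs ht
  S_mul := fun s hs t ht => ContMDiff.mul hs ht
  S_const := fun c => contMDiff_const
  S_comp := fun s hs θ hθ => hθ.contMDiff.comp hs
  S_dense := fun f hf ε hε => by
    obtain ⟨s, hs, h⟩ := exists_smooth_approx hX hf hε
    exact ⟨s, hs, h⟩
  S_scale := fun s hs => exists_scale hX K hs
  zero_P0 := SPsh.zero K
  const_P0 := fun u hu c => SPsh.addc hu c
  convex_P0 := fun u hu v hv t ht => SPsh.convex hu hv ht
  usc := fun u hu => hu.usc
  bdd := fun u hu => hu.bdd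
  const_P := fun u hu c => hu.addc c
  convex_P := fun u hu v hv t ht => hu.convex hv ht
  max_P := fun u hu v hv => hu.max hv
  lim_P := fun u hu ha v hl hb => bpsh_of_dec hn hX hu (fun x i j hij => ha hij x) hl hb
  reg := fun u hu => exists_reg hn hX K hu
  mass := fun m hc hm => M0m_mass hX P K hc hm
  affine := fun m hc hm u hu v hv t ht f hf => M0m_affine hX P K hc hm hu hv ht hf
  addc := fun m hc hm u hu c => M0m_addc hX P K hc hm hu c
  ibp := fun m hc hm f hf a ha b hb => M0m_ibp hX P K hc hm hf ha hb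
  loc := fun m hc hm a ha b hb U hU h f hf hfU => M0m_loc hX P K hc hm ha hb hU h hf hfU

end CSmaAux

open CSmaAux

theorem exists_sma (hn : 0 < n) (hX : CompactSpace X) (hne : Nonempty X) (K : Kahler X) :
    ∃ T : SMA X n, T.S = {f | Sm f} ∧ T.P0 = {u | SPsh K u} ∧ T.P = {u | BPsh K u} ∧
      ∀ u : Fin n → X → ℝ, (∀ i, SPsh K (u i)) →
        LocMix K univ u (T.M0 (Finset.univ.val.map u)) := by
  obtain ⟨P, -, -⟩ := Pool.Agent.K708.exists_pu X hX (fun _ => univ) fun _ => Filter.univ_mem
  exact ⟨mk hn hX hne K P, rfl, rfl, rfl, fun u hu => M0m_locMix hX P K hu⟩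

/-- The calculus of bounded `ω`-psh functions. -/
theorem exists_calc (hn : 0 < n) (hX : CompactSpace X) (hne : Nonempty X) (K : Kahler X) :
    ∃ C : Calc X n, C.S = {f | Sm f} ∧ C.P = {u | BPsh K u} ∧ 0 < C.V ∧
      ∀ u : Fin n → X → ℝ, (∀ i, SPsh K (u i)) →
        LocMix K univ u (C.M (Finset.univ.val.map u)) := by
  obtain ⟨T, hS, hP0, hP, hloc⟩ := exists_sma hn hX hne K
  have hmet : TopologicalSpace.MetrizableSpace X := metr hX
  have hfin : ∀ m, IsFiniteMeasure (T.M m) := fun m => inferInstance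
  have hdec : ∀ p : (ℕ → X → ℝ) × (X → ℝ), Dec T.P p → T.Dec p.1 p.2 := fun p hp =>
    ⟨hp.1, fun i j hij x => hp.2.2.1 x hij, hp.2.2.2, hp.2.1⟩
  have hint : ∀ {F : X → ℝ}, F ∈ T.P → ∀ m, Integrable F (T.M m) := fun hF m =>
    T.P_integrable hF (T.M m)
  refine ⟨
    { S := T.S
      P := T.P
      M := T.M
      V := T.V
      S_cont := T.S_cont
      S_add := T.S_add
      S_mul := T.S_mul
      S_const := T.S_const
      S_bump := ?_
      S_small := ?_
      P_usc := T.usc
      P_bdd := T.bdd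
      P_zero := T.P0_P T.zero_P0
      P_conv := fun f hf g hg c h0 h1 => T.convex_P f hf g hg c ⟨h0, h1⟩
      P_const := T.const_P
      P_max := T.max_P
      P_lim := fun u f hu ha hl hb => T.lim_P u hu (fun i j hij x => ha x hij) f hl hb
      P_apx := ?_
      fin := hfin
      mass := ?_
      affine := fun Θ hc hm a ha b hb c h0 h1 => T.M_affine hc hm ha hb ⟨h0, h1⟩
      shift := fun Θ hc hm a ha c => T.M_addc hc hm ha c
      ibp := fun Θ hc hm a ha b hb f hf g hg => T.M_ibp hc hm hf hg ha hb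
      loc := fun Θ hc hm a ha b hb U hU h => T.loc_open hc hm ha hb hU h
      maxloc := fun Θ hc hm a ha b hb => T.loc_max hc hm ha hb
      conv := fun p hp Θ hc hΘ χ hχ => T.conv hc (fun q hq => hdec q (hΘ q hq)) (hdec p hp) hχ },
    hS, hP, T.V_pos, fun u hu => ?_⟩
  · intro K' U hK hU hKU
    obtain ⟨χ, h1, h2, h3, h4, h5⟩ := Pool.Agent.K708.exists_bump X hK hU hKU
    refine ⟨χ, ?_, h2, fun x hx => ?_, h4⟩
    · rw [hS]; exact h1
    · exact (eventually_nhdsSet_iff_forall.1 h3 x hx).self_of_nhds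
  · intro f hf
    obtain ⟨C, hC, h⟩ := T.S_scale f hf
    refine ⟨C⁻¹, inv_pos.2 hC, T.P0_P ?_⟩
    have e : (fun x => C⁻¹ * f x) = fun x => f x / C := by
      funext x
      rw [div_eq_inv_mul]
    rw [e]
    exact h
  · intro f hf
    obtain ⟨s, h1, h2, h3⟩ := T.reg f hf
    exact ⟨s, ⟨fun j => T.P0_P (h1 j), hf, fun x i j hij => h2 hij x, h3⟩,
      fun j => T.P0_S (h1 j)⟩
  · intro Θ hc hm
    rw [Measure.real, T.M_mass hc hm, ENNReal.toReal_ofReal T.V_pos.le]
  · have hc : (Finset.univ.val.map u).card = n := by simp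
    have hm : T.In0 (Finset.univ.val.map u) := by
      intro v hv
      obtain ⟨i, -, rfl⟩ := Multiset.mem_map.1 hv
      rw [hP0]
      exact hu i
    show LocMix K univ u (T.M (Finset.univ.val.map u))
    rw [T.M_smooth hc hm]
    exact hloc u hu

end Pool.Agent.DMA
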