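import Pool.Agent.Lib.DMA.Defs

/-! # DMA, section C: Wirtinger derivatives -/

set_option autoImplicit false

open scoped ContDiff Topology ComplexOrder
open Set Filter MeasureTheory

noncomputable section

namespace Pool.Agent.DMA

open Pool.Agent.K708 (E)

variable {n : ℕ}

/-- `∂ / ∂z_j` -/
def wd (j : Fin n) (F : E n → ℂ) (z : E n) : ℂ :=
  (fderiv ℝ F z (Pi.single j 1) - Complex.I * fderiv ℝ F z (Complex.I • Pi.single j 1)) / 2

/-- `∂ / ∂bar z_j` -/
def wb (j : Fin n) (F : E n → ℂ) (z : E n) : ℂ :=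
  (fderiv ℝ F z (Pi.single j 1) + Complex.I * fderiv ℝ F z (Complex.I • Pi.single j 1)) / 2

namespace CWirtAux

/-- the common form of the two derivatives -/
def W (c : ℂ) (j : Fin n) (F : E n → ℂ) (z : E n) : ℂ :=
  (fderiv ℝ F z (Pi.single j 1) + c * fderiv ℝ F z (Complex.I • Pi.single j 1)) / 2

lemma wd_eq (j : Fin n) (F : E n → ℂ) : wd j F = W (-Complex.I) j F := by
  funext z
  simp only [wd, W]
  ring

lemma wb_eq (j : Fin n) (F : E n → ℂ) : wb j F = W Complex.I j F := rfl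

lemma app_smooth {F : E n → ℂ} (hF : ContDiff ℝ ∞ F) (v : E n) :
    ContDiff ℝ ∞ fun z => fderiv ℝ F z v :=
  (hF.fderiv_right (m := ∞) (by simp)).clm_apply contDiff_const

lemma W_smooth (c : ℂ) {F : E n → ℂ} (hF : ContDiff ℝ ∞ F) (j : Fin n) :
    ContDiff ℝ ∞ (W c j F) :=
  ((app_smooth hF _).add (contDiff_const.mul (app_smooth hF _))).div_const 2

lemma diff {F : E n → ℂ} (hF : ContDiff ℝ ∞ F) (z : E n) : DifferentiableAt ℝ F z :=
  (hF.differentiable (by simp)) z

lemma W_mul (c : ℂ) {F G : E n → ℂ} (hF : ContDiff ℝ ∞ F) (hG : ContDiff ℝ ∞ G) (j : Fin n)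
    (z : E n) : W c j (fun w => F w * G w) z = F z * W c j G z + G z * W c j F z := by
  have h : fderiv ℝ (fun w => F w * G w) z = F z • fderiv ℝ G z + G z • fderiv ℝ F z :=
    fderiv_fun_mul (diff hF z) (diff hG z)
  simp only [W]
  rw [h]
  simp only [add_apply, smul_apply, smul_eq_mul]
  ring

lemma W_one (c : ℂ) (j : Fin n) (z : E n) : W c j (fun _ => (1 : ℂ)) z = 0 := by
  simp only [W, fderiv_fun_const, Pi.zero_apply, zero_apply]
  simp

lemma W_prod (c : ℂ) {ι : Type} [DecidableEq ι] (s : Finset ι) {F : ι → E n → ℂ}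
    (hF : ∀ i, ContDiff ℝ ∞ (F i)) (j : Fin n) (z : E n) :
    W c j (fun w => ∏ i ∈ s, F i w) z = ∑ i ∈ s, W c j (F i) z * ∏ l ∈ s.erase i, F l z := by
  induction s using Finset.induction_on with
  | empty =>
    simp only [Finset.prod_empty, Finset.sum_empty]
    exact W_one c j z
  | insert a s ha ih =>
    have h1 : (fun w => ∏ i ∈ insert a s, F i w) = fun w => F a w * ∏ i ∈ s, F i w := by
      funext w
      rw [Finset.prod_insert ha]
    have h2 : ContDiff ℝ ∞ fun w => ∏ i ∈ s, F i w := contDiff_prod fun i _ => hF i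
    rw [h1, W_mul c (hF a) h2, ih, Finset.sum_insert ha, Finset.erase_insert ha, add_comm,
      mul_comm (∏ i ∈ s, F i z), Finset.mul_sum]
    congr 1
    refine Finset.sum_congr rfl fun i hi => ?_
    have hne : a ≠ i := fun h => ha (h ▸ hi)
    rw [Finset.erase_insert_of_ne hne, Finset.prod_insert (fun h => ha (Finset.mem_of_mem_erase h))]
    ring

lemma fderiv_W (c : ℂ) {F : E n → ℂ} (hF : ContDiff ℝ ∞ F) (k : Fin n) (z u : E n) :
    fderiv ℝ (W c k F) z u = (fderiv ℝ (fderiv ℝ F) z u (Pi.single k 1) +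
      c * fderiv ℝ (fderiv ℝ F) z u (Complex.I • Pi.single k 1)) / 2 := by
  have hd : DifferentiableAt ℝ (fderiv ℝ F) z :=
    ((hF.fderiv_right (m := ∞) (by simp)).differentiable (by simp)) z
  have h1 : ∀ v : E n, HasFDerivAt (fun w => fderiv ℝ F w v)
      ((fderiv ℝ (fderiv ℝ F) z).flip v) z := by
    intro v
    have h := hd.hasFDerivAt.clm_apply (hasFDerivAt_const v z)
    simpa using h
  have h2 : HasFDerivAt (W c k F) (((2 : ℂ)⁻¹) • ((fderiv ℝ (fderiv ℝ F) z).flip (Pi.single k 1) +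
      c • (fderiv ℝ (fderiv ℝ F) z).flip (Complex.I • Pi.single k 1))) z := by
    have h3 := ((h1 (Pi.single k 1)).add ((h1 (Complex.I • Pi.single k 1)).const_mul c)).mul_const
      ((2 : ℂ)⁻¹)
    exact h3
  rw [h2.fderiv]
  simp only [smul_apply, add_apply,
    ContinuousLinearMap.flip_apply, smul_eq_mul]
  ring

lemma symm {F : E n → ℂ} (hF : ContDiff ℝ ∞ F) (z u v : E n) :
    fderiv ℝ (fderiv ℝ F) z u v = fderiv ℝ (fderiv ℝ F) z v u :=
  (hF.contDiffAt.isSymmSndFDerivAt (by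
    rw [minSmoothness_of_isRCLikeNormedField]
    exact WithTop.coe_le_coe.2 (le_top : (2 : ℕ∞) ≤ ⊤))) u v

lemma W_comm (c c' : ℂ) {F : E n → ℂ} (hF : ContDiff ℝ ∞ F) (j k : Fin n) (z : E n) :
    W c j (W c' k F) z = W c' k (W c j F) z := by
  have h1 : W c j (W c' k F) z = (fderiv ℝ (W c' k F) z (Pi.single j 1) +
    c * fderiv ℝ (W c' k F) z (Complex.I • Pi.single j 1)) / 2 := rfl
  have h2 : W c' k (W c j F) z = (fderiv ℝ (W c j F) z (Pi.single k 1) +
    c' * fderiv ℝ (W c j F) z (Complex.I • Pi.single k 1)) / 2 := rfl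
  rw [h1, h2, fderiv_W c' hF, fderiv_W c' hF, fderiv_W c hF, fderiv_W c hF,
    symm hF z (Pi.single k 1) (Pi.single j 1),
    symm hF z (Pi.single k 1) (Complex.I • Pi.single j 1),
    symm hF z (Complex.I • Pi.single k 1) (Pi.single j 1),
    symm hF z (Complex.I • Pi.single k 1) (Complex.I • Pi.single j 1)]
  ring

lemma W_supp (c : ℂ) {F : E n → ℂ} (hc : HasCompactSupport F) (j : Fin n) :
    HasCompactSupport (W c j F) := by
  refine HasCompactSupport.of_support_subset_isCompact (hc.fderiv ℝ) ?_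
  intro z hz
  by_contra h
  apply hz
  have h0 : fderiv ℝ F z = 0 := image_eq_zero_of_notMem_tsupport h
  simp only [W, h0, zero_apply, mul_zero, add_zero, zero_div]

lemma app_supp {F : E n → ℂ} (hc : HasCompactSupport F) (v : E n) :
    HasCompactSupport fun z => fderiv ℝ F z v := by
  refine HasCompactSupport.of_support_subset_isCompact (hc.fderiv ℝ) ?_
  intro z hz
  by_contra h
  apply hz
  have h0 : fderiv ℝ F z = 0 := image_eq_zero_of_notMem_tsupport h
  simp only [h0, zero_apply]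

lemma app_int {F : E n → ℂ} (hF : ContDiff ℝ ∞ F) (hc : HasCompactSupport F) (v : E n) :
    Integrable fun z => fderiv ℝ F z v :=
  (app_smooth hF v).continuous.integrable_of_hasCompactSupport (app_supp hc v)

lemma integral_app {F : E n → ℂ} (hF : ContDiff ℝ ∞ F) (hc : HasCompactSupport F) (v : E n) :
    ∫ z, fderiv ℝ F z v = 0 := by
  have h := integral_smul_fderiv_eq_neg_fderiv_smul_of_integrable (𝕜 := ℝ) (μ := volume)
    (f := fun _ : E n => (1 : ℝ)) (g := F) (v := v) (by simp)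
    (by simpa using app_int hF hc v)
    (by simpa using hF.continuous.integrable_of_hasCompactSupport hc)
    (fun x _ => differentiableAt_const _) (fun x _ => (hF.differentiable (by simp)) x)
  simpa using h

lemma integral_W (c : ℂ) {F : E n → ℂ} (hF : ContDiff ℝ ∞ F) (hc : HasCompactSupport F)
    (j : Fin n) : ∫ z, W c j F z = 0 := by
  simp only [W]
  rw [integral_div, integral_add (app_int hF hc _) ((app_int hF hc _).const_mul c),
    integral_const_mul, integral_app hF hc, integral_app hF hc]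
  simp

end CWirtAux

open CWirtAux

theorem wd_smooth {F : E n → ℂ} (hF : ContDiff ℝ ∞ F) (j : Fin n) : ContDiff ℝ ∞ (wd j F) := by
  rw [wd_eq]
  exact W_smooth _ hF j

theorem wb_smooth {F : E n → ℂ} (hF : ContDiff ℝ ∞ F) (j : Fin n) : ContDiff ℝ ∞ (wb j F) := by
  rw [wb_eq]
  exact W_smooth _ hF j

theorem wd_mul {F G : E n → ℂ} (hF : ContDiff ℝ ∞ F) (hG : ContDiff ℝ ∞ G) (j : Fin n)
    (z : E n) : wd j (fun w => F w * G w) z = F z * wd j G z + G z * wd j F z := by
  rw [wd_eq, wd_eq, wd_eq]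
  exact W_mul _ hF hG j z

theorem wb_mul {F G : E n → ℂ} (hF : ContDiff ℝ ∞ F) (hG : ContDiff ℝ ∞ G) (j : Fin n)
    (z : E n) : wb j (fun w => F w * G w) z = F z * wb j G z + G z * wb j F z := by
  rw [wb_eq, wb_eq, wb_eq]
  exact W_mul _ hF hG j z

theorem wd_prod {ι : Type} [DecidableEq ι] (s : Finset ι) {F : ι → E n → ℂ}
    (hF : ∀ i, ContDiff ℝ ∞ (F i)) (j : Fin n) (z : E n) :
    wd j (fun w => ∏ i ∈ s, F i w) z = ∑ i ∈ s, wd j (F i) z * ∏ l ∈ s.erase i, F l z := by
  simp only [wd_eq]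
  exact W_prod _ s hF j z

theorem wb_prod {ι : Type} [DecidableEq ι] (s : Finset ι) {F : ι → E n → ℂ}
    (hF : ∀ i, ContDiff ℝ ∞ (F i)) (j : Fin n) (z : E n) :
    wb j (fun w => ∏ i ∈ s, F i w) z = ∑ i ∈ s, wb j (F i) z * ∏ l ∈ s.erase i, F l z := by
  simp only [wb_eq]
  exact W_prod _ s hF j z

theorem wd_comm {F : E n → ℂ} (hF : ContDiff ℝ ∞ F) (j k : Fin n) (z : E n) :
    wd j (wd k F) z = wd k (wd j F) z := by
  simp only [wd_eq]
  exact W_comm _ _ hF j k z

theorem wb_comm {F : E n → ℂ} (hF : ContDiff ℝ ∞ F) (j k : Fin n) (z : E n) :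
    wb j (wb k F) z = wb k (wb j F) z := by
  simp only [wb_eq]
  exact W_comm _ _ hF j k z

theorem wd_wb {F : E n → ℂ} (hF : ContDiff ℝ ∞ F) (j k : Fin n) (z : E n) :
    wd j (wb k F) z = wb k (wd j F) z := by
  simp only [wd_eq, wb_eq]
  exact W_comm _ _ hF j k z

theorem CH_eq_wd {f : E n → ℝ} (hf : ContDiff ℝ ∞ f) (z : E n) (j k : Fin n) :
    CH f z j k = wd j (wb k fun w => (f w : ℂ)) z := by
  have hF : ContDiff ℝ ∞ fun w => (f w : ℂ) := Complex.ofRealCLM.contDiff.comp hf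
  have h1 : fderiv ℝ (fun w => (f w : ℂ)) = fun z => Complex.ofRealCLM.comp (fderiv ℝ f z) := by
    funext w
    exact (Complex.ofRealCLM.hasFDerivAt.comp w
      ((hf.differentiable (by simp)) w).hasFDerivAt).fderiv
  have hd : DifferentiableAt ℝ (fderiv ℝ f) z :=
    ((hf.fderiv_right (m := ∞) (by simp)).differentiable (by simp)) z
  have h2 : ∀ u v : E n, fderiv ℝ (fderiv ℝ (fun w => (f w : ℂ))) z u v = (D2 f z u v : ℂ) := by
    intro u v
    rw [h1]
    have h3 := (((ContinuousLinearMap.compL ℝ (E n) ℝ ℂ) Complex.ofRealCLM).hasFDerivAt.comp z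
      hd.hasFDerivAt).fderiv
    have h4 : fderiv ℝ (fun z => Complex.ofRealCLM.comp (fderiv ℝ f z)) z =
      ((ContinuousLinearMap.compL ℝ (E n) ℝ ℂ) Complex.ofRealCLM).comp
        (fderiv ℝ (fderiv ℝ f) z) := h3
    rw [h4]
    rfl
  have h5 : wd j (wb k fun w => (f w : ℂ)) z =
      (fderiv ℝ (W Complex.I k fun w => (f w : ℂ)) z (Pi.single j 1) -
        Complex.I * fderiv ℝ (W Complex.I k fun w => (f w : ℂ)) z
          (Complex.I • Pi.single j 1)) / 2 := rfl
  rw [h5, fderiv_W _ hF, fderiv_W _ hF, h2, h2, h2, h2]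
  simp only [CH_D2]
  have hI : Complex.I * Complex.I = -1 := Complex.I_mul_I
  linear_combination (1 / 4 : ℂ) *
    (D2 f z (Complex.I • Pi.single j 1) (Complex.I • Pi.single k 1) : ℂ) * hI

theorem wd_supp {F : E n → ℂ} (hc : HasCompactSupport F) (j : Fin n) :
    HasCompactSupport (wd j F) := by
  rw [wd_eq]
  exact W_supp _ hc j

theorem wb_supp {F : E n → ℂ} (hc : HasCompactSupport F) (j : Fin n) :
    HasCompactSupport (wb j F) := by
  rw [wb_eq]
  exact W_supp _ hc j

theorem integral_wd {F : E n → ℂ} (hF : ContDiff ℝ ∞ F) (hc : HasCompactSupport F) (j : Fin n) :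
    ∫ z, wd j F z = 0 := by
  rw [wd_eq]
  exact integral_W _ hF hc j

theorem integral_wb {F : E n → ℂ} (hF : ContDiff ℝ ∞ F) (hc : HasCompactSupport F) (j : Fin n) :
    ∫ z, wb j F z = 0 := by
  rw [wb_eq]
  exact integral_W _ hF hc j

end Pool.Agent.DMA
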