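import Mathlib

/-! # DMA: abstract Monge–Ampère calculus

`Calc0` = smooth `ω`-psh functions on a compact space with their mixed Monge–Ampère measures.
`Calc` = bounded `ω`-psh functions with their mixed Monge–Ampère measures (Bedford–Taylor). -/

set_option autoImplicit false

open scoped Topology
open Set Filter MeasureTheory

noncomputable section

namespace Pool.Agent.DMA

/-- Mixed Monge–Ampère measures `(ω + dd^c u_1) ∧ ... ∧ (ω + dd^c u_n)` of smooth `ω`-psh functions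
(`P0`); `S` is the algebra of smooth functions. -/
structure Calc0 (X : Type*) [TopologicalSpace X] [MeasurableSpace X] (n : ℕ) where
  S : Set (X → ℝ)
  P0 : Set (X → ℝ)
  M0 : (Fin n → X → ℝ) → Measure X
  S_cont : ∀ f ∈ S, Continuous f
  S_add : ∀ f ∈ S, ∀ g ∈ S, (fun x => f x + g x) ∈ S
  S_mul : ∀ f ∈ S, ∀ g ∈ S, (fun x => f x * g x) ∈ S
  S_const : ∀ c : ℝ, (fun _ => c) ∈ S
  S_bump : ∀ K U : Set X, IsCompact K → IsOpen U → K ⊆ U → ∃ χ ∈ S, (∀ x, 0 ≤ χ x ∧ χ x ≤ 1) ∧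
    (∀ x ∈ K, χ x = 1) ∧ tsupport χ ⊆ U
  P0_S : P0 ⊆ S
  P0_zero : (fun _ => (0 : ℝ)) ∈ P0
  P0_conv : ∀ f ∈ P0, ∀ g ∈ P0, ∀ c : ℝ, 0 ≤ c → c ≤ 1 →
    (fun x => c * f x + (1 - c) * g x) ∈ P0
  P0_const : ∀ f ∈ P0, ∀ c : ℝ, (fun x => f x + c) ∈ P0
  P0_small : ∀ f ∈ S, ∃ c : ℝ, 0 < c ∧ (fun x => c * f x) ∈ P0
  P0_sq : ∀ f ∈ P0, (∀ x, 0 ≤ f x ∧ f x ≤ 1) → (fun x => f x ^ 2 / 2) ∈ P0
  P0_max : ∀ f ∈ P0, ∀ g ∈ P0, ∀ ε > 0, ∃ h ∈ P0, ∀ x,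
    max (f x) (g x) ≤ h x ∧ h x ≤ max (f x) (g x) + ε
  fin : ∀ u : Fin n → X → ℝ, (∀ i, u i ∈ P0) → IsFiniteMeasure (M0 u)
  symm : ∀ (u : Fin n → X → ℝ) (σ : Equiv.Perm (Fin n)), (∀ i, u i ∈ P0) →
    M0 (fun i => u (σ i)) = M0 u
  affine : ∀ (u : Fin n → X → ℝ) (i : Fin n), (∀ i, u i ∈ P0) → ∀ a ∈ P0, ∀ b ∈ P0, ∀ c : ℝ,
    0 ≤ c → c ≤ 1 → M0 (Function.update u i (fun x => c * a x + (1 - c) * b x)) =
      ENNReal.ofReal c • M0 (Function.update u i a) +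
        ENNReal.ofReal (1 - c) • M0 (Function.update u i b)
  shift : ∀ (u : Fin n → X → ℝ) (i : Fin n), (∀ i, u i ∈ P0) → ∀ c : ℝ,
    M0 (Function.update u i (fun x => u i x + c)) = M0 u
  ibp : ∀ (u : Fin n → X → ℝ) (i : Fin n), (∀ i, u i ∈ P0) → ∀ a ∈ P0, ∀ b ∈ P0, ∀ f ∈ P0,
    ∀ g ∈ P0, ∫ x, (f x - g x) ∂(M0 (Function.update u i a)) -
        ∫ x, (f x - g x) ∂(M0 (Function.update u i b)) =
      ∫ x, (a x - b x) ∂(M0 (Function.update u i f)) -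
        ∫ x, (a x - b x) ∂(M0 (Function.update u i g))
  loc : ∀ (u : Fin n → X → ℝ) (i : Fin n), (∀ i, u i ∈ P0) → ∀ a ∈ P0, ∀ b ∈ P0,
    ∀ U : Set X, IsOpen U → (∀ x ∈ U, a x = b x) →
    (M0 (Function.update u i a)).restrict U = (M0 (Function.update u i b)).restrict U

/-- `p.1` is a decreasing sequence in `P` with limit `p.2` in `P`. -/
def Dec {X : Type*} (P : Set (X → ℝ)) (p : (ℕ → X → ℝ) × (X → ℝ)) : Prop :=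
  (∀ j, p.1 j ∈ P) ∧ p.2 ∈ P ∧ (∀ x, Antitone fun j => p.1 j x) ∧
    ∀ x, Tendsto (fun j => p.1 j x) atTop (𝓝 (p.2 x))

/-- Mixed Monge–Ampère measures of bounded `ω`-psh functions (`P`), as functions of multisets of
cardinality `n`. -/
structure Calc (X : Type*) [TopologicalSpace X] [MeasurableSpace X] (n : ℕ) where
  S : Set (X → ℝ)
  P : Set (X → ℝ)
  M : Multiset (X → ℝ) → Measure X
  V : ℝ
  S_cont : ∀ f ∈ S, Continuous f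
  S_add : ∀ f ∈ S, ∀ g ∈ S, (fun x => f x + g x) ∈ S
  S_mul : ∀ f ∈ S, ∀ g ∈ S, (fun x => f x * g x) ∈ S
  S_const : ∀ c : ℝ, (fun _ => c) ∈ S
  S_bump : ∀ K U : Set X, IsCompact K → IsOpen U → K ⊆ U → ∃ χ ∈ S, (∀ x, 0 ≤ χ x ∧ χ x ≤ 1) ∧
    (∀ x ∈ K, χ x = 1) ∧ tsupport χ ⊆ U
  S_small : ∀ f ∈ S, ∃ c : ℝ, 0 < c ∧ (fun x => c * f x) ∈ P
  P_usc : ∀ f ∈ P, UpperSemicontinuous f
  P_bdd : ∀ f ∈ P, ∃ C, ∀ x, |f x| ≤ C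
  P_zero : (fun _ => (0 : ℝ)) ∈ P
  P_conv : ∀ f ∈ P, ∀ g ∈ P, ∀ c : ℝ, 0 ≤ c → c ≤ 1 →
    (fun x => c * f x + (1 - c) * g x) ∈ P
  P_const : ∀ f ∈ P, ∀ c : ℝ, (fun x => f x + c) ∈ P
  P_max : ∀ f ∈ P, ∀ g ∈ P, (fun x => max (f x) (g x)) ∈ P
  P_lim : ∀ (u : ℕ → X → ℝ) (f : X → ℝ), (∀ j, u j ∈ P) → (∀ x, Antitone fun j => u j x) →
    (∀ x, Tendsto (fun j => u j x) atTop (𝓝 (f x))) → (∃ c, ∀ x, c ≤ f x) → f ∈ P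
  /-- every element of `P` is the limit of a decreasing sequence of smooth elements of `P` -/
  P_apx : ∀ f ∈ P, ∃ u : ℕ → X → ℝ, Dec P (u, f) ∧ ∀ j, u j ∈ S
  fin : ∀ Θ, IsFiniteMeasure (M Θ)
  mass : ∀ Θ : Multiset (X → ℝ), Multiset.card Θ = n → (∀ u ∈ Θ, u ∈ P) → (M Θ).real univ = V
  affine : ∀ Θ : Multiset (X → ℝ), Multiset.card Θ + 1 = n → (∀ u ∈ Θ, u ∈ P) → ∀ a ∈ P, ∀ b ∈ P,
    ∀ c : ℝ, 0 ≤ c → c ≤ 1 → M ((fun x => c * a x + (1 - c) * b x) ::ₘ Θ) =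
      ENNReal.ofReal c • M (a ::ₘ Θ) + ENNReal.ofReal (1 - c) • M (b ::ₘ Θ)
  shift : ∀ Θ : Multiset (X → ℝ), Multiset.card Θ + 1 = n → (∀ u ∈ Θ, u ∈ P) → ∀ a ∈ P, ∀ c : ℝ,
    M ((fun x => a x + c) ::ₘ Θ) = M (a ::ₘ Θ)
  ibp : ∀ Θ : Multiset (X → ℝ), Multiset.card Θ + 1 = n → (∀ u ∈ Θ, u ∈ P) → ∀ a ∈ P, ∀ b ∈ P,
    ∀ f ∈ P, ∀ g ∈ P, ∫ x, (f x - g x) ∂(M (a ::ₘ Θ)) - ∫ x, (f x - g x) ∂(M (b ::ₘ Θ)) =
      ∫ x, (a x - b x) ∂(M (f ::ₘ Θ)) - ∫ x, (a x - b x) ∂(M (g ::ₘ Θ))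
  loc : ∀ Θ : Multiset (X → ℝ), Multiset.card Θ + 1 = n → (∀ u ∈ Θ, u ∈ P) → ∀ a ∈ P, ∀ b ∈ P,
    ∀ U : Set X, IsOpen U → (∀ x ∈ U, a x = b x) →
    (M (a ::ₘ Θ)).restrict U = (M (b ::ₘ Θ)).restrict U
  maxloc : ∀ Θ : Multiset (X → ℝ), Multiset.card Θ + 1 = n → (∀ u ∈ Θ, u ∈ P) → ∀ a ∈ P, ∀ b ∈ P,
    (M ((fun x => max (a x) (b x)) ::ₘ Θ)).restrict {x | b x < a x} =
      (M (a ::ₘ Θ)).restrict {x | b x < a x}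
  conv : ∀ p, Dec P p → ∀ Θ : Multiset ((ℕ → X → ℝ) × (X → ℝ)), Multiset.card Θ = n →
    (∀ q ∈ Θ, Dec P q) → ∀ χ : X → ℝ, Continuous χ →
    Tendsto (fun j => ∫ x, χ x * p.1 j x ∂(M (Θ.map fun q => q.1 j))) atTop
      (𝓝 (∫ x, χ x * p.2 x ∂(M (Θ.map fun q => q.2))))

namespace Calc

variable {X : Type*} [TopologicalSpace X] [MeasurableSpace X] {n : ℕ} (C : Calc X n)

/-- `(ω + dd^c u)^n`. -/
def MA (u : X → ℝ) : Measure X := C.M (Multiset.replicate n u)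

/-- `Θ` is an admissible multiset of `n - 1` entries. -/
def Ok (Θ : Multiset (X → ℝ)) : Prop := Multiset.card Θ + 1 = n ∧ ∀ u ∈ Θ, u ∈ C.P

/-- `ρ` is a smooth function with `dd^c ρ = ω` on the open set `B`. -/
structure Pot (B : Set X) (ρ : X → ℝ) : Prop where
  opn : IsOpen B
  mem : ρ ∈ C.S
  pos : ∀ c : ℝ, 0 < c → (fun x => c * ρ x) ∈ C.P → ∀ Θ, C.Ok Θ →
    (C.M ((fun x => c * ρ x) ::ₘ Θ)).restrict B =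
      ENNReal.ofReal (1 + c) • (C.M ((fun _ => 0) ::ₘ Θ)).restrict B

/-- `hat f` is the balayage of `f` on `B`: the largest element of `P` which is `≤ f` off `B`. -/
structure Bal (B : Set X) (hat : (X → ℝ) → (X → ℝ)) : Prop where
  mem : ∀ f ∈ C.P, hat f ∈ C.P
  eq : ∀ f ∈ C.P, ∀ x, x ∉ B → hat f x = f x
  max : ∀ f ∈ C.P, ∀ g ∈ C.P, (∀ x, x ∉ B → g x ≤ f x) → ∀ x, g x ≤ hat f x
  zero : ∀ f ∈ C.P, C.MA (hat f) B = 0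

/-- The geometric input: every point has a neighbourhood `B1` with a potential and a family of
neighbourhoods `B r` (`0 < r < 1`; balls), with disjoint boundaries, on which there is balayage. -/
def Geo : Prop := ∀ x : X, ∃ (B : ℝ → Set X) (B1 : Set X) (ρ : X → ℝ), C.Pot B1 ρ ∧
  (∀ r ∈ Ioo (0 : ℝ) 1, IsOpen (B r) ∧ x ∈ B r ∧ closure (B r) ⊆ B1 ∧ ∃ hat, C.Bal (B r) hat) ∧
  ∀ r ∈ Ioo (0 : ℝ) 1, ∀ s ∈ Ioo (0 : ℝ) 1, r ≠ s → Disjoint (frontier (B r)) (frontier (B s))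

end Calc

end Pool.Agent.DMA
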