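import Pool.Agent.Lib.DMA.Sma

/-!
# Squares of bounded functions
-/

set_option autoImplicit false
set_option linter.unusedSectionVars false

namespace Pool.Agent.DMA

open MeasureTheory Filter Topology Set
open scoped ENNReal

variable {X : Type} [TopologicalSpace X] [CompactSpace X] [TopologicalSpace.MetrizableSpace X]
  [MeasurableSpace X] [BorelSpace X] {n : ℕ} (T : SMA X n)

namespace SqAux

/-- Maximum of the tangents of `y ^ 2 / 2` at the points `j / N`, `j ≤ i`. -/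
noncomputable def mx (N : ℕ) (f : X → ℝ) : ℕ → X → ℝ
  | 0 => fun _ => 0
  | i + 1 => fun x => max (mx N f i x)
      (((i + 1 : ℕ) : ℝ) / N * f x - (((i + 1 : ℕ) : ℝ) / N) ^ 2 / 2)

omit [CompactSpace X] [TopologicalSpace.MetrizableSpace X] [BorelSpace X] in
theorem mx_mem {f : X → ℝ} (hf : f ∈ T.P) (N : ℕ) (hN : 0 < N) :
    ∀ i, i ≤ N → mx N f i ∈ T.P
  | 0, _ => T.P0_P T.zero_P0
  | i + 1, hi => by
    have h1 := mx_mem hf N hN i (by omega)
    have hN' : (0 : ℝ) < N := by exact_mod_cast hN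
    have ha : (((i + 1 : ℕ) : ℝ) / N) ∈ Icc (0 : ℝ) 1 := by
      constructor
      · positivity
      · rw [div_le_one hN']
        exact_mod_cast hi
    have h2 := T.convex_P f hf (fun _ => 0) (T.P0_P T.zero_P0) _ ha
    have h3 := T.const_P _ h2 (-((((i + 1 : ℕ) : ℝ) / N) ^ 2 / 2))
    have h4 := T.max_P _ h1 _ h3
    have h5 : mx N f (i + 1) = fun x => max (mx N f i x)
        (((i + 1 : ℕ) : ℝ) / N * f x + (1 - ((i + 1 : ℕ) : ℝ) / N) * 0 +
          -((((i + 1 : ℕ) : ℝ) / N) ^ 2 / 2)) := by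
      funext x
      show max (mx N f i x) _ = _
      congr 1
      ring
    rw [h5]
    exact h4

omit [TopologicalSpace X] [CompactSpace X] [TopologicalSpace.MetrizableSpace X]
  [MeasurableSpace X] [BorelSpace X] in
theorem mx_le (N : ℕ) (f : X → ℝ) (x : X) : ∀ i, mx N f i x ≤ f x ^ 2 / 2
  | 0 => by
    show (0 : ℝ) ≤ _
    positivity
  | i + 1 => by
    show max _ _ ≤ _
    refine max_le (mx_le N f x i) ?_
    nlinarith [sq_nonneg (f x - ((i + 1 : ℕ) : ℝ) / N)]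

omit [TopologicalSpace X] [CompactSpace X] [TopologicalSpace.MetrizableSpace X]
  [MeasurableSpace X] [BorelSpace X] in
theorem mx_ge (N : ℕ) (f : X → ℝ) (x : X) : ∀ i j, j ≤ i →
    ((j : ℕ) : ℝ) / N * f x - (((j : ℕ) : ℝ) / N) ^ 2 / 2 ≤ mx N f i x
  | 0, j, hj => by
    have : j = 0 := by omega
    subst this
    show _ ≤ (0 : ℝ)
    simp
  | i + 1, j, hj => by
    show _ ≤ max _ _
    rcases Nat.lt_or_ge j (i + 1) with h | h
    · exact (mx_ge N f x i j (by omega)).trans (le_max_left _ _)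
    · have : j = i + 1 := by omega
      subst this
      exact le_max_right _ _

omit [TopologicalSpace X] [CompactSpace X] [TopologicalSpace.MetrizableSpace X]
  [MeasurableSpace X] [BorelSpace X] in
theorem mx_lower (N : ℕ) (hN : 0 < N) (f : X → ℝ) (x : X) (h0 : 0 ≤ f x) (h1 : f x ≤ 1) :
    f x ^ 2 / 2 ≤ mx N f N x + 1 / (2 * (N : ℝ) ^ 2) := by
  have hN' : (0 : ℝ) < N := by exact_mod_cast hN
  obtain ⟨j, hj⟩ : ∃ j, j = ⌊(N : ℝ) * f x⌋₊ := ⟨_, rfl⟩
  have h2 : (j : ℝ) ≤ N * f x := by rw [hj]; exact Nat.floor_le (by positivity)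
  have h3 : N * f x < (j : ℝ) + 1 := by rw [hj]; exact Nat.lt_floor_add_one _
  have h4 : j ≤ N := by
    have : (j : ℝ) ≤ N := by nlinarith
    exact_mod_cast this
  have h5 := mx_ge N f x N j h4
  have h6 : 0 ≤ f x - (j : ℝ) / N := by
    rw [sub_nonneg, div_le_iff₀ hN']
    linarith
  have h7 : f x - (j : ℝ) / N ≤ 1 / N := by
    rw [sub_le_iff_le_add, ← add_div, le_div_iff₀ hN']
    linarith
  have h8 : (f x - (j : ℝ) / N) ^ 2 ≤ (1 / N) ^ 2 := pow_le_pow_left₀ h6 h7 2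
  have h9 : (1 / (N : ℝ)) ^ 2 = 2 * (1 / (2 * (N : ℝ) ^ 2)) := by
    field_simp
  nlinarith

end SqAux

/-- Half of the square (piecewise linear convex approximations, which are maxima of affine
functions with slopes in `[0, 1]`). -/
theorem SMA.sq_mem {f : X → ℝ} (hf : f ∈ T.P) (h0 : ∀ x, 0 ≤ f x) (h1 : ∀ x, f x ≤ 1) :
    (fun x => f x ^ 2 / 2) ∈ T.P := by
  have hpow : ∀ k : ℕ, 1 / (2 * (((2 ^ k : ℕ) : ℝ)) ^ 2) = (1 / 4 : ℝ) ^ k / 2 := by
    intro k
    push_cast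
    rw [← pow_mul, mul_comm k 2, pow_mul, one_div_pow]
    norm_num
    ring
  refine T.lim_P (fun k x => SqAux.mx (2 ^ k) f (2 ^ k) x + (1 / 4 : ℝ) ^ k) ?_ ?_ _ ?_ ?_
  · intro k
    exact T.const_P _ (SqAux.mx_mem T hf (2 ^ k) (by positivity) _ le_rfl) _
  · refine antitone_nat_of_succ_le fun k x => ?_
    have a1 := SqAux.mx_le (2 ^ (k + 1)) f x (2 ^ (k + 1))
    have a2 := SqAux.mx_lower (2 ^ k) (by positivity) f x (h0 x) (h1 x)
    rw [hpow k] at a2
    have a3 : (1 / 4 : ℝ) ^ (k + 1) = (1 / 4 : ℝ) ^ k / 4 := by rw [pow_succ]; ring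
    have a4 : (0 : ℝ) < (1 / 4 : ℝ) ^ k := by positivity
    show SqAux.mx (2 ^ (k + 1)) f (2 ^ (k + 1)) x + (1 / 4 : ℝ) ^ (k + 1) ≤
      SqAux.mx (2 ^ k) f (2 ^ k) x + (1 / 4 : ℝ) ^ k
    rw [a3]
    linarith
  · intro x
    have t0 : Tendsto (fun k : ℕ => (1 / 4 : ℝ) ^ k) atTop (𝓝 0) :=
      tendsto_pow_atTop_nhds_zero_of_lt_one (by norm_num) (by norm_num)
    refine tendsto_of_tendsto_of_tendsto_of_le_of_le
      (g := fun _ => f x ^ 2 / 2) (h := fun k => f x ^ 2 / 2 + (1 / 4 : ℝ) ^ k)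
      tendsto_const_nhds ?_ ?_ ?_
    · have := (tendsto_const_nhds (x := f x ^ 2 / 2)).add t0
      rwa [add_zero] at this
    · intro k
      have a2 := SqAux.mx_lower (2 ^ k) (by positivity) f x (h0 x) (h1 x)
      rw [hpow k] at a2
      have a4 : (0 : ℝ) < (1 / 4 : ℝ) ^ k := by positivity
      show f x ^ 2 / 2 ≤ SqAux.mx (2 ^ k) f (2 ^ k) x + (1 / 4 : ℝ) ^ k
      linarith
    · intro k
      have a1 := SqAux.mx_le (2 ^ k) f x (2 ^ k)
      show SqAux.mx (2 ^ k) f (2 ^ k) x + (1 / 4 : ℝ) ^ k ≤ f x ^ 2 / 2 + (1 / 4 : ℝ) ^ k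
      linarith
  · exact ⟨0, fun x => by positivity⟩

theorem SMA.sq_dec {f : ℕ → X → ℝ} {g : X → ℝ} (hf : T.Dec f g) (h0 : ∀ x, 0 ≤ g x)
    (h1 : ∀ x, f 0 x ≤ 1) : T.Dec (fun j x => f j x ^ 2 / 2) (fun x => g x ^ 2 / 2) := by
  have hg : ∀ j x, g x ≤ f j x := by
    intro j x
    refine le_of_tendsto (hf.lim x) ?_
    filter_upwards [eventually_ge_atTop j] with i hi
    exact hf.anti hi x
  have hf1 : ∀ j x, f j x ≤ 1 := fun j x => (hf.anti (Nat.zero_le j) x).trans (h1 x)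
  have hf0 : ∀ j x, 0 ≤ f j x := fun j x => (h0 x).trans (hg j x)
  refine ⟨fun j => T.sq_mem (hf.mem j) (hf0 j) (hf1 j), ?_, ?_, ?_⟩
  · intro i j hij x
    show f j x ^ 2 / 2 ≤ f i x ^ 2 / 2
    have := pow_le_pow_left₀ (hf0 j x) (hf.anti hij x) 2
    linarith
  · intro x
    exact ((hf.lim x).pow 2).div_const 2
  · exact T.sq_mem hf.lim_mem h0 (fun x => (hg 0 x).trans (h1 x))

end Pool.Agent.DMA
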