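import Pool.Agent.Lib.DMA.MeasB
import Pool.Agent.Lib.DMA.Sq

/-!
# Convergence with a test function
-/

set_option autoImplicit false

namespace Pool.Agent.DMA

open MeasureTheory Filter Topology Set
open scoped ENNReal

variable {X : Type} [TopologicalSpace X] [CompactSpace X] [TopologicalSpace.MetrizableSpace X]
  [MeasurableSpace X] [BorelSpace X] {n : ℕ} (T : SMA X n)

namespace ConvBAux

theorem tendsto_of_approx {a : ℕ → ℝ} {l K : ℝ}
    (h : ∀ ε : ℝ, 0 < ε → ∃ (b : ℕ → ℝ) (m : ℝ), Tendsto b atTop (𝓝 m) ∧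
      (∀ j, |a j - b j| ≤ K * ε) ∧ |l - m| ≤ K * ε) : Tendsto a atTop (𝓝 l) := by
  rw [Metric.tendsto_atTop]
  intro ε hε
  have hK : 0 < |K| + 1 := by positivity
  obtain ⟨b, m, hb, h1, h2⟩ := h (ε / (3 * (|K| + 1))) (by positivity)
  obtain ⟨N, hN⟩ := (Metric.tendsto_atTop.1 hb) (ε / 3) (by positivity)
  have h3 : K * (ε / (3 * (|K| + 1))) ≤ ε / 3 := by
    have h4 : K * (ε / (3 * (|K| + 1))) ≤ (|K| + 1) * (ε / (3 * (|K| + 1))) := by
      apply mul_le_mul_of_nonneg_right _ (by positivity)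
      linarith [le_abs_self K]
    have h5 : (|K| + 1) * (ε / (3 * (|K| + 1))) = ε / 3 := by field_simp
    linarith
  refine ⟨N, fun j hj => ?_⟩
  have h4 := hN j hj
  rw [Real.dist_eq] at h4 ⊢
  have h5 := h1 j
  have h6 : a j - l = (a j - b j) + (b j - m) - (l - m) := by ring
  rw [h6]
  have h7 := abs_add_le (a j - b j) (b j - m)
  have h8 := abs_sub (a j - b j + (b j - m)) (l - m)
  linarith

variable {T}

theorem le_dec {u : ℕ → X → ℝ} {v : X → ℝ} (h : T.Dec u v) (j : ℕ) (x : X) : v x ≤ u j x :=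
  Antitone.le_of_tendsto (fun _ _ hab => h.anti hab x) (h.lim x) j

theorem exists_bound {u : ℕ → X → ℝ} {v : X → ℝ} (h : T.Dec u v) :
    ∃ C : ℝ, (∀ j x, |u j x| ≤ C) ∧ ∀ x, |v x| ≤ C := by
  obtain ⟨C1, h1⟩ := T.bdd _ (h.mem 0)
  obtain ⟨C2, h2⟩ := T.bdd _ h.lim_mem
  refine ⟨max C1 C2, fun j x => ?_, fun x => (h2 x).trans (le_max_right _ _)⟩
  rw [abs_le]
  have h3 := abs_le.1 (h1 x)
  have h4 := abs_le.1 (h2 x)
  have h5 := le_dec h j x
  have h6 : u j x ≤ u 0 x := h.anti (Nat.zero_le j) x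
  constructor
  · linarith [le_max_right C1 C2, h4.1]
  · linarith [le_max_left C1 C2, h3.2]

theorem const_dec {u : X → ℝ} (hu : u ∈ T.P) : T.Dec (fun _ => u) u :=
  ⟨fun _ => hu, fun _ _ _ => le_rfl, fun _ => tendsto_const_nhds, hu⟩

theorem dec_aff {u : ℕ → X → ℝ} {v : X → ℝ} (h : T.Dec u v) {t : ℝ} (ht : t ∈ Icc (0 : ℝ) 1)
    (c : ℝ) : T.Dec (fun j x => t * u j x + c) (fun x => t * v x + c) := by
  have hz : (fun _ : X => (0 : ℝ)) ∈ T.P := T.P0_P T.zero_P0
  have key : ∀ w ∈ T.P, (fun x => t * w x + c) ∈ T.P := by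
    intro w hw
    have h1 := T.const_P _ (T.convex_P w hw _ hz t ht) c
    simpa using h1
  refine ⟨fun j => key _ (h.mem j), fun a b hab x => ?_, fun x => ?_, key _ h.lim_mem⟩
  · have h1 := mul_le_mul_of_nonneg_left (h.anti hab x) ht.1
    change t * u b x + c ≤ t * u a x + c
    linarith
  · exact ((h.lim x).const_mul t).add_const c

theorem dec_half {u u' : ℕ → X → ℝ} {v v' : X → ℝ} (h : T.Dec u v) (h' : T.Dec u' v') :
    T.Dec (fun j x => (u j x + u' j x) / 2) (fun x => (v x + v' x) / 2) := by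
  have key : ∀ w ∈ T.P, ∀ w' ∈ T.P, (fun x => (w x + w' x) / 2) ∈ T.P := by
    intro w hw w' hw'
    have h1 := T.convex_P w hw w' hw' (1 / 2) ⟨by norm_num, by norm_num⟩
    convert h1 using 1
    funext x
    ring
  refine ⟨fun j => key _ (h.mem j) _ (h'.mem j), fun a b hab x => ?_, fun x => ?_,
    key _ h.lim_mem _ h'.lim_mem⟩
  · have h1 := h.anti hab x
    have h2 := h'.anti hab x
    change (u b x + u' b x) / 2 ≤ (u a x + u' a x) / 2
    linarith
  · exact ((h.lim x).add (h'.lim x)).div_const 2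

theorem real_mass {m : Multiset (X → ℝ)} (hc : m.card = n) (hm : T.In m) :
    (T.M m).real univ = T.V := by
  rw [Measure.real, T.M_mass hc hm, ENNReal.toReal_ofReal T.V_pos.le]

theorem in_left {q : Multiset ((ℕ → X → ℝ) × (X → ℝ))} (hq : ∀ p ∈ q, T.Dec p.1 p.2) (j : ℕ) :
    T.In (q.map fun p => p.1 j) := by
  intro u hu
  obtain ⟨p, hp, rfl⟩ := Multiset.mem_map.1 hu
  exact (hq p hp).mem j

theorem in_right {q : Multiset ((ℕ → X → ℝ) × (X → ℝ))} (hq : ∀ p ∈ q, T.Dec p.1 p.2) :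
    T.In (q.map fun p => p.2) := by
  intro u hu
  obtain ⟨p, hp, rfl⟩ := Multiset.mem_map.1 hu
  exact (hq p hp).lim_mem

theorem integrable_mul {ν : Measure X} [IsFiniteMeasure ν] {χ F : X → ℝ} (hχ : Continuous χ)
    (hF : F ∈ T.P) : Integrable (fun x => χ x * F x) ν := by
  obtain ⟨C, hC⟩ := (isCompact_univ (X := X)).exists_bound_of_continuousOn hχ.continuousOn
  exact (T.P_integrable hF ν).bdd_mul (c := C) hχ.aestronglyMeasurable
    (Eventually.of_forall fun x => hC x (mem_univ x))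

theorem lin_formula {ν : Measure X} [IsFiniteMeasure ν] {F1 F2 F3 F4 F5 : X → ℝ}
    (i1 : Integrable F1 ν) (i2 : Integrable F2 ν) (i3 : Integrable F3 ν) (i4 : Integrable F4 ν)
    (i5 : Integrable F5 ν) (a b c d e k : ℝ) :
    ∫ x, (a * F1 x - b * F2 x - c * F3 x - d * F4 x - e * F5 x + k) ∂ν =
      a * (∫ x, F1 x ∂ν) - b * (∫ x, F2 x ∂ν) - c * (∫ x, F3 x ∂ν) - d * (∫ x, F4 x ∂ν) -
        e * (∫ x, F5 x ∂ν) + k * ν.real univ := by
  have j1 : Integrable (fun x => a * F1 x) ν := i1.const_mul a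
  have j2 : Integrable (fun x => b * F2 x) ν := i2.const_mul b
  have j3 : Integrable (fun x => c * F3 x) ν := i3.const_mul c
  have j4 : Integrable (fun x => d * F4 x) ν := i4.const_mul d
  have j5 : Integrable (fun x => e * F5 x) ν := i5.const_mul e
  have k2 : Integrable (fun x => a * F1 x - b * F2 x) ν := j1.sub j2
  have k3 : Integrable (fun x => a * F1 x - b * F2 x - c * F3 x) ν := k2.sub j3
  have k4 : Integrable (fun x => a * F1 x - b * F2 x - c * F3 x - d * F4 x) ν := k3.sub j4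
  have k5 : Integrable (fun x => a * F1 x - b * F2 x - c * F3 x - d * F4 x - e * F5 x) ν :=
    k4.sub j5
  rw [integral_add k5 (integrable_const k), integral_sub k4 j5, integral_sub k3 j4,
    integral_sub k2 j3, integral_sub j1 j2, integral_const_mul, integral_const_mul,
    integral_const_mul, integral_const_mul, integral_const_mul, integral_const, smul_eq_mul]
  ring

/-- The polarised integral. -/
theorem mul_formula {ν : Measure X} [IsFiniteMeasure ν] {f f' : X → ℝ} (hf : f ∈ T.P)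
    (hf' : f' ∈ T.P) (h1 : (fun x => ((f x + f' x) / 2) ^ 2 / 2) ∈ T.P)
    (h2 : (fun x => f x ^ 2 / 2) ∈ T.P) (h3 : (fun x => f' x ^ 2 / 2) ∈ T.P) (A : ℝ) :
    ∫ x, (2 * A * f x - A) * (2 * A * f' x - A) ∂ν =
      4 * A ^ 2 * (4 * (∫ x, ((f x + f' x) / 2) ^ 2 / 2 ∂ν) - (∫ x, f x ^ 2 / 2 ∂ν) -
        ∫ x, f' x ^ 2 / 2 ∂ν) - 2 * A ^ 2 * (∫ x, f x ∂ν) - 2 * A ^ 2 * (∫ x, f' x ∂ν) +
        A ^ 2 * ν.real univ := by
  have i1 := T.P_integrable h1 ν
  have i2 := T.P_integrable h2 ν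
  have i3 := T.P_integrable h3 ν
  have i4 := T.P_integrable hf ν
  have i5 := T.P_integrable hf' ν
  have e : ∀ x, (2 * A * f x - A) * (2 * A * f' x - A) =
      16 * A ^ 2 * (((f x + f' x) / 2) ^ 2 / 2) - 4 * A ^ 2 * (f x ^ 2 / 2) -
        4 * A ^ 2 * (f' x ^ 2 / 2) - 2 * A ^ 2 * f x - 2 * A ^ 2 * f' x + A ^ 2 := by
    intro x
    ring
  simp_rw [e]
  rw [lin_formula i1 i2 i3 i4 i5]
  ring

end ConvBAux

open ConvBAux

/-- Convergence of the integrals of products. -/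
theorem SMA.conv_mul {q : Multiset ((ℕ → X → ℝ) × (X → ℝ))} (hc : q.card = n)
    (hq : ∀ p ∈ q, T.Dec p.1 p.2) {F F' : ℕ → X → ℝ} {G G' : X → ℝ} (hF : T.Dec F G)
    (hF' : T.Dec F' G') :
    Tendsto (fun j => ∫ x, F j x * F' j x ∂T.M (q.map fun p => p.1 j)) atTop
      (𝓝 (∫ x, G x * G' x ∂T.M (q.map fun p => p.2))) := by
  obtain ⟨C, hC1, hC2⟩ := exists_bound hF
  obtain ⟨C', hC1', hC2'⟩ := exists_bound hF'
  set A : ℝ := max 1 (max C C') with hA
  have hA1 : 1 ≤ A := le_max_left _ _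
  have hAC : C ≤ A := (le_max_left C C').trans (le_max_right _ _)
  have hAC' : C' ≤ A := (le_max_right C C').trans (le_max_right _ _)
  have hA0 : A ≠ 0 := by linarith
  have ht : 1 / (2 * A) ∈ Icc (0 : ℝ) 1 := by
    constructor
    · positivity
    · rw [div_le_one (by linarith)]
      linarith
  have hd := dec_aff hF ht (1 / 2)
  have hd' := dec_aff hF' ht (1 / 2)
  set f : ℕ → X → ℝ := fun j x => 1 / (2 * A) * F j x + 1 / 2 with hf
  set f' : ℕ → X → ℝ := fun j x => 1 / (2 * A) * F' j x + 1 / 2 with hf'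
  set g : X → ℝ := fun x => 1 / (2 * A) * G x + 1 / 2 with hg
  set g' : X → ℝ := fun x => 1 / (2 * A) * G' x + 1 / 2 with hg'
  have b1 : ∀ y : ℝ, |y| ≤ A → 0 ≤ 1 / (2 * A) * y + 1 / 2 ∧ 1 / (2 * A) * y + 1 / 2 ≤ 1 := by
    intro y hy
    have h1 := abs_le.1 hy
    have h2 : 1 / (2 * A) * y + 1 / 2 = (y + A) / (2 * A) := by field_simp
    rw [h2]
    constructor
    · exact div_nonneg (by linarith) (by linarith)
    · rw [div_le_one (by linarith)]
      linarith
  have hg0 : ∀ x, 0 ≤ g x := fun x => (b1 _ ((hC2 x).trans hAC)).1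
  have hg0' : ∀ x, 0 ≤ g' x := fun x => (b1 _ ((hC2' x).trans hAC')).1
  have hf1 : ∀ x, f 0 x ≤ 1 := fun x => (b1 _ ((hC1 0 x).trans hAC)).2
  have hf1' : ∀ x, f' 0 x ≤ 1 := fun x => (b1 _ ((hC1' 0 x).trans hAC')).2
  have s1 := T.sq_dec (dec_half hd hd') (fun x => by
    have := hg0 x
    have := hg0' x
    positivity) (fun x => by
    have := hf1 x
    have := hf1' x
    linarith)
  have s2 := T.sq_dec hd hg0 hf1
  have s3 := T.sq_dec hd' hg0' hf1'
  have c1 := T.conv0 hc hq s1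
  have c2 := T.conv0 hc hq s2
  have c3 := T.conv0 hc hq s3
  have c4 := T.conv0 hc hq hd
  have c5 := T.conv0 hc hq hd'
  have eF : ∀ j x, F j x = 2 * A * f j x - A := by
    intro j x
    rw [hf]
    field_simp
    ring
  have eF' : ∀ j x, F' j x = 2 * A * f' j x - A := by
    intro j x
    rw [hf']
    field_simp
    ring
  have eG : ∀ x, G x = 2 * A * g x - A := by
    intro x
    rw [hg]
    field_simp
    ring
  have eG' : ∀ x, G' x = 2 * A * g' x - A := by
    intro x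
    rw [hg']
    field_simp
    ring
  have e1 : ∀ j, ∫ x, F j x * F' j x ∂T.M (q.map fun p => p.1 j) =
      4 * A ^ 2 * (4 * (∫ x, ((f j x + f' j x) / 2) ^ 2 / 2 ∂T.M (q.map fun p => p.1 j)) -
        (∫ x, f j x ^ 2 / 2 ∂T.M (q.map fun p => p.1 j)) -
        ∫ x, f' j x ^ 2 / 2 ∂T.M (q.map fun p => p.1 j)) -
        2 * A ^ 2 * (∫ x, f j x ∂T.M (q.map fun p => p.1 j)) -
        2 * A ^ 2 * (∫ x, f' j x ∂T.M (q.map fun p => p.1 j)) + A ^ 2 * T.V := by
    intro j
    have h1 := mul_formula (ν := T.M (q.map fun p => p.1 j)) (hd.mem j) (hd'.mem j) (s1.mem j)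
      (s2.mem j) (s3.mem j) A
    rw [real_mass (by rw [Multiset.card_map, hc]) (in_left hq j)] at h1
    rw [← h1]
    exact integral_congr_ae (Eventually.of_forall fun x => by simp only [eF j x, eF' j x])
  have e2 : ∫ x, G x * G' x ∂T.M (q.map fun p => p.2) =
      4 * A ^ 2 * (4 * (∫ x, ((g x + g' x) / 2) ^ 2 / 2 ∂T.M (q.map fun p => p.2)) -
        (∫ x, g x ^ 2 / 2 ∂T.M (q.map fun p => p.2)) -
        ∫ x, g' x ^ 2 / 2 ∂T.M (q.map fun p => p.2)) -
        2 * A ^ 2 * (∫ x, g x ∂T.M (q.map fun p => p.2)) -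
        2 * A ^ 2 * (∫ x, g' x ∂T.M (q.map fun p => p.2)) + A ^ 2 * T.V := by
    have h1 := mul_formula (ν := T.M (q.map fun p => p.2)) hd.lim_mem hd'.lim_mem s1.lim_mem
      s2.lim_mem s3.lim_mem A
    rw [real_mass (by rw [Multiset.card_map, hc]) (in_right hq)] at h1
    rw [← h1]
    exact integral_congr_ae (Eventually.of_forall fun x => by simp only [eG x, eG' x])
  rw [e2, tendsto_congr e1]
  exact ((((((c1.const_mul 4).sub c2).sub c3).const_mul _).sub (c4.const_mul _)).sub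
    (c5.const_mul _)).add_const _

/-- Convergence with a test function. -/
theorem SMA.conv {q : Multiset ((ℕ → X → ℝ) × (X → ℝ))} (hc : q.card = n)
    (hq : ∀ p ∈ q, T.Dec p.1 p.2) {F : ℕ → X → ℝ} {G : X → ℝ} (hF : T.Dec F G)
    {χ : X → ℝ} (hχ : Continuous χ) :
    Tendsto (fun j => ∫ x, χ x * F j x ∂T.M (q.map fun p => p.1 j)) atTop
      (𝓝 (∫ x, χ x * G x ∂T.M (q.map fun p => p.2))) := by
  obtain ⟨B, hB1, hB2⟩ := exists_bound hF
  refine tendsto_of_approx (K := B * T.V) fun ε hε => ?_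
  obtain ⟨s, hs, hsχ⟩ := T.S_dense χ hχ ε hε
  obtain ⟨C, hC, hp⟩ := T.S_scale s hs
  have hcs := T.S_cont s hs
  have key : ∀ (m : Multiset (X → ℝ)) (w : X → ℝ), m.card = n → T.In m → w ∈ T.P →
      (∀ x, |w x| ≤ B) → |(∫ x, χ x * w x ∂T.M m) - ∫ x, s x * w x ∂T.M m| ≤ B * T.V * ε := by
    intro m w hcm hm hw hwB
    rw [← integral_sub (integrable_mul hχ hw) (integrable_mul hcs hw)]
    have h1 : ∀ x, ‖χ x * w x - s x * w x‖ ≤ ε * B := by
      intro x
      rw [← sub_mul, norm_mul, Real.norm_eq_abs, Real.norm_eq_abs]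
      exact mul_le_mul (hsχ x) (hwB x) (abs_nonneg _) hε.le
    have h2 := norm_integral_le_of_norm_le_const (μ := T.M m) (Eventually.of_forall h1)
    rw [real_mass hcm hm, Real.norm_eq_abs] at h2
    linarith
  refine ⟨fun j => ∫ x, s x * F j x ∂T.M (q.map fun p => p.1 j),
    ∫ x, s x * G x ∂T.M (q.map fun p => p.2), ?_, fun j => ?_, ?_⟩
  · have h1 := (T.conv_mul hc hq (const_dec (T.P0_P hp)) hF).const_mul C
    have h2 : ∀ (ν : Measure X) (w : X → ℝ), C * ∫ x, s x / C * w x ∂ν = ∫ x, s x * w x ∂ν := by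
      intro ν w
      rw [← integral_const_mul]
      refine integral_congr_ae (Eventually.of_forall fun x => ?_)
      simp only
      field_simp
    simpa only [h2] using h1
  · exact key _ _ (by rw [Multiset.card_map, hc]) (in_left hq j) (hF.mem j) (hB1 j)
  · exact key _ _ (by rw [Multiset.card_map, hc]) (in_right hq) hF.lim_mem hB2

/-- Weak convergence of the measures. -/
theorem SMA.conv_weak {q : Multiset ((ℕ → X → ℝ) × (X → ℝ))} (hc : q.card = n)
    (hq : ∀ p ∈ q, T.Dec p.1 p.2) {χ : X → ℝ} (hχ : Continuous χ) :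
    Tendsto (fun j => ∫ x, χ x ∂T.M (q.map fun p => p.1 j)) atTop
      (𝓝 (∫ x, χ x ∂T.M (q.map fun p => p.2))) := by
  have h1 : (fun _ : X => (1 : ℝ)) ∈ T.P := by
    have := T.const_P _ (T.P0_P T.zero_P0) 1
    simpa using this
  have h2 := T.conv hc hq (const_dec h1) hχ
  simpa using h2

/-- All entries equal, weak convergence. -/
theorem SMA.conv_rep {u : ℕ → X → ℝ} {v : X → ℝ} (h : T.Dec u v) {χ : X → ℝ}
    (hχ : Continuous χ) :
    Tendsto (fun j => ∫ x, χ x ∂T.M (Multiset.replicate n (u j))) atTop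
      (𝓝 (∫ x, χ x ∂T.M (Multiset.replicate n v))) := by
  have h1 := T.conv_weak (q := Multiset.replicate n (u, v)) (Multiset.card_replicate _ _)
    (fun p hp => by
      rw [Multiset.eq_of_mem_replicate hp]
      exact h) hχ
  simpa only [Multiset.map_replicate] using h1

/-- All entries equal, fixed bounded function. -/
theorem SMA.conv_rep' {u : ℕ → X → ℝ} {v : X → ℝ} (h : T.Dec u v) {F : X → ℝ} (hF : F ∈ T.P)
    {χ : X → ℝ} (hχ : Continuous χ) :
    Tendsto (fun j => ∫ x, χ x * F x ∂T.M (Multiset.replicate n (u j))) atTop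
      (𝓝 (∫ x, χ x * F x ∂T.M (Multiset.replicate n v))) := by
  have h1 := T.conv (q := Multiset.replicate n (u, v)) (Multiset.card_replicate _ _)
    (fun p hp => by
      rw [Multiset.eq_of_mem_replicate hp]
      exact h) (const_dec hF) hχ
  simpa only [Multiset.map_replicate] using h1

end Pool.Agent.DMA
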