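import Mathlib

/-! # Row D1: polynomials on the unit circle

PROOF. (a) `circleAverage_poly_re`: mean value property (`DiffContOnCl.circleAverage` for the
polynomial, then `Complex.reCLM.circleAverage_comp_comm`).
(b) `exists_poly_near`: the function `h ∘ circle` on `AddCircle (2π)` (or on `Circle`) is a uniform
limit of trigonometric polynomials (`span_fourier_closure_eq_top`); on the unit circle
`Re (c ζ^(-k)) = Re (conj c ζ^k)`, so the real part of a trigonometric polynomial is `Re p`. -/

set_option autoImplicit false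

open scoped Topology
open Set Filter Metric

noncomputable section

namespace Pool.Agent.DMA

theorem circleAverage_poly_re (p : Polynomial ℂ) (c : ℂ) (r : ℝ) :
    Real.circleAverage (fun ζ => (p.eval ζ).re) c r = (p.eval c).re := by
  have h1 : Real.circleAverage (fun ζ => p.eval ζ) c r = p.eval c :=
    DiffContOnCl.circleAverage (p.differentiable.diffContOnCl)
  have hint : CircleIntegrable (fun ζ => p.eval ζ) c r :=
    (p.continuous.continuousOn).circleIntegrable'
  have h2 := Complex.reCLM.circleAverage_comp_comm hint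
  rw [h1] at h2
  exact h2

private theorem span_re (g : C(AddCircle (2 * Real.pi), ℂ))
    (hg : g ∈ Submodule.span ℂ (range <| @fourier (2 * Real.pi))) :
    ∀ a : ℂ, ∃ p : Polynomial ℂ, ∀ x, (a * g x).re = (p.eval ((AddCircle.toCircle x : Circle) : ℂ)).re := by
  induction hg using Submodule.span_induction with
  | mem g hg =>
    obtain ⟨k, rfl⟩ := hg
    intro a
    rcases le_or_gt 0 k with hk | hk
    · lift k to ℕ using hk
      refine ⟨Polynomial.C a * Polynomial.X ^ k, fun x => ?_⟩
      rw [fourier_apply, AddCircle.toCircle_zsmul]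
      simp
    · obtain ⟨m, rfl⟩ : ∃ m : ℕ, k = -(m : ℤ) := ⟨k.natAbs, by omega⟩
      refine ⟨Polynomial.C (starRingEnd ℂ a) * Polynomial.X ^ m, fun x => ?_⟩
      rw [fourier_neg, fourier_apply, AddCircle.toCircle_zsmul, ← Complex.conj_re]
      simp
  | zero => exact fun a => ⟨0, fun x => by simp⟩
  | add g1 g2 _ _ h1 h2 =>
    intro a
    obtain ⟨p1, hp1⟩ := h1 a
    obtain ⟨p2, hp2⟩ := h2 a
    refine ⟨p1 + p2, fun x => ?_⟩
    rw [Polynomial.eval_add, Complex.add_re, ← hp1, ← hp2, ContinuousMap.add_apply, mul_add,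
      Complex.add_re]
  | smul b g _ h =>
    intro a
    obtain ⟨p, hp⟩ := h (a * b)
    refine ⟨p, fun x => ?_⟩
    rw [← hp, ContinuousMap.smul_apply, smul_eq_mul, mul_assoc]

theorem exists_poly_near {h : ℂ → ℝ} (hh : Continuous h) {ε : ℝ} (hε : 0 < ε) :
    ∃ p : Polynomial ℂ, ∀ ζ : ℂ, ‖ζ‖ = 1 → |(p.eval ζ).re - h ζ| ≤ ε := by
  have : Fact (0 < 2 * Real.pi) := ⟨Real.two_pi_pos⟩
  let F : C(AddCircle (2 * Real.pi), ℂ) :=
    ⟨fun x => ((h ((AddCircle.toCircle x : Circle) : ℂ) : ℝ) : ℂ), by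
      exact Complex.continuous_ofReal.comp (hh.comp
        (continuous_subtype_val.comp AddCircle.continuous_toCircle))⟩
  have hF : F ∈ (Submodule.span ℂ (range <| @fourier (2 * Real.pi))).topologicalClosure := by
    rw [span_fourier_closure_eq_top]
    exact Submodule.mem_top
  have hF' : F ∈ closure ((Submodule.span ℂ (range <| @fourier (2 * Real.pi)) :
      Submodule ℂ C(AddCircle (2 * Real.pi), ℂ)) : Set C(AddCircle (2 * Real.pi), ℂ)) := hF
  rw [Metric.mem_closure_iff] at hF'
  obtain ⟨g, hg, hd⟩ := hF' ε hε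
  obtain ⟨p, hp⟩ := span_re g hg 1
  refine ⟨p, fun ζ hζ => ?_⟩
  have hx : ((AddCircle.toCircle ((Complex.arg ζ : ℝ) : AddCircle (2 * Real.pi)) : Circle) : ℂ)
      = ζ := by
    rw [AddCircle.toCircle_apply_mk, div_self Real.two_pi_pos.ne', one_mul, Circle.coe_exp]
    have := Complex.norm_mul_exp_arg_mul_I ζ
    rwa [hζ, Complex.ofReal_one, one_mul] at this
  have h1 := hp ((Complex.arg ζ : ℝ) : AddCircle (2 * Real.pi))
  rw [hx, one_mul] at h1
  rw [← h1]
  have h2 : F ((Complex.arg ζ : ℝ) : AddCircle (2 * Real.pi)) = ((h ζ : ℝ) : ℂ) := by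
    change ((h ((AddCircle.toCircle ((Complex.arg ζ : ℝ) : AddCircle (2 * Real.pi)) : Circle) : ℂ) : ℝ) : ℂ) = _
    rw [hx]
  have h3 : (h ζ) = (F ((Complex.arg ζ : ℝ) : AddCircle (2 * Real.pi))).re := by
    rw [h2, Complex.ofReal_re]
  rw [h3, ← Complex.sub_re]
  refine (Complex.abs_re_le_norm _).trans ?_
  rw [← ContinuousMap.sub_apply]
  refine (ContinuousMap.norm_coe_le_norm _ _).trans ?_
  rw [← dist_eq_norm, dist_comm]
  exact hd.le

end Pool.Agent.DMA
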