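import Pool.Agent.Lib.DMA.D5

/-! # Row D10: the three circles theorem for suprema over balls

PROOF. `le_supc`, `supc_le`, `supc_mono`, `supc_le_supc`: `sSup` of a nonempty set bounded above (a
ball is in a ball).
`three_circles`: let `w ∈ closedBall z δ'`; if `‖w - z‖ ≤ δ` clear (all added terms are `≥ 0`).
Otherwise `b = (w - z)/‖w - z‖`, `V ζ = v (z + ζ • b) - 2 A log (‖ζ‖/δ) / log (R/δ)` on the closed
annulus `S = {δ ≤ ‖ζ‖ ≤ R}`, `T = {‖ζ‖ = δ} ∪ {‖ζ‖ = R}`: `V ≤ supc v δ z` on `T` (on `‖ζ‖ = R`: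
`V ≤ A - 2 A = -A ≤ supc v δ z`).  `log ‖ζ‖` has the mean value property on circles around `ζ₀` of radius
`< ‖ζ₀‖` (`circleAverage_log_norm_sub_const...` or: `log ‖ζ‖` is harmonic away from `0`), so
`max_principle` gives `V ≤ supc v δ z` on `S`; at `ζ = ‖w - z‖`:
`v w ≤ supc v δ z + 2 A log (‖w - z‖/δ) / log (R/δ)`. -/

set_option autoImplicit false

open scoped Topology
open Set Filter Metric

noncomputable section

namespace Pool.Agent.DMA

open Pool.Agent.K708 (E CMfd)

variable {n : ℕ} {Ω : Set (E n)} {v : E n → ℝ}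

theorem le_supc {z w : E n} {δ A : ℝ} (hA : ∀ y ∈ closedBall z δ, v y ≤ A)
    (hw : w ∈ closedBall z δ) : v w ≤ supc v δ z := by
  refine le_csSup ⟨A, ?_⟩ (mem_image_of_mem v hw)
  rintro _ ⟨y, hy, rfl⟩
  exact hA y hy

theorem supc_le {z : E n} {δ A : ℝ} (hδ : 0 ≤ δ) (hA : ∀ y ∈ closedBall z δ, v y ≤ A) :
    supc v δ z ≤ A := by
  refine csSup_le ⟨v z, mem_image_of_mem v (mem_closedBall_self hδ)⟩ ?_
  rintro _ ⟨y, hy, rfl⟩
  exact hA y hy

theorem supc_le_supc {z w : E n} {δ δ' A : ℝ} (hδ : 0 ≤ δ) (hA : ∀ y ∈ closedBall w δ', v y ≤ A)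
    (h : closedBall z δ ⊆ closedBall w δ') : supc v δ z ≤ supc v δ' w := by
  refine csSup_le_csSup ⟨A, ?_⟩ ⟨v z, mem_image_of_mem v (mem_closedBall_self hδ)⟩ (image_mono h)
  rintro _ ⟨y, hy, rfl⟩
  exact hA y hy

theorem circleAverage_log_norm_self {ζ : ℂ} {r : ℝ} (hr : 0 < r) (h : r < ‖ζ‖) :
    Real.circleAverage (fun ξ : ℂ => Real.log ‖ξ‖) ζ r = Real.log ‖ζ‖ := by
  refine AnalyticOnNhd.circleAverage_log_norm_of_ne_zero (g := fun ξ => ξ) (fun ξ _ => analyticAt_id) ?_
  intro u hu h0
  rw [mem_closedBall, abs_of_pos hr, h0, dist_zero_left] at hu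
  linarith

theorem three_circles (hv : Psh Ω v) {z : E n} {R A δ δ' : ℝ} (hR : closedBall z R ⊆ Ω)
    (hA : ∀ w ∈ closedBall z R, |v w| ≤ A) (h0 : 0 < δ) (h1 : δ ≤ δ') (h2 : δ' ≤ R) (h3 : δ < R) :
    supc v δ' z ≤ supc v δ z + 2 * A * Real.log (δ' / δ) / Real.log (R / δ) := by
  have hRpos : 0 < R := h0.trans h3
  have hA0 : 0 ≤ A := (abs_nonneg _).trans (hA z (mem_closedBall_self hRpos.le))
  have hL : 0 < Real.log (R / δ) := Real.log_pos (by rwa [one_lt_div h0])
  have hAd : ∀ y ∈ closedBall z δ, v y ≤ A := fun y hy =>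
    (abs_le.1 (hA y (closedBall_subset_closedBall h3.le hy))).2
  have hlow : -A ≤ supc v δ z :=
    (abs_le.1 (hA z (mem_closedBall_self hRpos.le))).1.trans (le_supc hAd (mem_closedBall_self h0.le))
  set k : ℝ := 2 * A / Real.log (R / δ) with hk
  have hk0 : 0 ≤ k := by positivity
  have hkL : k * Real.log (R / δ) = 2 * A := by rw [hk]; field_simp
  have hkk : 2 * A * Real.log (δ' / δ) / Real.log (R / δ) = k * Real.log (δ' / δ) := by
    rw [hk]; ring
  rw [hkk]
  apply supc_le (h0.le.trans h1)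
  intro w hw
  by_cases hwδ : w ∈ closedBall z δ
  · have h4 := le_supc hAd hwδ
    have h5 : 0 ≤ Real.log (δ' / δ) := Real.log_nonneg (by rwa [one_le_div h0])
    have h6 := mul_nonneg hk0 h5
    linarith
  · have ht : δ < ‖w - z‖ := by
      rw [mem_closedBall, dist_eq_norm] at hwδ
      exact not_le.1 hwδ
    have ht' : ‖w - z‖ ≤ δ' := by
      rw [mem_closedBall, dist_eq_norm] at hw
      exact hw
    have htpos : 0 < ‖w - z‖ := h0.trans ht
    obtain ⟨b, hb, hwb⟩ : ∃ b : E n, ‖b‖ = 1 ∧ w = z + ((‖w - z‖ : ℝ) : ℂ) • b := by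
      refine ⟨((‖w - z‖⁻¹ : ℝ) : ℂ) • (w - z), ?_, ?_⟩
      · rw [norm_smul, Complex.norm_real, Real.norm_eq_abs, abs_of_pos (by positivity),
          inv_mul_cancel₀ htpos.ne']
      · rw [smul_smul, ← Complex.ofReal_mul, mul_inv_cancel₀ htpos.ne', Complex.ofReal_one, one_smul]
        abel
    have hball : ∀ ζ : ℂ, ‖ζ‖ ≤ R → z + ζ • b ∈ closedBall z R := by
      intro ζ hζ
      rw [mem_closedBall, dist_eq_norm, add_sub_cancel_left, norm_smul, hb, mul_one]
      exact hζ
    have hdist : ∀ ζ : ℂ, ‖z + ζ • b - z‖ = ‖ζ‖ := by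
      intro ζ
      rw [add_sub_cancel_left, norm_smul, hb, mul_one]
    set S : Set ℂ := {ζ | δ ≤ ‖ζ‖ ∧ ‖ζ‖ ≤ R} with hSdef
    set T : Set ℂ := {ζ | ‖ζ‖ = δ ∨ ‖ζ‖ = R} with hTdef
    have hSc : IsCompact S := by
      refine (isCompact_closedBall (0 : ℂ) R).of_isClosed_subset ?_ ?_
      · exact (isClosed_le continuous_const continuous_norm).inter
          (isClosed_le continuous_norm continuous_const)
      · intro ζ hζ
        simpa using hζ.2
    set V : ℂ → ℝ := fun ζ => v (z + ζ • b) - k * (Real.log ‖ζ‖ - Real.log δ) with hV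
    have haff : Continuous (fun ζ : ℂ => z + ζ • b) := by fun_prop
    have hvusc : UpperSemicontinuousOn (fun ζ : ℂ => v (z + ζ • b)) S :=
      hv.usc.comp haff.continuousOn (fun ζ hζ => hR (hball ζ hζ.2))
    have hlogc : ContinuousOn (fun ζ : ℂ => k * (Real.log ‖ζ‖ - Real.log δ)) S := by
      refine continuousOn_const.mul (ContinuousOn.sub (ContinuousOn.log continuous_norm.continuousOn ?_)
        continuousOn_const)
      intro ζ hζ
      exact (h0.trans_le hζ.1).ne'
    have hVusc : UpperSemicontinuousOn V S := by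
      have h7 := hvusc.add hlogc.neg.upperSemicontinuousOn
      have h7' : V = fun ζ => v (z + ζ • b) +
          (-fun ζ : ℂ => k * (Real.log ‖ζ‖ - Real.log δ)) ζ := by
        funext ζ
        simp only [hV, Pi.neg_apply]
        ring
      rw [h7']
      exact h7
    have hlogb : ∀ ζ ∈ S, 0 ≤ k * (Real.log ‖ζ‖ - Real.log δ) ∧
        k * (Real.log ‖ζ‖ - Real.log δ) ≤ 2 * A := by
      intro ζ hζ
      have hp : 0 < ‖ζ‖ := h0.trans_le hζ.1
      have h8 : Real.log δ ≤ Real.log ‖ζ‖ := Real.log_le_log h0 hζ.1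
      have h9 : Real.log ‖ζ‖ ≤ Real.log R := Real.log_le_log hp hζ.2
      refine ⟨mul_nonneg hk0 (by linarith), ?_⟩
      rw [← hkL, Real.log_div hRpos.ne' h0.ne']
      gcongr
    have hVb : ∀ ζ ∈ S, |V ζ| ≤ 3 * A := by
      intro ζ hζ
      have h8 := hlogb ζ hζ
      have h9 := abs_le.1 (hA _ (hball ζ hζ.2))
      rw [abs_le]
      simp only [hV]
      constructor <;> linarith
    have hmax := max_principle (S := S) (T := T) hSc (v := V) hVusc hVb ?_ (c := supc v δ z) ?_
    · have hS' : (((‖w - z‖ : ℝ) : ℂ)) ∈ S := by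
        have hn : ‖((‖w - z‖ : ℝ) : ℂ)‖ = ‖w - z‖ := by
          rw [Complex.norm_real, norm_norm]
        exact ⟨by rw [hn]; exact ht.le, by rw [hn]; exact ht'.trans h2⟩
      have h10 := hmax _ hS'
      simp only [hV] at h10
      rw [← hwb, Complex.norm_real, norm_norm] at h10
      have h11 : Real.log ‖w - z‖ - Real.log δ ≤ Real.log (δ' / δ) := by
        rw [Real.log_div (h0.trans_le h1).ne' h0.ne']
        have := Real.log_le_log htpos ht'
        linarith
      have h12 := mul_le_mul_of_nonneg_left h11 hk0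
      linarith
    · intro ζ hζ hζT
      have hne1 : δ < ‖ζ‖ := lt_of_le_of_ne hζ.1 (fun h => hζT (Or.inl h.symm))
      have hne2 : ‖ζ‖ < R := lt_of_le_of_ne hζ.2 (fun h => hζT (Or.inr h))
      have hSn : S ∈ 𝓝 ζ := by
        have ho : IsOpen {ζ : ℂ | δ < ‖ζ‖ ∧ ‖ζ‖ < R} :=
          (isOpen_lt continuous_const continuous_norm).inter
            (isOpen_lt continuous_norm continuous_const)
        exact Filter.mem_of_superset (ho.mem_nhds ⟨hne1, hne2⟩) (fun ξ hξ => ⟨hξ.1.le, hξ.2.le⟩)
      refine ⟨hSn, fun τ hτ => ?_⟩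
      apply Filter.Eventually.frequently
      have hΩn : Ω ∈ 𝓝 (z + ζ • b) := by
        refine Filter.mem_of_superset (isOpen_ball.mem_nhds (?_ : z + ζ • b ∈ ball z R))
          (ball_subset_closedBall.trans hR)
        rw [mem_ball, dist_eq_norm, hdist]
        exact hne2
      obtain ⟨r₀, hr₀, hr₀S⟩ := Metric.mem_nhds_iff.1 hSn
      filter_upwards [hv.sub_small hΩn b, Ioo_mem_nhdsGT hr₀] with r hr1 hr2
      have hrpos : 0 < r := hr2.1
      have hsph : ∀ ξ ∈ closedBall ζ r, ξ ∈ S := fun ξ hξ =>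
        hr₀S (closedBall_subset_ball hr2.2 hξ)
      have hrζ : r < ‖ζ‖ := by
        by_contra hcon
        have h13 : (0 : ℂ) ∈ S := hsph 0 (by
          rw [mem_closedBall, dist_zero_left]
          exact not_lt.1 hcon)
        have := h13.1
        rw [norm_zero] at this
        linarith
      have hi1 : CircleIntegrable (fun ξ : ℂ => v (z + ξ • b)) ζ r := by
        refine circleIntegrable_of_usc (hvusc.mono ?_) (C := A) ?_
        · intro ξ hξ
          rw [abs_of_pos hrpos] at hξ
          exact hsph ξ (sphere_subset_closedBall hξ)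
        · intro ξ hξ
          rw [abs_of_pos hrpos] at hξ
          exact hA _ (hball ξ (hsph ξ (sphere_subset_closedBall hξ)).2)
      have hi2 : CircleIntegrable (fun ξ : ℂ => Real.log ‖ξ‖) ζ r := by
        apply ContinuousOn.circleIntegrable hrpos.le
        refine ContinuousOn.log continuous_norm.continuousOn ?_
        intro ξ hξ
        exact (h0.trans_le (hsph ξ (sphere_subset_closedBall hξ)).1).ne'
      have hi3 : CircleIntegrable (fun ξ : ℂ => k * (Real.log ‖ξ‖ - Real.log δ)) ζ r := by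
        apply ContinuousOn.circleIntegrable hrpos.le
        refine hlogc.mono ?_
        intro ξ hξ
        exact hsph ξ (sphere_subset_closedBall hξ)
      have hav : Real.circleAverage V ζ r =
          Real.circleAverage (fun ξ : ℂ => v (z + ξ • b)) ζ r - k * (Real.log ‖ζ‖ - Real.log δ) := by
        have e1 : Real.circleAverage (fun ξ : ℂ => k * (Real.log ‖ξ‖ - Real.log δ)) ζ r =
            k * (Real.log ‖ζ‖ - Real.log δ) := by
          have e2 : Real.circleAverage (fun ξ : ℂ => k • (Real.log ‖ξ‖ - Real.log δ)) ζ r =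
              k • Real.circleAverage (fun ξ : ℂ => (Real.log ‖ξ‖ - Real.log δ)) ζ r :=
            Real.circleAverage_fun_smul
          simp only [smul_eq_mul] at e2
          rw [e2, Real.circleAverage_fun_sub hi2 (circleIntegrable_const _ _ _),
            Real.circleAverage_const, circleAverage_log_norm_self hrpos hrζ]
        rw [← e1]
        exact Real.circleAverage_fun_sub hi1 hi3
      have hshift : Real.circleAverage (fun ξ : ℂ => v (z + ξ • b)) ζ r =
          Real.circleAverage (fun ξ : ℂ => v (z + ζ • b + ξ • b)) 0 r := by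
        have e3 := Real.circleAverage_map_add_const (f := fun ξ : ℂ => v (z + ξ • b)) (c := ζ)
          (R := r)
        rw [← e3]
        congr 1
        funext ξ
        congr 1
        rw [add_smul]
        abel
      rw [hav, hshift]
      have h14 : 0 ≤ τ * r ^ 2 := by positivity
      simp only [hV]
      linarith
    · intro ζ hζ hζT
      rcases hζT with h | h
      · have h15 : z + ζ • b ∈ closedBall z δ := by
          rw [mem_closedBall, dist_eq_norm, hdist, h]
        have h16 := le_supc hAd h15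
        simp only [hV]
        rw [h, sub_self, mul_zero, sub_zero]
        exact h16
      · have h17 := (abs_le.1 (hA _ (hball ζ hζ.2))).2
        simp only [hV]
        rw [h, ← Real.log_div hRpos.ne' h0.ne', hkL]
        linarith

end Pool.Agent.DMA
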