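import Pool.Agent.Lib.DMA.D5

/-! # Row D6: operations on plurisubharmonic functions

PROOF. All by the definition and `Psh.circleIntegrable`, `Real.circleAverage_mono`, `_add`, `_smul`.
* `psh_of_antitone`: an infimum of upper semicontinuous functions is upper semicontinuous; dominated
  convergence on circles (`|f k| ≤` the bound of `f 0` and the lower bound).
* `psh_of_sup`: for `g` as in `h`: `U a - ε < g a ≤ average g ≤ average U`; `U` is continuous.
* `Psh.comp_convex`: continuity is clear; boundedness: `Φ ∘ g` is continuous on compacts;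
  `Φ (g a) ≤ Φ (average of g) ≤ average of Φ (g)` by monotonicity and Jensen
  (`ConvexOn.map_average_le` or `ConvexOn.map_integral_le` on the normalised measure on `[0, 2π]`).
* `Psh.comp_affine`: an affine disc is mapped to an affine disc. -/

set_option autoImplicit false

open scoped Topology
open Set Filter Metric

noncomputable section

namespace Pool.Agent.DMA

open Pool.Agent.K708 (E CMfd)

variable {n : ℕ} {Ω : Set (E n)} {v w : E n → ℝ}

private theorem D6_circ {a b : E n} (h : ∀ ζ : ℂ, ‖ζ‖ ≤ 1 → a + ζ • b ∈ Ω) :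
    ∀ ζ : ℂ, ‖ζ‖ = |(1 : ℝ)| → a + ζ • b ∈ Ω :=
  fun ζ hζ => h ζ (by rw [hζ, abs_one])

private theorem D6_sphere {a b : E n} (h : ∀ ζ : ℂ, ‖ζ‖ ≤ 1 → a + ζ • b ∈ Ω) {ζ : ℂ}
    (hζ : ζ ∈ sphere (0 : ℂ) |1|) : a + ζ • b ∈ Ω :=
  D6_circ h ζ (by simpa using hζ)

private theorem D6_centre {a b : E n} (h : ∀ ζ : ℂ, ‖ζ‖ ≤ 1 → a + ζ • b ∈ Ω) : a ∈ Ω := by
  simpa using h 0 (by simp)

/-- The circle integrability of an upper semicontinuous locally bounded function along a circle. -/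
private theorem D6_ci {f : E n → ℝ} (husc : UpperSemicontinuousOn f Ω)
    (hbdd : ∀ K ⊆ Ω, IsCompact K → ∃ C, ∀ z ∈ K, |f z| ≤ C) {a b : E n}
    (h : ∀ ζ : ℂ, ‖ζ‖ ≤ 1 → a + ζ • b ∈ Ω) :
    CircleIntegrable (fun ζ : ℂ => f (a + ζ • b)) 0 1 := by
  have hcont : Continuous fun ζ : ℂ => a + ζ • b := by fun_prop
  have hmaps : MapsTo (fun ζ : ℂ => a + ζ • b) (sphere (0 : ℂ) |1|) Ω :=
    fun ζ hζ => D6_sphere h hζ
  obtain ⟨C, hC⟩ := hbdd ((fun ζ : ℂ => a + ζ • b) '' sphere (0 : ℂ) |1|)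
    (image_subset_iff.2 hmaps) ((isCompact_sphere _ _).image hcont)
  exact circleIntegrable_of_usc (husc.comp hcont.continuousOn hmaps)
    (fun ζ hζ => hC _ (mem_image_of_mem _ hζ))

theorem Psh.mono (hv : Psh Ω v) {Ω' : Set (E n)} (h : Ω' ⊆ Ω) : Psh Ω' v :=
  ⟨hv.usc.mono h, fun K hK hc => hv.bdd K (hK.trans h) hc,
    fun a b hab => hv.sub a b fun ζ hζ => h (hab ζ hζ)⟩

theorem Psh.congr (hv : Psh Ω v) (h : ∀ z ∈ Ω, w z = v z) : Psh Ω w := by
  refine ⟨?_, ?_, ?_⟩
  · rw [upperSemicontinuousOn_iff]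
    intro x hx y hy
    rw [h x hx] at hy
    filter_upwards [hv.usc x hx y hy, self_mem_nhdsWithin] with z hz hzΩ
    rw [h z hzΩ]
    exact hz
  · intro K hK hc
    obtain ⟨C, hC⟩ := hv.bdd K hK hc
    exact ⟨C, fun z hz => by rw [h z (hK hz)]; exact hC z hz⟩
  · intro a b hab
    rw [h a (D6_centre hab)]
    refine (hv.sub a b hab).trans (le_of_eq ?_)
    exact Real.circleAverage_congr_sphere fun ζ hζ => (h _ (D6_sphere hab hζ)).symm

theorem psh_const (c : ℝ) : Psh Ω (fun _ => c) :=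
  ⟨upperSemicontinuousOn_const, fun _ _ _ => ⟨|c|, fun _ _ => le_rfl⟩,
    fun a b _ => by rw [Real.circleAverage_const]⟩

theorem Psh.add (hv : Psh Ω v) (hw : Psh Ω w) : Psh Ω (fun z => v z + w z) := by
  refine ⟨hv.usc.add hw.usc, ?_, ?_⟩
  · intro K hK hc
    obtain ⟨C, hC⟩ := hv.bdd K hK hc
    obtain ⟨D, hD⟩ := hw.bdd K hK hc
    exact ⟨C + D, fun z hz => (abs_add_le _ _).trans (add_le_add (hC z hz) (hD z hz))⟩
  · intro a b hab
    rw [Real.circleAverage_fun_add (hv.circleIntegrable (D6_circ hab))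
      (hw.circleIntegrable (D6_circ hab))]
    exact add_le_add (hv.sub a b hab) (hw.sub a b hab)

theorem Psh.add_const (hv : Psh Ω v) (c : ℝ) : Psh Ω (fun z => v z + c) :=
  hv.add (psh_const c)

theorem Psh.const_mul (hv : Psh Ω v) {c : ℝ} (hc : 0 ≤ c) : Psh Ω (fun z => c * v z) := by
  refine ⟨?_, ?_, ?_⟩
  · exact (continuous_const_mul c).comp_upperSemicontinuousOn hv.usc
      (monotone_mul_left_of_nonneg hc)
  · intro K hK hcK
    obtain ⟨C, hC⟩ := hv.bdd K hK hcK
    refine ⟨c * C, fun z hz => ?_⟩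
    rw [abs_mul, abs_of_nonneg hc]
    exact mul_le_mul_of_nonneg_left (hC z hz) hc
  · intro a b hab
    have h1 : Real.circleAverage (fun ζ : ℂ => c * v (a + ζ • b)) 0 1 =
        c * Real.circleAverage (fun ζ : ℂ => v (a + ζ • b)) 0 1 :=
      Real.circleAverage_fun_smul (a := c)
    rw [h1]
    exact mul_le_mul_of_nonneg_left (hv.sub a b hab) hc

theorem Psh.max (hv : Psh Ω v) (hw : Psh Ω w) : Psh Ω (fun z => Max.max (v z) (w z)) := by
  have husc : UpperSemicontinuousOn (fun z => Max.max (v z) (w z)) Ω := hv.usc.sup hw.usc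
  have hbdd : ∀ K ⊆ Ω, IsCompact K → ∃ C, ∀ z ∈ K, |Max.max (v z) (w z)| ≤ C := by
    intro K hK hc
    obtain ⟨C, hC⟩ := hv.bdd K hK hc
    obtain ⟨D, hD⟩ := hw.bdd K hK hc
    exact ⟨Max.max C D, fun z hz => abs_max_le_max_abs_abs.trans (max_le_max (hC z hz) (hD z hz))⟩
  refine ⟨husc, hbdd, ?_⟩
  intro a b hab
  have hi := D6_ci husc hbdd hab
  refine max_le ((hv.sub a b hab).trans ?_) ((hw.sub a b hab).trans ?_)
  · exact Real.circleAverage_mono (hv.circleIntegrable (D6_circ hab)) hi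
      fun ζ _ => le_max_left _ _
  · exact Real.circleAverage_mono (hw.circleIntegrable (D6_circ hab)) hi
      fun ζ _ => le_max_right _ _

theorem psh_of_antitone {f : ℕ → E n → ℝ} (hf : ∀ k, Psh Ω (f k))
    (ha : ∀ z ∈ Ω, Antitone fun k => f k z)
    (hl : ∀ z ∈ Ω, Tendsto (fun k => f k z) atTop (𝓝 (v z)))
    (hb : ∀ K ⊆ Ω, IsCompact K → ∃ C, ∀ z ∈ K, -C ≤ v z) : Psh Ω v := by
  have hle : ∀ z ∈ Ω, ∀ k, v z ≤ f k z := fun z hz k => (ha z hz).le_of_tendsto (hl z hz) k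
  have husc : UpperSemicontinuousOn v Ω := by
    rw [upperSemicontinuousOn_iff]
    intro x hx y hy
    obtain ⟨k, hk⟩ := ((hl x hx).eventually (gt_mem_nhds hy)).exists
    filter_upwards [(hf k).usc x hx y hk, self_mem_nhdsWithin] with z hz hzΩ
    exact lt_of_le_of_lt (hle z hzΩ k) hz
  have hbdd2 : ∀ K ⊆ Ω, IsCompact K → ∃ C, (∀ z ∈ K, |v z| ≤ C) ∧ ∀ z ∈ K, ∀ k, |f k z| ≤ C := by
    intro K hK hc
    obtain ⟨C, hC⟩ := hb K hK hc
    obtain ⟨D, hD⟩ := (hf 0).bdd K hK hc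
    have h1 : ∀ z ∈ K, ∀ k, |f k z| ≤ Max.max C D := by
      intro z hz k
      rw [abs_le]
      have h2 := hC z hz
      have h3 := hle z (hK hz) k
      have h4 := (abs_le.1 (hD z hz)).2
      have h5 : f k z ≤ f 0 z := ha z (hK hz) (Nat.zero_le k)
      have h6 := le_max_left C D
      have h7 := le_max_right C D
      exact ⟨by linarith, by linarith⟩
    refine ⟨Max.max C D, fun z hz => ?_, h1⟩
    have h8 := (hl z (hK hz)).abs
    exact le_of_tendsto' h8 (h1 z hz)
  refine ⟨husc, fun K hK hc => ?_, ?_⟩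
  · obtain ⟨C, hC, -⟩ := hbdd2 K hK hc
    exact ⟨C, hC⟩
  · intro a b hab
    have hcont : Continuous fun ζ : ℂ => a + ζ • b := by fun_prop
    have hmaps : MapsTo (fun ζ : ℂ => a + ζ • b) (sphere (0 : ℂ) |1|) Ω :=
      fun ζ hζ => D6_sphere hab hζ
    obtain ⟨C, -, hC⟩ := hbdd2 ((fun ζ : ℂ => a + ζ • b) '' sphere (0 : ℂ) |1|)
      (image_subset_iff.2 hmaps) ((isCompact_sphere _ _).image hcont)
    have hlim : Tendsto (fun k => Real.circleAverage (fun ζ : ℂ => f k (a + ζ • b)) 0 1) atTop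
        (𝓝 (Real.circleAverage (fun ζ : ℂ => v (a + ζ • b)) 0 1)) := by
      simp only [Real.circleAverage_def]
      refine Tendsto.const_smul ?_ _
      refine intervalIntegral.tendsto_integral_filter_of_dominated_convergence (fun _ => C) ?_ ?_
        intervalIntegrable_const ?_
      · refine Eventually.of_forall fun k => ?_
        have h1 := (hf k).circleIntegrable (D6_circ hab)
        exact (IntervalIntegrable.def' h1).aestronglyMeasurable
      · refine Eventually.of_forall fun k => ?_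
        refine Eventually.of_forall fun θ _ => ?_
        exact hC _ (mem_image_of_mem _ (circleMap_mem_sphere' 0 1 θ)) k
      · refine Eventually.of_forall fun θ _ => ?_
        exact hl _ (hmaps (circleMap_mem_sphere' 0 1 θ))
    exact le_of_tendsto_of_tendsto' (hl a (D6_centre hab)) hlim fun k => (hf k).sub a b hab

theorem psh_of_sup {U : E n → ℝ} (hU : ContinuousOn U Ω)
    (h : ∀ z ∈ Ω, ∀ ε > 0, ∃ g, Psh Ω g ∧ (∀ w ∈ Ω, g w ≤ U w) ∧ U z < g z + ε) : Psh Ω U := by
  have hbdd : ∀ K ⊆ Ω, IsCompact K → ∃ C, ∀ z ∈ K, |U z| ≤ C := by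
    intro K hK hc
    obtain ⟨C, hC⟩ := hc.exists_bound_of_continuousOn (hU.mono hK)
    exact ⟨C, hC⟩
  refine ⟨hU.upperSemicontinuousOn, hbdd, ?_⟩
  intro a b hab
  refine le_of_forall_pos_le_add fun ε hε => ?_
  obtain ⟨g, hg, hgU, hag⟩ := h a (D6_centre hab) ε hε
  have h1 : Real.circleAverage (fun ζ : ℂ => g (a + ζ • b)) 0 1 ≤
      Real.circleAverage (fun ζ : ℂ => U (a + ζ • b)) 0 1 :=
    Real.circleAverage_mono (hg.circleIntegrable (D6_circ hab))
      (D6_ci hU.upperSemicontinuousOn hbdd hab) fun ζ hζ => hgU _ (D6_sphere hab hζ)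
  have h2 := hg.sub a b hab
  linarith

theorem Psh.comp_convex {ι : Type} [Fintype ι] {Φ : (ι → ℝ) → ℝ} (hΦ : ConvexOn ℝ univ Φ)
    (hc : Continuous Φ) (hm : Monotone Φ) {g : ι → E n → ℝ} (hg : ∀ i, Psh Ω (g i))
    (hgc : ∀ i, ContinuousOn (g i) Ω) : Psh Ω (fun z => Φ (fun i => g i z)) := by
  have hcont : ContinuousOn (fun z => Φ (fun i => g i z)) Ω :=
    hc.comp_continuousOn (continuousOn_pi.2 hgc)
  have hbdd : ∀ K ⊆ Ω, IsCompact K → ∃ C, ∀ z ∈ K, |Φ (fun i => g i z)| ≤ C := by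
    intro K hK hcK
    obtain ⟨C, hC⟩ := hcK.exists_bound_of_continuousOn (hcont.mono hK)
    exact ⟨C, hC⟩
  refine ⟨hcont.upperSemicontinuousOn, hbdd, ?_⟩
  intro a b hab
  have hi := D6_ci hcont.upperSemicontinuousOn hbdd hab
  have hmaps : MapsTo (fun ζ : ℂ => a + ζ • b) (sphere (0 : ℂ) |1|) Ω :=
    fun ζ hζ => D6_sphere hab hζ
  have hline : Continuous fun ζ : ℂ => a + ζ • b := by fun_prop
  have hG : Continuous fun θ : ℝ => fun i => g i (a + circleMap 0 1 θ • b) := by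
    refine continuous_pi fun i => ?_
    have h1 : ContinuousOn (fun ζ : ℂ => g i (a + ζ • b)) (sphere (0 : ℂ) |1|) :=
      (hgc i).comp hline.continuousOn hmaps
    exact h1.comp_continuous (continuous_circleMap 0 1) (fun θ => circleMap_mem_sphere' 0 1 θ)
  have hGi : CircleIntegrable (fun ζ : ℂ => fun i => g i (a + ζ • b)) 0 1 :=
    hG.intervalIntegrable _ _
  have h1 : ∀ i, (Real.circleAverage (fun ζ : ℂ => fun i => g i (a + ζ • b)) 0 1) i =
      Real.circleAverage (fun ζ : ℂ => g i (a + ζ • b)) 0 1 := by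
    intro i
    exact ((ContinuousLinearMap.proj i : (ι → ℝ) →L[ℝ] ℝ).circleAverage_comp_comm hGi).symm
  have h2 : (fun i => g i a) ≤
      Real.circleAverage (fun ζ : ℂ => fun i => g i (a + ζ • b)) 0 1 := by
    intro i
    rw [h1]
    exact (hg i).sub a b hab
  refine (hm h2).trans ?_
  rw [Real.circleAverage_eq_intervalAverage, Real.circleAverage_eq_intervalAverage]
  have hne : NeZero (MeasureTheory.volume.restrict (Set.uIoc 0 (2 * Real.pi))) := by
    refine ⟨?_⟩
    rw [Ne, MeasureTheory.Measure.restrict_eq_zero, Set.uIoc_of_le Real.two_pi_pos.le,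
      Real.volume_Ioc, sub_zero, ENNReal.ofReal_eq_zero, not_le]
    exact Real.two_pi_pos
  have hfin : MeasureTheory.IsFiniteMeasure
      (MeasureTheory.volume.restrict (Set.uIoc 0 (2 * Real.pi))) := by
    refine ⟨?_⟩
    rw [MeasureTheory.Measure.restrict_apply_univ, Set.uIoc_of_le Real.two_pi_pos.le,
      Real.volume_Ioc]
    exact ENNReal.ofReal_lt_top
  exact hΦ.map_average_le hc.continuousOn isClosed_univ (Eventually.of_forall fun _ => mem_univ _)
    (IntervalIntegrable.def' hGi) (IntervalIntegrable.def' hi)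

theorem Psh.comp_affine (hv : Psh Ω v) (z₀ : E n) (s : ℂ) :
    Psh {z | z₀ + s • z ∈ Ω} (fun z => v (z₀ + s • z)) := by
  have hcont : Continuous fun z : E n => z₀ + s • z := by fun_prop
  refine ⟨?_, ?_, ?_⟩
  · exact hv.usc.comp hcont.continuousOn (fun z hz => hz)
  · intro K hK hc
    obtain ⟨C, hC⟩ := hv.bdd ((fun z : E n => z₀ + s • z) '' K)
      (image_subset_iff.2 fun z hz => hK hz) (hc.image hcont)
    exact ⟨C, fun z hz => hC _ (mem_image_of_mem _ hz)⟩
  · intro a b hab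
    have h1 : ∀ ζ : ℂ, z₀ + s • (a + ζ • b) = (z₀ + s • a) + ζ • (s • b) := by
      intro ζ
      rw [smul_add, smul_comm s ζ b, add_assoc]
    have h2 := hv.sub (z₀ + s • a) (s • b) fun ζ hζ => by
      rw [← h1]
      exact hab ζ hζ
    simpa only [h1] using h2

end Pool.Agent.DMA
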