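import Pool.Agent.Lib.DMA.D10
import Pool.Agent.Lib.DMA.D6

/-! # Row D11: the sup-convolution is continuous and plurisubharmonic

PROOF. `supc_continuousOn`: for `t = ‖z - z'‖` with `δ + t < R`: `supc v δ z' ≤ supc v (δ + t) z ≤
supc v δ z + 2 A log ((δ + t)/δ) / log (R/δ)` (`three_circles`), and symmetrically; the error tends
to `0` as `t -> 0`.
`supc_psh`: continuous; for a disc `a + ζ b` in `Z` and `w` with `‖w‖ ≤ δ`: the disc `(a + w) + ζ b` is in
`Ω`, `v (a + w) ≤ average of v (a + w + ζ b) ≤ average of supc v δ (a + ζ b)`; take the supremum over `w`.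
`supc_small`: upper semicontinuity of `v` at `z`: `v < c` on a ball `2 δ₀`. -/

set_option autoImplicit false

open scoped Topology
open Set Filter Metric

noncomputable section

namespace Pool.Agent.DMA

open Pool.Agent.K708 (E CMfd)

variable {n : ℕ} {Ω Z : Set (E n)} {v : E n → ℝ}

private theorem D11_step (hv : Psh Ω v) {R A δ : ℝ} (h0 : 0 < δ) (hδ : δ < R) {z z' : E n}
    (hz : closedBall z R ⊆ Ω) (hA : ∀ w ∈ Ω, |v w| ≤ A) (ht : δ + dist z' z ≤ R) :
    supc v δ z' ≤ supc v δ z + 2 * A * Real.log ((δ + dist z' z) / δ) / Real.log (R / δ) := by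
  have h1 : supc v δ z' ≤ supc v (δ + dist z' z) z := by
    apply supc_le_supc (A := A) h0.le
    · intro y hy
      exact (abs_le.mp (hA y (hz (closedBall_subset_closedBall ht hy)))).2
    · intro y hy
      rw [mem_closedBall] at hy ⊢
      linarith [dist_triangle y z' z]
  have h2 := three_circles hv (z := z) (R := R) (A := A) (δ := δ) (δ' := δ + dist z' z) hz
    (fun w hw => hA w (hz hw)) h0 (by linarith [dist_nonneg (x := z') (y := z)]) ht hδ
  exact h1.trans h2

theorem supc_continuousOn (hv : Psh Ω v) {R A δ : ℝ} (h0 : 0 < δ) (hδ : δ < R)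
    (hZ : ∀ z ∈ Z, closedBall z R ⊆ Ω) (hA : ∀ w ∈ Ω, |v w| ≤ A) : ContinuousOn (supc v δ) Z := by
  intro z hz
  have herr : Tendsto (fun z' : E n => 2 * A * Real.log ((δ + dist z' z) / δ) / Real.log (R / δ))
      (𝓝[Z] z) (𝓝 0) := by
    have h1 : Tendsto (fun z' : E n => (δ + dist z' z) / δ) (𝓝[Z] z) (𝓝 1) := by
      have : ContinuousAt (fun z' : E n => (δ + dist z' z) / δ) z := by fun_prop
      have h2 := this.tendsto
      simp only [dist_self, add_zero, div_self h0.ne'] at h2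
      exact h2.mono_left nhdsWithin_le_nhds
    have h2 : Tendsto (fun z' : E n => Real.log ((δ + dist z' z) / δ)) (𝓝[Z] z) (𝓝 0) := by
      have := (Real.continuousAt_log (one_ne_zero)).tendsto.comp h1
      rw [Real.log_one] at this
      exact this
    have h3 := (h2.const_mul (2 * A)).div_const (Real.log (R / δ))
    simpa using h3
  have hev : ∀ᶠ z' in 𝓝[Z] z, δ + dist z' z ≤ R ∧ z' ∈ Z := by
    refine Filter.Eventually.and ?_ self_mem_nhdsWithin
    have : ∀ᶠ z' in 𝓝[Z] z, z' ∈ ball z (R - δ) :=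
      nhdsWithin_le_nhds (ball_mem_nhds z (sub_pos.mpr hδ))
    filter_upwards [this] with z' hz'
    rw [mem_ball] at hz'
    linarith
  rw [ContinuousWithinAt, tendsto_iff_dist_tendsto_zero]
  refine squeeze_zero' (Eventually.of_forall fun _ => dist_nonneg) ?_ herr
  filter_upwards [hev] with z' hz'
  have e1 := D11_step hv h0 hδ (hZ z hz) hA hz'.1
  have e2 := D11_step hv h0 hδ (z := z') (z' := z) (hZ z' hz'.2) hA (by rw [dist_comm]; exact hz'.1)
  rw [dist_comm z z'] at e2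
  rw [Real.dist_eq, abs_le]
  constructor <;> linarith

theorem supc_psh (hv : Psh Ω v) {R A δ : ℝ} (h0 : 0 < δ) (hδ : δ < R)
    (hZ : ∀ z ∈ Z, closedBall z R ⊆ Ω) (hA : ∀ w ∈ Ω, |v w| ≤ A) : Psh Z (supc v δ) := by
  have hcont := supc_continuousOn hv h0 hδ hZ hA
  have hball : ∀ z ∈ Z, closedBall z δ ⊆ Ω := fun z hz =>
    (closedBall_subset_closedBall hδ.le).trans (hZ z hz)
  have hup : ∀ z ∈ Z, ∀ y ∈ closedBall z δ, v y ≤ A := fun z hz y hy =>
    (abs_le.mp (hA y (hball z hz hy))).2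
  refine ⟨hcont.upperSemicontinuousOn, ?_, ?_⟩
  · intro K hK _
    refine ⟨A, fun z hz => ?_⟩
    rw [abs_le]
    constructor
    · have hz' : z ∈ closedBall z δ := mem_closedBall_self h0.le
      exact (abs_le.mp (hA z (hball z (hK hz) hz'))).1.trans (le_supc (hup z (hK hz)) hz')
    · exact supc_le h0.le (hup z (hK hz))
  · intro a b hab
    have haZ : a ∈ Z := by simpa using hab 0 (by simp)
    apply supc_le h0.le
    intro y hy
    have hy' : dist y a ≤ δ := mem_closedBall.mp hy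
    have hmem : ∀ ζ : ℂ, ‖ζ‖ ≤ 1 → y + ζ • b ∈ closedBall (a + ζ • b) δ := by
      intro ζ _
      rw [mem_closedBall, dist_add_right]
      exact hy'
    have hdisc : ∀ ζ : ℂ, ‖ζ‖ ≤ 1 → y + ζ • b ∈ Ω := fun ζ hζ => hball _ (hab ζ hζ) (hmem ζ hζ)
    refine (hv.sub y b hdisc).trans ?_
    apply Real.circleAverage_mono
    · exact hv.circleIntegrable (fun ζ hζ => hdisc ζ (by rw [hζ]; simp))
    · have hc : ContinuousOn (fun ζ : ℂ => supc v δ (a + ζ • b)) (sphere 0 |1|) := by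
        refine hcont.comp (by fun_prop) ?_
        intro ζ hζ
        exact hab ζ (by simpa using (mem_sphere_zero_iff_norm.mp hζ).le)
      exact hc.circleIntegrable'
    · intro ζ hζ
      have hζ' : ‖ζ‖ ≤ 1 := by simpa using (mem_sphere_zero_iff_norm.mp hζ).le
      exact le_supc (hup _ (hab ζ hζ')) (hmem ζ hζ')

theorem supc_small (hv : UpperSemicontinuousOn v Ω) {z : E n} (hz : Ω ∈ 𝓝 z) {c : ℝ}
    (hc : v z < c) : ∃ δ₀ > 0, ∀ δ ∈ Ioc (0 : ℝ) δ₀, ∀ z' ∈ ball z δ₀, supc v δ z' ≤ c := by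
  have h1 : ∀ᶠ y in 𝓝[Ω] z, v y < c := hv z (mem_of_mem_nhds hz) c hc
  rw [nhdsWithin_eq_nhds.mpr hz] at h1
  obtain ⟨r, hr, hr'⟩ := Metric.eventually_nhds_iff_ball.mp h1
  refine ⟨r / 2, by positivity, fun δ hδ z' hz' => ?_⟩
  apply supc_le hδ.1.le
  intro y hy
  refine (hr' y ?_).le
  rw [mem_ball] at hz' ⊢
  rw [mem_closedBall] at hy
  linarith [dist_triangle y z' z, hδ.2]

/-- Pointwise convergence. -/
theorem supc_tendsto (hv : Psh Ω v) {z : E n} (hz : Ω ∈ 𝓝 z) :
    Tendsto (fun δ => supc v δ z) (𝓝[>] 0) (𝓝 (v z)) := by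
  obtain ⟨r, hr, hrΩ⟩ := Metric.nhds_basis_closedBall.mem_iff.mp hz
  obtain ⟨C, hC⟩ := hv.bdd (closedBall z r) hrΩ (isCompact_closedBall z r)
  rw [tendsto_order]
  constructor
  · intro a ha
    have : ∀ᶠ δ in 𝓝[>] (0 : ℝ), δ ∈ Ioc 0 r := Ioc_mem_nhdsGT hr
    filter_upwards [this] with δ hδ
    refine ha.trans_le (le_supc (A := C) ?_ (mem_closedBall_self hδ.1.le))
    intro y hy
    exact (abs_le.mp (hC y (closedBall_subset_closedBall hδ.2 hy))).2
  · intro a ha
    obtain ⟨c, hc1, hc2⟩ := exists_between ha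
    obtain ⟨δ₀, hδ₀, h⟩ := supc_small hv.usc hz hc1
    have : ∀ᶠ δ in 𝓝[>] (0 : ℝ), δ ∈ Ioc 0 δ₀ := Ioc_mem_nhdsGT hδ₀
    filter_upwards [this] with δ hδ
    exact (h δ hδ z (mem_ball_self hδ₀)).trans_lt hc2

end Pool.Agent.DMA
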