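import Pool.Agent.Lib.DMA.D6

/-! # Row D12: mollification

PROOF. `moll ε v = (mb n ε).normed volume ⋆[lsmul ℝ ℝ] v` (`moll_eq`), so Mathlib's convolution API:
`moll_contDiff` (`HasCompactSupport.contDiff_convolution_left`, `ContDiffBump.contDiff_normed`),
`moll_near` (`ContDiffBump.dist_normed_convolution_le` or directly `∫ φ = 1`, `φ ≥ 0`, support in the
ball of radius `ε`).
`moll_psh`: for a disc `a + ζ b` in `Z`: `∫ φ t v (a - t) ≤ ∫ φ t (average of v (a - t + ζ b)) =` average
of `moll` (Fubini: the integrand is continuous on (closed ball) x (circle), or measurable and bounded).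
`exists_smooth_psh`: `L` a compact neighbourhood of `K` in `Ω` (`exists_compact_superset`), `v =`
`indicator L w`, `Ω'` = a thickening of `K` whose `ε₀`-neighbourhood is in `L`; uniform continuity of `w`
on `L`; the disc property on `Ω'` needs only `w` near points of `Ω'` (use `moll_psh` with
`Ω = interior L`, and `Psh.congr`). -/

set_option autoImplicit false

open scoped Topology ContDiff
open Set Filter Metric MeasureTheory

noncomputable section

namespace Pool.Agent.DMA

open Pool.Agent.K708 (E CMfd)

variable {n : ℕ} {Ω Z : Set (E n)} {v w : E n → ℝ}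

namespace D12

theorem supp {ε : ℝ} (hε : 0 < ε) {t : E n} (ht : t ∉ ball (0 : E n) ε) :
    (mb n ε).normed volume t = 0 := by
  have h := (mb n ε).support_normed_eq (μ := (volume : Measure (E n)))
  rw [mb_rOut hε] at h
  by_contra hne
  exact ht (h ▸ (Function.mem_support.2 hne))

theorem intg {ε : ℝ} (hv : LocallyIntegrable v volume) (z : E n) :
    Integrable (fun t => (mb n ε).normed volume t * v (z - t)) volume := by
  have := ((mb n ε).hasCompactSupport_normed
      (μ := (volume : Measure (E n)))).convolutionExists_left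
      (ContinuousLinearMap.lsmul ℝ ℝ) ((mb n ε).continuous_normed) hv z
  exact this

theorem sub_mem_ball {z t : E n} {ε : ℝ} (ht : t ∈ ball (0 : E n) ε) : z - t ∈ ball z ε := by
  rw [mem_ball, dist_eq_norm, sub_sub_cancel_left, norm_neg]
  exact mem_ball_zero_iff.1 ht

end D12

open D12 in
theorem moll_contDiff {ε : ℝ} (hv : LocallyIntegrable v volume) : ContDiff ℝ ∞ (moll ε v) := by
  have := ((mb n ε).hasCompactSupport_normed
      (μ := (volume : Measure (E n)))).contDiff_convolution_left
      (ContinuousLinearMap.lsmul ℝ ℝ) (n := (⊤ : ℕ∞)) (μ := (volume : Measure (E n)))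
      ((mb n ε).contDiff_normed) hv
  exact this

open D12 in
theorem moll_near {ε σ : ℝ} (hε : 0 < ε) (hv : LocallyIntegrable v volume) {z : E n} {c : ℝ}
    (h : ∀ y ∈ ball z ε, |v y - c| ≤ σ) : |moll ε v z - c| ≤ σ := by
  have hφ : Integrable ((mb n ε).normed (volume : Measure (E n))) volume :=
    (mb n ε).integrable_normed
  have h1 : moll ε v z - c = ∫ t, (mb n ε).normed volume t * (v (z - t) - c) := by
    have e : (fun t => (mb n ε).normed (volume : Measure (E n)) t * (v (z - t) - c)) =
        fun t => (mb n ε).normed volume t * v (z - t) - (mb n ε).normed volume t * c := by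
      funext t; ring
    rw [e, integral_sub (intg hv z) (hφ.mul_const c), integral_mul_const,
      (mb n ε).integral_normed, one_mul]
    rfl
  rw [h1]
  have h2 : ∫ t, (mb n ε).normed (volume : Measure (E n)) t * σ = σ := by
    rw [integral_mul_const, (mb n ε).integral_normed, one_mul]
  rw [← Real.norm_eq_abs]
  refine (norm_integral_le_of_norm_le (hφ.mul_const σ) (Eventually.of_forall fun t => ?_)).trans
    h2.le
  by_cases ht : t ∈ ball (0 : E n) ε
  · rw [norm_mul, Real.norm_eq_abs, Real.norm_eq_abs, abs_of_nonneg ((mb n ε).nonneg_normed t)]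
    exact mul_le_mul_of_nonneg_left (h _ (sub_mem_ball ht)) ((mb n ε).nonneg_normed t)
  · rw [supp hε ht]; simp

open D12 in
theorem moll_congr {ε : ℝ} (hε : 0 < ε) {z : E n} (h : ∀ y ∈ ball z ε, v y = w y) :
    moll ε v z = moll ε w z := by
  unfold moll
  refine integral_congr_ae (Eventually.of_forall fun t => ?_)
  by_cases ht : t ∈ ball (0 : E n) ε
  · simp only
    rw [h _ (sub_mem_ball ht)]
  · simp only
    rw [supp hε ht, zero_mul, zero_mul]

open D12 in
theorem moll_psh {ε : ℝ} (hε : 0 < ε) (hv : Psh Ω v) (hc : ContinuousOn v Ω)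
    (hZ : ∀ z ∈ Z, closedBall z ε ⊆ Ω) (hi : LocallyIntegrable v volume) : Psh Z (moll ε v) := by
  have hcont : Continuous (moll ε v) := (moll_contDiff hi).continuous
  refine ⟨hcont.upperSemicontinuous.upperSemicontinuousOn _, fun K _ hK => ?_, fun a b hab => ?_⟩
  · obtain ⟨C, hC⟩ := hK.exists_bound_of_continuousOn hcont.continuousOn
    exact ⟨C, fun z hz => by simpa [Real.norm_eq_abs] using hC z hz⟩
  · have hpi : (0 : ℝ) ≤ 2 * Real.pi := by positivity
    -- the double integrand
    set g : E n × ℝ → ℝ := fun p => (mb n ε).normed volume p.1 *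
      v (a + circleMap 0 1 p.2 • b - p.1) with hg
    have hcm : ∀ θ : ℝ, ‖circleMap 0 1 θ‖ ≤ 1 := fun θ => by simp
    have hmem : ∀ (t : E n) (ζ : ℂ), ‖ζ‖ ≤ 1 → t ∈ closedBall (0 : E n) ε →
        a + ζ • b - t ∈ Ω := by
      intro t ζ hζ ht
      refine hZ _ (hab ζ hζ) ?_
      rw [mem_closedBall, dist_eq_norm, sub_sub_cancel_left, norm_neg]
      exact mem_closedBall_zero_iff.1 ht
    have hgc : ContinuousOn g (closedBall (0 : E n) ε ×ˢ Icc (0 : ℝ) (2 * Real.pi)) := by
      refine ContinuousOn.mul (((mb n ε).continuous_normed).comp continuous_fst).continuousOn ?_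
      refine hc.comp (Continuous.continuousOn ?_) fun p hp => hmem _ _ (hcm _) hp.1
      have h1 : Continuous fun p : E n × ℝ => circleMap 0 1 p.2 :=
        (continuous_circleMap 0 1).comp continuous_snd
      exact ((continuous_const.add (h1.smul continuous_const)).sub continuous_fst)
    have hgi : Integrable g ((volume : Measure (E n)).prod
        ((volume : Measure ℝ).restrict (Ioc 0 (2 * Real.pi)))) := by
      have h1 : IntegrableOn g (closedBall (0 : E n) ε ×ˢ Icc (0 : ℝ) (2 * Real.pi))
          ((volume : Measure (E n)).prod (volume : Measure ℝ)) :=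
        hgc.integrableOn_compact ((isCompact_closedBall _ _).prod isCompact_Icc)
      have h2 : IntegrableOn g (univ ×ˢ Ioc (0 : ℝ) (2 * Real.pi))
          ((volume : Measure (E n)).prod (volume : Measure ℝ)) := by
        refine h1.of_forall_sdiff_eq_zero (MeasurableSet.univ.prod measurableSet_Ioc) ?_
        rintro ⟨t, θ⟩ ⟨ht, hn⟩
        have : t ∉ ball (0 : E n) ε := fun h' => hn ⟨ball_subset_closedBall h',
          Ioc_subset_Icc_self ht.2⟩
        simp only [hg, supp hε this, zero_mul]
      rw [IntegrableOn, ← Measure.prod_restrict, Measure.restrict_univ] at h2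
      exact h2
    have hR : Real.circleAverage (fun ζ : ℂ => moll ε v (a + ζ • b)) 0 1 =
        ∫ t, (2 * Real.pi)⁻¹ * ∫ θ in Ioc 0 (2 * Real.pi), g (t, θ) := by
      rw [Real.circleAverage, smul_eq_mul, intervalIntegral.integral_of_le hpi,
        integral_const_mul]
      congr 1
      rw [integral_integral_swap (f := fun t θ => g (t, θ)) hgi]
      rfl
    rw [hR]
    refine integral_mono (intg hi a) (hgi.integral_prod_left.const_mul _) fun t => ?_
    simp only
    by_cases ht : t ∈ ball (0 : E n) ε
    · have h1 := hv.sub (a - t) b fun ζ hζ => by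
        have := hmem t ζ hζ (ball_subset_closedBall ht)
        rwa [show a - t + ζ • b = a + ζ • b - t by abel]
      have h2 : (2 * Real.pi)⁻¹ * ∫ θ in Ioc 0 (2 * Real.pi), g (t, θ) =
          (mb n ε).normed volume t *
            Real.circleAverage (fun ζ : ℂ => v (a - t + ζ • b)) 0 1 := by
        rw [Real.circleAverage, smul_eq_mul, intervalIntegral.integral_of_le hpi]
        simp only [hg]
        rw [integral_const_mul]
        have e : ∀ θ : ℝ, a + circleMap 0 1 θ • b - t = a - t + circleMap 0 1 θ • b :=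
          fun θ => by abel
        simp only [e]
        ring
      rw [h2]
      exact mul_le_mul_of_nonneg_left h1 ((mb n ε).nonneg_normed t)
    · simp only [hg, supp hε ht, zero_mul, integral_zero, mul_zero, le_refl]

open D12 in
theorem exists_smooth_psh (hΩ : IsOpen Ω) (hw : Psh Ω w) (hc : ContinuousOn w Ω) {K : Set (E n)}
    (hK : IsCompact K) (hKΩ : K ⊆ Ω) {ε : ℝ} (hε : 0 < ε) :
    ∃ (Ω' : Set (E n)) (w' : E n → ℝ), IsOpen Ω' ∧ K ⊆ Ω' ∧ Ω' ⊆ Ω ∧ ContDiff ℝ ∞ w' ∧
      Psh Ω' w' ∧ ∀ z ∈ Ω', |w' z - w z| ≤ ε := by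
  obtain ⟨L, hL, hKL, hLΩ⟩ := exists_compact_between hK hΩ hKΩ
  obtain ⟨δ, hδ, hδL⟩ := hK.exists_cthickening_subset_open isOpen_interior hKL
  have hwL : ContinuousOn w L := hc.mono hLΩ
  have hvi : LocallyIntegrable (L.indicator w) (volume : Measure (E n)) :=
    ((integrable_indicator_iff hL.measurableSet).2 (hwL.integrableOn_compact hL)).locallyIntegrable
  have huc := hL.uniformContinuousOn_of_continuous hwL
  obtain ⟨δ1, hδ1, hu⟩ := Metric.uniformContinuousOn_iff.1 huc ε hε
  set r : ℝ := min (δ / 2) δ1 with hr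
  have hr0 : 0 < r := lt_min (by positivity) hδ1
  have hIL : interior L ⊆ L := interior_subset
  have hsub : ∀ z ∈ thickening (δ / 2) K, closedBall z r ⊆ interior L := by
    intro z hz y hy
    refine hδL ?_
    obtain ⟨x, hx, hxz⟩ := mem_thickening_iff.1 hz
    refine mem_cthickening_of_dist_le y x δ K hx ?_
    have h1 : dist y z ≤ δ / 2 := (mem_closedBall.1 hy).trans (min_le_left _ _)
    calc dist y x ≤ dist y z + dist z x := dist_triangle _ _ _
      _ ≤ δ := by linarith
  have hsub' : ∀ z ∈ thickening (δ / 2) K, z ∈ interior L := fun z hz =>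
    hsub z hz (mem_closedBall_self hr0.le)
  have hvw : ∀ z ∈ interior L, L.indicator w z = w z := fun z hz =>
    indicator_of_mem (hIL hz) w
  refine ⟨thickening (δ / 2) K, moll r (L.indicator w), isOpen_thickening,
    self_subset_thickening (by positivity) K, fun z hz => hLΩ (hIL (hsub' z hz)),
    moll_contDiff hvi, ?_, fun z hz => ?_⟩
  · refine moll_psh (Ω := interior L) hr0 ((hw.mono (hIL.trans hLΩ)).congr hvw) ?_ hsub hvi
    exact (hwL.mono hIL).congr hvw
  · refine moll_near hr0 hvi fun y hy => ?_
    have hyL : y ∈ interior L := hsub z hz (ball_subset_closedBall hy)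
    rw [hvw y hyL]
    have h1 : dist y z < δ1 := (mem_ball.1 hy).trans_le (min_le_right _ _)
    have h2 := hu y (hIL hyL) z (hIL (hsub' z hz)) h1
    rw [Real.dist_eq] at h2
    exact h2.le

end Pool.Agent.DMA
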