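import Pool.Agent.Lib.DMA.D11
import Pool.Agent.Lib.DMA.D12

/-! # Row D13: smooth approximation of plurisubharmonic functions on compact sets

PROOF. `K ⊆ interior L₁`, `L₁` compact, `L₁ ⊆ interior L₂`, `L₂ ⊆ Ω` compact, `|v| ≤ A` on `L₂`.  Restrict `v`
to `Ω₂ = interior L₂` (`Psh.mono`).  For small `δ_k -> 0` `supc v δ_k` is psh and continuous on a
neighbourhood of `L₁` (`supc_psh`, `supc_continuousOn`), `|supc v δ_k| ≤ A`; `w k` = a smooth psh function
with distance `≤ 1/(k+1)` on a neighbourhood of `L₁` (`exists_smooth_psh`); `Ω' = interior L₁`;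
`supc_tendsto`. -/

set_option autoImplicit false

open scoped Topology ContDiff
open Set Filter Metric

noncomputable section

namespace Pool.Agent.DMA

open Pool.Agent.K708 (E CMfd)

variable {n : ℕ} {Ω : Set (E n)} {v : E n → ℝ}

theorem exists_smooth_seq (hΩ : IsOpen Ω) (hv : Psh Ω v) {K : Set (E n)} (hK : IsCompact K)
    (hKΩ : K ⊆ Ω) : ∃ (Ω' : Set (E n)) (C : ℝ) (w : ℕ → E n → ℝ), IsOpen Ω' ∧ K ⊆ Ω' ∧ Ω' ⊆ Ω ∧
      (∀ k, ContDiff ℝ ∞ (w k) ∧ Psh Ω' (w k) ∧ ∀ z ∈ Ω', |w k z| ≤ C) ∧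
      ∀ z ∈ Ω', Tendsto (fun k => w k z) atTop (𝓝 (v z)) := by
  obtain ⟨L₁, hL₁, hKL₁, hL₁Ω⟩ := exists_compact_between hK hΩ hKΩ
  obtain ⟨L₂, hL₂, hL₁L₂, hL₂Ω⟩ := exists_compact_between hL₁ hΩ hL₁Ω
  obtain ⟨A, hA'⟩ := hv.bdd L₂ hL₂Ω hL₂
  have hΩ₂ : IsOpen (interior L₂) := isOpen_interior
  have hv₂ : Psh (interior L₂) v := hv.mono (interior_subset.trans hL₂Ω)
  have hA : ∀ w ∈ interior L₂, |v w| ≤ A := fun w hw => hA' w (interior_subset hw)
  obtain ⟨δ₀, hδ₀, hthick⟩ := hL₁.exists_cthickening_subset_open hΩ₂ hL₁L₂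
  set Z : Set (E n) := thickening (δ₀ / 2) L₁ with hZdef
  have hZo : IsOpen Z := isOpen_thickening
  have hL₁Z : L₁ ⊆ Z := self_subset_thickening (by positivity) _
  set R : ℝ := δ₀ / 2 with hR
  have hR0 : 0 < R := by positivity
  have hZ : ∀ z ∈ Z, closedBall z R ⊆ interior L₂ := by
    intro z hz y hy
    apply hthick
    obtain ⟨x, hx, hxz⟩ := mem_thickening_iff.1 hz
    apply mem_cthickening_of_dist_le y x δ₀ L₁ hx
    have h1 : dist y z ≤ R := mem_closedBall.1 hy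
    have h2 := dist_triangle y z x
    rw [hR] at h1
    linarith
  set δ : ℕ → ℝ := fun k => R / ((k : ℝ) + 2) with hδdef
  have hδ0 : ∀ k, 0 < δ k := fun k => by
    have : (0 : ℝ) < (k : ℝ) + 2 := by positivity
    exact div_pos hR0 this
  have hδR : ∀ k, δ k < R := fun k => by
    have h1 : (1 : ℝ) < (k : ℝ) + 2 := by
      have : (0 : ℝ) ≤ k := Nat.cast_nonneg k
      linarith
    exact div_lt_self hR0 h1
  have hδlim : Tendsto δ atTop (𝓝[>] 0) := by
    rw [tendsto_nhdsWithin_iff]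
    refine ⟨?_, Eventually.of_forall fun k => hδ0 k⟩
    have h1 : Tendsto (fun k : ℕ => (k : ℝ) + 2) atTop atTop :=
      tendsto_atTop_add_const_right _ _ tendsto_natCast_atTop_atTop
    exact h1.const_div_atTop R
  have hpsh : ∀ k, Psh Z (supc v (δ k)) := fun k => supc_psh hv₂ (hδ0 k) (hδR k) hZ hA
  have hcont : ∀ k, ContinuousOn (supc v (δ k)) Z := fun k =>
    supc_continuousOn hv₂ (hδ0 k) (hδR k) hZ hA
  have hbd : ∀ k, ∀ z ∈ Z, |supc v (δ k) z| ≤ A := by
    intro k z hz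
    have hsub : closedBall z (δ k) ⊆ interior L₂ :=
      (closedBall_subset_closedBall (hδR k).le).trans (hZ z hz)
    have hmem : z ∈ closedBall z (δ k) := mem_closedBall_self (hδ0 k).le
    have hbdd : BddAbove (v '' closedBall z (δ k)) := by
      refine ⟨A, ?_⟩
      rintro _ ⟨y, hy, rfl⟩
      exact (abs_le.1 (hA y (hsub hy))).2
    rw [abs_le]
    constructor
    · exact ((abs_le.1 (hA z (hsub hmem))).1).trans (le_csSup hbdd ⟨z, hmem, rfl⟩)
    · have hne : (v '' closedBall z (δ k)).Nonempty := ⟨v z, z, hmem, rfl⟩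
      refine csSup_le hne ?_
      rintro _ ⟨y, hy, rfl⟩
      exact (abs_le.1 (hA y (hsub hy))).2
  have hε : ∀ k : ℕ, (0 : ℝ) < 1 / ((k : ℝ) + 1) := fun k => by positivity
  choose Ωk wk hΩko hL₁Ωk hΩkZ hwk hwkpsh hwknear using fun k =>
    exists_smooth_psh hZo (hpsh k) (hcont k) hL₁ hL₁Z (hε k)
  have hin : ∀ k, interior L₁ ⊆ Ωk k := fun k => interior_subset.trans (hL₁Ωk k)
  refine ⟨interior L₁, A + 1, wk, isOpen_interior, hKL₁, interior_subset.trans hL₁Ω, ?_, ?_⟩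
  · intro k
    refine ⟨hwk k, (hwkpsh k).mono (hin k), ?_⟩
    intro z hz
    have h1 := hwknear k z (hin k hz)
    have h2 := hbd k z (hΩkZ k (hin k hz))
    have h3 : (1 : ℝ) / ((k : ℝ) + 1) ≤ 1 := by
      rw [div_le_one (by positivity)]
      have : (0 : ℝ) ≤ k := Nat.cast_nonneg k
      linarith
    have h4 : wk k z = (wk k z - supc v (δ k) z) + supc v (δ k) z := by ring
    rw [h4]
    exact (abs_add_le _ _).trans (by linarith)
  · intro z hz
    have hzΩ : Ω ∈ 𝓝 z := mem_of_superset (mem_interior_iff_mem_nhds.1 hz) hL₁Ω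
    have h1 : Tendsto (fun k => supc v (δ k) z) atTop (𝓝 (v z)) := (supc_tendsto hv hzΩ).comp hδlim
    have h2 : Tendsto (fun k => wk k z - supc v (δ k) z) atTop (𝓝 0) := by
      apply squeeze_zero_norm (a := fun k : ℕ => 1 / ((k : ℝ) + 1))
      · intro k
        rw [Real.norm_eq_abs]
        exact hwknear k z (hin k hz)
      · exact tendsto_one_div_add_atTop_nhds_zero_nat
    have h3 := h2.add h1
    simpa using h3

end Pool.Agent.DMA
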