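import Pool.Agent.Lib.DMA.D6

/-! # Row D7: the Levi form and the circle averages

PROOF. `circ_expand`: put `q h = f a + Df(a) h + D2 f a h h / 2`.  Second order Taylor formula:
`f (a + h) - q h = o(‖h‖^2)` (`f` is `C²` near `a`: the derivative of `h ↦ f (a+h) - q h` is `o(‖h‖)`,
mean value inequality on balls).  On the circle `h = ζ • b`, `ζ = r e^{iθ}`: the average of `Df(a) h` is
`0`, the average of `D2 f a h h` is `r^2/2 * levi f a b` (`h = r cos θ • b + r sin θ • (I • b)`, the mixed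
term has average `0`).  So the limit is `levi f a b / 4`.
`psh_of_levi`: the limit is `≥ 0 > -τ`, so `psh_of_local`.
`Psh.levi_nonneg`: the quotient is `≥ 0` for small `r` (`Psh.sub_small`). -/

set_option autoImplicit false

open scoped Topology
open Set Filter Metric

noncomputable section

namespace Pool.Agent.DMA

open Pool.Agent.K708 (E CMfd)

variable {n : ℕ} {Ω : Set (E n)} {f : E n → ℝ}

/-- Second order Taylor formula. -/
private theorem D7_taylor {a : E n} (hf : ContDiffAt ℝ 2 f a) {ε : ℝ} (hε : 0 < ε) :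
    ∃ δ > 0, ∀ h : E n, ‖h‖ < δ → ContinuousAt f (a + h) ∧
      |f (a + h) - (f a + fderiv ℝ f a h + D2 f a h h / 2)| ≤ ε * ‖h‖ ^ 2 := by
  have hs : ∀ u v, D2 f a u v = D2 f a v u := fun u v =>
    (hf.isSymmSndFDerivAt (by simp)) u v
  have h1 : ∀ᶠ y in 𝓝 a, DifferentiableAt ℝ f y := by
    filter_upwards [hf.eventually (by simp)] with y hy
    exact hy.differentiableAt (by simp)
  have h2 : HasFDerivAt (fderiv ℝ f) (D2 f a) a :=
    ((hf.fderiv_right (m := 1) (by norm_num)).differentiableAt (by simp)).hasFDerivAt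
  have h3 := h2.isLittleO.def hε
  obtain ⟨δ, hδ, hball⟩ := Metric.eventually_nhds_iff.1 (h1.and h3)
  refine ⟨δ, hδ, fun h hh => ?_⟩
  have hB : ∀ x ∈ closedBall (0 : E n) ‖h‖, DifferentiableAt ℝ f (a + x) ∧
      ‖fderiv ℝ f (a + x) - fderiv ℝ f a - D2 f a x‖ ≤ ε * ‖x‖ := by
    intro x hx
    have hx' : ‖x‖ ≤ ‖h‖ := by simpa using hx
    have h4 := @hball (a + x) (by rw [dist_eq_norm, add_sub_cancel_left]; linarith)
    refine ⟨h4.1, ?_⟩
    have h5 := h4.2
    rwa [add_sub_cancel_left] at h5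
  refine ⟨(hB h (by simp)).1.continuousAt, ?_⟩
  let g : E n → ℝ := fun x => f (a + x) - (f a + fderiv ℝ f a x + D2 f a x x / 2)
  have hg : ∀ x ∈ closedBall (0 : E n) ‖h‖, HasFDerivWithinAt g
      (fderiv ℝ f (a + x) - fderiv ℝ f a - D2 f a x) (closedBall (0 : E n) ‖h‖) x := by
    intro x hx
    refine HasFDerivAt.hasFDerivWithinAt ?_
    have h4 : HasFDerivAt (fun x => f (a + x)) (fderiv ℝ f (a + x)) x := by
      have h5 := (hB x hx).1.hasFDerivAt
      have h6 : HasFDerivAt (fun x : E n => a + x) (ContinuousLinearMap.id ℝ (E n)) x :=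
        (hasFDerivAt_id x).const_add a
      exact h5.comp x h6
    have h7 : HasFDerivAt (fun x : E n => D2 f a x x) ((2 : ℝ) • D2 f a x) x := by
      have h8 := (D2 f a).hasFDerivAt_of_bilinear (hasFDerivAt_id x) (hasFDerivAt_id x)
      refine h8.congr_fderiv (ContinuousLinearMap.ext fun v => ?_)
      change D2 f a x v + D2 f a v x = (2 : ℝ) * D2 f a x v
      rw [hs v x]
      ring
    have h9 : HasFDerivAt (fun x : E n => f a + fderiv ℝ f a x + D2 f a x x / 2)
        (fderiv ℝ f a + D2 f a x) x := by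
      have h10 := ((fderiv ℝ f a).hasFDerivAt (x := x)).const_add (f a)
      have h11 := (h10.add (h7.const_mul (1 / 2 : ℝ))).congr_fderiv
        (g' := fderiv ℝ f a + D2 f a x) (by rw [smul_smul]; norm_num)
      have h12 : (fun x : E n => f a + fderiv ℝ f a x + D2 f a x x / 2) =
          (fun x : E n => f a + fderiv ℝ f a x) + fun y => 1 / 2 * D2 f a y y := by
        funext y
        simp only [Pi.add_apply]
        ring
      rw [h12]
      exact h11
    exact (h4.sub h9).congr_fderiv (by abel)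
  have h5 := (convex_closedBall (0 : E n) ‖h‖).norm_image_sub_le_of_norm_hasFDerivWithin_le
    (f := g) hg (C := ε * ‖h‖) (fun x hx => (hB x hx).2.trans (by
      have hx' : ‖x‖ ≤ ‖h‖ := by simpa using hx
      exact mul_le_mul_of_nonneg_left hx' hε.le)) (x := 0) (y := h) (by simp) (by simp)
  have hg0 : g 0 = 0 := by simp [g]
  rw [hg0, sub_zero, sub_zero, Real.norm_eq_abs] at h5
  calc |f (a + h) - (f a + fderiv ℝ f a h + D2 f a h h / 2)| = |g h| := rfl
    _ ≤ ε * ‖h‖ * ‖h‖ := h5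
    _ = ε * ‖h‖ ^ 2 := by ring

/-- The average of the quadratic polynomial. -/
private theorem D7_avg (a b : E n) (hs : ∀ u v, D2 f a u v = D2 f a v u) (r : ℝ) :
    Real.circleAverage (fun ζ : ℂ => f a + fderiv ℝ f a (ζ • b) + D2 f a (ζ • b) (ζ • b) / 2) 0 r =
      f a + r ^ 2 * (levi f a b / 4) := by
  have h1 : ∀ θ : ℝ, circleMap 0 r θ • b =
      (r * Real.cos θ) • b + (r * Real.sin θ) • (Complex.I • b) := by
    intro θ
    funext j
    simp only [circleMap, Pi.smul_apply, Pi.add_apply, smul_eq_mul, Complex.real_smul, zero_add,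
      Complex.exp_mul_I, Complex.ofReal_mul, Complex.ofReal_cos, Complex.ofReal_sin]
    ring
  have h2 : ∀ θ : ℝ, f a + fderiv ℝ f a (circleMap 0 r θ • b) +
      D2 f a (circleMap 0 r θ • b) (circleMap 0 r θ • b) / 2 =
      f a + (r * fderiv ℝ f a b) * Real.cos θ + (r * fderiv ℝ f a (Complex.I • b)) * Real.sin θ +
      (r ^ 2 * D2 f a b b / 2) * Real.cos θ ^ 2 +
      (r ^ 2 * D2 f a b (Complex.I • b)) * (Real.sin θ * Real.cos θ) +
      (r ^ 2 * D2 f a (Complex.I • b) (Complex.I • b) / 2) * Real.sin θ ^ 2 := by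
    intro θ
    rw [h1]
    simp only [map_add, map_smul, add_apply, smul_apply, smul_eq_mul]
    rw [hs (Complex.I • b) b]
    ring
  rw [Real.circleAverage_def]
  simp only [h2]
  have i0 : IntervalIntegrable (fun _ : ℝ => f a) MeasureTheory.volume 0 (2 * Real.pi) :=
    intervalIntegrable_const
  have hci : ∀ (c : ℝ) {F : ℝ → ℝ}, Continuous F →
      IntervalIntegrable (fun θ => c * F θ) MeasureTheory.volume 0 (2 * Real.pi) :=
    fun c F hF => (continuous_const.mul hF).intervalIntegrable _ _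
  have j1 := hci (r * fderiv ℝ f a b) Real.continuous_cos
  have j2 := hci (r * fderiv ℝ f a (Complex.I • b)) Real.continuous_sin
  have j3 := hci (r ^ 2 * D2 f a b b / 2) (F := fun θ => Real.cos θ ^ 2)
    (Real.continuous_cos.pow 2)
  have j4 := hci (r ^ 2 * D2 f a b (Complex.I • b)) (F := fun θ => Real.sin θ * Real.cos θ)
    (Real.continuous_sin.mul Real.continuous_cos)
  have j5 := hci (r ^ 2 * D2 f a (Complex.I • b) (Complex.I • b) / 2)
    (F := fun θ => Real.sin θ ^ 2) (Real.continuous_sin.pow 2)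
  rw [intervalIntegral.integral_add ((((i0.add j1).add j2).add j3).add j4) j5,
    intervalIntegral.integral_add (((i0.add j1).add j2).add j3) j4,
    intervalIntegral.integral_add ((i0.add j1).add j2) j3,
    intervalIntegral.integral_add (i0.add j1) j2, intervalIntegral.integral_add i0 j1]
  simp only [intervalIntegral.integral_const_mul, intervalIntegral.integral_const]
  rw [integral_cos, integral_sin, integral_cos_sq, integral_sin_mul_cos₁, integral_sin_sq]
  simp only [Real.sin_two_pi, Real.cos_two_pi, Real.sin_zero, Real.cos_zero, smul_eq_mul, levi]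
  have hpi := Real.pi_ne_zero
  field_simp
  ring

theorem circ_expand {a : E n} (hf : ContDiffAt ℝ 2 f a) (b : E n) :
    Tendsto (fun r : ℝ => (Real.circleAverage (fun ζ : ℂ => f (a + ζ • b)) 0 r - f a) / r ^ 2)
      (𝓝[>] 0) (𝓝 (levi f a b / 4)) := by
  have hs : ∀ u v, D2 f a u v = D2 f a v u := fun u v =>
    (hf.isSymmSndFDerivAt (by simp)) u v
  rw [Metric.tendsto_nhds]
  intro ε hε
  obtain ⟨δ, hδ, hT⟩ := D7_taylor hf (ε := ε / (2 * (‖b‖ ^ 2 + 1))) (by positivity)
  have hδ' : 0 < δ / (‖b‖ + 1) := by positivity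
  filter_upwards [Ioo_mem_nhdsGT hδ'] with r hr
  obtain ⟨hr0, hr1⟩ := hr
  have hnorm : ∀ ζ ∈ sphere (0 : ℂ) |r|, ‖ζ • b‖ = r * ‖b‖ := by
    intro ζ hζ
    rw [norm_smul]
    congr 1
    rw [mem_sphere_zero_iff_norm] at hζ
    rw [hζ, abs_of_pos hr0]
  have hsmall : r * ‖b‖ < δ := by
    rw [lt_div_iff₀ (by positivity)] at hr1
    nlinarith [norm_nonneg b]
  have hline : Continuous fun ζ : ℂ => a + ζ • b := by fun_prop
  have hci1 : CircleIntegrable (fun ζ : ℂ => f (a + ζ • b)) 0 r := by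
    refine ContinuousOn.circleIntegrable' ?_
    intro ζ hζ
    have h1 := (hT (ζ • b) (by rw [hnorm ζ hζ]; exact hsmall)).1
    exact (ContinuousAt.comp (g := f) (f := fun ζ : ℂ => a + ζ • b) h1
      hline.continuousAt).continuousWithinAt
  have hci2 : CircleIntegrable
      (fun ζ : ℂ => f a + fderiv ℝ f a (ζ • b) + D2 f a (ζ • b) (ζ • b) / 2) 0 r := by
    refine ContinuousOn.circleIntegrable' (Continuous.continuousOn ?_)
    have hsm : Continuous fun ζ : ℂ => ζ • b := by fun_prop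
    have h1 : Continuous fun ζ : ℂ => D2 f a (ζ • b) (ζ • b) :=
      ((D2 f a).continuous.comp hsm).clm_apply hsm
    exact (continuous_const.add ((fderiv ℝ f a).continuous.comp hsm)).add (h1.div_const 2)
  have h2 : Real.circleAverage (fun ζ : ℂ => f (a + ζ • b)) 0 r -
      (f a + r ^ 2 * (levi f a b / 4)) = Real.circleAverage (fun ζ : ℂ => f (a + ζ • b) -
        (f a + fderiv ℝ f a (ζ • b) + D2 f a (ζ • b) (ζ • b) / 2)) 0 r := by
    rw [Real.circleAverage_fun_sub hci1 hci2, D7_avg a b hs r]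
  have h3 : |Real.circleAverage (fun ζ : ℂ => f (a + ζ • b) -
        (f a + fderiv ℝ f a (ζ • b) + D2 f a (ζ • b) (ζ • b) / 2)) 0 r| ≤
      ε / (2 * (‖b‖ ^ 2 + 1)) * (r * ‖b‖) ^ 2 := by
    refine Real.abs_circleAverage_le_circleAverage_abs.trans ?_
    refine Real.circleAverage_mono_on_of_le_circle (hci1.sub hci2).abs ?_
    intro ζ hζ
    have h4 := (hT (ζ • b) (by rw [hnorm ζ hζ]; exact hsmall)).2
    rw [hnorm ζ hζ] at h4
    exact h4
  have hr2 : 0 < r ^ 2 := by positivity
  rw [Real.dist_eq]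
  have h5 : (Real.circleAverage (fun ζ : ℂ => f (a + ζ • b)) 0 r - f a) / r ^ 2 - levi f a b / 4 =
      (Real.circleAverage (fun ζ : ℂ => f (a + ζ • b)) 0 r -
      (f a + r ^ 2 * (levi f a b / 4))) / r ^ 2 := by
    field_simp
    ring
  rw [h5, h2, abs_div, abs_of_pos hr2, div_lt_iff₀ hr2]
  refine lt_of_le_of_lt h3 ?_
  have h6 : ε / (2 * (‖b‖ ^ 2 + 1)) * (r * ‖b‖) ^ 2 =
      (ε * r ^ 2) * (‖b‖ ^ 2 / (2 * (‖b‖ ^ 2 + 1))) := by
    field_simp
  rw [h6]
  have h7 : ‖b‖ ^ 2 / (2 * (‖b‖ ^ 2 + 1)) < 1 := by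
    rw [div_lt_one (by positivity)]
    nlinarith [sq_nonneg ‖b‖]
  have h8 : 0 < ε * r ^ 2 := by positivity
  nlinarith

theorem psh_of_levi (hΩ : IsOpen Ω) (hf : ContDiffOn ℝ 2 f Ω)
    (h : ∀ z ∈ Ω, ∀ b, 0 ≤ levi f z b) : Psh Ω f := by
  refine psh_of_local hf.continuousOn.upperSemicontinuousOn ?_ ?_
  · intro K hK hc
    obtain ⟨C, hC⟩ := hc.exists_bound_of_continuousOn (hf.continuousOn.mono hK)
    exact ⟨C, hC⟩
  · intro a ha b τ hτ
    refine Eventually.frequently ?_
    have h1 := circ_expand (hf.contDiffAt (hΩ.mem_nhds ha)) b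
    have h2 : -τ < levi f a b / 4 := by
      have := h a ha b
      linarith
    filter_upwards [h1.eventually (lt_mem_nhds h2), self_mem_nhdsWithin] with r hr hr0
    have hr0' : (0 : ℝ) < r := hr0
    rw [lt_div_iff₀ (by positivity)] at hr
    linarith

theorem Psh.levi_nonneg (hp : Psh Ω f) {z : E n} (hz : Ω ∈ 𝓝 z) (hf : ContDiffAt ℝ 2 f z)
    (b : E n) : 0 ≤ levi f z b := by
  have h1 : 0 ≤ levi f z b / 4 := by
    refine ge_of_tendsto (circ_expand hf b) ?_
    filter_upwards [hp.sub_small hz b] with r hr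
    exact div_nonneg (by linarith) (sq_nonneg r)
  linarith

end Pool.Agent.DMA
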