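import Pool.Agent.Lib.DMA.DDefs
import Pool.Agent.Lib.DMA.CComp

/-! # Row D8: the Levi form (algebra)

PROOF. `levi f z b = D2 f z b b + D2 f z (I b) (I b)`, so `CH_psd_levi`, `CH_pd_levi` are
`CH_posSemidef_iff`, `CH_posDef_iff` (CComp).  Linearity: `fderiv` twice (`ContDiffAt ℝ 2`: `fderiv` is
differentiable at `z` and `f` is differentiable near `z`).  `levi_comp`: take the quadratic form `cH_quad`
of `CH_comp` (symmetry of `D2`: `ContDiffAt.isSymmSndFDerivAt`): `4 * (b, CH (f ∘ F) b) =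
4 * (F' b, CH f F' b)`.  (Or directly: second derivative of a composition, the terms with `F''` cancel.) -/

set_option autoImplicit false

open scoped Topology ComplexOrder
open Set Filter Metric

noncomputable section

namespace Pool.Agent.DMA

open Pool.Agent.K708 (E CMfd)

variable {m n : ℕ} {f g : E n → ℝ} {z : E n}

theorem CH_psd_levi (hf : ContDiffAt ℝ 2 f z) :
    (CH f z).PosSemidef ↔ ∀ b, 0 ≤ levi f z b :=
  CH_posSemidef_iff hf

theorem CH_pd_levi (hf : ContDiffAt ℝ 2 f z) :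
    (CH f z).PosDef ↔ ∀ b, b ≠ 0 → 0 < levi f z b :=
  CH_posDef_iff hf

theorem levi_congr (h : f =ᶠ[𝓝 z] g) (b : E n) : levi f z b = levi g z b := by
  have h1 : D2 f z = D2 g z := (h.fderiv).fderiv_eq
  rw [levi, levi, h1]

private theorem D8_diff (hf : ContDiffAt ℝ 2 f z) : ∀ᶠ w in 𝓝 z, DifferentiableAt ℝ f w := by
  filter_upwards [hf.eventually (by simp)] with w hw
  exact hw.differentiableAt (by simp)

private theorem D8_diff2 (hf : ContDiffAt ℝ 2 f z) : DifferentiableAt ℝ (fderiv ℝ f) z :=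
  (hf.fderiv_right (m := 1) (by norm_num)).differentiableAt (by simp)

theorem levi_add (hf : ContDiffAt ℝ 2 f z) (hg : ContDiffAt ℝ 2 g z) (b : E n) :
    levi (fun w => f w + g w) z b = levi f z b + levi g z b := by
  have h1 : D2 (fun w => f w + g w) z = D2 f z + D2 g z := by
    have h2 : fderiv ℝ (fun w => f w + g w) =ᶠ[𝓝 z] fun w => fderiv ℝ f w + fderiv ℝ g w := by
      filter_upwards [D8_diff hf, D8_diff hg] with w h3 h4
      exact fderiv_fun_add h3 h4
    rw [D2, h2.fderiv_eq]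
    exact fderiv_fun_add (D8_diff2 hf) (D8_diff2 hg)
  rw [levi, levi, levi, h1]
  simp only [add_apply]
  ring

theorem levi_const_mul (hf : ContDiffAt ℝ 2 f z) (c : ℝ) (b : E n) :
    levi (fun w => c * f w) z b = c * levi f z b := by
  have h1 : D2 (fun w => c * f w) z = c • D2 f z := by
    have h2 : fderiv ℝ (fun w => c * f w) =ᶠ[𝓝 z] fun w => c • fderiv ℝ f w := by
      filter_upwards [D8_diff hf] with w h3
      exact fderiv_const_mul h3 c
    rw [D2, h2.fderiv_eq]
    exact fderiv_fun_const_smul (D8_diff2 hf) c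
  rw [levi, levi, h1]
  simp only [smul_apply, smul_eq_mul]
  ring

theorem levi_le (f : E n → ℝ) (z b : E n) : |levi f z b| ≤ 2 * ‖D2 f z‖ * ‖b‖ ^ 2 := by
  have h1 := (D2 f z).le_opNorm₂ b b
  have h2 := (D2 f z).le_opNorm₂ (Complex.I • b) (Complex.I • b)
  rw [norm_smul, Complex.norm_I, one_mul] at h2
  rw [levi]
  rw [Real.norm_eq_abs] at h1 h2
  refine (abs_add_le _ _).trans ?_
  nlinarith [h1, h2]

/-- The real bilinear form of `∑ ‖w j‖^2`. -/
private def D8_B (n : ℕ) : E n →L[ℝ] E n →L[ℝ] ℝ :=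
  ∑ j : Fin n, (innerSL ℝ (E := ℂ)).bilinearComp (ContinuousLinearMap.proj j)
    (ContinuousLinearMap.proj j)

private theorem D8_B_apply (u v : E n) : D8_B n u v = ∑ j, inner ℝ (u j) (v j) := by
  simp [D8_B]

private theorem D8_B_symm (u v : E n) : D8_B n u v = D8_B n v u := by
  rw [D8_B_apply, D8_B_apply]
  exact Finset.sum_congr rfl fun j _ => real_inner_comm _ _

private theorem D8_B_self (u : E n) : D8_B n u u = ∑ j, ‖u j‖ ^ 2 := by
  rw [D8_B_apply]
  exact Finset.sum_congr rfl fun j _ => real_inner_self_eq_norm_sq _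

/-- The Levi form of `∑ ‖w j‖^2`. -/
theorem levi_normSq (z b : E n) : levi (fun w => ∑ j, ‖w j‖ ^ 2) z b = 4 * ∑ j, ‖b j‖ ^ 2 := by
  have h1 : (fun w : E n => ∑ j, ‖w j‖ ^ 2) = fun w => D8_B n w w := by
    funext w
    rw [D8_B_self]
  have h2 : fderiv ℝ (fun w : E n => D8_B n w w) = fun w => (2 : ℝ) • D8_B n w := by
    funext w
    have h3 := (D8_B n).hasFDerivAt_of_bilinear (hasFDerivAt_id w) (hasFDerivAt_id w)
    rw [show (fun w : E n => D8_B n w w) = fun y => D8_B n (id y) (id y) from rfl, h3.fderiv]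
    ext v
    change D8_B n w v + D8_B n v w = (2 : ℝ) * D8_B n w v
    rw [D8_B_symm v w]
    ring
  have h3 : D2 (fun w : E n => ∑ j, ‖w j‖ ^ 2) z = (2 : ℝ) • D8_B n := by
    rw [h1, D2, h2]
    exact ((2 : ℝ) • D8_B n).hasFDerivAt.fderiv
  rw [levi, h3]
  simp only [smul_apply, smul_eq_mul, D8_B_self, Pi.smul_apply, norm_mul,
    Complex.norm_I, one_mul]
  ring

private theorem D8_mat (A : E m →L[ℂ] E n) (b : E m) : (mat A).mulVec b = A b := by
  funext p
  have h1 : b = ∑ j, b j • (Pi.single j (1 : ℂ) : E m) := by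
    conv_lhs => rw [← Finset.univ_sum_single b]
    refine Finset.sum_congr rfl fun j _ => ?_
    rw [← Pi.single_smul', smul_eq_mul, mul_one]
  conv_rhs => rw [h1, map_sum]
  rw [Finset.sum_apply, Matrix.mulVec, dotProduct]
  refine Finset.sum_congr rfl fun j _ => ?_
  rw [map_smul, Pi.smul_apply, smul_eq_mul, mat, mul_comm]

private theorem D8_quad (hf : ContDiffAt ℝ 2 f z) (b : E n) :
    dotProduct b ((CH f z).mulVec fun k => (starRingEnd ℂ) (b k)) =
      ((levi f z b / 4 : ℝ) : ℂ) := by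
  have hs : ∀ u v, D2 f z u v = D2 f z v u := fun u v =>
    (hf.isSymmSndFDerivAt (by simp)) u v
  have h1 := cH_quad hs b
  rw [levi, ← h1, ← CH_eq]
  simp only [dotProduct, Matrix.mulVec, Finset.mul_sum, mul_assoc]

/-- The Levi form of a composition with a holomorphic map. -/
theorem levi_comp {F : E m → E n} {y : E m} (hF : ContDiffAt ℂ 2 F y)
    (hf : ContDiffAt ℝ 2 f (F y)) (b : E m) :
    levi (fun w => f (F w)) y b = levi f (F y) (fderiv ℂ F y b) := by
  have hc : ContDiffAt ℝ 2 (fun w => f (F w)) y := hf.comp y (hF.restrict_scalars ℝ)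
  have h1 := D8_quad hc b
  have h2 := D8_quad hf (fderiv ℂ F y b)
  have h3 : ((levi (fun w => f (F w)) y b / 4 : ℝ) : ℂ) =
      ((levi f (F y) (fderiv ℂ F y b) / 4 : ℝ) : ℂ) := by
    rw [← h1, ← h2, CH_comp hF hf, ← Matrix.mulVec_mulVec, ← Matrix.mulVec_mulVec,
      Matrix.dotProduct_mulVec, Matrix.vecMul_transpose, D8_mat]
    congr 2
    rw [← D8_mat]
    funext k
    simp only [Matrix.mulVec, dotProduct, Matrix.map_apply, map_sum, map_mul]
  have h4 := Complex.ofReal_injective h3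
  linarith

end Pool.Agent.DMA
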