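import Pool.Agent.Lib.DMA.D13
import Pool.Agent.Lib.DMA.D8
import Pool.Agent.Lib.DMA.D7
import Pool.Agent.Lib.K708.HolAn

/-! # Row D14: composition with holomorphic maps

PROOF. Semicontinuity and boundedness: composition with a continuous map, compact images.  Disc
`a + ζ b` (`‖ζ‖ ≤ 1`) in `Ω₁`, `K` = the image under `F` of the closed disc: `exists_smooth_seq` gives smooth
psh `w k` on `Ω' ⊇ K`.  `w k ∘ F` is `C²` on the open set `Ω₁ ∩ F⁻¹ Ω'` with Levi form `≥ 0`
(`levi_comp`, `Psh.levi_nonneg`), so psh (`psh_of_levi`) and satisfies the sub-mean value inequality on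
the disc; dominated convergence. -/

set_option autoImplicit false

open scoped Topology ContDiff
open Set Filter Metric

noncomputable section

namespace Pool.Agent.DMA

open Pool.Agent.K708 (E CMfd)

variable {m n : ℕ} {Ω : Set (E n)} {v : E n → ℝ}

private theorem d14_smooth {Ω' : Set (E n)} (hΩ' : IsOpen Ω') {w : E n → ℝ} (hw : ContDiff ℝ ∞ w)
    (hp : Psh Ω' w) {Ω₁ : Set (E m)} (hΩ₁ : IsOpen Ω₁) {F : E m → E n}
    (hF : DifferentiableOn ℂ F Ω₁) : Psh (Ω₁ ∩ F ⁻¹' Ω') (fun z => w (F z)) := by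
  have hopen : IsOpen (Ω₁ ∩ F ⁻¹' Ω') := hF.continuousOn.isOpen_inter_preimage hΩ₁ hΩ'
  have hFan : ∀ z ∈ Ω₁, ContDiffAt ℂ 2 F z := fun z hz =>
    (((Pool.Agent.K708.holo_omega_pi hΩ₁ hF) z hz).contDiffAt (hΩ₁.mem_nhds hz)).of_le le_top
  have hw2 : ContDiff ℝ 2 w := contDiff_infty.1 hw 2
  apply psh_of_levi hopen
  · intro z hz
    apply ContDiffAt.contDiffWithinAt
    exact hw2.contDiffAt.comp z ((hFan z hz.1).restrict_scalars ℝ)
  · intro z hz b
    rw [levi_comp (hFan z hz.1) hw2.contDiffAt b]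
    exact hp.levi_nonneg (hΩ'.mem_nhds hz.2) hw2.contDiffAt _

theorem Psh.comp (hΩ : IsOpen Ω) (hv : Psh Ω v) {Ω₁ : Set (E m)} (hΩ₁ : IsOpen Ω₁)
    {F : E m → E n} (hF : DifferentiableOn ℂ F Ω₁) (hm : MapsTo F Ω₁ Ω) :
    Psh Ω₁ (fun z => v (F z)) := by
  refine ⟨?_, ?_, ?_⟩
  · intro z hz y hy
    have h1 : ∀ᶠ x in 𝓝[Ω] F z, v x < y := hv.usc (F z) (hm hz) y hy
    have h2 : Tendsto F (𝓝[Ω₁] z) (𝓝[Ω] F z) :=
      (hF.continuousOn z hz).tendsto_nhdsWithin hm
    exact h2.eventually h1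
  · intro K hK hKc
    obtain ⟨C, hC⟩ := hv.bdd (F '' K) (image_subset_iff.2 fun x hx => hm (hK hx))
      (hKc.image_of_continuousOn (hF.continuousOn.mono hK))
    exact ⟨C, fun z hz => hC (F z) (mem_image_of_mem F hz)⟩
  · intro a b hab
    have hline : Continuous fun ζ : ℂ => a + ζ • b := by fun_prop
    have hmaps : MapsTo (fun ζ : ℂ => a + ζ • b) (closedBall (0 : ℂ) 1) Ω₁ := fun ζ hζ =>
      hab ζ (by simpa using hζ)
    have hcomp : ContinuousOn (fun ζ : ℂ => F (a + ζ • b)) (closedBall (0 : ℂ) 1) :=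
      hF.continuousOn.comp hline.continuousOn hmaps
    have hK : IsCompact ((fun ζ : ℂ => F (a + ζ • b)) '' closedBall (0 : ℂ) 1) :=
      (isCompact_closedBall 0 1).image_of_continuousOn hcomp
    have hKΩ : (fun ζ : ℂ => F (a + ζ • b)) '' closedBall (0 : ℂ) 1 ⊆ Ω := by
      rintro _ ⟨ζ, hζ, rfl⟩
      exact hm (hmaps hζ)
    obtain ⟨Ω', C, w, hΩ'o, hKΩ', hΩ'Ω, hw, hlim⟩ := exists_smooth_seq hΩ hv hK hKΩ
    have hin : ∀ ζ : ℂ, ‖ζ‖ ≤ 1 → F (a + ζ • b) ∈ Ω' := fun ζ hζ =>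
      hKΩ' ⟨ζ, by simpa using hζ, rfl⟩
    have hineq : ∀ k, w k (F a) ≤
        Real.circleAverage (fun ζ : ℂ => w k (F (a + ζ • b))) 0 1 := by
      intro k
      have h1 := (d14_smooth hΩ'o (hw k).1 (hw k).2.1 hΩ₁ hF).sub a b
        (fun ζ hζ => ⟨hab ζ hζ, hin ζ hζ⟩)
      exact h1
    have h0 : F a ∈ Ω' := by
      have := hin 0 (by simp)
      simpa using this
    have hl1 : Tendsto (fun k => w k (F a)) atTop (𝓝 (v (F a))) := hlim _ h0
    have hcm : ∀ θ : ℝ, ‖circleMap 0 1 θ‖ ≤ 1 := fun θ => by simp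
    have hl2 : Tendsto (fun k => Real.circleAverage (fun ζ : ℂ => w k (F (a + ζ • b))) 0 1) atTop
        (𝓝 (Real.circleAverage (fun ζ : ℂ => v (F (a + ζ • b))) 0 1)) := by
      unfold Real.circleAverage
      apply Tendsto.const_smul
      apply intervalIntegral.tendsto_integral_filter_of_dominated_convergence (fun _ => C)
      · refine Eventually.of_forall fun k => ?_
        have hc : Continuous fun θ : ℝ => w k (F (a + circleMap 0 1 θ • b)) := by
          have h1 : Continuous fun θ : ℝ => F (a + circleMap 0 1 θ • b) :=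
            hcomp.comp_continuous (continuous_circleMap 0 1) fun θ => by
              simp
          exact (hw k).1.continuous.comp h1
        exact hc.aestronglyMeasurable
      · refine Eventually.of_forall fun k => Eventually.of_forall fun θ _ => ?_
        rw [Real.norm_eq_abs]
        exact (hw k).2.2 _ (hin _ (hcm θ))
      · exact intervalIntegrable_const
      · exact Eventually.of_forall fun θ _ => hlim _ (hin _ (hcm θ))
    exact le_of_tendsto_of_tendsto' hl1 hl2 hineq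

end Pool.Agent.DMA
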