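import Pool.Agent.Lib.DMA.DDefs

/-! # Row D15: regularised maximum

PROOF. `μ t = max_i t i` (`Finset.univ.sup'`), a continuous convex monotone function on `ι → ℝ`
(sup norm), `μ (t + c) = μ t + c`, `|μ t - μ s| ≤ ‖t - s‖`.  `M t = ∫ h, φ h * μ (t - h)` with
`φ = ContDiffBump.normed` of outer radius `ε`.  Smooth: `HasCompactSupport.contDiff_convolution_left`.
`lower`, `upper`: `|h i| ≤ ε` on the support.  `indep`: for `‖h‖ < ε` an index `i` with
`s i ≤ s m - 2 ε` has `s i - h i ≤ s m - h m`, so it does not matter: `μ (s - h) = μ (t - h)`. -/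

set_option autoImplicit false

open scoped Topology ContDiff
open Set Filter Metric MeasureTheory

noncomputable section

namespace Pool.Agent.DMA

namespace D15

variable {ι : Type} [Fintype ι]

/-- The bump function with radii `ε/2 < ε`. -/
def bmp (ι : Type) [Fintype ι] {ε : ℝ} (hε : 0 < ε) : ContDiffBump (0 : ι → ℝ) :=
  ⟨ε / 2, ε, half_pos hε, half_lt_self hε⟩

/-- Integrating a pointwise comparison on the support of the bump. -/
theorem int_le {ε : ℝ} (hε : 0 < ε) {F G : (ι → ℝ) → ℝ} (hF : Continuous F) (hG : Continuous G)
    (h : ∀ x, (∀ i, |x i| ≤ ε) → F x ≤ G x) :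
    ∫ x, (bmp ι hε).normed volume x * F x ≤ ∫ x, (bmp ι hε).normed volume x * G x := by
  have hc : Continuous ((bmp ι hε).normed volume) := (bmp ι hε).continuous_normed
  have hs : HasCompactSupport ((bmp ι hε).normed volume) := (bmp ι hε).hasCompactSupport_normed
  refine integral_mono ((hc.mul hF).integrable_of_hasCompactSupport hs.mul_right)
    ((hc.mul hG).integrable_of_hasCompactSupport hs.mul_right) fun x => ?_
  by_cases hx : x ∈ ball (0 : ι → ℝ) ε
  · refine mul_le_mul_of_nonneg_left (h x fun i => ?_) ((bmp ι hε).nonneg_normed x)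
    rw [mem_ball_zero_iff] at hx
    exact (norm_le_pi_norm x i).trans hx.le
  · have h0 : (bmp ι hε).normed volume x = 0 := by
      have := (bmp ι hε).support_normed_eq (μ := (volume : Measure (ι → ℝ)))
      by_contra hne
      exact hx (this ▸ (Function.mem_support.2 hne))
    simp [h0]

theorem int_const {ε : ℝ} (hε : 0 < ε) (c : ℝ) :
    ∫ x, (bmp ι hε).normed volume x * c = c := by
  rw [integral_mul_const, (bmp ι hε).integral_normed, one_mul]

variable [Nonempty ι]

/-- The maximum of finitely many real numbers. -/
def mx (t : ι → ℝ) : ℝ := Finset.univ.sup' Finset.univ_nonempty t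

theorem le_mx (t : ι → ℝ) (i : ι) : t i ≤ mx t := Finset.le_sup' t (Finset.mem_univ i)

theorem mx_le {t : ι → ℝ} {c : ℝ} (h : ∀ i, t i ≤ c) : mx t ≤ c :=
  Finset.sup'_le _ _ fun i _ => h i

theorem mx_cont : Continuous (mx : (ι → ℝ) → ℝ) := by
  have : LipschitzWith 1 (mx : (ι → ℝ) → ℝ) := by
    refine LipschitzWith.of_le_add fun x y => mx_le fun i => ?_
    have h1 : x i - y i ≤ dist x y := by
      have := dist_le_pi_dist x y i
      rw [Real.dist_eq] at this
      exact (le_abs_self _).trans this
    have h2 := le_mx y i
    linarith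
  exact this.continuous

theorem cont_sub (t : ι → ℝ) : Continuous fun h : ι → ℝ => mx (t - h) :=
  mx_cont.comp (continuous_const.sub continuous_id)

end D15

open D15 in
theorem exists_regMax (ι : Type) [Fintype ι] [Nonempty ι] {ε : ℝ} (hε : 0 < ε) :
    ∃ M : (ι → ℝ) → ℝ, RegMax ε M := by
  have hcs : ∀ t : ι → ℝ, Continuous fun h : ι → ℝ => mx (t - h) := cont_sub
  have hI : ∀ F : (ι → ℝ) → ℝ, Continuous F →
      Integrable (fun x => (bmp ι hε).normed volume x * F x) volume := fun F hF =>
    (((bmp ι hε).continuous_normed).mul hF).integrable_of_hasCompactSupport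
      (bmp ι hε).hasCompactSupport_normed.mul_right
  refine ⟨fun t => ∫ h, (bmp ι hε).normed volume h * mx (t - h), ?_, ?_, ?_, ?_, ?_, ?_, ?_⟩
  · -- smooth
    have := ((bmp ι hε).hasCompactSupport_normed
      (μ := (volume : Measure (ι → ℝ)))).contDiff_convolution_left
      (ContinuousLinearMap.lsmul ℝ ℝ) (n := (⊤ : ℕ∞)) (μ := (volume : Measure (ι → ℝ)))
      ((bmp ι hε).contDiff_normed) (mx_cont (ι := ι)).locallyIntegrable
    exact this
  · -- convex
    refine ⟨convex_univ, fun s _ t _ a b ha hb hab => ?_⟩
    simp only [smul_eq_mul]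
    rw [← integral_const_mul, ← integral_const_mul, ← integral_add ((hI _ (hcs s)).const_mul a)
      ((hI _ (hcs t)).const_mul b)]
    have hle : ∫ h, (bmp ι hε).normed volume h * mx (a • s + b • t - h) ≤
        ∫ h, (bmp ι hε).normed volume h * (a * mx (s - h) + b * mx (t - h)) := by
      refine int_le hε (hcs _) (((hcs s).const_mul a).add ((hcs t).const_mul b)) fun h _ => ?_
      refine mx_le fun i => ?_
      have h1 := mul_le_mul_of_nonneg_left (le_mx (s - h) i) ha
      have h2 := mul_le_mul_of_nonneg_left (le_mx (t - h) i) hb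
      simp only [Pi.sub_apply, Pi.add_apply, Pi.smul_apply, smul_eq_mul] at h1 h2 ⊢
      have h3 : h i = a * h i + b * h i := by rw [← add_mul, hab, one_mul]
      nlinarith
    refine hle.trans (le_of_eq (integral_congr_ae (Eventually.of_forall fun h => ?_)))
    simp only
    ring
  · -- monotone
    intro s t hst
    refine int_le hε (hcs s) (hcs t) fun h _ => mx_le fun i => ?_
    have := le_mx (t - h) i
    have h2 := hst i
    simp only [Pi.sub_apply] at this ⊢
    linarith
  · -- shift
    intro t c
    have h1 : ∀ h : ι → ℝ, mx ((fun i => t i + c) - h) = mx (t - h) + c := by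
      intro h
      refine le_antisymm (mx_le fun i => ?_) ?_
      · have := le_mx (t - h) i
        simp only [Pi.sub_apply] at this ⊢
        linarith
      · have : mx (t - h) ≤ mx ((fun i => t i + c) - h) - c := mx_le fun i => by
          have := le_mx ((fun i => t i + c) - h) i
          simp only [Pi.sub_apply] at this ⊢
          linarith
        linarith
    simp only [h1, mul_add]
    rw [integral_add (hI _ (hcs t)) (hI _ continuous_const), int_const]
  · -- lower
    intro t i
    have := int_le hε (continuous_const (y := t i - ε)) (hcs t) fun h hh => by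
      have h1 := le_mx (t - h) i
      have h2 := (abs_le.1 (hh i)).2
      simp only [Pi.sub_apply] at h1
      linarith
    rwa [int_const] at this
  · -- upper
    intro t c hc
    have := int_le hε (hcs t) (continuous_const (y := c + ε)) fun h hh => by
      refine mx_le fun i => ?_
      have h2 := (abs_le.1 (hh i)).1
      have h3 := hc i
      simp only [Pi.sub_apply]
      linarith
    rwa [int_const] at this
  · -- independence
    intro s t m hm hst
    have key : ∀ s t : ι → ℝ, s m = t m →
        (∀ i, s i = t i ∨ (s i ≤ s m - 2 * ε ∧ t i ≤ t m - 2 * ε)) →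
        ∫ h, (bmp ι hε).normed volume h * mx (s - h) ≤
          ∫ h, (bmp ι hε).normed volume h * mx (t - h) := by
      intro s t hm hst
      refine int_le hε (hcs s) (hcs t) fun h hh => mx_le fun i => ?_
      rcases hst i with h1 | ⟨h1, -⟩
      · have := le_mx (t - h) i
        simp only [Pi.sub_apply] at this ⊢
        linarith
      · have := le_mx (t - h) m
        have h2 := (abs_le.1 (hh i)).1
        have h3 := (abs_le.1 (hh m)).2
        simp only [Pi.sub_apply] at this ⊢
        linarith
    exact le_antisymm (key s t hm hst)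
      (key t s hm.symm fun i => (hst i).imp Eq.symm And.symm)

end Pool.Agent.DMA
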