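import Pool.Agent.Lib.DMA.D14
import Pool.Agent.Lib.DMA.CRule

/-! # Row D16: smooth `c ω`-psh functions in charts

PROOF. `chart_open`: continuity of `ψ.symm` on the open set `ψ.target`.  `chart_smooth`: `smooth_chart`
(CRule; `CA X ⊆` real atlas).
`spshOn_psh`: in the chart the function `G z = c ρ(ψ⁻¹ z) + f (ψ⁻¹ z)` is smooth; `CH G z = inCh ψ
(c • K.g + hess f) z` (`CH_chart` for `c ρ + f`, `hess_add`, `hess_smul`, `IsPot.hess`), a congruence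
`Jᵀ H J̄` of a PSD matrix, so PSD: `psh_of_levi` with `CH_psd_levi`.
`spshOn_of_psh`: conversely `inCh ψ H z` PSD and `Jc ψ z` invertible (`Jc_det_ne`) give `H` PSD
(`Psh.levi_nonneg`). -/

set_option autoImplicit false

open scoped Manifold ContDiff Topology ComplexOrder
open Set Filter Metric

noncomputable section

namespace Pool.Agent.DMA

open Pool.Agent.K708 (E CMfd)

variable {n : ℕ} {X : CMfd n} {K : Kahler X}

namespace D16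

theorem star_conj (J : Matrix (Fin n) (Fin n) ℂ) :
    star (J.map (starRingEnd ℂ)) = J.transpose := by
  ext i j
  simp [Matrix.star_apply]

theorem isUnit_conj {φ : OpenPartialHomeomorph X (E n)} (hφ : φ ∈ CA X) {z : E n}
    (hz : z ∈ φ.target) : IsUnit ((Jc φ z).map (starRingEnd ℂ)) := by
  rw [Matrix.isUnit_iff_isUnit_det]
  have h := Jc_det_ne hφ hz
  have e : ((Jc φ z).map (starRingEnd ℂ)).det = starRingEnd ℂ (Jc φ z).det :=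
    (RingHom.map_det (starRingEnd ℂ) (Jc φ z)).symm
  rw [e]
  exact (IsUnit.mk0 _ h).map (starRingEnd ℂ)

theorem psd_iff {φ : OpenPartialHomeomorph X (E n)} (hφ : φ ∈ CA X) {z : E n}
    (hz : z ∈ φ.target) (H : Matrix (Fin n) (Fin n) ℂ) :
    ((Jc φ z).transpose * H * (Jc φ z).map (starRingEnd ℂ)).PosSemidef ↔ H.PosSemidef := by
  rw [← star_conj, Matrix.IsUnit.posSemidef_star_left_conjugate_iff (isUnit_conj hφ hz)]

theorem contAt {W : Set X} {f : X → ℝ} (hW : IsOpen W)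
    (hf : ContMDiffOn 𝓘(ℝ, E n) 𝓘(ℝ, ℝ) ∞ f W) {x : X} (hx : x ∈ W) :
    ContMDiffAt 𝓘(ℝ, E n) 𝓘(ℝ, ℝ) ∞ f x := hf.contMDiffAt (hW.mem_nhds hx)

/-- The complex Hessian of `c ρ + f` in a chart. -/
theorem CH_form {c : ℝ} {W U : Set X} {f ρ : X → ℝ} (hW : IsOpen W)
    (hf : ContMDiffOn 𝓘(ℝ, E n) 𝓘(ℝ, ℝ) ∞ f W) (hρ : IsPot K.g U ρ)
    {ψ : OpenPartialHomeomorph X (E n)} (hψ : ψ ∈ CA X) (hWU : W ⊆ U) {z : E n}
    (hz : z ∈ ψ.target) (hzW : ψ.symm z ∈ W) :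
    CH (fun w => c * ρ (ψ.symm w) + f (ψ.symm w)) z =
      (Jc ψ z).transpose * ((c : ℂ) • K.g (ψ.symm z) + hess f (ψ.symm z)) *
        (Jc ψ z).map (starRingEnd ℂ) := by
  have h1 : ContMDiffAt 𝓘(ℝ, E n) 𝓘(ℝ, ℝ) ∞ ρ (ψ.symm z) :=
    contAt hρ.opn hρ.smooth (hWU hzW)
  have h2 : ContMDiffAt 𝓘(ℝ, E n) 𝓘(ℝ, ℝ) ∞ f (ψ.symm z) := contAt hW hf hzW
  have h3 : ContMDiffAt 𝓘(ℝ, E n) 𝓘(ℝ, ℝ) ∞ (fun x => c * ρ x) (ψ.symm z) :=
    contMDiffAt_const.mul h1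
  have h4 := CH_chart hψ hz (f := fun x => c * ρ x + f x) (h3.add h2)
  rw [h4]
  unfold inCh
  rw [hess_add h3 h2, hess_smul c h1, hρ.hess _ (hWU hzW)]

theorem smooth_form {c : ℝ} {W U : Set X} {f ρ : X → ℝ} (hW : IsOpen W)
    (hf : ContMDiffOn 𝓘(ℝ, E n) 𝓘(ℝ, ℝ) ∞ f W) (hρ : IsPot K.g U ρ)
    {ψ : OpenPartialHomeomorph X (E n)} (hψ : ψ ∈ CA X) (hWU : W ⊆ U) :
    ContDiffOn ℝ 2 (fun z => c * ρ (ψ.symm z) + f (ψ.symm z)) (ψ.target ∩ ψ.symm ⁻¹' W) := by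
  have h1 := smooth_chart hW hf hψ
  have h2 := smooth_chart hW (hρ.smooth.mono hWU) hψ
  exact ((contDiffOn_const.mul h2).add h1).of_le (WithTop.coe_le_coe.2 le_top)

end D16

open D16

theorem chart_open (ψ : OpenPartialHomeomorph X (E n)) {W : Set X} (hW : IsOpen W) :
    IsOpen (ψ.target ∩ ψ.symm ⁻¹' W) := ψ.isOpen_inter_preimage_symm hW

theorem spshOn_psh {c : ℝ} {W U : Set X} {f ρ : X → ℝ} (hW : IsOpen W) (hf : SPshOn K c W f)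
    (hρ : IsPot K.g U ρ) {ψ : OpenPartialHomeomorph X (E n)} (hψ : ψ ∈ CA X) (hWU : W ⊆ U) :
    Psh (ψ.target ∩ ψ.symm ⁻¹' W) (fun z => c * ρ (ψ.symm z) + f (ψ.symm z)) := by
  have hs := smooth_form (c := c) hW hf.1 hρ hψ hWU
  refine psh_of_levi (chart_open ψ hW) hs fun z hz => ?_
  rw [← CH_psd_levi (hs.contDiffAt ((chart_open ψ hW).mem_nhds hz)),
    CH_form hW hf.1 hρ hψ hWU hz.1 hz.2, psd_iff hψ hz.1]
  exact hf.2 _ hz.2

theorem spshOn_of_psh {c : ℝ} {W U : Set X} {f ρ : X → ℝ} (hW : IsOpen W)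
    (hf : ContMDiffOn 𝓘(ℝ, E n) 𝓘(ℝ, ℝ) ∞ f W) (hρ : IsPot K.g U ρ)
    {ψ : OpenPartialHomeomorph X (E n)} (hψ : ψ ∈ CA X) (hWU : W ⊆ ψ.source ∩ U)
    (hp : Psh (ψ.target ∩ ψ.symm ⁻¹' W) (fun z => c * ρ (ψ.symm z) + f (ψ.symm z))) :
    SPshOn K c W f := by
  refine ⟨hf, fun x hx => ?_⟩
  have hWU' : W ⊆ U := fun y hy => (hWU hy).2
  have hxs : x ∈ ψ.source := (hWU hx).1
  have hz : ψ x ∈ ψ.target := ψ.map_source hxs
  have hinv : ψ.symm (ψ x) = x := ψ.left_inv hxs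
  have hzW : ψ.symm (ψ x) ∈ W := by rw [hinv]; exact hx
  have hn : ψ.target ∩ ψ.symm ⁻¹' W ∈ 𝓝 (ψ x) := (chart_open ψ hW).mem_nhds ⟨hz, hzW⟩
  have hs := (smooth_form (c := c) hW hf hρ hψ hWU').contDiffAt hn
  have h1 := (CH_psd_levi hs).2 fun b => hp.levi_nonneg hn hs b
  rw [CH_form hW hf hρ hψ hWU' hz hzW, psd_iff hψ hz, hinv] at h1
  exact h1

theorem spshOn_local {c : ℝ} {W : Set X} {f : X → ℝ}
    (h : ∀ x ∈ W, ∃ W' : Set X, IsOpen W' ∧ x ∈ W' ∧ SPshOn K c W' f) : SPshOn K c W f := by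
  refine ⟨fun x hx => ?_, fun x hx => ?_⟩
  · obtain ⟨W', hW', hx', hs⟩ := h x hx
    exact (contAt hW' hs.1 hx').contMDiffWithinAt
  · obtain ⟨W', hW', hx', hs⟩ := h x hx
    exact hs.2 x hx'

theorem SPsh.on {f : X → ℝ} (h : SPsh K f) : SPshOn K 1 univ f := by
  refine ⟨h.1.contMDiffOn, fun x _ => ?_⟩
  rw [Complex.ofReal_one, one_smul]
  exact h.2 x

theorem SPshOn.spsh {f : X → ℝ} (h : SPshOn K 1 univ f) : SPsh K f := by
  refine ⟨contMDiffOn_univ.1 h.1, fun x => ?_⟩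
  have := h.2 x (mem_univ x)
  rwa [Complex.ofReal_one, one_smul] at this

/-- Difference of potentials: pluriharmonic. -/
theorem pot_diff_psh {U U' : Set X} {ρ ρ' : X → ℝ} (hρ : IsPot K.g U ρ) (hρ' : IsPot K.g U' ρ')
    {ψ : OpenPartialHomeomorph X (E n)} (hψ : ψ ∈ CA X) :
    Psh (ψ.target ∩ ψ.symm ⁻¹' (U ∩ U')) (fun z => ρ' (ψ.symm z) - ρ (ψ.symm z)) := by
  have hW : IsOpen (U ∩ U') := hρ.opn.inter hρ'.opn
  have hs1 : ContMDiffOn 𝓘(ℝ, E n) 𝓘(ℝ, ℝ) ∞ (fun x => (-1 : ℝ) * ρ x) (U ∩ U') :=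
    contMDiffOn_const.mul (hρ.smooth.mono inter_subset_left)
  have hs2 : ContMDiffOn 𝓘(ℝ, E n) 𝓘(ℝ, ℝ) ∞ ρ' (U ∩ U') := hρ'.smooth.mono inter_subset_right
  have hS : SPshOn K 0 (U ∩ U') (fun x => ρ' x + (-1 : ℝ) * ρ x) := by
    refine ⟨hs2.add hs1, fun x hx => ?_⟩
    rw [hess_add (contAt hW hs2 hx) (contAt hW hs1 hx),
      hess_smul (-1) (contAt hρ.opn hρ.smooth hx.1), hρ.hess x hx.1, hρ'.hess x hx.2]
    have e : ((0 : ℝ) : ℂ) • K.g x + (K.g x + ((-1 : ℝ) : ℂ) • K.g x) = 0 := by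
      rw [Complex.ofReal_zero, zero_smul, zero_add, Complex.ofReal_neg, Complex.ofReal_one,
        neg_smul, one_smul, add_neg_cancel]
    rw [e]
    exact Matrix.PosSemidef.zero
  have h := spshOn_psh hW hS hρ hψ inter_subset_left
  refine h.congr fun z _ => ?_
  ring

end Pool.Agent.DMA
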