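import Pool.Agent.Lib.DMA.D16

/-! # Row D17: bounded `ω`-psh functions: local criterion and rules

PROOF. `bpsh_of_local`: let `ψ', U', ρ'` be arbitrary, `z` in the domain, `x = ψ'.symm z`, `(U, ρ, ψ, W)` as in
`h x`.  `F = ψ ∘ ψ'.symm` is holomorphic on the open set `O = ψ'.target ∩ ψ'.symm ⁻¹' (W ∩ U')`
(`trans_holo`), maps it into `ψ.target ∩ ψ.symm ⁻¹' W`; by `Psh.comp` `ρ (ψ'.symm y) + u (ψ'.symm y)` is psh
on `O`; add `pot_diff_psh`; `psh_local`.
`SPsh.bpsh'`: `spshOn_psh` with `c = 1`; bounded because `X` is compact.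
`bpsh_of_dec'`: `psh_of_antitone`; an infimum of upper semicontinuous functions.
`BPsh.addc'`, `.max'`, `.convex'`: `Psh.add_const`, `Psh.max`, `Psh.const_mul`, `Psh.add`.
`BPsh.glue_local`: a function which near every point coincides with a bounded `ω`-psh function defined
near that point. -/

set_option autoImplicit false

open scoped Manifold ContDiff Topology ComplexOrder
open Set Filter Metric

noncomputable section

namespace Pool.Agent.DMA

open Pool.Agent.K708 (E CMfd)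

variable {n : ℕ} {X : CMfd n} {K : Kahler X}

theorem bpsh_of_local {u : X → ℝ} (husc : UpperSemicontinuous u) (hb : ∃ C, ∀ x, |u x| ≤ C)
    (h : ∀ x, ∃ (U W : Set X) (ρ : X → ℝ) (ψ : OpenPartialHomeomorph X (E n)), IsPot K.g U ρ ∧
      ψ ∈ CA X ∧ IsOpen W ∧ x ∈ W ∧ W ⊆ ψ.source ∩ U ∧
      Psh (ψ.target ∩ ψ.symm ⁻¹' W) (fun z => ρ (ψ.symm z) + u (ψ.symm z))) : BPsh K u := by
  refine ⟨husc, hb, fun U' ρ' hρ' ψ' hψ' => psh_local fun a ha => ?_⟩
  obtain ⟨U, W, ρ, ψ, hρ, hψ, hW, hxW, hWs, hp⟩ := h (ψ'.symm a)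
  refine ⟨ψ'.target ∩ ψ'.symm ⁻¹' (W ∩ U'), chart_open ψ' (hW.inter hρ'.opn), ⟨ha.1, hxW, ha.2⟩,
    ?_⟩
  have hO := chart_open ψ' (hW.inter hρ'.opn)
  have hd : DifferentiableOn ℂ (fun z => ψ (ψ'.symm z)) (ψ'.target ∩ ψ'.symm ⁻¹' (W ∩ U')) := by
    intro z hz
    have := trans_holo hψ' hψ (z := z) hz.1 (hWs hz.2.1).1
    exact (this.differentiableAt (by simp)).differentiableWithinAt
  have h1 := Psh.comp (chart_open ψ hW) hp hO hd (fun z hz =>
    ⟨ψ.map_source (hWs hz.2.1).1, by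
      rw [mem_preimage, ψ.left_inv (hWs hz.2.1).1]
      exact hz.2.1⟩)
  have h2 := (pot_diff_psh hρ hρ' hψ').mono (Ω' := ψ'.target ∩ ψ'.symm ⁻¹' (W ∩ U'))
    (fun z hz => ⟨hz.1, (hWs hz.2.1).2, hz.2.2⟩)
  refine (h1.add h2).congr fun z hz => ?_
  rw [ψ.left_inv (hWs hz.2.1).1]
  ring

theorem SPsh.bpsh' (hX : CompactSpace X) {u : X → ℝ} (hu : SPsh K u) : BPsh K u := by
  have hc : Continuous u := hu.1.continuous
  refine ⟨hc.upperSemicontinuous, ?_, fun U ρ hρ ψ hψ => ?_⟩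
  · obtain ⟨C, hC⟩ := isCompact_univ.exists_bound_of_continuousOn hc.continuousOn
    exact ⟨C, fun x => by simpa using hC x (mem_univ x)⟩
  · have hf : SPshOn K 1 U u := ⟨hu.on.1.mono (subset_univ _), fun x _ => hu.on.2 x (mem_univ x)⟩
    refine (spshOn_psh hρ.opn hf hρ hψ subset_rfl).congr fun z _ => ?_
    rw [one_mul]

theorem bpsh_of_dec' {u : X → ℝ} {f : ℕ → X → ℝ} (hf : ∀ j, BPsh K (f j))
    (ha : ∀ x, Antitone fun j => f j x) (hl : ∀ x, Tendsto (fun j => f j x) atTop (𝓝 (u x)))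
    (hb : ∃ c, ∀ x, c ≤ u x) : BPsh K u := by
  obtain ⟨c, hc⟩ := hb
  obtain ⟨D, hD⟩ := (hf 0).bdd
  have hle : ∀ j x, u x ≤ f j x := fun j x => (ha x).le_of_tendsto (hl x) j
  refine ⟨fun x y hy => ?_, ⟨max |c| D, fun x => ?_⟩, fun U ρ hρ ψ hψ => ?_⟩
  · obtain ⟨j, hj⟩ := ((hl x).eventually (gt_mem_nhds hy)).exists
    exact ((hf j).usc x y hj).mono fun x' hx' => lt_of_le_of_lt (hle j x') hx'
  · rw [abs_le]
    constructor
    · have h1 := hc x
      have h2 := neg_abs_le c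
      have h3 := le_max_left |c| D
      linarith
    · exact ((hle 0 x).trans ((le_abs_self _).trans (hD x))).trans (le_max_right _ _)
  · refine psh_of_antitone (f := fun k z => ρ (ψ.symm z) + f k (ψ.symm z))
      (fun k => (hf k).psh U ρ hρ ψ hψ) (fun z _ i j hij => ?_) (fun z _ => ?_) (fun S hS hSc => ?_)
    · have := ha (ψ.symm z) hij
      simp only at this ⊢
      linarith
    · exact (hl (ψ.symm z)).const_add _
    · obtain ⟨C1, hC1⟩ := ((hf 0).psh U ρ hρ ψ hψ).bdd S hS hSc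
      refine ⟨C1 + D - c, fun z hz => ?_⟩
      have h1 := (abs_le.mp (hC1 z hz)).1
      have h2 := (abs_le.mp (hD (ψ.symm z))).2
      have h3 := hc (ψ.symm z)
      linarith

theorem BPsh.addc' {u : X → ℝ} (hu : BPsh K u) (c : ℝ) : BPsh K (fun x => u x + c) := by
  refine ⟨?_, ?_, fun U ρ hρ ψ hψ => ?_⟩
  · exact Continuous.comp_upperSemicontinuous (g := fun y : ℝ => y + c) (by fun_prop) hu.usc
      (fun a b hab => by simpa using hab)
  · obtain ⟨C, hC⟩ := hu.bdd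
    exact ⟨C + |c|, fun x => (abs_add_le _ _).trans (by linarith [hC x])⟩
  · refine ((hu.psh U ρ hρ ψ hψ).add_const c).congr fun z _ => ?_
    ring

theorem BPsh.convex' {u v : X → ℝ} (hu : BPsh K u) (hv : BPsh K v) {t : ℝ}
    (ht : t ∈ Icc (0 : ℝ) 1) : BPsh K (fun x => t * u x + (1 - t) * v x) := by
  have h1 : 0 ≤ 1 - t := by linarith [ht.2]
  refine ⟨?_, ?_, fun U ρ hρ ψ hψ => ?_⟩
  · have a1 : UpperSemicontinuous fun x => t * u x :=
      Continuous.comp_upperSemicontinuous (g := fun y : ℝ => t * y) (by fun_prop) hu.usc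
        (fun a b hab => mul_le_mul_of_nonneg_left hab ht.1)
    have a2 : UpperSemicontinuous fun x => (1 - t) * v x :=
      Continuous.comp_upperSemicontinuous (g := fun y : ℝ => (1 - t) * y) (by fun_prop) hv.usc
        (fun a b hab => mul_le_mul_of_nonneg_left hab h1)
    exact a1.add a2
  · obtain ⟨C, hC⟩ := hu.bdd
    obtain ⟨D, hD⟩ := hv.bdd
    refine ⟨t * C + (1 - t) * D, fun x => (abs_add_le _ _).trans ?_⟩
    rw [abs_mul, abs_mul, abs_of_nonneg ht.1, abs_of_nonneg h1]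
    exact add_le_add (mul_le_mul_of_nonneg_left (hC x) ht.1)
      (mul_le_mul_of_nonneg_left (hD x) h1)
  · refine (((hu.psh U ρ hρ ψ hψ).const_mul ht.1).add
      ((hv.psh U ρ hρ ψ hψ).const_mul h1)).congr fun z _ => ?_
    ring

theorem BPsh.max' {u v : X → ℝ} (hu : BPsh K u) (hv : BPsh K v) :
    BPsh K (fun x => Max.max (u x) (v x)) := by
  refine ⟨hu.usc.sup hv.usc, ?_, fun U ρ hρ ψ hψ => ?_⟩
  · obtain ⟨C, hC⟩ := hu.bdd
    obtain ⟨D, hD⟩ := hv.bdd
    refine ⟨max C D, fun x => ?_⟩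
    have h1 := abs_le.mp (hC x)
    have h2 := abs_le.mp (hD x)
    rw [abs_le]
    constructor
    · have := le_max_left (u x) (v x)
      have := le_max_left C D
      linarith
    · exact max_le_max h1.2 h2.2
  · refine ((hu.psh U ρ hρ ψ hψ).max (hv.psh U ρ hρ ψ hψ)).congr fun z _ => ?_
    rw [max_add_add_left]

end Pool.Agent.DMA
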