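import Pool.Agent.Lib.DMA.D16

/-! # Row D18: rules for smooth `c ω`-psh functions; regularised maximum

PROOF. `SPshOn.mono_c`: `(c' - c) • K.g` is PSD.  `SPshOn.add`: `hess_add`.  `SPshOn.const_mul`:
`hess_smul`.  `spshOn_const`: `hess_const`.
`spshOn_regMax`: local (`spshOn_local`): near `x` take a chart `ψ = chartAt x` and a potential `ρ`
(`K.pot x`); `c ρ + G i` is psh and continuous in the chart (`spshOn_psh`), so
`M (c ρ + G) = c ρ + M (G)` (`RegMax.shift`) is psh (`Psh.comp_convex`) and smooth: `spshOn_of_psh`.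
Smoothness: `M` is smooth. -/

set_option autoImplicit false

open scoped Manifold ContDiff Topology ComplexOrder
open Set Filter Metric

noncomputable section

namespace Pool.Agent.DMA

open Pool.Agent.K708 (E CMfd)

variable {n : ℕ} {X : CMfd n} {K : Kahler X} {W : Set X} {c c' : ℝ} {f g : X → ℝ}

private theorem D18_smul_psd (K : Kahler X) {t : ℝ} (ht : 0 ≤ t) (x : X) :
    ((t : ℂ) • K.g x).PosSemidef :=
  (K.pos x).posSemidef.smul (Complex.zero_le_real.mpr ht)

theorem SPshOn.mono_c (hf : SPshOn K c W f) (h : c ≤ c') : SPshOn K c' W f := by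
  refine ⟨hf.1, fun x hx => ?_⟩
  have h1 : (c' : ℂ) • K.g x + hess f x =
      ((c' - c : ℝ) : ℂ) • K.g x + ((c : ℂ) • K.g x + hess f x) := by
    push_cast
    rw [sub_smul]
    abel
  rw [h1]
  exact (D18_smul_psd K (sub_nonneg.mpr h) x).add (hf.2 x hx)

theorem SPshOn.mono_set (hf : SPshOn K c W f) {W' : Set X} (h : W' ⊆ W) : SPshOn K c W' f :=
  ⟨hf.1.mono h, fun x hx => hf.2 x (h hx)⟩

theorem SPshOn.congr (hW : IsOpen W) (hf : SPshOn K c W f) (h : ∀ x ∈ W, g x = f x) :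
    SPshOn K c W g := by
  refine ⟨hf.1.congr h, fun x hx => ?_⟩
  have h1 : g =ᶠ[𝓝 x] f := by
    filter_upwards [hW.mem_nhds hx] with y hy using h y hy
  rw [hess_congr h1]
  exact hf.2 x hx

theorem SPshOn.add (hW : IsOpen W) (hf : SPshOn K c W f) (hg : SPshOn K c' W g) :
    SPshOn K (c + c') W (fun x => f x + g x) := by
  refine ⟨hf.1.add hg.1, fun x hx => ?_⟩
  rw [hess_add (hf.1.contMDiffAt (hW.mem_nhds hx)) (hg.1.contMDiffAt (hW.mem_nhds hx))]
  have h1 : ((c + c' : ℝ) : ℂ) • K.g x + (hess f x + hess g x) =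
      ((c : ℂ) • K.g x + hess f x) + ((c' : ℂ) • K.g x + hess g x) := by
    push_cast
    rw [add_smul]
    abel
  rw [h1]
  exact (hf.2 x hx).add (hg.2 x hx)

theorem SPshOn.const_mul (hW : IsOpen W) (hf : SPshOn K c W f) {t : ℝ} (ht : 0 ≤ t) :
    SPshOn K (t * c) W (fun x => t * f x) := by
  refine ⟨contMDiffOn_const.mul hf.1, fun x hx => ?_⟩
  rw [hess_smul t (hf.1.contMDiffAt (hW.mem_nhds hx))]
  have h1 : ((t * c : ℝ) : ℂ) • K.g x + (t : ℂ) • hess f x =
      (t : ℂ) • ((c : ℂ) • K.g x + hess f x) := by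
    push_cast
    rw [smul_add, smul_smul]
  rw [h1]
  exact (hf.2 x hx).smul (Complex.zero_le_real.mpr ht)

theorem spshOn_const (hc : 0 ≤ c) (a : ℝ) : SPshOn K c W (fun _ => a) := by
  refine ⟨contMDiffOn_const, fun x _ => ?_⟩
  rw [hess_const, add_zero]
  exact D18_smul_psd K hc x

theorem spshOn_regMax {ι : Type} [Fintype ι] {ε : ℝ} {M : (ι → ℝ) → ℝ} (hM : RegMax ε M)
    (hW : IsOpen W) {G : ι → X → ℝ} (hG : ∀ i, SPshOn K c W (G i)) :
    SPshOn K c W (fun x => M (fun i => G i x)) := by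
  refine spshOn_local fun x hx => ?_
  set ψ := chartAt (E n) x with hψd
  have hψ : ψ ∈ CA X := IsManifold.chart_mem_maximalAtlas x
  obtain ⟨U, ρ, hxU, hρ⟩ := K.pot x
  have hU := hρ.opn
  have hW' : IsOpen (W ∩ (ψ.source ∩ U)) := hW.inter (ψ.open_source.inter hU)
  refine ⟨W ∩ (ψ.source ∩ U), hW', ⟨hx, mem_chart_source (E n) x, hxU⟩, ?_⟩
  have hG' : ∀ i, SPshOn K c (W ∩ (ψ.source ∩ U)) (G i) := fun i =>
    (hG i).mono_set inter_subset_left
  refine spshOn_of_psh hW' ?_ hρ hψ inter_subset_right ?_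
  · have h1 : ContMDiffOn 𝓘(ℝ, E n) 𝓘(ℝ, ι → ℝ) ∞ (fun y => fun i => G i y)
        (W ∩ (ψ.source ∩ U)) := by
      rw [contMDiffOn_pi_space]
      exact fun i => (hG' i).1
    exact hM.smooth.contMDiff.comp_contMDiffOn h1
  · have h2 : (fun z => c * ρ (ψ.symm z) + M (fun i => G i (ψ.symm z))) =
        fun z => M (fun i => c * ρ (ψ.symm z) + G i (ψ.symm z)) := by
      funext z
      rw [add_comm, ← hM.shift]
      congr 1
      funext i
      rw [add_comm]
    rw [h2]
    refine Psh.comp_convex hM.convex hM.smooth.continuous hM.mono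
      (g := fun i z => c * ρ (ψ.symm z) + G i (ψ.symm z)) ?_ ?_
    · intro i
      exact spshOn_psh hW' (hG' i) hρ hψ (fun y hy => hy.2.2)
    · intro i
      have h3 : ContinuousOn (fun z => ρ (ψ.symm z)) (ψ.target ∩ ψ.symm ⁻¹' U) :=
        (smooth_chart hU hρ.smooth hψ).continuousOn
      have h4 : ContinuousOn (fun z => G i (ψ.symm z)) (ψ.target ∩ ψ.symm ⁻¹' W) :=
        (smooth_chart hW (hG i).1 hψ).continuousOn
      refine (continuousOn_const.mul (h3.mono ?_)).add (h4.mono ?_)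
      · exact fun z hz => ⟨hz.1, hz.2.2.2⟩
      · exact fun z hz => ⟨hz.1, hz.2.1⟩

end Pool.Agent.DMA
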