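import Pool.Agent.Lib.DMA.D17
import Pool.Agent.Lib.DMA.D11

/-! # Row D19: sup-convolutions in two charts

PROOF. `lip_near`: a compact thickening of `L` in `D`; `F` is `C¹`, so its derivative is bounded there;
mean value inequality on the (convex) closed balls (`Convex.norm_image_sub_le_of_norm_fderiv_le`).
`gsup_compare`: `L = ψ '' A`, `D = ψ.target ∩ ψ.symm ⁻¹' (U ∩ (ψ'.source ∩ U'))`, `F = ψ' ∘ ψ.symm` (`C¹` on `D`:
`trans_holo`), constants `C ≥ 1, r` of `lip_near`.  `R > 0` with `cthickening R (ψ' '' A) ⊆ ψ'.target ∩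
ψ'.symm ⁻¹' U'`, `v' = ρ' ∘ ψ'.symm + u ∘ ψ'.symm` is psh there and bounded by `A₀` on that compact set.
`ρ ∘ ψ.symm - ρ' ∘ ψ.symm` is uniformly continuous on the compact thickening of `L`.  For small `δ`, `x ∈ A`,
`z = ψ x`, `z' = ψ' x = F z`, `w ∈ closedBall z δ`: `F w ∈ closedBall z' (C δ)`, so
`ρ (ψ.symm w) + u (ψ.symm w) = (ρ - ρ') (ψ.symm w) + v' (F w) ≤ (ρ - ρ') x + τ/2 + supc v' (C δ) z'`
`≤ (ρ - ρ') x + τ/2 + supc v' δ z' + 2 A₀ log C / log (R/δ)` (`three_circles`, for `v'` on the open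
thickening or with `Ω =` the chart domain), and the last term is `≤ τ/2` for small `δ`. -/

set_option autoImplicit false

open scoped Manifold ContDiff Topology ComplexOrder
open Set Filter Metric

noncomputable section

namespace Pool.Agent.DMA

open Pool.Agent.K708 (E CMfd)

variable {n : ℕ} {X : CMfd n} {K : Kahler X}

theorem lip_near {D L : Set (E n)} (hD : IsOpen D) (hL : IsCompact L) (hLD : L ⊆ D)
    {F : E n → E n} (hF : ContDiffOn ℝ 1 F D) :
    ∃ r > 0, ∃ C ≥ 1, ∀ z ∈ L, ∀ w ∈ closedBall z r, w ∈ D ∧ ‖F w - F z‖ ≤ C * ‖w - z‖ := by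
  obtain ⟨r, hr, hrD⟩ := hL.exists_cthickening_subset_open hD hLD
  have hcomp : IsCompact (cthickening r L) := hL.cthickening
  have hcont : ContinuousOn (fun z => ‖fderiv ℝ F z‖) (cthickening r L) :=
    ((hF.continuousOn_fderiv_of_isOpen hD le_rfl).mono hrD).norm
  obtain ⟨C0, hC0⟩ := hcomp.bddAbove_image hcont
  refine ⟨r, hr, Max.max 1 C0, le_max_left _ _, ?_⟩
  intro z hz w hw
  have hball : closedBall z r ⊆ cthickening r L := closedBall_subset_cthickening hz r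
  refine ⟨hrD (hball hw), ?_⟩
  refine (convex_closedBall z r).norm_image_sub_le_of_norm_fderiv_le (𝕜 := ℝ) (f := F)
    (fun x hx => ?_) (fun x hx => ?_) (mem_closedBall_self hr.le) hw
  · exact (hF.contDiffAt (hD.mem_nhds (hrD (hball hx)))).differentiableAt one_ne_zero
  · exact (hC0 (mem_image_of_mem _ (hball hx))).trans (le_max_right _ _)

theorem gsup_compare {u : X → ℝ} (hu : BPsh K u) {U U' : Set X} {ρ ρ' : X → ℝ}
    (hρ : IsPot K.g U ρ) (hρ' : IsPot K.g U' ρ') {ψ ψ' : OpenPartialHomeomorph X (E n)}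
    (hψ : ψ ∈ CA X) (hψ' : ψ' ∈ CA X) {A : Set X} (hA : IsCompact A) (h1 : A ⊆ ψ.source ∩ U)
    (h2 : A ⊆ ψ'.source ∩ U') {τ : ℝ} (hτ : 0 < τ) :
    ∃ δ₀ > 0, ∀ δ ∈ Ioo (0 : ℝ) δ₀, ∀ x ∈ A, gsup ψ ρ u δ x ≤ gsup ψ' ρ' u δ x + τ := by
  set Ω' : Set (E n) := ψ'.target ∩ ψ'.symm ⁻¹' U' with hΩ'
  have hv' : Psh Ω' (fun z => ρ' (ψ'.symm z) + u (ψ'.symm z)) := hu.psh U' ρ' hρ' ψ' hψ'
  set v' : E n → ℝ := fun z => ρ' (ψ'.symm z) + u (ψ'.symm z) with hv'def
  set D : Set (E n) := ψ.target ∩ ψ.symm ⁻¹' (U ∩ (ψ'.source ∩ U')) with hD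
  have hDo : IsOpen D :=
    ψ.isOpen_inter_preimage_symm (hρ.opn.inter (ψ'.open_source.inter hρ'.opn))
  have hΩo : IsOpen Ω' := ψ'.isOpen_inter_preimage_symm hρ'.opn
  have hA1 : A ⊆ ψ.source := fun x hx => (h1 hx).1
  have hA2 : A ⊆ ψ'.source := fun x hx => (h2 hx).1
  have hLc : IsCompact (ψ '' A) := hA.image_of_continuousOn (ψ.continuousOn.mono hA1)
  have hL'c : IsCompact (ψ' '' A) := hA.image_of_continuousOn (ψ'.continuousOn.mono hA2)
  have hLD : ψ '' A ⊆ D := by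
    rintro _ ⟨x, hx, rfl⟩
    refine ⟨ψ.map_source (hA1 hx), ?_⟩
    rw [mem_preimage, ψ.left_inv (hA1 hx)]
    exact ⟨(h1 hx).2, (h2 hx)⟩
  have hL'Ω : ψ' '' A ⊆ Ω' := by
    rintro _ ⟨x, hx, rfl⟩
    refine ⟨ψ'.map_source (hA2 hx), ?_⟩
    rw [mem_preimage, ψ'.left_inv (hA2 hx)]
    exact (h2 hx).2
  have hF : ContDiffOn ℝ 1 (ψ' ∘ ψ.symm) D := by
    intro z hz
    exact (((trans_holo hψ hψ' hz.1 hz.2.2.1).restrict_scalars ℝ).of_le le_top).contDiffWithinAt
  obtain ⟨r, hr, C, hC, hlip⟩ := lip_near hDo hLc hLD hF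
  obtain ⟨R, hR, hRΩ⟩ := hL'c.exists_cthickening_subset_open hΩo hL'Ω
  obtain ⟨A1, hA1'⟩ := hv'.bdd (cthickening R (ψ' '' A)) hRΩ hL'c.cthickening
  set A0 : ℝ := |A1| with hA0
  have hA0' : 0 ≤ A0 := abs_nonneg _
  have hbd : ∀ z ∈ cthickening R (ψ' '' A), |v' z| ≤ A0 := fun z hz =>
    (hA1' z hz).trans (le_abs_self _)
  -- uniform continuity of the difference of the potentials
  obtain ⟨r1, hr1, hr1D⟩ := hLc.exists_cthickening_subset_open hDo hLD
  have hqc : ContinuousOn (fun z => ρ (ψ.symm z) - ρ' (ψ.symm z)) (cthickening r1 (ψ '' A)) := by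
    have hs : ContinuousOn ψ.symm (cthickening r1 (ψ '' A)) :=
      ψ.symm.continuousOn.mono (fun z hz => (hr1D hz).1)
    exact (hρ.smooth.continuousOn.comp hs (fun z hz => (hr1D hz).2.1)).sub
      (hρ'.smooth.continuousOn.comp hs (fun z hz => (hr1D hz).2.2.2))
  have huc := hLc.cthickening.uniformContinuousOn_of_continuous hqc
  rw [Metric.uniformContinuousOn_iff] at huc
  obtain ⟨δ1, hδ1, hq⟩ := huc (τ / 2) (half_pos hτ)
  have hCpos : 0 < C := lt_of_lt_of_le one_pos hC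
  set M : ℝ := 4 * A0 * Real.log C / τ with hM
  have hlogC : 0 ≤ Real.log C := Real.log_nonneg hC
  refine ⟨min (min r r1) (min δ1 (min (R / C) (R * Real.exp (-M)))), ?_, ?_⟩
  · have := Real.exp_pos (-M)
    positivity
  intro δ hδ x hx
  obtain ⟨hδ0, hδlt⟩ := hδ
  have hb1 : δ < r := hδlt.trans_le ((min_le_left _ _).trans (min_le_left _ _))
  have hb2 : δ < r1 := hδlt.trans_le ((min_le_left _ _).trans (min_le_right _ _))
  have hb3 : δ < δ1 := hδlt.trans_le ((min_le_right _ _).trans (min_le_left _ _))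
  have hb4 : δ < R / C := hδlt.trans_le ((min_le_right _ _).trans ((min_le_right _ _).trans
    (min_le_left _ _)))
  have hb5 : δ < R * Real.exp (-M) := hδlt.trans_le ((min_le_right _ _).trans
    ((min_le_right _ _).trans (min_le_right _ _)))
  have hCδ : C * δ < R := by
    rw [lt_div_iff₀ hCpos] at hb4
    linarith
  have hδR : δ < R := by nlinarith
  have hball' : closedBall (ψ' x) R ⊆ cthickening R (ψ' '' A) :=
    closedBall_subset_cthickening (mem_image_of_mem ψ' hx) R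
  have hbd' : ∀ w ∈ closedBall (ψ' x) R, |v' w| ≤ A0 := fun w hw => hbd w (hball' hw)
  have h3c := three_circles hv' (z := ψ' x) (R := R) (A := A0) (δ := δ) (δ' := C * δ)
    (hball'.trans hRΩ) hbd' hδ0 (by nlinarith) hCδ.le hδR
  -- the error term
  have herr : 2 * A0 * Real.log (C * δ / δ) / Real.log (R / δ) ≤ τ / 2 := by
    rw [show C * δ / δ = C from mul_div_cancel_right₀ C hδ0.ne']
    have hlR : 0 < Real.log (R / δ) := Real.log_pos ((one_lt_div hδ0).mpr hδR)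
    rw [div_le_iff₀ hlR]
    have hMle : M ≤ Real.log (R / δ) := by
      rw [Real.le_log_iff_exp_le (div_pos hR hδ0), le_div_iff₀ hδ0]
      have h4 : Real.exp M * δ ≤ Real.exp M * (R * Real.exp (-M)) :=
        mul_le_mul_of_nonneg_left hb5.le (Real.exp_pos M).le
      have h5 : Real.exp M * (R * Real.exp (-M)) = R := by
        rw [Real.exp_neg]
        field_simp
      linarith
    have h6 : τ * M = 4 * A0 * Real.log C := by
      rw [hM]
      field_simp
    nlinarith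
  have hkey : ∀ w ∈ closedBall (ψ x) δ, ρ (ψ.symm w) + u (ψ.symm w) ≤
      (ρ x - ρ' x) + τ / 2 + supc v' (C * δ) (ψ' x) := by
    intro w hw
    have hwr : w ∈ closedBall (ψ x) r := closedBall_subset_closedBall hb1.le hw
    obtain ⟨hwD, hwl⟩ := hlip (ψ x) (mem_image_of_mem ψ hx) w hwr
    have hwd : ‖w - ψ x‖ ≤ δ := by
      rw [← dist_eq_norm]; exact hw
    have hFx : (ψ' ∘ ψ.symm) (ψ x) = ψ' x := by
      rw [Function.comp_apply, ψ.left_inv (hA1 hx)]
    rw [hFx] at hwl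
    have hFw : (ψ' ∘ ψ.symm) w ∈ closedBall (ψ' x) (C * δ) := by
      rw [mem_closedBall, dist_eq_norm]
      exact hwl.trans (mul_le_mul_of_nonneg_left hwd hCpos.le)
    have hv'F : v' ((ψ' ∘ ψ.symm) w) = ρ' (ψ.symm w) + u (ψ.symm w) := by
      rw [hv'def]
      simp only [Function.comp_apply]
      rw [ψ'.left_inv hwD.2.2.1]
    have hle : v' ((ψ' ∘ ψ.symm) w) ≤ supc v' (C * δ) (ψ' x) := by
      refine le_supc (A := A0) (fun y hy => ?_) hFw
      exact (le_abs_self _).trans (hbd' y (closedBall_subset_closedBall hCδ.le hy))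
    have hxr1 : ψ x ∈ cthickening r1 (ψ '' A) :=
      self_subset_cthickening _ (mem_image_of_mem ψ hx)
    have hwr1 : w ∈ cthickening r1 (ψ '' A) :=
      closedBall_subset_cthickening (mem_image_of_mem ψ hx) r1
        (closedBall_subset_closedBall hb2.le hw)
    have hdist : dist w (ψ x) < δ1 := lt_of_le_of_lt hw hb3
    have hqq := hq w hwr1 (ψ x) hxr1 hdist
    rw [Real.dist_eq, ψ.left_inv (hA1 hx)] at hqq
    have hqq' := (le_abs_self _).trans hqq.le
    rw [hv'F] at hle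
    linarith
  have hsup : supc (fun z => ρ (ψ.symm z) + u (ψ.symm z)) δ (ψ x) ≤
      (ρ x - ρ' x) + τ / 2 + supc v' (C * δ) (ψ' x) := supc_le hδ0.le hkey
  unfold gsup
  linarith

end Pool.Agent.DMA
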