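import Mathlib

/-! # Row D2: upper semicontinuous functions on circles

PROOF. (a) `circleIntegrable_of_usc`: `θ ↦ v (circleMap c r θ)` is upper semicontinuous on `ℝ`
(composition with a continuous map into the sphere), hence measurable (`UpperSemicontinuous.measurable`),
and bounded.
(b) `exists_cont_above`: `h_k ζ = sup_{ξ in sphere} (v ξ - k |ξ - ζ|)` (a supremum over a nonempty set,
bounded above by `C`) is `k`-Lipschitz, `≥ v` on the sphere, `|h_k| ≤ C` on the sphere, and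
`h_k ζ -> v ζ` for `ζ` in the sphere by upper semicontinuity; dominated convergence. -/

set_option autoImplicit false

open scoped Topology
open Set Filter Metric

noncomputable section

namespace Pool.Agent.DMA

theorem circleIntegrable_of_usc {v : ℂ → ℝ} {c : ℂ} {r : ℝ}
    (hv : UpperSemicontinuousOn v (sphere c |r|)) {C : ℝ} (hb : ∀ ζ ∈ sphere c |r|, |v ζ| ≤ C) :
    CircleIntegrable v c r := by
  have husc : UpperSemicontinuous (fun θ : ℝ => v (circleMap c r θ)) := by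
    intro θ y hy
    have h1 := hv (circleMap c r θ) (circleMap_mem_sphere' c r θ) y hy
    have h2 : Tendsto (circleMap c r) (𝓝 θ) (𝓝[sphere c |r|] (circleMap c r θ)) := by
      refine tendsto_nhdsWithin_iff.2 ⟨(continuous_circleMap c r).continuousAt, ?_⟩
      exact Eventually.of_forall fun t => circleMap_mem_sphere' c r t
    exact h2.eventually h1
  have hm : Measurable (fun θ : ℝ => v (circleMap c r θ)) := husc.measurable
  unfold CircleIntegrable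
  rw [intervalIntegrable_iff]
  refine MeasureTheory.Measure.integrableOn_of_bounded (M := C) ?_ hm.aestronglyMeasurable ?_
  · rw [uIoc_of_le (by positivity), Real.volume_Ioc]
    exact ENNReal.ofReal_ne_top
  · refine Eventually.of_forall fun θ => ?_
    rw [Real.norm_eq_abs]
    exact hb _ (circleMap_mem_sphere' c r θ)

/-- the sup-convolution over the unit circle -/
def D2_supc (v : ℂ → ℝ) (k : ℝ) (ζ : ℂ) : ℝ :=
  ⨆ ξ : sphere (0 : ℂ) 1, (v ξ - k * dist (ξ : ℂ) ζ)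

theorem D2_supc_bdd {v : ℂ → ℝ} {C : ℝ} (hb : ∀ ζ ∈ sphere (0 : ℂ) 1, |v ζ| ≤ C) {k : ℝ} (hk : 0 ≤ k)
    (ζ : ℂ) : BddAbove (range fun ξ : sphere (0 : ℂ) 1 => (v ξ - k * dist (ξ : ℂ) ζ)) := by
  refine ⟨C, ?_⟩
  rintro _ ⟨ξ, rfl⟩
  have h1 := le_of_abs_le (hb ξ ξ.2)
  have h2 : 0 ≤ k * dist (ξ : ℂ) ζ := mul_nonneg hk dist_nonneg
  dsimp only
  linarith

theorem D2_supc_le {v : ℂ → ℝ} {C : ℝ} (hb : ∀ ζ ∈ sphere (0 : ℂ) 1, |v ζ| ≤ C) {k : ℝ} (hk : 0 ≤ k)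
    (ζ : ℂ) : D2_supc v k ζ ≤ C := by
  have hne : Nonempty (sphere (0 : ℂ) 1) := ⟨⟨1, by simp⟩⟩
  refine ciSup_le fun ξ => ?_
  have h1 := le_of_abs_le (hb ξ ξ.2)
  have h2 : 0 ≤ k * dist (ξ : ℂ) ζ := mul_nonneg hk dist_nonneg
  linarith

theorem D2_le_supc {v : ℂ → ℝ} {C : ℝ} (hb : ∀ ζ ∈ sphere (0 : ℂ) 1, |v ζ| ≤ C) {k : ℝ} (hk : 0 ≤ k)
    {ζ : ℂ} (hζ : ζ ∈ sphere (0 : ℂ) 1) : v ζ ≤ D2_supc v k ζ := by
  have h := le_ciSup (D2_supc_bdd hb hk ζ) ⟨ζ, hζ⟩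
  simp only [dist_self, mul_zero, sub_zero] at h
  exact h

theorem D2_supc_cont {v : ℂ → ℝ} {C : ℝ} (hb : ∀ ζ ∈ sphere (0 : ℂ) 1, |v ζ| ≤ C) {k : ℝ}
    (hk : 0 ≤ k) : Continuous (D2_supc v k) := by
  have hne : Nonempty (sphere (0 : ℂ) 1) := ⟨⟨1, by simp⟩⟩
  have hL : LipschitzWith ⟨k, hk⟩ (D2_supc v k) := by
    refine LipschitzWith.of_le_add_mul _ fun x y => ?_
    refine ciSup_le fun ξ => ?_
    have h1 := le_ciSup (D2_supc_bdd hb hk y) ξ
    have h2 : dist (ξ : ℂ) y ≤ dist (ξ : ℂ) x + dist x y := dist_triangle _ _ _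
    have h3 : k * dist (ξ : ℂ) y ≤ k * dist (ξ : ℂ) x + k * dist x y := by
      rw [← mul_add]; exact mul_le_mul_of_nonneg_left h2 hk
    have h4 : v ξ - k * dist (ξ : ℂ) y ≤ D2_supc v k y := h1
    change v ξ - k * dist (ξ : ℂ) x ≤ D2_supc v k y + k * dist x y
    linarith
  exact hL.continuous

theorem D2_supc_tendsto {v : ℂ → ℝ} (hv : UpperSemicontinuousOn v (sphere 0 1)) {C : ℝ}
    (hb : ∀ ζ ∈ sphere (0 : ℂ) 1, |v ζ| ≤ C) {ζ : ℂ} (hζ : ζ ∈ sphere (0 : ℂ) 1) :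
    Tendsto (fun k : ℕ => D2_supc v k ζ) atTop (𝓝 (v ζ)) := by
  have hne : Nonempty (sphere (0 : ℂ) 1) := ⟨⟨1, by simp⟩⟩
  rw [Metric.tendsto_atTop]
  intro η hη
  have h1 := hv ζ hζ (v ζ + η / 2) (by linarith)
  rw [eventually_nhdsWithin_iff, Metric.eventually_nhds_iff] at h1
  obtain ⟨δ, hδ, h1⟩ := h1
  obtain ⟨N, hN⟩ := exists_nat_ge (2 * C / δ)
  refine ⟨N, fun k hk => ?_⟩
  have hk0 : (0 : ℝ) ≤ k := Nat.cast_nonneg k
  have hkN : (N : ℝ) ≤ k := Nat.cast_le.2 hk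
  have hCk : 2 * C ≤ k * δ := by
    have : 2 * C / δ ≤ k := hN.trans hkN
    rwa [div_le_iff₀ hδ] at this
  have h2 : D2_supc v k ζ ≤ v ζ + η / 2 := by
    refine ciSup_le fun ξ => ?_
    by_cases hd : dist (ξ : ℂ) ζ < δ
    · have h3 := h1 hd ξ.2
      have h4 : 0 ≤ (k : ℝ) * dist (ξ : ℂ) ζ := mul_nonneg hk0 dist_nonneg
      linarith
    · have h3 := le_of_abs_le (hb ξ ξ.2)
      have h4 := neg_le_of_abs_le (hb ζ hζ)
      have h5 : (k : ℝ) * δ ≤ k * dist (ξ : ℂ) ζ :=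
        mul_le_mul_of_nonneg_left (not_lt.1 hd) hk0
      linarith
  have h3 := D2_le_supc hb hk0 hζ
  rw [Real.dist_eq, abs_of_nonneg (by linarith)]
  linarith

theorem exists_cont_above {v : ℂ → ℝ} (hv : UpperSemicontinuousOn v (sphere 0 1)) {C : ℝ}
    (hb : ∀ ζ ∈ sphere (0 : ℂ) 1, |v ζ| ≤ C) {ε : ℝ} (hε : 0 < ε) :
    ∃ h : ℂ → ℝ, Continuous h ∧ (∀ ζ ∈ sphere (0 : ℂ) 1, v ζ ≤ h ζ) ∧
      Real.circleAverage h 0 1 ≤ Real.circleAverage v 0 1 + ε := by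
  have hsph : ∀ θ : ℝ, circleMap (0 : ℂ) 1 θ ∈ sphere (0 : ℂ) 1 := fun θ =>
    circleMap_mem_sphere 0 zero_le_one θ
  have hlim : Tendsto (fun k : ℕ => Real.circleAverage (D2_supc v k) 0 1) atTop
      (𝓝 (Real.circleAverage v 0 1)) := by
    unfold Real.circleAverage
    refine Tendsto.const_smul ?_ _
    refine intervalIntegral.tendsto_integral_filter_of_dominated_convergence (fun _ => C) ?_ ?_ ?_ ?_
    · refine Eventually.of_forall fun k => ?_
      exact ((D2_supc_cont hb (Nat.cast_nonneg k)).comp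
        (continuous_circleMap 0 1)).aestronglyMeasurable
    · refine Eventually.of_forall fun k => Eventually.of_forall fun θ _ => ?_
      rw [Real.norm_eq_abs, abs_le]
      refine ⟨?_, D2_supc_le hb (Nat.cast_nonneg k) _⟩
      exact (neg_le_of_abs_le (hb _ (hsph θ))).trans (D2_le_supc hb (Nat.cast_nonneg k) (hsph θ))
    · exact intervalIntegrable_const
    · exact Eventually.of_forall fun θ _ => D2_supc_tendsto hv hb (hsph θ)
  have hev : ∀ᶠ k : ℕ in atTop, Real.circleAverage (D2_supc v k) 0 1 < Real.circleAverage v 0 1 + ε :=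
    hlim.eventually (gt_mem_nhds (by linarith))
  obtain ⟨k, hk⟩ := hev.exists
  exact ⟨D2_supc v k, D2_supc_cont hb (Nat.cast_nonneg k), fun ζ hζ => D2_le_supc hb (Nat.cast_nonneg k) hζ,
    hk.le⟩

end Pool.Agent.DMA
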