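import Pool.Agent.Lib.DMA.D17
import Pool.Agent.Lib.DMA.D13

/-! # Row D20: local approximants

PROOF. `v = ρ ∘ ψ.symm + u ∘ ψ.symm` is psh on the open set `D = ψ.target ∩ ψ.symm ⁻¹' U` (`BPsh.psh`);
`L = ψ '' A` is compact in `D`; `R > 0` with `cthickening R L ⊆ D`, `v` bounded there.
`le_gsup`: `ψ x ∈ closedBall (ψ x) δ` (`le_supc`).
`gsup_lt`: for `x ∈ A` choose `c` with `v (ψ x) < c < ρ x + h x`; `supc_small` and continuity give a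
neighbourhood of `x` and `δ_x` with `supc v δ ≤ c < ρ + h` there; compactness (`IsCompact.induction_on`).
`gsup_smooth`: `Ω = thickening R L` (`v` bounded there by `A₀`), `Z = thickening (R/4) L`, `δ < R/4`:
`supc v δ` is psh and continuous on `Z` (`supc_psh`, `supc_continuousOn` with radius `R/2`);
`exists_smooth_psh` gives `w'` on `Ω' ⊇ L`; `W = ψ.source ∩ ψ ⁻¹' Ω'`, `g = w' ∘ ψ - ρ`, `spshOn_of_psh`
(`c = 1`; on `ψ.target ∩ ψ.symm ⁻¹' W` the function `1 * ρ + g` is `w'`). -/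

set_option autoImplicit false

open scoped Manifold ContDiff Topology ComplexOrder
open Set Filter Metric

noncomputable section

namespace Pool.Agent.DMA

open Pool.Agent.K708 (E CMfd)

variable {n : ℕ} {X : CMfd n} {K : Kahler X}

namespace D20aux

/-- real smoothness of a holomorphic chart -/
theorem chart_real {ψ : OpenPartialHomeomorph X (E n)} (hψ : ψ ∈ CA X) :
    ContMDiffOn 𝓘(ℝ, E n) 𝓘(ℝ, E n) ∞ ψ ψ.source := by
  intro x hx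
  refine ContMDiffAt.contMDiffWithinAt ?_
  have h : ContMDiffAt 𝓘(ℂ, E n) 𝓘(ℂ, E n) ω ψ x := contMDiffAt_of_mem_maximalAtlas hψ hx
  rw [contMDiffAt_iff] at h ⊢
  refine ⟨h.1, ?_⟩
  simpa using (h.2.restrict_scalars ℝ).of_le le_top

/-- the local data -/
theorem setup {u : X → ℝ} (hu : BPsh K u) {U : Set X} {ρ : X → ℝ} (hρ : IsPot K.g U ρ)
    {ψ : OpenPartialHomeomorph X (E n)} (hψ : ψ ∈ CA X) {A : Set X} (hA : IsCompact A)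
    (h1 : A ⊆ ψ.source ∩ U) :
    IsCompact (ψ '' A) ∧ ψ '' A ⊆ ψ.target ∩ ψ.symm ⁻¹' U ∧
    ∃ R > 0, cthickening R (ψ '' A) ⊆ ψ.target ∩ ψ.symm ⁻¹' U ∧
      ∃ A₀, ∀ w ∈ cthickening R (ψ '' A), |ρ (ψ.symm w) + u (ψ.symm w)| ≤ A₀ := by
  have hL : IsCompact (ψ '' A) :=
    hA.image_of_continuousOn (ψ.continuousOn.mono fun x hx => (h1 hx).1)
  have hLD : ψ '' A ⊆ ψ.target ∩ ψ.symm ⁻¹' U := by
    rintro _ ⟨x, hx, rfl⟩
    refine ⟨ψ.map_source (h1 hx).1, ?_⟩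
    rw [mem_preimage, ψ.left_inv (h1 hx).1]
    exact (h1 hx).2
  obtain ⟨R, hR, hRD⟩ := hL.exists_cthickening_subset_open (chart_open ψ hρ.opn) hLD
  obtain ⟨A₀, hA₀⟩ := (hu.psh U ρ hρ ψ hψ).bdd _ hRD hL.cthickening
  exact ⟨hL, hLD, R, hR, hRD, A₀, hA₀⟩

end D20aux

theorem le_gsup {u : X → ℝ} (hu : BPsh K u) {U : Set X} {ρ : X → ℝ} (hρ : IsPot K.g U ρ)
    {ψ : OpenPartialHomeomorph X (E n)} (hψ : ψ ∈ CA X) {A : Set X} (hA : IsCompact A)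
    (h1 : A ⊆ ψ.source ∩ U) :
    ∃ δ₀ > 0, ∀ δ ∈ Ioo (0 : ℝ) δ₀, ∀ x ∈ A, u x ≤ gsup ψ ρ u δ x := by
  obtain ⟨hL, hLD, R, hR, hRD, A₀, hA₀⟩ := D20aux.setup hu hρ hψ hA h1
  refine ⟨R, hR, fun δ hδ x hx => ?_⟩
  have hx' : ψ x ∈ ψ '' A := mem_image_of_mem _ hx
  have hsub : closedBall (ψ x) δ ⊆ cthickening R (ψ '' A) :=
    (closedBall_subset_cthickening hx' δ).trans (cthickening_mono hδ.2.le _)
  have h2 : (fun z => ρ (ψ.symm z) + u (ψ.symm z)) (ψ x) ≤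
      supc (fun z => ρ (ψ.symm z) + u (ψ.symm z)) δ (ψ x) :=
    le_supc (A := A₀) (fun y hy => (abs_le.1 (hA₀ y (hsub hy))).2)
      (mem_closedBall_self hδ.1.le)
  have h3 : ρ x + u x ≤ supc (fun z => ρ (ψ.symm z) + u (ψ.symm z)) δ (ψ x) := by
    have h4 : (fun z => ρ (ψ.symm z) + u (ψ.symm z)) (ψ x) = ρ x + u x := by
      change ρ (ψ.symm (ψ x)) + u (ψ.symm (ψ x)) = ρ x + u x
      rw [ψ.left_inv (h1 hx).1]
    rw [h4] at h2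
    exact h2
  unfold gsup
  linarith

theorem gsup_lt {u : X → ℝ} (hu : BPsh K u) {U : Set X} {ρ : X → ℝ} (hρ : IsPot K.g U ρ)
    {ψ : OpenPartialHomeomorph X (E n)} (hψ : ψ ∈ CA X) {A : Set X} (hA : IsCompact A)
    (h1 : A ⊆ ψ.source ∩ U) {h : X → ℝ} (hh : Continuous h) (hlt : ∀ x ∈ A, u x < h x) :
    ∃ δ₀ > 0, ∀ δ ∈ Ioo (0 : ℝ) δ₀, ∀ x ∈ A, gsup ψ ρ u δ x < h x := by
  have hp := hu.psh U ρ hρ ψ hψ
  have hρc : ContinuousOn ρ U := hρ.smooth.continuousOn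
  refine hA.induction_on (p := fun s => ∃ δ₀ > 0, ∀ δ ∈ Ioo (0 : ℝ) δ₀, ∀ x ∈ s,
    gsup ψ ρ u δ x < h x) ⟨1, one_pos, fun δ _ x hx => absurd hx (notMem_empty x)⟩ ?_ ?_ ?_
  · rintro s t hst ⟨δ₀, h0, h2⟩
    exact ⟨δ₀, h0, fun δ hδ x hx => h2 δ hδ x (hst hx)⟩
  · rintro s t ⟨δ₁, h1, h2⟩ ⟨δ₂, h3, h4⟩
    refine ⟨min δ₁ δ₂, lt_min h1 h3, fun δ hδ x hx => ?_⟩
    rcases hx with hx | hx
    · exact h2 δ ⟨hδ.1, hδ.2.trans_le (min_le_left _ _)⟩ x hx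
    · exact h4 δ ⟨hδ.1, hδ.2.trans_le (min_le_right _ _)⟩ x hx
  · intro x hx
    have hxs : x ∈ ψ.source := (h1 hx).1
    have hxU : x ∈ U := (h1 hx).2
    have hlt' : ρ x + u x < ρ x + h x := by linarith [hlt x hx]
    obtain ⟨c, hc1, hc2⟩ := exists_between hlt'
    have hD : ψ.target ∩ ψ.symm ⁻¹' U ∈ 𝓝 (ψ x) := by
      refine (chart_open ψ hρ.opn).mem_nhds ⟨ψ.map_source hxs, ?_⟩
      rw [mem_preimage, ψ.left_inv hxs]
      exact hxU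
    have hc1' : (fun z => ρ (ψ.symm z) + u (ψ.symm z)) (ψ x) < c := by
      change ρ (ψ.symm (ψ x)) + u (ψ.symm (ψ x)) < c
      rw [ψ.left_inv hxs]
      exact hc1
    obtain ⟨δ₀, hδ₀, h2⟩ := supc_small hp.usc hD hc1'
    have hUn : U ∈ 𝓝 x := hρ.opn.mem_nhds hxU
    have h3 : ∀ᶠ y in 𝓝 x, c < ρ y + h y :=
      ((hρc.continuousAt hUn).add hh.continuousAt).eventually_const_lt hc2
    have h4 : ∀ᶠ y in 𝓝 x, ψ y ∈ ball (ψ x) δ₀ :=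
      (ψ.continuousAt hxs) (ball_mem_nhds _ hδ₀)
    refine ⟨{y | c < ρ y + h y ∧ ψ y ∈ ball (ψ x) δ₀}, mem_nhdsWithin_of_mem_nhds (h3.and h4),
      δ₀, hδ₀, fun δ hδ y hy => ?_⟩
    have h5 := h2 δ ⟨hδ.1, hδ.2.le⟩ (ψ y) hy.2
    have h6 : c < ρ y + h y := hy.1
    unfold gsup
    linarith

theorem gsup_smooth {u : X → ℝ} (hu : BPsh K u) {U : Set X} {ρ : X → ℝ} (hρ : IsPot K.g U ρ)
    {ψ : OpenPartialHomeomorph X (E n)} (hψ : ψ ∈ CA X) {A : Set X} (hA : IsCompact A)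
    (h1 : A ⊆ ψ.source ∩ U) :
    ∃ δ₀ > 0, ∀ δ ∈ Ioo (0 : ℝ) δ₀, ∀ τ > 0, ∃ (W : Set X) (g : X → ℝ), IsOpen W ∧ A ⊆ W ∧
      W ⊆ ψ.source ∩ U ∧ SPshOn K 1 W g ∧ ∀ x ∈ W, |g x - gsup ψ ρ u δ x| ≤ τ := by
  obtain ⟨hL, hLD, R, hR, hRD, A₀, hA₀⟩ := D20aux.setup hu hρ hψ hA h1
  set v : E n → ℝ := fun z => ρ (ψ.symm z) + u (ψ.symm z) with hv
  have hp : Psh (ψ.target ∩ ψ.symm ⁻¹' U) v := hu.psh U ρ hρ ψ hψ
  have hΩD : thickening R (ψ '' A) ⊆ ψ.target ∩ ψ.symm ⁻¹' U :=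
    (thickening_subset_cthickening _ _).trans hRD
  have hpΩ : Psh (thickening R (ψ '' A)) v := hp.mono hΩD
  have hbΩ : ∀ w ∈ thickening R (ψ '' A), |v w| ≤ A₀ := fun w hw =>
    hA₀ w (thickening_subset_cthickening _ _ hw)
  have hZ : ∀ z ∈ thickening (R / 4) (ψ '' A), closedBall z (R / 2) ⊆ thickening R (ψ '' A) := by
    intro z hz w hw
    rw [mem_thickening_iff] at hz ⊢
    obtain ⟨y, hy, hyz⟩ := hz
    refine ⟨y, hy, ?_⟩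
    calc dist w y ≤ dist w z + dist z y := dist_triangle _ _ _
      _ < R / 2 + R / 2 := by
        have : dist w z ≤ R / 2 := hw
        linarith
      _ = R := by ring
  refine ⟨R / 4, by positivity, fun δ hδ τ hτ => ?_⟩
  have hδ2 : δ < R / 2 := by
    have := hδ.2
    linarith
  have hs1 : Psh (thickening (R / 4) (ψ '' A)) (supc v δ) := supc_psh hpΩ hδ.1 hδ2 hZ hbΩ
  have hs2 : ContinuousOn (supc v δ) (thickening (R / 4) (ψ '' A)) :=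
    supc_continuousOn hpΩ hδ.1 hδ2 hZ hbΩ
  obtain ⟨Ω', w', hΩ'o, hLΩ', hΩ'Z, hw'c, hw'p, hw'n⟩ := exists_smooth_psh isOpen_thickening hs1 hs2
    hL (self_subset_thickening (by positivity) _) hτ
  have hZD : thickening (R / 4) (ψ '' A) ⊆ ψ.target ∩ ψ.symm ⁻¹' U :=
    (thickening_mono (by linarith) _).trans hΩD
  have hWU : ψ.source ∩ ψ ⁻¹' Ω' ⊆ ψ.source ∩ U := by
    rintro x ⟨hx1, hx2⟩
    refine ⟨hx1, ?_⟩
    have h3 := (hZD (hΩ'Z hx2)).2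
    rw [mem_preimage, ψ.left_inv hx1] at h3
    exact h3
  have hWo : IsOpen (ψ.source ∩ ψ ⁻¹' Ω') := ψ.isOpen_inter_preimage hΩ'o
  refine ⟨ψ.source ∩ ψ ⁻¹' Ω', fun x => w' (ψ x) - ρ x, hWo, ?_, hWU, ?_, ?_⟩
  · intro x hx
    exact ⟨(h1 hx).1, hLΩ' (mem_image_of_mem _ hx)⟩
  · refine spshOn_of_psh hWo ?_ hρ hψ hWU ?_
    · have h3 : ContMDiffOn 𝓘(ℝ, E n) 𝓘(ℝ, ℝ) ∞ (fun x => w' (ψ x)) (ψ.source ∩ ψ ⁻¹' Ω') := by
        have h4 : ContMDiff 𝓘(ℝ, E n) 𝓘(ℝ, ℝ) ∞ w' := hw'c.contMDiff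
        exact h4.comp_contMDiffOn ((D20aux.chart_real hψ).mono inter_subset_left)
      exact h3.sub (hρ.smooth.mono fun x hx => (hWU hx).2)
    · have hsub : ψ.target ∩ ψ.symm ⁻¹' (ψ.source ∩ ψ ⁻¹' Ω') ⊆ Ω' := by
        rintro z ⟨hz1, -, hz3⟩
        rw [mem_preimage, ψ.right_inv hz1] at hz3
        exact hz3
      refine (hw'p.mono hsub).congr fun z hz => ?_
      rw [ψ.right_inv hz.1]
      ring
  · rintro x ⟨hx1, hx2⟩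
    have h3 := hw'n (ψ x) hx2
    have h4 : w' (ψ x) - ρ x - gsup ψ ρ u δ x = w' (ψ x) - supc v δ (ψ x) := by
      unfold gsup
      ring
    rw [h4]
    exact h3

end Pool.Agent.DMA
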