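import Pool.Agent.Lib.DMA.D18
import Pool.Agent.Lib.DMA.CScale

/-! # Row D21: covering by charts with cut-offs; gluing

PROOF. `exists_cover`: for `x` take `ψ = chartAt x`, a potential `(U, ρ)` near `x` (`K.pot x`), open sets
`x ∈ V₁`, `closure V₁ ⊆ V₂`, `closure V₂ ⊆ V`, `closure V ⊆ ψ.source ∩ U` (regular space), `A = closure V`,
`η` smooth with values in `[-1, 0]`, `0` on `V₁`, `-1` off `V₂` (smooth Urysohn on manifolds:
`exists_contMDiffMap_zero_one_of_isClosed`-like in Mathlib, or `K708` partition of unity PU.lean); finitely many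
`V₁` cover `X`.
`exists_scale_all`: `exists_scale` (CScale) for every `η i`; `SPsh K (η/C)` means `K.g + hess η / C` PSD,
multiply by `C` (`SPshOn.const_mul`), take a common `C` (`SPshOn.mono_c`).
`spshOn_glue`: local (`spshOn_local`): at `x` let `I = {i | x ∈ V i}` and `N` = an open neighbourhood of `x` contained
in all `V i`, `i ∈ I`, on which `hlow` holds.  On `N` the function is `M (G^I)`, `G^I i = G i` for `i ∈ I`
and `-L` for `i ∉ I`: `RegMax.indep` with `m = j`.  `spshOn_regMax`, `spshOn_const`, `SPshOn.congr`. -/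

set_option autoImplicit false

open scoped Manifold ContDiff Topology ComplexOrder
open Set Filter Metric

noncomputable section

namespace Pool.Agent.DMA

open Pool.Agent.K708 (E CMfd)

variable {n : ℕ} {X : CMfd n}

theorem exists_cover (hX : CompactSpace X) (K : Kahler X) :
    ∃ (ι : Type) (_ : Fintype ι) (ψ : ι → OpenPartialHomeomorph X (E n)) (ρ η : ι → X → ℝ)
      (U A V : ι → Set X),
      (∀ i, ψ i ∈ CA X ∧ IsPot K.g (U i) (ρ i) ∧ IsCompact (A i) ∧ A i ⊆ (ψ i).source ∩ U i ∧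
        IsOpen (V i) ∧ V i ⊆ A i) ∧
      (∀ i, Sm (η i) ∧ ∀ x, -1 ≤ η i x ∧ η i x ≤ 0) ∧
      (∀ x, ∃ i, x ∈ V i ∧ η i x = 0) ∧
      ∀ i x, x ∉ V i → ∀ᶠ y in 𝓝 x, η i y = -1 := by
  classical
  have : LocallyCompactSpace X := ChartedSpace.locallyCompactSpace (E n) X
  have key : ∀ x : X, ∃ (ρ η : X → ℝ) (U A V V1 : Set X),
      IsPot K.g U ρ ∧ IsCompact A ∧ A ⊆ (chartAt (E n) x).source ∩ U ∧ IsOpen V ∧ V ⊆ A ∧
      Sm η ∧ (∀ y, -1 ≤ η y ∧ η y ≤ 0) ∧ IsOpen V1 ∧ x ∈ V1 ∧ V1 ⊆ V ∧ (∀ y ∈ V1, η y = 0) ∧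
      ∀ y, y ∉ V → ∀ᶠ z in 𝓝 y, η z = -1 := by
    intro x
    obtain ⟨U, ρ, hxU, hρ⟩ := K.pot x
    have hO : IsOpen ((chartAt (E n) x).source ∩ U) := (chartAt (E n) x).open_source.inter hρ.opn
    obtain ⟨A, hA, hxA, hAO⟩ := exists_compact_between (isCompact_singleton (x := x)) hO
      (singleton_subset_iff.2 ⟨mem_chart_source _ x, hxU⟩)
    obtain ⟨L, hL, hxL, hLA⟩ := exists_compact_between (isCompact_singleton (x := x))
      (isOpen_interior (s := A)) hxA
    obtain ⟨χ, hχs, hχ01, hχ1, hχt, -⟩ := Pool.Agent.K708.exists_bump X hL isOpen_interior hLA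
    refine ⟨ρ, fun y => χ y + -1, U, A, interior A, interior L, hρ, hA, hAO, isOpen_interior,
      interior_subset, ?_, fun y => ⟨?_, ?_⟩, isOpen_interior, singleton_subset_iff.1 hxL,
      interior_subset.trans hLA, fun y hy => ?_, fun y hy => ?_⟩
    · exact hχs.add contMDiff_const
    · linarith [(hχ01 y).1]
    · linarith [(hχ01 y).2]
    · have h1 := hχ1.self_of_nhdsSet y (interior_subset hy)
      simp only [h1]
      norm_num
    · have h1 : y ∉ tsupport χ := fun h => hy (hχt h)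
      have h2 := notMem_tsupport_iff_eventuallyEq.1 h1
      filter_upwards [h2] with z hz
      rw [hz]
      simp
  choose ρ η U A V V1 hρ hA hAO hV hVA hη hη1 hV1 hxV1 hV1V hη0 hηm using key
  obtain ⟨t, ht⟩ := isCompact_univ.elim_nhds_subcover (fun x => V1 x)
    (fun x _ => (hV1 x).mem_nhds (hxV1 x))
  refine ⟨t, inferInstance, fun i => chartAt (E n) i.1, fun i => ρ i.1, fun i => η i.1,
    fun i => U i.1, fun i => A i.1, fun i => V i.1, fun i => ⟨?_, hρ _, hA _, hAO _, hV _, hVA _⟩,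
    fun i => ⟨hη _, hη1 _⟩, fun x => ?_, fun i x hx => hηm _ x hx⟩
  · exact IsManifold.chart_mem_maximalAtlas i.1
  · obtain ⟨y, hy, hxy⟩ := mem_iUnion₂.1 (ht.2 (mem_univ x))
    exact ⟨⟨y, hy⟩, hV1V y hxy, hη0 y x hxy⟩

theorem exists_scale_all (hX : CompactSpace X) (K : Kahler X) {ι : Type} [Fintype ι]
    {η : ι → X → ℝ} (hη : ∀ i, Sm (η i)) : ∃ C : ℝ, 0 < C ∧ ∀ i, SPshOn K C univ (η i) := by
  have h := fun i => exists_scale hX K (hη i)
  choose C hC hCp using h
  have hs : 0 ≤ ∑ i, C i := Finset.sum_nonneg fun i _ => (hC i).le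
  refine ⟨1 + ∑ i, C i, by linarith, fun i => ?_⟩
  have h1 : SPshOn K (C i * 1) univ (fun x => C i * (η i x / C i)) :=
    SPshOn.const_mul isOpen_univ (SPsh.on (hCp i)) (hC i).le
  have h2 : SPshOn K (C i * 1) univ (η i) := by
    refine SPshOn.congr isOpen_univ h1 fun x _ => ?_
    have := (hC i).ne'
    field_simp
  refine SPshOn.mono_c h2 ?_
  have h3 : C i ≤ ∑ i, C i := Finset.single_le_sum (fun j _ => (hC j).le) (Finset.mem_univ i)
  linarith

theorem spshOn_glue {K : Kahler X} {ι : Type} [Fintype ι] {ε : ℝ} {M : (ι → ℝ) → ℝ}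
    (hM : RegMax ε M) {c : ℝ} (hc : 0 ≤ c) {V : ι → Set X} {G : ι → X → ℝ} {L : ℝ}
    (hV : ∀ i, IsOpen (V i)) (hG : ∀ i, SPshOn K c (V i) (G i))
    (hlow : ∀ x, ∀ᶠ y in 𝓝 x, ∃ j, x ∈ V j ∧ y ∈ V j ∧ -L ≤ G j y - 2 * ε ∧
      ∀ i, x ∉ V i → y ∈ V i → G i y ≤ G j y - 2 * ε) :
    SPshOn K c univ (fun x => M (fun i => open Classical in if x ∈ V i then G i x else -L)) := by
  classical
  refine spshOn_local fun x _ => ?_
  have h1 : ∀ᶠ y in 𝓝 x, ∀ i, x ∈ V i → y ∈ V i := by
    rw [Filter.eventually_all]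
    intro i
    by_cases hi : x ∈ V i
    · filter_upwards [(hV i).mem_nhds hi] with y hy _
      exact hy
    · exact Eventually.of_forall fun y h => absurd h hi
  obtain ⟨N, hN, hNo, hxN⟩ := eventually_nhds_iff.1 (h1.and (hlow x))
  refine ⟨N, hNo, hxN, ?_⟩
  have h2 : ∀ i, SPshOn K c N (fun y => if x ∈ V i then G i y else -L) := by
    intro i
    by_cases hi : x ∈ V i
    · simp only [hi, if_true]
      exact (hG i).mono_set fun y hy => (hN y hy).1 i hi
    · simp only [hi, if_false]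
      exact spshOn_const hc _
  refine SPshOn.congr hNo (spshOn_regMax hM hNo h2) fun y hy => ?_
  obtain ⟨hy1, j, hxj, hyj, hLj, hj⟩ := hN y hy
  refine hM.indep _ _ j ?_ fun i => ?_
  · simp only [hxj, hyj, if_true]
  · by_cases hi : x ∈ V i
    · left
      simp only [hi, hy1 i hi, if_true]
    · right
      refine ⟨?_, ?_⟩
      · by_cases hyi : y ∈ V i
        · simp only [hyi, hyj, if_true]
          exact hj i hi hyi
        · simp only [hyi, hyj, if_true, if_false]
          exact hLj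
      · simp only [hi, hxj, if_true, if_false]
        exact hLj

end Pool.Agent.DMA
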