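import Pool.Agent.Lib.DMA.D15
import Pool.Agent.Lib.DMA.D19
import Pool.Agent.Lib.DMA.D20
import Pool.Agent.Lib.DMA.D21

/-! # Row D22: Blocki-Kolodziej regularisation (assembly)

PROOF. `X` empty: `w = 0`.  `exists_cover`, `|u| ≤ A₀`, `|h| ≤ A₀`.
(1) `σ > 0`, `σ ≤ 1/10`, with `u x < h x - 10 σ` for all `x` (`h - u` is lower semicontinuous and positive on the
compact space).  (2) `C > 0` of `exists_scale_all` for `η`.  (3) `0 < κ ≤ σ`, `κ C (A₀ + 2) ≤ σ`.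
(4) one `δ > 0` for which: `gsup_i ≤ gsup_j + κ/8` on `A i ∩ A j` (`gsup_compare`, all pairs),
`gsup_i < h - 10 σ` and `u ≤ gsup_i` on `A i` (`gsup_lt` for `h - 10 σ`, `le_gsup`), and `g i` smooth
`SPshOn K 1` near `A i` with `|g i - gsup_i| ≤ κ/16` (`gsup_smooth`).
(5) `ε = κ/8`, `M` of `exists_regMax`, `G i = g i + κ η i` : `SPshOn K (1 + κ C) (V i)`; `L = A₀ + 2`.
`w₀ x = M (i ↦ if x ∈ V i then G i x else -L)`.
(6) For every `y` let `j` be an index with `y ∈ V j`, `η j y = 0`: `G j y = g j y ≥ u y - κ/16`, so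
`-L ≤ G j y - 2 ε`.  If `y ∈ V i` and `η i y = -1`: `G i y = g i y - κ ≤ G j y + κ/16 + κ/8 + κ/16 - κ ≤
G j y - 2 ε`.  Hypothesis `hlow` of `spshOn_glue` at `x`: for `y` near `x` all `i` with `x ∉ V i` have `η i y = -1`;
in particular `x ∈ V j`.
(7) `u - κ/16 - ε ≤ w₀ ≤ h - 10 σ + κ/16 + ε` (`RegMax.lower`, `RegMax.upper`), so `|w₀| ≤ A₀ + 2`.
(8) `w = w₀ / (1 + κ C) + 2 σ` : `SPshOn K 1 univ` (`SPshOn.const_mul`, `SPshOn.add` with a constant and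
`c' = 0`), `|w₀/(1 + κ C) - w₀| ≤ κ C (A₀ + 2) ≤ σ`, so `u < w < h`. -/

set_option autoImplicit false

open scoped Manifold ContDiff Topology ComplexOrder
open Set Filter Metric

noncomputable section

namespace Pool.Agent.DMA

open Pool.Agent.K708 (E CMfd)

variable {n : ℕ}

theorem bk_main {X : CMfd n} (hX : CompactSpace X) (K : Kahler X) {u : X → ℝ} (hu : BPsh K u)
    {h : X → ℝ} (hh : Continuous h) (hlt : ∀ x, u x < h x) :
    ∃ w, SPsh K w ∧ ∀ x, u x < w x ∧ w x < h x := by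
  classical
  rcases isEmpty_or_nonempty X with hE | hne
  · exact ⟨fun _ => 0, ⟨contMDiff_const, fun x => (hE.false x).elim⟩, fun x => (hE.false x).elim⟩
  obtain ⟨ι, hι, ψ, ρ, η, U, A, V, hc, hη, hcov, hoff⟩ := exists_cover hX K
  obtain ⟨x₀⟩ := hne
  have : Nonempty ι := ⟨(hcov x₀).choose⟩
  -- bounds
  obtain ⟨C₁, hC₁⟩ := hu.bdd
  obtain ⟨C₂, hC₂⟩ := isCompact_univ.exists_bound_of_continuousOn hh.continuousOn
  obtain ⟨A₀, hA₀, hub, hhb⟩ : ∃ A₀ : ℝ, 0 ≤ A₀ ∧ (∀ x, |u x| ≤ A₀) ∧ ∀ x, |h x| ≤ A₀ := by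
    refine ⟨max C₁ C₂, ?_, fun x => (hC₁ x).trans (le_max_left _ _), fun x => ?_⟩
    · exact (abs_nonneg (u x₀)).trans ((hC₁ x₀).trans (le_max_left _ _))
    · exact (hC₂ x (mem_univ x)).trans (le_max_right _ _)
  -- `σ`
  obtain ⟨σ, hσ0, hσ1, hσ⟩ : ∃ σ : ℝ, 0 < σ ∧ σ ≤ 1 / 10 ∧ ∀ x, u x < h x - 10 * σ := by
    have husc : UpperSemicontinuous (fun x => u x + -h x) :=
      hu.usc.add hh.neg.upperSemicontinuous
    obtain ⟨a, -, ha⟩ := UpperSemicontinuousOn.exists_isMaxOn ⟨x₀, mem_univ x₀⟩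
      isCompact_univ (husc.upperSemicontinuousOn univ)
    have h1 : 0 < h a - u a := sub_pos.2 (hlt a)
    refine ⟨min (1 / 10) ((h a - u a) / 20), lt_min (by norm_num) (by linarith),
      min_le_left _ _, fun x => ?_⟩
    have h2 : u x + -h x ≤ u a + -h a := ha (mem_univ x)
    have h3 : min (1 / 10) ((h a - u a) / 20) ≤ (h a - u a) / 20 := min_le_right _ _
    linarith
  obtain ⟨C, hC0, hC⟩ := exists_scale_all hX K (fun i => (hη i).1)
  -- `κ`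
  obtain ⟨κ, hκ0, hκσ, hκ⟩ : ∃ κ : ℝ, 0 < κ ∧ κ ≤ σ ∧ κ * C * (A₀ + 2) ≤ σ := by
    have hp : 0 < C * (A₀ + 2) := mul_pos hC0 (by linarith)
    refine ⟨min σ (σ / (C * (A₀ + 2))), lt_min hσ0 (div_pos hσ0 hp), min_le_left _ _, ?_⟩
    have h1 : min σ (σ / (C * (A₀ + 2))) ≤ σ / (C * (A₀ + 2)) := min_le_right _ _
    calc min σ (σ / (C * (A₀ + 2))) * C * (A₀ + 2)
        = min σ (σ / (C * (A₀ + 2))) * (C * (A₀ + 2)) := by ring
      _ ≤ σ / (C * (A₀ + 2)) * (C * (A₀ + 2)) := mul_le_mul_of_nonneg_right h1 hp.le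
      _ = σ := div_mul_cancel₀ _ hp.ne'
  -- `δ`
  have hκ8 : 0 < κ / 8 := by linarith
  have hκ16 : 0 < κ / 16 := by linarith
  have hA : ∀ i, IsCompact (A i) := fun i => (hc i).2.2.1
  have hV : ∀ i, IsOpen (V i) := fun i => (hc i).2.2.2.2.1
  have hVA : ∀ i, V i ⊆ A i := fun i => (hc i).2.2.2.2.2
  have e1 : ∀ᶠ δ in 𝓝[>] (0 : ℝ), ∀ i j, ∀ x ∈ A i ∩ A j,
      gsup (ψ i) (ρ i) u δ x ≤ gsup (ψ j) (ρ j) u δ x + κ / 8 := by
    refine eventually_all.2 fun i => eventually_all.2 fun j => ?_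
    obtain ⟨δ₀, h0, h1⟩ := gsup_compare hu (hc i).2.1 (hc j).2.1 (hc i).1 (hc j).1
      ((hA i).inter (hA j)) (inter_subset_left.trans (hc i).2.2.2.1)
      (inter_subset_right.trans (hc j).2.2.2.1) hκ8
    filter_upwards [Ioo_mem_nhdsGT h0] with δ hδ
    exact h1 δ hδ
  have e2 : ∀ᶠ δ in 𝓝[>] (0 : ℝ), ∀ i, ∀ x ∈ A i, u x ≤ gsup (ψ i) (ρ i) u δ x := by
    refine eventually_all.2 fun i => ?_
    obtain ⟨δ₀, h0, h1⟩ := le_gsup hu (hc i).2.1 (hc i).1 (hA i) (hc i).2.2.2.1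
    filter_upwards [Ioo_mem_nhdsGT h0] with δ hδ
    exact h1 δ hδ
  have e3 : ∀ᶠ δ in 𝓝[>] (0 : ℝ), ∀ i, ∀ x ∈ A i,
      gsup (ψ i) (ρ i) u δ x < h x - 10 * σ := by
    refine eventually_all.2 fun i => ?_
    obtain ⟨δ₀, h0, h1⟩ := gsup_lt hu (hc i).2.1 (hc i).1 (hA i) (hc i).2.2.2.1
      (hh.sub continuous_const) (fun x _ => hσ x)
    filter_upwards [Ioo_mem_nhdsGT h0] with δ hδ
    exact h1 δ hδ
  have e4 : ∀ᶠ δ in 𝓝[>] (0 : ℝ), ∀ i, ∃ (W : Set X) (g : X → ℝ), IsOpen W ∧ A i ⊆ W ∧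
      W ⊆ (ψ i).source ∩ U i ∧ SPshOn K 1 W g ∧
      ∀ x ∈ W, |g x - gsup (ψ i) (ρ i) u δ x| ≤ κ / 16 := by
    refine eventually_all.2 fun i => ?_
    obtain ⟨δ₀, h0, h1⟩ := gsup_smooth hu (hc i).2.1 (hc i).1 (hA i) (hc i).2.2.2.1
    filter_upwards [Ioo_mem_nhdsGT h0] with δ hδ
    exact h1 δ hδ _ hκ16
  obtain ⟨δ, hδ1, hδ2, hδ3, hδ4⟩ := (e1.and (e2.and (e3.and e4))).exists
  choose W g hW hAW hWU hg hgd using hδ4
  -- regularised maximum
  obtain ⟨M, hM⟩ := exists_regMax ι hκ8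
  have hκC : 0 < κ * C := mul_pos hκ0 hC0
  have hG : ∀ i, SPshOn K (1 + κ * C) (V i) (fun x => g i x + κ * η i x) := fun i =>
    ((hg i).mono_set ((hVA i).trans (hAW i))).add (hV i)
      (((hC i).const_mul isOpen_univ hκ0.le).mono_set (subset_univ _))
  have hgl : ∀ i, ∀ x ∈ A i, gsup (ψ i) (ρ i) u δ x - κ / 16 ≤ g i x := fun i x hx => by
    have := (abs_le.1 (hgd i x (hAW i hx))).1
    linarith
  have hgu : ∀ i, ∀ x ∈ A i, g i x ≤ gsup (ψ i) (ρ i) u δ x + κ / 16 := fun i x hx => by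
    have := (abs_le.1 (hgd i x (hAW i hx))).2
    linarith
  have hlow : ∀ x, ∀ᶠ y in 𝓝 x, ∃ j, x ∈ V j ∧ y ∈ V j ∧
      -(A₀ + 2) ≤ (g j y + κ * η j y) - 2 * (κ / 8) ∧
      ∀ i, x ∉ V i → y ∈ V i →
        g i y + κ * η i y ≤ (g j y + κ * η j y) - 2 * (κ / 8) := by
    intro x
    have h1 : ∀ᶠ y in 𝓝 x, ∀ i, x ∉ V i → η i y = -1 := by
      refine eventually_all.2 fun i => ?_
      by_cases hx : x ∈ V i
      · exact Eventually.of_forall fun y hy => (hy hx).elim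
      · exact (hoff i x hx).mono fun y hy _ => hy
    filter_upwards [h1] with y hy
    obtain ⟨j, hyj, hj0⟩ := hcov y
    have hxj : x ∈ V j := by
      by_contra hx
      have := hy j hx
      rw [hj0] at this
      norm_num at this
    have hyA : y ∈ A j := hVA j hyj
    have h2 := hgl j y hyA
    have h3 := hδ2 j y hyA
    have h4 := (abs_le.1 (hub y)).1
    refine ⟨j, hxj, hyj, ?_, fun i hxi hyi => ?_⟩
    · rw [hj0]
      linarith
    · rw [hj0, hy i hxi]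
      have h5 := hgu i y (hVA i hyi)
      have h6 := hδ1 i j y ⟨hVA i hyi, hyA⟩
      linarith
  have hglue := spshOn_glue hM (by linarith : (0 : ℝ) ≤ 1 + κ * C) hV hG hlow
  set w₀ : X → ℝ := fun x => M (fun i => open Classical in
    if x ∈ V i then g i x + κ * η i x else -(A₀ + 2)) with hw₀
  have hl : ∀ y, u y - κ / 16 - κ / 8 ≤ w₀ y := by
    intro y
    obtain ⟨j, hyj, hj0⟩ := hcov y
    have h1 := hM.lower (fun i => open Classical in
      if y ∈ V i then g i y + κ * η i y else -(A₀ + 2)) j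
    have h2 := hgl j y (hVA j hyj)
    have h3 := hδ2 j y (hVA j hyj)
    simp only [hyj, if_true, hj0, mul_zero, add_zero] at h1
    have h4 : g j y - κ / 8 ≤ w₀ y := h1
    linarith
  have hr : ∀ y, w₀ y ≤ h y - 10 * σ + κ / 16 + κ / 8 := by
    intro y
    refine hM.upper _ (h y - 10 * σ + κ / 16) fun i => ?_
    by_cases hy : y ∈ V i
    · simp only [hy, if_true]
      have h1 := hgu i y (hVA i hy)
      have h2 := hδ3 i y (hVA i hy)
      have h3 : κ * η i y ≤ 0 := mul_nonpos_of_nonneg_of_nonpos hκ0.le ((hη i).2 y).2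
      linarith
    · simp only [hy, if_false]
      have h1 := (abs_le.1 (hhb y)).1
      linarith
  have h1C : 0 < 1 + κ * C := by linarith
  have hfin := (hglue.const_mul isOpen_univ (inv_nonneg.2 h1C.le)).add isOpen_univ
    (spshOn_const (K := K) (W := univ) le_rfl (2 * σ))
  rw [inv_mul_cancel₀ h1C.ne', add_zero] at hfin
  refine ⟨_, hfin.spsh, fun x => ?_⟩
  have ha : |w₀ x| ≤ A₀ + 2 := by
    have h1 := abs_le.1 (hub x)
    have h2 := abs_le.1 (hhb x)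
    have h3 := hl x
    have h4 := hr x
    exact abs_le.2 ⟨by linarith, by linarith⟩
  have hb : |(1 + κ * C)⁻¹ * w₀ x - w₀ x| ≤ σ := by
    have h1 : (1 + κ * C)⁻¹ * w₀ x - w₀ x = -((1 + κ * C)⁻¹ * (κ * C) * w₀ x) := by
      field_simp
      ring
    rw [h1, abs_neg, abs_mul, abs_of_nonneg (mul_nonneg (inv_nonneg.2 h1C.le) hκC.le)]
    have h2 : (1 + κ * C)⁻¹ ≤ 1 := inv_le_one_of_one_le₀ (by linarith)
    calc (1 + κ * C)⁻¹ * (κ * C) * |w₀ x| ≤ 1 * (κ * C) * (A₀ + 2) := by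
          refine mul_le_mul (mul_le_mul_of_nonneg_right h2 hκC.le) ha (abs_nonneg _) ?_
          rw [one_mul]
          exact hκC.le
      _ ≤ σ := by rw [one_mul]; exact hκ
  have hb1 := abs_le.1 hb
  have hl1 := hl x
  have hr1 := hr x
  constructor
  · change u x < (1 + κ * C)⁻¹ * w₀ x + 2 * σ
    linarith
  · change (1 + κ * C)⁻¹ * w₀ x + 2 * σ < h x
    linarith

end Pool.Agent.DMA
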