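import Pool.Agent.Lib.DMA.D2

/-! # Row D3: the maximum principle

PROOF. `circleAverage_normSq`: `‖ζ‖^2` on the circle is `‖c‖^2 + r^2 + 2 Re (..)` with mean zero (e.g.
`circleAverage` of `Re (conj c * (ζ - c))` by `circleAverage_poly_re`-like mean value property, or
integrate `cos`, `sin`).
`max_principle`: suppose `v ζ₁ > c`, `‖ζ‖ ≤ M` on `S`.  Choose `τ > 0` with `τ M^2 < v ζ₁ - c`.  The
upper semicontinuous function `w = v + τ ‖ζ‖^2` has a maximum at some `ζ₀ ∈ S`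
(`UpperSemicontinuousOn.exists_isMaxOn`), `v ζ₀ ≥ w ζ₁ - τ M^2 > c`, so `ζ₀ ∉ T`.  For small `r` the
closed ball around `ζ₀` is in `S`; with the tolerance `τ/2`: average of `w` on the circle
`= average v + τ (‖ζ₀‖^2 + r^2) ≥ w ζ₀ + τ r^2 / 2 > w ζ₀`, but it is `≤ w ζ₀`
(`circleIntegrable_of_usc`, `circleAverage_mono_on_of_le_circle`). -/

set_option autoImplicit false

open scoped Topology
open Set Filter Metric

noncomputable section

namespace Pool.Agent.DMA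

theorem circleAverage_normSq (c : ℂ) (r : ℝ) :
    Real.circleAverage (fun ζ => ‖ζ‖ ^ 2) c r = ‖c‖ ^ 2 + r ^ 2 := by
  have h1 : Real.circleAverage (fun ζ : ℂ => (starRingEnd ℂ) c * (ζ - c)) c r = 0 := by
    have hd : DiffContOnCl ℂ (fun ζ : ℂ => (starRingEnd ℂ) c * (ζ - c)) (ball c |r|) :=
      ((differentiable_const _).mul (differentiable_id.sub_const c)).diffContOnCl
    rw [hd.circleAverage, sub_self, mul_zero]
  have h2 : Real.circleAverage (fun ζ : ℂ => ((starRingEnd ℂ) c * (ζ - c)).re) c r = 0 := by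
    have hc : Continuous (fun ζ : ℂ => (starRingEnd ℂ) c * (ζ - c)) := by fun_prop
    have h3 := Complex.reCLM.circleAverage_comp_comm (f := fun ζ : ℂ => (starRingEnd ℂ) c * (ζ - c))
      (c := c) (R := r) hc.continuousOn.circleIntegrable'
    rw [h1, map_zero] at h3
    exact h3
  have h4 : Real.circleAverage (fun ζ : ℂ => ‖ζ‖ ^ 2) c r = Real.circleAverage
      (fun ζ : ℂ => (‖c‖ ^ 2 + r ^ 2) + (2 : ℝ) • ((starRingEnd ℂ) c * (ζ - c)).re) c r := by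
    refine Real.circleAverage_congr_sphere fun ζ hζ => ?_
    have h5 : ‖ζ - c‖ ^ 2 = r ^ 2 := by
      rw [mem_sphere, dist_eq_norm] at hζ
      rw [hζ, sq_abs]
    rw [← h5]
    simp only [smul_eq_mul]
    rw [← Complex.normSq_eq_norm_sq, ← Complex.normSq_eq_norm_sq, ← Complex.normSq_eq_norm_sq]
    simp only [Complex.normSq_apply, Complex.mul_re, Complex.conj_re, Complex.conj_im,
      Complex.sub_re, Complex.sub_im]
    ring
  have hc2 : Continuous (fun ζ : ℂ => (2 : ℝ) • ((starRingEnd ℂ) c * (ζ - c)).re) := by fun_prop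
  rw [h4, Real.circleAverage_fun_add (circleIntegrable_const _ _ _)
    hc2.continuousOn.circleIntegrable', Real.circleAverage_fun_smul, h2, smul_zero, add_zero,
    Real.circleAverage_const]

theorem max_principle {S T : Set ℂ} (hS : IsCompact S) {v : ℂ → ℝ}
    (hv : UpperSemicontinuousOn v S) {C : ℝ} (hb : ∀ ζ ∈ S, |v ζ| ≤ C)
    (hloc : ∀ ζ ∈ S, ζ ∉ T → S ∈ 𝓝 ζ ∧ ∀ τ > 0, ∃ᶠ r in 𝓝[>] (0 : ℝ),
      v ζ ≤ Real.circleAverage v ζ r + τ * r ^ 2)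
    {c : ℝ} (hc : ∀ ζ ∈ S, ζ ∈ T → v ζ ≤ c) : ∀ ζ ∈ S, v ζ ≤ c := by
  by_contra hcon
  push Not at hcon
  obtain ⟨ζ₁, hζ₁, hlt⟩ := hcon
  obtain ⟨M, hM⟩ := hS.isBounded.exists_norm_le
  have hM0 : 0 ≤ M := (norm_nonneg _).trans (hM ζ₁ hζ₁)
  set τ : ℝ := (v ζ₁ - c) / (2 * (M ^ 2 + 1)) with hτ
  have hτ0 : 0 < τ := div_pos (by linarith) (by positivity)
  have hτM : τ * M ^ 2 < v ζ₁ - c := by
    have h1 : τ * (2 * (M ^ 2 + 1)) = v ζ₁ - c := by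
      rw [hτ]
      field_simp
    nlinarith [mul_nonneg hτ0.le (sq_nonneg M)]
  have hcn : Continuous (fun ζ : ℂ => τ * ‖ζ‖ ^ 2) := by fun_prop
  have hw : UpperSemicontinuousOn (fun ζ => v ζ + τ * ‖ζ‖ ^ 2) S :=
    hv.add hcn.continuousOn.upperSemicontinuousOn
  obtain ⟨ζ₀, hζ₀, hmax⟩ := hw.exists_isMaxOn ⟨ζ₁, hζ₁⟩ hS
  have hmax' : ∀ ζ ∈ S, v ζ + τ * ‖ζ‖ ^ 2 ≤ v ζ₀ + τ * ‖ζ₀‖ ^ 2 := fun ζ hζ => hmax hζ
  have h0 : ‖ζ₀‖ ^ 2 ≤ M ^ 2 := pow_le_pow_left₀ (norm_nonneg _) (hM ζ₀ hζ₀) 2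
  have h2 : c < v ζ₀ := by
    have h3 := hmax' ζ₁ hζ₁
    nlinarith [mul_le_mul_of_nonneg_left h0 hτ0.le, mul_nonneg hτ0.le (sq_nonneg ‖ζ₁‖)]
  have h3 : ζ₀ ∉ T := fun h => absurd (hc ζ₀ hζ₀ h) (not_le.2 h2)
  obtain ⟨hn, hfr⟩ := hloc ζ₀ hζ₀ h3
  obtain ⟨δ, hδ, hball⟩ := Metric.mem_nhds_iff.1 hn
  have hev : ∀ᶠ r in 𝓝[>] (0 : ℝ), 0 < r ∧ r < δ := by
    filter_upwards [Ioo_mem_nhdsGT hδ] with r hr using hr
  obtain ⟨r, hr, hr0, hrδ⟩ := ((hfr (τ / 2) (by positivity)).and_eventually hev).exists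
  have hsub : sphere ζ₀ |r| ⊆ S := by
    intro ζ hζ
    apply hball
    rw [mem_sphere, abs_of_pos hr0] at hζ
    rw [mem_ball, hζ]
    exact hrδ
  have hint : CircleIntegrable v ζ₀ r :=
    circleIntegrable_of_usc (hv.mono hsub) fun ζ hζ => hb ζ (hsub hζ)
  have hint2 : CircleIntegrable (fun ζ : ℂ => τ • ‖ζ‖ ^ 2) ζ₀ r := by
    have : Continuous (fun ζ : ℂ => τ • ‖ζ‖ ^ 2) := by fun_prop
    exact this.continuousOn.circleIntegrable'
  have h4 : Real.circleAverage (fun ζ => v ζ + τ • ‖ζ‖ ^ 2) ζ₀ r ≤ v ζ₀ + τ * ‖ζ₀‖ ^ 2 :=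
    Real.circleAverage_mono_on_of_le_circle (hint.add hint2) fun ζ hζ => hmax' ζ (hsub hζ)
  rw [Real.circleAverage_fun_add hint hint2, Real.circleAverage_fun_smul, circleAverage_normSq,
    smul_eq_mul] at h4
  nlinarith [mul_pos hτ0 (pow_pos hr0 2)]

end Pool.Agent.DMA
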