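import Pool.Agent.Lib.DMA.D1
import Pool.Agent.Lib.DMA.D3

/-! # Row D4: local sub-mean value inequality implies the global one (one variable)

PROOF. Let `ε > 0`, `h ≥ v` continuous with average `≤ average v + ε` (`exists_cont_above`), `p` with
`|Re p - h| ≤ ε` on the unit circle (`exists_poly_near`).  `V = v - Re p` is `≤ ε` on the circle and has
the local property (`circleAverage_poly_re`), so `V 0 ≤ ε` by `max_principle` (`S = closedBall 0 1`,
`T = sphere 0 1`); `v 0 ≤ Re (p 0) + ε = average (Re p) + ε ≤ average h + 2 ε ≤ average v + 3 ε`. -/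

set_option autoImplicit false

open scoped Topology
open Set Filter Metric

noncomputable section

namespace Pool.Agent.DMA

theorem submean_of_local {v : ℂ → ℝ} (hv : UpperSemicontinuousOn v (closedBall 0 1)) {C : ℝ}
    (hb : ∀ ζ ∈ closedBall (0 : ℂ) 1, |v ζ| ≤ C)
    (hloc : ∀ ζ ∈ ball (0 : ℂ) 1, ∀ τ > 0, ∃ᶠ r in 𝓝[>] (0 : ℝ),
      v ζ ≤ Real.circleAverage v ζ r + τ * r ^ 2) :
    v 0 ≤ Real.circleAverage v 0 1 := by
  refine le_of_forall_pos_le_add fun ε' hε' => ?_
  obtain ⟨ε, hε, hεε⟩ : ∃ ε : ℝ, 0 < ε ∧ 3 * ε = ε' := ⟨ε' / 3, by positivity, by ring⟩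
  have hsp : sphere (0 : ℂ) 1 ⊆ closedBall 0 1 := sphere_subset_closedBall
  obtain ⟨h, hcont, hvh, hav⟩ := exists_cont_above (hv.mono hsp) (fun ζ hζ => hb ζ (hsp hζ)) hε
  obtain ⟨p, hp⟩ := exists_poly_near hcont hε
  have hpc : Continuous fun ζ : ℂ => (p.eval ζ).re := Complex.continuous_re.comp p.continuous
  obtain ⟨P, hP⟩ := (isCompact_closedBall (0 : ℂ) 1).exists_bound_of_continuousOn hpc.continuousOn
  have hV : ∀ ζ ∈ closedBall (0 : ℂ) 1, v ζ + -(p.eval ζ).re ≤ ε := by
    refine max_principle (T := sphere (0 : ℂ) 1) (isCompact_closedBall _ _)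
      (v := fun ζ => v ζ + -(p.eval ζ).re) (C := C + P) ?_ ?_ ?_ ?_
    · exact hv.add hpc.neg.continuousOn.upperSemicontinuousOn
    · intro ζ hζ
      refine (abs_add_le _ _).trans (add_le_add (hb ζ hζ) ?_)
      rw [abs_neg]
      exact hP ζ hζ
    · intro ζ hζ hnot
      have hζ1 : ζ ∈ ball (0 : ℂ) 1 := by
        rw [mem_ball]
        rw [mem_closedBall] at hζ
        exact lt_of_le_of_ne hζ fun h => hnot h
      refine ⟨mem_of_superset (isOpen_ball.mem_nhds hζ1) ball_subset_closedBall, fun τ hτ => ?_⟩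
      obtain ⟨δ, hδ, hball⟩ := Metric.mem_nhds_iff.1 (isOpen_ball.mem_nhds hζ1)
      have hev : ∀ᶠ r in 𝓝[>] (0 : ℝ), 0 < r ∧ r < δ := by
        filter_upwards [Ioo_mem_nhdsGT hδ] with r hr using hr
      refine ((hloc ζ hζ1 τ hτ).and_eventually hev).mono ?_
      rintro r ⟨hr, hr0, hrδ⟩
      have hsub : sphere ζ |r| ⊆ closedBall (0 : ℂ) 1 := by
        intro ξ hξ
        apply ball_subset_closedBall
        apply hball
        rw [mem_sphere, abs_of_pos hr0] at hξ
        rw [mem_ball, hξ]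
        exact hrδ
      have hint : CircleIntegrable v ζ r :=
        circleIntegrable_of_usc (hv.mono hsub) fun ξ hξ => hb ξ (hsub hξ)
      have hint2 : CircleIntegrable (fun ξ : ℂ => (p.eval ξ).re) ζ r :=
        hpc.continuousOn.circleIntegrable'
      have h1 : Real.circleAverage (fun ξ => v ξ + -(p.eval ξ).re) ζ r =
          Real.circleAverage v ζ r - (p.eval ζ).re := by
        have h2 : (fun ξ => v ξ + -(p.eval ξ).re) = fun ξ => v ξ - (p.eval ξ).re := by
          funext ξ
          ring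
        rw [h2, Real.circleAverage_fun_sub hint hint2, circleAverage_poly_re]
      rw [h1]
      linarith
    · intro ζ _ hT
      have hζ1 : ‖ζ‖ = 1 := mem_sphere_zero_iff_norm.1 hT
      have h1 := (abs_le.1 (hp ζ hζ1)).1
      have h2 := hvh ζ hT
      linarith
  have h0 := hV 0 (mem_closedBall_self zero_le_one)
  have h1 : Real.circleAverage (fun ζ : ℂ => (p.eval ζ).re) 0 1 ≤
      Real.circleAverage (fun ζ => h ζ + ε) 0 1 := by
    refine Real.circleAverage_mono hpc.continuousOn.circleIntegrable'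
      (hcont.add continuous_const).continuousOn.circleIntegrable' fun ζ hζ => ?_
    rw [abs_one] at hζ
    have h1 := (abs_le.1 (hp ζ (mem_sphere_zero_iff_norm.1 hζ))).2
    linarith
  rw [circleAverage_poly_re, Real.circleAverage_fun_add hcont.continuousOn.circleIntegrable'
    (circleIntegrable_const _ _ _), Real.circleAverage_const] at h1
  linarith

end Pool.Agent.DMA
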