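import Pool.Agent.Lib.DMA.DDefs
import Pool.Agent.Lib.DMA.D4

/-! # Row D5: plurisubharmonicity is local

PROOF. For a disc `a + ζ b` in `Ω` put `V ζ = v (a + ζ • b)`: upper semicontinuous and bounded on
`closedBall 0 1` (the image of the closed disc is compact).  `circleAverage V ζ₀ r =
circleAverage (fun ζ => v ((a + ζ₀ • b) + ζ • b)) 0 r` (`Real.circleAverage_map_add_const`).
* `psh_of_local`: `submean_of_local`.
* `Psh.sub_small`: for small `r > 0` the disc `a + ζ (r b)`, `‖ζ‖ ≤ 1`, is in `Ω`; use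
  `Real.circleAverage_eq_circleAverage_zero_one`.
* `Psh.max_disc`: `max_principle` with `S = closedBall 0 1`, `T = sphere 0 1`.
* `psh_local`: `psh_of_local`; boundedness on a compact `L ⊆ Ω`: locally bounded + finite subcover
  (`IsCompact.induction_on`). -/

set_option autoImplicit false

open scoped Topology
open Set Filter Metric

noncomputable section

namespace Pool.Agent.DMA

open Pool.Agent.K708 (E CMfd)

variable {n : ℕ} {Ω : Set (E n)} {v : E n → ℝ}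

private theorem D5_shift (v : E n → ℝ) (a b : E n) (ζ₀ : ℂ) (r : ℝ) :
    Real.circleAverage (fun ζ : ℂ => v (a + ζ • b)) ζ₀ r =
      Real.circleAverage (fun ζ : ℂ => v ((a + ζ₀ • b) + ζ • b)) 0 r := by
  rw [← Real.circleAverage_map_add_const]
  congr 1
  funext ζ
  rw [add_smul, add_comm (ζ • b), add_assoc]

private theorem D5_cont (a b : E n) : Continuous fun ζ : ℂ => a + ζ • b := by fun_prop

private theorem D5_usc (husc : UpperSemicontinuousOn v Ω) {a b : E n} {S : Set ℂ}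
    (h : ∀ ζ ∈ S, a + ζ • b ∈ Ω) : UpperSemicontinuousOn (fun ζ : ℂ => v (a + ζ • b)) S :=
  husc.comp (D5_cont a b).continuousOn h

private theorem D5_bdd (hbdd : ∀ K ⊆ Ω, IsCompact K → ∃ C, ∀ z ∈ K, |v z| ≤ C) {a b : E n}
    {S : Set ℂ} (hS : IsCompact S) (h : ∀ ζ ∈ S, a + ζ • b ∈ Ω) :
    ∃ C, ∀ ζ ∈ S, |v (a + ζ • b)| ≤ C := by
  obtain ⟨C, hC⟩ := hbdd ((fun ζ : ℂ => a + ζ • b) '' S) (by
    rintro _ ⟨ζ, hζ, rfl⟩
    exact h ζ hζ) (hS.image (D5_cont a b))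
  exact ⟨C, fun ζ hζ => hC _ ⟨ζ, hζ, rfl⟩⟩

theorem psh_of_local (husc : UpperSemicontinuousOn v Ω)
    (hbdd : ∀ K ⊆ Ω, IsCompact K → ∃ C, ∀ z ∈ K, |v z| ≤ C)
    (hloc : ∀ a ∈ Ω, ∀ b : E n, ∀ τ > 0, ∃ᶠ r in 𝓝[>] (0 : ℝ),
      v a ≤ Real.circleAverage (fun ζ : ℂ => v (a + ζ • b)) 0 r + τ * r ^ 2) : Psh Ω v := by
  refine ⟨husc, hbdd, fun a b h => ?_⟩
  have h' : ∀ ζ ∈ closedBall (0 : ℂ) 1, a + ζ • b ∈ Ω := fun ζ hζ =>
    h ζ (mem_closedBall_zero_iff.1 hζ)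
  obtain ⟨C, hC⟩ := D5_bdd hbdd (isCompact_closedBall (0 : ℂ) 1) h'
  have h1 := submean_of_local (v := fun ζ : ℂ => v (a + ζ • b)) (D5_usc husc h') hC
    (fun ζ hζ τ hτ => by
      refine (hloc (a + ζ • b) (h' ζ (ball_subset_closedBall hζ)) b τ hτ).mono fun r hr => ?_
      rw [D5_shift]
      exact hr)
  simpa using h1

theorem Psh.circleIntegrable (hv : Psh Ω v) {a b : E n} {r : ℝ}
    (h : ∀ ζ : ℂ, ‖ζ‖ = |r| → a + ζ • b ∈ Ω) :
    CircleIntegrable (fun ζ : ℂ => v (a + ζ • b)) 0 r := by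
  have h' : ∀ ζ ∈ sphere (0 : ℂ) |r|, a + ζ • b ∈ Ω := fun ζ hζ =>
    h ζ (mem_sphere_zero_iff_norm.1 hζ)
  obtain ⟨C, hC⟩ := D5_bdd hv.bdd (isCompact_sphere (0 : ℂ) |r|) h'
  exact circleIntegrable_of_usc (D5_usc hv.usc h') hC

/-- The sub-mean value inequality with a radius. -/
theorem Psh.sub_radius (hv : Psh Ω v) {a b : E n} {r : ℝ} (hr : 0 ≤ r)
    (h : ∀ ζ : ℂ, ‖ζ‖ ≤ r → a + ζ • b ∈ Ω) :
    v a ≤ Real.circleAverage (fun ζ : ℂ => v (a + ζ • b)) 0 r := by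
  have h1 := hv.sub a ((r : ℂ) • b) (fun ζ hζ => by
    rw [smul_smul]
    apply h
    rw [norm_mul, Complex.norm_real, Real.norm_eq_abs, abs_of_nonneg hr]
    exact mul_le_of_le_one_left hr hζ)
  rw [Real.circleAverage_eq_circleAverage_zero_one]
  have e : (fun z : ℂ => v (a + ((r : ℂ) * z + 0) • b)) =
      fun ζ : ℂ => v (a + ζ • (r : ℂ) • b) := by
    funext z
    rw [add_zero, smul_smul, mul_comm]
  rw [e]
  exact h1

theorem Psh.sub_small (hv : Psh Ω v) {a : E n} (ha : Ω ∈ 𝓝 a) (b : E n) :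
    ∀ᶠ r in 𝓝[>] (0 : ℝ), v a ≤ Real.circleAverage (fun ζ : ℂ => v (a + ζ • b)) 0 r := by
  have h1 : Tendsto (fun ζ : ℂ => a + ζ • b) (𝓝 0) (𝓝 a) := by
    have h2 := (D5_cont a b).tendsto 0
    rwa [zero_smul, add_zero] at h2
  obtain ⟨ε, hε, h3⟩ := Metric.eventually_nhds_iff.1 (h1.eventually ha)
  filter_upwards [Ioo_mem_nhdsGT hε] with r hr
  refine hv.sub_radius hr.1.le fun ζ hζ => h3 ?_
  rw [dist_zero_right]
  exact hζ.trans_lt hr.2

/-- The maximum principle on affine discs. -/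
theorem Psh.max_disc (hv : Psh Ω v) {a b : E n} (h : ∀ ζ : ℂ, ‖ζ‖ ≤ 1 → a + ζ • b ∈ Ω) {c : ℝ}
    (hc : ∀ ζ : ℂ, ‖ζ‖ = 1 → v (a + ζ • b) ≤ c) : ∀ ζ : ℂ, ‖ζ‖ ≤ 1 → v (a + ζ • b) ≤ c := by
  have h' : ∀ ζ ∈ closedBall (0 : ℂ) 1, a + ζ • b ∈ Ω := fun ζ hζ =>
    h ζ (mem_closedBall_zero_iff.1 hζ)
  obtain ⟨C, hC⟩ := D5_bdd hv.bdd (isCompact_closedBall (0 : ℂ) 1) h'
  have h1 := max_principle (S := closedBall (0 : ℂ) 1) (T := sphere (0 : ℂ) 1)
    (isCompact_closedBall _ _) (D5_usc hv.usc h') hC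
    (fun ζ hζ hζT => by
      have hlt : ‖ζ‖ < 1 := lt_of_le_of_ne (mem_closedBall_zero_iff.1 hζ)
        fun h0 => hζT (mem_sphere_zero_iff_norm.2 h0)
      refine ⟨closedBall_mem_nhds_of_mem (mem_ball_zero_iff.2 hlt), fun τ hτ => ?_⟩
      have hev : ∀ᶠ r in 𝓝[>] (0 : ℝ), v (a + ζ • b) ≤
          Real.circleAverage (fun ζ : ℂ => v (a + ζ • b)) ζ r + τ * r ^ 2 := by
        filter_upwards [Ioo_mem_nhdsGT (sub_pos.2 hlt)] with r hr
        rw [D5_shift]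
        refine le_add_of_le_of_nonneg ?_ (by positivity)
        refine hv.sub_radius hr.1.le fun ξ hξ => ?_
        rw [add_assoc, ← add_smul]
        apply h
        calc ‖ζ + ξ‖ ≤ ‖ζ‖ + ‖ξ‖ := norm_add_le _ _
          _ ≤ 1 := by linarith [hr.2]
      exact hev.frequently)
    (c := c) (fun ζ _ hζ => hc ζ (mem_sphere_zero_iff_norm.1 hζ))
  exact fun ζ hζ => h1 ζ (mem_closedBall_zero_iff.2 hζ)

theorem psh_local (h : ∀ a ∈ Ω, ∃ Ω' : Set (E n), IsOpen Ω' ∧ a ∈ Ω' ∧ Psh Ω' v) : Psh Ω v := by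
  refine psh_of_local (fun a ha => ?_) (fun K hKΩ hK => ?_) (fun a ha b τ hτ => ?_)
  · obtain ⟨Ω', hO, haO, hp⟩ := h a ha
    have h1 := hp.usc a haO
    intro y hy
    have h2 := h1 y hy
    rw [hO.nhdsWithin_eq haO] at h2
    exact h2.filter_mono nhdsWithin_le_nhds
  · refine hK.induction_on (p := fun s => ∃ C, ∀ z ∈ s, |v z| ≤ C) ⟨0, fun z hz => hz.elim⟩
      (fun s t hst => fun ⟨C, hC⟩ => ⟨C, fun z hz => hC z (hst hz)⟩)
      (fun s t => fun ⟨C, hC⟩ ⟨D, hD⟩ => ⟨max C D, fun z hz => hz.elim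
        (fun hz => (hC z hz).trans (le_max_left _ _))
        (fun hz => (hD z hz).trans (le_max_right _ _))⟩)
      (fun x hx => ?_)
    obtain ⟨Ω', hO, hxO, hp⟩ := h x (hKΩ hx)
    obtain ⟨ε, hε, hsub⟩ := Metric.nhds_basis_closedBall.mem_iff.1 (hO.mem_nhds hxO)
    obtain ⟨C, hC⟩ := hp.bdd (closedBall x ε) hsub (isCompact_closedBall x ε)
    exact ⟨closedBall x ε, mem_nhdsWithin_of_mem_nhds (closedBall_mem_nhds x hε), C, hC⟩
  · obtain ⟨Ω', hO, haO, hp⟩ := h a ha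
    have hev := hp.sub_small (hO.mem_nhds haO) b
    refine (hev.mono fun r hr => ?_).frequently
    exact le_add_of_le_of_nonneg hr (by positivity)

end Pool.Agent.DMA
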