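import Pool.Agent.Lib.DMA.D7
import Pool.Agent.Lib.DMA.D8

/-! # Row D9: adding a large multiple of `‖z‖^2`

PROOF. Let `L` be a compact neighbourhood of `K` in `Ω`; `‖D2 f‖ ≤ M` on `L` (continuous); with
`C = M` and the sup norm `‖b‖^2 ≤ ∑ ‖b j‖^2`:  `levi (C ∑ ‖z j‖^2 + f) z b ≥ 4 C ∑ ‖b j‖^2 - 2 M ‖b‖^2 ≥ 0`
(`levi_le`, `levi_normSq`, `levi_add`, `levi_const_mul`); `psh_of_levi` on `interior L`. -/

set_option autoImplicit false

open scoped Topology ComplexOrder ContDiff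
open Set Filter Metric

noncomputable section

namespace Pool.Agent.DMA

open Pool.Agent.K708 (E CMfd)

variable {n : ℕ} {f : E n → ℝ} {Ω : Set (E n)}

theorem continuousOn_D2 (hΩ : IsOpen Ω) (hf : ContDiffOn ℝ 2 f Ω) : ContinuousOn (D2 f) Ω := by
  have h1 : ContDiffOn ℝ 1 (fderiv ℝ f) Ω := hf.fderiv_of_isOpen hΩ (by norm_num)
  have h2 : ContDiffOn ℝ 0 (fderiv ℝ (fderiv ℝ f)) Ω := h1.fderiv_of_isOpen hΩ (by norm_num)
  exact h2.continuousOn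

theorem norm_sq_le_sum (b : E n) : ‖b‖ ^ 2 ≤ ∑ j, ‖b j‖ ^ 2 := by
  have h0 : 0 ≤ ∑ j, ‖b j‖ ^ 2 := Finset.sum_nonneg fun j _ => sq_nonneg _
  have h1 : ‖b‖ ≤ Real.sqrt (∑ j, ‖b j‖ ^ 2) := by
    rw [pi_norm_le_iff_of_nonneg (Real.sqrt_nonneg _)]
    intro j
    apply Real.le_sqrt_of_sq_le
    exact Finset.single_le_sum (f := fun j => ‖b j‖ ^ 2) (fun j _ => sq_nonneg _)
      (Finset.mem_univ j)
  calc ‖b‖ ^ 2 ≤ Real.sqrt (∑ j, ‖b j‖ ^ 2) ^ 2 := by gcongr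
    _ = _ := Real.sq_sqrt h0

theorem contDiff_sum_normSq : ContDiff ℝ 2 (fun w : E n => ∑ j, ‖w j‖ ^ 2) := by
  apply ContDiff.sum
  intro j _
  exact (contDiff_norm_sq ℝ).comp (contDiff_apply ℝ ℂ j)

theorem levi_smul_real (f : E n → ℝ) (z b : E n) (t : ℝ) :
    levi f z (t • b) = t ^ 2 * levi f z b := by
  simp only [levi]
  rw [smul_comm Complex.I t b]
  simp only [map_smul, _root_.smul_apply, smul_eq_mul]
  ring

theorem exists_D2_bound (hΩ : IsOpen Ω) (hf : ContDiffOn ℝ 2 f Ω) {L : Set (E n)}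
    (hL : IsCompact L) (hLΩ : L ⊆ Ω) : ∃ M : ℝ, ∀ z ∈ L, ‖D2 f z‖ ≤ M := by
  have h0 : Continuous (fun B : E n →L[ℝ] E n →L[ℝ] ℝ => ‖B‖) :=
    continuous_norm (E := E n →L[ℝ] E n →L[ℝ] ℝ)
  have h1 : ContinuousOn (fun z => ‖D2 f z‖) L :=
    h0.comp_continuousOn ((continuousOn_D2 hΩ hf).mono hLΩ)
  obtain ⟨M, hM⟩ := hL.exists_bound_of_continuousOn h1
  exact ⟨M, fun z hz => (le_abs_self _).trans (by simpa using hM z hz)⟩

theorem exists_add_normSq (hΩ : IsOpen Ω) (hf : ContDiffOn ℝ 2 f Ω) {K : Set (E n)}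
    (hK : IsCompact K) (hKΩ : K ⊆ Ω) :
    ∃ C : ℝ, 0 ≤ C ∧ ∃ Ω' : Set (E n), IsOpen Ω' ∧ K ⊆ Ω' ∧ Ω' ⊆ Ω ∧
      Psh Ω' (fun z => C * ∑ j, ‖z j‖ ^ 2 + f z) := by
  obtain ⟨L, hL, hKL, hLΩ⟩ := exists_compact_between hK hΩ hKΩ
  obtain ⟨M, hM⟩ := exists_D2_bound hΩ hf hL hLΩ
  refine ⟨max M 0, le_max_right _ _, interior L, isOpen_interior, hKL,
    interior_subset.trans hLΩ, ?_⟩
  have hsub : interior L ⊆ Ω := interior_subset.trans hLΩ
  apply psh_of_levi isOpen_interior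
  · exact (contDiffOn_const.mul contDiff_sum_normSq.contDiffOn).add (hf.mono hsub)
  · intro z hz b
    have hzΩ := hsub hz
    have hfz : ContDiffAt ℝ 2 f z := hf.contDiffAt (hΩ.mem_nhds hzΩ)
    rw [levi_add (contDiffAt_const.mul contDiff_sum_normSq.contDiffAt) hfz,
      levi_const_mul contDiff_sum_normSq.contDiffAt, levi_normSq]
    have h1 := levi_le f z b
    have h2 := norm_sq_le_sum b
    have h3 : ‖D2 f z‖ ≤ max M 0 := (hM z (interior_subset hz)).trans (le_max_left _ _)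
    have h4 : 0 ≤ max M 0 := le_max_right _ _
    have h5 := (abs_le.1 h1).1
    have h6 : 2 * ‖D2 f z‖ * ‖b‖ ^ 2 ≤ 2 * max M 0 * ∑ j, ‖b j‖ ^ 2 := by
      gcongr
    have h7 : 0 ≤ max M 0 * ∑ j, ‖b j‖ ^ 2 :=
      mul_nonneg h4 (Finset.sum_nonneg fun j _ => sq_nonneg _)
    linarith

/-- `C ρ + f` is psh if `ρ` is strictly psh. -/
theorem exists_add_strict (hΩ : IsOpen Ω) (hf : ContDiffOn ℝ 2 f Ω) {ρ : E n → ℝ}
    (hρ : ContDiffOn ℝ 2 ρ Ω) (hpos : ∀ z ∈ Ω, (CH ρ z).PosDef) {K : Set (E n)}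
    (hK : IsCompact K) (hKΩ : K ⊆ Ω) :
    ∃ C : ℝ, 0 ≤ C ∧ ∃ Ω' : Set (E n), IsOpen Ω' ∧ K ⊆ Ω' ∧ Ω' ⊆ Ω ∧
      Psh Ω' (fun z => C * ρ z + f z) := by
  obtain ⟨L, hL, hKL, hLΩ⟩ := exists_compact_between hK hΩ hKΩ
  obtain ⟨M, hM⟩ := exists_D2_bound hΩ hf hL hLΩ
  have hsub : interior L ⊆ Ω := interior_subset.trans hLΩ
  obtain ⟨c, hc, hcb⟩ : ∃ c : ℝ, 0 < c ∧ ∀ z ∈ L, ∀ b : E n, ‖b‖ = 1 → c ≤ levi ρ z b := by
    have hS : IsCompact (L ×ˢ sphere (0 : E n) 1) := hL.prod (isCompact_sphere _ _)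
    have hcont : ContinuousOn (fun q : E n × E n => levi ρ q.1 q.2) (L ×ˢ sphere (0 : E n) 1) := by
      have h1 : ContinuousOn (fun q : E n × E n => D2 ρ q.1) (L ×ˢ sphere (0 : E n) 1) :=
        ((continuousOn_D2 hΩ hρ).mono hLΩ).comp continuousOn_fst (fun q hq => hq.1)
      have h2 : ContinuousOn (fun q : E n × E n => q.2) (L ×ˢ sphere (0 : E n) 1) :=
        continuousOn_snd
      have h3 : ContinuousOn (fun q : E n × E n => Complex.I • q.2) (L ×ˢ sphere (0 : E n) 1) :=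
        (continuous_const_smul Complex.I).comp_continuousOn h2
      exact ((h1.clm_apply h2).clm_apply h2).add ((h1.clm_apply h3).clm_apply h3)
    rcases (L ×ˢ sphere (0 : E n) 1).eq_empty_or_nonempty with he | hne
    · refine ⟨1, one_pos, fun z hz b hb => ?_⟩
      exfalso
      have : (z, b) ∈ L ×ˢ sphere (0 : E n) 1 := ⟨hz, by simpa using hb⟩
      rw [he] at this
      exact this
    · obtain ⟨q, hq, hmin⟩ := hS.exists_isMinOn hne hcont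
      have hb0 : q.2 ≠ 0 := by
        intro h0
        have := hq.2
        simp [h0] at this
      refine ⟨levi ρ q.1 q.2, ?_, fun z hz b hb => ?_⟩
      · exact (CH_pd_levi (hρ.contDiffAt (hΩ.mem_nhds (hLΩ hq.1)))).1 (hpos _ (hLΩ hq.1)) _ hb0
      · have : (z, b) ∈ L ×ˢ sphere (0 : E n) 1 := ⟨hz, by simpa using hb⟩
        exact hmin this
  have hcb' : ∀ z ∈ L, ∀ b : E n, c * ‖b‖ ^ 2 ≤ levi ρ z b := by
    intro z hz b
    rcases eq_or_ne b 0 with rfl | hb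
    · simp [levi]
    · have hb' : ‖b‖ ≠ 0 := norm_ne_zero_iff.2 hb
      have h1 : ‖(‖b‖⁻¹ : ℝ) • b‖ = 1 := by
        rw [norm_smul, norm_inv, norm_norm, inv_mul_cancel₀ hb']
      have h2 := hcb z hz _ h1
      rw [levi_smul_real] at h2
      have h3 : 0 < ‖b‖ ^ 2 := by positivity
      calc c * ‖b‖ ^ 2 ≤ (‖b‖⁻¹ ^ 2 * levi ρ z b) * ‖b‖ ^ 2 := by gcongr
        _ = levi ρ z b := by field_simp
  have h4 : 0 ≤ max M 0 := le_max_right _ _
  refine ⟨2 * max M 0 / c, by positivity, interior L, isOpen_interior, hKL, hsub, ?_⟩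
  apply psh_of_levi isOpen_interior
  · exact (contDiffOn_const.mul (hρ.mono hsub)).add (hf.mono hsub)
  · intro z hz b
    have hzΩ := hsub hz
    have hfz : ContDiffAt ℝ 2 f z := hf.contDiffAt (hΩ.mem_nhds hzΩ)
    have hρz : ContDiffAt ℝ 2 ρ z := hρ.contDiffAt (hΩ.mem_nhds hzΩ)
    rw [levi_add (contDiffAt_const.mul hρz) hfz, levi_const_mul hρz]
    have h1 := levi_le f z b
    have h3 : ‖D2 f z‖ ≤ max M 0 := (hM z (interior_subset hz)).trans (le_max_left _ _)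
    have h5 := (abs_le.1 h1).1
    have h6 : 2 * ‖D2 f z‖ * ‖b‖ ^ 2 ≤ 2 * max M 0 * ‖b‖ ^ 2 := by
      gcongr
    have h7 : 2 * max M 0 / c * (c * ‖b‖ ^ 2) ≤ 2 * max M 0 / c * levi ρ z b := by
      have := hcb' z (interior_subset hz) b
      gcongr
    have h8 : 2 * max M 0 / c * (c * ‖b‖ ^ 2) = 2 * max M 0 * ‖b‖ ^ 2 := by
      field_simp
    linarith

end Pool.Agent.DMA
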