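import Pool.Agent.Lib.DMA.DTend

/-!
# The pairing is affine
-/

set_option autoImplicit false

namespace Pool.Agent.DMA

open MeasureTheory Filter Topology Set
open scoped ENNReal

variable {X : Type} [TopologicalSpace X] [CompactSpace X] [TopologicalSpace.MetrizableSpace X]
  [MeasurableSpace X] [BorelSpace X] {n : ℕ} (T : SMA X n)

namespace DAffAux

omit [CompactSpace X] [TopologicalSpace.MetrizableSpace X] [BorelSpace X] in
theorem exists_dec {u : X → ℝ} (hu : u ∈ T.P) :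
    ∃ s : ℕ → X → ℝ, T.Dec s u ∧ ∀ j, s j ∈ T.P0 := by
  obtain ⟨s, h0, ha, hl⟩ := T.reg u hu
  exact ⟨s, ⟨fun j => T.P0_P (h0 j), ha, hl, hu⟩, h0⟩

omit [CompactSpace X] [TopologicalSpace.MetrizableSpace X] [BorelSpace X] in
theorem exists_q (m : Multiset (X → ℝ)) (hm : T.In m) :
    ∃ q : Multiset ((ℕ → X → ℝ) × (X → ℝ)), (q.map fun p => p.2) = m ∧
      ∀ p ∈ q, T.Dec p.1 p.2 ∧ ∀ j, p.1 j ∈ T.P0 := by
  induction m using Multiset.induction with
  | empty => exact ⟨0, by simp, by simp⟩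
  | cons u m ih =>
    obtain ⟨q, hq, hp⟩ := ih fun v hv => hm v (Multiset.mem_cons_of_mem hv)
    obtain ⟨s, hs, h0⟩ := exists_dec T (hm u (Multiset.mem_cons_self u m))
    refine ⟨(s, u) ::ₘ q, by rw [Multiset.map_cons, hq], fun p hpq => ?_⟩
    rcases Multiset.mem_cons.1 hpq with rfl | h
    · exact ⟨hs, h0⟩
    · exact hp p h

/-- the limit of the pairing with one more entry -/
theorem tend {q : Multiset ((ℕ → X → ℝ) × (X → ℝ))} (hc : q.card = n)
    (hq : ∀ p ∈ q, T.Dec p.1 p.2 ∧ ∀ j, p.1 j ∈ T.P0) {s : ℕ → X → ℝ} {u : X → ℝ}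
    (hs : T.Dec s u) (h0 : ∀ j, s j ∈ T.P0) :
    Tendsto (fun j => T.D0 (s j ::ₘ q.map fun p => p.1 j)) atTop
      (𝓝 (T.D (u ::ₘ q.map fun p => p.2))) := by
  have h := T.D_tendsto (q := (s, u) ::ₘ q) (by rw [Multiset.card_cons, hc]) fun p hp => by
    rcases Multiset.mem_cons.1 hp with rfl | h
    · exact hs
    · exact (hq p h).1
  simp only [Multiset.map_cons] at h
  refine h.congr fun j => ?_
  refine T.D_eq (by rw [Multiset.card_cons, Multiset.card_map, hc]) fun v hv => ?_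
  rcases Multiset.mem_cons.1 hv with rfl | h
  · exact h0 j
  · obtain ⟨p, hp, rfl⟩ := Multiset.mem_map.1 h
    exact (hq p hp).2 j

end DAffAux

open DAffAux

theorem SMA.D_affine {m : Multiset (X → ℝ)} (hc : m.card = n) (hm : T.In m) {u v : X → ℝ}
    (hu : u ∈ T.P) (hv : v ∈ T.P) {t : ℝ} (ht : t ∈ Icc (0 : ℝ) 1) :
    T.D ((fun x => t * u x + (1 - t) * v x) ::ₘ m) =
      t * T.D (u ::ₘ m) + (1 - t) * T.D (v ::ₘ m) := by
  obtain ⟨q, rfl, hq⟩ := exists_q T m hm
  rw [Multiset.card_map] at hc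
  obtain ⟨s, hs, hs0⟩ := exists_dec T hu
  obtain ⟨r, hr, hr0⟩ := exists_dec T hv
  have ht1 : 0 ≤ 1 - t := sub_nonneg.2 ht.2
  have hdec : T.Dec (fun j x => t * s j x + (1 - t) * r j x)
      (fun x => t * u x + (1 - t) * v x) := by
    refine ⟨fun j => T.convex_P _ (hs.mem j) _ (hr.mem j) t ht, fun i j hij x => ?_,
      fun x => ?_, T.convex_P u hu v hv t ht⟩
    · exact add_le_add (mul_le_mul_of_nonneg_left (hs.anti hij x) ht.1)
        (mul_le_mul_of_nonneg_left (hr.anti hij x) ht1)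
    · exact ((hs.lim x).const_mul t).add ((hr.lim x).const_mul (1 - t))
  have h1 := tend T hc hq hdec fun j => T.convex_P0 _ (hs0 j) _ (hr0 j) t ht
  have h2 := ((tend T hc hq hs hs0).const_mul t).add ((tend T hc hq hr hr0).const_mul (1 - t))
  refine tendsto_nhds_unique h1 (h2.congr fun j => ?_)
  refine (T.D0_affine (by rw [Multiset.card_map, hc]) (fun w hw => ?_) (hs0 j) (hr0 j) ht).symm
  obtain ⟨p, hp, rfl⟩ := Multiset.mem_map.1 hw
  exact (hq p hp).2 j

/-- Adding a constant to one entry. -/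
theorem SMA.D_addc {m : Multiset (X → ℝ)} (hc : m.card = n) (hm : T.In m) {u : X → ℝ}
    (hu : u ∈ T.P) (c : ℝ) :
    T.D ((fun x => u x + c) ::ₘ m) = T.D (u ::ₘ m) + c * T.V := by
  obtain ⟨q, rfl, hq⟩ := exists_q T m hm
  rw [Multiset.card_map] at hc
  obtain ⟨s, hs, hs0⟩ := exists_dec T hu
  have hdec : T.Dec (fun j x => s j x + c) (fun x => u x + c) := by
    refine ⟨fun j => T.const_P _ (hs.mem j) c, fun i j hij x => ?_, fun x => ?_,
      T.const_P u hu c⟩
    · exact add_le_add (hs.anti hij x) le_rfl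
    · exact (hs.lim x).add_const c
  have h1 := tend T hc hq hdec fun j => T.const_P0 _ (hs0 j) c
  have h2 := (tend T hc hq hs hs0).add_const (c * T.V)
  refine tendsto_nhds_unique h1 (h2.congr fun j => ?_)
  have hin : T.In0 (q.map fun p => p.1 j) := fun w hw => by
    obtain ⟨p, hp, rfl⟩ := Multiset.mem_map.1 hw
    exact (hq p hp).2 j
  have hcard : (q.map fun p => p.1 j).card = n := by rw [Multiset.card_map, hc]
  have h3 := T.D0_cons hcard hin (T.const_P0 _ (hs0 j) c) (hs0 j)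
  have h4 : ∫ x, (s j x + c - s j x) ∂T.M0 (q.map fun p => p.1 j) = c * T.V := by
    have e : ∀ x, s j x + c - s j x = c := fun x => by ring
    simp only [e]
    rw [integral_const, Measure.real, T.mass _ hcard hin, ENNReal.toReal_ofReal T.V_pos.le,
      smul_eq_mul, mul_comm]
  rw [h4] at h3
  linarith

end Pool.Agent.DMA
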