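import Pool.Agent.Lib.DMA.Defs

/-! # DMA, sections D and E: auxiliary definitions (no proofs) -/

set_option autoImplicit false

open scoped Manifold ContDiff Topology ComplexOrder Convolution
open Set Filter MeasureTheory Metric

noncomputable section

namespace Pool.Agent.DMA

open Pool.Agent.K708 (E CMfd)

variable {n : ℕ}

/-- The Levi form: the Laplacian of `ζ ↦ f (z + ζ b)` at `0`. -/
def levi (f : E n → ℝ) (z b : E n) : ℝ := D2 f z b b + D2 f z (Complex.I • b) (Complex.I • b)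

/-- Supremum of `v` over the closed ball (polydisc) of radius `δ`. -/
def supc (v : E n → ℝ) (δ : ℝ) (z : E n) : ℝ := sSup (v '' closedBall z δ)

/-- The standard bump function with radii `ε/2 < ε` (`1/2 < 1` if `ε ≤ 0`). -/
def mb (n : ℕ) (ε : ℝ) : ContDiffBump (0 : E n) :=
  if h : 0 < ε then ⟨ε / 2, ε, half_pos h, half_lt_self h⟩ else ⟨1 / 2, 1, by norm_num, by norm_num⟩

/-- Mollification: `moll ε v z = ∫ t, φ_ε t * v (z - t)`. -/
def moll (ε : ℝ) (v : E n → ℝ) (z : E n) : ℝ :=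
  ∫ t, (mb n ε).normed volume t * v (z - t)

theorem mb_rOut {ε : ℝ} (h : 0 < ε) : (mb n ε).rOut = ε := by
  rw [mb, dif_pos h]

theorem mb_rIn {ε : ℝ} (h : 0 < ε) : (mb n ε).rIn = ε / 2 := by
  rw [mb, dif_pos h]

/-- Smooth functions `f` on `W` with `c ω + dd^c f ≥ 0`. -/
def SPshOn {X : CMfd n} (K : Kahler X) (c : ℝ) (W : Set X) (f : X → ℝ) : Prop :=
  ContMDiffOn 𝓘(ℝ, E n) 𝓘(ℝ, ℝ) ∞ f W ∧ ∀ x ∈ W, ((c : ℂ) • K.g x + hess f x).PosSemidef

/-- Regularised maximum of finitely many real numbers. -/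
structure RegMax {ι : Type} [Fintype ι] (ε : ℝ) (M : (ι → ℝ) → ℝ) : Prop where
  smooth : ContDiff ℝ ∞ M
  convex : ConvexOn ℝ univ M
  mono : Monotone M
  shift : ∀ (t : ι → ℝ) (c : ℝ), M (fun i => t i + c) = M t + c
  lower : ∀ (t : ι → ℝ) (i : ι), t i - ε ≤ M t
  upper : ∀ (t : ι → ℝ) (c : ℝ), (∀ i, t i ≤ c) → M t ≤ c + ε
  indep : ∀ (s t : ι → ℝ) (m : ι), s m = t m →
    (∀ i, s i = t i ∨ (s i ≤ s m - 2 * ε ∧ t i ≤ t m - 2 * ε)) → M s = M t

/-- The sup-convolution of an `ω`-psh function `u` in the chart `ψ`, with local potential `ρ`. -/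
def gsup {X : CMfd n} (ψ : OpenPartialHomeomorph X (E n)) (ρ u : X → ℝ) (δ : ℝ) (x : X) : ℝ :=
  supc (fun z => ρ (ψ.symm z) + u (ψ.symm z)) δ (ψ x) - ρ x

/-- Candidates for the Perron envelope with data `F` on the unit polydisc in the polydisc of
radius `R`. -/
def Cand (R : ℝ) (F g : E n → ℝ) : Prop :=
  Psh (ball (0 : E n) R) g ∧ ∀ z ∈ ball (0 : E n) R, z ∉ ball (0 : E n) 1 → g z ≤ F z

/-- `U` is the Perron envelope. -/
structure Env (R : ℝ) (F U : E n → ℝ) : Prop where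
  cand : Cand R F U
  cont : ContinuousOn U (ball 0 R)
  eq : ∀ z ∈ ball (0 : E n) R, z ∉ ball (0 : E n) 1 → U z = F z
  max : ∀ g, Cand R F g → ∀ z ∈ ball (0 : E n) R, g z ≤ U z

/-- The automorphism of the unit polydisc (for small `h`) with `mob a h a = a + h`. -/
def mob (a h z : E n) : E n := fun j =>
  ((((1 - ‖a j‖ ^ 2 : ℝ) : ℂ) - starRingEnd ℂ (a j) * h j) * z j + h j) /
    ((((1 - ‖a j‖ ^ 2 : ℝ) : ℂ) - a j * starRingEnd ℂ (h j)) + z j * starRingEnd ℂ (h j))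

end Pool.Agent.DMA
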