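import Pool.Agent.Lib.DMA.D22

/-! # DMA, section D: final statements (replace the sorried ones of Iface.lean) -/

set_option autoImplicit false

open scoped Manifold ContDiff Topology ComplexOrder
open Set Filter Metric

noncomputable section

namespace Pool.Agent.DMA

open Pool.Agent.K708 (E CMfd)

variable {n : ℕ}

/-- Blocki–Kolodziej regularisation. -/
theorem bk (_ : 0 < n) {X : CMfd n} (hX : CompactSpace X) (K : Kahler X) {u : X → ℝ} (hu : BPsh K u)
    {h : X → ℝ} (hh : Continuous h) (hlt : ∀ x, u x < h x) :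
    ∃ w, SPsh K w ∧ ∀ x, u x < w x ∧ w x < h x :=
  bk_main hX K hu hh hlt

theorem SPsh.bpsh (_ : 0 < n) {X : CMfd n} (hX : CompactSpace X) {K : Kahler X} {u : X → ℝ}
    (hu : SPsh K u) : BPsh K u :=
  SPsh.bpsh' hX hu

theorem bpsh_of_dec (_ : 0 < n) {X : CMfd n} (_ : CompactSpace X) {K : Kahler X} {u : X → ℝ}
    {f : ℕ → X → ℝ} (hf : ∀ j, BPsh K (f j)) (ha : ∀ x, Antitone fun j => f j x)
    (hl : ∀ x, Tendsto (fun j => f j x) atTop (𝓝 (u x))) (hb : ∃ c, ∀ x, c ≤ u x) :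
    BPsh K u :=
  bpsh_of_dec' hf ha hl hb

theorem BPsh.addc {X : CMfd n} {K : Kahler X} {u : X → ℝ} (hu : BPsh K u) (c : ℝ) :
    BPsh K (fun x => u x + c) :=
  hu.addc' c

theorem BPsh.convex {X : CMfd n} {K : Kahler X} {u v : X → ℝ} (hu : BPsh K u) (hv : BPsh K v)
    {t : ℝ} (ht : t ∈ Icc (0 : ℝ) 1) : BPsh K (fun x => t * u x + (1 - t) * v x) :=
  hu.convex' hv ht

theorem BPsh.max {X : CMfd n} {K : Kahler X} {u v : X → ℝ} (hu : BPsh K u) (hv : BPsh K v) :
    BPsh K (fun x => Max.max (u x) (v x)) :=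
  hu.max' hv

end Pool.Agent.DMA
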