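import Pool.Agent.Lib.DMA.Dini

/-!
# Continuity of the pairing along decreasing sequences
-/

set_option autoImplicit false

namespace Pool.Agent.DMA

open MeasureTheory Filter Topology Set
open scoped ENNReal

variable {X : Type} [TopologicalSpace X] [CompactSpace X] [TopologicalSpace.MetrizableSpace X]
  [MeasurableSpace X] [BorelSpace X] {n : ℕ} (T : SMA X n)

namespace DTendAux

variable {T}

private lemma dec_le {u : ℕ → X → ℝ} {v : X → ℝ} (h : T.Dec u v) (j : ℕ) : v ≤ u j := by
  intro x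
  have h1 : Antitone fun j => u j x := fun a b hab => h.anti hab x
  exact h1.le_of_tendsto (h.lim x) j

private lemma maj_in0 {m m' : Multiset (X → ℝ)} (h : T.Maj m m') : T.In0 m' := by
  unfold SMA.Maj at h
  induction h with
  | zero => intro u hu; exact absurd hu (Multiset.notMem_zero u)
  | cons hr _ ih =>
    intro u hu
    rcases Multiset.mem_cons.mp hu with rfl | hu
    · exact hr.1
    · exact ih u hu

private lemma ev_rel {q : Multiset ((ℕ → X → ℝ) × (X → ℝ))} {m' : Multiset (X → ℝ)}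
    (h : Multiset.Rel (fun p v => v ∈ T.P0 ∧ p.2 ≤ v) q m') (hq : ∀ p ∈ q, T.Dec p.1 p.2)
    {δ : ℝ} (hδ : 0 < δ) :
    ∀ᶠ j in atTop, Multiset.Rel (fun p v => (fun x => v x + δ) ∈ T.P0 ∧
      p.1 j ≤ fun x => v x + δ) q m' := by
  induction h with
  | zero => exact Eventually.of_forall fun j => Multiset.Rel.zero
  | @cons a b as bs hr _ ih =>
    have h1 := ih fun p hp => hq p (Multiset.mem_cons_of_mem hp)
    have h2 := T.dini (hq a (Multiset.mem_cons_self a as)) (T.S_cont b (T.P0_S hr.1)) hr.2 hδ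
    filter_upwards [h1, h2] with j h3 h4
    exact Multiset.Rel.cons ⟨T.const_P0 b hr.1 δ, h4⟩ h3

end DTendAux

open DTendAux

/-- Continuity along decreasing sequences. `q` is a multiset of pairs (sequence, limit). -/
theorem SMA.D_tendsto {q : Multiset ((ℕ → X → ℝ) × (X → ℝ))} (hc : q.card = n + 1)
    (hq : ∀ p ∈ q, T.Dec p.1 p.2) :
    Tendsto (fun j => T.D (q.map fun p => p.1 j)) atTop (𝓝 (T.D (q.map fun p => p.2))) := by
  have hcj : ∀ j, (q.map fun p => p.1 j).card = n + 1 := fun j => by rw [Multiset.card_map, hc]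
  have hcl : (q.map fun p => p.2).card = n + 1 := by rw [Multiset.card_map, hc]
  have hinj : ∀ j, T.In (q.map fun p => p.1 j) := by
    intro j u hu
    obtain ⟨p, hp, rfl⟩ := Multiset.mem_map.mp hu
    exact (hq p hp).mem j
  have hinl : T.In (q.map fun p => p.2) := by
    intro u hu
    obtain ⟨p, hp, rfl⟩ := Multiset.mem_map.mp hu
    exact (hq p hp).lim_mem
  have hlow : ∀ j, T.D (q.map fun p => p.2) ≤ T.D (q.map fun p => p.1 j) := by
    intro j
    refine T.D_mono hcl hinl (hinj j) ?_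
    rw [Multiset.rel_map]
    exact Multiset.rel_refl_of_refl_on fun p hp => dec_le (hq p hp) j
  rw [Metric.tendsto_atTop]
  intro ε hε
  have hV := T.V_pos
  have hn : (0 : ℝ) < (n : ℝ) + 1 := by positivity
  set δ : ℝ := ε / 2 / (((n : ℝ) + 1) * T.V) with hδ
  have hδ0 : 0 < δ := by positivity
  have hδ' : ((n : ℝ) + 1) * δ * T.V = ε / 2 := by
    rw [hδ]
    field_simp
  obtain ⟨_, ⟨m', hm', rfl⟩, hlt⟩ := exists_lt_of_csInf_lt ((T.maj_nonempty hinl).image T.D0)
    (show sInf (T.D0 '' {m' | T.Maj (q.map fun p => p.2) m'})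
      < T.D (q.map fun p => p.2) + ε / 2 from lt_add_of_pos_right _ (half_pos hε))
  have hmaj : T.Maj (q.map fun p => p.2) m' := hm'
  have hin0 := maj_in0 hmaj
  have hcm : m'.card = n + 1 := by
    rw [← hcl]
    exact (Multiset.card_eq_card_of_rel hmaj).symm
  have hrel : Multiset.Rel (fun p v => v ∈ T.P0 ∧ p.2 ≤ v) q m' := by
    have := hmaj
    unfold SMA.Maj at this
    rwa [Multiset.rel_map_left] at this
  obtain ⟨N, hN⟩ := eventually_atTop.mp (ev_rel hrel hq hδ0)
  refine ⟨N, fun j hj => ?_⟩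
  have h1 := hN j hj
  have h2 : T.Maj (q.map fun p => p.1 j) (m'.map fun v x => v x + δ) := by
    unfold SMA.Maj
    rw [Multiset.rel_map]
    exact h1
  have h3 : T.D (q.map fun p => p.1 j) ≤ T.D0 (m'.map fun v x => v x + δ) :=
    csInf_le (T.D_bddBelow (hcj j) (hinj j)) ⟨_, h2, rfl⟩
  rw [T.D0_addc hcm hin0, hδ'] at h3
  rw [Real.dist_eq, abs_of_nonneg (by linarith [hlow j])]
  linarith

end Pool.Agent.DMA
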