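import Mathlib

/-! # DMA: truncations of functions with values in `[-∞, ∞)` -/

set_option autoImplicit false

open Set Filter

noncomputable section

namespace Pool.Agent.DMA

/-- Truncation `max (φ, -t)` as a real function. -/
def tr {X : Type*} (t : ℝ) (φ : X → EReal) (x : X) : ℝ := (max (φ x) ((-t : ℝ) : EReal)).toReal

end Pool.Agent.DMA
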