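import Pool.Agent.Lib.K708.Base
import Pool.Agent.Lib.DMA.TrDef

/-! # DMA: definitions used in the statement

Compact Kähler manifolds, `ω`-plurisubharmonic functions, Monge–Ampère measures, the domain of
definition `DMA(X, ω)`, the class `E(X, ω)`.

`E n = Fin n → ℂ`; complex manifolds are Mathlib manifolds (`CMfd n`). -/

set_option autoImplicit false

open scoped Manifold ContDiff Topology ComplexOrder
open Set Filter MeasureTheory

noncomputable section

namespace Pool.Agent.DMA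

open Pool.Agent.K708 (E CMfd)

variable {n : ℕ}

/-! ## Calculus on `ℂⁿ` -/

/-- Second real derivative. -/
def D2 (f : E n → ℝ) (z : E n) : E n →L[ℝ] E n →L[ℝ] ℝ := fderiv ℝ (fderiv ℝ f) z

/-- Second real derivative in the directions `u`, `v`. -/
def D2v (f : E n → ℝ) (z u v : E n) : ℝ := D2 f z u v

/-- The vector `e_j`. -/
def ej (j : Fin n) : E n := Pi.single j 1

/-- The vector `i e_j`. -/
def iej (j : Fin n) : E n := Complex.I • Pi.single j 1

/-- The complex Hessian `∂_j ∂bar_k f (z)`, in terms of second real derivatives. -/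
def CH (f : E n → ℝ) (z : E n) : Matrix (Fin n) (Fin n) ℂ := fun j k =>
  ((D2v f z (ej j) (ej k) : ℂ) + (D2v f z (iej j) (iej k) : ℂ)
    + Complex.I * ((D2v f z (ej j) (iej k) : ℂ) - (D2v f z (iej j) (ej k) : ℂ))) / 4

theorem CH_D2 (f : E n → ℝ) (z : E n) : CH f z = fun j k =>
    ((D2 f z (Pi.single j 1) (Pi.single k 1) : ℂ)
      + (D2 f z (Complex.I • Pi.single j 1) (Complex.I • Pi.single k 1) : ℂ)
      + Complex.I * ((D2 f z (Pi.single j 1) (Complex.I • Pi.single k 1) : ℂ)
        - (D2 f z (Complex.I • Pi.single j 1) (Pi.single k 1) : ℂ))) / 4 := rfl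

/-- Locally bounded plurisubharmonic functions on a subset `Ω` (usually open) of `ℂⁿ`: upper
semicontinuous, locally bounded and satisfying the sub-mean value inequality on all affine closed
discs contained in `Ω`. -/
structure Psh (Ω : Set (E n)) (v : E n → ℝ) : Prop where
  usc : UpperSemicontinuousOn v Ω
  bdd : ∀ K ⊆ Ω, IsCompact K → ∃ C, ∀ z ∈ K, |v z| ≤ C
  sub : ∀ a b : E n, (∀ ζ : ℂ, ‖ζ‖ ≤ 1 → a + ζ • b ∈ Ω) →
    v a ≤ Real.circleAverage (fun ζ : ℂ => v (a + ζ • b)) 0 1

/-! ## Complex manifolds -/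

/-- The holomorphic charts. -/
abbrev CA (X : CMfd n) : Set (OpenPartialHomeomorph X (E n)) :=
  IsManifold.maximalAtlas 𝓘(ℂ, E n) ω X

/-- The complex Hessian of a function at `x`, in the preferred chart at `x`. -/
def hess {X : CMfd n} (f : X → ℝ) (x : X) : Matrix (Fin n) (Fin n) ℂ :=
  CH (f ∘ (chartAt (E n) x).symm) (chartAt (E n) x x)

/-- `ρ` is a (smooth) local potential on `U` of the Hermitian form with matrix `g x` at `x` (in the
preferred chart at `x`): `∂∂bar ρ = g` on `U`. -/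
structure IsPot {X : CMfd n} (g : X → Matrix (Fin n) (Fin n) ℂ) (U : Set X) (ρ : X → ℝ) :
    Prop where
  opn : IsOpen U
  smooth : ContMDiffOn 𝓘(ℝ, E n) 𝓘(ℝ, ℝ) ∞ ρ U
  hess : ∀ x ∈ U, hess ρ x = g x

/-- A Kähler form on `X`, given by its Hermitian matrices `g x` in the preferred chart at `x`:
positive definite and locally of the form `∂∂bar ρ`, `ρ` smooth. -/
structure Kahler (X : CMfd n) where
  g : X → Matrix (Fin n) (Fin n) ℂ
  pos : ∀ x, (g x).PosDef
  pot : ∀ x, ∃ (U : Set X) (ρ : X → ℝ), x ∈ U ∧ IsPot g U ρ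

variable {X : CMfd n} (K : Kahler X)

/-- Smooth `ω`-psh functions: `ω + dd^c u ≥ 0`. -/
def SPsh (u : X → ℝ) : Prop :=
  ContMDiff 𝓘(ℝ, E n) 𝓘(ℝ, ℝ) ∞ u ∧ ∀ x, (K.g x + hess u x).PosSemidef

/-- Bounded `ω`-psh functions: upper semicontinuous, and `ρ + u` is psh for every local potential
`ρ` of `ω`, in all holomorphic charts. -/
structure BPsh (u : X → ℝ) : Prop where
  usc : UpperSemicontinuous u
  bdd : ∃ C, ∀ x, |u x| ≤ C
  psh : ∀ (U : Set X) (ρ : X → ℝ), IsPot K.g U ρ → ∀ ψ ∈ CA X,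
    Psh (ψ.target ∩ ψ.symm ⁻¹' U) (fun z => ρ (ψ.symm z) + u (ψ.symm z))

/-- The class `PSH(X, ω)`: upper semicontinuous functions `φ : X → [-∞, ∞)`, not identically `-∞`,
all of whose truncations `max (φ, -t)` are (bounded) `ω`-psh. -/
structure OPsh (φ : X → EReal) : Prop where
  usc : UpperSemicontinuous φ
  ne_top : ∀ x, φ x ≠ ⊤
  ne_bot : ∃ x, φ x ≠ ⊥
  psh : ∀ t : ℝ, BPsh K (tr t φ)

/-- `ν` is the Monge–Ampère measure `(ω + dd^c u)^n` of the smooth function `u` (up to the universal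
constant): in every holomorphic chart `ψ` and for every local potential `ρ` it is
`det (∂∂bar (ρ + u))` times the Lebesgue measure. -/
structure IsMA (u : X → ℝ) (ν : Measure X) : Prop where
  fin : IsFiniteMeasure ν
  eq : ∀ (U : Set X) (ρ : X → ℝ), IsPot K.g U ρ → ∀ ψ ∈ CA X, ∀ f : X → ℝ, Continuous f →
    tsupport f ⊆ ψ.source ∩ U → ∫ x, f x ∂ν =
      ∫ z in ψ.target ∩ ψ.symm ⁻¹' U,
        f (ψ.symm z) * (CH (fun w => ρ (ψ.symm w) + u (ψ.symm w)) z).det.re

open Classical in
/-- The Monge–Ampère measure of a smooth function. -/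
def ma (u : X → ℝ) : Measure X := if h : ∃ ν, IsMA K u ν then h.choose else 0

/-- `φ ∈ DMA(X, ω)` with `(ω + dd^c φ)^n = μ`: for every sequence of smooth `ω`-psh functions
decreasing to `φ`, the Monge–Ampère measures converge weakly to `μ`. -/
structure InDMA (φ : X → EReal) (μ : Measure X) : Prop where
  fin : IsFiniteMeasure μ
  lim : ∀ u : ℕ → X → ℝ, (∀ j, SPsh K (u j)) → (∀ x, Antitone fun j => u j x) →
    (∀ x, Tendsto (fun j => (u j x : EReal)) atTop (𝓝 (φ x))) →
    ∀ f : X → ℝ, Continuous f → Tendsto (fun j => ∫ x, f x ∂(ma K (u j))) atTop (𝓝 (∫ x, f x ∂μ))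

open Classical in
/-- The Monge–Ampère measure of a bounded `ω`-psh function (Bedford–Taylor): the weak limit of the
Monge–Ampère measures of smooth `ω`-psh functions decreasing to it. -/
def mab (v : X → ℝ) : Measure X :=
  if h : ∃ ν, InDMA K (fun x => (v x : EReal)) ν then h.choose else 0

/-- The total mass `V`. -/
def vol : ℝ := (ma K 0).real univ

/-- `φ ∈ E(X, ω)`: the non-pluripolar measure `lim 1_{φ > -j} (ω + dd^c max (φ, -j))^n` has full
mass. -/
def FullMass (φ : X → EReal) : Prop :=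
  Tendsto (fun j : ℕ => (mab K (tr j φ)).real {x | ((-(j : ℝ) : ℝ) : EReal) < φ x}) atTop
    (𝓝 (vol K))

end Pool.Agent.DMA
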