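import Pool.Agent.Lib.DMA.PairS

/-!
# The pairing of bounded functions: Dini, monotonicity
-/

set_option autoImplicit false
set_option linter.unusedSectionVars false

namespace Pool.Agent.DMA

open MeasureTheory Filter Topology Set
open scoped ENNReal

variable {X : Type} [TopologicalSpace X] [CompactSpace X] [TopologicalSpace.MetrizableSpace X]
  [MeasurableSpace X] [BorelSpace X] {n : ℕ} (T : SMA X n)

namespace DiniAux

theorem rel_comp {α : Type} {r s : α → α → Prop} {m m' m'' : Multiset α}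
    (h : Multiset.Rel r m m') (h' : Multiset.Rel s m' m'') :
    Multiset.Rel (fun a c => ∃ b, r a b ∧ s b c) m m'' := by
  induction h generalizing m'' with
  | zero =>
    rw [Multiset.rel_zero_left] at h'
    rw [h']
    exact Multiset.Rel.zero
  | cons hab _ ih =>
    rw [Multiset.rel_cons_left] at h'
    obtain ⟨c, t, hbc, ht, rfl⟩ := h'
    exact Multiset.Rel.cons ⟨_, hab, hbc⟩ (ih ht)

theorem maj_mem {m m' : Multiset (X → ℝ)} (h : T.Maj m m') :
    ∀ v ∈ m', v ∈ T.P0 ∧ ∃ u ∈ m, u ≤ v := by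
  intro v hv
  have h1 : Multiset.Rel (flip fun u v => v ∈ T.P0 ∧ u ≤ v) m' m := Multiset.rel_flip.mpr h
  obtain ⟨u, hu, huv⟩ := Multiset.exists_mem_of_rel_of_mem h1 hv
  exact ⟨huv.1, u, hu, huv.2⟩

theorem maj_in0 {m m' : Multiset (X → ℝ)} (h : T.Maj m m') : T.In0 m' :=
  fun v hv => (maj_mem T h v hv).1

theorem maj_le {m m' : Multiset (X → ℝ)} (h : T.Maj m m') :
    Multiset.Rel (fun u v => u ≤ v) m m' :=
  Multiset.Rel.mono h (fun _ _ _ _ hab => hab.2)

theorem in_lower {m : Multiset (X → ℝ)} (hm : T.In m) : ∃ C : ℝ, ∀ u ∈ m, ∀ x, C ≤ u x := by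
  induction m using Multiset.induction with
  | empty => exact ⟨0, fun u hu => absurd hu (Multiset.notMem_zero u)⟩
  | cons a s ih =>
    obtain ⟨C, hC⟩ := ih (fun u hu => hm u (Multiset.mem_cons_of_mem hu))
    obtain ⟨K, hK⟩ := T.bdd a (hm a (Multiset.mem_cons_self a s))
    refine ⟨min C (-K), fun u hu x => ?_⟩
    rcases Multiset.mem_cons.mp hu with h | h
    · rw [h]
      exact (min_le_right _ _).trans (abs_le.mp (hK x)).1
    · exact (min_le_left _ _).trans (hC u h x)

theorem const_mem (c : ℝ) : (fun _ : X => c) ∈ T.P0 := by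
  have := T.const_P0 _ T.zero_P0 c
  simpa using this

end DiniAux

/-- Dini: a decreasing sequence in `P` is eventually below a continuous strict majorant. -/
theorem SMA.dini {u : ℕ → X → ℝ} {v w : X → ℝ} (h : T.Dec u v) (hw : Continuous w) (hvw : v ≤ w)
    {ε : ℝ} (hε : 0 < ε) : ∀ᶠ j in atTop, ∀ x, u j x ≤ w x + ε := by
  have hopen : ∀ j, IsOpen {x | u j x + (-w x) < ε} := by
    intro j
    have h1 : UpperSemicontinuous (fun x => u j x + (-w x)) :=
      (T.usc (u j) (h.mem j)).add hw.neg.upperSemicontinuous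
    exact h1.isOpen_preimage ε
  have hcov : (univ : Set X) ⊆ ⋃ j, {x | u j x + (-w x) < ε} := by
    intro x _
    have h1 : ∀ᶠ j in atTop, u j x < v x + ε :=
      (h.lim x).eventually (gt_mem_nhds (by linarith))
    obtain ⟨j, hj⟩ := h1.exists
    rw [mem_iUnion]
    refine ⟨j, ?_⟩
    have := hvw x
    simp only [mem_ofPred_eq]
    linarith
  have hdir : Directed (· ⊆ ·) (fun j => {x | u j x + (-w x) < ε}) := by
    apply directed_of_isDirected_le
    intro i j hij x hx
    have := h.anti hij x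
    simp only [mem_ofPred_eq] at hx ⊢
    linarith
  obtain ⟨j, hj⟩ := isCompact_univ.elim_directed_cover _ hopen hcov hdir
  filter_upwards [eventually_ge_atTop j] with k hk x
  have h1 := hj (mem_univ x)
  have h2 := h.anti hk x
  simp only [mem_ofPred_eq] at h1
  linarith

theorem SMA.D_bddBelow {m : Multiset (X → ℝ)} (hc : m.card = n + 1) (hm : T.In m) :
    BddBelow (T.D0 '' {m' | T.Maj m m'}) := by
  obtain ⟨C, hC⟩ := DiniAux.in_lower T hm
  refine ⟨T.D0 (Multiset.replicate (n + 1) (fun _ => C)), ?_⟩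
  rintro _ ⟨m', hm', rfl⟩
  have hmaj : T.Maj m m' := hm'
  have hcard : m'.card = n + 1 := by
    rw [← Multiset.card_eq_card_of_rel hmaj, hc]
  apply T.D0_mono (Multiset.card_replicate _ _)
  · intro u hu
    rw [Multiset.eq_of_mem_replicate hu]
    exact DiniAux.const_mem T C
  · exact DiniAux.maj_in0 T hmaj
  · rw [Multiset.rel_replicate_left]
    refine ⟨hcard, fun v hv x => ?_⟩
    obtain ⟨-, u, hu, huv⟩ := DiniAux.maj_mem T hmaj v hv
    exact (hC u hu x).trans (huv x)

theorem SMA.maj_nonempty {m : Multiset (X → ℝ)} (hm : T.In m) : {m' | T.Maj m m'}.Nonempty := by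
  induction m using Multiset.induction with
  | empty => exact ⟨0, Multiset.Rel.zero⟩
  | cons a s ih =>
    obtain ⟨m', hm'⟩ := ih (fun u hu => hm u (Multiset.mem_cons_of_mem hu))
    obtain ⟨t, ht, hanti, hlim⟩ := T.reg a (hm a (Multiset.mem_cons_self a s))
    refine ⟨t 0 ::ₘ m', Multiset.Rel.cons ⟨ht 0, fun x => ?_⟩ hm'⟩
    exact Antitone.le_of_tendsto (f := fun j => t j x) (fun i j hij => hanti hij x) (hlim x) 0

theorem SMA.D_eq {m : Multiset (X → ℝ)} (hc : m.card = n + 1) (hm : T.In0 m) :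
    T.D m = T.D0 m := by
  have hself : T.Maj m m :=
    Multiset.rel_refl_of_refl_on (fun u hu => ⟨hm u hu, le_refl u⟩)
  have hleast : IsLeast (T.D0 '' {m' | T.Maj m m'}) (T.D0 m) := by
    refine ⟨⟨m, hself, rfl⟩, ?_⟩
    rintro _ ⟨m', hm', rfl⟩
    exact T.D0_mono hc hm (DiniAux.maj_in0 T hm') (DiniAux.maj_le T hm')
  exact hleast.csInf_eq

theorem SMA.D_mono {m m' : Multiset (X → ℝ)} (hc : m.card = n + 1) (hm : T.In m) (hm' : T.In m')
    (h : Multiset.Rel (fun u v => u ≤ v) m m') : T.D m ≤ T.D m' := by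
  apply csInf_le_csInf (T.D_bddBelow hc hm) ((T.maj_nonempty hm').image _)
  apply image_mono
  intro m'' hm''
  have h1 := DiniAux.rel_comp h hm''
  refine Multiset.Rel.mono h1 ?_
  rintro a _ c _ ⟨b, hab, hb0, hbc⟩
  exact ⟨hb0, hab.trans hbc⟩

end Pool.Agent.DMA
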