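import Pool.Agent.Lib.DMA.EDefs
import Pool.Agent.Lib.DMA.D6

/-! # Row E1: gluing, elementary properties of the obstacle envelope

PROOF. `psh_glue`: `psh_local`: on the open set `O ∩ Ω` the function `g` is `max v w` (off `C` because
`w ≤ v` there), on the open set `Ω \ C` it is `v` (`Psh.congr`, `Psh.mono`, `Psh.max`).
Envelope: `{t | ∃ g, OCand R Ψ g ∧ g z = t}` is nonempty (`F`) and bounded above by `Ψ z`; off the unit
polydisc `Ψ = F`.  `exists_near`: replace `g` by `max g F`. -/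

set_option autoImplicit false

open scoped Topology ContDiff
open Set Filter Metric

noncomputable section

namespace Pool.Agent.DMA

open Pool.Agent.K708 (E CMfd)

variable {n : ℕ} {R : ℝ} {F Ψ : E n → ℝ}

theorem psh_glue {Ω O C : Set (E n)} {v w g : E n → ℝ} (hΩ : IsOpen Ω) (hv : Psh Ω v)
    (hO : IsOpen O) (hw : Psh (O ∩ Ω) w) (hC : IsClosed C) (hCO : C ∩ Ω ⊆ O)
    (hle : ∀ z ∈ O ∩ Ω, z ∉ C → w z ≤ v z) (h1 : ∀ z ∈ C ∩ Ω, g z = max (v z) (w z))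
    (h2 : ∀ z ∈ Ω, z ∉ C → g z = v z) : Psh Ω g := by
  refine psh_local fun a ha => ?_
  by_cases haC : a ∈ C
  · refine ⟨O ∩ Ω, hO.inter hΩ, ⟨hCO ⟨haC, ha⟩, ha⟩, ?_⟩
    refine ((hv.mono inter_subset_right).max hw).congr fun z hz => ?_
    by_cases hzC : z ∈ C
    · exact h1 z ⟨hzC, hz.2⟩
    · rw [h2 z hz.2 hzC, max_eq_left (hle z hz hzC)]
  · refine ⟨Ω ∩ Cᶜ, hΩ.inter hC.isOpen_compl, ⟨ha, haC⟩, ?_⟩
    exact (hv.mono inter_subset_left).congr fun z hz => h2 z hz.1 hz.2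

theorem ocand_F (h : Obs R F Ψ) : OCand R Ψ F :=
  ⟨h.psh, fun z _ => h.le z⟩

theorem OCand.max {g₁ g₂ : E n → ℝ} (h₁ : OCand R Ψ g₁) (h₂ : OCand R Ψ g₂) :
    OCand R Ψ (fun z => Max.max (g₁ z) (g₂ z)) :=
  ⟨h₁.1.max h₂.1, fun z hz => max_le (h₁.2 z hz) (h₂.2 z hz)⟩

theorem oenv_off {z : E n} (hz : z ∉ ball (0 : E n) 1) : oenv R F Ψ z = F z :=
  if_neg hz

theorem le_oenv (h : Obs R F Ψ) {g : E n → ℝ} (hg : OCand R Ψ g) {z : E n}
    (hz : z ∈ ball (0 : E n) R) : g z ≤ oenv R F Ψ z := by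
  by_cases h1 : z ∈ ball (0 : E n) 1
  · rw [oenv, if_pos h1]
    refine le_csSup ⟨Ψ z, ?_⟩ ⟨g, hg, rfl⟩
    rintro t ⟨g', hg', rfl⟩
    exact hg'.2 z hz
  · rw [oenv_off h1, ← h.eq z h1]
    exact hg.2 z hz

private theorem ball_one_sub (h : Obs R F Ψ) : ball (0 : E n) 1 ⊆ ball (0 : E n) R :=
  ball_subset_ball h.hR.le

theorem F_le_oenv (h : Obs R F Ψ) (z : E n) : F z ≤ oenv R F Ψ z := by
  by_cases h1 : z ∈ ball (0 : E n) 1
  · exact le_oenv h (ocand_F h) (ball_one_sub h h1)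
  · rw [oenv_off h1]

theorem oenv_le (h : Obs R F Ψ) (z : E n) : oenv R F Ψ z ≤ Ψ z := by
  by_cases h1 : z ∈ ball (0 : E n) 1
  · rw [oenv, if_pos h1]
    refine csSup_le ⟨F z, F, ocand_F h, rfl⟩ ?_
    rintro t ⟨g', hg', rfl⟩
    exact hg'.2 z (ball_one_sub h h1)
  · rw [oenv_off h1]
    exact h.le z

/-- A candidate close to the envelope at a point, and above `F`. -/
theorem exists_near (h : Obs R F Ψ) {z : E n} (hz : z ∈ ball (0 : E n) R) {ε : ℝ} (hε : 0 < ε) :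
    ∃ g, OCand R Ψ g ∧ (∀ w, F w ≤ g w) ∧ oenv R F Ψ z < g z + ε := by
  by_cases h1 : z ∈ ball (0 : E n) 1
  · have h2 : oenv R F Ψ z - ε < sSup {t | ∃ g, OCand R Ψ g ∧ g z = t} := by
      rw [oenv, if_pos h1]
      linarith
    have h3 : Set.Nonempty {t | ∃ g, OCand R Ψ g ∧ g z = t} := ⟨F z, F, ocand_F h, rfl⟩
    obtain ⟨t, ⟨g, hg, rfl⟩, ht⟩ := exists_lt_of_lt_csSup h3 h2
    refine ⟨fun w => Max.max (g w) (F w), hg.max (ocand_F h), fun w => le_max_right _ _, ?_⟩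
    have h4 : g z ≤ Max.max (g z) (F z) := le_max_left _ _
    change oenv R F Ψ z < Max.max (g z) (F z) + ε
    linarith
  · refine ⟨F, ocand_F h, fun w => le_rfl, ?_⟩
    rw [oenv_off h1]
    linarith

end Pool.Agent.DMA
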