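import Pool.Agent.Lib.DMA.E3
import Pool.Agent.Lib.DMA.D9

/-! # Row E10: the barrier, obstacles, the Perron envelope

PROOF. `barrier`: `exists_add_normSq` for `-F` and `closedBall 0 1`: `C Σ‖z j‖² - F` is psh on `Ω' ⊇ closedBall 0 1`;
for `z ∈ ball 0 1` and an index `k` use `Psh.max_disc` for `g + C Σ‖z j‖² - F` on the disc `a + ζ e_k`,
`a = update z k 0` (contained in `closedBall 0 1`); for `‖ζ‖ = 1` the point is not in `ball 0 1`, so
`g ≤ F` there and the value is `≤ C (1 + Σ_{j≠k} ‖z j‖²)`; take `ζ = z k`.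
`exists_obs`: `χ` smooth, `0 ≤ χ`, with support exactly `ball 0 1` (`IsOpen.exists_contDiff_support_eq`);
`Ψ = F + j χ`.  With the index `k` such that `‖z k‖ = ‖z‖`: `g z ≤ F z + C (1 - ‖z‖²)`; if `C (1-‖z‖²) ≤ δ` then
`g z - δ ≤ F z ≤ Ψ z`; otherwise `z` is in the compact set `{C (1 - ‖z‖²) ≥ δ}` on which `χ ≥ c > 0`: `j c ≥ C`.
So `g - δ` is a candidate below the obstacle (`le_oenv`).  On `L`: `oenv` is in `Cand R F`
(`oenv_ocand`), so `oenv z ≤ F z + C < F z + j χ z` for `j` large.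
`exists_env`: `U z = sSup {t | ∃ g, Cand R F g ∧ g z = t}` on `ball 0 1`, `F` elsewhere; for the obstacle
belonging to `L = ∅` and `δ`: `oenv ≤ U ≤ oenv + δ` on `ball 0 R` (`oenv` is in `Cand R F`), so `U` is a
uniform limit of continuous functions; `psh_of_sup`. -/

set_option autoImplicit false

open scoped Topology ContDiff
open Set Filter Metric

noncomputable section

namespace Pool.Agent.DMA

open Pool.Agent.K708 (E CMfd)

variable {n : ℕ} {R : ℝ} {F : E n → ℝ}

private theorem E10_disc (z : E n) (k : Fin n) (ζ : ℂ) :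
    Function.update z k 0 + ζ • (Pi.single k 1 : E n) = Function.update z k ζ := by
  funext j
  by_cases hj : j = k
  · subst hj
    simp
  · simp [Function.update_of_ne hj, Pi.single_eq_of_ne hj]

theorem barrier (h : Dat R F) : ∃ C : ℝ, 0 ≤ C ∧ ∀ g, Cand R F g → ∀ z ∈ ball (0 : E n) 1,
    ∀ k, g z ≤ F z + C * (1 - ‖z k‖ ^ 2) := by
  have hsub : closedBall (0 : E n) 1 ⊆ ball 0 R := closedBall_subset_ball h.hR
  obtain ⟨C, hC, Ω', hΩ', hK, hΩR, hp⟩ := exists_add_normSq (f := fun z => - F z)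
    (isOpen_ball (x := (0 : E n)) (ε := R))
    ((h.sm.neg.of_le (by norm_cast)).contDiffOn) (isCompact_closedBall 0 1) hsub
  refine ⟨C, hC, fun g hg z hz k => ?_⟩
  have hG : Psh Ω' (fun w => g w + (C * ∑ j, ‖w j‖ ^ 2 + - F w)) := (hg.1.mono hΩR).add hp
  have hz1 : ∀ j, ‖z j‖ < 1 := by
    rw [mem_ball_zero_iff, pi_norm_lt_iff one_pos] at hz
    exact hz
  have hmem : ∀ ζ : ℂ, ‖ζ‖ ≤ 1 → Function.update z k ζ ∈ closedBall (0 : E n) 1 := by
    intro ζ hζ
    rw [mem_closedBall_zero_iff, pi_norm_le_iff_of_nonneg zero_le_one]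
    intro j
    by_cases hj : j = k
    · subst hj
      rw [Function.update_self]
      exact hζ
    · rw [Function.update_of_ne hj]
      exact (hz1 j).le
  have hsum : ∀ ζ : ℂ, ∑ j, ‖Function.update z k ζ j‖ ^ 2 =
      ‖ζ‖ ^ 2 + ∑ j ∈ Finset.univ.erase k, ‖z j‖ ^ 2 := by
    intro ζ
    rw [← Finset.add_sum_erase _ _ (Finset.mem_univ k), Function.update_self]
    congr 1
    refine Finset.sum_congr rfl fun j hj => ?_
    rw [Function.update_of_ne (Finset.ne_of_mem_erase hj)]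
  have hmax := hG.max_disc (a := Function.update z k 0) (b := Pi.single k 1)
    (fun ζ hζ => by
      rw [E10_disc]
      exact hK (hmem ζ hζ)) (c := C * (1 + ∑ j ∈ Finset.univ.erase k, ‖z j‖ ^ 2)) (by
      intro ζ hζ
      rw [E10_disc]
      have h1 : Function.update z k ζ ∉ ball (0 : E n) 1 := by
        rw [mem_ball_zero_iff, not_lt]
        have h2 := norm_le_pi_norm (Function.update z k ζ) k
        rw [Function.update_self, hζ] at h2
        exact h2
      have h3 := hg.2 _ (hsub (hmem ζ hζ.le)) h1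
      show g _ + (C * ∑ j, ‖Function.update z k ζ j‖ ^ 2 + - F _) ≤ _
      rw [hsum, hζ]
      linarith) (z k) (hz1 k).le
  rw [E10_disc, Function.update_eq_self] at hmax
  have h4 : g z + (C * ∑ j, ‖z j‖ ^ 2 + - F z) ≤
      C * (1 + ∑ j ∈ Finset.univ.erase k, ‖z j‖ ^ 2) := hmax
  rw [← Finset.add_sum_erase _ _ (Finset.mem_univ k)] at h4
  linarith

private theorem E10_cand_oenv {Ψ : E n → ℝ} (h : Obs R F Ψ) : Cand R F (oenv R F Ψ) :=
  ⟨(oenv_ocand h).1, fun _ _ hz => (oenv_off hz).le⟩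

theorem exists_obs (hn : 0 < n) (h : Dat R F) {L : Set (E n)} (hL : IsCompact L)
    (hLB : L ⊆ ball (0 : E n) 1) {δ : ℝ} (hδ : 0 < δ) : ∃ Ψ : E n → ℝ, Obs R F Ψ ∧
      (∀ g, Cand R F g → ∀ z ∈ ball (0 : E n) R, g z - δ ≤ oenv R F Ψ z) ∧
      ∀ z ∈ L, oenv R F Ψ z < Ψ z := by
  obtain ⟨C, hC, hbar⟩ := barrier h
  obtain ⟨χ, hχs, hχd, hχr⟩ :=
    IsOpen.exists_contDiff_support_eq (n := ⊤) (isOpen_ball (x := (0 : E n)) (ε := 1))
  have hχ0 : ∀ z, 0 ≤ χ z := fun z => (hχr ⟨z, rfl⟩).1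
  have hχpos : ∀ z ∈ ball (0 : E n) 1, 0 < χ z := by
    intro z hz
    rw [← hχs, Function.mem_support] at hz
    exact lt_of_le_of_ne (hχ0 z) (Ne.symm hz)
  have hχoff : ∀ z, z ∉ ball (0 : E n) 1 → χ z = 0 := by
    intro z hz
    rw [← hχs, Function.mem_support, not_not] at hz
    exact hz
  set S : Set (E n) := (closedBall (0 : E n) 1 ∩ {z | δ ≤ C * (1 - ‖z‖ ^ 2)}) ∪ L with hS
  have hScomp : IsCompact S := by
    refine IsCompact.union ?_ hL
    refine (isCompact_closedBall 0 1).inter_right ?_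
    exact isClosed_le continuous_const (by fun_prop)
  have hSB : S ⊆ ball (0 : E n) 1 := by
    rintro z (⟨hz1, hz2⟩ | hz)
    · rw [mem_closedBall_zero_iff] at hz1
      rw [mem_ball_zero_iff]
      refine lt_of_le_of_ne hz1 fun h1 => ?_
      have h2 : δ ≤ C * (1 - ‖z‖ ^ 2) := hz2
      rw [h1] at h2
      norm_num at h2
      linarith
    · exact hLB hz
  obtain ⟨c, hc, hcS⟩ : ∃ c > 0, ∀ z ∈ S, c ≤ χ z := by
    rcases S.eq_empty_or_nonempty with h1 | h1
    · exact ⟨1, one_pos, fun z hz => by rw [h1] at hz; exact hz.elim⟩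
    · obtain ⟨z0, hz0, hmin⟩ := hScomp.exists_isMinOn h1 hχd.continuous.continuousOn
      exact ⟨χ z0, hχpos z0 (hSB hz0), fun z hz => hmin hz⟩
  set j : ℝ := (C + 1) / c with hj
  have hj0 : 0 ≤ j := by positivity
  have hjc : ∀ z ∈ S, C + 1 ≤ j * χ z := by
    intro z hz
    have h1 : j * c = C + 1 := by
      rw [hj]
      field_simp
    rw [← h1]
    exact mul_le_mul_of_nonneg_left (hcS z hz) hj0
  have hχc : HasCompactSupport χ := by
    refine HasCompactSupport.of_support_subset_isCompact (isCompact_closedBall (0 : E n) 1) ?_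
    rw [hχs]
    exact ball_subset_closedBall
  have hObs : Obs R F (fun z => F z + j * χ z) :=
    { toDat := h
      smo := h.sm.add (contDiff_const.mul hχd)
      cso := h.cs.add (hχc.mul_left (f := fun _ => j))
      le := fun z => by
        have := mul_nonneg hj0 (hχ0 z)
        linarith
      eq := fun z hz => by
        rw [hχoff z hz, mul_zero, add_zero] }
  refine ⟨fun z => F z + j * χ z, hObs, ?_, ?_⟩
  · intro g hg z hz
    have hoc : OCand R (fun z => F z + j * χ z) (fun z => g z + (-δ)) := by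
      refine ⟨hg.1.add_const (-δ), fun w hw => ?_⟩
      have hjw := mul_nonneg hj0 (hχ0 w)
      by_cases hw1 : w ∈ ball (0 : E n) 1
      · haveI : Nonempty (Fin n) := ⟨⟨0, hn⟩⟩
        obtain ⟨k, hk⟩ : ∃ k, ‖w k‖ = ‖w‖ := by
          obtain ⟨k, -, hk⟩ := Finset.exists_mem_eq_sup' Finset.univ_nonempty (fun j => ‖w j‖₊)
          refine ⟨k, ?_⟩
          rw [Pi.norm_def, ← Finset.sup'_eq_sup Finset.univ_nonempty, hk]
          rfl
        have hb := hbar g hg w hw1 k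
        rw [hk] at hb
        show g w + (-δ) ≤ F w + j * χ w
        by_cases hcs : δ ≤ C * (1 - ‖w‖ ^ 2)
        · have h1 := hjc w (Or.inl ⟨ball_subset_closedBall hw1, hcs⟩)
          have h2 : C * (1 - ‖w‖ ^ 2) ≤ C := by
            have h3 : (0 : ℝ) ≤ ‖w‖ ^ 2 := by positivity
            nlinarith
          linarith
        · push Not at hcs
          linarith
      · have h1 := hg.2 w hw hw1
        show g w + (-δ) ≤ F w + j * χ w
        linarith
    have := le_oenv hObs hoc hz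
    linarith
  · intro z hz
    have hzB := hLB hz
    have hb := hbar _ (E10_cand_oenv hObs) z hzB ⟨0, hn⟩
    have h1 := hjc z (Or.inr hz)
    have h2 : C * (1 - ‖z ⟨0, hn⟩‖ ^ 2) ≤ C := by
      have h3 : (0 : ℝ) ≤ ‖z ⟨0, hn⟩‖ ^ 2 := by positivity
      nlinarith
    show _ < F z + j * χ z
    linarith

theorem exists_env (hn : 0 < n) (h : Dat R F) : ∃ U : E n → ℝ, Env R F U := by
  have hF : Cand R F F := ⟨h.psh, fun _ _ _ => le_rfl⟩
  have hobs : ∀ δ : ℝ, 0 < δ → ∃ e : E n → ℝ, Continuous e ∧ Cand R F e ∧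
      ∀ g, Cand R F g → ∀ z ∈ ball (0 : E n) R, g z - δ ≤ e z := by
    intro δ hδ
    obtain ⟨Ψ, hΨ, h1, -⟩ := exists_obs hn h (isCompact_empty) (empty_subset _) hδ
    obtain ⟨Kc, L, h₀, hreg⟩ := oenv_reg hΨ
    exact ⟨oenv R F Ψ, hreg.continuous, E10_cand_oenv hΨ, h1⟩
  set U : E n → ℝ := fun z => sSup {t | ∃ g, Cand R F g ∧ g z = t} with hU
  have hbdd : ∀ z ∈ ball (0 : E n) R, BddAbove {t | ∃ g, Cand R F g ∧ g z = t} := by
    intro z hz
    obtain ⟨e, -, -, he⟩ := hobs 1 one_pos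
    refine ⟨e z + 1, ?_⟩
    rintro _ ⟨g, hg, rfl⟩
    linarith [he g hg z hz]
  have hne : ∀ z, {t | ∃ g, Cand R F g ∧ g z = t}.Nonempty := fun z => ⟨F z, F, hF, rfl⟩
  have hle : ∀ g, Cand R F g → ∀ z ∈ ball (0 : E n) R, g z ≤ U z := fun g hg z hz =>
    le_csSup (hbdd z hz) ⟨g, hg, rfl⟩
  have hge : ∀ δ : ℝ, 0 < δ → ∃ e : E n → ℝ, Continuous e ∧ Cand R F e ∧
      ∀ z ∈ ball (0 : E n) R, e z ≤ U z ∧ U z ≤ e z + δ := by
    intro δ hδ
    obtain ⟨e, he1, he2, he3⟩ := hobs δ hδ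
    refine ⟨e, he1, he2, fun z hz => ⟨hle e he2 z hz, ?_⟩⟩
    refine csSup_le (hne z) ?_
    rintro _ ⟨g, hg, rfl⟩
    linarith [he3 g hg z hz]
  have hcont : ContinuousOn U (ball 0 R) := by
    refine continuousOn_of_uniform_approx_of_continuousOn fun u hu => ?_
    obtain ⟨ε, hε, hεu⟩ := Metric.mem_uniformity_dist.1 hu
    obtain ⟨e, he1, -, he3⟩ := hge (ε / 2) (half_pos hε)
    refine ⟨e, he1.continuousOn, fun z hz => hεu ?_⟩
    rw [Real.dist_eq, abs_lt]
    have := he3 z hz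
    constructor <;> linarith
  have hpsh : Psh (ball (0 : E n) R) U := by
    refine psh_of_sup hcont fun z hz ε hε => ?_
    obtain ⟨e, -, he2, he3⟩ := hge (ε / 2) (half_pos hε)
    refine ⟨e, he2.1, fun w hw => (he3 w hw).1, ?_⟩
    have := (he3 z hz).2
    linarith
  have heq : ∀ z ∈ ball (0 : E n) R, z ∉ ball (0 : E n) 1 → U z = F z := by
    intro z hz hz1
    refine le_antisymm ?_ (hle F hF z hz)
    refine csSup_le (hne z) ?_
    rintro _ ⟨g, hg, rfl⟩
    exact hg.2 z hz hz1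
  exact ⟨U, ⟨⟨hpsh, fun z hz hz1 => (heq z hz hz1).le⟩, hcont, heq, hle⟩⟩

end Pool.Agent.DMA
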