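import Pool.Agent.Lib.DMA.EDefs
import Pool.Agent.Lib.DMA.D17
import Pool.Agent.Lib.DMA.CFld

/-! # Row E11: rescaled charts, gluing a local psh function

PROOF. `exists_scaled`: compose `φ` with the homeomorphism `w ↦ s⁻¹ (w - φ x)` of `E n` (an analytic
diffeomorphism, so the result is in the maximal atlas: check compatibility with `contDiffGroupoid`
memberships of `φ.symm ≫ e'`, `e'.symm ≫ φ`).
`glue_bpsh`: `bpsh_of_local`.  At `x ∈ ψ.source` with `ψ x ∈ ball 0 R`: `W = ψ.source ∩ ψ ⁻¹' ball 0 R`;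
`ρ (ψ.symm z) + glue ψ ρ v f (ψ.symm z) = v z` for `z ∈ ball 0 R` (both cases), `Psh.congr`.  At the other points:
`T = ψ.symm '' closedBall 0 1` is compact, so closed, `glue = f` on its complement: use `f` and any
potential (`K.pot x`) and `chartAt x`.  Upper semicontinuity: locally `v ∘ ψ - ρ` or `f`.  Bounded: `f` bounded,
`v` bounded on `closedBall 0 1`, `ρ ∘ ψ.symm` continuous there. -/

set_option autoImplicit false

open scoped Manifold ContDiff Topology ComplexOrder
open Set Filter Metric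

noncomputable section

namespace Pool.Agent.DMA

open Pool.Agent.K708 (E CMfd)

variable {n : ℕ} {X : CMfd n} {K : Kahler X}

/-- The affine homeomorphism `w ↦ s⁻¹ (w - c)`. -/
def E11_aff (c : E n) (s : ℝ) (hs : 0 < s) : E n ≃ₜ E n where
  toFun w := ((s⁻¹ : ℝ) : ℂ) • (w - c)
  invFun z := c + (s : ℂ) • z
  left_inv w := by
    have h : (s : ℂ) * ((s⁻¹ : ℝ) : ℂ) = 1 := by
      rw [← Complex.ofReal_mul, mul_inv_cancel₀ hs.ne', Complex.ofReal_one]
    change c + (s : ℂ) • (((s⁻¹ : ℝ) : ℂ) • (w - c)) = w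
    rw [smul_smul, h, one_smul]
    abel
  right_inv z := by
    have h : ((s⁻¹ : ℝ) : ℂ) * (s : ℂ) = 1 := by
      rw [← Complex.ofReal_mul, inv_mul_cancel₀ hs.ne', Complex.ofReal_one]
    change ((s⁻¹ : ℝ) : ℂ) • (c + (s : ℂ) • z - c) = z
    rw [add_sub_cancel_left, smul_smul, h, one_smul]
  continuous_toFun := by fun_prop
  continuous_invFun := by fun_prop

theorem E11_aff_mem (c : E n) (s : ℝ) (hs : 0 < s) :
    (E11_aff c s hs).toOpenPartialHomeomorph ∈ contDiffGroupoid ω 𝓘(ℂ, E n) := by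
  rw [contDiffGroupoid, mem_groupoid_of_pregroupoid]
  constructor
  · have h : ContDiff ℂ ω (fun w : E n => ((s⁻¹ : ℝ) : ℂ) • (w - c)) := by fun_prop
    exact h.contDiffOn
  · have h : ContDiff ℂ ω (fun z : E n => c + (s : ℂ) • z) := by fun_prop
    exact h.contDiffOn

theorem exists_scaled {φ : OpenPartialHomeomorph X (E n)} (hφ : φ ∈ CA X) (c : E n) {s : ℝ}
    (hs : 0 < s) : ∃ ψ ∈ CA X, ψ.source = φ.source ∧
      (∀ y, ψ y = ((s⁻¹ : ℝ) : ℂ) • (φ y - c)) ∧
      ψ.target = {z | c + (s : ℂ) • z ∈ φ.target} ∧ ∀ z, ψ.symm z = φ.symm (c + (s : ℂ) • z) := by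
  have hA := E11_aff_mem c s hs
  set A : OpenPartialHomeomorph (E n) (E n) := (E11_aff c s hs).toOpenPartialHomeomorph with hAdef
  refine ⟨φ ≫ₕ A, ?_, ?_, ?_, ?_, ?_⟩
  · refine mem_maximalAtlas_iff.2 ?_
    intro e' he'
    have he2 : e' ∈ (contDiffGroupoid ω 𝓘(ℂ, E n)).maximalAtlas X :=
      StructureGroupoid.subset_maximalAtlas _ he'
    have h1 : φ.symm ≫ₕ e' ∈ contDiffGroupoid ω 𝓘(ℂ, E n) :=
      StructureGroupoid.compatible_of_mem_maximalAtlas hφ he2
    have h2 : e'.symm ≫ₕ φ ∈ contDiffGroupoid ω 𝓘(ℂ, E n) :=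
      StructureGroupoid.compatible_of_mem_maximalAtlas he2 hφ
    constructor
    · rw [OpenPartialHomeomorph.trans_symm_eq_symm_trans_symm, OpenPartialHomeomorph.trans_assoc]
      exact StructureGroupoid.trans _ (StructureGroupoid.symm _ hA) h1
    · rw [← OpenPartialHomeomorph.trans_assoc]
      exact StructureGroupoid.trans _ h2 hA
  · rw [OpenPartialHomeomorph.trans_source]
    simp [hAdef]
  · intro y
    rfl
  · rw [OpenPartialHomeomorph.trans_target]
    simp only [hAdef, Homeomorph.toOpenPartialHomeomorph_target, univ_inter]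
    rfl
  · intro z
    rfl

theorem glue_bpsh {U : Set X} {ρ : X → ℝ} (hp : IsPot K.g U ρ)
    {ψ : OpenPartialHomeomorph X (E n)} (hψ : ψ ∈ CA X) {R : ℝ} (hR : 1 < R)
    (hB : ball (0 : E n) R ⊆ ψ.target ∩ ψ.symm ⁻¹' U) {f : X → ℝ} (hf : BPsh K f) {v : E n → ℝ}
    (hv : Psh (ball (0 : E n) R) v)
    (he : ∀ z ∈ ball (0 : E n) R, z ∉ ball (0 : E n) 1 → v z = ρ (ψ.symm z) + f (ψ.symm z)) :
    BPsh K (glue ψ ρ v f) := by
  have hcb : closedBall (0 : E n) 1 ⊆ ball (0 : E n) R := closedBall_subset_ball hR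
  have hcbT : closedBall (0 : E n) 1 ⊆ ψ.target := fun z hz => (hB (hcb hz)).1
  have hcomp : IsCompact (closedBall (0 : E n) 1) := isCompact_closedBall _ _
  have hTc : IsCompact (ψ.symm '' closedBall (0 : E n) 1) :=
    hcomp.image_of_continuousOn (ψ.continuousOn_symm.mono hcbT)
  have hTcl : IsClosed (ψ.symm '' closedBall (0 : E n) 1) := hTc.isClosed
  have hO1 : IsOpen (ψ.source ∩ ψ ⁻¹' ball (0 : E n) R) :=
    ψ.continuousOn.isOpen_inter_preimage ψ.open_source isOpen_ball
  have hO1U : ∀ x ∈ ψ.source ∩ ψ ⁻¹' ball (0 : E n) R, x ∈ U := by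
    intro x hx
    have h := (hB hx.2).2
    rw [mem_preimage, ψ.left_inv hx.1] at h
    exact h
  have hg1 : ∀ x ∈ ψ.source ∩ ψ ⁻¹' ball (0 : E n) R, glue ψ ρ v f x = v (ψ x) - ρ x := by
    intro x hx
    unfold glue
    by_cases h : ψ x ∈ ball (0 : E n) 1
    · rw [if_pos ⟨hx.1, h⟩]
    · rw [if_neg (fun h' => h h'.2), he (ψ x) hx.2 h, ψ.left_inv hx.1]
      ring
  have hg2 : ∀ x ∈ (ψ.symm '' closedBall (0 : E n) 1)ᶜ, glue ψ ρ v f x = f x := by
    intro x hx
    unfold glue
    rw [if_neg]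
    rintro ⟨h1, h2⟩
    exact hx ⟨ψ x, ball_subset_closedBall h2, ψ.left_inv h1⟩
  have hcov : ∀ x : X, x ∈ ψ.source ∩ ψ ⁻¹' ball (0 : E n) R ∨
      x ∈ (ψ.symm '' closedBall (0 : E n) 1)ᶜ := by
    intro x
    by_cases h : x ∈ ψ.symm '' closedBall (0 : E n) 1
    · left
      obtain ⟨z, hz, rfl⟩ := h
      refine ⟨ψ.map_target (hcbT hz), ?_⟩
      rw [mem_preimage, ψ.right_inv (hcbT hz)]
      exact hcb hz
    · exact Or.inr h
  have hρc : ContinuousOn ρ U := hp.smooth.continuousOn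
  refine bpsh_of_local ?_ ?_ ?_
  · intro x
    rcases hcov x with hx | hx
    · -- near x the function is `v ∘ ψ - ρ`
      have hev : ∀ᶠ y in 𝓝 x, glue ψ ρ v f y = v (ψ y) + (-ρ y) := by
        filter_upwards [hO1.mem_nhds hx] with y hy
        rw [hg1 y hy]
        ring
      have h1 : UpperSemicontinuousAt (fun y => v (ψ y)) x := by
        intro y hy
        have h2 := hv.usc (ψ x) hx.2 y hy
        have h3 : Tendsto ψ (𝓝 x) (𝓝[ball (0 : E n) R] (ψ x)) := by
          refine tendsto_nhdsWithin_iff.2 ⟨ψ.continuousAt hx.1, ?_⟩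
          filter_upwards [hO1.mem_nhds hx] with y hy
          exact hy.2
        exact h3.eventually h2
      have h2 : UpperSemicontinuousAt (fun y => -ρ y) x :=
        ((hρc.continuousAt (hp.opn.mem_nhds (hO1U x hx))).neg).upperSemicontinuousAt
      have h3 : UpperSemicontinuousAt (fun y => v (ψ y) + (-ρ y)) x := h1.add h2
      intro y hy
      rw [hev.self_of_nhds] at hy
      filter_upwards [h3 y hy, hev] with t ht ht'
      rw [ht']
      exact ht
    · have hev : ∀ᶠ y in 𝓝 x, glue ψ ρ v f y = f y := by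
        filter_upwards [hTcl.isOpen_compl.mem_nhds hx] with y hy
        exact hg2 y hy
      intro y hy
      rw [hev.self_of_nhds] at hy
      filter_upwards [hf.usc x y hy, hev] with t ht ht'
      rw [ht']
      exact ht
  · obtain ⟨Cf, hCf⟩ := hf.bdd
    obtain ⟨Cv, hCv⟩ := hv.bdd _ hcb hcomp
    have hρψ : ContinuousOn (fun z => ρ (ψ.symm z)) (closedBall (0 : E n) 1) := by
      refine hρc.comp (ψ.continuousOn_symm.mono hcbT) ?_
      intro z hz
      exact (hB (hcb hz)).2
    obtain ⟨Cr, hCr⟩ := hcomp.exists_bound_of_continuousOn hρψ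
    refine ⟨max Cf (Cv + Cr), fun x => ?_⟩
    unfold glue
    split_ifs with h
    · have h1 := hCv (ψ x) (ball_subset_closedBall h.2)
      have h2 := hCr (ψ x) (ball_subset_closedBall h.2)
      rw [ψ.left_inv h.1, Real.norm_eq_abs] at h2
      refine le_trans ?_ (le_max_right _ _)
      exact (abs_sub _ _).trans (add_le_add h1 h2)
    · exact (hCf x).trans (le_max_left _ _)
  · intro x
    rcases hcov x with hx | hx
    · refine ⟨U, ψ.source ∩ ψ ⁻¹' ball (0 : E n) R, ρ, ψ, hp, hψ, hO1, hx, ?_, ?_⟩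
      · intro y hy
        exact ⟨hy.1, hO1U y hy⟩
      · have hsub : ψ.target ∩ ψ.symm ⁻¹' (ψ.source ∩ ψ ⁻¹' ball (0 : E n) R) ⊆
            ball (0 : E n) R := by
          intro z hz
          have h := hz.2.2
          rw [mem_preimage, ψ.right_inv hz.1] at h
          exact h
        refine (hv.mono hsub).congr ?_
        intro z hz
        rw [hg1 _ hz.2, ψ.right_inv hz.1]
        ring
    · obtain ⟨U', ρ', hxU', hpot'⟩ := K.pot x
      refine ⟨U', ((chartAt (E n) x).source ∩ U') ∩ (ψ.symm '' closedBall (0 : E n) 1)ᶜ, ρ',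
        chartAt (E n) x, hpot', ?_, ?_, ?_, ?_, ?_⟩
      · exact StructureGroupoid.chart_mem_maximalAtlas _ x
      · exact ((chartAt (E n) x).open_source.inter hpot'.opn).inter hTcl.isOpen_compl
      · exact ⟨⟨mem_chart_source (E n) x, hxU'⟩, hx⟩
      · exact inter_subset_left
      · have h1 := hf.psh U' ρ' hpot' (chartAt (E n) x)
          (StructureGroupoid.chart_mem_maximalAtlas _ x)
        refine (h1.mono ?_).congr ?_
        · intro z hz
          exact ⟨hz.1, hz.2.1.2⟩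
        · intro z hz
          rw [hg2 _ hz.2.2]

end Pool.Agent.DMA
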