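import Pool.Agent.Lib.DMA.E9
import Pool.Agent.Lib.DMA.E10
import Pool.Agent.Lib.DMA.E11
import Pool.Agent.Lib.DMA.CScale

/-! # Row E12: the approximants `W`

PROOF. `ρ' z = ρ (ψ.symm z)`.  Open sets `L ⊆ A₀`, `closure A₀ ⊆ A₁`, `closure A₁ ⊆ ball 0 1` (compact closures);
`exists_obs` for the compact set `closure A₀` and `δ/2`: obstacle `Ψ`, `u = oenv R F Ψ`,
`|u - H| ≤ δ/2` on `ball 0 R` (`u` is in `Cand R F`: `Env.max`).  `θ` smooth, `θ = 1` on `closure A₀`, `θ = -1` off a compact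
subset of `A₁`, `-1 ≤ θ ≤ 1`.  `C ≥ 0` with `C ρ' + θ` psh near `closedBall 0 1` (`exists_add_strict`; the Levi matrix of `ρ'`
is positive definite: `CH_chart`, `IsPot.hess`, `K.pos`, `Jc_det_ne`), also `C ρ'` is psh there.
`q` = a global smooth function equal to `C ρ'` near `closedBall 0 1` (`exists_global`).  For `κ > 0` small
(`env_small` with the compact set `closure A₀`, `r'` between `1` and `R`): `V` smooth psh, `|V - u| ≤ κ/2`,
`∫⁻ over closure A₀ of det CH (V + κ q) ≤ δ`.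
`w = max u (V + κ θ)` on `A₁`, `u` elsewhere: `w + κ C ρ'` is psh on a `ball 0 R''`, `1 < R''` (`psh_glue`, with
`v := u + κ C ρ'`; where `θ = -1`: `V - κ < u`).  `v' = (w + κ C ρ')/(1 + κ C)`, `f' = f/(1 + κ C)` is `BPsh` (convex
combination of `f` and `0`).  `W = glue ψ ρ v' f'` is `BPsh` (`glue_bpsh`): off `ball 0 1` `v' = ρ' + f'`.
On `A = ψ.source ∩ ψ⁻¹ A₀`: `w = V + κ` (`θ = 1`, `V + κ > u`), so `W = (V + κ - ρ')/(1 + κ C) ∘ ψ` is smooth, and
`CH (ρ + W) = CH (V + κ q)/(1 + κ C)`, `det` is multiplied by `(1+κC)^(-n) ≤ 1`.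
`|W - h| ≤ δ` for `κ` small (everything is bounded). -/

set_option autoImplicit false

open scoped Manifold ContDiff Topology ComplexOrder
open Set Filter Metric MeasureTheory

noncomputable section

namespace Pool.Agent.DMA

open Pool.Agent.K708 (E CMfd)

variable {n : ℕ} {X : CMfd n} {K : Kahler X}

theorem exists_apx (hn : 0 < n) (hX : CompactSpace X) {U : Set X} {ρ : X → ℝ}
    (hp : IsPot K.g U ρ) {ψ : OpenPartialHomeomorph X (E n)} (hψ : ψ ∈ CA X) {R : ℝ}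
    (hB : ball (0 : E n) R ⊆ ψ.target ∩ ψ.symm ⁻¹' U) {f : X → ℝ} (hf : BPsh K f)
    {F H : E n → ℝ} (hF : Dat R F) (hFf : ∀ z ∈ ball (0 : E n) R, F z = ρ (ψ.symm z) + f (ψ.symm z))
    (hH : Env R F H) {L : Set (E n)} (hL : IsCompact L) (hLB : L ⊆ ball (0 : E n) 1) {δ : ℝ}
    (hδ : 0 < δ) : ∃ (A : Set (E n)) (W : X → ℝ), IsOpen A ∧ L ⊆ A ∧ A ⊆ ball (0 : E n) 1 ∧
      BPsh K W ∧ ContMDiffOn 𝓘(ℝ, E n) 𝓘(ℝ, ℝ) ∞ W (ψ.source ∩ ψ ⁻¹' A) ∧
      (∀ x, |W x - glue ψ ρ H f x| ≤ δ) ∧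
      ∫⁻ z in A, ENNReal.ofReal (CH (fun w => ρ (ψ.symm w) + W (ψ.symm w)) z).det.re ≤
        ENNReal.ofReal δ := by
  classical
  have hR := hF.hR
  have hsub : closedBall (0 : E n) 1 ⊆ ball (0 : E n) R := closedBall_subset_ball hR
  have hsub1 : ball (0 : E n) 1 ⊆ ball (0 : E n) R := ball_subset_closedBall.trans hsub
  obtain ⟨ρ', hρ'⟩ : ∃ ρ' : E n → ℝ, ρ' = fun z => ρ (ψ.symm z) := ⟨_, rfl⟩
  have hρe : ∀ z, ρ' z = ρ (ψ.symm z) := fun z => by rw [hρ']
  have hρs : ContDiffOn ℝ ∞ ρ' (ball (0 : E n) R) := by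
    rw [hρ']
    exact (smooth_chart hp.opn hp.smooth hψ).mono hB
  have h2le : (2 : WithTop ℕ∞) ≤ ∞ := WithTop.coe_le_coe.2 le_top
  have hρ2 : ContDiffOn ℝ 2 ρ' (ball (0 : E n) R) := hρs.of_le h2le
  have hpd : ∀ z ∈ ball (0 : E n) R, (CH ρ' z).PosDef := by
    intro z hz
    have hzt := (hB hz).1
    have hzU : ψ.symm z ∈ U := (hB hz).2
    have h1 : CH ρ' z = inCh ψ (hess ρ) z := by
      rw [hρ']
      exact CH_chart hψ hzt ((hp.smooth _ hzU).contMDiffAt (hp.opn.mem_nhds hzU))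
    rw [h1]
    unfold inCh
    rw [hp.hess _ hzU, ← CScaleAux.star_conj]
    exact (Matrix.IsUnit.posDef_star_left_conjugate_iff (CScaleAux.isUnit_conj hψ hzt)).2
      (K.pos _)
  have hρpsh : Psh (ball (0 : E n) R) ρ' := by
    refine psh_of_levi isOpen_ball hρ2 fun z hz b => ?_
    exact (CH_psd_levi (hρ2.contDiffAt (isOpen_ball.mem_nhds hz))).1 (hpd z hz).posSemidef b
  -- sets and cut-off function
  obtain ⟨A₀, hA₀, hLA, hcl, hclc⟩ :=
    exists_open_between_and_isCompact_closure hL isOpen_ball hLB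
  obtain ⟨Kc, hKc, hK1, hK2⟩ := exists_compact_between hclc isOpen_ball hcl
  obtain ⟨χ, hχ1, hχ0, hχI⟩ := exists_contMDiffMap_one_nhds_of_subset_interior
    (n := (⊤ : ℕ∞)) 𝓘(ℝ, E n) hclc.isClosed hK1
  have hχ : ContDiff ℝ ∞ (χ : E n → ℝ) := χ.contMDiff.contDiff
  obtain ⟨θ, hθ⟩ : ∃ θ : E n → ℝ, θ = fun z => 2 * χ z - 1 := ⟨_, rfl⟩
  have hθs : ContDiff ℝ ∞ θ := by
    rw [hθ]
    exact (contDiff_const.mul hχ).sub contDiff_const
  have hθ1 : ∀ z ∈ A₀, θ z = 1 := by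
    intro z hz
    have h1 : χ z = 1 := hχ1.self_of_nhdsSet z (subset_closure hz)
    rw [hθ]
    simp only [h1]
    norm_num
  have hθ0 : ∀ z, z ∉ Kc → θ z = -1 := by
    intro z hz
    have h1 : χ z = 0 := hχ0 z hz
    rw [hθ]
    simp only [h1]
    norm_num
  have hθI : ∀ z, -1 ≤ θ z ∧ θ z ≤ 1 := by
    intro z
    have h1 := hχI z
    rw [hθ]
    simp only
    constructor <;> linarith [h1.1, h1.2]
  -- the obstacle
  obtain ⟨Ψ, hΨ, hΨH, hlt⟩ := exists_obs hn hF hclc hcl (half_pos hδ)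
  obtain ⟨u, hu⟩ : ∃ u : E n → ℝ, u = oenv R F Ψ := ⟨_, rfl⟩
  have huc : OCand R Ψ u := by rw [hu]; exact oenv_ocand hΨ
  have hucont : Continuous u := by
    obtain ⟨Kc', Lc, h₀, hreg⟩ := oenv_reg hΨ
    rw [hu]
    exact hreg.continuous
  have huoff : ∀ z, z ∉ ball (0 : E n) 1 → u z = F z := by
    intro z hz
    rw [hu]
    exact oenv_off hz
  have huH : ∀ z ∈ ball (0 : E n) R, |u z - H z| ≤ δ / 2 := by
    intro z hz
    have h1 : u z ≤ H z := hH.max u ⟨huc.1, fun z _ hz1 => (huoff z hz1).le⟩ z hz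
    have h2 : H z - δ / 2 ≤ u z := by
      rw [hu]
      exact hΨH H hH.cand z hz
    rw [abs_le]
    constructor <;> linarith
  -- the constant `C`
  obtain ⟨Cc, hC0, Ω', hΩ', hKΩ', hΩR, hCpsh⟩ := exists_add_strict isOpen_ball
    (hθs.of_le h2le).contDiffOn hρ2 hpd (isCompact_closedBall (0 : E n) 1) hsub
  obtain ⟨η, hη, hth⟩ :=
    (isCompact_closedBall (0 : E n) 1).exists_thickening_subset_open hΩ' hKΩ'
  rw [thickening_closedBall hη zero_le_one] at hth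
  obtain ⟨R', hR'⟩ : ∃ R' : ℝ, R' = min (η + 1) ((1 + R) / 2) := ⟨_, rfl⟩
  have hR1 : 1 < R' := by
    rw [hR']
    refine lt_min ?_ ?_ <;> linarith
  have hR2 : R' < R := by
    rw [hR']
    exact (min_le_right _ _).trans_lt (by linarith)
  have hR3 : ball (0 : E n) R' ⊆ Ω' := by
    refine (ball_subset_ball ?_).trans hth
    rw [hR']
    exact min_le_left _ _
  have hR4 : ball (0 : E n) R' ⊆ ball (0 : E n) R := ball_subset_ball hR2.le
  have hR5 : ball (0 : E n) 1 ⊆ ball (0 : E n) R' := ball_subset_ball hR1.le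
  -- the global function `q`
  obtain ⟨q, hq, -, hqe⟩ := exists_global isOpen_ball (isCompact_closedBall (0 : E n) 1) hsub
    (f := fun z => Cc * ρ' z) (contDiffOn_const.mul hρs)
  -- bounds
  obtain ⟨B₁, hB₁⟩ : ∃ B₁ : ℝ, ∀ z ∈ closedBall (0 : E n) 1, |ρ' z - u z| ≤ B₁ := by
    have hc : ContinuousOn (fun z => ρ' z - u z) (closedBall (0 : E n) 1) :=
      (hρs.continuousOn.mono hsub).sub hucont.continuousOn
    obtain ⟨B, hB'⟩ := (isCompact_closedBall (0 : E n) 1).exists_bound_of_continuousOn hc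
    exact ⟨B, hB'⟩
  obtain ⟨B₂, hB₂⟩ := hf.bdd
  obtain ⟨B₃, hB₃⟩ : ∃ B₃ : ℝ, B₃ = 2 + Cc * |B₁| + Cc * |B₂| := ⟨_, rfl⟩
  have hB₃pos : 0 < B₃ := by
    rw [hB₃]
    have h1 := mul_nonneg hC0 (abs_nonneg B₁)
    have h2 := mul_nonneg hC0 (abs_nonneg B₂)
    linarith
  -- choice of `κ`
  have hev1 := env_small hΨ hclc hcl hlt hq hR2 hδ
  have hev2 : ∀ᶠ κ in 𝓝[>] (0 : ℝ), κ ∈ Ioo (0 : ℝ) (δ / 2 / B₃) :=
    Ioo_mem_nhdsGT (by positivity)
  obtain ⟨κ, ⟨V, hV, hVp, hVu, hVi⟩, hκ0, hκ1⟩ := (hev1.and hev2).exists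
  rw [← hu] at hVu
  have hκB : κ * B₃ ≤ δ / 2 := by
    have := (lt_div_iff₀ hB₃pos).1 hκ1
    linarith
  have hκC : 0 ≤ κ * Cc := mul_nonneg hκ0.le hC0
  have hVu1 : ∀ z, V z ≤ u z + κ / 2 := fun z => by linarith [(abs_le.1 (hVu z)).2]
  have hVu2 : ∀ z, u z - κ / 2 ≤ V z := fun z => by linarith [(abs_le.1 (hVu z)).1]
  obtain ⟨w, hw⟩ : ∃ w : E n → ℝ, w = fun z => if z ∈ Kc then max (u z) (V z + κ * θ z) else u z :=
    ⟨_, rfl⟩
  have hwin : ∀ z ∈ Kc, w z = max (u z) (V z + κ * θ z) := by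
    intro z hz
    rw [hw]
    exact if_pos hz
  have hwout : ∀ z, z ∉ Kc → w z = u z := by
    intro z hz
    rw [hw]
    exact if_neg hz
  have hwu : ∀ z, |w z - u z| ≤ 2 * κ := by
    intro z
    by_cases hz : z ∈ Kc
    · rw [hwin z hz]
      have h1 : κ * θ z ≤ κ := by nlinarith [(hθI z).2]
      have h2 : max (u z) (V z + κ * θ z) ≤ u z + 2 * κ := by
        refine max_le (by linarith) ?_
        linarith [hVu1 z]
      rw [abs_le]
      constructor
      · linarith [le_max_left (u z) (V z + κ * θ z)]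
      · linarith
    · rw [hwout z hz, sub_self, abs_zero]
      linarith
  have hwA : ∀ z ∈ A₀, w z = V z + κ := by
    intro z hz
    have hzK : z ∈ Kc := interior_subset (hK1 (subset_closure hz))
    rw [hwin z hzK, hθ1 z hz, mul_one]
    exact max_eq_right (by linarith [hVu2 z])
  -- the glued function is psh
  have hpg : Psh (ball (0 : E n) R') (fun z => w z + κ * (Cc * ρ' z)) := by
    have h1 : Psh (ball (0 : E n) R') (fun z => u z + κ * (Cc * ρ' z)) :=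
      (huc.1.mono hR4).add (((hρpsh.mono hR4).const_mul hC0).const_mul hκ0.le)
    have h2 : Psh (ball (0 : E n) R' ∩ ball (0 : E n) R')
        (fun z => V z + κ * (Cc * ρ' z + θ z)) := by
      rw [inter_self]
      exact hVp.add ((hCpsh.mono hR3).const_mul hκ0.le)
    refine psh_glue isOpen_ball h1 isOpen_ball h2 hKc.isClosed inter_subset_right ?_ ?_ ?_
    · intro z _ hz
      rw [hθ0 z hz]
      have := hVu1 z
      nlinarith
    · intro z hz
      rw [hwin z hz.1, ← max_add_add_right]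
      congr 1
      ring
    · intro z _ hz
      rw [hwout z hz]
  obtain ⟨t, ht⟩ : ∃ t : ℝ, t = (1 + κ * Cc)⁻¹ := ⟨_, rfl⟩
  have ht0 : 0 < t := by
    rw [ht]
    positivity
  have ht1 : t * (1 + κ * Cc) = 1 := by
    rw [ht]
    exact inv_mul_cancel₀ (by positivity)
  have ht2 : t ≤ 1 := by nlinarith
  obtain ⟨v', hv'⟩ : ∃ v' : E n → ℝ, v' = fun z => t * (w z + κ * (Cc * ρ' z)) := ⟨_, rfl⟩
  have hv'e : ∀ z, v' z = t * (w z + κ * (Cc * ρ' z)) := fun z => by rw [hv']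
  obtain ⟨f', hf'⟩ : ∃ f' : X → ℝ, f' = fun x => t * f x + (1 - t) * 0 := ⟨_, rfl⟩
  have hf'e : ∀ x, f' x = t * f x := fun x => by rw [hf']; ring
  have hf'B : BPsh K f' := by
    rw [hf']
    exact hf.convex' ((SPsh.zero K).bpsh' hX) ⟨ht0.le, ht2⟩
  have hW : BPsh K (glue ψ ρ v' f') := by
    refine glue_bpsh hp hψ hR1 (hR4.trans hB) hf'B ?_ ?_
    · rw [hv']
      exact hpg.const_mul ht0.le
    · intro z hz hz1
      have hzK : z ∉ Kc := fun h => hz1 (hK2 h)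
      rw [hv'e, hwout z hzK, huoff z hz1, hFf z (hR4 hz), hf'e, hρe]
      linear_combination (ρ (ψ.symm z)) * ht1
  have hglue : ∀ x, x ∈ ψ.source → ψ x ∈ ball (0 : E n) 1 →
      glue ψ ρ v' f' x = v' (ψ x) - ρ x := by
    intro x h1 h2
    unfold glue
    exact if_pos ⟨h1, h2⟩
  refine ⟨A₀, glue ψ ρ v' f', hA₀, hLA, subset_closure.trans hcl, hW, ?_, ?_, ?_⟩
  · -- smoothness
    have hsU : ψ.source ∩ ψ ⁻¹' A₀ ⊆ U := by
      rintro x ⟨hx1, hx2⟩
      have h1 : ψ x ∈ ball (0 : E n) R := hsub1 (hcl (subset_closure hx2))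
      have h2 : ψ.symm (ψ x) ∈ U := (hB h1).2
      rwa [ψ.left_inv hx1] at h2
    have hρS : ContMDiffOn 𝓘(ℝ, E n) 𝓘(ℝ, ℝ) ∞ ρ (ψ.source ∩ ψ ⁻¹' A₀) := hp.smooth.mono hsU
    have hψS : ContMDiffOn 𝓘(ℝ, E n) 𝓘(ℝ, E n) ∞ ψ (ψ.source ∩ ψ ⁻¹' A₀) :=
      (contMDiffOn_of_mem_maximalAtlas (Pool.Agent.K708.ra_of_ca hψ)).mono inter_subset_left
    have hVS : ContMDiffOn 𝓘(ℝ, E n) 𝓘(ℝ, ℝ) ∞ (fun x => V (ψ x)) (ψ.source ∩ ψ ⁻¹' A₀) :=
      hV.contMDiff.comp_contMDiffOn hψS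
    have hG : ContMDiffOn 𝓘(ℝ, E n) 𝓘(ℝ, ℝ) ∞
        (fun x => t * (V (ψ x) + κ + κ * (Cc * ρ x)) - ρ x) (ψ.source ∩ ψ ⁻¹' A₀) := by
      refine ContMDiffOn.sub ?_ hρS
      refine contMDiffOn_const.mul ?_
      refine (hVS.add contMDiffOn_const).add ?_
      exact contMDiffOn_const.mul (contMDiffOn_const.mul hρS)
    refine hG.congr ?_
    rintro x ⟨hx1, hx2⟩
    rw [hglue x hx1 (hcl (subset_closure hx2)), hv'e, hwA _ hx2, hρe, ψ.left_inv hx1]
  · -- distance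
    intro x
    by_cases hx : x ∈ ψ.source ∧ ψ x ∈ ball (0 : E n) 1
    · have hxc : ψ x ∈ closedBall (0 : E n) 1 := ball_subset_closedBall hx.2
      have e1 : glue ψ ρ H f x = H (ψ x) - ρ x := by
        unfold glue
        exact if_pos hx
      rw [hglue x hx.1 hx.2, e1, hv'e]
      have h1 := abs_le.1 (hwu (ψ x))
      have h2 := abs_le.1 (hB₁ (ψ x) hxc)
      have h3 := abs_le.1 (huH (ψ x) (hsub hxc))
      have h4 : t * (w (ψ x) + κ * (Cc * ρ' (ψ x))) - ρ x - (H (ψ x) - ρ x) =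
          t * (w (ψ x) - u (ψ x)) + t * (κ * Cc * (ρ' (ψ x) - u (ψ x))) +
            (u (ψ x) - H (ψ x)) := by
        linear_combination (u (ψ x)) * ht1
      have h5 : |t * (w (ψ x) - u (ψ x))| ≤ 2 * κ := by
        rw [abs_mul, abs_of_pos ht0]
        calc t * |w (ψ x) - u (ψ x)| ≤ 1 * (2 * κ) :=
              mul_le_mul ht2 (hwu _) (abs_nonneg _) zero_le_one
          _ = 2 * κ := one_mul _
      have h6 : |t * (κ * Cc * (ρ' (ψ x) - u (ψ x)))| ≤ κ * Cc * |B₁| := by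
        rw [abs_mul, abs_of_pos ht0, abs_mul, abs_of_nonneg hκC]
        calc t * (κ * Cc * |ρ' (ψ x) - u (ψ x)|) ≤ 1 * (κ * Cc * |B₁|) := by
              refine mul_le_mul ht2 ?_ (by positivity) zero_le_one
              exact mul_le_mul_of_nonneg_left ((hB₁ _ hxc).trans (le_abs_self _)) hκC
          _ = κ * Cc * |B₁| := one_mul _
      have h7 : κ * B₃ = 2 * κ + κ * Cc * |B₁| + κ * Cc * |B₂| := by rw [hB₃]; ring
      have h8 : 0 ≤ κ * Cc * |B₂| := by positivity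
      rw [h4]
      have h9 := abs_le.1 h5
      have h10 := abs_le.1 h6
      rw [abs_le]
      constructor <;> linarith [h9.1, h9.2, h10.1, h10.2, h3.1, h3.2]
    · have e1 : glue ψ ρ H f x = f x := by
        unfold glue
        exact if_neg hx
      have e2 : glue ψ ρ v' f' x = f' x := by
        unfold glue
        exact if_neg hx
      rw [e1, e2, hf'e]
      have h4 : t * f x - f x = -(t * (κ * Cc * f x)) := by
        linear_combination (f x) * ht1
      have h6 : |t * (κ * Cc * f x)| ≤ κ * Cc * |B₂| := by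
        rw [abs_mul, abs_of_pos ht0, abs_mul, abs_of_nonneg hκC]
        calc t * (κ * Cc * |f x|) ≤ 1 * (κ * Cc * |B₂|) := by
              refine mul_le_mul ht2 ?_ (by positivity) zero_le_one
              exact mul_le_mul_of_nonneg_left ((hB₂ x).trans (le_abs_self _)) hκC
          _ = κ * Cc * |B₂| := one_mul _
      have h7 : κ * B₃ = 2 * κ + κ * Cc * |B₁| + κ * Cc * |B₂| := by rw [hB₃]; ring
      have h8 : 0 ≤ κ * Cc * |B₁| := by positivity
      rw [h4, abs_neg]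
      linarith
  · -- the mass
    refine le_trans ?_ hVi
    refine le_trans ?_ (lintegral_mono_set (subset_closure (s := A₀)))
    refine setLIntegral_mono' hA₀.measurableSet fun z hz => ?_
    have hz1 : z ∈ ball (0 : E n) 1 := hcl (subset_closure hz)
    have hqz : ∀ᶠ y in 𝓝 z, q y = Cc * ρ' y :=
      hqe.filter_mono (nhds_le_nhdsSet (ball_subset_closedBall hz1))
    have hev : (fun y => ρ (ψ.symm y) + glue ψ ρ v' f' (ψ.symm y)) =ᶠ[𝓝 z]
        fun y => t * (V y + κ * q y) + t * κ := by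
      filter_upwards [hqz, hA₀.mem_nhds hz] with y hy1 hy2
      have hyB : y ∈ ball (0 : E n) 1 := hcl (subset_closure hy2)
      have hyt : y ∈ ψ.target := (hB (hsub1 hyB)).1
      have hys : ψ.symm y ∈ ψ.source := ψ.map_target hyt
      have hyr : ψ (ψ.symm y) = y := ψ.right_inv hyt
      rw [hglue _ hys (by rw [hyr]; exact hyB), hyr, hv'e, hwA y hy2, hy1]
      ring
    rw [CH_congr hev, CH_addc, CH_smul t ((hV.add (contDiff_const.mul hq)).contDiffAt.of_le h2le),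
      Matrix.det_smul, Fintype.card_fin]
    have e1 : ((t : ℂ) ^ n) = ((t ^ n : ℝ) : ℂ) := by push_cast; rfl
    rw [e1, Complex.re_ofReal_mul, ENNReal.ofReal_mul (by positivity)]
    calc ENNReal.ofReal (t ^ n) * ENNReal.ofReal (CH (fun w => V w + κ * q w) z).det.re
        ≤ 1 * ENNReal.ofReal (CH (fun w => V w + κ * q w) z).det.re := by
          refine mul_le_mul_left ?_ _
          rw [ENNReal.ofReal_le_one]
          exact pow_le_one₀ ht0.le ht2
      _ = ENNReal.ofReal (CH (fun w => V w + κ * q w) z).det.re := one_mul _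

end Pool.Agent.DMA
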