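import Pool.Agent.Lib.DMA.E12
import Pool.Agent.Lib.DMA.Bal

/-! # Row E13: balls and balayage on the manifold (`exists_bal`)

PROOF. `φ = chartAt x`, `(U₀, ρ₀)` potential at `x`; `s > 0` with `closedBall (φ x) (2 s) ⊆ φ.target ∩ φ.symm⁻¹ U₀`.
`χ` = `exists_bump` (= 1 near the compact set `φ.symm '' closedBall (φ x) (3s/2)`, support in `U₀`); `ρ = χ ρ₀` is smooth on `X`;
`B1 = φ.source ∩ φ⁻¹ ball (φ x) (3s/2)`, `IsPot K.g B1 ρ` (`hess_congr`).  `B r = φ.source ∩ φ⁻¹ ball (φ x) (r s)`;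
closure and frontier: `φ.symm '' closedBall`, `φ.symm '' sphere` (compact, so closed).
For `r ∈ (0,1)`: `ψ` = `exists_scaled` with `c = φ x` and scale `r s`: `B r = ψ.source ∩ ψ⁻¹ ball 0 1`,
`R = 3/(2r) > 1`, `ball 0 R ⊆ ψ.target ∩ ψ.symm⁻¹ B1`.  For `f` with `SPsh K f`: `F` = globalisation (`exists_global`) of
`z ↦ ρ (ψ.symm z) + f (ψ.symm z)` near `closedBall 0 R'`, `1 < R' < R`: `Dat R' F` (`SPsh.bpsh'`, `BPsh.psh`).
`H` = `exists_env`, `h = glue ψ ρ H f`: `glue_bpsh`; `eq` by definition; `max`: for `g` the function `ρ + g` in the chart is in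
`Cand R' F`, `Env.max`; on `B r`: `g x ≤ H (ψ x) - ρ x`; `apx`: for `L ⊆ B r` compact, `ψ '' L` is compact, `exists_apx`,
`A = ψ.source ∩ ψ⁻¹ A'`; `ψ.target ∩ ψ.symm⁻¹ A = A'` (`A' ⊆ ball 0 1 ⊆ ψ.target`). -/

set_option autoImplicit false

open scoped Manifold ContDiff Topology ComplexOrder
open Set Filter Metric MeasureTheory

noncomputable section

namespace Pool.Agent.DMA

open Pool.Agent.K708 (E CMfd)

variable {n : ℕ} {X : CMfd n}

namespace E13Aux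

open CRuleAux

/-- A local potential, extended smoothly to the whole manifold. -/
theorem smooth_cut {K : Kahler X} {U₀ : Set X} {ρ₀ : X → ℝ} (hp : IsPot K.g U₀ ρ₀) {T : Set X}
    (hT : IsCompact T) (hTU : T ⊆ U₀) :
    ∃ ρ : X → ℝ, ContMDiff 𝓘(ℝ, E n) 𝓘(ℝ, ℝ) ∞ ρ ∧ ∀ᶠ y in 𝓝ˢ T, ρ y = ρ₀ y := by
  obtain ⟨χ, hχ, -, h1, h2, -⟩ := Pool.Agent.K708.exists_bump X hT hp.opn hTU
  refine ⟨fun y => χ y * ρ₀ y, ?_, ?_⟩
  · intro y
    by_cases hy : y ∈ U₀
    · exact (hχ y).mul (hp.smooth.contMDiffAt (hp.opn.mem_nhds hy))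
    · have h3 : χ =ᶠ[𝓝 y] 0 := notMem_tsupport_iff_eventuallyEq.1 fun h => hy (h2 h)
      have h4 : (fun y => χ y * ρ₀ y) =ᶠ[𝓝 y] fun _ => (0 : ℝ) := by
        filter_upwards [h3] with w hw
        rw [hw, Pi.zero_apply, zero_mul]
      exact contMDiffAt_const.congr_of_eventuallyEq h4
  · filter_upwards [h1] with y hy
    rw [hy, one_mul]

theorem isPot_congr {K : Kahler X} {U₀ B1 : Set X} {ρ₀ ρ : X → ℝ} (hp : IsPot K.g U₀ ρ₀)
    (hB : IsOpen B1) (hρ : ContMDiff 𝓘(ℝ, E n) 𝓘(ℝ, ℝ) ∞ ρ) (hBU : B1 ⊆ U₀)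
    (he : ∀ y ∈ B1, ρ y = ρ₀ y) : IsPot K.g B1 ρ := by
  refine ⟨hB, hρ.contMDiffOn, fun y hy => ?_⟩
  rw [← hp.hess y (hBU hy)]
  refine hess_congr ?_
  filter_upwards [hB.mem_nhds hy] with w hw
  exact he w hw

/-- The closed coordinate ball. -/
theorem image_compact {φ : OpenPartialHomeomorph X (E n)} {S : Set (E n)} (hS : IsCompact S)
    (hSt : S ⊆ φ.target) : IsCompact (φ.symm '' S) :=
  hS.image_of_continuousOn (φ.continuousOn_symm.mono hSt)

theorem sub_image {φ : OpenPartialHomeomorph X (E n)} {c : E n} {t : ℝ} :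
    φ.source ∩ φ ⁻¹' ball c t ⊆ φ.symm '' closedBall c t := fun y hy =>
  ⟨φ y, ball_subset_closedBall hy.2, φ.left_inv hy.1⟩

theorem closure_sub {φ : OpenPartialHomeomorph X (E n)} {c : E n} {t : ℝ}
    (ht : closedBall c t ⊆ φ.target) :
    closure (φ.source ∩ φ ⁻¹' ball c t) ⊆ φ.symm '' closedBall c t :=
  closure_minimal sub_image (image_compact (isCompact_closedBall c t) ht).isClosed

theorem frontier_sub {φ : OpenPartialHomeomorph X (E n)} {c : E n} {t : ℝ}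
    (ht : closedBall c t ⊆ φ.target) :
    frontier (φ.source ∩ φ ⁻¹' ball c t) ⊆ {y | dist (φ y) c = t} := by
  intro y hy
  have ho : IsOpen (φ.source ∩ φ ⁻¹' ball c t) := φ.isOpen_inter_preimage isOpen_ball
  rw [ho.frontier_eq] at hy
  obtain ⟨z, hz, rfl⟩ := closure_sub ht hy.1
  have h1 : φ (φ.symm z) = z := φ.right_inv (ht hz)
  have h2 : z ∉ ball c t := fun h => hy.2 ⟨φ.map_target (ht hz), by
    rw [mem_preimage, h1]
    exact h⟩
  rw [mem_setOf_eq, h1]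
  exact le_antisymm hz (not_lt.1 h2)

/-- The balayage on one ball. -/
theorem bal_one (hn : 0 < n) (hX : CompactSpace X) {K : Kahler X} {B1 : Set X} {ρ : X → ℝ}
    (hρ : ContMDiff 𝓘(ℝ, E n) 𝓘(ℝ, ℝ) ∞ ρ) (hp : IsPot K.g B1 ρ)
    {ψ : OpenPartialHomeomorph X (E n)} (hψ : ψ ∈ CA X) {R : ℝ} (hR : 1 < R)
    (hB : ball (0 : E n) R ⊆ ψ.target ∩ ψ.symm ⁻¹' B1) {f : X → ℝ} (hf : SPsh K f) :
    ∃ h, IsBal K (ψ.source ∩ ψ ⁻¹' ball 0 1) f h := by
  have hR1 : 1 < (1 + R) / 2 := by linarith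
  have hR2 : (1 + R) / 2 < R := by linarith
  set R' := (1 + R) / 2 with hR'
  clear_value R'
  have hfb : BPsh K f := SPsh.bpsh' hX hf
  have hsub : ball (0 : E n) R' ⊆ ball 0 R := ball_subset_ball hR2.le
  have hB' : ball (0 : E n) R' ⊆ ψ.target ∩ ψ.symm ⁻¹' B1 := hsub.trans hB
  have h1B : ball (0 : E n) 1 ⊆ ψ.target ∩ ψ.symm ⁻¹' B1 := (ball_subset_ball hR1.le).trans hB'
  -- the smooth function in the chart
  have hs : ContDiffOn ℝ ∞ (fun z => ρ (ψ.symm z) + f (ψ.symm z)) (ball (0 : E n) R) := by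
    have h1 := smooth_chart isOpen_univ (hρ.add hf.1).contMDiffOn hψ
    rw [preimage_univ, inter_univ] at h1
    exact h1.mono fun z hz => (hB hz).1
  obtain ⟨F, hF, hFc, hFe⟩ := exists_global isOpen_ball (isCompact_closedBall (0 : E n) R')
    (closedBall_subset_ball hR2) hs
  have hFf : ∀ z ∈ ball (0 : E n) R', F z = ρ (ψ.symm z) + f (ψ.symm z) := fun z hz =>
    hFe.self_of_nhdsSet z (ball_subset_closedBall hz)
  have hD : Dat R' F := ⟨hR1, hF, hFc, ((hfb.psh B1 ρ hp ψ hψ).mono hB').congr hFf⟩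
  obtain ⟨H, hH⟩ := exists_env hn hD
  have hmem : ∀ z ∈ ball (0 : E n) R', z ∉ ball (0 : E n) 1 →
      ψ.symm z ∉ ψ.source ∩ ψ ⁻¹' ball 0 1 := by
    intro z hz hz1 h
    apply hz1
    have := h.2
    rwa [mem_preimage, ψ.right_inv (hB' hz).1] at this
  refine ⟨glue ψ ρ H f, ?_, ?_, ?_, ?_⟩
  · refine glue_bpsh hp hψ hR1 hB' hfb hH.cand.1 fun z hz hz1 => ?_
    rw [hH.eq z hz hz1, hFf z hz]
  · intro x hx
    exact if_neg hx
  · intro g hg hgf x
    by_cases hx : x ∈ ψ.source ∩ ψ ⁻¹' ball 0 1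
    · have h1 : glue ψ ρ H f x = H (ψ x) - ρ x := if_pos hx
      have hc : Cand R' F (fun z => ρ (ψ.symm z) + g (ψ.symm z)) := by
        refine ⟨(hg.psh B1 ρ hp ψ hψ).mono hB', fun z hz hz1 => ?_⟩
        rw [hFf z hz]
        exact add_le_add le_rfl (hgf _ (hmem z hz hz1))
      have h2 := hH.max _ hc (ψ x) (ball_subset_ball hR1.le hx.2)
      simp only [ψ.left_inv hx.1] at h2
      rw [h1]
      linarith
    · have h1 : glue ψ ρ H f x = f x := if_neg hx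
      rw [h1]
      exact hgf x hx
  · intro L hLB hL δ hδ
    have hL' : IsCompact (ψ '' L) :=
      hL.image_of_continuousOn (ψ.continuousOn.mono fun x hx => (hLB hx).1)
    have hLB' : ψ '' L ⊆ ball (0 : E n) 1 := by
      rintro _ ⟨x, hx, rfl⟩
      exact (hLB hx).2
    obtain ⟨A', W, hA, hLA, hAB, hW, hWs, hWh, hi⟩ :=
      exists_apx hn hX hp hψ hB' hfb hD hFf hH hL' hLB' hδ
    refine ⟨ψ.source ∩ ψ ⁻¹' A', W, ψ, B1, ρ, ψ.isOpen_inter_preimage hA,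
      fun x hx => ⟨(hLB hx).1, hLA ⟨x, hx, rfl⟩⟩, fun x hx => ⟨hx.1, hAB hx.2⟩, hW, hWs, hWh, hψ,
      hp, fun x hx => ⟨hx.1, ?_⟩, ?_⟩
    · have := (h1B (hAB hx.2)).2
      rwa [mem_preimage, ψ.left_inv hx.1] at this
    · have he : ψ.target ∩ ψ.symm ⁻¹' (ψ.source ∩ ψ ⁻¹' A') = A' := by
        ext z
        constructor
        · rintro ⟨hz, -, hz2⟩
          rwa [mem_preimage, ψ.right_inv hz] at hz2
        · intro hz
          have h1 := (h1B (hAB hz)).1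
          refine ⟨h1, ψ.map_target h1, ?_⟩
          rw [mem_preimage, ψ.right_inv h1]
          exact hz
      rw [he]
      exact hi

end E13Aux

open E13Aux CRuleAux

theorem exists_bal' (hn : 0 < n) (hX : CompactSpace X) (K : Kahler X) (x : X) :
    ∃ (B : ℝ → Set X) (B1 : Set X) (ρ : X → ℝ), ContMDiff 𝓘(ℝ, E n) 𝓘(ℝ, ℝ) ∞ ρ ∧
      IsPot K.g B1 ρ ∧
      (∀ r ∈ Ioo (0 : ℝ) 1, IsOpen (B r) ∧ x ∈ B r ∧ closure (B r) ⊆ B1 ∧
        ∀ f, SPsh K f → ∃ h, IsBal K (B r) f h) ∧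
      ∀ r ∈ Ioo (0 : ℝ) 1, ∀ s ∈ Ioo (0 : ℝ) 1, r ≠ s →
        Disjoint (frontier (B r)) (frontier (B s)) := by
  obtain ⟨U₀, ρ₀, hxU, hp⟩ := K.pot x
  have hφ : chartAt (E n) x ∈ CA X := chart_mem x
  have hxs : x ∈ (chartAt (E n) x).source := mem_chart_source _ x
  generalize chartAt (E n) x = φ at hφ hxs
  have hO : IsOpen (φ.target ∩ φ.symm ⁻¹' U₀) := φ.symm.isOpen_inter_preimage hp.opn
  have hc : φ x ∈ φ.target ∩ φ.symm ⁻¹' U₀ := by
    refine ⟨φ.map_source hxs, ?_⟩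
    rw [mem_preimage, φ.left_inv hxs]
    exact hxU
  obtain ⟨t, ht, hball⟩ := Metric.nhds_basis_closedBall.mem_iff.1 (hO.mem_nhds hc)
  obtain ⟨s, hs, rfl⟩ : ∃ s : ℝ, 0 < s ∧ t = 2 * s := ⟨t / 2, by linarith, by ring⟩
  set c := φ x with hcdef
  have hcl : ∀ u ≤ 2 * s, closedBall c u ⊆ φ.target := fun u hu z hz =>
    (hball (closedBall_subset_closedBall hu hz)).1
  have hTc : IsCompact (φ.symm '' closedBall c (3 * s / 2)) :=
    image_compact (isCompact_closedBall _ _) (hcl _ (by linarith))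
  have hTU : φ.symm '' closedBall c (3 * s / 2) ⊆ U₀ := by
    rintro _ ⟨z, hz, rfl⟩
    exact (hball (closedBall_subset_closedBall (by linarith) hz)).2
  obtain ⟨ρ, hρ, hρe⟩ := smooth_cut hp hTc hTU
  have hB1T : φ.source ∩ φ ⁻¹' ball c (3 * s / 2) ⊆ φ.symm '' closedBall c (3 * s / 2) := sub_image
  have hpB : IsPot K.g (φ.source ∩ φ ⁻¹' ball c (3 * s / 2)) ρ :=
    isPot_congr hp (φ.isOpen_inter_preimage isOpen_ball) hρ (hB1T.trans hTU)
      fun y hy => hρe.self_of_nhdsSet y (hB1T hy)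
  refine ⟨fun r => φ.source ∩ φ ⁻¹' ball c (r * s), φ.source ∩ φ ⁻¹' ball c (3 * s / 2), ρ, hρ,
    hpB, fun r hr => ⟨φ.isOpen_inter_preimage isOpen_ball, ⟨hxs, ?_⟩, ?_, ?_⟩, ?_⟩
  · rw [mem_preimage, ← hcdef]
    exact mem_ball_self (mul_pos hr.1 hs)
  · have hrs : r * s < 3 * s / 2 := by nlinarith [hr.2]
    refine (closure_sub (hcl _ (by linarith))).trans ?_
    rintro _ ⟨z, hz, rfl⟩
    have hzt : z ∈ φ.target := hcl _ (by linarith) hz
    refine ⟨φ.map_target hzt, ?_⟩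
    rw [mem_preimage, φ.right_inv hzt]
    exact closedBall_subset_ball hrs hz
  · intro f hf
    have hrs : 0 < r * s := mul_pos hr.1 hs
    obtain ⟨ψ, hψ, hsrc, hψe, htgt, hsymm⟩ := exists_scaled hφ c hrs
    have hBe : φ.source ∩ φ ⁻¹' ball c (r * s) = ψ.source ∩ ψ ⁻¹' ball 0 1 := by
      rw [hsrc]
      ext y
      have h1 : ψ y ∈ ball (0 : E n) 1 ↔ φ y ∈ ball c (r * s) := by
        rw [hψe, mem_ball, mem_ball, dist_zero_right, dist_eq_norm, norm_smul, Complex.norm_real,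
          norm_inv, Real.norm_eq_abs, abs_of_pos hrs, inv_mul_lt_one₀ hrs]
      rw [mem_inter_iff, mem_inter_iff, mem_preimage, mem_preimage, h1]
    have hR : 1 < 3 / (2 * r) := by
      rw [one_lt_div (by linarith [hr.1])]
      linarith [hr.2]
    change ∃ h, IsBal K (φ.source ∩ φ ⁻¹' ball c (r * s)) f h
    rw [hBe]
    refine bal_one hn hX hρ hpB hψ hR ?_ hf
    intro z hz
    have hz1 : c + ((r * s : ℝ) : ℂ) • z ∈ ball c (3 * s / 2) := by
      rw [mem_ball, dist_eq_norm, add_sub_cancel_left, norm_smul, Complex.norm_real,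
        Real.norm_eq_abs, abs_of_pos hrs]
      rw [mem_ball, dist_zero_right] at hz
      calc r * s * ‖z‖ < r * s * (3 / (2 * r)) := mul_lt_mul_of_pos_left hz hrs
        _ = 3 * s / 2 := by
          have := hr.1.ne'
          field_simp
    have hz2 : c + ((r * s : ℝ) : ℂ) • z ∈ φ.target :=
      hcl (3 * s / 2) (by linarith) (ball_subset_closedBall hz1)
    refine ⟨?_, ?_⟩
    · rw [htgt]
      exact hz2
    · rw [mem_preimage, hsymm]
      refine ⟨φ.map_target hz2, ?_⟩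
      rw [mem_preimage, φ.right_inv hz2]
      exact hz1
  · intro r hr r' hr' hne
    have h1 : ∀ u ∈ Ioo (0 : ℝ) 1, closedBall c (u * s) ⊆ φ.target := fun u hu =>
      hcl _ (by nlinarith [hu.2])
    refine Set.disjoint_left.2 fun y hy hy' => hne ?_
    have h2 : dist (φ y) c = r * s := frontier_sub (h1 r hr) hy
    have h3 : dist (φ y) c = r' * s := frontier_sub (h1 r' hr') hy'
    exact mul_right_cancel₀ hs.ne' (h2.symm.trans h3)

end Pool.Agent.DMA
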