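import Pool.Agent.Lib.DMA.E1

/-! # Row E2: translated competitors

PROOF. `lip_const`, `snd_const`: `f` smooth with compact support: `fderiv f` and `D2 f` are continuous with
compact support, so bounded; mean value inequality (`Convex.norm_image_sub_le_of_norm_fderiv_le` on
`univ`), resp. `f(z+v)+f(z-v)-2f(z) = ∫` or: the function `t ↦ f(z+tv)+f(z-tv)` has derivative
`(Df(z+tv) - Df(z-tv)) v`, of norm `≤ 2 t M ‖v‖²`.
`transl`: `L` = common Lipschitz constant of `F`, `Ψ`; `h₀ = (R-1)/4`; `w z = g (z + v) - L ‖v‖` is psh on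
`O = ball 0 (R - ‖v‖)` (`Psh.comp_affine`); `C = closedBall 0 (1 + ‖v‖)`; for `‖z‖ > 1 + ‖v‖` we have
`‖z + v‖ > 1`, so `w z ≤ Ψ(z+v) - L‖v‖ = F(z+v) - L‖v‖ ≤ F z`; `g' = max F w` on `C`, `F` off `C`: `psh_glue` with
`v := F`.  `g' ≤ Ψ`: `w z ≤ Ψ(z+v) - L‖v‖ ≤ Ψ z`, `F ≤ Ψ`.
`transl2`: the same with `w z = (g(z+v) + g(z-v))/2 - Kc/2 ‖v‖²`, `Kc` = bound for the second differences of
`F` and `Ψ`. -/

set_option autoImplicit false

open scoped Topology ContDiff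
open Set Filter Metric

noncomputable section

namespace Pool.Agent.DMA

open Pool.Agent.K708 (E CMfd)

variable {n : ℕ} {R : ℝ} {F Ψ : E n → ℝ}

namespace E2aux

open Classical in
/-- gluing of a competitor on the polydisc of radius `1 + ‖v‖` -/
theorem glue_cand (h : Obs R F Ψ) {r : ℝ} (hr0 : 0 ≤ r) (hr : 1 + 2 * r < R) {w : E n → ℝ}
    (hw : Psh (ball (0 : E n) (R - r)) w)
    (hF : ∀ z, ‖z‖ < R - r → 1 + r < ‖z‖ → w z ≤ F z)
    (hΨ : ∀ z, ‖z‖ < R - r → w z ≤ Ψ z) :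
    ∃ g', OCand R Ψ g' ∧ ∀ z, ‖z‖ ≤ 1 + r → w z ≤ g' z := by
  refine ⟨fun z => if z ∈ closedBall (0 : E n) (1 + r) then max (F z) (w z) else F z, ?_, ?_⟩
  · refine ⟨?_, ?_⟩
    · refine psh_glue (Ω := ball (0 : E n) R) (O := ball (0 : E n) (R - r))
        (C := closedBall (0 : E n) (1 + r)) (v := F) (w := w) isOpen_ball h.psh isOpen_ball
        (hw.mono inter_subset_left) isClosed_closedBall ?_ ?_ ?_ ?_
      · rintro z ⟨hz, -⟩
        rw [mem_closedBall_zero_iff] at hz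
        rw [mem_ball_zero_iff]
        linarith
      · rintro z ⟨hz, -⟩ hzC
        rw [mem_ball_zero_iff] at hz
        rw [mem_closedBall_zero_iff, not_le] at hzC
        exact hF z hz hzC
      · rintro z ⟨hz, -⟩
        exact if_pos hz
      · intro z _ hz
        exact if_neg hz
    · intro z _
      change (if z ∈ closedBall (0 : E n) (1 + r) then max (F z) (w z) else F z) ≤ Ψ z
      split_ifs with hz
      · rw [mem_closedBall_zero_iff] at hz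
        exact max_le (h.le z) (hΨ z (by linarith))
      · exact h.le z
  · intro z hz
    have hz' : z ∈ closedBall (0 : E n) (1 + r) := by
      rw [mem_closedBall_zero_iff]
      exact hz
    change w z ≤ (if z ∈ closedBall (0 : E n) (1 + r) then max (F z) (w z) else F z)
    rw [if_pos hz']
    exact le_max_right _ _

/-- translates of psh functions -/
theorem psh_transl {g : E n → ℝ} (hg : Psh (ball (0 : E n) R) g) {v : E n} {r : ℝ}
    (hv : ‖v‖ ≤ r) : Psh (ball (0 : E n) (R - r)) (fun z => g (z + v)) := by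
  have h1 := (hg.comp_affine v 1).mono (Ω' := ball (0 : E n) (R - r)) (by
    intro z hz
    rw [mem_ball_zero_iff] at hz
    change v + (1 : ℂ) • z ∈ ball (0 : E n) R
    rw [mem_ball_zero_iff, one_smul]
    calc ‖v + z‖ ≤ ‖v‖ + ‖z‖ := norm_add_le _ _
      _ < R := by linarith)
  refine h1.congr fun z _ => ?_
  rw [one_smul, add_comm]

theorem norm_lt_add {z v : E n} {r : ℝ} (hv : ‖v‖ ≤ r) (hz : ‖z‖ < R - r) : ‖z + v‖ < R := by
  calc ‖z + v‖ ≤ ‖z‖ + ‖v‖ := norm_add_le _ _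
    _ < R := by linarith

theorem one_lt_add {z v : E n} {r : ℝ} (hv : ‖v‖ ≤ r) (hz : 1 + r < ‖z‖) : 1 < ‖z + v‖ := by
  have h1 : ‖z‖ ≤ ‖z + v‖ + ‖v‖ := by
    calc ‖z‖ = ‖(z + v) - v‖ := by rw [add_sub_cancel_right]
      _ ≤ ‖z + v‖ + ‖v‖ := norm_sub_le _ _
  linarith

theorem cand_le (h : Obs R F Ψ) {g : E n → ℝ} (hg : OCand R Ψ g) {z : E n} (hz : ‖z‖ < R) :
    g z ≤ Ψ z := hg.2 z (by rw [mem_ball_zero_iff]; exact hz)

theorem Psi_eq (h : Obs R F Ψ) {z : E n} (hz : 1 < ‖z‖) : Ψ z = F z :=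
  h.eq z (by rw [mem_ball_zero_iff]; linarith)

end E2aux

theorem lip_const {f : E n → ℝ} (hf : ContDiff ℝ ∞ f) (hc : HasCompactSupport f) :
    ∃ L : ℝ, 0 ≤ L ∧ ∀ z v : E n, |f (z + v) - f z| ≤ L * ‖v‖ := by
  obtain ⟨C, hC⟩ := hf.lipschitzWith_of_hasCompactSupport hc (by simp)
  refine ⟨C, C.2, fun z v => ?_⟩
  have h1 := hC.dist_le_mul (z + v) z
  rw [Real.dist_eq, dist_eq_norm, add_sub_cancel_left] at h1
  exact h1

theorem snd_const {f : E n → ℝ} (hf : ContDiff ℝ ∞ f) (hc : HasCompactSupport f) :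
    ∃ Kc : ℝ, 0 ≤ Kc ∧ ∀ z v : E n, |f (z + v) + f (z - v) - 2 * f z| ≤ Kc * ‖v‖ ^ 2 := by
  have hf1 : ContDiff ℝ ∞ (fderiv ℝ f) := hf.fderiv_right (m := ∞) (by simp)
  obtain ⟨C, hC⟩ := hf1.lipschitzWith_of_hasCompactSupport (hc.fderiv (𝕜 := ℝ)) (by simp)
  have hd : Differentiable ℝ f := hf.differentiable (by simp)
  refine ⟨2 * C, by positivity, fun z v => ?_⟩
  have hder : ∀ t : ℝ, HasDerivAt (fun t : ℝ => f (z + t • v) + f (z - t • v))
      (fderiv ℝ f (z + t • v) v + fderiv ℝ f (z - t • v) (-v)) t := by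
    intro t
    have h1 : HasDerivAt (fun t : ℝ => z + t • v) v t := by
      have := ((hasDerivAt_id t).smul_const v).const_add z
      simpa using this
    have h2 : HasDerivAt (fun t : ℝ => z - t • v) (-v) t := by
      have := ((hasDerivAt_id t).smul_const v).const_sub z
      simpa using this
    exact ((hd (z + t • v)).hasFDerivAt.comp_hasDerivAt t h1).add
      ((hd (z - t • v)).hasFDerivAt.comp_hasDerivAt t h2)
  have hbound : ∀ t ∈ Ico (0 : ℝ) 1,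
      ‖fderiv ℝ f (z + t • v) v + fderiv ℝ f (z - t • v) (-v)‖ ≤ 2 * C * ‖v‖ ^ 2 := by
    intro t ht
    have h1 : fderiv ℝ f (z + t • v) v + fderiv ℝ f (z - t • v) (-v) =
        (fderiv ℝ f (z + t • v) - fderiv ℝ f (z - t • v)) v := by
      rw [ContinuousLinearMap.sub_apply, map_neg]
      ring
    have h2 : ‖fderiv ℝ f (z + t • v) - fderiv ℝ f (z - t • v)‖ ≤ C * (2 * ‖v‖) := by
      have h3 := hC.dist_le_mul (z + t • v) (z - t • v)
      rw [dist_eq_norm, dist_eq_norm] at h3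
      refine h3.trans ?_
      have h4 : z + t • v - (z - t • v) = (2 * t) • v := by
        rw [mul_smul, two_smul]
        abel
      rw [h4, norm_smul, Real.norm_eq_abs, abs_of_nonneg (by linarith [ht.1])]
      have h5 : 2 * t * ‖v‖ ≤ 2 * ‖v‖ := by nlinarith [norm_nonneg v, ht.2]
      exact mul_le_mul_of_nonneg_left h5 C.2
    rw [h1]
    calc ‖(fderiv ℝ f (z + t • v) - fderiv ℝ f (z - t • v)) v‖
        ≤ ‖fderiv ℝ f (z + t • v) - fderiv ℝ f (z - t • v)‖ * ‖v‖ :=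
          ContinuousLinearMap.le_opNorm _ _
      _ ≤ C * (2 * ‖v‖) * ‖v‖ := mul_le_mul_of_nonneg_right h2 (norm_nonneg _)
      _ = 2 * C * ‖v‖ ^ 2 := by ring
  have h6 := norm_image_sub_le_of_norm_deriv_le_segment_01'
    (f := fun t : ℝ => f (z + t • v) + f (z - t • v)) (fun t _ => (hder t).hasDerivWithinAt) hbound
  simp only [one_smul, zero_smul, add_zero, sub_zero, Real.norm_eq_abs] at h6
  have h7 : f (z + v) + f (z - v) - 2 * f z = f (z + v) + f (z - v) - (f z + f z) := by ring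
  rw [h7]
  exact h6

theorem transl (h : Obs R F Ψ) : ∃ L h₀ : ℝ, 0 ≤ L ∧ 0 < h₀ ∧ 1 + 2 * h₀ < R ∧
    ∀ g, OCand R Ψ g → ∀ v : E n, ‖v‖ ≤ h₀ → ∃ g', OCand R Ψ g' ∧
      ∀ z, ‖z‖ ≤ 1 + ‖v‖ → g (z + v) - L * ‖v‖ ≤ g' z := by
  obtain ⟨L₁, hL₁, hF⟩ := lip_const h.sm h.cs
  obtain ⟨L₂, hL₂, hΨ⟩ := lip_const h.smo h.cso
  have hR := h.hR
  refine ⟨L₁ + L₂, (R - 1) / 4, by positivity, by linarith, by linarith, fun g hg v hv => ?_⟩
  have hv0 := norm_nonneg v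
  have hw : Psh (ball (0 : E n) (R - ‖v‖)) (fun z => g (z + v) - (L₁ + L₂) * ‖v‖) := by
    have h1 := (E2aux.psh_transl hg.1 (le_refl ‖v‖)).add_const (-((L₁ + L₂) * ‖v‖))
    exact h1.congr fun z _ => by ring
  have h1 : ∀ z, ‖z‖ < R - ‖v‖ → g (z + v) ≤ Ψ (z + v) := fun z hz =>
    E2aux.cand_le h hg (E2aux.norm_lt_add le_rfl hz)
  refine E2aux.glue_cand h hv0 (by linarith) hw ?_ ?_
  · intro z hz hz1
    have h2 := h1 z hz
    rw [E2aux.Psi_eq h (E2aux.one_lt_add le_rfl hz1)] at h2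
    have h3 := (abs_le.1 (hF z v)).2
    nlinarith
  · intro z hz
    have h2 := h1 z hz
    have h3 := (abs_le.1 (hΨ z v)).2
    nlinarith

theorem transl2 (h : Obs R F Ψ) : ∃ Kc h₀ : ℝ, 0 ≤ Kc ∧ 0 < h₀ ∧ 1 + 2 * h₀ < R ∧
    ∀ g, OCand R Ψ g → ∀ v : E n, ‖v‖ ≤ h₀ → ∃ g', OCand R Ψ g' ∧
      ∀ z, ‖z‖ ≤ 1 + ‖v‖ → (g (z + v) + g (z - v)) / 2 - Kc / 2 * ‖v‖ ^ 2 ≤ g' z := by
  obtain ⟨L₁, hL₁, hF⟩ := snd_const h.sm h.cs
  obtain ⟨L₂, hL₂, hΨ⟩ := snd_const h.smo h.cso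
  have hR := h.hR
  refine ⟨L₁ + L₂, (R - 1) / 4, by positivity, by linarith, by linarith, fun g hg v hv => ?_⟩
  have hv0 := norm_nonneg v
  have hv2 : 0 ≤ ‖v‖ ^ 2 := by positivity
  have hnv : ‖-v‖ ≤ ‖v‖ := (norm_neg v).le
  have hw : Psh (ball (0 : E n) (R - ‖v‖))
      (fun z => (g (z + v) + g (z - v)) / 2 - (L₁ + L₂) / 2 * ‖v‖ ^ 2) := by
    have h1 := ((((E2aux.psh_transl hg.1 (le_refl ‖v‖)).add
      (E2aux.psh_transl hg.1 hnv))).const_mul (c := 1 / 2) (by norm_num)).add_const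
        (-((L₁ + L₂) / 2 * ‖v‖ ^ 2))
    refine h1.congr fun z _ => ?_
    rw [sub_eq_add_neg z v]
    ring
  have h1 : ∀ z, ‖z‖ < R - ‖v‖ → g (z + v) ≤ Ψ (z + v) := fun z hz =>
    E2aux.cand_le h hg (E2aux.norm_lt_add le_rfl hz)
  have h1' : ∀ z, ‖z‖ < R - ‖v‖ → g (z - v) ≤ Ψ (z - v) := fun z hz => by
    rw [sub_eq_add_neg]
    exact E2aux.cand_le h hg (E2aux.norm_lt_add hnv hz)
  refine E2aux.glue_cand h hv0 (by linarith) hw ?_ ?_
  · intro z hz hz1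
    have h2 := h1 z hz
    have h2' := h1' z hz
    rw [E2aux.Psi_eq h (E2aux.one_lt_add le_rfl hz1)] at h2
    have h5 : Ψ (z - v) = F (z - v) := by
      rw [sub_eq_add_neg]
      exact E2aux.Psi_eq h (E2aux.one_lt_add hnv hz1)
    rw [h5] at h2'
    have h3 := (abs_le.1 (hF z v)).2
    nlinarith
  · intro z hz
    have h2 := h1 z hz
    have h2' := h1' z hz
    have h3 := (abs_le.1 (hΨ z v)).2
    nlinarith

end Pool.Agent.DMA
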