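import Pool.Agent.Lib.DMA.E2

/-! # Row E3: the obstacle envelope is Lipschitz, psh, with bounded second differences

PROOF. Lipschitz (`U = oenv R F Ψ`, `‖v‖ ≤ h₀`, take the minimum of the `h₀`): if `z + v ∉ ball 0 1`:
`U (z+v) = F (z+v) ≤ F z + L‖v‖ ≤ U z + L‖v‖` (`lip_const`).  If `z + v ∈ ball 0 1`, then `‖z‖ ≤ 1 + ‖v‖`;
`exists_near` at `z + v`, `transl`, `le_oenv` at `z`.
Second differences: if both `z ± v` are off `ball 0 1`: `U (z±v) = F (z±v)` and `F z ≤ U z` (`snd_const`).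
Otherwise `‖z‖ ≤ 1 + ‖v‖`: `g` = maximum of candidates near the supremum at `z + v` and at `z - v` (both
points are in `ball 0 R`), `transl2`, `le_oenv` at `z`.
Continuity: the Lipschitz estimate at `z` and at `z + v` (with `-v`).  Psh: `psh_of_sup` with `exists_near`
and `le_oenv`.  Support: `U = F` off the unit polydisc. -/

set_option autoImplicit false

open scoped Topology ContDiff
open Set Filter Metric

noncomputable section

namespace Pool.Agent.DMA

open Pool.Agent.K708 (E CMfd)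

variable {n : ℕ} {R Kc L h₀ : ℝ} {F Ψ U : E n → ℝ}

private theorem abs_of_lip (hlip : ∀ z v : E n, ‖v‖ ≤ h₀ → U (z + v) ≤ U z + L * ‖v‖)
    (z v : E n) (hv : ‖v‖ ≤ h₀) : |U (z + v) - U z| ≤ L * ‖v‖ := by
  have h1 := hlip z v hv
  have h2 := hlip (z + v) (-v) (by rwa [norm_neg])
  rw [add_neg_cancel_right, norm_neg] at h2
  rw [abs_le]
  constructor <;> linarith

private theorem cont_of_lip (hL : 0 ≤ L) (hh : 0 < h₀)
    (hlip : ∀ z v : E n, ‖v‖ ≤ h₀ → U (z + v) ≤ U z + L * ‖v‖) : Continuous U := by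
  rw [Metric.continuous_iff]
  intro z ε hε
  refine ⟨min h₀ (ε / (L + 1)), lt_min hh (by positivity), fun w hw => ?_⟩
  rw [dist_eq_norm] at hw
  have h1 := abs_of_lip hlip z (w - z) (hw.le.trans (min_le_left _ _))
  rw [add_sub_cancel] at h1
  rw [Real.dist_eq]
  refine h1.trans_lt ?_
  have h2 : ‖w - z‖ < ε / (L + 1) := hw.trans_le (min_le_right _ _)
  have h3 : (L + 1) * ‖w - z‖ < ε := by
    rw [lt_div_iff₀ (by linarith)] at h2
    linarith [mul_comm (L + 1) ‖w - z‖]
  have h4 := norm_nonneg (w - z)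
  nlinarith

theorem Reg.abs_sub (h : Reg R Kc L h₀ U) (z v : E n) (hv : ‖v‖ ≤ h₀) :
    |U (z + v) - U z| ≤ L * ‖v‖ := abs_of_lip h.lip z v hv

theorem Reg.continuous (h : Reg R Kc L h₀ U) : Continuous U := cont_of_lip h.hL h.hh h.lip

theorem oenv_reg (h : Obs R F Ψ) : ∃ Kc L h₀ : ℝ, Reg R Kc L h₀ (oenv R F Ψ) := by
  obtain ⟨L1, h1, hL1, hh1, hR1, ht⟩ := transl h
  obtain ⟨K1, h2, hK1, hh2, hR2, ht2⟩ := transl2 h
  obtain ⟨L2, hL2, hl2⟩ := lip_const h.sm h.cs
  obtain ⟨K2, hK2, hs2⟩ := snd_const h.sm h.cs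
  have hball : ∀ (z : E n), z ∈ ball (0 : E n) R ↔ ‖z‖ < R := fun z => by
    rw [mem_ball, dist_zero_right]
  have hball1 : ∀ (z : E n), z ∈ ball (0 : E n) 1 ↔ ‖z‖ < 1 := fun z => by
    rw [mem_ball, dist_zero_right]
  have hlip : ∀ z v : E n, ‖v‖ ≤ min h1 h2 →
      oenv R F Ψ (z + v) ≤ oenv R F Ψ z + max L1 L2 * ‖v‖ := by
    intro z v hv
    have hv0 := norm_nonneg v
    have hv1 : ‖v‖ ≤ h1 := hv.trans (min_le_left _ _)
    by_cases hz : z + v ∈ ball (0 : E n) 1
    · have hz' := (hball1 _).1 hz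
      have hzn : ‖z‖ ≤ 1 + ‖v‖ := by
        have h3 := norm_sub_le (z + v) v
        rw [add_sub_cancel_right] at h3
        linarith
      refine le_of_forall_pos_le_add fun ε hε => ?_
      obtain ⟨g, hg, -, hgz⟩ := exists_near h ((hball (z + v)).2 (by linarith)) hε
      obtain ⟨g', hg', hgg⟩ := ht g hg v hv1
      have h4 := hgg z hzn
      have h5 := le_oenv h hg' ((hball z).2 (by linarith))
      have h6 : L1 * ‖v‖ ≤ max L1 L2 * ‖v‖ := mul_le_mul_of_nonneg_right (le_max_left _ _) hv0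
      linarith
    · rw [oenv_off hz]
      have h3 := hl2 z v
      have h4 := F_le_oenv h z
      have h5 := (abs_le.1 h3).2
      have h6 : L2 * ‖v‖ ≤ max L1 L2 * ‖v‖ := mul_le_mul_of_nonneg_right (le_max_right _ _) hv0
      linarith
  have hsnd : ∀ z v : E n, ‖v‖ ≤ min h1 h2 →
      oenv R F Ψ (z + v) + oenv R F Ψ (z - v) - 2 * oenv R F Ψ z ≤ max K1 K2 * ‖v‖ ^ 2 := by
    intro z v hv
    have hv0 := norm_nonneg v
    have hv2 : ‖v‖ ≤ h2 := hv.trans (min_le_right _ _)
    have hsq : 0 ≤ ‖v‖ ^ 2 := by positivity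
    have hK1' : K1 * ‖v‖ ^ 2 ≤ max K1 K2 * ‖v‖ ^ 2 :=
      mul_le_mul_of_nonneg_right (le_max_left _ _) hsq
    have hK2' : K2 * ‖v‖ ^ 2 ≤ max K1 K2 * ‖v‖ ^ 2 :=
      mul_le_mul_of_nonneg_right (le_max_right _ _) hsq
    by_cases hz : z + v ∉ ball (0 : E n) 1 ∧ z - v ∉ ball (0 : E n) 1
    · rw [oenv_off hz.1, oenv_off hz.2]
      have h3 := (abs_le.1 (hs2 z v)).2
      have h4 := F_le_oenv h z
      linarith
    · have hzn : ‖z‖ ≤ 1 + ‖v‖ := by
        rw [not_and_or, not_not, not_not] at hz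
        rcases hz with hz | hz
        · have hz' := (hball1 _).1 hz
          have h3 := norm_sub_le (z + v) v
          rw [add_sub_cancel_right] at h3
          linarith
        · have hz' := (hball1 _).1 hz
          have h3 := norm_add_le (z - v) v
          rw [sub_add_cancel] at h3
          linarith
      have hp : ‖z + v‖ < R := by
        have := norm_add_le z v
        linarith
      have hm : ‖z - v‖ < R := by
        have := norm_sub_le z v
        linarith
      refine le_of_forall_pos_le_add fun ε hε => ?_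
      obtain ⟨g1, hg1, -, hgz1⟩ := exists_near h ((hball (z + v)).2 hp) (half_pos hε)
      obtain ⟨g2, hg2, -, hgz2⟩ := exists_near h ((hball (z - v)).2 hm) (half_pos hε)
      obtain ⟨g', hg', hgg⟩ := ht2 _ (hg1.max hg2) v hv2
      have h4 := hgg z hzn
      have h5 := le_oenv h hg' ((hball z).2 (by linarith))
      have h6 : g1 (z + v) ≤ max (g1 (z + v)) (g2 (z + v)) := le_max_left _ _
      have h7 : g2 (z - v) ≤ max (g1 (z - v)) (g2 (z - v)) := le_max_right _ _
      linarith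
  refine ⟨max K1 K2, max L1 L2, min h1 h2, hK1.trans (le_max_left _ _), hL1.trans (le_max_left _ _),
    lt_min hh1 hh2, ?_, hlip, hsnd, ?_⟩
  · refine HasCompactSupport.intro ((isCompact_closedBall (0 : E n) 1).union h.cs) ?_
    intro z hz
    rw [mem_union, not_or] at hz
    have h3 : z ∉ ball (0 : E n) 1 := fun h3 => hz.1 (ball_subset_closedBall h3)
    rw [oenv_off h3]
    exact image_eq_zero_of_notMem_tsupport hz.2
  · refine psh_of_sup (cont_of_lip (hL1.trans (le_max_left _ _)) (lt_min hh1 hh2)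
      hlip).continuousOn ?_
    intro z hz ε hε
    obtain ⟨g, hg, -, hgz⟩ := exists_near h hz hε
    exact ⟨g, hg.1, fun w hw => le_oenv h hg hw, hgz⟩

theorem oenv_ocand (h : Obs R F Ψ) : OCand R Ψ (oenv R F Ψ) := by
  obtain ⟨Kc, L, h₀, hr⟩ := oenv_reg h
  exact ⟨hr.psh, fun z _ => oenv_le h z⟩

end Pool.Agent.DMA
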