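import Pool.Agent.Lib.DMA.E3
import Pool.Agent.Lib.DMA.D12
import Pool.Agent.Lib.DMA.D8
import Pool.Agent.Lib.DMA.D7

/-! # Row E4: mollifications of regular functions

PROOF. `moll_sub_le`: `moll_near` with `c = U z` (`Reg.abs_sub`).
`moll_D2_le`: second differences of `moll ε U` are bounded by `Kc ‖v‖²` for `‖v‖ ≤ h₀` (linearity of the
integral, `∫ φ = 1`, `φ ≥ 0`); `D2 V z b b = lim (V(z+tb) + V(z-tb) - 2V z)/t²` (Taylor for `t ↦ V(z+tb)`; or: if
`D2 V z b b > Kc‖b‖²` then by continuity of `D2 V` on a small segment the second difference is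
`> Kc t²‖b‖²`, by integrating twice).
`moll_levi`: `moll_psh` on `Z = ball 0 (R-ε)`, `Psh.levi_nonneg`.
`moll_D2_norm`: `|D2 V z b b| ≤ Kc‖b‖²` (`levi ≥ 0` and the upper bound for `I b`); `D2 V z` is symmetric:
polarisation `4 D2(a,b) = D2(a+b,a+b) - D2(a-b,a-b)`, for `‖a‖ = ‖b‖ = 1` this is `≤ 8 Kc`; scaling;
`ContinuousLinearMap.opNorm_le_bound₂`. -/

set_option autoImplicit false

open scoped Topology ContDiff
open Set Filter Metric MeasureTheory

noncomputable section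

namespace Pool.Agent.DMA

open Pool.Agent.K708 (E CMfd)

variable {n : ℕ} {R Kc L h₀ : ℝ} {U : E n → ℝ}

theorem Reg.locInt (h : Reg R Kc L h₀ U) : LocallyIntegrable U volume :=
  h.continuous.locallyIntegrable

theorem Reg.moll_smooth (h : Reg R Kc L h₀ U) (ε : ℝ) : ContDiff ℝ ∞ (moll ε U) :=
  moll_contDiff h.locInt

theorem Reg.moll_sub_le (h : Reg R Kc L h₀ U) {ε : ℝ} (hε : 0 < ε) (hε' : ε ≤ h₀) (z : E n) :
    |moll ε U z - U z| ≤ L * ε := by
  refine moll_near hε h.locInt fun y hy => ?_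
  rw [mem_ball, dist_eq_norm] at hy
  have h1 := h.abs_sub z (y - z) (hy.le.trans hε')
  rw [add_sub_cancel] at h1
  exact h1.trans (mul_le_mul_of_nonneg_left hy.le h.hL)

namespace E4Aux

/-- The integrand of a mollification is integrable. -/
theorem integrable (ε : ℝ) {v : E n → ℝ} (hv : Continuous v) (z : E n) :
    Integrable (fun t => (mb n ε).normed volume t * v (z - t)) volume := by
  refine Continuous.integrable_of_hasCompactSupport ?_ ?_
  · exact ((mb n ε).contDiff_normed (n := 0)).continuous.mul (by fun_prop)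
  · exact (mb n ε).hasCompactSupport_normed.mul_right

theorem snd_le (h : Reg R Kc L h₀ U) (ε : ℝ) (z v : E n) (hv : ‖v‖ ≤ h₀) :
    moll ε U (z + v) + moll ε U (z - v) - 2 * moll ε U z ≤ Kc * ‖v‖ ^ 2 := by
  have h1 := integrable ε h.continuous (z + v)
  have h2 := integrable ε h.continuous (z - v)
  have h3 := integrable ε h.continuous z
  have e1 : moll ε U (z + v) + moll ε U (z - v) - 2 * moll ε U z =
      ∫ t, ((mb n ε).normed volume t * U (z + v - t) + (mb n ε).normed volume t * U (z - v - t) -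
        2 * ((mb n ε).normed volume t * U (z - t))) := by
    have hA : Integrable (fun t => (mb n ε).normed volume t * U (z + v - t) +
        (mb n ε).normed volume t * U (z - v - t)) volume := h1.add h2
    rw [integral_sub hA (h3.const_mul 2), integral_add h1 h2, integral_const_mul]
    rfl
  have e2 : Kc * ‖v‖ ^ 2 = ∫ t, (mb n ε).normed volume t * (Kc * ‖v‖ ^ 2) := by
    rw [integral_mul_const, (mb n ε).integral_normed, one_mul]
  rw [e1, e2]
  refine integral_mono ((h1.add h2).sub (h3.const_mul 2))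
    (((mb n ε).integrable_normed (μ := volume)).mul_const _) fun t => ?_
  have h4 := h.snd (z - t) v hv
  have h5 : 0 ≤ (mb n ε).normed volume t := (mb n ε).nonneg_normed t
  have h6 := mul_le_mul_of_nonneg_left h4 h5
  have e3 : z - t + v = z + v - t := by abel
  have e4 : z - t - v = z - v - t := by abel
  rw [e3, e4] at h6
  simp only
  nlinarith [h6]

/-- Second differences bound the second derivative. -/
theorem D2_le {V : E n → ℝ} (hV : ContDiff ℝ ∞ V) {K h₀ : ℝ} (hh : 0 < h₀) {z : E n}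
    (hs : ∀ v : E n, ‖v‖ ≤ h₀ → V (z + v) + V (z - v) - 2 * V z ≤ K * ‖v‖ ^ 2) (b : E n) :
    D2 V z b b ≤ K * ‖b‖ ^ 2 := by
  set g : ℝ → ℝ := fun t => V (z + t • b) + V (z - t • b) - 2 * V z - K * ‖b‖ ^ 2 * t ^ 2 with hg
  have hVd : Differentiable ℝ V := hV.differentiable (by simp)
  have hFd : Differentiable ℝ (fderiv ℝ V) :=
    (hV.fderiv_right (m := 1) (by norm_cast)).differentiable (by norm_num)
  have hl1 : ∀ t : ℝ, HasDerivAt (fun t : ℝ => z + t • b) b t := fun t => by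
    simpa using ((hasDerivAt_id t).smul_const b).const_add z
  have hl2 : ∀ t : ℝ, HasDerivAt (fun t : ℝ => z - t • b) (-b) t := fun t => by
    simpa using ((hasDerivAt_id t).smul_const b).const_sub z
  have hd1 : ∀ t, HasDerivAt g (fderiv ℝ V (z + t • b) b + fderiv ℝ V (z - t • b) (-b) -
      K * ‖b‖ ^ 2 * (2 * t)) t := by
    intro t
    have h1 := (hVd (z + t • b)).hasFDerivAt.comp_hasDerivAt t (hl1 t)
    have h2 := (hVd (z - t • b)).hasFDerivAt.comp_hasDerivAt t (hl2 t)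
    have h3 : HasDerivAt (fun t : ℝ => K * ‖b‖ ^ 2 * t ^ 2) (K * ‖b‖ ^ 2 * (2 * t)) t := by
      simpa using (hasDerivAt_pow 2 t).const_mul (K * ‖b‖ ^ 2)
    exact ((h1.add h2).sub_const (2 * V z)).sub h3
  have hd1' : deriv g = fun t => fderiv ℝ V (z + t • b) b + fderiv ℝ V (z - t • b) (-b) -
      K * ‖b‖ ^ 2 * (2 * t) := funext fun t => (hd1 t).deriv
  have hd2 : HasDerivAt (deriv g) (D2 V z b b + D2 V z b b - K * ‖b‖ ^ 2 * 2) 0 := by
    rw [hd1']
    have h1 := (hFd (z + (0 : ℝ) • b)).hasFDerivAt.comp_hasDerivAt 0 (hl1 0)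
    have h2 := (hFd (z - (0 : ℝ) • b)).hasFDerivAt.comp_hasDerivAt 0 (hl2 0)
    have h1' := h1.clm_apply (hasDerivAt_const (0 : ℝ) b)
    have h2' := h2.clm_apply (hasDerivAt_const (0 : ℝ) (-b))
    have h3 : HasDerivAt (fun t : ℝ => K * ‖b‖ ^ 2 * (2 * t)) (K * ‖b‖ ^ 2 * 2) 0 := by
      simpa using ((hasDerivAt_id (0 : ℝ)).const_mul 2).const_mul (K * ‖b‖ ^ 2)
    have h4 := (h1'.add h2').sub h3
    refine h4.congr_deriv ?_
    simp [D2]
  by_contra hcon
  rw [not_le] at hcon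
  have hpos : 0 < deriv (deriv g) 0 := by
    rw [hd2.deriv]
    linarith
  have hz : deriv g 0 = 0 := by
    rw [hd1']
    simp
  have hmin : IsLocalMin g 0 :=
    isLocalMin_of_deriv_deriv_pos hpos hz (hd1 0).continuousAt
  have hg0 : g 0 = 0 := by
    simp only [hg, zero_smul, add_zero, sub_zero]
    ring
  have hle : ∀ᶠ t in 𝓝 (0 : ℝ), g t ≤ 0 := by
    have h1 : Tendsto (fun t : ℝ => ‖t • b‖) (𝓝 0) (𝓝 0) := by
      have h2 : Continuous fun t : ℝ => ‖t • b‖ := by fun_prop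
      simpa using h2.tendsto 0
    filter_upwards [h1.eventually (gt_mem_nhds hh)] with t ht
    have h2 := hs (t • b) ht.le
    rw [norm_smul, mul_pow, Real.norm_eq_abs, sq_abs] at h2
    simp only [hg]
    nlinarith [h2]
  have heq : g =ᶠ[𝓝 0] fun _ => (0 : ℝ) := by
    filter_upwards [hle, hmin] with t h1 h2
    rw [hg0] at h2
    exact le_antisymm h1 h2
  have h5 : deriv (deriv g) 0 = 0 := by
    rw [heq.deriv.deriv_eq]
    simp
  linarith

theorem bil_norm {B : E n →L[ℝ] E n →L[ℝ] ℝ} (hB : ∀ u v, B u v = B v u) {K : ℝ} (hK : 0 ≤ K)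
    (h : ∀ v, |B v v| ≤ K * ‖v‖ ^ 2) : ‖B‖ ≤ 2 * K := by
  have h1 : ∀ a b : E n, ‖a‖ = 1 → ‖b‖ = 1 → |B a b| ≤ 2 * K := by
    intro a b ha hb
    have e1 : 4 * B a b = B (a + b) (a + b) - B (a - b) (a - b) := by
      simp only [map_add, map_sub, add_apply, sub_apply]
      rw [hB b a]
      ring
    have e2 : |B (a + b) (a + b)| ≤ K * 4 := by
      refine (h _).trans (mul_le_mul_of_nonneg_left ?_ hK)
      have := norm_add_le a b
      rw [ha, hb] at this
      nlinarith [norm_nonneg (a + b)]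
    have e3 : |B (a - b) (a - b)| ≤ K * 4 := by
      refine (h _).trans (mul_le_mul_of_nonneg_left ?_ hK)
      have := norm_sub_le a b
      rw [ha, hb] at this
      nlinarith [norm_nonneg (a - b)]
    rw [abs_le] at e2 e3 ⊢
    constructor <;> linarith [e2.1, e2.2, e3.1, e3.2]
  refine B.opNorm_le_bound₂ (by positivity) fun a b => ?_
  rcases eq_or_ne a 0 with rfl | ha
  · simp
  rcases eq_or_ne b 0 with rfl | hb
  · simp
  have ha' : 0 < ‖a‖ := norm_pos_iff.2 ha
  have hb' : 0 < ‖b‖ := norm_pos_iff.2 hb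
  have h2 := h1 (‖a‖⁻¹ • a) (‖b‖⁻¹ • b) (by rw [norm_smul, norm_inv, norm_norm,
    inv_mul_cancel₀ ha'.ne']) (by rw [norm_smul, norm_inv, norm_norm, inv_mul_cancel₀ hb'.ne'])
  rw [map_smul B, smul_apply, map_smul, smul_eq_mul, smul_eq_mul, abs_mul, abs_mul, abs_inv,
    abs_inv, abs_norm, abs_norm] at h2
  rw [Real.norm_eq_abs]
  have h3 : ‖a‖⁻¹ * (‖b‖⁻¹ * |B a b|) * (‖a‖ * ‖b‖) = |B a b| := by
    field_simp
  have h4 := mul_le_mul_of_nonneg_right h2 (mul_nonneg ha'.le hb'.le)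
  rw [h3] at h4
  linarith

end E4Aux

theorem Reg.moll_D2_le (h : Reg R Kc L h₀ U) {ε : ℝ} (hε : 0 < ε) (z b : E n) :
    D2 (moll ε U) z b b ≤ Kc * ‖b‖ ^ 2 :=
  E4Aux.D2_le (h.moll_smooth ε) h.hh (fun v hv => E4Aux.snd_le h ε z v hv) b

theorem Reg.moll_psh (h : Reg R Kc L h₀ U) {ε : ℝ} (hε : 0 < ε) :
    Psh (ball (0 : E n) (R - ε)) (moll ε U) := by
  refine Pool.Agent.DMA.moll_psh hε h.psh h.continuous.continuousOn (fun z hz => ?_) h.locInt
  intro y hy
  rw [mem_ball, dist_zero_right] at hz ⊢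
  rw [mem_closedBall, dist_eq_norm] at hy
  have h1 := norm_add_le (y - z) z
  rw [sub_add_cancel] at h1
  linarith

theorem Reg.moll_levi (h : Reg R Kc L h₀ U) {ε : ℝ} (hε : 0 < ε) {z : E n}
    (hz : ‖z‖ < R - ε) (b : E n) : 0 ≤ levi (moll ε U) z b :=
  (h.moll_psh hε).levi_nonneg (isOpen_ball.mem_nhds (by rwa [mem_ball, dist_zero_right]))
    ((h.moll_smooth ε).contDiffAt.of_le (by norm_cast)) b

theorem Reg.moll_D2_norm (h : Reg R Kc L h₀ U) {ε : ℝ} (hε : 0 < ε) {z : E n}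
    (hz : ‖z‖ < R - ε) : ‖D2 (moll ε U) z‖ ≤ 2 * Kc := by
  have hs : ContDiffAt ℝ 2 (moll ε U) z := (h.moll_smooth ε).contDiffAt.of_le (by norm_cast)
  refine E4Aux.bil_norm (fun u v => (hs.isSymmSndFDerivAt (by simp)).eq u v) h.hK fun v => ?_
  have h1 := h.moll_D2_le hε z v
  have h2 := h.moll_D2_le hε z (Complex.I • v)
  have h3 := h.moll_levi hε hz v
  rw [norm_smul, Complex.norm_I, one_mul] at h2
  rw [levi] at h3
  change |D2 (moll ε U) z v v| ≤ _
  rw [abs_le]
  constructor <;> linarith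

end Pool.Agent.DMA
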