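import Pool.Agent.Lib.DMA.DDefs

/-! # Row E5: uniform limits with bounded second derivatives

PROOF. Taylor: `|g (z+h) - g z - Dg(z) h| ≤ K/2 ‖h‖²` if `‖D2 g‖ ≤ K` on the segment.  Applied to `f k` and `f l`:
`|D(f k - f l)(z) h| ≤ 2 sup |f k - f l| + K ‖h‖²`; with `‖h‖ = s` (closed ball of radius `s` around `z` in `Ω`):
`‖D(f k)(z) - D(f l)(z)‖ ≤ 2 sup|f k - f l| / s + K s`, so `fderiv (f k)` is uniformly Cauchy on a
neighbourhood of every point of `Ω`; `G` = its limit; `hasFDerivAt_of_tendstoUniformlyOn` (or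
`hasFDerivAt_of_tendstoLocallyUniformlyOn`).  Lipschitz: mean value inequality for `fderiv (f k)` on the
convex set `Ω`, limit. -/

set_option autoImplicit false

open scoped Topology ContDiff NNReal
open Set Filter Metric

noncomputable section

namespace Pool.Agent.DMA

open Pool.Agent.K708 (E CMfd)

variable {n : ℕ}

namespace E5Aux

theorem lipD {Ω : Set (E n)} (hconv : Convex ℝ Ω) {f : E n → ℝ} {K' : ℝ≥0}
    (hf : ContDiff ℝ ∞ f) (hD : ∀ z ∈ Ω, ‖D2 f z‖ ≤ K') :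
    LipschitzOnWith K' (fderiv ℝ f) Ω := by
  refine hconv.lipschitzOnWith_of_nnnorm_fderiv_le (𝕜 := ℝ) (fun z _ => ?_) fun z hz => ?_
  · exact ((hf.fderiv_right (m := ∞) (by simp)).differentiable (by simp)) z
  · exact_mod_cast hD z hz

theorem taylor {Ω : Set (E n)} {f : E n → ℝ} {K' : ℝ≥0} (hf : ContDiff ℝ ∞ f)
    (hL : LipschitzOnWith K' (fderiv ℝ f) Ω) {z h : E n} (hz : closedBall z ‖h‖ ⊆ Ω) :
    |f (z + h) - f z - fderiv ℝ f z h| ≤ K' * ‖h‖ ^ 2 := by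
  have h1 : ∀ y ∈ closedBall z ‖h‖, HasFDerivWithinAt f (fderiv ℝ f y) (closedBall z ‖h‖) y :=
    fun y _ => (hf.differentiable (by simp) y).hasFDerivAt.hasFDerivWithinAt
  have hz0 : z ∈ closedBall z ‖h‖ := mem_closedBall_self (norm_nonneg h)
  have h2 : ∀ y ∈ closedBall z ‖h‖, ‖fderiv ℝ f y - fderiv ℝ f z‖ ≤ K' * ‖h‖ := by
    intro y hy
    have h3 := hL.dist_le_mul y (hz hy) z (hz hz0)
    rw [dist_eq_norm] at h3
    exact h3.trans (mul_le_mul_of_nonneg_left (mem_closedBall.1 hy) K'.2)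
  have h4 : z + h ∈ closedBall z ‖h‖ := by
    rw [mem_closedBall, dist_eq_norm]
    simp
  have h5 := (convex_closedBall z ‖h‖).norm_image_sub_le_of_norm_hasFDerivWithin_le' h1 h2 hz0 h4
  rw [add_sub_cancel_left, Real.norm_eq_abs] at h5
  calc _ ≤ K' * ‖h‖ * ‖h‖ := h5
    _ = K' * ‖h‖ ^ 2 := by ring

theorem cauchy {Ω : Set (E n)} {f g U : E n → ℝ} {K' : ℝ≥0} (hf : ContDiff ℝ ∞ f)
    (hg : ContDiff ℝ ∞ g) (hLf : LipschitzOnWith K' (fderiv ℝ f) Ω)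
    (hLg : LipschitzOnWith K' (fderiv ℝ g) Ω) {ε : ℝ} (h1 : ∀ z ∈ Ω, |f z - U z| ≤ ε)
    (h2 : ∀ z ∈ Ω, |g z - U z| ≤ ε) {z : E n} {s : ℝ} (hs : 0 < s) (hz : closedBall z s ⊆ Ω) :
    ‖fderiv ℝ f z - fderiv ℝ g z‖ ≤ (4 * ε + 2 * K' * s ^ 2) / s := by
  have hε : 0 ≤ ε := (abs_nonneg _).trans (h1 z (hz (mem_closedBall_self hs.le)))
  have key : ∀ h : E n, ‖h‖ = s → |(fderiv ℝ f z - fderiv ℝ g z) h| ≤ 4 * ε + 2 * K' * s ^ 2 := by
    intro h hh
    have hz' : closedBall z ‖h‖ ⊆ Ω := hh ▸ hz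
    have a1 := taylor hf hLf hz'
    have a2 := taylor hg hLg hz'
    have hzΩ : z ∈ Ω := hz (mem_closedBall_self hs.le)
    have hzh : z + h ∈ Ω := hz' (by rw [mem_closedBall, dist_eq_norm]; simp)
    have b1 := h1 z hzΩ
    have b2 := h2 z hzΩ
    have b3 := h1 _ hzh
    have b4 := h2 _ hzh
    rw [hh] at a1 a2
    rw [sub_apply]
    rw [abs_le] at *
    constructor <;> linarith [a1.1, a1.2, a2.1, a2.2, b1.1, b1.2, b2.1, b2.2, b3.1, b3.2, b4.1, b4.2]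
  refine ContinuousLinearMap.opNorm_le_bound _ (by positivity) fun v => ?_
  rcases eq_or_ne v 0 with rfl | hv
  · simp
  · have hv' : 0 < ‖v‖ := norm_pos_iff.2 hv
    have h3 := key ((s / ‖v‖) • v) (by
      rw [norm_smul, Real.norm_eq_abs, abs_of_pos (div_pos hs hv'), div_mul_cancel₀ _ hv'.ne'])
    rw [map_smul, smul_eq_mul, abs_mul, abs_of_pos (div_pos hs hv')] at h3
    rw [Real.norm_eq_abs, div_mul_eq_mul_div, le_div_iff₀ hs]
    have h4 : |(fderiv ℝ f z - fderiv ℝ g z) v| * s =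
        (s / ‖v‖ * |(fderiv ℝ f z - fderiv ℝ g z) v|) * ‖v‖ := by
      field_simp
    rw [h4]
    exact mul_le_mul_of_nonneg_right h3 hv'.le

theorem ucauchy {Ω : Set (E n)} (hconv : Convex ℝ Ω) {f : ℕ → E n → ℝ} {U : E n → ℝ} {K' : ℝ≥0}
    (hf : ∀ k, ContDiff ℝ ∞ (f k)) (hD : ∀ k, ∀ z ∈ Ω, ‖D2 (f k) z‖ ≤ K')
    (hu : ∀ ε > (0 : ℝ), ∀ᶠ k in atTop, ∀ z ∈ Ω, |f k z - U z| ≤ ε) {B : Set (E n)} {r : ℝ}
    (hr : 0 < r) (hB : ∀ z ∈ B, closedBall z r ⊆ Ω) :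
    UniformCauchySeqOn (fun k => fderiv ℝ (f k)) atTop B := by
  rw [Metric.uniformCauchySeqOn_iff]
  intro η hη
  have hK : (0 : ℝ) ≤ K' := K'.2
  set s : ℝ := min r (η / (8 * (K' + 1))) with hs
  have hs0 : 0 < s := lt_min hr (by positivity)
  have hs1 : 2 * K' * s ≤ η / 4 := by
    have h1 : s ≤ η / (8 * (K' + 1)) := min_le_right _ _
    have h2 : 2 * K' * s ≤ 2 * (K' + 1) * (η / (8 * (K' + 1))) := by
      have h3 : (0 : ℝ) ≤ 2 * K' := by positivity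
      nlinarith
    refine h2.trans (le_of_eq ?_)
    field_simp
    ring
  obtain ⟨N, hN⟩ := eventually_atTop.1 (hu (η * s / 16) (by positivity))
  refine ⟨N, fun k hk l hl z hz => ?_⟩
  have h1 := cauchy (hf k) (hf l) (lipD hconv (hf k) (hD k)) (lipD hconv (hf l) (hD l)) (hN k hk)
    (hN l hl) hs0 ((closedBall_subset_closedBall (min_le_left _ _)).trans (hB z hz))
  rw [dist_eq_norm]
  refine h1.trans_lt ?_
  rw [div_lt_iff₀ hs0]
  nlinarith

end E5Aux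

open E5Aux

theorem exists_grad {Ω : Set (E n)} (hΩ : IsOpen Ω) (hconv : Convex ℝ Ω) {f : ℕ → E n → ℝ}
    {U : E n → ℝ} {K' : ℝ≥0} (hf : ∀ k, ContDiff ℝ ∞ (f k))
    (hD : ∀ k, ∀ z ∈ Ω, ‖D2 (f k) z‖ ≤ K')
    (hu : ∀ ε > (0 : ℝ), ∀ᶠ k in atTop, ∀ z ∈ Ω, |f k z - U z| ≤ ε) :
    ∃ G : E n → E n →L[ℝ] ℝ, (∀ z ∈ Ω, HasFDerivAt U (G z) z) ∧ LipschitzOnWith K' G Ω := by
  classical
  have hball : ∀ z ∈ Ω, ∃ r > 0, ∀ y ∈ ball z r, closedBall y r ⊆ Ω := by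
    intro z hz
    obtain ⟨r, hr, h⟩ := Metric.isOpen_iff.1 hΩ z hz
    refine ⟨r / 2, half_pos hr, fun y hy w hw => h ?_⟩
    rw [mem_ball] at hy ⊢
    rw [mem_closedBall] at hw
    linarith [dist_triangle w y z]
  have hlim : ∀ z ∈ Ω, ∃ g, Tendsto (fun k => fderiv ℝ (f k) z) atTop (𝓝 g) := by
    intro z hz
    obtain ⟨r, hr, h⟩ := hball z hz
    have h1 := ucauchy hconv hf hD hu hr h
    exact cauchySeq_tendsto_of_complete (h1.cauchySeq (mem_ball_self hr))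
  choose! G hG using hlim
  refine ⟨G, fun z hz => ?_, ?_⟩
  · obtain ⟨r, hr, h⟩ := hball z hz
    have hsub : ball z r ⊆ Ω := fun y hy => h y hy (mem_closedBall_self hr.le)
    have h1 := ucauchy hconv hf hD hu hr h
    have h2 : TendstoUniformlyOn (fun k => fderiv ℝ (f k)) G atTop (ball z r) :=
      h1.tendstoUniformlyOn_of_tendsto fun y hy => hG y (hsub hy)
    refine hasFDerivAt_of_tendstoUniformlyOn isOpen_ball h2
      (fun k y _ => ((hf k).differentiable (by simp) y).hasFDerivAt)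
      (fun y hy => ?_) (mem_ball_self hr)
    rw [Metric.tendsto_atTop]
    intro ε hε
    obtain ⟨N, hN⟩ := eventually_atTop.1 (hu (ε / 2) (half_pos hε))
    refine ⟨N, fun k hk => ?_⟩
    rw [Real.dist_eq]
    exact (hN k hk y (hsub hy)).trans_lt (half_lt_self hε)
  · refine LipschitzOnWith.of_dist_le_mul fun z hz w hw => ?_
    refine le_of_tendsto ((hG z hz).dist (hG w hw)) (Eventually.of_forall fun k => ?_)
    exact (lipD hconv (hf k) (hD k)).dist_le_mul z hz w hw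

end Pool.Agent.DMA
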