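import Pool.Agent.Lib.DMA.DDefs

/-! # Row E6: second order expansions

PROOF. `symm`: `second_derivative_symmetric_of_eventually`.  `peano`: for `c > 0` there is a ball around `z`
on which `‖G y - G z - fderiv G z (y - z)‖ ≤ c ‖y - z‖`; the function `p h = f (z+h) - f z - G z h -
fderiv G z h h / 2` has derivative `G (z+h) - G z - fderiv G z h` (symmetry), of norm `≤ c‖h‖`, and
`p 0 = 0`: mean value inequality on the ball of radius `‖h‖` gives `|p h| ≤ c‖h‖²`. -/

set_option autoImplicit false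

open scoped Topology ContDiff
open Set Filter Metric Asymptotics

noncomputable section

namespace Pool.Agent.DMA

open Pool.Agent.K708 (E CMfd)

variable {n : ℕ} {f : E n → ℝ} {G : E n → E n →L[ℝ] ℝ} {z : E n}

theorem grad_symm (h1 : ∀ᶠ y in 𝓝 z, HasFDerivAt f (G y) y) (h2 : DifferentiableAt ℝ G z)
    (a b : E n) : fderiv ℝ G z a b = fderiv ℝ G z b a :=
  second_derivative_symmetric_of_eventually h1 h2.hasFDerivAt a b

theorem peano (h1 : ∀ᶠ y in 𝓝 z, HasFDerivAt f (G y) y) (h2 : DifferentiableAt ℝ G z) :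
    (fun h : E n => f (z + h) - f z - G z h - fderiv ℝ G z h h / 2) =o[𝓝 0]
      fun h : E n => ‖h‖ ^ 2 := by
  have hsym := grad_symm h1 h2
  rw [isLittleO_iff]
  intro c hc
  have h3 := (hasFDerivAt_iff_isLittleO.1 h2.hasFDerivAt).def hc
  obtain ⟨δ, hδ, hball⟩ := Metric.eventually_nhds_iff_ball.1 (h1.and h3)
  rw [Metric.eventually_nhds_iff_ball]
  refine ⟨δ, hδ, fun h hh => ?_⟩
  rw [mem_ball_zero_iff] at hh
  have hz : ∀ k : E n, ‖k‖ ≤ ‖h‖ → z + k ∈ ball z δ := fun k hk => by
    rw [mem_ball, dist_eq_norm, add_sub_cancel_left]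
    exact lt_of_le_of_lt hk hh
  have hd : ∀ k : E n, ‖k‖ ≤ ‖h‖ → HasFDerivAt
      (fun h : E n => f (z + h) - f z - G z h - fderiv ℝ G z h h / 2)
      (G (z + k) - G z - fderiv ℝ G z k) k := by
    intro k hk
    have e1 : HasFDerivAt (fun h : E n => f (z + h)) (G (z + k)) k := by
      have := (hball _ (hz k hk)).1
      exact (hasFDerivAt_comp_add_left z).2 this
    have e2 : HasFDerivAt (fun h : E n => G z h) (G z) k := (G z).hasFDerivAt
    have e3 : HasFDerivAt (fun h : E n => fderiv ℝ G z h h)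
        ((fderiv ℝ G z k).comp (ContinuousLinearMap.id ℝ (E n)) + (fderiv ℝ G z).flip k) k := by
      exact HasFDerivAt.clm_apply (fderiv ℝ G z).hasFDerivAt (hasFDerivAt_id k)
    have e4 := ((e1.sub_const (f z)).sub e2).sub (e3.mul_const (1 / 2 : ℝ))
    have e5 : (G (z + k) - G z - (1 / 2 : ℝ) • ((fderiv ℝ G z k).comp
        (ContinuousLinearMap.id ℝ (E n)) + (fderiv ℝ G z).flip k)) =
        G (z + k) - G z - fderiv ℝ G z k := by
      ext v
      simp only [sub_apply, smul_apply, add_apply, ContinuousLinearMap.comp_id,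
        ContinuousLinearMap.flip_apply, smul_eq_mul, hsym v k]
      ring
    rw [← e5]
    refine e4.congr_of_eventuallyEq (Eventually.of_forall fun y => ?_)
    simp only [Pi.sub_apply]
    ring
  have hb : ∀ k ∈ closedBall (0 : E n) ‖h‖, ‖G (z + k) - G z - fderiv ℝ G z k‖ ≤ c * ‖h‖ := by
    intro k hk
    rw [mem_closedBall_zero_iff] at hk
    have := (hball _ (hz k hk)).2
    rw [add_sub_cancel_left] at this
    exact this.trans (by gcongr)
  have hm := Convex.norm_image_sub_le_of_norm_hasFDerivWithin_le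
    (fun k hk => (hd k (mem_closedBall_zero_iff.1 hk)).hasFDerivWithinAt) hb
    (convex_closedBall (0 : E n) ‖h‖) (mem_closedBall_self (norm_nonneg h))
    (mem_closedBall_zero_iff.2 le_rfl)
  simp only [add_zero, sub_self, map_zero, zero_div, sub_zero] at hm
  calc ‖f (z + h) - f z - G z h - fderiv ℝ G z h h / 2‖ ≤ c * ‖h‖ * ‖h‖ := hm
    _ = c * ‖‖h‖ ^ 2‖ := by
      rw [Real.norm_of_nonneg (sq_nonneg _)]
      ring

end Pool.Agent.DMA
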