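import Pool.Agent.Lib.DMA.D12

/-! # Row E7: almost everywhere convergence of the second derivatives of mollifications

PROOF. The gradient `G` of `U` on `Ω` extends to a Lipschitz function `H` on `E n`.  Near `z ∈ Ω`,
`fderiv (moll ε U) y = ∫ φ t • H (y - t)` and the derivative of the right side is
`∫ φ t • fderiv H (z - t)` (dominated convergence with the Lipschitz bound, Rademacher), which
converges to `fderiv H z` for almost every `z`. -/

set_option autoImplicit false

open scoped Topology ContDiff NNReal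
open Set Filter Metric MeasureTheory

noncomputable section

namespace Pool.Agent.DMA

open Pool.Agent.K708 (E CMfd)

variable {n : ℕ}

theorem E7_phi_zero {ε : ℝ} (h : 0 < ε) {t : E n} (ht : ε ≤ ‖t‖) :
    (mb n ε).normed volume t = 0 := by
  have hs := (mb n ε).support_normed_eq (μ := (volume : Measure (E n)))
  by_contra hne
  have hm : t ∈ Function.support ((mb n ε).normed (volume : Measure (E n))) := hne
  rw [hs, mem_ball_zero_iff, mb_rOut h] at hm
  exact absurd hm (not_lt.2 ht)

theorem E7_phi_int {ε : ℝ} {W : Type*} [NormedAddCommGroup W] [NormedSpace ℝ W]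
    {f : E n → W} (hf : Continuous f) (y : E n) :
    Integrable (fun t => (mb n ε).normed volume t • f (y - t)) volume := by
  have hc : Continuous fun t => (mb n ε).normed volume t • f (y - t) :=
    (mb n ε).continuous_normed.smul (hf.comp (continuous_const.sub continuous_id))
  exact hc.integrable_of_hasCompactSupport ((mb n ε).hasCompactSupport_normed.smul_right)

/-- The gradient of a mollification. -/
theorem E7_first {Ω : Set (E n)} {U : E n → ℝ} (hU : Continuous U)
    {G H : E n → E n →L[ℝ] ℝ} {K : ℝ≥0} (hG : ∀ z ∈ Ω, HasFDerivAt U (G z) z)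
    (hH : ∀ z ∈ Ω, H z = G z) (hL : LipschitzWith K H) {y : E n} {ε : ℝ} (hε : 0 < ε)
    (hy : ball y (2 * ε) ⊆ Ω) :
    HasFDerivAt (moll ε U) (∫ t, (mb n ε).normed volume t • H (y - t)) y := by
  set M : ℝ := ‖H y‖ + K * (2 * ε) with hM
  have hM0 : 0 ≤ M := by positivity
  have hbd : ∀ w ∈ ball y (2 * ε), ‖H w‖ ≤ M := by
    intro w hw
    have h1 : ‖H w - H y‖ ≤ K * ‖w - y‖ := hL.norm_sub_le w y
    have h2 : ‖w - y‖ ≤ 2 * ε := by
      have := mem_ball_iff_norm.1 hw
      exact this.le
    have h3 : ‖H w‖ ≤ ‖H w - H y‖ + ‖H y‖ := by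
      have := norm_add_le (H w - H y) (H y)
      rwa [sub_add_cancel] at this
    have h4 : (K : ℝ) * ‖w - y‖ ≤ K * (2 * ε) := mul_le_mul_of_nonneg_left h2 K.coe_nonneg
    rw [hM]
    linarith
  have hmem : ∀ t : E n, ‖t‖ < ε → ∀ x ∈ ball y ε, x - t ∈ ball y (2 * ε) := by
    intro t ht x hx
    rw [mem_ball_iff_norm] at hx ⊢
    have : x - t - y = (x - y) - t := by abel
    rw [this]
    have := norm_sub_le (x - y) t
    linarith
  have hφ0 : ∀ t : E n, 0 ≤ (mb n ε).normed volume t := fun t => (mb n ε).nonneg_normed t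
  have key := hasFDerivAt_integral_of_dominated_loc_of_lip
    (μ := (volume : Measure (E n)))
    (F := fun x t => (mb n ε).normed volume t * U (x - t))
    (F' := fun t => (mb n ε).normed volume t • H (y - t))
    (bound := fun t => (mb n ε).normed volume t * M) (s := ball y ε) (x₀ := y)
    (ball_mem_nhds y hε) ?_ ?_ ?_ ?_ ?_ ?_
  · exact key.2
  · refine Eventually.of_forall fun x => ?_
    exact ((mb n ε).continuous_normed.mul
      (hU.comp (continuous_const.sub continuous_id))).aestronglyMeasurable
  · exact E7_phi_int hU y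
  · exact ((mb n ε).continuous_normed.smul
      (hL.continuous.comp (continuous_const.sub continuous_id))).aestronglyMeasurable
  · refine Eventually.of_forall fun t => ?_
    apply LipschitzOnWith.of_dist_le_mul
    intro x hx x' hx'
    have hb : ((Real.nnabs ((mb n ε).normed volume t * M) : ℝ≥0) : ℝ)
        = (mb n ε).normed volume t * M := by
      rw [Real.coe_nnabs, abs_of_nonneg (mul_nonneg (hφ0 t) hM0)]
    rw [hb]
    by_cases ht : ‖t‖ < ε
    · have h1 := (convex_ball y (2 * ε)).norm_image_sub_le_of_norm_hasFDerivWithin_le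
        (f := U) (f' := H) (C := M)
        (fun w hw => by
          rw [hH w (hy hw)]
          exact (hG w (hy hw)).hasFDerivWithinAt) hbd (hmem t ht x' hx') (hmem t ht x hx)
      rw [Real.dist_eq, ← mul_sub, abs_mul, abs_of_nonneg (hφ0 t), mul_assoc]
      apply mul_le_mul_of_nonneg_left _ (hφ0 t)
      rw [dist_eq_norm]
      have e : x - t - (x' - t) = x - x' := by abel
      rw [e] at h1
      exact h1
    · rw [E7_phi_zero hε (not_lt.1 ht)]
      simp
  · exact ((mb n ε).integrable_normed).mul_const M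
  · refine Eventually.of_forall fun t => ?_
    by_cases ht : ‖t‖ < ε
    · have hm := hmem t ht y (mem_ball_self hε)
      have h1 : HasFDerivAt (fun x => U (x - t)) (H (y - t)) y := by
        have h2 := (hG (y - t) (hy hm)).comp y ((hasFDerivAt_id y).sub_const t)
        rw [← hH _ (hy hm)] at h2
        exact h2
      exact h1.const_mul _
    · simp only [E7_phi_zero hε (not_lt.1 ht), zero_mul, zero_smul]
      exact hasFDerivAt_const 0 y

/-- The derivative of the mollification of a Lipschitz function. -/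
theorem E7_second {W : Type*} [NormedAddCommGroup W] [NormedSpace ℝ W]
    [FiniteDimensional ℝ W] {H : E n → W} {K : ℝ≥0} (hL : LipschitzWith K H) (z : E n) (ε : ℝ)
    (hm : AEStronglyMeasurable (fderiv ℝ H) volume) :
    HasFDerivAt (fun y => ∫ t, (mb n ε).normed volume t • H (y - t))
      (∫ t, (mb n ε).normed volume t • fderiv ℝ H (z - t)) z := by
  have hφ0 : ∀ t : E n, 0 ≤ (mb n ε).normed volume t := fun t => (mb n ε).nonneg_normed t
  have hqm : Measure.QuasiMeasurePreserving (fun t : E n => z - t) volume volume :=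
    quasiMeasurePreserving_sub_left_of_right_invariant volume z
  have hae : ∀ᵐ t : E n, DifferentiableAt ℝ H (z - t) :=
    hqm.ae (hL.ae_differentiableAt)
  have key := hasFDerivAt_integral_of_dominated_loc_of_lip
    (μ := (volume : Measure (E n)))
    (F := fun x t => (mb n ε).normed volume t • H (x - t))
    (F' := fun t => (mb n ε).normed volume t • fderiv ℝ H (z - t))
    (bound := fun t => (mb n ε).normed volume t * K) (s := univ) (x₀ := z)
    univ_mem ?_ ?_ ?_ ?_ ?_ ?_
  · exact key.2
  · refine Eventually.of_forall fun x => ?_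
    exact ((mb n ε).continuous_normed.smul
      (hL.continuous.comp (continuous_const.sub continuous_id))).aestronglyMeasurable
  · exact E7_phi_int hL.continuous z
  · exact (mb n ε).continuous_normed.aestronglyMeasurable.smul
      (hm.comp_quasiMeasurePreserving hqm)
  · refine Eventually.of_forall fun t => ?_
    apply LipschitzOnWith.of_dist_le_mul
    intro x _ x' _
    have hb : ((Real.nnabs ((mb n ε).normed volume t * K) : ℝ≥0) : ℝ)
        = (mb n ε).normed volume t * K := by
      rw [Real.coe_nnabs, abs_of_nonneg (mul_nonneg (hφ0 t) K.coe_nonneg)]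
    rw [hb, dist_eq_norm, ← smul_sub, norm_smul, Real.norm_eq_abs, abs_of_nonneg (hφ0 t),
      mul_assoc]
    apply mul_le_mul_of_nonneg_left _ (hφ0 t)
    have h1 := hL.norm_sub_le (x - t) (x' - t)
    have e : x - t - (x' - t) = x - x' := by abel
    rw [e] at h1
    rw [dist_eq_norm]
    exact h1
  · exact ((mb n ε).integrable_normed).mul_const _
  · filter_upwards [hae] with t ht
    have h2 := ht.hasFDerivAt.comp z ((hasFDerivAt_id z).sub_const t)
    have h3 : HasFDerivAt (fun x => H (x - t)) (fderiv ℝ H (z - t)) z := h2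
    exact h3.const_smul _

theorem E7_meas {W : Type*} [NormedAddCommGroup W] [NormedSpace ℝ W]
    [FiniteDimensional ℝ W] (H : E n → W) :
    AEStronglyMeasurable (fderiv ℝ H) (volume : Measure (E n)) := by
  have : CompleteSpace W := FiniteDimensional.complete ℝ W
  exact (measurable_fderiv ℝ H).stronglyMeasurable.aestronglyMeasurable

theorem E7_third {W : Type*} [NormedAddCommGroup W] [NormedSpace ℝ W]
    [FiniteDimensional ℝ W] {H : E n → W} {K : ℝ≥0} (hL : LipschitzWith K H) :
    ∀ᵐ z : E n, Tendsto (fun ε : ℝ => ∫ t, (mb n ε).normed volume t • fderiv ℝ H (z - t))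
      (𝓝[>] 0) (𝓝 (fderiv ℝ H z)) := by
  have hloc : LocallyIntegrable (fderiv ℝ H) (volume : Measure (E n)) := by
    have hmem : MemLp (fderiv ℝ H) ⊤ (volume : Measure (E n)) :=
      memLp_top_of_bound (E7_meas H) _
        (Eventually.of_forall fun x => norm_fderiv_le_of_lipschitz ℝ hL)
    exact hmem.locallyIntegrable le_top
  exact ContDiffBump.ae_convolution_tendsto_right_of_locallyIntegrable
    (μ := (volume : Measure (E n))) (φ := fun ε : ℝ => mb n ε) (l := 𝓝[>] (0 : ℝ)) (K := 2)
    (g := fderiv ℝ H)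
    (by
      have h1 : Tendsto (fun ε : ℝ => ε) (𝓝[>] (0 : ℝ)) (𝓝 0) := nhdsWithin_le_nhds
      refine h1.congr' ?_
      filter_upwards [self_mem_nhdsWithin] with ε hε
      exact (mb_rOut hε).symm)
    (by
      filter_upwards [self_mem_nhdsWithin] with ε hε
      rw [mb_rOut hε, mb_rIn hε]
      linarith) hloc

theorem ae_D2_moll {Ω : Set (E n)} (hΩ : IsOpen Ω) {U : E n → ℝ} (hU : Continuous U)
    {G : E n → E n →L[ℝ] ℝ} {K' : ℝ≥0} (hG : ∀ z ∈ Ω, HasFDerivAt U (G z) z)
    (hL : LipschitzOnWith K' G Ω) : ∀ᵐ z : E n, z ∈ Ω → DifferentiableAt ℝ G z ∧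
      Tendsto (fun ε : ℝ => D2 (moll ε U) z) (𝓝[>] 0) (𝓝 (fderiv ℝ G z)) := by
  obtain ⟨H, hHL, hHG⟩ := hL.extend_finite_dimension
  have hH : ∀ z ∈ Ω, H z = G z := fun z hz => (hHG hz).symm
  have hconv := E7_third (W := E n →L[ℝ] ℝ) hHL
  have hmeas := E7_meas (W := E n →L[ℝ] ℝ) H
  filter_upwards [hHL.ae_differentiableAt (μ := (volume : Measure (E n))), hconv] with z h1 h2 hz
  have hev : H =ᶠ[𝓝 z] G := by
    filter_upwards [hΩ.mem_nhds hz] with w hw
    exact hH w hw
  refine ⟨h1.congr_of_eventuallyEq hev.symm, ?_⟩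
  rw [← hev.fderiv_eq]
  refine h2.congr' ?_
  obtain ⟨r, hr, hrΩ⟩ := Metric.isOpen_iff.1 hΩ z hz
  have hlt : ∀ᶠ ε : ℝ in 𝓝[>] 0, ε < r / 3 :=
    (eventually_lt_nhds (by positivity)).filter_mono nhdsWithin_le_nhds
  filter_upwards [self_mem_nhdsWithin, hlt] with ε hε hεr
  have hε0 : 0 < ε := hε
  have hfe : fderiv ℝ (moll ε U) =ᶠ[𝓝 z]
      fun y => ∫ t, (mb n ε).normed volume t • H (y - t) := by
    filter_upwards [ball_mem_nhds z hε0] with y hy
    refine (E7_first hU hG hH hHL hε0 ?_).fderiv
    refine (ball_subset_ball' ?_).trans hrΩ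
    rw [mem_ball] at hy
    linarith
  rw [D2, hfe.fderiv_eq, (E7_second hHL z ε hmeas).fderiv]

end Pool.Agent.DMA
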