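import Pool.Agent.Lib.DMA.E3
import Pool.Agent.Lib.DMA.D7
import Pool.Agent.Lib.DMA.D8
import Pool.Agent.Lib.DMA.D9

/-! # Row E8: the Taylor competitor

PROOF. Suppose `cH A` is positive definite: `A b b + A (I b) (I b) ≥ 4 c Σ‖b j‖²` for some `c > 0`
(compactness of the unit sphere; `cH_quad`).  Let `N h = Σ‖h j‖² ≥ ‖h‖²`, `U = oenv R F Ψ`,
`Q h = U z₀ + ℓ h + A h h / 2 - c N h / 2 + c s² / 4`... precisely: `q h = ℓ h + A h h / 2 - η N h + η s²/2`, `0 < η ≤ c/2`: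
the Levi form of `q` is `A b b + A(Ib)(Ib) - 4 η N b ≥ 0`, so `z ↦ U z₀ + q (z - z₀)` is psh on `E n`
(`psh_of_levi`; smooth).  For `s` small: `closedBall z₀ s ⊆ ball 0 1`, the Peano error is `≤ η/4 ‖h‖²`
for `‖h‖ ≤ s`, and `U z₀ + q (z - z₀) ≤ Ψ z` on `closedBall z₀ s` (continuity, `U z₀ < Ψ z₀`).  For
`3s/4 ≤ ‖h‖ ≤ s`: `U z₀ + q h ≤ U (z₀+h) + η/4‖h‖² - η‖h‖² + ηs²/2 ≤ U (z₀+h) + η s² (1/2 - 27/64) `: choose the constants
so that this is `≤ U (z₀+h)` (e.g. replace `η s²/2` by `η s²/4`).  `psh_glue` with `O = ball z₀ s`,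
`C = closedBall z₀ (3s/4)`, `v = U`, `w = U z₀ + q (z - z₀)`: a candidate whose value at `z₀` is
`> U z₀`, contradiction with `le_oenv`. -/

set_option autoImplicit false

open scoped Topology ContDiff ComplexOrder
open Set Filter Metric Asymptotics

noncomputable section

namespace Pool.Agent.DMA

open Pool.Agent.K708 (E CMfd)

variable {n : ℕ} {R : ℝ} {F Ψ : E n → ℝ}

theorem E8_N_lower (v : E n) : ‖v‖ ^ 2 ≤ ∑ j, ‖v j‖ ^ 2 := by
  have h0 : 0 ≤ ∑ j, ‖v j‖ ^ 2 := Finset.sum_nonneg fun j _ => sq_nonneg _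
  have h1 : ‖v‖ ≤ Real.sqrt (∑ j, ‖v j‖ ^ 2) := by
    rw [pi_norm_le_iff_of_nonneg (Real.sqrt_nonneg _)]
    intro j
    refine Real.le_sqrt_of_sq_le ?_
    exact Finset.single_le_sum (f := fun j => ‖v j‖ ^ 2) (fun j _ => sq_nonneg _)
      (Finset.mem_univ j)
  calc ‖v‖ ^ 2 ≤ Real.sqrt (∑ j, ‖v j‖ ^ 2) ^ 2 := pow_le_pow_left₀ (norm_nonneg v) h1 2
    _ = ∑ j, ‖v j‖ ^ 2 := Real.sq_sqrt h0

theorem E8_N_upper (v : E n) : ∑ j, ‖v j‖ ^ 2 ≤ n * ‖v‖ ^ 2 := by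
  calc ∑ j, ‖v j‖ ^ 2 ≤ ∑ _j : Fin n, ‖v‖ ^ 2 :=
        Finset.sum_le_sum fun j _ => pow_le_pow_left₀ (norm_nonneg _) (norm_le_pi_norm v j) 2
    _ = n * ‖v‖ ^ 2 := by
        rw [Finset.sum_const, Finset.card_univ, Fintype.card_fin, nsmul_eq_mul]

theorem E8_N_smooth : ContDiff ℝ 2 fun v : E n => ∑ j, ‖v j‖ ^ 2 :=
  ContDiff.sum fun j _ => (contDiff_apply ℝ ℂ j).norm_sq ℝ

/-- positive definiteness of the Hermitian matrix of a real form -/
theorem E8_pos {A : E n →L[ℝ] E n →L[ℝ] ℝ} (hA : ∀ a b, A a b = A b a) (hP : (cH A).PosDef)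
    (v : E n) (hv : v ≠ 0) : 0 < A v v + A (Complex.I • v) (Complex.I • v) := by
  rw [Matrix.posDef_iff_dotProduct_mulVec] at hP
  have h1 := hP.2 (x := star v) (by simpa using hv)
  rw [CCompAux.quad_star hA, star_star] at h1
  have h2 : (0 : ℝ) < (A v v + A (Complex.I • v) (Complex.I • v)) / 4 := by
    exact_mod_cast h1
  linarith

theorem E8_form_cont (A : E n →L[ℝ] E n →L[ℝ] ℝ) :
    Continuous fun v : E n => A v v + A (Complex.I • v) (Complex.I • v) := by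
  have h1 : Continuous fun v : E n => Complex.I • v := continuous_const_smul Complex.I
  exact (A.continuous.clm_apply continuous_id).add ((A.continuous.comp h1).clm_apply h1)

theorem E8_lower {A : E n →L[ℝ] E n →L[ℝ] ℝ} (hA : ∀ a b, A a b = A b a) (hP : (cH A).PosDef) :
    ∃ m > 0, ∀ v : E n, m * ‖v‖ ^ 2 ≤ A v v + A (Complex.I • v) (Complex.I • v) := by
  have hcomp : IsCompact (sphere (0 : E n) 1) := isCompact_sphere 0 1
  rcases (sphere (0 : E n) 1).eq_empty_or_nonempty with he | hne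
  · refine ⟨1, one_pos, fun v => ?_⟩
    have hv : v = 0 := by
      by_contra hv0
      have h1 : (‖v‖⁻¹ : ℝ) • v ∈ sphere (0 : E n) 1 := by
        rw [mem_sphere_zero_iff_norm, norm_smul, norm_inv, norm_norm,
          inv_mul_cancel₀ (norm_ne_zero_iff.mpr hv0)]
      rw [he] at h1
      exact h1
    rw [hv]
    simp
  · obtain ⟨b, hb, hmin⟩ := hcomp.exists_isMinOn hne (E8_form_cont A).continuousOn
    have hb0 : b ≠ 0 := by
      intro h0
      rw [mem_sphere_zero_iff_norm, h0, norm_zero] at hb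
      exact zero_ne_one hb
    refine ⟨_, E8_pos hA hP b hb0, fun v => ?_⟩
    rcases eq_or_ne v 0 with hv | hv0
    · rw [hv]; simp
    · have hn : 0 < ‖v‖ := norm_pos_iff.mpr hv0
      have h1 : (‖v‖⁻¹ : ℝ) • v ∈ sphere (0 : E n) 1 := by
        rw [mem_sphere_zero_iff_norm, norm_smul, norm_inv, norm_norm,
          inv_mul_cancel₀ (norm_ne_zero_iff.mpr hv0)]
      have h2 := hmin h1
      simp only [Set.mem_ofPred_eq] at h2
      have h3 : Complex.I • ((‖v‖⁻¹ : ℝ) • v) = (‖v‖⁻¹ : ℝ) • (Complex.I • v) := smul_comm _ _ _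
      rw [h3] at h2
      simp only [map_smul, smul_apply, smul_eq_mul] at h2
      have h4 : ‖v‖⁻¹ * (‖v‖⁻¹ * A v v) + ‖v‖⁻¹ * (‖v‖⁻¹ * A (Complex.I • v) (Complex.I • v)) =
          (A v v + A (Complex.I • v) (Complex.I • v)) / ‖v‖ ^ 2 := by
        field_simp
      rw [h4, le_div_iff₀ (by positivity)] at h2
      exact h2

/-- second derivative of a quadratic polynomial -/
theorem E8_quad_fderiv (ℓ : E n →L[ℝ] ℝ) {A : E n →L[ℝ] E n →L[ℝ] ℝ}
    (hA : ∀ a b, A a b = A b a) (z : E n) :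
    fderiv ℝ (fun v : E n => ℓ v + A v v / 2) z = ℓ + A z := by
  have h1 : HasFDerivAt (fun v : E n => A v v) ((A z) + (A.flip z)) z := by
    have h2 := (A.hasFDerivAt (x := z)).clm_apply (hasFDerivAt_id z)
    refine h2.congr_fderiv ?_
    ext v
    simp [hA]
  have h3 : HasFDerivAt (fun v : E n => ℓ v + A v v / 2) (ℓ + (2 : ℝ)⁻¹ • (A z + A.flip z)) z := by
    have h4 := ℓ.hasFDerivAt (x := z)
    have h5 := h1.const_mul ((2 : ℝ)⁻¹)
    refine (h4.add h5).congr_of_eventuallyEq (Eventually.of_forall fun v => ?_)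
    simp only [Pi.add_apply]
    ring
  rw [h3.fderiv]
  ext v
  simp only [add_apply, smul_apply, smul_eq_mul, ContinuousLinearMap.flip_apply]
  rw [hA v z]
  ring

theorem E8_quad_smooth (ℓ : E n →L[ℝ] ℝ) (A : E n →L[ℝ] E n →L[ℝ] ℝ) :
    ContDiff ℝ 2 (fun v : E n => ℓ v + A v v / 2) :=
  ℓ.contDiff.add ((A.contDiff.clm_apply contDiff_id).div_const 2)

theorem E8_quad_levi (ℓ : E n →L[ℝ] ℝ) {A : E n →L[ℝ] E n →L[ℝ] ℝ}
    (hA : ∀ a b, A a b = A b a) (z b : E n) :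
    levi (fun v : E n => ℓ v + A v v / 2) z b = A b b + A (Complex.I • b) (Complex.I • b) := by
  have h1 : fderiv ℝ (fun v : E n => ℓ v + A v v / 2) = fun z => ℓ + A z :=
    funext (E8_quad_fderiv ℓ hA)
  have h2 : D2 (fun v : E n => ℓ v + A v v / 2) z = A := by
    rw [D2, h1]
    exact (A.hasFDerivAt.const_add ℓ).fderiv
  rw [levi, h2]

/-- the competitor, centred at the origin -/
theorem E8_psh (ℓ : E n →L[ℝ] ℝ) {A : E n →L[ℝ] E n →L[ℝ] ℝ} (hA : ∀ a b, A a b = A b a)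
    {m η : ℝ} (hη : 0 ≤ η) (hm : ∀ v : E n, m * ‖v‖ ^ 2 ≤ A v v + A (Complex.I • v) (Complex.I • v))
    (hmη : 4 * η * n ≤ m) :
    Psh univ (fun v : E n => (ℓ v + A v v / 2) + (-η) * ∑ j, ‖v j‖ ^ 2) := by
  have hs1 := E8_quad_smooth ℓ A
  have hs2 : ContDiff ℝ 2 fun v : E n => (-η) * ∑ j, ‖v j‖ ^ 2 := contDiff_const.mul E8_N_smooth
  refine psh_of_levi isOpen_univ (hs1.add hs2).contDiffOn (fun z _ b => ?_)
  rw [levi_add hs1.contDiffAt hs2.contDiffAt, levi_const_mul E8_N_smooth.contDiffAt,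
    levi_normSq, E8_quad_levi ℓ hA]
  have h1 := hm b
  have h2 := E8_N_upper b
  have h3 : 4 * η * (∑ j, ‖b j‖ ^ 2) ≤ m * ‖b‖ ^ 2 := by
    calc 4 * η * (∑ j, ‖b j‖ ^ 2) ≤ 4 * η * (n * ‖b‖ ^ 2) :=
          mul_le_mul_of_nonneg_left h2 (by positivity)
      _ = 4 * η * n * ‖b‖ ^ 2 := by ring
      _ ≤ m * ‖b‖ ^ 2 := mul_le_mul_of_nonneg_right hmη (sq_nonneg _)
  linarith

theorem oenv_not_pd (h : Obs R F Ψ) {z₀ : E n} (hz : z₀ ∈ ball (0 : E n) 1)
    (hlt : oenv R F Ψ z₀ < Ψ z₀) {ℓ : E n →L[ℝ] ℝ} {A : E n →L[ℝ] E n →L[ℝ] ℝ}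
    (hA : ∀ a b, A a b = A b a)
    (hp : (fun v : E n => oenv R F Ψ (z₀ + v) - oenv R F Ψ z₀ - ℓ v - A v v / 2) =o[𝓝 0]
      fun v : E n => ‖v‖ ^ 2) : ¬ (cH A).PosDef := by
  classical
  intro hP
  obtain ⟨m, hm0, hm⟩ := E8_lower hA hP
  obtain ⟨η, hη, hmη⟩ : ∃ η > 0, 4 * η * (n : ℝ) ≤ m := by
    have hn : (0 : ℝ) ≤ (n : ℝ) := Nat.cast_nonneg n
    refine ⟨m / (4 * (n + 1)), by positivity, ?_⟩
    rw [show 4 * (m / (4 * ((n : ℝ) + 1))) * (n : ℝ) = m * (n / (n + 1)) by field_simp]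
    have h1 : (n : ℝ) / (n + 1) ≤ 1 := by
      rw [div_le_one (by positivity)]
      linarith
    nlinarith
  have hpsh := E8_psh ℓ hA hη.le hm hmη
  set f : E n → ℝ := fun v => (ℓ v + A v v / 2) + (-η) * ∑ j, ‖v j‖ ^ 2 with hf
  have hfc : Continuous f :=
    ((E8_quad_smooth ℓ A).continuous).add (continuous_const.mul E8_N_smooth.continuous)
  have hf0 : f 0 = 0 := by
    rw [hf]; simp
  set U : E n → ℝ := oenv R F Ψ with hU
  -- the Peano error
  have hpe := hp.def (show 0 < η / 4 by positivity)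
  rw [Metric.eventually_nhds_iff_ball] at hpe
  obtain ⟨s1, hs1, hpe⟩ := hpe
  -- the obstacle
  set d : ℝ := Ψ z₀ - U z₀ with hd
  have hd0 : 0 < d := sub_pos.mpr hlt
  have hobs : ∀ᶠ v in 𝓝 (0 : E n), U z₀ + d / 2 < Ψ (z₀ + v) - f v := by
    have hc : Continuous fun v : E n => Ψ (z₀ + v) - f v :=
      (h.smo.continuous.comp (continuous_const.add continuous_id)).sub hfc
    refine hc.continuousAt.eventually_const_lt ?_
    change U z₀ + d / 2 < Ψ (z₀ + 0) - f 0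
    rw [add_zero, hf0]
    linarith
  rw [Metric.eventually_nhds_iff_ball] at hobs
  obtain ⟨s2, hs2, hobs⟩ := hobs
  obtain ⟨s, hs0, hss1, hss2, hsd⟩ : ∃ s > 0, s ≤ s1 ∧ s ≤ s2 ∧ η * s ^ 2 / 4 ≤ d / 2 := by
    have hc : Tendsto (fun s : ℝ => η * s ^ 2 / 4) (𝓝[>] 0) (𝓝 0) := by
      have h1 : Tendsto (fun s : ℝ => η * s ^ 2 / 4) (𝓝 0) (𝓝 (η * 0 ^ 2 / 4)) :=
        Continuous.tendsto (by fun_prop) 0
      rw [show η * (0 : ℝ) ^ 2 / 4 = 0 by simp] at h1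
      exact h1.mono_left nhdsWithin_le_nhds
    have h2 : ∀ᶠ s in 𝓝[>] (0 : ℝ), η * s ^ 2 / 4 < d / 2 := hc.eventually_lt_const (by linarith)
    have h3 : ∀ᶠ s in 𝓝[>] (0 : ℝ), s < s1 := (eventually_lt_nhds hs1).filter_mono nhdsWithin_le_nhds
    have h4 : ∀ᶠ s in 𝓝[>] (0 : ℝ), s < s2 := (eventually_lt_nhds hs2).filter_mono nhdsWithin_le_nhds
    obtain ⟨s, hs, ha, hb, hc⟩ := ((eventually_mem_nhdsWithin (s := Ioi (0 : ℝ))).and
      (h2.and (h3.and h4))).exists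
    exact ⟨s, hs, hb.le, hc.le, ha.le⟩
  set κ : ℝ := η * s ^ 2 / 4 with hκ
  have hκ0 : 0 < κ := by positivity
  let w : E n → ℝ := fun z => f (z - z₀) + (U z₀ + κ)
  have hwpsh : Psh univ w := by
    have h1 := (Psh.comp_affine hpsh (-z₀) 1).add_const (U z₀ + κ)
    have h2 : {z : E n | -z₀ + (1 : ℂ) • z ∈ (univ : Set (E n))} = univ := by
      ext z; simp
    rw [h2] at h1
    refine h1.congr (fun z _ => ?_)
    change f (z - z₀) + (U z₀ + κ) = f (-z₀ + (1 : ℂ) • z) + (U z₀ + κ)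
    rw [one_smul, neg_add_eq_sub]
  let C : Set (E n) := closedBall z₀ (3 * s / 4)
  let O : Set (E n) := ball z₀ s
  let g : E n → ℝ := fun z => if z ∈ C then Max.max (U z) (w z) else U z
  have hUc := oenv_ocand h
  have hgpsh : Psh (ball (0 : E n) R) g := by
    refine psh_glue (O := O) (C := C) (v := U) (w := w) isOpen_ball hUc.1 isOpen_ball
      (hwpsh.mono (subset_univ _)) isClosed_closedBall ?_ ?_ ?_ ?_
    · intro z hz
      exact closedBall_subset_ball (by linarith) hz.1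
    · intro z hz hzC
      obtain ⟨v, rfl⟩ : ∃ v, z = z₀ + v := ⟨z - z₀, by abel⟩
      have hv1 : ‖v‖ < s := by
        have := hz.1
        rwa [mem_ball, dist_eq_norm, add_sub_cancel_left] at this
      have hv2 : 3 * s / 4 < ‖v‖ := by
        rw [mem_closedBall, dist_eq_norm, add_sub_cancel_left, not_le] at hzC
        exact hzC
      have hpv := hpe v (by rw [mem_ball_zero_iff]; exact hv1.trans_le hss1)
      rw [Real.norm_eq_abs, Real.norm_eq_abs, abs_of_nonneg (sq_nonneg ‖v‖)] at hpv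
      have hpv' := (abs_le.mp hpv).1
      have hN := E8_N_lower v
      change f (z₀ + v - z₀) + (U z₀ + κ) ≤ U (z₀ + v)
      rw [add_sub_cancel_left]
      have hv3 : (3 * s / 4) ^ 2 ≤ ‖v‖ ^ 2 := pow_le_pow_left₀ (by positivity) hv2.le 2
      have hfv : f v = (ℓ v + A v v / 2) + (-η) * ∑ j, ‖v j‖ ^ 2 := rfl
      rw [hfv]
      have h5 : η * ‖v‖ ^ 2 ≤ η * ∑ j, ‖v j‖ ^ 2 := mul_le_mul_of_nonneg_left hN hη.le
      have h6 : η * (3 * s / 4) ^ 2 ≤ η * ‖v‖ ^ 2 := mul_le_mul_of_nonneg_left hv3 hη.le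
      have h7 : κ ≤ 3 / 4 * (η * (3 * s / 4) ^ 2) := by
        rw [hκ]
        have : 0 ≤ η * s ^ 2 := by positivity
        nlinarith
      nlinarith
    · intro z hz
      exact if_pos hz.1
    · intro z _ hzC
      exact if_neg hzC
  have hgle : ∀ z ∈ ball (0 : E n) R, g z ≤ Ψ z := by
    intro z _
    by_cases hzC : z ∈ C
    · have h1 : g z = Max.max (U z) (w z) := if_pos hzC
      rw [h1]
      refine max_le (oenv_le h z) ?_
      obtain ⟨v, rfl⟩ : ∃ v, z = z₀ + v := ⟨z - z₀, by abel⟩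
      have hv1 : ‖v‖ ≤ 3 * s / 4 := by
        have := hzC
        rwa [mem_closedBall, dist_eq_norm, add_sub_cancel_left] at this
      have h2 := hobs v (by rw [mem_ball_zero_iff]; linarith)
      change f (z₀ + v - z₀) + (U z₀ + κ) ≤ Ψ (z₀ + v)
      rw [add_sub_cancel_left]
      linarith
    · have h1 : g z = U z := if_neg hzC
      rw [h1]
      exact oenv_le h z
  have hz₀R : z₀ ∈ ball (0 : E n) R := by
    rw [mem_ball_zero_iff] at hz ⊢
    exact hz.trans h.hR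
  have hfin := le_oenv h ⟨hgpsh, hgle⟩ hz₀R
  have hz₀C : z₀ ∈ C := mem_closedBall_self (by positivity)
  have hgz : g z₀ = Max.max (U z₀) (w z₀) := if_pos hz₀C
  have hwz : w z₀ = U z₀ + κ := by
    change f (z₀ - z₀) + (U z₀ + κ) = U z₀ + κ
    rw [sub_self, hf0, zero_add]
  rw [hgz, hwz] at hfin
  have := (le_max_right (U z₀) (U z₀ + κ)).trans hfin
  linarith

end Pool.Agent.DMA
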