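import Pool.Agent.Lib.DMA.E4
import Pool.Agent.Lib.DMA.E5
import Pool.Agent.Lib.DMA.E6
import Pool.Agent.Lib.DMA.E7
import Pool.Agent.Lib.DMA.E8

/-! # Row E9: small Monge–Ampère mass off the contact set

PROOF. `U = oenv R F Ψ`, `oenv_reg` gives `Kc, L, h₀`.  `R' = (1 + R)/2`; on `Ω = ball 0 R'` the functions
`f k = moll (ε k) U`, `ε k -> 0`, `ε k ≤ min h₀ (R - R')`, satisfy the hypotheses of `exists_grad`: gradient `G`, Lipschitz.
`ae_D2_moll`: for a.e. `z ∈ Ω`, `D2 (moll ε U) z -> A_z = fderiv G z`.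
For `z ∈ L`: `cH A_z` is PSD (limit of PSD matrices: `Reg.moll_levi`, `CH_psd_levi`, `continuous_cH`, closedness) and
not PD (`oenv_not_pd`, `peano`, `grad_symm`), so `det (cH A_z) = 0` (`Matrix.PosSemidef` + `det ≠ 0` implies
`PosDef`: `Matrix.PosSemidef.posDef_iff_det_ne_zero` / `posDef_iff_isUnit`).
For `κ > 0` let `ε(κ) = min (κ / (2 (L+1))) (min h₀ (R - r'))`, `V = moll (ε κ) U`.
`CH (V + κ q) z = cH (D2 V z) + κ CH q z` (`CH_add`, `CH_smul`), so its determinant tends to `0` for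
a.e. `z ∈ L` as `κ -> 0+`, and is bounded on `L` (`Reg.moll_D2_norm`, compactness): dominated convergence
(`tendsto_lintegral_filter_of_dominated_convergence`); then `≤ ofReal δ` eventually. -/

set_option autoImplicit false

open scoped Topology ContDiff ComplexOrder
open Set Filter Metric MeasureTheory

noncomputable section

namespace Pool.Agent.DMA

open Pool.Agent.K708 (E CMfd)

variable {n : ℕ} {R : ℝ} {F Ψ : E n → ℝ}

private theorem E9_psd {B : E n →L[ℝ] E n →L[ℝ] ℝ} (hB : ∀ u v, B u v = B v u)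
    (h : ∀ v : E n, 0 ≤ B v v + B (Complex.I • v) (Complex.I • v)) : (cH B).PosSemidef := by
  rw [Matrix.posSemidef_iff_dotProduct_mulVec]
  refine ⟨cH_herm hB, fun x => ?_⟩
  rw [CCompAux.quad_star hB]
  exact_mod_cast (by linarith [h (star x)] :
    (0 : ℝ) ≤ (B (star x) (star x) + B (Complex.I • star x) (Complex.I • star x)) / 4)

private theorem E9_compact {W : Type*} [NormedAddCommGroup W] [NormedSpace ℝ W]
    [FiniteDimensional ℝ W] (c : ℝ) : IsCompact {B : W | ‖B‖ ≤ c} := by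
  have h1 : ProperSpace W := FiniteDimensional.proper_real W
  have h2 := isCompact_closedBall (0 : W) c
  convert h2 using 1
  ext B
  simp

/-- The gradient of a regular function. -/
private theorem E9_grad {Kc L h₀ : ℝ} {U : E n → ℝ} (hr : Reg R Kc L h₀ U) (hR : 1 < R) :
    ∃ (G : E n → E n →L[ℝ] ℝ) (K' : NNReal),
      (∀ z ∈ ball (0 : E n) ((1 + R) / 2), HasFDerivAt U (G z) z) ∧
      LipschitzOnWith K' G (ball (0 : E n) ((1 + R) / 2)) := by
  set e₀ : ℝ := min h₀ ((R - 1) / 2) with he₀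
  have he₀pos : 0 < e₀ := lt_min hr.hh (by linarith)
  set e : ℕ → ℝ := fun k => e₀ / (k + 1) with he
  have hepos : ∀ k, 0 < e k := fun k => div_pos he₀pos (by positivity)
  have hele : ∀ k, e k ≤ e₀ := fun k => div_le_self he₀pos.le (by
    have : (0 : ℝ) ≤ k := Nat.cast_nonneg k
    linarith)
  have hetend : Tendsto e atTop (𝓝 0) := by
    have h1 := (tendsto_one_div_add_atTop_nhds_zero_nat (𝕜 := ℝ)).const_mul e₀
    simp only [mul_zero, mul_one_div] at h1
    exact h1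
  have hgr := exists_grad (Ω := ball (0 : E n) ((1 + R) / 2)) isOpen_ball (convex_ball _ _)
    (f := fun k => moll (e k) U) (U := U) (K' := ⟨2 * Kc, by have := hr.hK; positivity⟩)
    (fun k => hr.moll_smooth (e k)) ?_ ?_
  · obtain ⟨G, hG1, hG2⟩ := hgr
    exact ⟨G, _, hG1, hG2⟩
  · intro k z hz
    refine hr.moll_D2_norm (hepos k) ?_
    have h1 : ‖z‖ < (1 + R) / 2 := by simpa using hz
    have h2 : e k ≤ (R - 1) / 2 := (hele k).trans (min_le_right _ _)
    linarith
  · intro ε hε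
    have h1 : Tendsto (fun k => L * e k) atTop (𝓝 0) := by
      simpa using hetend.const_mul L
    filter_upwards [h1.eventually (ge_mem_nhds hε)] with k hk z _
    exact (hr.moll_sub_le (hepos k) ((hele k).trans (min_le_left _ _)) z).trans hk

/-- The determinant of the limit Hessian vanishes. -/
private theorem E9_det (h : Obs R F Ψ) {Kc L h₀ : ℝ} (hr : Reg R Kc L h₀ (oenv R F Ψ))
    {G : E n → E n →L[ℝ] ℝ}
    (hG : ∀ z ∈ ball (0 : E n) ((1 + R) / 2), HasFDerivAt (oenv R F Ψ) (G z) z) {z : E n}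
    (hz : z ∈ ball (0 : E n) 1) (hlt : oenv R F Ψ z < Ψ z) (hd : DifferentiableAt ℝ G z)
    (ht : Tendsto (fun ε : ℝ => D2 (moll ε (oenv R F Ψ)) z) (𝓝[>] 0) (𝓝 (fderiv ℝ G z))) :
    (cH (fderiv ℝ G z)).det = 0 := by
  have hR := h.hR
  have hz1 : ‖z‖ < 1 := by simpa using hz
  have hz2 : z ∈ ball (0 : E n) ((1 + R) / 2) := by
    rw [mem_ball_zero_iff]
    linarith
  have hev : ∀ᶠ y in 𝓝 z, HasFDerivAt (oenv R F Ψ) (G y) y :=
    Filter.eventually_of_mem (isOpen_ball.mem_nhds hz2) hG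
  have hsymm : ∀ a b, fderiv ℝ G z a b = fderiv ℝ G z b a := fun a b => grad_symm hev hd a b
  have hnot := oenv_not_pd h hz hlt (ℓ := G z) (A := fderiv ℝ G z) hsymm (peano hev hd)
  have hpsd : (cH (fderiv ℝ G z)).PosSemidef := by
    refine E9_psd hsymm fun v => ?_
    have hc : ∀ a b : E n, Tendsto (fun ε : ℝ => D2 (moll ε (oenv R F Ψ)) z a b) (𝓝[>] 0)
        (𝓝 (fderiv ℝ G z a b)) := by
      intro a b
      have h1 : Continuous fun B : E n →L[ℝ] E n →L[ℝ] ℝ => B a b :=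
        (((ContinuousLinearMap.apply ℝ ℝ b).comp
          (ContinuousLinearMap.apply ℝ (E n →L[ℝ] ℝ) a)).continuous)
      exact (h1.tendsto _).comp ht
    have hsum := (hc v v).add (hc (Complex.I • v) (Complex.I • v))
    refine ge_of_tendsto hsum ?_
    have hsm : ∀ᶠ ε in 𝓝[>] (0 : ℝ), ε ∈ Ioo 0 (R - ‖z‖) := Ioo_mem_nhdsGT (by linarith)
    filter_upwards [hsm] with ε hε
    exact hr.moll_levi hε.1 (by linarith [hε.2]) v
  by_contra hne
  exact hnot (hpsd.posDef_iff_det_ne_zero.mpr hne)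

theorem env_small (h : Obs R F Ψ) {L : Set (E n)} (hL : IsCompact L)
    (hLB : L ⊆ ball (0 : E n) 1) (hlt : ∀ z ∈ L, oenv R F Ψ z < Ψ z) {q : E n → ℝ}
    (hq : ContDiff ℝ ∞ q) {r' : ℝ} (hr' : r' < R) {δ : ℝ} (hδ : 0 < δ) :
    ∀ᶠ κ in 𝓝[>] (0 : ℝ), ∃ V : E n → ℝ, ContDiff ℝ ∞ V ∧ Psh (ball (0 : E n) r') V ∧
      (∀ z, |V z - oenv R F Ψ z| ≤ κ / 2) ∧
      ∫⁻ z in L, ENNReal.ofReal (CH (fun w => V w + κ * q w) z).det.re ≤ ENNReal.ofReal δ := by
  obtain ⟨Kc, Lc, h₀, hr⟩ := oenv_reg h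
  have hR := h.hR
  set U : E n → ℝ := oenv R F Ψ with hU
  obtain ⟨G, K', hG, hGL⟩ := E9_grad hr hR
  have hae := ae_D2_moll (Ω := ball (0 : E n) ((1 + R) / 2)) isOpen_ball hr.continuous hG hGL
  set ρ₀ : ℝ := min (R - r') ((R - 1) / 2) with hρ₀
  have hρ₀pos : 0 < ρ₀ := lt_min (by linarith) (by linarith)
  set ep : ℝ → ℝ := fun κ => min (κ / (2 * (Lc + 1))) (min h₀ ρ₀) with hep
  have hLc : 0 < 2 * (Lc + 1) := by linarith [hr.hL]
  have heppos : ∀ κ, 0 < κ → 0 < ep κ := fun κ hκ =>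
    lt_min (div_pos hκ hLc) (lt_min hr.hh hρ₀pos)
  have heph : ∀ κ, ep κ ≤ h₀ := fun κ => (min_le_right _ _).trans (min_le_left _ _)
  have hepρ : ∀ κ, ep κ ≤ ρ₀ := fun κ => (min_le_right _ _).trans (min_le_right _ _)
  have heptend : Tendsto ep (𝓝[>] 0) (𝓝[>] 0) := by
    rw [tendsto_nhdsWithin_iff]
    constructor
    · have h1 : Tendsto (fun κ : ℝ => κ / (2 * (Lc + 1))) (𝓝[>] 0) (𝓝 0) := by
        have h2 : Tendsto (fun κ : ℝ => κ / (2 * (Lc + 1))) (𝓝 0) (𝓝 (0 / (2 * (Lc + 1)))) :=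
          (continuous_id.div_const _).tendsto 0
        rw [zero_div] at h2
        exact h2.mono_left nhdsWithin_le_nhds
      refine squeeze_zero' ?_ ?_ h1
      · filter_upwards [self_mem_nhdsWithin] with κ hκ
        exact (heppos κ hκ).le
      · exact Eventually.of_forall fun κ => min_le_left _ _
    · filter_upwards [self_mem_nhdsWithin] with κ hκ
      exact heppos κ hκ
  -- the Hessian
  have hCH : ∀ (κ : ℝ) (z : E n), CH (fun w => moll (ep κ) U w + κ * q w) z =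
      cH (D2 (moll (ep κ) U) z) + (κ : ℂ) • CH q z := by
    intro κ z
    have h1 : ContDiffAt ℝ 2 (moll (ep κ) U) z :=
      (contDiff_infty.1 (hr.moll_smooth (ep κ)) 2).contDiffAt
    have h2 : ContDiffAt ℝ 2 q z := (contDiff_infty.1 hq 2).contDiffAt
    have h3 : ContDiffAt ℝ 2 (fun w => κ * q w) z := contDiffAt_const.mul h2
    rw [CH_add h1 h3, CH_smul κ h2, CH_eq (moll (ep κ) U)]
  have hCHq : Continuous (CH q) := by
    rw [← continuousOn_univ]
    exact CH_continuousOn isOpen_univ hq.contDiffOn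
  -- bound
  obtain ⟨C, hC⟩ : ∃ C : ℝ, ∀ B : E n →L[ℝ] E n →L[ℝ] ℝ, ‖B‖ ≤ 2 * Kc → ∀ κ ∈ Icc (0 : ℝ) 1,
      ∀ z ∈ L, (cH B + (κ : ℂ) • CH q z).det.re ≤ C := by
    have hK1 : IsCompact ({B : E n →L[ℝ] E n →L[ℝ] ℝ | ‖B‖ ≤ 2 * Kc} ×ˢ
        ((Icc (0 : ℝ) 1) ×ˢ L)) :=
      (E9_compact (W := E n →L[ℝ] E n →L[ℝ] ℝ) _).prod (isCompact_Icc.prod hL)
    have hc : Continuous fun p : (E n →L[ℝ] E n →L[ℝ] ℝ) × (ℝ × E n) =>
        (cH p.1 + (p.2.1 : ℂ) • CH q p.2.2).det.re := by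
      refine Complex.continuous_re.comp (Continuous.matrix_det ?_)
      refine (continuous_cH.comp continuous_fst).add ?_
      exact (Complex.continuous_ofReal.comp (continuous_fst.comp continuous_snd)).smul
        (hCHq.comp (continuous_snd.comp continuous_snd))
    obtain ⟨C, hC⟩ := (hK1.image hc).bddAbove
    exact ⟨C, fun B hB κ hκ z hz => hC ⟨(B, (κ, z)), ⟨hB, hκ, hz⟩, rfl⟩⟩
  -- dominated convergence
  have hlim : Tendsto (fun κ : ℝ => ∫⁻ z in L,
      ENNReal.ofReal (CH (fun w => moll (ep κ) U w + κ * q w) z).det.re) (𝓝[>] 0)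
      (𝓝 (∫⁻ _ in L, (0 : ENNReal))) := by
    refine tendsto_lintegral_filter_of_dominated_convergence (fun _ => ENNReal.ofReal C) ?_ ?_ ?_ ?_
    · refine Eventually.of_forall fun κ => ?_
      have h1 : Continuous fun z => (CH (fun w => moll (ep κ) U w + κ * q w) z).det.re := by
        refine Complex.continuous_re.comp (Continuous.matrix_det ?_)
        rw [← continuousOn_univ]
        exact CH_continuousOn isOpen_univ
          (((hr.moll_smooth (ep κ)).add (contDiff_const.mul hq)).contDiffOn)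
      exact h1.measurable.ennreal_ofReal
    · have h1 : ∀ᶠ κ in 𝓝[>] (0 : ℝ), κ ∈ Ioc (0 : ℝ) 1 := Ioc_mem_nhdsGT one_pos
      filter_upwards [h1] with κ hκ
      rw [ae_restrict_iff' hL.measurableSet]
      refine Eventually.of_forall fun z hz => ENNReal.ofReal_le_ofReal ?_
      rw [hCH]
      refine hC _ ?_ κ ⟨hκ.1.le, hκ.2⟩ z hz
      refine hr.moll_D2_norm (heppos κ hκ.1) ?_
      have h2 : ‖z‖ < 1 := by simpa using hLB hz
      have h3 : ep κ ≤ (R - 1) / 2 := (hepρ κ).trans (min_le_right _ _)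
      linarith
    · rw [lintegral_const, Measure.restrict_apply_univ]
      exact ENNReal.mul_ne_top ENNReal.ofReal_ne_top hL.measure_lt_top.ne
    · rw [ae_restrict_iff' hL.measurableSet]
      filter_upwards [hae] with z hz hzL
      have hz1 : ‖z‖ < 1 := by simpa using hLB hzL
      have hzΩ : z ∈ ball (0 : E n) ((1 + R) / 2) := by
        rw [mem_ball_zero_iff]
        linarith
      obtain ⟨hd, ht⟩ := hz hzΩ
      have hdet := E9_det h hr hG (hLB hzL) (hlt z hzL) hd ht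
      have h1 : Tendsto (fun κ : ℝ => cH (D2 (moll (ep κ) U) z) + (κ : ℂ) • CH q z) (𝓝[>] 0)
          (𝓝 (cH (fderiv ℝ G z) + ((0 : ℝ) : ℂ) • CH q z)) := by
        refine Tendsto.add ?_ (Tendsto.smul ?_ tendsto_const_nhds)
        · exact (continuous_cH.tendsto _).comp (ht.comp heptend)
        · exact (Complex.continuous_ofReal.tendsto 0).mono_left nhdsWithin_le_nhds
      rw [Complex.ofReal_zero, zero_smul, add_zero] at h1
      have h2 : Continuous fun M : Matrix (Fin n) (Fin n) ℂ => ENNReal.ofReal M.det.re :=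
        ENNReal.continuous_ofReal.comp
          (Complex.continuous_re.comp (Continuous.matrix_det continuous_id))
      have h3 := (h2.tendsto _).comp h1
      rw [hdet, Complex.zero_re, ENNReal.ofReal_zero] at h3
      refine h3.congr fun κ => ?_
      rw [Function.comp_apply, hCH]
  rw [lintegral_zero] at hlim
  have hfin := hlim.eventually (ge_mem_nhds (ENNReal.ofReal_pos.mpr hδ))
  filter_upwards [hfin, self_mem_nhdsWithin] with κ hκ hκ0
  have hκ0' : 0 < κ := hκ0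
  refine ⟨moll (ep κ) U, hr.moll_smooth _, ?_, ?_, hκ⟩
  · refine (hr.moll_psh (heppos κ hκ0')).mono (ball_subset_ball ?_)
    have h1 : ep κ ≤ R - r' := (hepρ κ).trans (min_le_left _ _)
    linarith
  · intro z
    refine (hr.moll_sub_le (heppos κ hκ0') (heph κ) z).trans ?_
    have h1 : ep κ ≤ κ / (2 * (Lc + 1)) := min_le_left _ _
    have h2 : Lc * ep κ ≤ Lc * (κ / (2 * (Lc + 1))) := mul_le_mul_of_nonneg_left h1 hr.hL
    refine h2.trans ?_
    rw [mul_div_assoc', div_le_div_iff₀ hLc two_pos]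
    nlinarith [hr.hL]

end Pool.Agent.DMA
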