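import Pool.Agent.Lib.DMA.DDefs

/-! # DMA, section E: definitions (obstacle envelopes on the unit polydisc) -/

set_option autoImplicit false

open scoped Manifold ContDiff Topology ComplexOrder
open Set Filter MeasureTheory Metric

noncomputable section

namespace Pool.Agent.DMA

open Pool.Agent.K708 (E CMfd)

variable {n : ℕ}

/-- Smooth data near the closed unit polydisc. -/
structure Dat (R : ℝ) (F : E n → ℝ) : Prop where
  hR : 1 < R
  sm : ContDiff ℝ ∞ F
  cs : HasCompactSupport F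
  psh : Psh (ball (0 : E n) R) F

/-- A smooth obstacle `Ψ ≥ F`, equal to `F` off the unit polydisc. -/
structure Obs (R : ℝ) (F Ψ : E n → ℝ) : Prop extends Dat R F where
  smo : ContDiff ℝ ∞ Ψ
  cso : HasCompactSupport Ψ
  le : ∀ z, F z ≤ Ψ z
  eq : ∀ z, z ∉ ball (0 : E n) 1 → Ψ z = F z

/-- Candidates below the obstacle. -/
def OCand (R : ℝ) (Ψ g : E n → ℝ) : Prop :=
  Psh (ball (0 : E n) R) g ∧ ∀ z ∈ ball (0 : E n) R, g z ≤ Ψ z

open Classical in
/-- The envelope with obstacle. -/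
def oenv (R : ℝ) (F Ψ : E n → ℝ) (z : E n) : ℝ :=
  if z ∈ ball (0 : E n) 1 then sSup {t | ∃ g, OCand R Ψ g ∧ g z = t} else F z

/-- A function with compact support, Lipschitz, psh on `ball 0 R`, with second differences bounded
from above. -/
structure Reg (R Kc L h₀ : ℝ) (U : E n → ℝ) : Prop where
  hK : 0 ≤ Kc
  hL : 0 ≤ L
  hh : 0 < h₀
  cs : HasCompactSupport U
  lip : ∀ z v : E n, ‖v‖ ≤ h₀ → U (z + v) ≤ U z + L * ‖v‖
  snd : ∀ z v : E n, ‖v‖ ≤ h₀ → U (z + v) + U (z - v) - 2 * U z ≤ Kc * ‖v‖ ^ 2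
  psh : Psh (ball (0 : E n) R) U

open Classical in
/-- The function `v ∘ ψ - ρ` on `ψ⁻¹ (ball 0 1)`, `f` elsewhere. -/
def glue {X : CMfd n} (ψ : OpenPartialHomeomorph X (E n)) (ρ : X → ℝ) (v : E n → ℝ) (f : X → ℝ)
    (x : X) : ℝ :=
  if x ∈ ψ.source ∧ ψ x ∈ ball (0 : E n) 1 then v (ψ x) - ρ x else f x

end Pool.Agent.DMA
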