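import Pool.Agent.Lib.K708.Mfd

/-! # DMA, row F1: the Cauchy-Pompeiu formula -/

set_option autoImplicit false

open scoped Manifold ContDiff Topology ComplexOrder
open Set Filter MeasureTheory Metric

noncomputable section

namespace Pool.Agent.DMA

open Pool.Agent.K708 (E CMfd)

/-- `∂f/∂bar ζ` in one variable. -/
def db (f : ℂ → ℂ) (z : ℂ) : ℂ := (fderiv ℝ f z 1 + Complex.I * fderiv ℝ f z Complex.I) / 2

/-- The unit vector at angle `θ`. -/
private def ee (θ : ℝ) : ℂ := (Real.cos θ : ℂ) + (Real.sin θ : ℂ) * Complex.I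

private theorem ee_cont : Continuous ee := by
  unfold ee
  fun_prop

private theorem ee_norm (θ : ℝ) : ‖ee θ‖ = 1 := by
  have h := Complex.norm_polarCoord_symm (1, θ)
  rw [Complex.polarCoord_symm_apply] at h
  simp only [Complex.ofReal_one, one_mul, abs_one] at h
  exact h

private theorem ee_hasDeriv (θ : ℝ) : HasDerivAt ee (Complex.I * ee θ) θ := by
  have h1 : HasDerivAt (fun t : ℝ => (Real.cos t : ℂ)) ((-Real.sin θ : ℝ) : ℂ) θ :=
    (Real.hasDerivAt_cos θ).ofReal_comp
  have h2 : HasDerivAt (fun t : ℝ => (Real.sin t : ℂ)) ((Real.cos θ : ℝ) : ℂ) θ :=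
    (Real.hasDerivAt_sin θ).ofReal_comp
  have h3 := h1.add (h2.mul_const Complex.I)
  refine h3.congr_deriv ?_
  unfold ee
  rw [Complex.ofReal_neg]
  linear_combination (-(Real.sin θ : ℂ)) * Complex.I_mul_I

/-- `∂/∂bar ζ` in rotated coordinates. -/
private theorem db_rot (f : ℂ → ℂ) (w e : ℂ) (he : ‖e‖ = 1) :
    db f w = e / 2 * (fderiv ℝ f w e + Complex.I * fderiv ℝ f w (Complex.I * e)) := by
  have h1 : ∀ v : ℂ, fderiv ℝ f w v = (v.re : ℂ) * fderiv ℝ f w 1 +
      (v.im : ℂ) * fderiv ℝ f w Complex.I := by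
    intro v
    have h2 : v = (v.re : ℝ) • (1 : ℂ) + (v.im : ℝ) • Complex.I := by
      rw [Complex.real_smul, Complex.real_smul, mul_one]
      exact (Complex.re_add_im v).symm
    conv_lhs => rw [h2, map_add, map_smul, map_smul]
    rw [Complex.real_smul, Complex.real_smul]
  have h3 : (e.re : ℂ) ^ 2 + (e.im : ℂ) ^ 2 = 1 := by
    have h4 : e.re ^ 2 + e.im ^ 2 = 1 := by
      have h5 := Complex.sq_norm e
      rw [he, Complex.normSq_apply] at h5
      nlinarith
    exact_mod_cast h4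
  have h6 : (Complex.I * e).re = -e.im := by simp
  have h7 : (Complex.I * e).im = e.re := by simp
  have h8 : e = (e.re : ℂ) + (e.im : ℂ) * Complex.I := (Complex.re_add_im e).symm
  rw [db, h1 e, h1 (Complex.I * e), h6, h7]
  have h9 : e * ((e.re : ℂ) * fderiv ℝ f w 1 + (e.im : ℂ) * fderiv ℝ f w Complex.I +
      Complex.I * (((-e.im : ℝ) : ℂ) * fderiv ℝ f w 1 + (e.re : ℂ) * fderiv ℝ f w Complex.I)) =
      fderiv ℝ f w 1 + Complex.I * fderiv ℝ f w Complex.I := by
    push_cast
    generalize fderiv ℝ f w 1 = a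
    generalize fderiv ℝ f w Complex.I = b
    conv_lhs => rw [h8]
    simp only [Complex.add_re, Complex.ofReal_re, Complex.mul_re, Complex.I_re, mul_zero,
      Complex.ofReal_im, Complex.I_im, mul_one, sub_self, add_zero, Complex.add_im, Complex.mul_im,
      zero_add]
    linear_combination (a + Complex.I * b) * h3 +
      (-(e.im : ℂ) ^ 2 * a + (e.re : ℂ) * (e.im : ℂ) * b) * Complex.I_mul_I
  linear_combination (-1 / 2 : ℂ) * h9

/-- Cauchy-Pompeiu.  Proof: polar coordinates around `z` (`Complex.integral_comp_polarCoord_symm`):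
with `h ζ = f (z - ζ)`, `db f (z - ζ) = -(1/2) e^{iθ} (∂_r + (i/r) ∂_θ) h`, so the integral is
`-(1/(2π)) ∫∫ (∂_r h + (i/r) ∂_θ h) dr dθ = f z` (the `θ`-derivative integrates to `0`). -/
theorem cauchy_pompeiu {f : ℂ → ℂ} (hf : ContDiff ℝ ∞ f) (hc : HasCompactSupport f) (z : ℂ) :
    ∫ ζ : ℂ, (Real.pi : ℂ)⁻¹ * ζ⁻¹ * db f (z - ζ) = f z := by
  have hd : Continuous (fderiv ℝ f) := hf.continuous_fderiv (by norm_num)
  have hdiff : Differentiable ℝ f := hf.differentiable (by norm_num)
  obtain ⟨R₁, hR₁⟩ := hc.isBounded.subset_closedBall 0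
  set R : ℝ := |R₁| + ‖z‖ + 1 with hR
  have hfar : ∀ r θ : ℝ, R ≤ |r| → z - r * ee θ ∉ tsupport f := by
    intro r θ hr hmem
    have h1 := mem_closedBall_zero_iff.1 (hR₁ hmem)
    have h2 : ‖(r : ℂ) * ee θ‖ = |r| := by rw [norm_mul, ee_norm, mul_one, Complex.norm_real,
      Real.norm_eq_abs]
    have h3 : ‖(r : ℂ) * ee θ‖ ≤ ‖z - r * ee θ‖ + ‖z‖ := by
      have := norm_sub_norm_le ((r : ℂ) * ee θ) z
      rw [norm_sub_rev] at this
      linarith
    have h4 := le_abs_self R₁
    linarith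
  have hf0 : ∀ r θ : ℝ, R ≤ |r| → f (z - r * ee θ) = 0 := fun r θ hr =>
    image_eq_zero_of_notMem_tsupport (hfar r θ hr)
  have hd0 : ∀ r θ : ℝ, R ≤ |r| → fderiv ℝ f (z - r * ee θ) = 0 := fun r θ hr => by
    by_contra hne
    exact hfar r θ hr (support_fderiv_subset ℝ (Function.mem_support.2 hne))
  set A : ℝ × ℝ → ℂ := fun p => fderiv ℝ f (z - p.1 * ee p.2) (ee p.2) with hA
  set B : ℝ × ℝ → ℂ := fun p => fderiv ℝ f (z - p.1 * ee p.2) (Complex.I * ee p.2) with hB
  have hcb : Continuous fun p : ℝ × ℝ => z - (p.1 : ℂ) * ee p.2 :=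
    continuous_const.sub ((Complex.continuous_ofReal.comp continuous_fst).mul
      (ee_cont.comp continuous_snd))
  have hAc : Continuous A := (hd.comp hcb).clm_apply (ee_cont.comp continuous_snd)
  have hBc : Continuous B := (hd.comp hcb).clm_apply
    (continuous_const.mul (ee_cont.comp continuous_snd))
  have hint : ∀ G : ℝ × ℝ → ℂ, Continuous G → (∀ r θ : ℝ, R ≤ |r| → G (r, θ) = 0) →
      IntegrableOn G (Ioi (0 : ℝ) ×ˢ Ioo (-Real.pi) Real.pi) (volume.prod volume) := by
    intro G hG hG0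
    have h1 : IntegrableOn G (Icc (0 : ℝ) R ×ˢ Icc (-Real.pi) Real.pi) (volume.prod volume) :=
      hG.continuousOn.integrableOn_compact (isCompact_Icc.prod isCompact_Icc)
    refine h1.of_forall_sdiff_eq_zero (measurableSet_Ioi.prod measurableSet_Ioo) ?_
    rintro ⟨r, θ⟩ ⟨⟨h2, h3⟩, h4⟩
    refine hG0 r θ ?_
    by_contra h5
    refine h4 ⟨⟨(mem_Ioi.1 h2).le, ?_⟩, h3.1.le, h3.2.le⟩
    exact (le_abs_self r).trans (not_le.1 h5).le
  have hAi := hint A hAc fun r θ hr => by simp only [hA, hd0 r θ hr]; rfl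
  have hBi := hint B hBc fun r θ hr => by simp only [hB, hd0 r θ hr]; rfl
  -- the radial integral
  have hAr : ∀ θ : ℝ, ∫ r in Ioi (0 : ℝ), A (r, θ) = f z := by
    intro θ
    have h1 : ∀ r : ℝ, HasDerivAt (fun r : ℝ => f (z - r * ee θ)) (-A (r, θ)) r := by
      intro r
      have h2 : HasDerivAt (fun r : ℝ => z - (r : ℂ) * ee θ) (-ee θ) r := by
        have := ((hasDerivAt_id r).ofReal_comp.mul_const (ee θ)).const_sub z
        simpa using this
      have h3 := (hdiff (z - r * ee θ)).hasFDerivAt.comp_hasDerivAt r h2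
      refine h3.congr_deriv ?_
      rw [map_neg]
    have h4 : ContDiff ℝ 1 (fun r : ℝ => f (z - r * ee θ)) := by
      refine (hf.of_le (by norm_num)).comp ?_
      exact contDiff_const.sub ((Complex.ofRealCLM.contDiff).mul contDiff_const)
    have h5 : HasCompactSupport (fun r : ℝ => f (z - r * ee θ)) := by
      refine HasCompactSupport.intro (isCompact_Icc (a := -R) (b := R)) fun r hr => hf0 r θ ?_
      by_contra h6
      exact hr (abs_le.1 (not_le.1 h6).le)
    have h6 := HasCompactSupport.integral_Ioi_deriv_eq h4 h5 0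
    have h7 : deriv (fun r : ℝ => f (z - r * ee θ)) = fun r => -A (r, θ) :=
      funext fun r => (h1 r).deriv
    rw [h7, integral_neg] at h6
    have h8 := neg_injective h6
    rw [h8]
    simp
  -- the angular integral
  have hBr : ∀ r ∈ Ioi (0 : ℝ), ∫ θ in Ioo (-Real.pi) Real.pi, B (r, θ) = 0 := by
    intro r hr
    have hr0 : (r : ℂ) ≠ 0 := by exact_mod_cast (mem_Ioi.1 hr).ne'
    have h1 : ∀ θ : ℝ, HasDerivAt (fun θ : ℝ => f (z - r * ee θ)) (-(r : ℂ) * B (r, θ)) θ := by
      intro θ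
      have h2 : HasDerivAt (fun θ : ℝ => z - (r : ℂ) * ee θ) (-(r • (Complex.I * ee θ))) θ := by
        have := ((ee_hasDeriv θ).const_mul (r : ℂ)).const_sub z
        rw [Complex.real_smul]
        exact this
      have h3 := (hdiff (z - r * ee θ)).hasFDerivAt.comp_hasDerivAt θ h2
      refine h3.congr_deriv ?_
      rw [map_neg, map_smul, Complex.real_smul, neg_mul]
    have h4 : ∫ θ in (-Real.pi)..Real.pi, -(r : ℂ) * B (r, θ) =
        f (z - r * ee Real.pi) - f (z - r * ee (-Real.pi)) := by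
      refine intervalIntegral.integral_eq_sub_of_hasDerivAt (fun θ _ => h1 θ) ?_
      exact (continuous_const.mul (hBc.comp (Continuous.prodMk_right r))).intervalIntegrable _ _
    have h5 : ee (-Real.pi) = ee Real.pi := by simp [ee]
    rw [h5, sub_self, intervalIntegral.integral_const_mul] at h4
    have h6 := (mul_eq_zero.1 h4).resolve_left (neg_ne_zero.2 hr0)
    rwa [intervalIntegral.integral_of_le (by linarith [Real.pi_pos]),
      integral_Ioc_eq_integral_Ioo] at h6
  have hAI : ∫ p in Ioi (0 : ℝ) ×ˢ Ioo (-Real.pi) Real.pi, A p ∂(volume.prod volume) =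
      (2 * Real.pi : ℝ) • f z := by
    have h1 := setIntegral_prod_swap (μ := (volume : Measure ℝ)) (ν := (volume : Measure ℝ))
      (Ioi (0 : ℝ)) (Ioo (-Real.pi) Real.pi) A
    rw [← h1, setIntegral_prod]
    · calc ∫ θ in Ioo (-Real.pi) Real.pi, ∫ r in Ioi (0 : ℝ), A (Prod.swap (θ, r))
          = ∫ θ in Ioo (-Real.pi) Real.pi, f z := by
            refine setIntegral_congr_fun measurableSet_Ioo fun θ _ => ?_
            exact hAr θ
        _ = (2 * Real.pi : ℝ) • f z := by
            rw [setIntegral_const, Real.volume_real_Ioo_of_le (by linarith [Real.pi_pos])]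
            congr 1
            ring
    · have h2 := hAi.swap
      exact h2
  have hBI : ∫ p in Ioi (0 : ℝ) ×ˢ Ioo (-Real.pi) Real.pi, B p ∂(volume.prod volume) = 0 := by
    rw [setIntegral_prod _ hBi]
    calc ∫ r in Ioi (0 : ℝ), ∫ θ in Ioo (-Real.pi) Real.pi, B (r, θ)
        = ∫ r in Ioi (0 : ℝ), (0 : ℂ) := setIntegral_congr_fun measurableSet_Ioi hBr
      _ = 0 := by simp
  rw [← Complex.integral_comp_polarCoord_symm]
  have hcongr : ∀ p ∈ polarCoord.target, p.1 • ((Real.pi : ℂ)⁻¹ * (Complex.polarCoord.symm p)⁻¹ *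
      db f (z - Complex.polarCoord.symm p)) =
      (2 * Real.pi : ℂ)⁻¹ * A p + ((2 * Real.pi : ℂ)⁻¹ * Complex.I) * B p := by
    rintro ⟨r, θ⟩ hp
    have hr : 0 < r := hp.1
    have hr0 : (r : ℂ) ≠ 0 := by exact_mod_cast hr.ne'
    have he : ee θ ≠ 0 := by
      rw [← norm_ne_zero_iff, ee_norm]
      exact one_ne_zero
    have hpi : (Real.pi : ℂ) ≠ 0 := by exact_mod_cast Real.pi_pos.ne'
    have h1 : Complex.polarCoord.symm (r, θ) = r * ee θ := Complex.polarCoord_symm_apply _
    rw [h1, db_rot f _ _ (ee_norm θ), Complex.real_smul]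
    simp only [hA, hB]
    field_simp
  rw [setIntegral_congr_fun polarCoord.open_target.measurableSet hcongr]
  change ∫ p in Ioi (0 : ℝ) ×ˢ Ioo (-Real.pi) Real.pi, ((2 * Real.pi : ℂ)⁻¹ * A p +
    ((2 * Real.pi : ℂ)⁻¹ * Complex.I) * B p) ∂(volume.prod volume) = f z
  rw [integral_add (hAi.const_mul _) (hBi.const_mul _), integral_const_mul, integral_const_mul,
    hAI, hBI, mul_zero, add_zero, Complex.real_smul]
  have hpi : (Real.pi : ℂ) ≠ 0 := by exact_mod_cast Real.pi_pos.ne'
  push_cast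
  field_simp

/-- `1/ζ` is locally integrable on `ℂ`. -/
theorem locallyIntegrable_inv : LocallyIntegrable (fun ζ : ℂ => ζ⁻¹) := by
  rw [locallyIntegrable_iff]
  intro k hk
  obtain ⟨R, hR⟩ := hk.isBounded.subset_ball 0
  refine IntegrableOn.mono_set ?_ hR
  have h1 : IntegrableOn (fun ζ : ℂ => (fun r : ℝ => r⁻¹) ‖ζ‖) (ball (0 : ℂ) R) := by
    rw [integrableOn_fun_norm_addHaar, Complex.finrank_real_complex]
    have h2 : IntegrableOn (fun _ : ℝ => (1 : ℝ)) (Ioo 0 R) :=
      integrableOn_const (by simp)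
    refine h2.congr_fun (fun y hy => ?_) measurableSet_Ioo
    have hy0 : y ≠ 0 := hy.1.ne'
    simp [hy0]
  refine Integrable.mono' h1 measurable_inv.aestronglyMeasurable ?_
  exact Eventually.of_forall fun ζ => by simp

end Pool.Agent.DMA
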