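import Pool.Agent.Lib.DMA.F1
import Pool.Agent.Lib.DMA.CWirt

/-! # DMA, row F2: the d-bar equation in one variable with parameters -/

set_option autoImplicit false

open scoped Manifold ContDiff Topology ComplexOrder
open Set Filter MeasureTheory Metric

noncomputable section

namespace Pool.Agent.DMA

open Pool.Agent.K708 (E CMfd)

variable {n : ℕ}

namespace F2aux

/-- the kernel -/
def ker (ζ : ℂ) : ℂ := (Real.pi : ℂ)⁻¹ * ζ⁻¹

/-- the solution operator in the variable `k` -/
def sol (k : Fin n) (G : E n → ℂ) (z : E n) : ℂ :=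
  ∫ ζ : ℂ, ker ζ * G (z - ζ • Pi.single k (1 : ℂ))

theorem ker_loc : LocallyIntegrable ker := by
  have h := locallyIntegrable_inv.smul ((Real.pi : ℂ)⁻¹)
  exact h

theorem norm_sub_single (k : Fin n) {z : E n} {ζ : ℂ} {ρ R : ℝ} (hz : ‖z‖ ≤ ρ)
    (h : ‖z - ζ • Pi.single k (1 : ℂ)‖ ≤ R) : ‖ζ‖ ≤ R + ρ := by
  have h1 := norm_le_pi_norm (z - ζ • Pi.single k (1 : ℂ) : E n) k
  have h2 := norm_le_pi_norm z k
  have h3 : (z - ζ • Pi.single k (1 : ℂ) : E n) k = z k - ζ := by
    simp
  rw [h3] at h1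
  calc ‖ζ‖ = ‖z k - (z k - ζ)‖ := by rw [sub_sub_cancel]
    _ ≤ ‖z k‖ + ‖z k - ζ‖ := norm_sub_le _ _
    _ ≤ R + ρ := by linarith

variable {k : Fin n} {G : E n → ℂ} {R : ℝ}

theorem sol_smooth (hG : ContDiff ℝ ∞ G) (hs : ∀ w, R < ‖w‖ → G w = 0) (r : ℝ) :
    ContDiffOn ℝ ∞ (sol k G) (ball 0 r) := by
  have h := contDiffOn_convolution_right_with_param_comp (𝕜 := ℝ) (n := ⊤) (μ := (volume : Measure ℂ))
    (ContinuousLinearMap.mul ℝ ℂ) (s := ball (0 : E n) r) (v := fun _ => (0 : ℂ)) contDiffOn_const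
    (f := ker) (g := fun (z : E n) (x : ℂ) => G (z + x • Pi.single k (1 : ℂ)))
    (k := closedBall (0 : ℂ) (R + r)) isOpen_ball (isCompact_closedBall _ _) ?_ ker_loc ?_
  · refine h.congr fun z _ => ?_
    unfold sol
    rw [convolution_def]
    refine integral_congr_ae (Filter.Eventually.of_forall fun ζ => ?_)
    change ker ζ * G (z - ζ • Pi.single k (1 : ℂ)) =
      ker ζ * G (z + (0 - ζ) • Pi.single k (1 : ℂ))
    rw [zero_sub, neg_smul, ← sub_eq_add_neg]
  · intro z x hz hx
    apply hs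
    by_contra h1
    push Not at h1
    apply hx
    rw [mem_ball_zero_iff] at hz
    rw [mem_closedBall_zero_iff, ← norm_neg]
    refine norm_sub_single k hz.le ?_
    rw [neg_smul, sub_neg_eq_add]
    exact h1
  · refine (hG.comp ?_).contDiffOn
    exact contDiff_fst.add (contDiff_snd.smul contDiff_const)

theorem sol_deriv (hG : ContDiff ℝ ∞ G) (hs : ∀ w, R < ‖w‖ → G w = 0) (z : E n) :
    HasFDerivAt (sol k G) (∫ ζ : ℂ, ker ζ • fderiv ℝ G (z - ζ • Pi.single k (1 : ℂ))) z := by
  have hGc : HasCompactSupport G := by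
    refine HasCompactSupport.of_support_subset_isCompact (isCompact_closedBall (0 : E n) R) ?_
    intro w hw
    rw [mem_closedBall_zero_iff]
    by_contra h1
    push Not at h1
    exact hw (hs w h1)
  have hG1 : Continuous (fderiv ℝ G) := (hG.fderiv_right (m := ∞) (by simp)).continuous
  obtain ⟨M, hM⟩ := hG1.bounded_above_of_compact_support (hGc.fderiv ℝ)
  have hM0 : 0 ≤ M := (norm_nonneg _).trans (hM 0)
  have hs1 : ∀ w, R < ‖w‖ → fderiv ℝ G w = 0 := by
    intro w hw
    have h1 : G =ᶠ[𝓝 w] fun _ => 0 := by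
      have h2 : ∀ᶠ y in 𝓝 w, R < ‖y‖ := continuous_norm.continuousAt.eventually_const_lt hw
      exact h2.mono fun y hy => hs y hy
    rw [h1.fderiv_eq]
    simp
  have hcont : ∀ z : E n, Continuous fun ζ : ℂ => z - ζ • (Pi.single k (1 : ℂ) : E n) := fun z =>
    continuous_const.sub (continuous_id.smul continuous_const)
  have hker : AEStronglyMeasurable ker (volume : Measure ℂ) := ker_loc.aestronglyMeasurable
  have hbi : Integrable ((closedBall (0 : ℂ) (R + (‖z‖ + 1))).indicator fun ζ => ‖ker ζ‖ * M)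
      volume := by
    rw [integrable_indicator_iff measurableSet_closedBall]
    exact ((ker_loc.integrableOn_isCompact (isCompact_closedBall _ _)).norm).mul_const M
  obtain ⟨M', hM'⟩ := hG.continuous.bounded_above_of_compact_support hGc
  refine hasFDerivAt_integral_of_dominated_of_fderiv_le (s := ball z 1)
    (F := fun (z : E n) (ζ : ℂ) => ker ζ * G (z - ζ • Pi.single k (1 : ℂ)))
    (F' := fun (z : E n) (ζ : ℂ) => ker ζ • fderiv ℝ G (z - ζ • Pi.single k (1 : ℂ)))
    (bound := (closedBall (0 : ℂ) (R + (‖z‖ + 1))).indicator fun ζ => ‖ker ζ‖ * M)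
    (ball_mem_nhds z one_pos) ?_ ?_ ?_ ?_ hbi ?_
  · refine Filter.Eventually.of_forall fun y => ?_
    exact hker.mul (hG.continuous.comp (hcont y)).aestronglyMeasurable
  · have hb2 : Integrable ((closedBall (0 : ℂ) (R + (‖z‖ + 1))).indicator
        fun ζ => ‖ker ζ‖ * M') volume := by
      rw [integrable_indicator_iff measurableSet_closedBall]
      exact ((ker_loc.integrableOn_isCompact (isCompact_closedBall _ _)).norm).mul_const M'
    refine hb2.mono' (hker.mul (hG.continuous.comp (hcont z)).aestronglyMeasurable) ?_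
    refine Filter.Eventually.of_forall fun ζ => ?_
    by_cases hζ : ζ ∈ closedBall (0 : ℂ) (R + (‖z‖ + 1))
    · rw [indicator_of_mem hζ, norm_mul]
      exact mul_le_mul_of_nonneg_left (hM' _) (norm_nonneg _)
    · rw [indicator_of_notMem hζ, hs _ ?_, mul_zero, norm_zero]
      by_contra h1
      push Not at h1
      apply hζ
      rw [mem_closedBall_zero_iff]
      have := norm_sub_single k (le_refl ‖z‖) h1
      linarith
  · exact hker.smul (hG1.comp (hcont z)).aestronglyMeasurable
  · refine Filter.Eventually.of_forall fun ζ y hy => ?_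
    by_cases hζ : ζ ∈ closedBall (0 : ℂ) (R + (‖z‖ + 1))
    · rw [indicator_of_mem hζ, norm_smul]
      exact mul_le_mul_of_nonneg_left (hM _) (norm_nonneg _)
    · rw [indicator_of_notMem hζ, norm_smul, hs1 _ ?_, norm_zero, mul_zero]
      by_contra h1
      push Not at h1
      apply hζ
      rw [mem_closedBall_zero_iff]
      refine norm_sub_single k ?_ h1
      have h2 : ‖y - z‖ < 1 := by rwa [← dist_eq_norm]
      calc ‖y‖ = ‖z + (y - z)‖ := by rw [add_sub_cancel]
        _ ≤ ‖z‖ + ‖y - z‖ := norm_add_le _ _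
        _ ≤ ‖z‖ + 1 := by linarith
  · refine Filter.Eventually.of_forall fun ζ y _ => ?_
    have h1 : HasFDerivAt (fun y : E n => y - ζ • Pi.single k (1 : ℂ))
        (ContinuousLinearMap.id ℝ (E n)) y := (hasFDerivAt_id y).sub_const _
    have h2 : HasFDerivAt G (fderiv ℝ G (y - ζ • Pi.single k (1 : ℂ)))
        (y - ζ • Pi.single k (1 : ℂ)) := ((hG.differentiable (by simp)) _).hasFDerivAt
    have h3 := (h2.comp y h1).const_mul (ker ζ)
    rw [ContinuousLinearMap.comp_id] at h3
    exact h3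

theorem sol_int {V : Type*} [NormedAddCommGroup V] [NormedSpace ℂ V] {H : E n → V}
    (hH : Continuous H) (hs : ∀ w, R < ‖w‖ → H w = 0) (z : E n) :
    Integrable fun ζ : ℂ => ker ζ • H (z - ζ • Pi.single k (1 : ℂ)) := by
  have hc : HasCompactSupport H := by
    refine HasCompactSupport.of_support_subset_isCompact (isCompact_closedBall (0 : E n) R) ?_
    intro w hw
    rw [mem_closedBall_zero_iff]
    by_contra h1
    push Not at h1
    exact hw (hs w h1)
  obtain ⟨M, hM⟩ := hH.bounded_above_of_compact_support hc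
  have hcont : Continuous fun ζ : ℂ => z - ζ • (Pi.single k (1 : ℂ) : E n) :=
    continuous_const.sub (continuous_id.smul continuous_const)
  have hb : Integrable ((closedBall (0 : ℂ) (R + ‖z‖)).indicator fun ζ => ‖ker ζ‖ * M)
      volume := by
    rw [integrable_indicator_iff measurableSet_closedBall]
    exact ((ker_loc.integrableOn_isCompact (isCompact_closedBall _ _)).norm).mul_const M
  refine hb.mono' (ker_loc.aestronglyMeasurable.smul (hH.comp hcont).aestronglyMeasurable) ?_
  refine Filter.Eventually.of_forall fun ζ => ?_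
  by_cases hζ : ζ ∈ closedBall (0 : ℂ) (R + ‖z‖)
  · rw [indicator_of_mem hζ, norm_smul]
    exact mul_le_mul_of_nonneg_left (hM _) (norm_nonneg _)
  · rw [indicator_of_notMem hζ, norm_smul, hs _ ?_, norm_zero, mul_zero]
    by_contra h1
    push Not at h1
    apply hζ
    rw [mem_closedBall_zero_iff]
    exact norm_sub_single k le_rfl h1

theorem fderiv_zero_off (hs : ∀ w, R < ‖w‖ → G w = 0) {w : E n} (hw : R < ‖w‖) :
    fderiv ℝ G w = 0 := by
  have h1 : G =ᶠ[𝓝 w] fun _ => 0 := by
    have h2 : ∀ᶠ y in 𝓝 w, R < ‖y‖ := continuous_norm.continuousAt.eventually_const_lt hw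
    exact h2.mono fun y hy => hs y hy
  rw [h1.fderiv_eq]
  simp

theorem sol_wb (hG : ContDiff ℝ ∞ G) (hs : ∀ w, R < ‖w‖ → G w = 0) (j : Fin n) (z : E n) :
    wb j (sol k G) z = ∫ ζ : ℂ, ker ζ * wb j G (z - ζ • Pi.single k (1 : ℂ)) := by
  have hG1 : Continuous (fderiv ℝ G) := (hG.fderiv_right (m := ∞) (by simp)).continuous
  have hi := sol_int (k := k) hG1 (fun w hw => fderiv_zero_off hs hw) z
  have h1 : ∀ v : E n, fderiv ℝ (sol k G) z v =
      ∫ ζ : ℂ, ker ζ * fderiv ℝ G (z - ζ • Pi.single k (1 : ℂ)) v := by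
    intro v
    rw [(sol_deriv hG hs z).fderiv, ContinuousLinearMap.integral_apply hi]
    rfl
  have hi1 : ∀ v : E n, Integrable fun ζ : ℂ =>
      ker ζ * fderiv ℝ G (z - ζ • Pi.single k (1 : ℂ)) v := by
    intro v
    exact sol_int (k := k) (H := fun w => fderiv ℝ G w v) (hG1.clm_apply continuous_const)
      (fun w hw => by rw [fderiv_zero_off hs hw]; rfl) z
  have h2 : (fun ζ : ℂ => ker ζ * wb j G (z - ζ • Pi.single k (1 : ℂ))) = fun ζ =>
      (ker ζ * fderiv ℝ G (z - ζ • Pi.single k (1 : ℂ)) (Pi.single j 1) + Complex.I *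
        (ker ζ * fderiv ℝ G (z - ζ • Pi.single k (1 : ℂ)) (Complex.I • Pi.single j 1))) / 2 := by
    funext ζ
    unfold wb
    ring
  rw [h2, integral_div, integral_add (hi1 _) ((hi1 _).const_mul _), integral_const_mul, ← h1, ← h1]
  rfl

theorem sol_self (hG : ContDiff ℝ ∞ G) (hs : ∀ w, R < ‖w‖ → G w = 0) (z : E n) :
    wb k (sol k G) z = G z := by
  rw [sol_wb hG hs]
  obtain ⟨ℓ, hℓ⟩ : ∃ ℓ : ℂ → E n, ∀ x, ℓ x = z + (x - z k) • Pi.single k (1 : ℂ) :=
    ⟨fun x => z + (x - z k) • Pi.single k (1 : ℂ), fun _ => rfl⟩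
  have hℓf : ℓ = fun x => z + (x - z k) • Pi.single k (1 : ℂ) := funext hℓ
  have hℓs : ContDiff ℝ ∞ ℓ := by
    rw [hℓf]
    exact contDiff_const.add ((contDiff_id.sub contDiff_const).smul contDiff_const)
  have hℓk : ∀ x, (ℓ x) k = x := by
    intro x
    rw [hℓ]
    simp
  have hℓd : ∀ x, HasFDerivAt ℓ ((ContinuousLinearMap.id ℝ ℂ).smulRight
      (Pi.single k (1 : ℂ) : E n)) x := by
    intro x
    rw [hℓf]
    have h1 := (((hasFDerivAt_id (𝕜 := ℝ) x).sub_const (z k)).smul_const
      (Pi.single k (1 : ℂ) : E n)).const_add z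
    exact h1
  have hf : ContDiff ℝ ∞ (fun x => G (ℓ x)) := hG.comp hℓs
  have hc : HasCompactSupport (fun x => G (ℓ x)) := by
    refine HasCompactSupport.of_support_subset_isCompact (isCompact_closedBall (0 : ℂ) R) ?_
    intro x hx
    rw [mem_closedBall_zero_iff]
    by_contra h1
    push Not at h1
    apply hx
    apply hs
    refine h1.trans_le ?_
    have h2 := norm_le_pi_norm (ℓ x) k
    rwa [hℓk] at h2
  have hcp := cauchy_pompeiu hf hc (z k)
  have h1 : ∀ x, db (fun x => G (ℓ x)) x = wb k G (ℓ x) := by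
    intro x
    have h2 : HasFDerivAt (fun x => G (ℓ x)) ((fderiv ℝ G (ℓ x)).comp
        ((ContinuousLinearMap.id ℝ ℂ).smulRight (Pi.single k (1 : ℂ) : E n))) x :=
      (((hG.differentiable (by simp)) (ℓ x)).hasFDerivAt).comp x (hℓd x)
    unfold db wb
    rw [h2.fderiv]
    simp
  have h3 : ∀ ζ : ℂ, ℓ (z k - ζ) = z - ζ • Pi.single k (1 : ℂ) := by
    intro ζ
    rw [hℓ, sub_sub_cancel_left, neg_smul, ← sub_eq_add_neg]
  have h4 : ℓ (z k) = z := by
    rw [hℓ, sub_self, zero_smul, add_zero]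
  simp only [h1, h3, h4] at hcp
  exact hcp

end F2aux

/-- Solve `∂u/∂bar z_k = g` on a smaller polydisc (`ball 0 r` for the sup norm), keeping the
equations `∂g/∂bar z_j = 0`.  Proof: `χ` a smooth cut-off on `ℂ`, `= 1` on `|ζ| ≤ r`, supported in
`|ζ| < R`; `u z = ∫ ζ : ℂ, π⁻¹ ζ⁻¹ (χ g)(z - ζ e_k)` where `(χ g)(w) = χ (w k) * g w`; smoothness by
`contDiffOn_convolution_right_with_param` (the other variables are parameters in `ball 0 R`),
`cauchy_pompeiu` in the variable `k`, and differentiation under the integral for `j ≠ k`. -/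
theorem db_solve (k : Fin n) {R r : ℝ} (hr : 0 < r) (hrR : r < R) {g : E n → ℂ}
    (hg : ContDiffOn ℝ ∞ g (ball 0 R)) :
    ∃ u : E n → ℂ, ContDiffOn ℝ ∞ u (ball 0 r) ∧ (∀ z ∈ ball (0 : E n) r, wb k u z = g z) ∧
      ∀ j, j ≠ k → (∀ z ∈ ball (0 : E n) R, wb j g z = 0) →
        ∀ z ∈ ball (0 : E n) r, wb j u z = 0 := by
  classical
  obtain ⟨r₁, h1, h2⟩ := exists_between hrR
  obtain ⟨R₂, h3, h4⟩ := exists_between h2
  have hr₁ : 0 < r₁ := hr.trans h1
  have hR₂ : 0 < R₂ := hr₁.trans h3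
  let χ : ContDiffBump (0 : ℂ) := ⟨r₁, R₂, hr₁, h3⟩
  have hχ1 : ∀ x : ℂ, ‖x‖ ≤ r₁ → χ x = 1 := fun x hx =>
    χ.one_of_mem_closedBall (by rw [mem_closedBall_zero_iff]; exact hx)
  have hχ0 : ∀ x : ℂ, R₂ ≤ ‖x‖ → χ x = 0 := fun x hx =>
    χ.zero_of_le_dist (by rw [dist_zero_right]; exact hx)
  let c : ℂ → ℂ := fun x => ((χ x : ℝ) : ℂ)
  have hcs : ContDiff ℝ ∞ c := Complex.ofRealCLM.contDiff.comp χ.contDiff
  let P : E n → ℂ := fun w => ∏ i, c (w i)
  have hP : ContDiff ℝ ∞ P := by
    refine contDiff_prod fun i _ => ?_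
    exact hcs.comp (contDiff_apply ℝ ℂ i)
  have hc1 : ∀ x : ℂ, ‖x‖ ≤ r₁ → c x = 1 := fun x hx => by
    change ((χ x : ℝ) : ℂ) = 1
    rw [hχ1 x hx, Complex.ofReal_one]
  have hc0 : ∀ x : ℂ, R₂ ≤ ‖x‖ → c x = 0 := fun x hx => by
    change ((χ x : ℝ) : ℂ) = 0
    rw [hχ0 x hx, Complex.ofReal_zero]
  have hs : ∀ w : E n, R₂ < ‖w‖ → P w * g w = 0 := by
    intro w hw
    have h5 : ∃ i, R₂ < ‖w i‖ := by
      by_contra h6
      push Not at h6
      exact absurd ((pi_norm_le_iff_of_nonneg hR₂.le).2 h6) (not_le.2 hw)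
    obtain ⟨i, hi⟩ := h5
    have h6 : P w = 0 := Finset.prod_eq_zero (Finset.mem_univ i) (hc0 _ hi.le)
    rw [h6, zero_mul]
  have hG : ContDiff ℝ ∞ fun w => P w * g w := by
    rw [contDiff_iff_contDiffAt]
    intro w
    by_cases hw : ‖w‖ < R
    · exact hP.contDiffAt.mul (hg.contDiffAt (isOpen_ball.mem_nhds
        (by rw [mem_ball_zero_iff]; exact hw)))
    · have h5 : R₂ < ‖w‖ := h4.trans_le (not_lt.1 hw)
      have h6 : (fun w => P w * g w) =ᶠ[𝓝 w] fun _ => 0 := by
        have h7 : ∀ᶠ y in 𝓝 w, R₂ < ‖y‖ := continuous_norm.continuousAt.eventually_const_lt h5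
        exact h7.mono fun y hy => hs y hy
      exact contDiffAt_const.congr_of_eventuallyEq h6
  refine ⟨F2aux.sol k fun w => P w * g w, F2aux.sol_smooth hG hs r, ?_, ?_⟩
  · intro z hz
    rw [mem_ball_zero_iff] at hz
    rw [F2aux.sol_self hG hs]
    have h5 : P z = 1 := by
      refine Finset.prod_eq_one fun i _ => hc1 _ ?_
      exact (norm_le_pi_norm z i).trans (hz.le.trans h1.le)
    rw [h5, one_mul]
  · intro j hjk hgj z hz
    rw [mem_ball_zero_iff] at hz
    rw [F2aux.sol_wb hG hs]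
    have key : ∀ ζ : ℂ, wb j (fun w => P w * g w) (z - ζ • Pi.single k (1 : ℂ)) = 0 := by
      intro ζ
      obtain ⟨w, hw⟩ : ∃ w : E n, w = z - ζ • Pi.single k (1 : ℂ) := ⟨_, rfl⟩
      rw [← hw]
      have hwi : ∀ i, i ≠ k → ‖w i‖ < r₁ := by
        intro i hi
        have h5 : w i = z i := by
          rw [hw]
          simp [Pi.single_eq_of_ne hi]
        rw [h5]
        exact (norm_le_pi_norm z i).trans_lt (hz.trans h1)
      by_cases hwR : ‖w‖ < R
      · have h5 : (fun w => P w * g w) =ᶠ[𝓝 w] fun y => c (y k) * g y := by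
          have h6 : ∀ᶠ y in 𝓝 w, ∀ i, i ≠ k → ‖y i‖ < r₁ := by
            rw [eventually_all]
            intro i
            by_cases hi : i = k
            · exact Filter.Eventually.of_forall fun y h7 => absurd hi h7
            · have h7 : ∀ᶠ y in 𝓝 w, ‖y i‖ < r₁ :=
                ((continuous_apply i).norm).continuousAt.eventually_lt_const (hwi i hi)
              exact h7.mono fun y hy _ => hy
          refine h6.mono fun y hy => ?_
          have h7 : P y = c (y k) := by
            refine Finset.prod_eq_single k (fun i _ hi => hc1 _ (hy i hi).le) fun h8 => ?_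
            exact absurd (Finset.mem_univ k) h8
          change P y * g y = c (y k) * g y
          rw [h7]
        have h8 : HasFDerivAt (fun y : E n => c (y k)) ((fderiv ℝ c (w k)).comp
            (ContinuousLinearMap.proj k : E n →L[ℝ] ℂ)) w :=
          (((hcs.differentiable (by simp)) (w k)).hasFDerivAt).comp w
            (ContinuousLinearMap.proj k : E n →L[ℝ] ℂ).hasFDerivAt
        have hgd : DifferentiableAt ℝ g w := by
          refine (hg.contDiffAt (isOpen_ball.mem_nhds ?_)).differentiableAt (by simp)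
          rw [mem_ball_zero_iff]
          exact hwR
        have h9 := h8.mul hgd.hasFDerivAt
        have h10 : fderiv ℝ (fun w => P w * g w) w = c (w k) • fderiv ℝ g w + g w •
            ((fderiv ℝ c (w k)).comp (ContinuousLinearMap.proj k : E n →L[ℝ] ℂ)) := by
          rw [h5.fderiv_eq]
          exact h9.fderiv
        have h11 := hgj w (by rw [mem_ball_zero_iff]; exact hwR)
        unfold wb at h11 ⊢
        rw [h10]
        have h12 : (ContinuousLinearMap.proj k : E n →L[ℝ] ℂ) (Pi.single j 1) = 0 := by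
          change (Pi.single j (1 : ℂ) : E n) k = 0
          exact Pi.single_eq_of_ne hjk.symm 1
        have h13 : (ContinuousLinearMap.proj k : E n →L[ℝ] ℂ)
            (Complex.I • Pi.single j 1) = 0 := by
          change Complex.I * (Pi.single j (1 : ℂ) : E n) k = 0
          rw [Pi.single_eq_of_ne hjk.symm 1, mul_zero]
        simp only [add_apply, smul_apply, smul_eq_mul, ContinuousLinearMap.comp_apply, h12, h13,
          map_zero, mul_zero, add_zero]
        linear_combination (c (w k)) * h11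
      · have h5 : R₂ < ‖w‖ := h4.trans_le (not_lt.1 hwR)
        unfold wb
        rw [F2aux.fderiv_zero_off hs h5]
        simp
    simp only [key, mul_zero, integral_zero]

end Pool.Agent.DMA
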