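import Pool.Agent.Lib.DMA.F2

/-! # DMA, row F3: the d-bar Poincare lemma for (0,1)-forms -/

set_option autoImplicit false

open scoped Manifold ContDiff Topology ComplexOrder
open Set Filter MeasureTheory Metric

noncomputable section

namespace Pool.Agent.DMA

open Pool.Agent.K708 (E CMfd)

variable {n : ℕ}

namespace F3aux

variable {f g : E n → ℂ} {z : E n}

theorem wb_congr (h : f =ᶠ[𝓝 z] g) (j : Fin n) : wb j f z = wb j g z := by
  unfold wb
  rw [h.fderiv_eq]

theorem wb_congr' (h : f =ᶠ[𝓝 z] g) (j : Fin n) : wb j f =ᶠ[𝓝 z] wb j g := by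
  refine (h.fderiv (𝕜 := ℝ)).mono fun y hy => ?_
  unfold wb
  rw [hy]

theorem exists_glob {Ω : Set (E n)} (hΩ : IsOpen Ω) (hf : ContDiffOn ℝ ∞ f Ω) (hz : z ∈ Ω) :
    ∃ G : E n → ℂ, ContDiff ℝ ∞ G ∧ f =ᶠ[𝓝 z] G := by
  obtain ⟨ε, hε, hεΩ⟩ := Metric.isOpen_iff.1 hΩ z hz
  let φ : ContDiffBump z := ⟨ε / 4, ε / 2, by positivity, by linarith⟩
  refine ⟨fun w => ((φ w : ℝ) : ℂ) * f w, ?_, ?_⟩
  · rw [contDiff_iff_contDiffAt]
    intro w
    by_cases hw : w ∈ Ω
    · exact (Complex.ofRealCLM.contDiff.comp φ.contDiff).contDiffAt.mul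
        (hf.contDiffAt (hΩ.mem_nhds hw))
    · have h1 : w ∉ closedBall z (ε / 2) := fun h2 =>
        hw (hεΩ (closedBall_subset_ball (by linarith) h2))
      have h2 : (fun w => ((φ w : ℝ) : ℂ) * f w) =ᶠ[𝓝 w] fun _ => 0 := by
        refine (isClosed_closedBall.isOpen_compl.mem_nhds h1 : _ ∈ 𝓝 w) |> fun h3 => ?_
        refine Filter.mem_of_superset h3 fun y hy => ?_
        have h4 : ε / 2 ≤ dist y z := by
          by_contra h5
          push Not at h5
          exact hy h5.le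
        have h6 : φ y = 0 := φ.zero_of_le_dist h4
        change ((φ y : ℝ) : ℂ) * f y = 0
        rw [h6, Complex.ofReal_zero, zero_mul]
      exact contDiffAt_const.congr_of_eventuallyEq h2
  · refine Filter.mem_of_superset (ball_mem_nhds z (show (0 : ℝ) < ε / 4 by positivity))
      fun y hy => ?_
    have h6 : φ y = 1 := φ.one_of_mem_closedBall (ball_subset_closedBall hy)
    change f y = ((φ y : ℝ) : ℂ) * f y
    rw [h6, Complex.ofReal_one, one_mul]

theorem wb_contDiffOn {Ω : Set (E n)} (hΩ : IsOpen Ω) (hf : ContDiffOn ℝ ∞ f Ω) (j : Fin n) :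
    ContDiffOn ℝ ∞ (wb j f) Ω := by
  intro z hz
  obtain ⟨G, hG, h⟩ := exists_glob hΩ hf hz
  exact ((wb_smooth hG j).contDiffAt.congr_of_eventuallyEq (wb_congr' h j)).contDiffWithinAt

theorem wb_comm_on {Ω : Set (E n)} (hΩ : IsOpen Ω) (hf : ContDiffOn ℝ ∞ f Ω) (hz : z ∈ Ω)
    (i j : Fin n) : wb i (wb j f) z = wb j (wb i f) z := by
  obtain ⟨G, hG, h⟩ := exists_glob hΩ hf hz
  rw [wb_congr (wb_congr' h j) i, wb_congr (wb_congr' h i) j, wb_comm hG]

theorem wb_add (hf : DifferentiableAt ℝ f z) (hg : DifferentiableAt ℝ g z) (j : Fin n) :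
    wb j (fun w => f w + g w) z = wb j f z + wb j g z := by
  unfold wb
  rw [fderiv_fun_add hf hg]
  simp only [add_apply]
  ring

theorem wb_sub (hf : DifferentiableAt ℝ f z) (hg : DifferentiableAt ℝ g z) (j : Fin n) :
    wb j (fun w => f w - g w) z = wb j f z - wb j g z := by
  unfold wb
  rw [fderiv_fun_sub hf hg]
  simp only [sub_apply]
  ring

theorem wb_zero (j : Fin n) : wb j (fun _ => (0 : ℂ)) z = 0 := by
  unfold wb
  simp

theorem main (m : ℕ) : ∀ {R r : ℝ}, 0 < r → r < R → ∀ {g : Fin n → E n → ℂ},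
    (∀ j, ContDiffOn ℝ ∞ (g j) (ball 0 R)) →
    (∀ j k, ∀ z ∈ ball (0 : E n) R, wb j (g k) z = wb k (g j) z) →
    (∀ j : Fin n, m ≤ j → ∀ z ∈ ball (0 : E n) R, g j z = 0) →
    ∃ u : E n → ℂ, ContDiffOn ℝ ∞ u (ball 0 r) ∧
      ∀ j, ∀ z ∈ ball (0 : E n) r, wb j u z = g j z := by
  induction m with
  | zero =>
    intro R r hr hrR g _ _ h0
    refine ⟨fun _ => 0, contDiffOn_const, fun j z hz => ?_⟩
    rw [wb_zero, h0 j (Nat.zero_le _) z (ball_subset_ball hrR.le hz)]
  | succ m ih =>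
    intro R r hr hrR g hg hc h0
    by_cases hm : m < n
    · obtain ⟨r', h1, h2⟩ := exists_between hrR
      have hr' : 0 < r' := hr.trans h1
      obtain ⟨u₁, hu₁, hu₁k, hu₁j⟩ := db_solve (⟨m, hm⟩ : Fin n) hr' h2 (hg ⟨m, hm⟩)
      have hsub : ball (0 : E n) r' ⊆ ball 0 R := ball_subset_ball h2.le
      have hg' : ∀ j, ContDiffOn ℝ ∞ (fun w => g j w - wb j u₁ w) (ball 0 r') := fun j =>
        ((hg j).mono hsub).sub (wb_contDiffOn isOpen_ball hu₁ j)
      have hdg : ∀ j, ∀ z ∈ ball (0 : E n) r', DifferentiableAt ℝ (g j) z := fun j z hz =>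
        (((hg j).mono hsub).contDiffAt (isOpen_ball.mem_nhds hz)).differentiableAt (by simp)
      have hdw : ∀ j, ∀ z ∈ ball (0 : E n) r', DifferentiableAt ℝ (wb j u₁) z := fun j z hz =>
        ((wb_contDiffOn isOpen_ball hu₁ j).contDiffAt (isOpen_ball.mem_nhds hz)).differentiableAt
          (by simp)
      obtain ⟨u₂, hu₂, hu₂j⟩ := ih hr h1 hg' (by
        intro j k z hz
        rw [wb_sub (hdg k z hz) (hdw k z hz), wb_sub (hdg j z hz) (hdw j z hz),
          hc j k z (hsub hz), wb_comm_on isOpen_ball hu₁ hz]) (by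
        intro j hj z hz
        by_cases hjm : j = ⟨m, hm⟩
        · rw [hjm, hu₁k z hz, sub_self]
        · have hj' : m + 1 ≤ (j : ℕ) := by
            have h3 : (j : ℕ) ≠ m := fun h4 => hjm (Fin.ext h4)
            omega
          rw [h0 j hj' z (hsub hz), hu₁j j hjm ?_ z hz, sub_self]
          intro y hy
          rw [hc j ⟨m, hm⟩ y hy]
          have h5 : g j =ᶠ[𝓝 y] fun _ => 0 :=
            Filter.mem_of_superset (isOpen_ball.mem_nhds hy) fun x hx => h0 j hj' x hx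
          rw [wb_congr h5, wb_zero])
      have hsub' : ball (0 : E n) r ⊆ ball 0 r' := ball_subset_ball h1.le
      refine ⟨fun w => u₁ w + u₂ w, (hu₁.mono hsub').add hu₂, fun j z hz => ?_⟩
      have hd₁ : DifferentiableAt ℝ u₁ z :=
        ((hu₁.mono hsub').contDiffAt (isOpen_ball.mem_nhds hz)).differentiableAt (by simp)
      have hd₂ : DifferentiableAt ℝ u₂ z :=
        (hu₂.contDiffAt (isOpen_ball.mem_nhds hz)).differentiableAt (by simp)
      rw [wb_add hd₁ hd₂, hu₂j j z hz]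
      ring
    · exact ih hr hrR hg hc fun j hj => absurd j.2 (by omega)

end F3aux

/-- Induction on `m`: forms with `g j = 0` for `m ≤ j`.  Step: `g_{m}` is holomorphic in the
variables `j > m`; solve `∂u/∂bar z_m = g_m` by `db_solve` on an intermediate polydisc, subtract
`∂bar u`. -/
theorem dbar_poincare {R r : ℝ} (hr : 0 < r) (hrR : r < R) {g : Fin n → E n → ℂ}
    (hg : ∀ j, ContDiffOn ℝ ∞ (g j) (ball 0 R))
    (hc : ∀ j k, ∀ z ∈ ball (0 : E n) R, wb j (g k) z = wb k (g j) z) :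
    ∃ u : E n → ℂ, ContDiffOn ℝ ∞ u (ball 0 r) ∧ ∀ j, ∀ z ∈ ball (0 : E n) r, wb j u z = g j z := by
  exact F3aux.main n hr hrR hg hc fun j hj => absurd j.2 (not_lt.2 hj)

end Pool.Agent.DMA
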