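import Pool.Agent.Lib.K708.Base

/-! # DMA, row F4: the Poincare lemma for 2-forms -/

set_option autoImplicit false

open scoped Manifold ContDiff Topology ComplexOrder Interval
open Set Filter MeasureTheory Metric

noncomputable section

namespace Pool.Agent.DMA

open Pool.Agent.K708 (E CMfd)

variable {n : ℕ}

private theorem F4_slice {F : Type*} [NormedAddCommGroup F] [NormedSpace ℝ F]
    {U : Set (E n)} (hU : IsOpen U) {G : E n → ℝ → F}
    (hG : ContDiffOn ℝ ∞ (fun p : E n × ℝ => G p.1 p.2) (U ×ˢ Ioo (-1 : ℝ) 2)) {z : E n}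
    (hz : z ∈ U) {t : ℝ} (ht : t ∈ Icc (0 : ℝ) 1) :
    HasFDerivAt (fun x => G x t) ((fderiv ℝ (fun p : E n × ℝ => G p.1 p.2) (z, t)).comp
        (ContinuousLinearMap.inl ℝ (E n) ℝ)) z := by
  have hmem : (z, t) ∈ U ×ˢ Ioo (-1 : ℝ) 2 := ⟨hz, by constructor <;> linarith [ht.1, ht.2]⟩
  have h1 : HasFDerivAt (fun p : E n × ℝ => G p.1 p.2)
      (fderiv ℝ (fun p : E n × ℝ => G p.1 p.2) (z, t)) (z, t) :=
    ((hG.contDiffAt ((hU.prod isOpen_Ioo).mem_nhds hmem)).differentiableAt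
      (by simp)).hasFDerivAt
  exact HasFDerivAt.comp (𝕜 := ℝ) (g := fun p : E n × ℝ => G p.1 p.2)
    (f := fun x : E n => (x, t)) z h1 (hasFDerivAt_prodMk_left z t)

private theorem F4_cont {F : Type*} [NormedAddCommGroup F] [NormedSpace ℝ F]
    {U : Set (E n)} (hU : IsOpen U) {G : E n → ℝ → F}
    (hG : ContDiffOn ℝ ∞ (fun p : E n × ℝ => G p.1 p.2) (U ×ˢ Ioo (-1 : ℝ) 2)) :
    ContinuousOn (fun p : E n × ℝ => (fderiv ℝ (fun p : E n × ℝ => G p.1 p.2) p).comp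
        (ContinuousLinearMap.inl ℝ (E n) ℝ)) (U ×ˢ Ioo (-1 : ℝ) 2) := by
  have h1 : ContDiffOn ℝ 0 (fderiv ℝ (fun p : E n × ℝ => G p.1 p.2)) (U ×ˢ Ioo (-1 : ℝ) 2) :=
    hG.fderiv_of_isOpen (hU.prod isOpen_Ioo) (by norm_num)
  exact h1.continuousOn.clm_comp continuousOn_const

private theorem F4_contSlice {F : Type*} [NormedAddCommGroup F] [NormedSpace ℝ F]
    {U : Set (E n)} (hU : IsOpen U) {G : E n → ℝ → F}
    (hG : ContDiffOn ℝ ∞ (fun p : E n × ℝ => G p.1 p.2) (U ×ˢ Ioo (-1 : ℝ) 2)) {z : E n}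
    (hz : z ∈ U) :
    ContinuousOn (fun t : ℝ => (fderiv ℝ (fun p : E n × ℝ => G p.1 p.2) (z, t)).comp
        (ContinuousLinearMap.inl ℝ (E n) ℝ)) (Icc (0 : ℝ) 1) := by
  have h1 : ContinuousOn (fun t : ℝ => (z, t)) (Icc (0 : ℝ) 1) := by fun_prop
  exact (F4_cont hU hG).comp h1 (fun t ht => ⟨hz, by constructor <;> linarith [ht.1, ht.2]⟩)

/-- Differentiation of a parametric integral, smooth case. -/
private theorem F4_hasFDerivAt {F : Type*} [NormedAddCommGroup F] [NormedSpace ℝ F]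
    [CompleteSpace F] {U : Set (E n)} (hU : IsOpen U) {G : E n → ℝ → F}
    (hG : ContDiffOn ℝ ∞ (fun p : E n × ℝ => G p.1 p.2) (U ×ˢ Ioo (-1 : ℝ) 2)) {z : E n}
    (hz : z ∈ U) :
    HasFDerivAt (fun z => ∫ t in (0 : ℝ)..1, G z t)
      (∫ t in (0 : ℝ)..1, (fderiv ℝ (fun p : E n × ℝ => G p.1 p.2) (z, t)).comp
        (ContinuousLinearMap.inl ℝ (E n) ℝ)) z := by
  set W : Set (E n × ℝ) := U ×ˢ Ioo (-1 : ℝ) 2 with hW
  set G' : E n × ℝ → (E n →L[ℝ] F) := fun p =>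
    (fderiv ℝ (fun p : E n × ℝ => G p.1 p.2) p).comp (ContinuousLinearMap.inl ℝ (E n) ℝ) with hG'
  have hG's : ContinuousOn G' W := F4_cont hU hG
  obtain ⟨ε, hε, hball⟩ := Metric.isOpen_iff.1 hU z hz
  have hcb : closedBall z (ε / 2) ⊆ U := (closedBall_subset_ball (by linarith)).trans hball
  have hK : IsCompact (closedBall z (ε / 2) ×ˢ Icc (0 : ℝ) 1) :=
    (isCompact_closedBall z _).prod isCompact_Icc
  have hKW : closedBall z (ε / 2) ×ˢ Icc (0 : ℝ) 1 ⊆ W := by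
    rintro ⟨a, t⟩ ⟨ha, ht⟩
    exact ⟨hcb ha, by constructor <;> linarith [ht.1, ht.2]⟩
  obtain ⟨C, hC⟩ := hK.exists_bound_of_continuousOn (hG's.mono hKW)
  have hcont : ∀ x ∈ U, ContinuousOn (G x) (Icc (0 : ℝ) 1) := by
    intro x hx
    have h1 : ContinuousOn (fun t : ℝ => (x, t)) (Icc (0 : ℝ) 1) := by fun_prop
    exact hG.continuousOn.comp h1 (fun t ht => ⟨hx, by constructor <;> linarith [ht.1, ht.2]⟩)
  have hsub : Ι (0 : ℝ) 1 ⊆ Icc 0 1 := by
    rw [uIoc_of_le zero_le_one]; exact Ioc_subset_Icc_self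
  refine intervalIntegral.hasFDerivAt_integral_of_dominated_of_fderiv_le (s := ball z (ε / 2))
    (F := G) (F' := fun x t => G' (x, t)) (bound := fun _ => C) (ball_mem_nhds z (by linarith))
    ?_ ?_ ?_ ?_ ?_ ?_
  · filter_upwards [hU.mem_nhds hz] with x hx
    exact ((hcont x hx).mono hsub).aestronglyMeasurable measurableSet_uIoc
  · refine ContinuousOn.intervalIntegrable ?_
    rw [uIcc_of_le zero_le_one]
    exact hcont z hz
  · exact ((F4_contSlice hU hG hz).mono hsub).aestronglyMeasurable measurableSet_uIoc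
  · refine Eventually.of_forall fun t ht x hx => ?_
    exact hC (x, t) ⟨ball_subset_closedBall hx, hsub ht⟩
  · exact intervalIntegrable_const
  · refine Eventually.of_forall fun t ht x hx => ?_
    exact F4_slice hU hG (hcb (ball_subset_closedBall hx)) (hsub ht)

private theorem F4_apply {F : Type*} [NormedAddCommGroup F] [NormedSpace ℝ F]
    [CompleteSpace F] {U : Set (E n)} (hU : IsOpen U) {G : E n → ℝ → F}
    (hG : ContDiffOn ℝ ∞ (fun p : E n × ℝ => G p.1 p.2) (U ×ˢ Ioo (-1 : ℝ) 2)) {z : E n}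
    (hz : z ∈ U) (u : E n) :
    fderiv ℝ (fun z => ∫ t in (0 : ℝ)..1, G z t) z u =
      ∫ t in (0 : ℝ)..1, (fderiv ℝ (fun p : E n × ℝ => G p.1 p.2) (z, t)).comp
        (ContinuousLinearMap.inl ℝ (E n) ℝ) u := by
  rw [(F4_hasFDerivAt hU hG hz).fderiv]
  have hI : IntervalIntegrable (fun t : ℝ => (fderiv ℝ (fun p : E n × ℝ => G p.1 p.2) (z, t)).comp
        (ContinuousLinearMap.inl ℝ (E n) ℝ)) volume 0 1 := by
    refine ContinuousOn.intervalIntegrable ?_
    rw [uIcc_of_le zero_le_one]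
    exact F4_contSlice hU hG hz
  exact ((ContinuousLinearMap.apply ℝ F u).intervalIntegral_comp_comm hI).symm

private theorem F4_contDiffOn_nat (m : ℕ) {F : Type*} [NormedAddCommGroup F] [NormedSpace ℝ F]
    [CompleteSpace F] {U : Set (E n)} (hU : IsOpen U) {G : E n → ℝ → F}
    (hG : ContDiffOn ℝ ∞ (fun p : E n × ℝ => G p.1 p.2) (U ×ˢ Ioo (-1 : ℝ) 2)) :
    ContDiffOn ℝ m (fun z => ∫ t in (0 : ℝ)..1, G z t) U := by
  induction m generalizing F with
  | zero =>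
    rw [Nat.cast_zero, contDiffOn_zero]
    intro z hz
    exact (F4_hasFDerivAt hU hG hz).continuousAt.continuousWithinAt
  | succ m ih =>
    rw [Nat.cast_succ, contDiffOn_succ_iff_fderiv_of_isOpen hU]
    refine ⟨fun z hz => (F4_hasFDerivAt hU hG hz).differentiableAt.differentiableWithinAt,
      by simp, ?_⟩
    have h1 : ContDiffOn ℝ ∞ (fun p : E n × ℝ =>
        (fderiv ℝ (fun p : E n × ℝ => G p.1 p.2) (p.1, p.2)).comp
          (ContinuousLinearMap.inl ℝ (E n) ℝ)) (U ×ˢ Ioo (-1 : ℝ) 2) := by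
      have h2 : ContDiffOn ℝ ∞ (fderiv ℝ (fun p : E n × ℝ => G p.1 p.2))
          (U ×ˢ Ioo (-1 : ℝ) 2) :=
        hG.fderiv_of_isOpen (hU.prod isOpen_Ioo) (by simp)
      exact h2.clm_comp contDiffOn_const
    refine (ih (G := fun z t => (fderiv ℝ (fun p : E n × ℝ => G p.1 p.2) (z, t)).comp
          (ContinuousLinearMap.inl ℝ (E n) ℝ)) h1).congr ?_
    intro z hz
    exact (F4_hasFDerivAt hU hG hz).fderiv

/-- Parametric integrals over `[0, 1]` are smooth.  (Either induction on the order with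
`hasFDerivAt_integral_of_dominated_of_fderiv_le`, or `contDiffOn_convolution_right_with_param` on
the group `ℝ` with `f = indicator [0,1]`.) -/
theorem contDiffOn_param {F : Type*} [NormedAddCommGroup F] [NormedSpace ℝ F] [CompleteSpace F]
    {U : Set (E n)} (hU : IsOpen U) {G : E n → ℝ → F}
    (hG : ContDiffOn ℝ ∞ (fun p : E n × ℝ => G p.1 p.2) (U ×ˢ Ioo (-1 : ℝ) 2)) :
    ContDiffOn ℝ ∞ (fun z => ∫ t in (0 : ℝ)..1, G z t) U :=
  contDiffOn_infty.2 fun m => F4_contDiffOn_nat m hU hG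

private theorem F4_eval {F : Type*} [NormedAddCommGroup F] [NormedSpace ℝ F]
    {B : E n → (E n →L[ℝ] F)} {D : E n →L[ℝ] (E n →L[ℝ] F)} {z : E n} (hd : HasFDerivAt B D z)
    (a : E n) : HasFDerivAt (fun x => B x a) (D.flip a) z :=
  (ContinuousLinearMap.apply ℝ F a).hasFDerivAt.comp z hd

private theorem F4_line {F : Type*} [NormedAddCommGroup F] [NormedSpace ℝ F]
    {B : E n → F} {D : E n →L[ℝ] F} {t : ℝ} {γ : ℝ → E n} {γ' : E n}
    (hd : HasFDerivAt B D (γ t)) (hγ : HasDerivAt γ γ' t) :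
    HasDerivAt (fun s => B (γ s)) (D γ') t :=
  HasFDerivAt.comp_hasDerivAt t hd hγ

private theorem F4_integrand {F : Type*} [NormedAddCommGroup F] [NormedSpace ℝ F]
    {B : E n → (E n →L[ℝ] F)} {z : E n} {c ψ : ℝ}
    (hd : HasFDerivAt B (fderiv ℝ B (ψ • z)) (ψ • z)) {L : E n →L[ℝ] F}
    (hL : HasFDerivAt (fun x => c • (B (ψ • x) x)) L z) (u : E n) :
    L u = c • (ψ • (fderiv ℝ B (ψ • z) u z) + B (ψ • z) u) := by
  have h3 : HasFDerivAt (fun x : E n => B (ψ • x))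
      ((fderiv ℝ B (ψ • z)).comp (ψ • ContinuousLinearMap.id ℝ (E n))) z :=
    HasFDerivAt.comp (𝕜 := ℝ) (g := B) (f := fun x : E n => ψ • x) z hd
      ((hasFDerivAt_id z).const_smul ψ)
  have h4 := (h3.clm_apply (hasFDerivAt_id z)).const_smul c
  rw [hL.unique h4]
  simp [add_comm]

private theorem F4_fderiv_alt {R : ℝ} {B : E n → (E n →L[ℝ] E n →L[ℝ] ℂ)}
    (hB : ContDiffOn ℝ ∞ B (ball 0 R)) (halt : ∀ z ∈ ball (0 : E n) R, ∀ u v, B z u v = -B z v u)
    {z : E n} (hz : z ∈ ball (0 : E n) R) (u v w : E n) :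
    fderiv ℝ B z w u v = -fderiv ℝ B z w v u := by
  have hd : HasFDerivAt B (fderiv ℝ B z) z :=
    ((hB.contDiffAt (isOpen_ball.mem_nhds hz)).differentiableAt (by simp)).hasFDerivAt
  have h1 := F4_eval (F4_eval hd u) v
  have h2 := (F4_eval (F4_eval hd v) u).neg
  have h3 : (fun x => B x u v) =ᶠ[𝓝 z] (fun x => -B x v u) := by
    filter_upwards [isOpen_ball.mem_nhds hz] with x hx using halt x hx u v
  have h4 := h1.unique (h2.congr_of_eventuallyEq h3)
  have h5 := congrArg (fun L : E n →L[ℝ] ℂ => L w) h4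
  simpa using h5

/-- Poincare lemma for 2-forms on balls centered at `0`:
`β z v = ∫_0^1 t • B (t z) z v dt` (with the substitution `t = sin (π s / 2) ^ 2`). -/
theorem poincare_two {R : ℝ} {B : E n → (E n →L[ℝ] E n →L[ℝ] ℂ)}
    (hB : ContDiffOn ℝ ∞ B (ball 0 R)) (halt : ∀ z ∈ ball (0 : E n) R, ∀ u v, B z u v = -B z v u)
    (hcl : ∀ z ∈ ball (0 : E n) R, ∀ u v w : E n,
      fderiv ℝ B z u v w + fderiv ℝ B z v w u + fderiv ℝ B z w u v = 0) :
    ∃ β : E n → (E n →L[ℝ] ℂ), ContDiffOn ℝ ∞ β (ball 0 R) ∧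
      ∀ z ∈ ball (0 : E n) R, Pool.Agent.K708.dE1 β z = B z := by
  set ψ : ℝ → ℝ := fun s => Real.sin (Real.pi / 2 * s) ^ 2 with hψ
  set ψ' : ℝ → ℝ := fun s => 2 * Real.sin (Real.pi / 2 * s) *
    (Real.cos (Real.pi / 2 * s) * (Real.pi / 2)) with hψ'
  have hψd : ∀ s, HasDerivAt ψ (ψ' s) s := by
    intro s
    have h1 : HasDerivAt (fun s : ℝ => Real.pi / 2 * s) (Real.pi / 2) s := by
      simpa using (hasDerivAt_id s).const_mul (Real.pi / 2)
    have h2 := (h1.sin).pow 2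
    refine h2.congr_deriv ?_
    simp only [hψ']
    norm_num
  have hψs : ContDiff ℝ ∞ ψ := by
    simp only [hψ]; fun_prop
  have hψ's : ContDiff ℝ ∞ ψ' := by
    simp only [hψ']; fun_prop
  have hψ0 : ψ 0 = 0 := by simp [hψ]
  have hψ1 : ψ 1 = 1 := by simp [hψ]
  have hψr : ∀ s, 0 ≤ ψ s ∧ ψ s ≤ 1 := fun s => ⟨sq_nonneg _, Real.sin_sq_le_one _⟩
  clear_value ψ ψ'
  have hmem : ∀ z ∈ ball (0 : E n) R, ∀ s, ψ s • z ∈ ball (0 : E n) R := by
    intro z hz s
    rw [mem_ball_zero_iff] at hz ⊢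
    rw [norm_smul, Real.norm_eq_abs, abs_of_nonneg (hψr s).1]
    exact (mul_le_of_le_one_left (norm_nonneg _) (hψr s).2).trans_lt hz
  have hBd : ∀ z ∈ ball (0 : E n) R, HasFDerivAt B (fderiv ℝ B z) z := fun z hz =>
    ((hB.contDiffAt (isOpen_ball.mem_nhds hz)).differentiableAt (by simp)).hasFDerivAt
  set G : E n → ℝ → (E n →L[ℝ] ℂ) := fun z s => (ψ' s * ψ s) • (B (ψ s • z) z) with hG
  have hGs : ContDiffOn ℝ ∞ (fun p : E n × ℝ => G p.1 p.2)
      (ball (0 : E n) R ×ˢ Ioo (-1 : ℝ) 2) := by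
    have a1 : ContDiff ℝ ∞ (fun p : E n × ℝ => ψ p.2) := hψs.comp contDiff_snd
    have a2 : ContDiff ℝ ∞ (fun p : E n × ℝ => ψ' p.2) := hψ's.comp contDiff_snd
    have a3 : ContDiff ℝ ∞ (fun p : E n × ℝ => ψ p.2 • p.1) := a1.smul contDiff_fst
    have a4 : ContDiffOn ℝ ∞ (fun p : E n × ℝ => B (ψ p.2 • p.1))
        (ball (0 : E n) R ×ˢ Ioo (-1 : ℝ) 2) :=
      hB.comp a3.contDiffOn (fun p hp => hmem p.1 hp.1 p.2)
    exact (a2.mul a1).contDiffOn.smul (a4.clm_apply contDiff_fst.contDiffOn)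
  refine ⟨fun z => ∫ t in (0 : ℝ)..1, G z t, contDiffOn_param isOpen_ball hGs, ?_⟩
  intro z hz
  -- derivative of the integrand
  set L : E n → ℝ → (E n →L[ℝ] ℂ) := fun u t =>
    (fderiv ℝ (fun p : E n × ℝ => G p.1 p.2) (z, t)).comp (ContinuousLinearMap.inl ℝ (E n) ℝ) u
    with hL
  have hLv : ∀ t ∈ Icc (0 : ℝ) 1, ∀ u : E n, L u t =
      (ψ' t * ψ t) • (ψ t • (fderiv ℝ B (ψ t • z) u z) + B (ψ t • z) u) := by
    intro t ht u
    exact F4_integrand (hBd _ (hmem z hz t)) (F4_slice isOpen_ball hGs hz ht) u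
  have hLc : ∀ u, ContinuousOn (L u) (Icc (0 : ℝ) 1) := by
    intro u
    exact (F4_contSlice isOpen_ball hGs hz).clm_apply continuousOn_const
  have hLi : ∀ u, IntervalIntegrable (L u) volume 0 1 := by
    intro u
    refine ContinuousOn.intervalIntegrable ?_
    rw [uIcc_of_le zero_le_one]
    exact hLc u
  have hLi2 : ∀ u v : E n, IntervalIntegrable (fun t => L u t v) volume 0 1 := by
    intro u v
    refine ContinuousOn.intervalIntegrable ?_
    rw [uIcc_of_le zero_le_one]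
    exact (hLc u).clm_apply continuousOn_const
  have hint : ∀ u v : E n, (∫ t in (0 : ℝ)..1, L u t) v = ∫ t in (0 : ℝ)..1, L u t v := by
    intro u v
    exact ((ContinuousLinearMap.apply ℝ ℂ v).intervalIntegral_comp_comm (hLi u)).symm
  ext u v
  have hfin : Pool.Agent.K708.dE1 (fun z => ∫ t in (0 : ℝ)..1, G z t) z u v =
      (∫ t in (0 : ℝ)..1, L u t) v - (∫ t in (0 : ℝ)..1, L v t) u := by
    have e1 := F4_apply isOpen_ball hGs hz u
    have e2 := F4_apply isOpen_ball hGs hz v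
    have e3 : Pool.Agent.K708.dE1 (fun z => ∫ t in (0 : ℝ)..1, G z t) z u v =
        fderiv ℝ (fun z => ∫ t in (0 : ℝ)..1, G z t) z u v -
          fderiv ℝ (fun z => ∫ t in (0 : ℝ)..1, G z t) z v u := by
      simp [Pool.Agent.K708.dE1]
    rw [e3, e1, e2]
  rw [hfin, hint, hint, ← intervalIntegral.integral_sub (hLi2 u v) (hLi2 v u)]
  have hD : ∀ t ∈ uIcc (0 : ℝ) 1, HasDerivAt (fun s => (ψ s) ^ 2 • B (ψ s • z) u v)
      (L u t v - L v t u) t := by
    intro t ht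
    rw [uIcc_of_le zero_le_one] at ht
    rw [hLv t ht, hLv t ht]
    have hm := hmem z hz t
    have c1 : HasDerivAt (fun s => ψ s • z) (ψ' t • z) t := (hψd t).smul_const z
    have c3 : HasDerivAt (fun s => B (ψ s • z) u v)
        (((fderiv ℝ B (ψ t • z)).flip u).flip v (ψ' t • z)) t :=
      F4_line (F4_eval (F4_eval (hBd _ hm) u) v) c1
    have c4 := ((hψd t).pow 2).smul c3
    refine c4.congr_deriv ?_
    have d1 := hcl _ hm u v z
    have d2 := F4_fderiv_alt hB halt hm v z u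
    have d3 := halt _ hm v u
    have d4 : fderiv ℝ B (ψ t • z) z u v =
        fderiv ℝ B (ψ t • z) u z v - fderiv ℝ B (ψ t • z) v z u := by
      linear_combination d1 - d2
    simp only [ContinuousLinearMap.flip_apply, map_smul,
      smul_apply, add_apply, Complex.real_smul]
    rw [d3, d4]
    simp only [Pi.pow_apply]
    push_cast
    ring
  have hftc := intervalIntegral.integral_eq_sub_of_hasDerivAt hD ((hLi2 u v).sub (hLi2 v u))
  rw [hftc, hψ0, hψ1]
  simp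

end Pool.Agent.DMA
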