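import Pool.Agent.Lib.DMA.F3
import Pool.Agent.Lib.DMA.F4
import Pool.Agent.Lib.DMA.CLin

/-! # DMA, row F5: local potentials of closed real (1,1)-forms -/

set_option autoImplicit false

open scoped Manifold ContDiff Topology ComplexOrder
open Set Filter MeasureTheory Metric

noncomputable section

namespace Pool.Agent.DMA

open Pool.Agent.K708 (E CMfd)

variable {n : ℕ}

/-- The Hermitian matrix of a real `(1,1)`-form `B`: if `B = i ∂∂bar ρ` it is
`∂_j ∂bar_k ρ`. -/
def gmE (B : E n →L[ℝ] E n →L[ℝ] ℂ) : Matrix (Fin n) (Fin n) ℂ := fun j k =>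
  (B (Pi.single j 1) (Complex.I • Pi.single k 1) - Complex.I * B (Pi.single j 1) (Pi.single k 1)) / 2

/-- derivative of a component of a form -/
theorem F5_comp {c : E n → (E n →L[ℝ] ℂ)} {z : E n} (hc : DifferentiableAt ℝ c z) (v w a : E n) :
    fderiv ℝ (fun y => (c y v + Complex.I * c y w) / 2) z a =
      (fderiv ℝ c z a v + Complex.I * fderiv ℝ c z a w) / 2 := by
  have h1 : ∀ v : E n, HasFDerivAt (fun y => c y v) ((fderiv ℝ c z).flip v) z := by
    intro v
    have h := hc.hasFDerivAt.clm_apply (hasFDerivAt_const v z)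
    simpa using h
  have h2 : HasFDerivAt (fun y => (c y v + Complex.I * c y w) / 2)
      (((2 : ℂ)⁻¹) • ((fderiv ℝ c z).flip v + Complex.I • (fderiv ℝ c z).flip w)) z := by
    have h3 := ((h1 v).add ((h1 w).const_mul Complex.I)).mul_const ((2 : ℂ)⁻¹)
    exact h3
  rw [h2.fderiv]
  simp only [smul_apply, add_apply, ContinuousLinearMap.flip_apply, smul_eq_mul]
  ring

/-- derivative of a form composed with a linear map of the values -/
theorem F5_post {F F' : Type} [NormedAddCommGroup F] [NormedSpace ℝ F] [NormedAddCommGroup F']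
    [NormedSpace ℝ F'] (L : F →L[ℝ] F') {c : E n → (E n →L[ℝ] F)} {z : E n}
    (hc : DifferentiableAt ℝ c z) (a b : E n) :
    fderiv ℝ (fun y => L.comp (c y)) z a b = L (fderiv ℝ c z a b) := by
  have h1 : HasFDerivAt (fun y => L.comp (c y))
      ((ContinuousLinearMap.compL ℝ (E n) F F' L).comp (fderiv ℝ c z)) z :=
    ((ContinuousLinearMap.compL ℝ (E n) F F' L).hasFDerivAt).comp z hc.hasFDerivAt
  rw [h1.fderiv]
  rfl

theorem F5_D2 {u : E n → ℂ} {z : E n} (hu : ContDiffAt ℝ 2 u z) (a b : E n) :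
    D2 (fun w => 2 * (u w).im) z a b = 2 * (fderiv ℝ (fderiv ℝ u) z a b).im := by
  have hd : ∀ᶠ w in 𝓝 z, DifferentiableAt ℝ u w :=
    (hu.eventually (by simp)).mono fun _ hw => hw.differentiableAt (by norm_num)
  have hdd : DifferentiableAt ℝ (fderiv ℝ u) z :=
    (hu.fderiv_right (m := 1) (by norm_num)).differentiableAt (by norm_num)
  have h1 : fderiv ℝ (fun w => 2 * (u w).im) =ᶠ[𝓝 z]
      fun w => ((2 : ℝ) • Complex.imCLM).comp (fderiv ℝ u w) := by
    filter_upwards [hd] with w hw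
    have h2 : HasFDerivAt (fun w => ((2 : ℝ) • Complex.imCLM) (u w))
        (((2 : ℝ) • Complex.imCLM).comp (fderiv ℝ u w)) w :=
      (((2 : ℝ) • Complex.imCLM).hasFDerivAt).comp w hw.hasFDerivAt
    exact h2.fderiv
  rw [D2, h1.fderiv_eq, F5_post _ hdd]
  rfl

theorem F5_dE1 {a : E n → (E n →L[ℝ] ℂ)} {z u v : E n} :
    Pool.Agent.K708.dE1 a z u v = fderiv ℝ a z u v - fderiv ℝ a z v u := rfl

/-- Local `∂∂bar`-lemma.  Proof: `B = dβ` with `β` real (take the real part of the `β` of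
`poincare_two`); write `β = ∑ (b_j dz_j + conj b_j dbar z_j)`; `B` of type (1,1) gives
`wb j (conj b_k) = wb k (conj b_j)`; `dbar_poincare`: `conj b_j = wb j g`; then `ρ` is a real
multiple of `Im g`. -/
theorem local_pot {R r : ℝ} (hr : 0 < r) (hrR : r < R) {B : E n → (E n →L[ℝ] E n →L[ℝ] ℂ)}
    (hB : ContDiffOn ℝ ∞ B (ball 0 R)) (halt : ∀ z ∈ ball (0 : E n) R, ∀ u v, B z u v = -B z v u)
    (hcl : ∀ z ∈ ball (0 : E n) R, ∀ u v w : E n,
      fderiv ℝ B z u v w + fderiv ℝ B z v w u + fderiv ℝ B z w u v = 0)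
    (hreal : ∀ z ∈ ball (0 : E n) R, ∀ u v, (B z u v).im = 0)
    (hinv : ∀ z ∈ ball (0 : E n) R, ∀ u v, B z (Complex.I • u) (Complex.I • v) = B z u v) :
    ∃ ρ : E n → ℝ, ContDiffOn ℝ ∞ ρ (ball 0 r) ∧
      ∀ z ∈ ball (0 : E n) r, CH ρ z = gmE (B z) := by
  obtain ⟨β₀, hβ₀s, hβ₀⟩ := poincare_two hB halt hcl
  -- the real part of the primitive
  let P : ℂ →L[ℝ] ℂ := Complex.ofRealCLM.comp Complex.reCLM
  have hP : ∀ c : ℂ, P c = ((c.re : ℝ) : ℂ) := fun c => rfl
  let β : E n → (E n →L[ℝ] ℂ) := fun w => P.comp (β₀ w)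
  have hβs : ContDiffOn ℝ ∞ β (ball 0 R) :=
    (ContinuousLinearMap.compL ℝ (E n) ℂ ℂ P).contDiff.comp_contDiffOn hβ₀s
  have hd0 : ∀ z ∈ ball (0 : E n) R, DifferentiableAt ℝ β₀ z := fun z hz =>
    ((hβ₀s.contDiffAt (isOpen_ball.mem_nhds hz)).differentiableAt (by simp))
  have hd : ∀ z ∈ ball (0 : E n) R, DifferentiableAt ℝ β z := fun z hz =>
    ((hβs.contDiffAt (isOpen_ball.mem_nhds hz)).differentiableAt (by simp))
  have hDβ : ∀ z ∈ ball (0 : E n) R, ∀ a b, fderiv ℝ β z a b =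
      (((fderiv ℝ β₀ z a b).re : ℝ) : ℂ) := fun z hz a b => F5_post P (hd0 z hz) a b
  have hβreal : ∀ z ∈ ball (0 : E n) R, ∀ a b, (fderiv ℝ β z a b).im = 0 := by
    intro z hz a b
    rw [hDβ z hz, Complex.ofReal_im]
  have hβB : ∀ z ∈ ball (0 : E n) R, ∀ a b, B z a b = fderiv ℝ β z a b - fderiv ℝ β z b a := by
    intro z hz a b
    have h1 : B z a b = fderiv ℝ β₀ z a b - fderiv ℝ β₀ z b a := by
      rw [← hβ₀ z hz]
      rfl
    rw [hDβ z hz, hDβ z hz, ← Complex.ofReal_sub, ← Complex.sub_re, ← h1]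
    apply Complex.ext
    · rw [Complex.ofReal_re]
    · rw [Complex.ofReal_im, hreal z hz]
  -- the (0,1) part
  let g : Fin n → E n → ℂ := fun j w =>
    (β w (Pi.single j 1) + Complex.I * β w (Complex.I • Pi.single j 1)) / 2
  have hgs : ∀ j, ContDiffOn ℝ ∞ (g j) (ball 0 R) := by
    intro j
    have h1 : ∀ v : E n, ContDiffOn ℝ ∞ (fun w => β w v) (ball 0 R) := fun v =>
      hβs.clm_apply contDiffOn_const
    exact ((h1 _).add (contDiffOn_const.mul (h1 _))).div_const 2
  have hDg : ∀ z ∈ ball (0 : E n) R, ∀ j a, fderiv ℝ (g j) z a =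
      (fderiv ℝ β z a (Pi.single j 1) +
        Complex.I * fderiv ℝ β z a (Complex.I • Pi.single j 1)) / 2 :=
    fun z hz j a => F5_comp (hd z hz) _ _ a
  have hII : ∀ v : E n, Complex.I • Complex.I • v = -v := fun v => by
    rw [smul_smul, Complex.I_mul_I, neg_one_smul]
  have hgc : ∀ j k, ∀ z ∈ ball (0 : E n) R, wb j (g k) z = wb k (g j) z := by
    intro j k z hz
    have e1 := hβB z hz (Pi.single j 1) (Pi.single k 1)
    have e2 := hβB z hz (Pi.single j 1) (Complex.I • Pi.single k 1)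
    have e3 := hβB z hz (Complex.I • Pi.single j 1) (Pi.single k 1)
    have e4 := hβB z hz (Complex.I • Pi.single j 1) (Complex.I • Pi.single k 1)
    have i1 := hinv z hz (Pi.single j 1) (Pi.single k 1)
    have i2 := hinv z hz (Complex.I • Pi.single j 1) (Pi.single k 1)
    rw [hII, map_neg, neg_apply] at i2
    simp only [wb]
    rw [hDg z hz, hDg z hz, hDg z hz, hDg z hz]
    linear_combination (1 / 4 : ℂ) * (-e1 + e4 + Complex.I * (-e2 - e3) - i1 - Complex.I * i2) +
      (1 / 4 : ℂ) * (fderiv ℝ β z (Complex.I • Pi.single j 1) (Complex.I • Pi.single k 1)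
        - fderiv ℝ β z (Complex.I • Pi.single k 1) (Complex.I • Pi.single j 1)) * Complex.I_sq
  obtain ⟨u, hus, hug⟩ := dbar_poincare hr hrR hgs hgc
  refine ⟨fun w => 2 * (u w).im, ?_, ?_⟩
  · exact contDiffOn_const.mul (Complex.imCLM.contDiff.comp_contDiffOn hus)
  intro z hz
  have hzR : z ∈ ball (0 : E n) R := ball_subset_ball hrR.le hz
  have hua : ContDiffAt ℝ ∞ u z := hus.contDiffAt (isOpen_ball.mem_nhds hz)
  have hu2 : ContDiffAt ℝ 2 u z := hua.of_le (WithTop.coe_le_coe.2 (le_top : (2 : ℕ∞) ≤ ⊤))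
  have hdd : DifferentiableAt ℝ (fderiv ℝ u) z :=
    (hu2.fderiv_right (m := 1) (by norm_num)).differentiableAt (by norm_num)
  have hsym : ∀ a b, fderiv ℝ (fderiv ℝ u) z a b = fderiv ℝ (fderiv ℝ u) z b a := fun a b =>
    (hu2.isSymmSndFDerivAt (by simp)).eq a b
  have hX : ∀ (a : E n) (k : Fin n), fderiv ℝ (fderiv ℝ u) z a (Pi.single k 1) +
      Complex.I * fderiv ℝ (fderiv ℝ u) z a (Complex.I • Pi.single k 1) =
      fderiv ℝ β z a (Pi.single k 1) +
        Complex.I * fderiv ℝ β z a (Complex.I • Pi.single k 1) := by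
    intro a k
    have h1 : wb k u =ᶠ[𝓝 z] g k := by
      filter_upwards [isOpen_ball.mem_nhds hz] with w hw
      exact hug k w hw
    have h2 := h1.fderiv_eq (𝕜 := ℝ)
    have h3 : fderiv ℝ (wb k u) z a = (fderiv ℝ (fderiv ℝ u) z a (Pi.single k 1) +
      Complex.I * fderiv ℝ (fderiv ℝ u) z a (Complex.I • Pi.single k 1)) / 2 :=
      F5_comp hdd _ _ a
    rw [h2, hDg z hzR] at h3
    linear_combination (-2 : ℂ) * h3
  ext j k
  set U := fderiv ℝ (fderiv ℝ u) z with hU
  set b := fderiv ℝ β z with hb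
  have q1 := hX (Pi.single j 1) k
  have q2 := hX (Pi.single k 1) j
  have q3 := hX (Complex.I • Pi.single k 1) j
  have r1 := hβreal z hzR (Pi.single j 1) (Pi.single k 1)
  have r2 := hβreal z hzR (Pi.single j 1) (Complex.I • Pi.single k 1)
  have r3 := hβreal z hzR (Pi.single k 1) (Pi.single j 1)
  have r4 := hβreal z hzR (Pi.single k 1) (Complex.I • Pi.single j 1)
  have r5 := hβreal z hzR (Complex.I • Pi.single k 1) (Pi.single j 1)
  have r6 := hβreal z hzR (Complex.I • Pi.single k 1) (Complex.I • Pi.single j 1)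
  have s1 := hsym (Pi.single j 1) (Pi.single k 1)
  have s2 := hsym (Pi.single j 1) (Complex.I • Pi.single k 1)
  have s3 := hsym (Complex.I • Pi.single j 1) (Complex.I • Pi.single k 1)
  have s4 := hsym (Complex.I • Pi.single j 1) (Pi.single k 1)
  simp only [CH_D2]
  rw [gmE, hβB z hzR, hβB z hzR, F5_D2 hu2, F5_D2 hu2, F5_D2 hu2, F5_D2 hu2]
  rw [← hU, ← hb] at *
  have q1r := congrArg Complex.re q1
  have q1i := congrArg Complex.im q1
  have q2r := congrArg Complex.re q2
  have q2i := congrArg Complex.im q2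
  have q3r := congrArg Complex.re q3
  have q3i := congrArg Complex.im q3
  have s1r := congrArg Complex.re s1
  have s1i := congrArg Complex.im s1
  have s2r := congrArg Complex.re s2
  have s2i := congrArg Complex.im s2
  have s3i := congrArg Complex.im s3
  have s4i := congrArg Complex.im s4
  simp only [Complex.add_re, Complex.add_im, Complex.mul_re, Complex.mul_im, Complex.I_re,
    Complex.I_im, zero_mul, one_mul, zero_sub, zero_add] at q1r q1i q2r q2i q3r q3i
  apply Complex.ext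
  · simp
    linarith
  · simp
    linarith

end Pool.Agent.DMA
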