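import Pool.Agent.Lib.DMA.F5
import Pool.Agent.Lib.DMA.CRule
import Pool.Agent.Lib.K708.FcL
import Pool.Agent.Lib.K708.FcS

/-! # DMA, row F6: from Kahler forms to local potentials -/

set_option autoImplicit false

open scoped Manifold ContDiff Topology ComplexOrder
open Set Filter MeasureTheory Metric

noncomputable section

namespace Pool.Agent.DMA

open Pool.Agent.K708 (E CMfd)

variable {n : ℕ} {X : CMfd n}

open Pool.Agent.K708 (F2 Kah loc2)

namespace F6Aux

open CCompAux

/-- The sesquilinear form of a real bilinear form. -/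
def gg (B : E n →L[ℝ] E n →L[ℝ] ℂ) (u v : E n) : ℂ :=
  (B u (Complex.I • v) - Complex.I * B u v) / 2

theorem gmE_eq (B : E n →L[ℝ] E n →L[ℝ] ℂ) (j k : Fin n) :
    gmE B j k = gg B (Pi.single j 1) (Pi.single k 1) := rfl

theorem gg_add_left (B : E n →L[ℝ] E n →L[ℝ] ℂ) (u u' v : E n) :
    gg B (u + u') v = gg B u v + gg B u' v := by
  simp only [gg, map_add, add_apply]
  ring

theorem gg_add_right (B : E n →L[ℝ] E n →L[ℝ] ℂ) (u v v' : E n) :
    gg B u (v + v') = gg B u v + gg B u v' := by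
  simp only [gg, smul_add, map_add]
  ring

theorem inv_left {B : E n →L[ℝ] E n →L[ℝ] ℂ}
    (hinv : ∀ u v, B (Complex.I • u) (Complex.I • v) = B u v) (u v : E n) :
    B (Complex.I • u) v = -B u (Complex.I • v) := by
  have h := hinv u (Complex.I • v)
  rw [I_I_smul, map_neg] at h
  rw [← h, neg_neg]

theorem gg_smul_left {B : E n →L[ℝ] E n →L[ℝ] ℂ}
    (hinv : ∀ u v, B (Complex.I • u) (Complex.I • v) = B u v) (c : ℂ) (u v : E n) :
    gg B (c • u) v = c * gg B u v := by
  simp only [gg]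
  rw [csmul c u]
  simp only [map_add, map_smul, add_apply, smul_apply, Complex.real_smul]
  rw [hinv, inv_left hinv u v]
  conv_rhs => rw [← Complex.re_add_im c]
  linear_combination ((c.im : ℂ) * B u v / 2) * Complex.I_mul_I

theorem gg_smul_right (B : E n →L[ℝ] E n →L[ℝ] ℂ) (c : ℂ) (u v : E n) :
    gg B u (c • v) = (starRingEnd ℂ) c * gg B u v := by
  have e2 : Complex.I • (c • v) = c.re • (Complex.I • v) - c.im • v := by
    rw [csmul c v, smul_add, smul_comm _ c.re, smul_comm _ c.im, I_I_smul, smul_neg,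
      sub_eq_add_neg]
  have e3 : (starRingEnd ℂ) c = (c.re : ℂ) - c.im * Complex.I := by
    apply Complex.ext <;> simp
  simp only [gg]
  rw [e2, csmul c v, e3]
  simp only [map_add, map_sub, map_smul, Complex.real_smul]
  linear_combination (-(c.im : ℂ) * B u v / 2) * Complex.I_mul_I

theorem gg_sum_left {ι : Type} (B : E n →L[ℝ] E n →L[ℝ] ℂ) (s : Finset ι) (f : ι → E n)
    (v : E n) : gg B (∑ i ∈ s, f i) v = ∑ i ∈ s, gg B (f i) v := by
  classical
  induction s using Finset.induction_on with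
  | empty => simp [gg]
  | insert i s hi ih => rw [Finset.sum_insert hi, Finset.sum_insert hi, gg_add_left, ih]

theorem gg_sum_right {ι : Type} (B : E n →L[ℝ] E n →L[ℝ] ℂ) (s : Finset ι) (f : ι → E n)
    (v : E n) : gg B v (∑ i ∈ s, f i) = ∑ i ∈ s, gg B v (f i) := by
  classical
  induction s using Finset.induction_on with
  | empty => simp [gg]
  | insert i s hi ih => rw [Finset.sum_insert hi, Finset.sum_insert hi, gg_add_right, ih]

theorem gg_eq_sum {B : E n →L[ℝ] E n →L[ℝ] ℂ}
    (hinv : ∀ u v, B (Complex.I • u) (Complex.I • v) = B u v) (u v : E n) :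
    gg B u v = ∑ j, ∑ k, u j * gmE B j k * (starRingEnd ℂ) (v k) := by
  conv_lhs => rw [cdecomp u, gg_sum_left]
  refine Finset.sum_congr rfl fun j _ => ?_
  conv_lhs => rw [cdecomp v, gg_sum_right]
  refine Finset.sum_congr rfl fun k _ => ?_
  rw [gg_smul_left hinv, gg_smul_right, gmE_eq]
  ring

end F6Aux

open F6Aux

/-- Pull-back of the matrix by a complex linear map. -/
theorem gmE_comp (B : E n →L[ℝ] E n →L[ℝ] ℂ) (halt : ∀ u v, B u v = -B v u)
    (hinv : ∀ u v, B (Complex.I • u) (Complex.I • v) = B u v) (L : E n →L[ℂ] E n) :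
    gmE (B.bilinearComp (L.restrictScalars ℝ) (L.restrictScalars ℝ)) =
      (mat L).transpose * gmE B * (mat L).map (starRingEnd ℂ) := by
  have _ := halt
  ext j k
  have e1 : gmE (B.bilinearComp (L.restrictScalars ℝ) (L.restrictScalars ℝ)) j k =
      gg B (L (Pi.single j 1)) (L (Pi.single k 1)) := by
    have e2 : ∀ j : Fin n, Complex.I • L (Pi.single j 1) = L (Complex.I • Pi.single j 1) :=
      fun j => (map_smul L _ _).symm
    simp only [gg, e2]
    rfl
  rw [e1, gg_eq_sum hinv, Matrix.mul_apply, Finset.sum_comm]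
  refine Finset.sum_congr rfl fun b _ => ?_
  rw [Matrix.mul_apply, Finset.sum_mul]
  refine Finset.sum_congr rfl fun a _ => ?_
  rfl

/-- The matrix of a Kähler form is positive definite. -/
theorem gmE_posDef {B : E n →L[ℝ] E n →L[ℝ] ℂ} (halt : ∀ u v, B u v = -B v u)
    (hreal : ∀ u v, (B u v).im = 0)
    (hinv : ∀ u v, B (Complex.I • u) (Complex.I • v) = B u v)
    (hpos : ∀ u, u ≠ 0 → 0 < (B u (Complex.I • u)).re) : (gmE B).PosDef := by
  have hconj : ∀ u v, (starRingEnd ℂ) (B u v) = B u v := fun u v =>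
    Complex.conj_eq_iff_im.2 (hreal u v)
  have hherm : (gmE B).IsHermitian := by
    ext j k
    rw [Matrix.conjTranspose_apply, gmE_eq, gmE_eq, gg, gg, Complex.star_def, map_div₀, map_sub,
      map_mul, Complex.conj_I, hconj, hconj, halt (Pi.single k 1) (Complex.I • Pi.single j 1),
      inv_left hinv, halt (Pi.single k 1) (Pi.single j 1), map_ofNat]
    ring
  rw [Matrix.posDef_iff_dotProduct_mulVec]
  refine ⟨hherm, fun x hx => ?_⟩
  have h1 : star x ⬝ᵥ (gmE B).mulVec x = gg B (star x) (star x) := by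
    rw [gg_eq_sum hinv, dotProduct]
    refine Finset.sum_congr rfl fun j _ => ?_
    rw [Matrix.mulVec, dotProduct, Finset.mul_sum]
    refine Finset.sum_congr rfl fun k _ => ?_
    simp only [Pi.star_apply, Complex.star_def, Complex.conj_conj]
    ring
  have h2 : ∀ u, B u u = 0 := fun u => by
    have := halt u u
    have h3 : (2 : ℂ) * B u u = 0 := by linear_combination this
    exact (mul_eq_zero.1 h3).resolve_left two_ne_zero
  have h4 : gg B (star x) (star x) =
      (((B (star x) (Complex.I • star x)).re / 2 : ℝ) : ℂ) := by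
    rw [gg, h2, mul_zero, sub_zero]
    push_cast
    congr 1
    apply Complex.ext
    · rfl
    · rw [hreal, Complex.ofReal_im]
  rw [h1, h4]
  have h5 := hpos (star x) (by simpa using hx)
  exact_mod_cast half_pos h5

namespace F6Aux

open CRuleAux Pool.Agent.K708

theorem loc2_inv {Ω : F2 n X} (hinv : ∀ x u v, Ω x (Complex.I • u) (Complex.I • v) = Ω x u v)
    {φ : OpenPartialHomeomorph X (E n)} (hφ : φ ∈ DMA.CA X) {z : E n} (hz : z ∈ φ.target)
    (u v : E n) : loc2 φ Ω z (Complex.I • u) (Complex.I • v) = loc2 φ Ω z u v := by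
  have hh : HoloAt n n φ.symm z := contMDiffAt_symm_of_mem_maximalAtlas hφ hz
  simp only [loc2, ContinuousLinearMap.bilinearComp_apply]
  rw [D_smul_I hh, D_smul_I hh, hinv]

end F6Aux

open F6Aux CRuleAux Pool.Agent.K708 in
/-- Local potentials of a Kähler form on a manifold. -/
theorem exists_pot {Ω : F2 n X} (hΩ : Kah Ω) (x : X) :
    ∃ (U : Set X) (ρ : X → ℝ), x ∈ U ∧ IsPot (fun y => gmE (Ω y)) U ρ := by
  have hφ : chartAt (E n) x ∈ DMA.CA X := chart_mem x
  have hxs : x ∈ (chartAt (E n) x).source := mem_chart_source _ _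
  generalize chartAt (E n) x = φ at hφ hxs
  have hφR := ra_of_ca hφ
  set c := φ x with hc
  have hct : c ∈ φ.target := φ.map_source hxs
  obtain ⟨R, hR, hball⟩ := Metric.isOpen_iff.1 φ.open_target c hct
  have hsub : ∀ z ∈ ball (0 : E n) R, z + c ∈ φ.target := fun z hz => hball (by
    rw [mem_ball, dist_eq_norm, add_sub_cancel_right]
    rwa [mem_ball, dist_zero_right] at hz)
  have hB : ContDiffOn ℝ ∞ (fun z => loc2 φ Ω (z + c)) (ball (0 : E n) R) :=
    (hΩ.s2.2 φ hφR).comp (contDiff_id.add contDiff_const).contDiffOn hsub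
  have hfd : ∀ z, fderiv ℝ (fun z => loc2 φ Ω (z + c)) z = fderiv ℝ (loc2 φ Ω) (z + c) := fun z =>
    fderiv_comp_add_right (𝕜 := ℝ) (f := loc2 φ Ω) (x := z) c
  obtain ⟨σ, hσ, hσe⟩ := local_pot (B := fun z => loc2 φ Ω (z + c)) (half_pos hR) (half_lt_self hR) hB
    (fun z _ u v => by
      simp only [loc2, ContinuousLinearMap.bilinearComp_apply]
      exact hΩ.s2.1 _ _ _)
    (fun z hz u v w => by
      rw [hfd]
      exact hΩ.cl φ hφR (z + c) (hsub z hz) u v w)
    (fun z _ u v => by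
      simp only [loc2, ContinuousLinearMap.bilinearComp_apply]
      exact hΩ.real _ _ _)
    (fun z hz u v => loc2_inv hΩ.inv hφ (hsub z hz) u v)
  have hU : IsOpen (φ.source ∩ φ ⁻¹' ball c (R / 2)) := φ.isOpen_inter_preimage isOpen_ball
  have hshift : ∀ y, φ y ∈ ball c (R / 2) → φ y - c ∈ ball (0 : E n) (R / 2) := fun y hy => by
    rwa [mem_ball, dist_zero_right, ← dist_eq_norm]
  refine ⟨φ.source ∩ φ ⁻¹' ball c (R / 2), fun y => σ (φ y - c), ⟨hxs, ?_⟩, hU, ?_, ?_⟩
  · rw [mem_preimage, ← hc]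
    exact mem_ball_self (half_pos hR)
  · have h1 : ContMDiffOn 𝓘(ℝ, E n) 𝓘(ℝ, E n) ∞ φ φ.source :=
      contMDiffOn_of_mem_maximalAtlas hφR
    have h2 : ContDiffOn ℝ ∞ (fun z => σ (z - c)) (ball c (R / 2)) :=
      hσ.comp (contDiff_id.sub contDiff_const).contDiffOn fun z hz => by
        rw [mem_ball, dist_eq_norm] at hz
        simpa using hz
    exact (contMDiffOn_iff_contDiffOn.2 h2).comp (h1.mono inter_subset_left) fun y hy => hy.2
  · rintro y ⟨hy, hyb⟩
    have hψ : chartAt (E n) y ∈ DMA.CA X := chart_mem y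
    have hyψ : y ∈ (chartAt (E n) y).source := mem_chart_source _ _
    have hΩy : loc2 (chartAt (E n) y) Ω (chartAt (E n) y y) = Ω y := loc2_chartAt Ω y
    unfold hess
    generalize chartAt (E n) y = ψ at hψ hyψ hΩy
    have hz : ψ y ∈ ψ.target := ψ.map_source hyψ
    have hz' : ψ.symm (ψ y) ∈ φ.source := by rwa [ψ.left_inv hyψ]
    have h1 : ContDiffAt ℂ 2 (φ ∘ ψ.symm) (ψ y) := (trans_holo hψ hφ hz hz').of_le le_top
    have e1 : (φ ∘ ψ.symm) (ψ y) = φ y := by
      rw [Function.comp_apply, ψ.left_inv hyψ]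
    have h2 : ContDiffAt ℝ 2 (fun w => σ (w - c)) ((φ ∘ ψ.symm) (ψ y)) := by
      rw [e1]
      have h3 : ContDiffAt ℝ ∞ σ (φ y - c) := hσ.contDiffAt (isOpen_ball.mem_nhds (hshift y hyb))
      have h4 : ContDiffAt ℝ 2 σ (φ y - c) := h3.of_le (WithTop.coe_le_coe.2 le_top)
      exact ContDiffAt.comp (g := σ) (f := fun w => w - c) (φ y) h4
        (contDiff_id.sub contDiff_const).contDiffAt
    have h5 := CH_comp h1 h2
    have h6 : CH (fun w => σ (w - c)) (φ y) = CH σ (φ y - c) := by
      have h7 : fderiv ℝ (fun w => σ (w - c)) = fun w => fderiv ℝ σ (w - c) := by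
        funext w
        have h9 := fderiv_comp_add_right (𝕜 := ℝ) (f := σ) (x := w) (-c)
        simpa only [← sub_eq_add_neg] using h9
      have h10 : fderiv ℝ (fun w => fderiv ℝ σ (w - c)) (φ y) =
          fderiv ℝ (fderiv ℝ σ) (φ y - c) := by
        have h9 := fderiv_comp_add_right (𝕜 := ℝ) (f := fderiv ℝ σ) (x := φ y) (-c)
        simpa only [← sub_eq_add_neg] using h9
      simp only [CH_D2]
      unfold D2
      rw [h7, h10]
    have h8 : CH σ (φ y - c) = gmE (loc2 φ Ω (φ y)) := by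
      have h9 := hσe (φ y - c) (hshift y hyb)
      rw [h9, sub_add_cancel]
    change CH (fun w => σ ((φ ∘ ψ.symm) w - c)) (ψ y) = gmE (Ω y)
    rw [h5, e1, h6, h8, ← gmE_comp _ (fun u v => by
        simp only [loc2, ContinuousLinearMap.bilinearComp_apply]
        exact hΩ.s2.1 _ _ _) (fun u v => loc2_inv hΩ.inv hφ (φ.map_source hy) u v),
      ← fderiv_real hψ hφ hz hz', ← hΩy,
      loc2_change (ra_of_ca hψ) hφR hz hz' Ω, ψ.left_inv hyψ]

end Pool.Agent.DMA
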