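import Pool.Agent.Lib.DMA.GDef

/-! # DMA, row G1: diagonal sequences -/

set_option autoImplicit false

open scoped Manifold ContDiff Topology ComplexOrder
open Set Filter MeasureTheory

noncomputable section

namespace Pool.Agent.DMA

open Pool.Agent.K708 (E CMfd)

namespace G1Aux

/-- a bounded upper semicontinuous function on a compact metric space is the decreasing limit of a
sequence of continuous functions which are strictly larger -/
theorem usc_apx {Y : Type} [MetricSpace Y] {u : Y → ℝ} (hu : UpperSemicontinuous u)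
    {C : ℝ} (hC : ∀ x, |u x| ≤ C) :
    ∃ f : ℕ → Y → ℝ, (∀ k, Continuous (f k)) ∧ (∀ k x, u x < f k x) ∧
      ∀ x, Tendsto (fun k => f k x) atTop (𝓝 (u x)) := by
  rcases isEmpty_or_nonempty Y with hY | hY
  · exact ⟨fun _ _ => 0, fun _ => continuous_const, fun _ x => (hY.false x).elim,
      fun x => (hY.false x).elim⟩
  have hbd : ∀ (k : ℕ) (x : Y), BddAbove (range fun y => u y - k * dist x y) := fun k x =>
    ⟨C, by
      rintro _ ⟨y, rfl⟩
      have h1 := (abs_le.1 (hC y)).2
      have h2 : (0 : ℝ) ≤ k * dist x y := by positivity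
      simp only
      linarith⟩
  let g : ℕ → Y → ℝ := fun k x => ⨆ y, (u y - k * dist x y)
  have hg_ge : ∀ k x y, u y - k * dist x y ≤ g k x := fun k x y => le_ciSup (hbd k x) y
  have hg_self : ∀ k x, u x ≤ g k x := fun k x => by
    have := hg_ge k x x
    simpa using this
  have hlip : ∀ k x x', g k x ≤ g k x' + k * dist x x' := fun k x x' => by
    refine ciSup_le fun y => ?_
    have h1 := hg_ge k x' y
    have h2 : dist x' y ≤ dist x x' + dist x y := by
      rw [dist_comm x x']
      exact dist_triangle x' x y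
    have h3 : (k : ℝ) * dist x' y ≤ k * (dist x x' + dist x y) :=
      mul_le_mul_of_nonneg_left h2 (Nat.cast_nonneg k)
    linarith
  have hcont : ∀ k, Continuous (g k) := fun k => by
    refine (LipschitzWith.of_le_add_mul (K := (k : NNReal)) ?_).continuous
    intro x y
    have := hlip k x y
    simpa using this
  have hlim : ∀ x, ∀ ε > 0, ∀ᶠ k : ℕ in atTop, g k x < u x + ε := by
    intro x ε hε
    have h1 : ∀ᶠ y in 𝓝 x, u y < u x + ε / 2 := hu x _ (by linarith)
    obtain ⟨δ, hδ, hδ'⟩ := Metric.eventually_nhds_iff.1 h1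
    have h2 : ∀ᶠ k : ℕ in atTop, 2 * C / δ ≤ k :=
      tendsto_natCast_atTop_atTop.eventually_ge_atTop _
    filter_upwards [h2] with k hk
    refine lt_of_le_of_lt (ciSup_le fun y => ?_) (by linarith : u x + ε / 2 < u x + ε)
    by_cases hy : dist y x < δ
    · have h3 := hδ' hy
      have h4 : (0 : ℝ) ≤ k * dist x y := by positivity
      linarith
    · push Not at hy
      rw [dist_comm] at hy
      have h3 : 2 * C ≤ k * dist x y := by
        have h5 : 2 * C ≤ k * δ := by
          rw [div_le_iff₀ hδ] at hk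
          exact hk
        exact h5.trans (mul_le_mul_of_nonneg_left hy (Nat.cast_nonneg k))
      have h4 := (abs_le.1 (hC y)).2
      have h5 := (abs_le.1 (hC x)).1
      linarith
  refine ⟨fun k x => g k x + 1 / ((k : ℝ) + 1), fun k => (hcont k).add continuous_const,
    fun k x => ?_, fun x => ?_⟩
  · have h1 : (0 : ℝ) < 1 / ((k : ℝ) + 1) := by positivity
    have := hg_self k x
    linarith
  · have h1 : Tendsto (fun k => g k x) atTop (𝓝 (u x)) := by
      refine tendsto_order.2 ⟨fun a ha => Eventually.of_forall fun k =>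
        lt_of_lt_of_le ha (hg_self k x), fun a ha => ?_⟩
      filter_upwards [hlim x (a - u x) (by linarith)] with k hk
      linarith
    have h2 := h1.add tendsto_one_div_add_atTop_nhds_zero_nat
    simpa using h2

end G1Aux

variable {n : ℕ} {X : CMfd n} {K : Kahler X}

/-- If the bounded `ω`-psh functions `u_j` decrease to `φ` and `P_j` is a property satisfied by all
smooth `ω`-psh functions close enough to `u_j` from above, there are smooth `ω`-psh functions `w_j`
with `P_j (w_j)`, decreasing to `φ`. -/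
theorem diag (hn : 0 < n) (hX : CompactSpace X) {u : ℕ → X → ℝ} (hu : ∀ j, BPsh K (u j))
    (ha : ∀ x, Antitone fun j => u j x) {φ : X → EReal}
    (hl : ∀ x, Tendsto (fun j => ((u j x : ℝ) : EReal)) atTop (𝓝 (φ x)))
    (Q : ℕ → (X → ℝ) → Prop)
    (hQ : ∀ j, ∃ h : X → ℝ, Continuous h ∧ (∀ x, u j x < h x) ∧
      ∀ w, SPsh K w → (∀ x, u j x < w x ∧ w x < h x) → Q j w) :
    ∃ w : ℕ → X → ℝ, (∀ j, SPsh K (w j)) ∧ (∀ j, Q j (w j)) ∧ (∀ x, Antitone fun j => w j x) ∧
      (∀ j x, u j x < w j x) ∧ ∀ x, Tendsto (fun j => ((w j x : ℝ) : EReal)) atTop (𝓝 (φ x)) := by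
  classical
  letI : MetricSpace X := TopologicalSpace.metrizableSpaceMetric X
  have hap : ∀ i, ∃ f : ℕ → X → ℝ, (∀ k, Continuous (f k)) ∧ (∀ k x, u i x < f k x) ∧
      ∀ x, Tendsto (fun k => f k x) atTop (𝓝 (u i x)) := fun i => by
    obtain ⟨C, hC⟩ := (hu i).bdd
    exact G1Aux.usc_apx (hu i).usc hC
  choose f hfc hfu hfl using hap
  choose h hhc hhu hhQ using hQ
  let P : ℕ → (X → ℝ) → Prop := fun j w =>
    SPsh K w ∧ Q j w ∧ (∀ x, u j x < w x) ∧ ∀ i ≤ j, ∀ x, w x < f i j x
  have gen : ∀ (j : ℕ) (H : X → ℝ), Continuous H → (∀ x, u j x < H x) →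
      ∃ w, P j w ∧ ∀ x, w x < H x := by
    intro j H hH hHu
    let F : X → ℝ := fun x => (Finset.range (j + 1)).inf' ⟨0, by simp⟩ (fun i => f i j x)
    have hF : Continuous F :=
      Continuous.finset_inf'_apply _ (fun i _ => hfc i j)
    have hFu : ∀ x, u j x < F x := fun x => by
      rw [Finset.lt_inf'_iff]
      intro i hi
      have h1 : i ≤ j := by
        rw [Finset.mem_range] at hi
        omega
      exact lt_of_le_of_lt (ha x h1) (hfu i j x)
    obtain ⟨w, hw, hw'⟩ := bk hn hX K (hu j) (h := fun x => min (min (h j x) (F x)) (H x))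
      (((hhc j).min hF).min hH) (fun x => lt_min (lt_min (hhu j x) (hFu x)) (hHu x))
    refine ⟨w, ⟨hw, hhQ j w hw fun x => ⟨(hw' x).1, ?_⟩, fun x => (hw' x).1, fun i hi x => ?_⟩,
      fun x => (hw' x).2.trans_le (min_le_right _ _)⟩
    · exact (hw' x).2.trans_le ((min_le_left _ _).trans (min_le_left _ _))
    · refine (hw' x).2.trans_le ((min_le_left _ _).trans ((min_le_right _ _).trans ?_))
      exact Finset.inf'_le _ (Finset.mem_range.2 (by omega))
  have base : ∃ w, P 0 w := by
    obtain ⟨w, hw, -⟩ := gen 0 (h 0) (hhc 0) (hhu 0)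
    exact ⟨w, hw⟩
  have step : ∀ (j : ℕ) (w : X → ℝ), P j w → ∃ w', P (j + 1) w' ∧ ∀ x, w' x < w x := by
    intro j w hw
    exact gen (j + 1) w hw.1.1.continuous fun x =>
      lt_of_le_of_lt (ha x (Nat.le_succ j)) (hw.2.2.1 x)
  let s : ∀ j, {w // P j w} := fun j => Nat.rec (motive := fun j => {w // P j w})
    ⟨base.choose, base.choose_spec⟩
    (fun j w => ⟨(step j w.1 w.2).choose, (step j w.1 w.2).choose_spec.1⟩) j
  have hs : ∀ j x, (s (j + 1)).1 x < (s j).1 x := fun j x =>
    (step j (s j).1 (s j).2).choose_spec.2 x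
  refine ⟨fun j => (s j).1, fun j => (s j).2.1, fun j => (s j).2.2.1, fun x =>
    antitone_nat_of_succ_le fun j => (hs j x).le, fun j x => (s j).2.2.2.1 x, fun x => ?_⟩
  refine tendsto_order.2 ⟨fun a haφ => ?_, fun a haφ => ?_⟩
  · filter_upwards [(tendsto_order.1 (hl x)).1 a haφ] with j hj
    exact hj.trans (EReal.coe_lt_coe_iff.2 ((s j).2.2.2.1 x))
  · obtain ⟨i, hi⟩ := ((tendsto_order.1 (hl x)).2 a haφ).exists
    obtain ⟨b, hb1, hb2⟩ := EReal.lt_iff_exists_real_btwn.1 hi
    have hb1' : u i x < b := EReal.coe_lt_coe_iff.1 hb1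
    filter_upwards [(tendsto_order.1 (hfl i x)).2 b hb1', eventually_ge_atTop i] with j hj hij
    have h1 := (s j).2.2.2.2 i hij x
    exact (EReal.coe_lt_coe_iff.2 (h1.trans hj)).trans hb2

/-- Every `φ ∈ PSH(X, ω)` is the limit of a decreasing sequence of smooth `ω`-psh functions. -/
theorem opsh_smooth_seq (hn : 0 < n) (hX : CompactSpace X) {φ : X → EReal} (hφ : OPsh K φ) :
    ∃ u : ℕ → X → ℝ, (∀ j, SPsh K (u j)) ∧ (∀ x, Antitone fun j => u j x) ∧
      ∀ x, Tendsto (fun j => (u j x : EReal)) atTop (𝓝 (φ x)) := by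
  have hcoe : ∀ (t : ℝ) (x : X), ((tr t φ x : ℝ) : EReal) = max (φ x) ((-t : ℝ) : EReal) := by
    intro t x
    unfold tr
    refine EReal.coe_toReal ?_ ?_
    · exact (max_lt (lt_top_iff_ne_top.2 (hφ.ne_top x)) (EReal.coe_lt_top _)).ne
    · exact (lt_of_lt_of_le (EReal.bot_lt_coe _) (le_max_right _ _)).ne'
  have hanti : ∀ x, Antitone fun j : ℕ => tr (j : ℝ) φ x := fun x i j hij => by
    have h1 : ((tr (j : ℝ) φ x : ℝ) : EReal) ≤ ((tr (i : ℝ) φ x : ℝ) : EReal) := by
      rw [hcoe, hcoe]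
      refine max_le_max le_rfl (EReal.coe_le_coe_iff.2 ?_)
      have : (i : ℝ) ≤ j := by exact_mod_cast hij
      linarith
    exact EReal.coe_le_coe_iff.1 h1
  have hlim : ∀ x, Tendsto (fun j : ℕ => ((tr (j : ℝ) φ x : ℝ) : EReal)) atTop (𝓝 (φ x)) := by
    intro x
    simp_rw [hcoe]
    have h1 : Tendsto (fun j : ℕ => ((-(j : ℝ) : ℝ) : EReal)) atTop (𝓝 ⊥) := by
      rw [EReal.tendsto_nhds_bot_iff_real]
      intro b
      have h2 : ∀ᶠ j : ℕ in atTop, -b < j := tendsto_natCast_atTop_atTop.eventually_gt_atTop _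
      filter_upwards [h2] with j hj
      rw [EReal.coe_lt_coe_iff]
      linarith
    have h3 := (tendsto_const_nhds (x := φ x)).max h1
    simpa using h3
  obtain ⟨w, h1, -, h2, -, h3⟩ := diag (K := K) hn hX (fun j : ℕ => hφ.psh j) hanti hlim
    (fun _ _ => True) (fun j => by
      obtain ⟨C, hC⟩ := (hφ.psh (j : ℝ)).bdd
      exact ⟨fun _ => C + 1, continuous_const, fun x => by
        have := (abs_le.1 (hC x)).2
        linarith, fun _ _ _ => trivial⟩)
  exact ⟨w, h1, h2, h3⟩

end Pool.Agent.DMA
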