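import Pool.Agent.Lib.DMA.G1

/-! # DMA, row G2: weak convergence of smooth approximations -/

set_option autoImplicit false

open scoped Manifold ContDiff Topology ComplexOrder
open Set Filter MeasureTheory

noncomputable section

namespace Pool.Agent.DMA

open Pool.Agent.K708 (E CMfd)

variable {n : ℕ} {X : CMfd n} {K : Kahler X}

/-- Weak convergence along decreasing sequences. -/
theorem MA_conv {Y : Type*} [TopologicalSpace Y] [CompactSpace Y] [T2Space Y]
    [SecondCountableTopology Y] [MeasurableSpace Y] [BorelSpace Y] {C : Calc Y n} {u : Y → ℝ}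
    {w : ℕ → Y → ℝ} (hw : Dec C.P (w, u)) {f : Y → ℝ} (hf : Continuous f) :
    Tendsto (fun j => ∫ x, f x ∂(C.MA (w j))) atTop (𝓝 (∫ x, f x ∂(C.MA u))) := by
  have h1 : (fun _ : Y => (1 : ℝ)) ∈ C.P := by
    have := C.P_const _ C.P_zero 1
    simpa using this
  have hp : Dec C.P ((fun _ _ => (1 : ℝ)), fun _ => (1 : ℝ)) :=
    ⟨fun _ => h1, h1, fun x => antitone_const, fun x => tendsto_const_nhds⟩
  have h2 := C.conv _ hp (Multiset.replicate n (w, u)) (Multiset.card_replicate _ _)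
    (fun q hq => by rw [Multiset.eq_of_mem_replicate hq]; exact hw) f hf
  simp only [Multiset.map_replicate, mul_one] at h2
  exact h2

/-- Smooth `ω`-psh functions close enough to `u` from above have Monge–Ampère measure close to that
of `u`, tested against `f`. -/
theorem MA_close (hn : 0 < n) (hX : CompactSpace X) {C : Calc X n} (hG : Good K C) {u : X → ℝ}
    (hu : BPsh K u) {f : X → ℝ} (hf : Continuous f) {ε : ℝ} (hε : 0 < ε) :
    ∃ h : X → ℝ, Continuous h ∧ (∀ x, u x < h x) ∧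
      ∀ w, SPsh K w → (∀ x, u x < w x ∧ w x < h x) →
        |∫ x, f x ∂(C.MA w) - ∫ x, f x ∂(C.MA u)| ≤ ε := by
  classical
  by_contra hcon
  push Not at hcon
  have : TopologicalSpace.MetrizableSpace X :=
    TopologicalSpace.metrizableSpace_of_t3_secondCountable X
  obtain ⟨h, hc, ha, hlt, ht⟩ := exists_cont_dec (Y := X) hu.usc hu.bdd
  let S : Type := {w : X → ℝ // SPsh K w ∧ (∀ x, u x < w x) ∧
    ε < |∫ x, f x ∂(C.MA w) - ∫ x, f x ∂(C.MA u)|}
  have hw0 : ∃ w : S, ∀ x, w.1 x < h 0 x := by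
    obtain ⟨w, hw1, hw2, hw3⟩ := hcon (h 0) (hc 0) (hlt 0)
    exact ⟨⟨w, hw1, fun x => (hw2 x).1, hw3⟩, fun x => (hw2 x).2⟩
  have step : ∀ (j : ℕ) (w : S), ∃ w' : S, ∀ x, w'.1 x < min (w.1 x) (h j x) := by
    intro j w
    obtain ⟨w', hw1, hw2, hw3⟩ := hcon (fun x => min (w.1 x) (h j x))
      (w.2.1.1.continuous.min (hc j)) (fun x => lt_min (w.2.2.1 x) (hlt j x))
    exact ⟨⟨w', hw1, fun x => (hw2 x).1, hw3⟩, fun x => (hw2 x).2⟩
  obtain ⟨w0, -⟩ := hw0
  choose nx hnx using step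
  let W : ℕ → S := fun j => Nat.rec w0 (fun j w => nx j w) j
  have hW : ∀ j x, (W (j + 1)).1 x < min ((W j).1 x) (h j x) := fun j x => hnx j (W j) x
  have hmem : ∀ {w : X → ℝ}, SPsh K w → w ∈ C.P := fun hw => hG.mem.2 (hw.bpsh hn hX)
  have hdec : Dec C.P ((fun j => (W j).1), u) := by
    refine ⟨fun j => hmem (W j).2.1, hG.mem.2 hu, fun x => ?_, fun x => ?_⟩
    · exact antitone_nat_of_succ_le fun j => ((hW j x).le.trans (min_le_left _ _))
    · show Tendsto (fun j => (W j).1 x) atTop (𝓝 (u x))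
      rw [← tendsto_add_atTop_iff_nat 1]
      exact tendsto_of_tendsto_of_tendsto_of_le_of_le tendsto_const_nhds (ht x)
        (fun j => ((W (j + 1)).2.2.1 x).le) (fun j => (hW j x).le.trans (min_le_right _ _))
  have hconv := MA_conv hdec hf
  rw [Metric.tendsto_atTop] at hconv
  obtain ⟨N, hN⟩ := hconv ε hε
  have h1 := hN N le_rfl
  rw [Real.dist_eq] at h1
  exact absurd h1 (not_lt.2 (W N).2.2.2.le)

end Pool.Agent.DMA
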