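import Pool.Agent.Lib.DMA.G2

/-! # DMA, row G3: MA of bounded functions -/

set_option autoImplicit false

open scoped Manifold ContDiff Topology ComplexOrder
open Set Filter MeasureTheory

noncomputable section

namespace Pool.Agent.DMA

open Pool.Agent.K708 (E CMfd)

variable {n : ℕ} {X : CMfd n} {K : Kahler X}

private theorem inDMA_MA (hn : 0 < n) (hX : CompactSpace X) {C : Calc X n}
    (hG : Good K C) {v : X → ℝ} (hv : BPsh K v) :
    InDMA K (fun x => (v x : EReal)) (C.MA v) := by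
  refine ⟨inferInstance, ?_⟩
  intro u hu ha hl f hf
  have hD : Dec C.P (u, v) := by
    refine ⟨fun j => hG.mem.2 ((hu j).bpsh hn hX), hG.mem.2 hv, ha, fun x => ?_⟩
    exact EReal.tendsto_coe.1 (hl x)
  have h1 := MA_conv hD hf
  have h2 : (fun j => ∫ x, f x ∂(ma K (u j))) = fun j => ∫ x, f x ∂(C.MA (u j)) := by
    funext j
    rw [ma_eq_calc hX hG.loc (hu j)]
  rw [h2]
  exact h1

private theorem inDMA_unique (hn : 0 < n) (hX : CompactSpace X) {v : X → ℝ} (hv : BPsh K v)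
    {ν₁ ν₂ : Measure X} (h₁ : InDMA K (fun x => (v x : EReal)) ν₁)
    (h₂ : InDMA K (fun x => (v x : EReal)) ν₂) : ν₁ = ν₂ := by
  obtain ⟨s, hs, ha, hl⟩ := exists_reg hn hX K hv
  have i₁ := h₁.fin
  have i₂ := h₂.fin
  have hanti : ∀ x, Antitone fun j => s j x := fun x i j hij => ha hij x
  have hlim : ∀ x, Tendsto (fun j => (s j x : EReal)) atTop (𝓝 ((v x : ℝ) : EReal)) :=
    fun x => EReal.tendsto_coe.2 (hl x)
  refine ext_of_forall_integral_eq_of_IsFiniteMeasure fun f => ?_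
  exact tendsto_nhds_unique (h₁.lim s hs hanti hlim f f.continuous)
    (h₂.lim s hs hanti hlim f f.continuous)

theorem mab_eq (hn : 0 < n) (hX : CompactSpace X) {C : Calc X n}
    (hG : Good K C) {v : X → ℝ} (hv : BPsh K v) :
    InDMA K (fun x => (v x : EReal)) (mab K v) ∧ mab K v = C.MA v ∧
      ∀ ν, InDMA K (fun x => (v x : EReal)) ν → ν = mab K v := by
  have hex : ∃ ν, InDMA K (fun x => (v x : EReal)) ν := ⟨_, inDMA_MA hn hX hG hv⟩
  have h1 : InDMA K (fun x => (v x : EReal)) (mab K v) := by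
    unfold mab
    rw [dif_pos hex]
    exact hex.choose_spec
  exact ⟨h1, inDMA_unique hn hX hv h1 (inDMA_MA hn hX hG hv),
    fun ν hν => inDMA_unique hn hX hv hν h1⟩

/-- The domain of definition by bounded approximants. -/
theorem adma (hn : 0 < n) (hX : CompactSpace X) {C : Calc X n}
    (hG : Good K C) {φ : X → EReal} (hφ : OPsh K φ) {μ : Measure X} (h : InDMA K φ μ) :
    ∃ c, ADma C φ c μ := by
  obtain ⟨c, hc⟩ := (hφ.psh 0).bdd
  refine ⟨c, ⟨⟨fun x => ?_, fun t => hG.mem.2 (hφ.psh t)⟩, h.fin, ?_⟩⟩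
  · exact (le_tr (hφ.ne_top x) 0).trans (EReal.coe_le_coe_iff.2 ((le_abs_self _).trans (hc x)))
  · intro u hu ha hl f hf
    obtain ⟨w, hw, hQ, hwa, -, hwl⟩ := diag (K := K) hn hX (fun j => hG.mem.1 (hu j)) ha hl
      (fun j w => |∫ x, f x ∂(C.MA w) - ∫ x, f x ∂(C.MA (u j))| ≤ 1 / ((j : ℝ) + 1))
      (fun j => MA_close hn hX hG (hG.mem.1 (hu j)) hf (by positivity))
    have h1 := h.lim w hw hwa hwl f hf
    have h2 : (fun j => ∫ x, f x ∂(ma K (w j))) = fun j => ∫ x, f x ∂(C.MA (w j)) := by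
      funext j
      rw [ma_eq_calc hX hG.loc (hw j)]
    rw [h2] at h1
    have h3 : Tendsto (fun j => ∫ x, f x ∂(C.MA (w j)) - ∫ x, f x ∂(C.MA (u j))) atTop
        (𝓝 0) := by
      refine squeeze_zero_norm (fun j => ?_) tendsto_one_div_add_atTop_nhds_zero_nat
      exact hQ j
    have h4 := h1.sub h3
    simpa using h4

end Pool.Agent.DMA
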