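import Pool.Agent.Lib.DMA.G3

/-! # DMA, row G4: potentials -/

set_option autoImplicit false

open scoped Manifold ContDiff Topology ComplexOrder
open Set Filter MeasureTheory

noncomputable section

namespace Pool.Agent.DMA

open Pool.Agent.K708 (E CMfd)

section G4aux

variable {n : ℕ} {X : CMfd n} {K : Kahler X}

theorem G4_CH_smul (r : ℝ) (f : E n → ℝ) (z : E n) :
    CH (fun w => r * f w) z = (r : ℂ) • CH f z := by
  have h1 : (fun w => r * f w) = r • f := by
    funext w
    rw [Pi.smul_apply, smul_eq_mul]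
  have h2 : D2 (fun w => r * f w) z = r • D2 f z := by
    have h3 : fderiv ℝ (r • f) = r • fderiv ℝ f := fderiv_const_smul_field r
    have h4 : fderiv ℝ (r • fderiv ℝ f) = r • fderiv ℝ (fderiv ℝ f) :=
      fderiv_const_smul_field (𝕜 := ℝ) (E := E n) (F := E n →L[ℝ] ℝ) (R := ℝ) (f := fderiv ℝ f) r
    rw [D2, D2, h1, h3, h4]
    rfl
  ext j k
  simp only [CH_D2, h2, smul_apply, smul_eq_mul, Matrix.smul_apply]
  push_cast
  ring

theorem G4_mixD_smul (H H' : Fin n → Matrix (Fin n) (Fin n) ℂ) (i : Fin n) (r : ℂ)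
    (hi : H' i = r • H i) (hj : ∀ j, j ≠ i → H' j = H j) : mixD H' = r * mixD H := by
  unfold mixD
  rw [← mul_div_assoc, Finset.mul_sum]
  congr 1
  refine Finset.sum_congr rfl fun σ _ => ?_
  rw [Finset.mul_sum]
  refine Finset.sum_congr rfl fun τ _ => ?_
  have hprod : ∏ j, H' j (σ j) (τ j) = r * ∏ j, H j (σ j) (τ j) := by
    rw [← Finset.mul_prod_erase Finset.univ (fun j => H' j (σ j) (τ j)) (Finset.mem_univ i),
      ← Finset.mul_prod_erase Finset.univ (fun j => H j (σ j) (τ j)) (Finset.mem_univ i)]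
    have he : ∏ j ∈ Finset.univ.erase i, H' j (σ j) (τ j)
        = ∏ j ∈ Finset.univ.erase i, H j (σ j) (τ j) :=
      Finset.prod_congr rfl fun j hj' => by rw [hj j (Finset.ne_of_mem_erase hj')]
    rw [he, hi, Matrix.smul_apply, smul_eq_mul]
    ring
  rw [hprod]
  ring

/-- The identity for functions with support in a chart. -/
theorem G4_local {C : Calc X n} (hG : Good K C) {B : Set X} {ρ : X → ℝ}
    (hB : IsPot K.g B ρ) {c : ℝ} {u1 u0 : Fin n → X → ℝ} (i : Fin n)
    (h1 : ∀ j, SPsh K (u1 j)) (h0 : ∀ j, SPsh K (u0 j)) (h1i : u1 i = fun x => c * ρ x)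
    (h0i : u0 i = fun _ => 0) (hj : ∀ j, j ≠ i → u1 j = u0 j)
    {ψ : OpenPartialHomeomorph X (E n)}
    (hψ : ψ ∈ CA X) {f : X → ℝ} (hf : Continuous f) (hfs : tsupport f ⊆ ψ.source ∩ B) :
    ∫ x, f x ∂(C.M (Finset.univ.val.map u1)) =
      (1 + c) * ∫ x, f x ∂(C.M (Finset.univ.val.map u0)) := by
  have hfs' : tsupport f ⊆ ψ.source ∩ B ∩ univ := by
    rw [inter_univ]
    exact hfs
  rw [hG.loc _ h1 B ρ hB ψ hψ f hf hfs', hG.loc _ h0 B ρ hB ψ hψ f hf hfs', ← integral_const_mul]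
  refine integral_congr_ae (Eventually.of_forall fun z => ?_)
  have hmix : (mixD fun j => CH (fun w => ρ (ψ.symm w) + u1 j (ψ.symm w)) z)
      = ((1 + c : ℝ) : ℂ) * mixD fun j => CH (fun w => ρ (ψ.symm w) + u0 j (ψ.symm w)) z := by
    apply G4_mixD_smul _ _ i
    · have e1 : (fun w => ρ (ψ.symm w) + u1 i (ψ.symm w))
          = fun w => (1 + c) * (ρ (ψ.symm w) + u0 i (ψ.symm w)) := by
        funext w
        rw [h1i, h0i]
        ring
      rw [e1, G4_CH_smul]
    · intro j hji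
      rw [hj j hji]
  simp only
  rw [hmix, Complex.re_ofReal_mul]
  ring

/-- The identity for all functions with support in `B`. -/
theorem G4_global (hX : CompactSpace X) {C : Calc X n} (hG : Good K C) {B : Set X} {ρ : X → ℝ}
    (hB : IsPot K.g B ρ) {c : ℝ} {u1 u0 : Fin n → X → ℝ} (i : Fin n)
    (h1 : ∀ j, SPsh K (u1 j)) (h0 : ∀ j, SPsh K (u0 j)) (h1i : u1 i = fun x => c * ρ x)
    (h0i : u0 i = fun _ => 0) (hj : ∀ j, j ≠ i → u1 j = u0 j) {f : X → ℝ} (hf : Continuous f)
    (hfs : tsupport f ⊆ B) :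
    ∫ x, f x ∂(C.M (Finset.univ.val.map u1)) =
      (1 + c) * ∫ x, f x ∂(C.M (Finset.univ.val.map u0)) := by
  have := hX
  obtain ⟨χ, hχ⟩ := PartitionOfUnity.exists_isSubordinate (X := X) isClosed_univ
    (fun x : X => (chartAt (E n) x).source) (fun x => (chartAt (E n) x).open_source)
    (fun x _ => mem_iUnion.2 ⟨x, mem_chart_source (E n) x⟩)
  have hfinite : {x : X | (Function.support (χ x)).Nonempty}.Finite :=
    χ.locallyFinite.finite_nonempty_of_compact
  set s : Finset X := hfinite.toFinset with hs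
  have hsum : ∀ y : X, ∑ x ∈ s, χ x y = 1 := by
    intro y
    rw [← χ.sum_eq_one (mem_univ y)]
    symm
    apply finsum_eq_sum_of_support_subset
    intro x hx
    rw [hs, Finite.coe_toFinset]
    exact ⟨y, hx⟩
  have hdec : f = fun y => ∑ x ∈ s, χ x y * f y := by
    funext y
    rw [← Finset.sum_mul, hsum, one_mul]
  have hcont : ∀ x, Continuous fun y => χ x y * f y := fun x => (χ x).continuous.mul hf
  have hint : ∀ (ν : Measure X) [IsFiniteMeasure ν], ∀ x ∈ s,
      Integrable (fun y => χ x y * f y) ν := by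
    intro ν _ x _
    exact (hcont x).integrable_of_hasCompactSupport (HasCompactSupport.of_compactSpace _)
  have hf1 := C.fin (Finset.univ.val.map u1)
  have hf0 := C.fin (Finset.univ.val.map u0)
  rw [hdec, integral_finsetSum _ (hint _), integral_finsetSum _ (hint _), Finset.mul_sum]
  refine Finset.sum_congr rfl fun x _ => ?_
  apply G4_local hG hB i h1 h0 h1i h0i hj (ψ := chartAt (E n) x)
    (IsManifold.chart_mem_maximalAtlas x) (hcont x)
  refine subset_inter ?_ ?_
  · exact (tsupport_mul_subset_left (f := χ x) (g := f)).trans (hχ x)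
  · exact (tsupport_mul_subset_right (f := χ x) (g := f)).trans hfs

theorem G4_smul_fin {Y : Type*} [MeasurableSpace Y] (μ : Measure Y) [IsFiniteMeasure μ] (r : ℝ) :
    IsFiniteMeasure (ENNReal.ofReal r • μ) := by
  have hr : ENNReal.ofReal r • μ = r.toNNReal • μ := rfl
  rw [hr]
  infer_instance

/-- The identity of measures for smooth entries indexed by `Fin n`. -/
theorem G4_meas (hX : CompactSpace X) {C : Calc X n} (hG : Good K C) {B : Set X} {ρ : X → ℝ}
    (hB : IsPot K.g B ρ) {c : ℝ} (hc : 0 < c) {u1 u0 : Fin n → X → ℝ} (i : Fin n)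
    (h1 : ∀ j, SPsh K (u1 j)) (h0 : ∀ j, SPsh K (u0 j)) (h1i : u1 i = fun x => c * ρ x)
    (h0i : u0 i = fun _ => 0) (hj : ∀ j, j ≠ i → u1 j = u0 j) :
    (C.M (Finset.univ.val.map u1)).restrict B =
      ENNReal.ofReal (1 + c) • (C.M (Finset.univ.val.map u0)).restrict B := by
  have := hX
  have hf1 := C.fin (Finset.univ.val.map u1)
  have hf0 := C.fin (Finset.univ.val.map u0)
  have hf2 := G4_smul_fin (C.M (Finset.univ.val.map u0)) (1 + c)
  have hi : ∀ f : X → ℝ, ∫ x, f x ∂(ENNReal.ofReal (1 + c) • C.M (Finset.univ.val.map u0))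
      = (1 + c) * ∫ x, f x ∂(C.M (Finset.univ.val.map u0)) := by
    intro f
    rw [integral_smul_measure, ENNReal.toReal_ofReal (by linarith), smul_eq_mul]
  rw [← Measure.restrict_smul]
  apply le_antisymm
  · apply restrict_le_of_int hB.opn
    intro f hf _ hfs
    rw [hi, G4_global hX hG hB i h1 h0 h1i h0i hj hf hfs]
  · apply restrict_le_of_int hB.opn
    intro f hf _ hfs
    rw [hi, G4_global hX hG hB i h1 h0 h1i h0i hj hf hfs]

end G4aux

theorem G4_exists_fun {α : Type*} {m : ℕ} {Θ : Multiset α} (h : Multiset.card Θ = m) :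
    ∃ v : Fin m → α, (Finset.univ.val.map v) = Θ := by
  obtain ⟨l, rfl⟩ := Quot.exists_rep Θ
  have hl : l.length = m := h
  subst hl
  refine ⟨l.get, ?_⟩
  rw [Fin.univ_val_map, List.ofFn_get]
  rfl

theorem G4_cons {α : Type*} {m : ℕ} (a : α) (v : Fin m → α) :
    Finset.univ.val.map (Fin.cons a v : Fin (m + 1) → α) = a ::ₘ Finset.univ.val.map v := by
  rw [Fin.univ_val_map, Fin.univ_val_map, List.ofFn_succ]
  simp only [Fin.cons_zero, Fin.cons_succ]
  rfl

variable {n : ℕ} {X : CMfd n} {K : Kahler X}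

/-- The formula for smooth entries. -/
theorem pot_smooth (hn : 0 < n) (hX : CompactSpace X) {C : Calc X n} (hG : Good K C)
    {B : Set X} {ρ : X → ℝ} (hρ : Sm ρ) (hB : IsPot K.g B ρ) {c : ℝ} (hc : 0 < c)
    (hcρ : SPsh K fun x => c * ρ x) {Θ : Multiset (X → ℝ)} (hΘ : Multiset.card Θ + 1 = n)
    (hΘ' : ∀ u ∈ Θ, SPsh K u) :
    (C.M ((fun x => c * ρ x) ::ₘ Θ)).restrict B =
      ENNReal.ofReal (1 + c) • (C.M ((fun _ => 0) ::ₘ Θ)).restrict B := by
  obtain ⟨m, rfl⟩ : ∃ m, n = m + 1 := ⟨n - 1, by omega⟩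
  obtain ⟨v, hv⟩ := G4_exists_fun (m := m) (Θ := Θ) (by omega)
  have hvS : ∀ j, SPsh K (v j) := by
    intro j
    apply hΘ'
    rw [← hv]
    exact Multiset.mem_map_of_mem v (Finset.mem_univ j)
  have key := G4_meas hX hG hB hc (u1 := Fin.cons (fun x => c * ρ x) v)
    (u0 := Fin.cons (fun _ => (0 : ℝ)) v) 0
    (fun j => by
      refine Fin.cases ?_ (fun j => ?_) j
      · rw [Fin.cons_zero]; exact hcρ
      · rw [Fin.cons_succ]; exact hvS j)
    (fun j => by
      refine Fin.cases ?_ (fun j => ?_) j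
      · rw [Fin.cons_zero]; exact SPsh.zero K
      · rw [Fin.cons_succ]; exact hvS j)
    (by rw [Fin.cons_zero]) (by rw [Fin.cons_zero])
    (fun j => by
      refine Fin.cases ?_ (fun j _ => ?_) j
      · intro h; exact absurd rfl h
      · rw [Fin.cons_succ, Fin.cons_succ])
  rw [G4_cons, G4_cons, hv] at key
  exact key

/-- Passage to bounded entries, for a factor `c` with `c ρ` smooth and `ω`-psh. -/
theorem G4_bdd (hn : 0 < n) (hX : CompactSpace X) {C : Calc X n} (hG : Good K C)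
    {B : Set X} {ρ : X → ℝ} (hρ : Sm ρ) (hB : IsPot K.g B ρ) {c : ℝ} (hc : 0 < c)
    (hcρ : SPsh K fun x => c * ρ x) {Θ : Multiset (X → ℝ)} (hΘ : C.Ok Θ) :
    (C.M ((fun x => c * ρ x) ::ₘ Θ)).restrict B =
      ENNReal.ofReal (1 + c) • (C.M ((fun _ => 0) ::ₘ Θ)).restrict B := by
  have := hX
  have hex : ∀ u : X → ℝ, ∃ s : ℕ → X → ℝ, u ∈ C.P → ((∀ j, SPsh K (s j)) ∧ Antitone s ∧
      ∀ x, Tendsto (fun j => s j x) atTop (𝓝 (u x))) := by
    intro u
    by_cases hu : u ∈ C.P
    · obtain ⟨s, hs⟩ := exists_reg hn hX K (hG.mem.1 hu)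
      exact ⟨s, fun _ => hs⟩
    · exact ⟨fun _ => u, fun h => absurd h hu⟩
  choose s hs using hex
  have hP : ∀ {w : X → ℝ}, SPsh K w → w ∈ C.P := fun {w} hw => hG.mem.2 (hw.bpsh hn hX)
  have hdec : ∀ u ∈ C.P, Dec C.P (s u, u) := by
    intro u hu
    obtain ⟨h1, h2, h3⟩ := hs u hu
    exact ⟨fun j => hP (h1 j), hu, fun x i j hij => h2 hij x, h3⟩
  have hcst : ∀ w ∈ C.P, Dec C.P ((fun _ => w), w) := by
    intro w hw
    exact ⟨fun _ => hw, hw, fun x i j _ => le_refl _, fun x => tendsto_const_nhds⟩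
  have h0P : (fun _ : X => (0 : ℝ)) ∈ C.P := C.P_zero
  have h1P : (fun _ : X => (1 : ℝ)) ∈ C.P := C.const_mem 1
  -- convergence of the measures with first entry `w`
  have hconv : ∀ w ∈ C.P, ∀ f : X → ℝ, Continuous f →
      Tendsto (fun j => ∫ x, f x ∂(C.M (w ::ₘ Θ.map fun u => s u j))) atTop
        (𝓝 (∫ x, f x ∂(C.M (w ::ₘ Θ)))) := by
    intro w hw f hf
    have h := C.conv ((fun _ => fun _ : X => (1 : ℝ)), fun _ : X => (1 : ℝ)) (hcst _ h1P)
      ((((fun _ => w), w) : (ℕ → X → ℝ) × (X → ℝ)) ::ₘ Θ.map fun u => (s u, u))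
      (by rw [Multiset.card_cons, Multiset.card_map]; exact hΘ.1)
      (by
        intro q hq
        rcases Multiset.mem_cons.1 hq with rfl | hq
        · exact hcst w hw
        · obtain ⟨u, hu, rfl⟩ := Multiset.mem_map.1 hq
          exact hdec u (hΘ.2 u hu)) f hf
    simp only [mul_one, Multiset.map_cons, Multiset.map_map, Function.comp_def,
      Multiset.map_id'] at h
    exact h
  have hf0 := C.fin ((fun _ : X => (0 : ℝ)) ::ₘ Θ)
  have hf1 := C.fin ((fun x : X => c * ρ x) ::ₘ Θ)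
  have hf2 := G4_smul_fin (C.M ((fun _ : X => (0 : ℝ)) ::ₘ Θ)) (1 + c)
  have hr0 : 0 ≤ 1 + c := by linarith
  rw [← Measure.restrict_smul]
  refine ulim_open (F := atTop)
    (ν := fun j => C.M ((fun x => c * ρ x) ::ₘ Θ.map fun u => s u j))
    (ν' := fun j => ENNReal.ofReal (1 + c) • C.M ((fun _ => 0) ::ₘ Θ.map fun u => s u j))
    (fun j => C.fin _) (fun j => ?_) (hconv _ (hP hcρ)) ?_ hB.opn
    (Eventually.of_forall fun j => ?_)
  · have := C.fin ((fun _ : X => (0 : ℝ)) ::ₘ Θ.map fun u => s u j)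
    exact G4_smul_fin _ _
  · intro f hf
    simp only [integral_smul_measure, ENNReal.toReal_ofReal hr0]
    exact (hconv _ h0P f hf).const_smul (1 + c)
  · rw [Measure.restrict_smul]
    apply pot_smooth hn hX hG hρ hB hc hcρ
    · rw [Multiset.card_map]; exact hΘ.1
    · intro w hw
      obtain ⟨u, hu, rfl⟩ := Multiset.mem_map.1 hw
      exact (hs u (hΘ.2 u hu)).1 j

/-- Cancellation in `ℝ≥0∞`. -/
theorem G4_cancel {x y : ENNReal} (hy : y ≠ ⊤) {t c : ℝ} (ht : 0 < t) (ht1 : t ≤ 1) (hc : 0 < c)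
    (h : ENNReal.ofReal (1 + t * c) * y = ENNReal.ofReal t * x + ENNReal.ofReal (1 - t) * y) :
    x = ENNReal.ofReal (1 + c) * y := by
  have e : ENNReal.ofReal (1 + t * c) * y
      = ENNReal.ofReal t * (ENNReal.ofReal (1 + c) * y) + ENNReal.ofReal (1 - t) * y := by
    rw [← mul_assoc, ← ENNReal.ofReal_mul ht.le, ← add_mul,
      ← ENNReal.ofReal_add (by positivity) (by linarith)]
    congr 2
    ring
  rw [e] at h
  have h2 : ENNReal.ofReal t * (ENNReal.ofReal (1 + c) * y) = ENNReal.ofReal t * x :=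
    (ENNReal.add_left_inj (ENNReal.mul_ne_top ENNReal.ofReal_ne_top hy)).1 h
  exact ((ENNReal.mul_right_inj (by simpa using ht) ENNReal.ofReal_ne_top).1 h2).symm

theorem good_pot (hn : 0 < n) (hX : CompactSpace X) {C : Calc X n}
    (hG : Good K C) {B : Set X} {ρ : X → ℝ} (hρ : Sm ρ) (hB : IsPot K.g B ρ) : C.Pot B ρ := by
  have := hX
  refine ⟨hB.opn, ?_, ?_⟩
  · rw [hG.S]
    exact hρ
  · intro c hc hcP Θ hΘ
    -- a smaller factor
    obtain ⟨D, hD, hDρ⟩ := exists_scale hX K hρ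
    set t : ℝ := min 1 (1 / (D * c)) with ht
    have ht0 : 0 < t := lt_min one_pos (by positivity)
    have ht1 : t ≤ 1 := min_le_left _ _
    have htc : t * c * D ≤ 1 := by
      have h1 : t ≤ 1 / (D * c) := min_le_right _ _
      rw [le_div_iff₀ (by positivity)] at h1
      linarith
    have hS : SPsh K (fun x => (t * c) * ρ x) := by
      have h := SPsh.convex hDρ (SPsh.zero K) (t := t * c * D)
        ⟨by positivity, htc⟩
      have e : (fun x => t * c * D * (ρ x / D) + (1 - t * c * D) * 0) = fun x => (t * c) * ρ x := by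
        funext x
        field_simp
        ring
      rw [e] at h
      exact h
    have hb := G4_bdd hn hX hG hρ hB (c := t * c) (by positivity) hS hΘ
    have ha := C.affine Θ hΘ.1 hΘ.2 _ hcP _ C.P_zero t ht0.le ht1
    have e2 : (fun x => t * (c * ρ x) + (1 - t) * 0) = fun x => t * c * ρ x := by
      funext x
      ring
    rw [e2] at ha
    rw [ha] at hb
    have hf0 := C.fin ((fun _ : X => (0 : ℝ)) ::ₘ Θ)
    refine Measure.ext fun A hA => ?_
    have hb' := congrArg (fun μ : Measure X => μ A) hb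
    simp only [Measure.restrict_apply hA, Measure.add_apply, Measure.smul_apply,
      smul_eq_mul] at hb'
    rw [Measure.smul_apply, Measure.restrict_apply hA, Measure.restrict_apply hA, smul_eq_mul]
    exact G4_cancel (measure_ne_top _ _) ht0 ht1 hc hb'.symm

end Pool.Agent.DMA
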