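import Pool.Agent.Lib.DMA.G4
import Pool.Agent.Lib.K708.Base

/-! # DMA, row G5: local formula for bounded functions which are smooth on an open set -/

set_option autoImplicit false
set_option linter.unusedSectionVars false

open scoped Manifold ContDiff Topology ComplexOrder
open Set Filter MeasureTheory

noncomputable section

namespace Pool.Agent.DMA

open Pool.Agent.K708 (E CMfd)

variable {n : ℕ} {X : CMfd n} {K : Kahler X}

/-! ## G5: the local formula for bounded functions which are smooth on an open set -/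

private theorem G5_ra {ψ : OpenPartialHomeomorph X (E n)} (hψ : ψ ∈ CA X) :
    ψ ∈ IsManifold.maximalAtlas 𝓘(ℝ, E n) ∞ X := by
  have key : ∀ g : OpenPartialHomeomorph (E n) (E n), g ∈ contDiffGroupoid ω 𝓘(ℂ, E n) →
      g ∈ contDiffGroupoid ∞ 𝓘(ℝ, E n) := by
    intro g hg
    rw [contDiffGroupoid, mem_groupoid_of_pregroupoid] at hg ⊢
    have h1 : ContDiffOn ℂ ω g g.source := by simpa [contDiffPregroupoid] using hg.1
    have h2 : ContDiffOn ℂ ω g.symm g.target := by simpa [contDiffPregroupoid] using hg.2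
    refine ⟨?_, ?_⟩
    · simpa [contDiffPregroupoid] using (h1.restrict_scalars ℝ).of_le le_top
    · simpa [contDiffPregroupoid] using (h2.restrict_scalars ℝ).of_le le_top
  intro e' he'
  exact ⟨key _ (hψ e' he').1, key _ (hψ e' he').2⟩

private theorem G5_loc {ψ : OpenPartialHomeomorph X (E n)} (hψ : ψ ∈ CA X) {A : Set X}
    {g : X → ℝ} (hg : ContMDiffOn 𝓘(ℝ, E n) 𝓘(ℝ, ℝ) ∞ g A) :
    ContDiffOn ℝ ∞ (fun z => g (ψ.symm z)) (ψ.target ∩ ψ.symm ⁻¹' A) := by
  have h1 : ContMDiffOn 𝓘(ℝ, E n) 𝓘(ℝ, E n) ∞ ψ.symm ψ.target :=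
    contMDiffOn_symm_of_mem_maximalAtlas (G5_ra hψ)
  have h2 := hg.comp' h1
  exact contMDiffOn_iff_contDiffOn.1 h2

private theorem G5_D2_cont {O : Set (E n)} (hO : IsOpen O) {g : E n → ℝ}
    (hg : ContDiffOn ℝ ∞ g O) : ContinuousOn (D2 g) O := by
  have h1 : ContDiffOn ℝ ∞ (fderiv ℝ g) O := hg.fderiv_of_isOpen hO (by simp)
  exact h1.continuousOn_fderiv_of_isOpen hO (by simp)

private theorem G5_CH_cont {O : Set (E n)} (hO : IsOpen O) {g : E n → ℝ}
    (hg : ContDiffOn ℝ ∞ g O) : ContinuousOn (CH g) O := by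
  have h := G5_D2_cont hO hg
  have h2 : ∀ a b : E n, ContinuousOn (fun z => ((D2 g z a b : ℝ) : ℂ)) O := fun a b =>
    Complex.continuous_ofReal.comp_continuousOn
      ((h.clm_apply continuousOn_const).clm_apply continuousOn_const)
  refine continuousOn_pi.2 fun j => continuousOn_pi.2 fun k => ?_
  exact (((h2 _ _).add (h2 _ _)).add (continuousOn_const.mul ((h2 _ _).sub (h2 _ _)))).div_const 4

private theorem G5_CH_congr {g g' : E n → ℝ} {z : E n} (h : g =ᶠ[𝓝 z] g') : CH g z = CH g' z := by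
  have h1 : D2 g z = D2 g' z := h.fderiv.fderiv_eq
  funext j k
  simp only [CH_D2, h1]

private theorem G5_D2_affine {O : Set (E n)} (hO : IsOpen O) {g g' : E n → ℝ}
    (hg : ContDiffOn ℝ ∞ g O) (hg' : ContDiffOn ℝ ∞ g' O) (c d : ℝ) {z : E n} (hz : z ∈ O) :
    D2 (fun w => c * g w + d * g' w) z = c • D2 g z + d • D2 g' z := by
  have hd : ∀ w ∈ O, DifferentiableAt ℝ g w := fun w hw =>
    (hg.contDiffAt (hO.mem_nhds hw)).differentiableAt (by simp)
  have hd' : ∀ w ∈ O, DifferentiableAt ℝ g' w := fun w hw =>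
    (hg'.contDiffAt (hO.mem_nhds hw)).differentiableAt (by simp)
  have h1 : ∀ w ∈ O, fderiv ℝ (fun w => c * g w + d * g' w) w =
      c • fderiv ℝ g w + d • fderiv ℝ g' w := by
    intro w hw
    exact (((hd w hw).hasFDerivAt.const_mul c).add ((hd' w hw).hasFDerivAt.const_mul d)).fderiv
  have h2 : fderiv ℝ (fun w => c * g w + d * g' w) =ᶠ[𝓝 z]
      fun w => c • fderiv ℝ g w + d • fderiv ℝ g' w := by
    filter_upwards [hO.mem_nhds hz] with w hw using h1 w hw
  have e1 : ContDiffOn ℝ ∞ (fderiv ℝ g) O := hg.fderiv_of_isOpen hO (by simp)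
  have e2 : ContDiffOn ℝ ∞ (fderiv ℝ g') O := hg'.fderiv_of_isOpen hO (by simp)
  have f1 : DifferentiableAt ℝ (fderiv ℝ g) z :=
    (e1.contDiffAt (hO.mem_nhds hz)).differentiableAt (by simp)
  have f2 : DifferentiableAt ℝ (fderiv ℝ g') z :=
    (e2.contDiffAt (hO.mem_nhds hz)).differentiableAt (by simp)
  unfold D2
  rw [h2.fderiv_eq]
  exact ((f1.hasFDerivAt.const_smul c).add (f2.hasFDerivAt.const_smul d)).fderiv

private theorem G5_CH_affine {O : Set (E n)} (hO : IsOpen O) {g g' : E n → ℝ}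
    (hg : ContDiffOn ℝ ∞ g O) (hg' : ContDiffOn ℝ ∞ g' O) (c d : ℝ) {z : E n} (hz : z ∈ O) :
    CH (fun w => c * g w + d * g' w) z = (c : ℂ) • CH g z + (d : ℂ) • CH g' z := by
  have h1 := G5_D2_affine hO hg hg' c d hz
  funext j k
  simp only [CH_D2, h1, Matrix.add_apply, Matrix.smul_apply, add_apply,
    smul_apply, smul_eq_mul, Complex.ofReal_add, Complex.ofReal_mul]
  ring

private theorem G5_mixD (H : Fin n → Matrix (Fin n) (Fin n) ℂ) (i : Fin n)
    (A B : Matrix (Fin n) (Fin n) ℂ) (c d : ℂ) :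
    mixD (Function.update H i (c • A + d • B)) =
      c * mixD (Function.update H i A) + d * mixD (Function.update H i B) := by
  have key : ∀ (M : Matrix (Fin n) (Fin n) ℂ) (σ τ : Equiv.Perm (Fin n)),
      ∏ j, Function.update H i M j (σ j) (τ j) =
        M (σ i) (τ i) * ∏ j ∈ Finset.univ \ {i}, H j (σ j) (τ j) := by
    intro M σ τ
    have h1 : ∀ j, Function.update H i M j (σ j) (τ j) =
        Function.update (fun j => H j (σ j) (τ j)) i (M (σ i) (τ i)) j := by
      intro j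
      by_cases hj : j = i
      · subst hj
        simp
      · simp [Function.update_of_ne hj]
    simp_rw [h1]
    exact Finset.prod_update_of_mem (Finset.mem_univ i) _ _
  unfold mixD
  simp_rw [key, Matrix.add_apply, Matrix.smul_apply, smul_eq_mul]
  rw [← mul_div_assoc, ← mul_div_assoc, ← add_div]
  congr 1
  rw [Finset.mul_sum, Finset.mul_sum, ← Finset.sum_add_distrib]
  refine Finset.sum_congr rfl fun σ _ => ?_
  rw [Finset.mul_sum, Finset.mul_sum, ← Finset.sum_add_distrib]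
  refine Finset.sum_congr rfl fun τ _ => ?_
  ring

private theorem G5_mixD_cont {O : Set (E n)} {H : Fin n → E n → Matrix (Fin n) (Fin n) ℂ}
    (hH : ∀ i, ContinuousOn (H i) O) : ContinuousOn (fun z => mixD fun i => H i z) O := by
  unfold mixD
  refine ContinuousOn.div_const ?_ _
  refine continuousOn_finsetSum _ fun σ _ => continuousOn_finsetSum _ fun τ _ => ?_
  refine continuousOn_const.mul (continuousOn_finsetProd _ fun i _ => ?_)
  exact continuousOn_pi.1 (continuousOn_pi.1 (hH i) (σ i)) (τ i)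

/-- The local density. -/
private def G5_F (ρ : X → ℝ) (ψ : OpenPartialHomeomorph X (E n)) (f : X → ℝ)
    (u : Fin n → X → ℝ) (z : E n) : ℝ :=
  f (ψ.symm z) * (mixD fun i => CH (fun w => ρ (ψ.symm w) + u i (ψ.symm w)) z).re

private theorem G5_open {ψ : OpenPartialHomeomorph X (E n)} {V : Set X} (hV : IsOpen V) :
    IsOpen (ψ.target ∩ ψ.symm ⁻¹' V) := ψ.isOpen_inter_preimage_symm hV

private theorem G5_int (hX : CompactSpace X) {U A : Set X} {ρ : X → ℝ}
    {ψ : OpenPartialHomeomorph X (E n)} (hψ : ψ ∈ CA X) (hρ : IsPot K.g U ρ) (hA : IsOpen A)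
    {u : Fin n → X → ℝ} (hs : ∀ i, ContMDiffOn 𝓘(ℝ, E n) 𝓘(ℝ, ℝ) ∞ (u i) A) {f : X → ℝ}
    (hf : Continuous f) (ht : tsupport f ⊆ ψ.source ∩ U ∩ A) :
    IntegrableOn (G5_F ρ ψ f u) (ψ.target ∩ ψ.symm ⁻¹' (U ∩ A)) := by
  have hT : IsOpen (ψ.target ∩ ψ.symm ⁻¹' (U ∩ A)) := G5_open (hρ.opn.inter hA)
  have hcont : ContinuousOn (G5_F ρ ψ f u) (ψ.target ∩ ψ.symm ⁻¹' (U ∩ A)) := by
    unfold G5_F
    refine ContinuousOn.mul ?_ ?_
    · exact hf.comp_continuousOn (ψ.continuousOn_symm.mono inter_subset_left)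
    · refine Complex.continuous_re.comp_continuousOn (G5_mixD_cont fun i => ?_)
      refine G5_CH_cont hT ?_
      have h1 := G5_loc hψ (hρ.smooth.mono (inter_subset_left : U ∩ A ⊆ U))
      have h2 := G5_loc hψ ((hs i).mono (inter_subset_right : U ∩ A ⊆ A))
      exact h1.add h2
  have hK : IsCompact (ψ '' tsupport f) :=
    (isClosed_tsupport f).isCompact.image_of_continuousOn
      (ψ.continuousOn.mono fun x hx => (ht hx).1.1)
  have hKT : ψ '' tsupport f ⊆ ψ.target ∩ ψ.symm ⁻¹' (U ∩ A) := by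
    rintro _ ⟨x, hx, rfl⟩
    have h := ht hx
    refine ⟨ψ.map_source h.1.1, ?_⟩
    rw [mem_preimage, ψ.left_inv h.1.1]
    exact ⟨h.1.2, h.2⟩
  refine ((hcont.mono hKT).integrableOn_compact hK).of_forall_sdiff_eq_zero hT.measurableSet ?_
  rintro z ⟨hz, hzK⟩
  have h0 : f (ψ.symm z) = 0 := by
    refine image_eq_zero_of_notMem_tsupport fun h => hzK ⟨ψ.symm z, h, ψ.right_inv hz.1⟩
  simp only [G5_F, h0, zero_mul]

/-- The affine relation of the local densities. -/
private theorem G5_F_affine {U A B : Set X} {ρ : X → ℝ}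
    {ψ : OpenPartialHomeomorph X (E n)} (hψ : ψ ∈ CA X) (hρ : IsPot K.g U ρ) (hA : IsOpen A)
    (hB : IsOpen B) {u : Fin n → X → ℝ} (i : Fin n)
    (hs : ContMDiffOn 𝓘(ℝ, E n) 𝓘(ℝ, ℝ) ∞ (u i) A) {f : X → ℝ}
    (htB : tsupport f ⊆ B) {v : X → ℝ} {c : ℝ} (hv : ∀ x ∈ B, v x = c * u i x) {z : E n}
    (hz : z ∈ ψ.target ∩ ψ.symm ⁻¹' (U ∩ A)) :
    G5_F ρ ψ f (Function.update u i v) z =
      c * G5_F ρ ψ f u z + (1 - c) * G5_F ρ ψ f (Function.update u i fun _ => 0) z := by
  by_cases h0 : f (ψ.symm z) = 0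
  · simp only [G5_F, h0, zero_mul, mul_zero, add_zero]
  have hzB : ψ.symm z ∈ B := htB (subset_tsupport _ h0)
  have hT : IsOpen (ψ.target ∩ ψ.symm ⁻¹' (U ∩ A)) := G5_open (hρ.opn.inter hA)
  have hTB : IsOpen (ψ.target ∩ ψ.symm ⁻¹' B) := G5_open hB
  have hρs := G5_loc hψ (hρ.smooth.mono (inter_subset_left : U ∩ A ⊆ U))
  have hus := G5_loc hψ (hs.mono (inter_subset_right : U ∩ A ⊆ A))
  -- the update of the family of matrices
  have hupd : ∀ w : X → ℝ, (fun j => CH (fun y => ρ (ψ.symm y) +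
      Function.update u i w j (ψ.symm y)) z) =
      Function.update (fun j => CH (fun y => ρ (ψ.symm y) + u j (ψ.symm y)) z) i
        (CH (fun y => ρ (ψ.symm y) + w (ψ.symm y)) z) := by
    intro w
    funext j
    by_cases hj : j = i
    · subst hj
      simp
    · simp [Function.update_of_ne hj]
  have hCH : CH (fun y => ρ (ψ.symm y) + v (ψ.symm y)) z =
      (c : ℂ) • CH (fun y => ρ (ψ.symm y) + u i (ψ.symm y)) z +
        ((1 - c : ℝ) : ℂ) • CH (fun y => ρ (ψ.symm y) + (fun _ : X => (0 : ℝ)) (ψ.symm y)) z := by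
    rw [← G5_CH_affine hT (g := fun y => ρ (ψ.symm y) + u i (ψ.symm y))
      (g' := fun y => ρ (ψ.symm y) + (fun _ : X => (0 : ℝ)) (ψ.symm y)) (hρs.add hus)
      (hρs.add contDiffOn_const) c (1 - c) hz]
    refine G5_CH_congr ?_
    filter_upwards [hTB.mem_nhds ⟨hz.1, hzB⟩] with w hw
    rw [hv _ hw.2]
    ring
  have hself : (fun j => CH (fun y => ρ (ψ.symm y) + u j (ψ.symm y)) z) =
      Function.update (fun j => CH (fun y => ρ (ψ.symm y) + u j (ψ.symm y)) z) i
        (CH (fun y => ρ (ψ.symm y) + u i (ψ.symm y)) z) := by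
    rw [Function.update_eq_self]
  have hm := G5_mixD (fun j => CH (fun y => ρ (ψ.symm y) + u j (ψ.symm y)) z) i
    (CH (fun y => ρ (ψ.symm y) + u i (ψ.symm y)) z)
    (CH (fun y => ρ (ψ.symm y) + (fun _ : X => (0 : ℝ)) (ψ.symm y)) z) (c : ℂ) ((1 - c : ℝ) : ℂ)
  rw [← hCH, ← hself, ← hupd v, ← hupd fun _ => 0] at hm
  simp only [G5_F, hm, Complex.add_re, Complex.re_ofReal_mul]
  ring

private theorem G5_smooth_mul {A : Set X} (hA : IsOpen A) {χ W : X → ℝ}
    (hχ : ContMDiff 𝓘(ℝ, E n) 𝓘(ℝ, ℝ) ∞ χ) (hχA : tsupport χ ⊆ A)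
    (hW : ContMDiffOn 𝓘(ℝ, E n) 𝓘(ℝ, ℝ) ∞ W A) :
    ContMDiff 𝓘(ℝ, E n) 𝓘(ℝ, ℝ) ∞ fun x => χ x * W x := by
  intro x
  by_cases hx : x ∈ A
  · exact (hχ x).mul (hW.contMDiffAt (hA.mem_nhds hx))
  · have h1 : (tsupport χ)ᶜ ∈ 𝓝 x :=
      (isClosed_tsupport χ).isOpen_compl.mem_nhds fun h => hx (hχA h)
    have h2 : (fun x => χ x * W x) =ᶠ[𝓝 x] fun _ => 0 := by
      filter_upwards [h1] with y hy
      rw [image_eq_zero_of_notMem_tsupport hy, zero_mul]
    exact contMDiffAt_const.congr_of_eventuallyEq h2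

private theorem G5_map (u : Fin n → X → ℝ) (i : Fin n) (v : X → ℝ) :
    Finset.univ.val.map (Function.update u i v) =
      v ::ₘ (Finset.univ.erase i).val.map u := by
  have h1 : (Finset.univ : Finset (Fin n)).val = i ::ₘ (Finset.univ.erase i).val := by
    rw [← Finset.insert_val_of_notMem (Finset.notMem_erase i _),
      Finset.insert_erase (Finset.mem_univ i)]
  rw [h1, Multiset.map_cons, Function.update_self]
  congr 1
  refine Multiset.map_congr rfl fun j hj => ?_
  have hj2 : j ∈ Finset.univ.erase i := hj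
  have hji : j ≠ i := Finset.ne_of_mem_erase hj2
  rw [Function.update_of_ne hji]

private theorem G5_map' (u : Fin n → X → ℝ) (i : Fin n) :
    Finset.univ.val.map u = u i ::ₘ (Finset.univ.erase i).val.map u := by
  have h := G5_map u i (u i)
  rwa [Function.update_eq_self] at h

private theorem G5_main (hn : 0 < n) (hX : CompactSpace X) {C : Calc X n}
    (hG : Good K C) {A : Set X} (hA : IsOpen A) {U : Set X} {ρ : X → ℝ}
    (hρ : IsPot K.g U ρ) {ψ : OpenPartialHomeomorph X (E n)} (hψ : ψ ∈ CA X) {f : X → ℝ}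
    (hf : Continuous f) (ht : tsupport f ⊆ ψ.source ∩ U ∩ A) (k : ℕ) :
    ∀ (u : Fin n → X → ℝ), (∀ i, BPsh K (u i)) →
      (∀ i, ContMDiffOn 𝓘(ℝ, E n) 𝓘(ℝ, ℝ) ∞ (u i) A) →
      (∃ s : Finset (Fin n), s.card ≤ k ∧ ∀ j, j ∉ s → SPsh K (u j)) →
      ∫ x, f x ∂(C.M (Finset.univ.val.map u)) =
        ∫ z in ψ.target ∩ ψ.symm ⁻¹' (U ∩ A), G5_F ρ ψ f u z := by
  have hBop : IsOpen (ψ.target ∩ ψ.symm ⁻¹' (U ∩ A)) := G5_open (hρ.opn.inter hA)
  have hz0 : SPsh K (fun _ : X => (0 : ℝ)) := SPsh.zero K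
  have base : ∀ (u : Fin n → X → ℝ), (∀ i, SPsh K (u i)) →
      ∫ x, f x ∂(C.M (Finset.univ.val.map u)) =
        ∫ z in ψ.target ∩ ψ.symm ⁻¹' (U ∩ A), G5_F ρ ψ f u z := by
    intro u hu
    rw [hG.loc u hu U ρ hρ ψ hψ f hf fun x hx => ⟨(ht hx).1, mem_univ _⟩]
    have hop : IsOpen (ψ.target ∩ ψ.symm ⁻¹' (U ∩ univ)) :=
      G5_open (hρ.opn.inter isOpen_univ)
    refine setIntegral_eq_of_subset_of_forall_sdiff_eq_zero hop.measurableSet
      (fun z hz => ⟨hz.1, hz.2.1, mem_univ _⟩) ?_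
    rintro z ⟨hz, hz'⟩
    have h0 : f (ψ.symm z) = 0 := by
      refine image_eq_zero_of_notMem_tsupport fun h => hz' ⟨hz.1, hz.2.1, (ht h).2⟩
    rw [h0, zero_mul]
  induction k with
  | zero =>
    intro u _ _ hk
    obtain ⟨s, hs, hsu⟩ := hk
    refine base u fun j => hsu j ?_
    rw [Finset.card_eq_zero.1 (Nat.le_zero.1 hs)]
    exact Finset.notMem_empty j
  | succ k ih =>
    intro u hu hus hk
    obtain ⟨s, hs, hsu⟩ := hk
    by_cases hall : ∀ j, SPsh K (u j)
    · exact base u hall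
    push Not at hall
    obtain ⟨i, hi⟩ := hall
    have his : i ∈ s := by
      by_contra h
      exact hi (hsu i h)
    have hcard : (s.erase i).card ≤ k := by
      rw [Finset.card_erase_of_mem his]
      omega
    have hsmall : ∀ v : X → ℝ, SPsh K v →
        ∃ s : Finset (Fin n), s.card ≤ k ∧ ∀ j, j ∉ s → SPsh K (Function.update u i v j) := by
      intro v hv
      refine ⟨s.erase i, hcard, fun j hj => ?_⟩
      by_cases hji : j = i
      · subst hji
        simpa using hv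
      · rw [Function.update_of_ne hji]
        exact hsu j fun h => hj (Finset.mem_erase.2 ⟨hji, h⟩)
    -- the bump function
    obtain ⟨L, hL, hfL, hLA⟩ := exists_compact_between (isClosed_tsupport f).isCompact hA
      fun x hx => (ht hx).2
    obtain ⟨χ, hχS, h01, hχL, hχA⟩ := C.S_bump L A hL hA hLA
    have hχs : ContMDiff 𝓘(ℝ, E n) 𝓘(ℝ, ℝ) ∞ χ := by
      rw [hG.S] at hχS
      exact hχS
    have hg : ContMDiff 𝓘(ℝ, E n) 𝓘(ℝ, ℝ) ∞ fun x => χ x * u i x :=
      G5_smooth_mul hA hχs hχA (hus i)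
    obtain ⟨D, hD, hDP⟩ := exists_scale hX K (s := fun x => χ x * u i x) hg
    obtain ⟨c, hc, hc1, hvS⟩ : ∃ c : ℝ, 0 < c ∧ c ≤ 1 ∧
        SPsh K (fun x => c * (χ x * u i x)) := by
      refine ⟨min D⁻¹ 1, lt_min (inv_pos.2 hD) one_pos, min_le_right _ _, ?_⟩
      have h1 := SPsh.convex hDP hz0 (t := min D⁻¹ 1 * D)
        ⟨mul_nonneg (le_min (inv_pos.2 hD).le zero_le_one) hD.le, by
          calc min D⁻¹ 1 * D ≤ D⁻¹ * D := mul_le_mul_of_nonneg_right (min_le_left _ _) hD.le
            _ = 1 := inv_mul_cancel₀ hD.ne'⟩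
      convert h1 using 2 with x
      field_simp
      ring
    have hvB : BPsh K (fun x => c * (χ x * u i x)) := SPsh.bpsh hn hX hvS
    have h0B : BPsh K (fun _ : X => (0 : ℝ)) := SPsh.bpsh hn hX hz0
    have updB : ∀ v : X → ℝ, BPsh K v → ∀ j, BPsh K (Function.update u i v j) := by
      intro v hv j
      by_cases hji : j = i
      · subst hji
        simpa using hv
      · rw [Function.update_of_ne hji]
        exact hu j
    have updS : ∀ v : X → ℝ, ContMDiffOn 𝓘(ℝ, E n) 𝓘(ℝ, ℝ) ∞ v A →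
        ∀ j, ContMDiffOn 𝓘(ℝ, E n) 𝓘(ℝ, ℝ) ∞ (Function.update u i v j) A := by
      intro v hv j
      by_cases hji : j = i
      · subst hji
        simpa using hv
      · rw [Function.update_of_ne hji]
        exact hus j
    have e1 := ih (Function.update u i fun x => c * (χ x * u i x)) (updB _ hvB)
      (updS _ hvS.1.contMDiffOn) (hsmall _ hvS)
    have e2 := ih (Function.update u i fun _ => 0) (updB _ h0B)
      (updS _ contMDiffOn_const) (hsmall _ hz0)
    -- the measures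
    have hΘ : Multiset.card ((Finset.univ.erase i).val.map u) + 1 = n := by
      rw [Multiset.card_map]
      change (Finset.univ.erase i).card + 1 = n
      rw [Finset.card_erase_add_one (Finset.mem_univ i), Finset.card_univ, Fintype.card_fin]
    have hΘ' : ∀ w ∈ (Finset.univ.erase i).val.map u, w ∈ C.P := by
      intro w hw
      obtain ⟨j, -, rfl⟩ := Multiset.mem_map.1 hw
      exact hG.mem.2 (hu j)
    have m1 := C.affine _ hΘ hΘ' (u i) (hG.mem.2 (hu i)) (fun _ => 0) (hG.mem.2 h0B) c hc.le hc1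
    have m2 : ∫ x, f x ∂(C.M (Finset.univ.val.map
          (Function.update u i fun x => c * (χ x * u i x)))) =
        c * ∫ x, f x ∂(C.M (Finset.univ.val.map u)) +
          (1 - c) * ∫ x, f x ∂(C.M (Finset.univ.val.map (Function.update u i fun _ => 0))) := by
      have hcu : (fun x => c * u i x + (1 - c) * (fun _ : X => (0 : ℝ)) x) ∈ C.P :=
        C.P_conv _ (hG.mem.2 (hu i)) _ (hG.mem.2 h0B) c hc.le hc1
      have m3 := C.loc _ hΘ hΘ' _ (hG.mem.2 hvB) _ hcu (interior L) isOpen_interior (by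
        intro x hx
        simp only
        rw [hχL x (interior_subset hx)]
        ring)
      have hfi : ∀ ν : Measure X, ∫ x, f x ∂ν = ∫ x in interior L, f x ∂ν := by
        intro ν
        refine (setIntegral_eq_integral_of_forall_compl_eq_zero fun x hx => ?_).symm
        exact image_eq_zero_of_notMem_tsupport fun h => hx (hfL h)
      have hfint : ∀ (ν : Measure X) [IsFiniteMeasure ν], Integrable f ν := by
        intro ν _
        exact hf.integrable_of_hasCompactSupport (HasCompactSupport.of_compactSpace f)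
      rw [G5_map, G5_map, G5_map' u i, hfi, m3, ← hfi, m1,
        integral_add_measure ((hfint _).smul_measure ENNReal.ofReal_ne_top)
        ((hfint _).smul_measure ENNReal.ofReal_ne_top), integral_smul_measure,
        integral_smul_measure, ENNReal.toReal_ofReal hc.le,
        ENNReal.toReal_ofReal (by linarith), smul_eq_mul, smul_eq_mul]
    -- the local densities
    have i1 := G5_int hX hψ hρ hA hus hf ht
    have i2 := G5_int hX hψ hρ hA (updS _ contMDiffOn_const) hf ht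
      (u := Function.update u i fun _ => 0)
    have m4 : ∫ z in ψ.target ∩ ψ.symm ⁻¹' (U ∩ A),
        G5_F ρ ψ f (Function.update u i fun x => c * (χ x * u i x)) z =
        c * (∫ z in ψ.target ∩ ψ.symm ⁻¹' (U ∩ A), G5_F ρ ψ f u z) +
          (1 - c) * (∫ z in ψ.target ∩ ψ.symm ⁻¹' (U ∩ A),
            G5_F ρ ψ f (Function.update u i fun _ => 0) z) := by
      rw [← integral_const_mul, ← integral_const_mul,
        ← integral_add (i1.const_mul c) (i2.const_mul (1 - c))]
      refine setIntegral_congr_fun hBop.measurableSet fun z hz => ?_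
      refine G5_F_affine hψ hρ hA isOpen_interior (B := interior L) i (hus i) hfL
        (fun x hx => ?_) hz
      rw [hχL x (interior_subset hx), one_mul]
    rw [m4, m2, e2] at e1
    have h3 : c * ∫ x, f x ∂(C.M (Finset.univ.val.map u)) =
        c * ∫ z in ψ.target ∩ ψ.symm ⁻¹' (U ∩ A), G5_F ρ ψ f u z := by linarith
    exact mul_left_cancel₀ hc.ne' h3

theorem loc_bdd (hn : 0 < n) (hX : CompactSpace X) {C : Calc X n} (hG : Good K C)
    {A : Set X} (hA : IsOpen A) {u : Fin n → X → ℝ} (hu : ∀ i, BPsh K (u i))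
    (hs : ∀ i, ContMDiffOn 𝓘(ℝ, E n) 𝓘(ℝ, ℝ) ∞ (u i) A) :
    LocMix K A u (C.M (Finset.univ.val.map u)) := by
  intro U ρ hρ ψ hψ f hf ht
  exact G5_main hn hX hG hA hρ hψ hf ht n u hu hs
    ⟨Finset.univ, by simp, fun j hj => absurd (Finset.mem_univ j) hj⟩

end Pool.Agent.DMA
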