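import Pool.Agent.Lib.DMA.G5

/-! # DMA, row G5b: mass bound -/

set_option autoImplicit false

open scoped Manifold ContDiff Topology ComplexOrder
open Set Filter MeasureTheory

noncomputable section

namespace Pool.Agent.DMA

open Pool.Agent.K708 (E CMfd)

variable {n : ℕ} {X : CMfd n} {K : Kahler X}

namespace G5b

/-- The integral is at most the upper integral. -/
private theorem ofReal_integral_le {Y : Type*} [MeasurableSpace Y] {μ : Measure Y} (g : Y → ℝ) :
    ENNReal.ofReal (∫ y, g y ∂μ) ≤ ∫⁻ y, ENNReal.ofReal (g y) ∂μ := by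
  by_cases hg : Integrable g μ
  · rw [integral_eq_lintegral_pos_part_sub_lintegral_neg_part hg]
    refine (ENNReal.ofReal_le_ofReal (sub_le_self _ ENNReal.toReal_nonneg)).trans ?_
    exact ENNReal.ofReal_toReal_le
  · rw [integral_undef hg, ENNReal.ofReal_zero]
    exact zero_le

end G5b

/-- Mass bound on `A`. -/
theorem MA_le_of_smooth (hn : 0 < n) (hX : CompactSpace X) {C : Calc X n}
    (hG : Good K C) {A U : Set X} {W ρ : X → ℝ} {ψ : OpenPartialHomeomorph X (E n)}
    (hA : IsOpen A) (hW : BPsh K W) (hWs : ContMDiffOn 𝓘(ℝ, E n) 𝓘(ℝ, ℝ) ∞ W A)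
    (hψ : ψ ∈ CA X) (hρ : IsPot K.g U ρ) (hAU : A ⊆ ψ.source ∩ U) :
    C.MA W A ≤ ∫⁻ z in ψ.target ∩ ψ.symm ⁻¹' A,
      ENNReal.ofReal (CH (fun w => ρ (ψ.symm w) + W (ψ.symm w)) z).det.re := by
  haveI := hX
  have h1 := loc_bdd hn hX hG hA (u := fun _ => W) (fun _ => hW) (fun _ => hWs)
  have h2 : Finset.univ.val.map (fun _ : Fin n => W) = Multiset.replicate n W := by
    rw [Multiset.map_const']
    simp
  rw [h2] at h1
  haveI := C.fin (Multiset.replicate n W)
  haveI : IsFiniteMeasure (C.MA W) := C.fin (Multiset.replicate n W)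
  rw [hA.measure_eq_iSup_isCompact]
  refine iSup₂_le fun L hLA => iSup_le fun hL => ?_
  obtain ⟨χ, hχS, hχ01, hχ1, hχs⟩ := C.S_bump L A hL hA hLA
  have hχc : Continuous χ := C.S_cont χ hχS
  have hχi : Integrable χ (C.MA W) :=
    Integrable.of_bound hχc.aestronglyMeasurable 1 (Eventually.of_forall fun x => by
      rw [Real.norm_eq_abs, abs_of_nonneg (hχ01 x).1]
      exact (hχ01 x).2)
  have h4 : C.MA W L ≤ ENNReal.ofReal (∫ x, χ x ∂(C.MA W)) := by
    rw [ofReal_integral_eq_lintegral_ofReal hχi (Eventually.of_forall fun x => (hχ01 x).1),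
      ← lintegral_indicator_one hL.measurableSet]
    refine lintegral_mono fun x => ?_
    by_cases hx : x ∈ L
    · rw [indicator_of_mem hx, Pi.one_apply, hχ1 x hx, ENNReal.ofReal_one]
    · rw [indicator_of_notMem hx]
      exact zero_le
  refine h4.trans ?_
  have h5 := h1 U ρ hρ ψ hψ χ hχc fun x hx => ⟨hAU (hχs hx), hχs hx⟩
  change ∫ x, χ x ∂(C.MA W) = _ at h5
  rw [h5]
  refine (G5b.ofReal_integral_le _).trans ?_
  refine (lintegral_mono fun z => ?_).trans
    (lintegral_mono_set (inter_subset_inter_right _ (preimage_mono inter_subset_right)))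
  simp only [mixD_const]
  by_cases hz : 0 ≤ ((CH (fun w => ρ (ψ.symm w) + W (ψ.symm w)) z).det).re
  · exact ENNReal.ofReal_le_ofReal (mul_le_of_le_one_left hz (hχ01 _).2)
  · rw [ENNReal.ofReal_of_nonpos (mul_nonpos_of_nonneg_of_nonpos (hχ01 _).1 (not_le.1 hz).le)]
    exact zero_le

end Pool.Agent.DMA
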