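import Pool.Agent.Lib.DMA.G5b

/-! # DMA, row G6: balayage has no mass -/

set_option autoImplicit false

open scoped Manifold ContDiff Topology ComplexOrder
open Set Filter MeasureTheory

noncomputable section

namespace Pool.Agent.DMA

open Pool.Agent.K708 (E CMfd)

variable {n : ℕ} {X : CMfd n} {K : Kahler X}

namespace G6

/-- Smooth functions are dense. -/
theorem dense {Y : Type*} [TopologicalSpace Y] [CompactSpace Y] [T2Space Y]
    [MeasurableSpace Y] (C : Calc Y n) {f : Y → ℝ} (hf : Continuous f)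
    {ε : ℝ} (hε : 0 < ε) : ∃ g ∈ C.S, ∀ x, |g x - f x| ≤ ε := by
  let A : Subalgebra ℝ C(Y, ℝ) :=
    { carrier := {g | (g : Y → ℝ) ∈ C.S}
      mul_mem' := fun {a b} ha hb => C.S_mul _ ha _ hb
      add_mem' := fun {a b} ha hb => C.S_add _ ha _ hb
      algebraMap_mem' := fun r => C.S_const r }
  have hA : A.SeparatesPoints := by
    intro x y hxy
    obtain ⟨χ, hχ, _, h1, h2⟩ := C.S_bump {x} {y}ᶜ isCompact_singleton isOpen_compl_singleton
      (by rw [singleton_subset_iff]; exact hxy)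
    refine ⟨χ, ⟨⟨χ, C.S_cont χ hχ⟩, hχ, rfl⟩, ?_⟩
    have h3 : χ y = 0 := by
      by_contra h
      exact h2 (subset_tsupport χ h) rfl
    rw [h1 x rfl, h3]
    exact one_ne_zero
  obtain ⟨g, hg⟩ := ContinuousMap.exists_mem_subalgebra_near_continuous_of_separatesPoints A hA f
    hf ε hε
  exact ⟨fun x => g.1 x, g.2, fun x => (hg x).le⟩

/-- Convergence for smooth test functions. -/
theorem unif_smooth {Y : Type*} [TopologicalSpace Y] [CompactSpace Y] [T2Space Y]
    [SecondCountableTopology Y] [MeasurableSpace Y] [BorelSpace Y] {C : Calc Y n} {u : Y → ℝ}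
    (hu : u ∈ C.P) {w : ℕ → Y → ℝ} (hw : ∀ j, w j ∈ C.P)
    (hl : ∀ j x, |w j x - u x| ≤ 1 / ((j : ℝ) + 1)) {f : Y → ℝ} (hf : f ∈ C.S) :
    Tendsto (fun j => ∫ x, f x ∂(C.MA (w j))) atTop (𝓝 (∫ x, f x ∂(C.MA u))) := by
  obtain ⟨c, hc, hcf⟩ := C.S_small f hf
  rw [tendsto_iff_dist_tendsto_zero]
  have h1 : ∀ j : ℕ, dist (∫ x, f x ∂(C.MA (w j))) (∫ x, f x ∂(C.MA u)) ≤
      n * (2 * (1 / ((j : ℝ) + 1)) / c) * C.V := by
    intro j
    have h2 := Calc.chg (hw j) hu (hl j) hc hcf n 0 (by simp) (by simp)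
    rw [add_zero, add_zero] at h2
    exact h2
  refine squeeze_zero (fun _ => dist_nonneg) h1 ?_
  have h3 := ((((tendsto_one_div_add_atTop_nhds_zero_nat (𝕜 := ℝ)).const_mul 2).div_const
    c).const_mul (n : ℝ)).mul_const C.V
  simpa using h3

end G6

/-- Uniform limits. -/
theorem MA_unif {Y : Type*} [TopologicalSpace Y] [CompactSpace Y] [T2Space Y]
    [SecondCountableTopology Y] [MeasurableSpace Y] [BorelSpace Y] {C : Calc Y n} {u : Y → ℝ}
    (hu : u ∈ C.P) {w : ℕ → Y → ℝ} (hw : ∀ j, w j ∈ C.P)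
    (hl : ∀ j x, |w j x - u x| ≤ 1 / ((j : ℝ) + 1)) {f : Y → ℝ} (hf : Continuous f) :
    Tendsto (fun j => ∫ x, f x ∂(C.MA (w j))) atTop (𝓝 (∫ x, f x ∂(C.MA u))) := by
  have hV : ∀ v ∈ C.P, (C.MA v).real univ = C.V := by
    intro v hv
    exact C.mass _ (Multiset.card_replicate n v) (by
      intro a ha
      rw [Multiset.eq_of_mem_replicate ha]
      exact hv)
  have hV0 : 0 ≤ C.V := by
    rw [← hV u hu]
    exact measureReal_nonneg
  rw [Metric.tendsto_atTop]
  intro ε hε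
  obtain ⟨g, hg, hgf⟩ := G6.dense C hf (show 0 < ε / (4 * (C.V + 1)) by positivity)
  have hgc := C.S_cont g hg
  have hi : ∀ (ν : Measure Y) [IsFiniteMeasure ν] {s : Y → ℝ}, Continuous s → Integrable s ν := by
    intro ν _ s hs
    exact hs.integrable_of_hasCompactSupport (HasCompactSupport.of_compactSpace s)
  have key : ∀ v ∈ C.P, |∫ x, f x ∂(C.MA v) - ∫ x, g x ∂(C.MA v)| ≤ ε / 4 := by
    intro v hv
    rw [← integral_sub (hi _ hf) (hi _ hgc)]
    have h1 := norm_integral_le_of_norm_le_const (μ := C.MA v) (f := fun x => f x - g x)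
      (C := ε / (4 * (C.V + 1))) (ae_of_all _ fun x => by
        rw [Real.norm_eq_abs, abs_sub_comm]
        exact hgf x)
    rw [hV v hv] at h1
    refine h1.trans ?_
    rw [div_mul_eq_mul_div, div_le_div_iff₀ (by positivity) (by norm_num)]
    nlinarith
  obtain ⟨N, hN⟩ := (Metric.tendsto_atTop.1 (G6.unif_smooth hu hw hl hg)) (ε / 4) (by linarith)
  refine ⟨N, fun j hj => ?_⟩
  have h1 := hN j hj
  have h2 := abs_le.1 (key _ (hw j))
  have h3 := abs_le.1 (key _ hu)
  rw [Real.dist_eq] at h1 ⊢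
  have h4 := abs_lt.1 h1
  rw [abs_lt]
  constructor <;> linarith [h2.1, h2.2, h3.1, h3.2, h4.1, h4.2]

theorem bal_zero (hn : 0 < n) (hX : CompactSpace X) {C : Calc X n}
    (hG : Good K C) {B : Set X} (hB : IsOpen B) {f h : X → ℝ} (hb : IsBal K B f h) :
    C.MA h B = 0 := by
  have hh : h ∈ C.P := hG.mem.2 hb.bpsh
  have key : ∀ L ⊆ B, IsCompact L → C.MA h (interior L) = 0 := by
    intro L hLB hL
    have hstep := fun j : ℕ => hb.apx L hLB hL (1 / ((j : ℝ) + 1)) (by positivity)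
    choose A W ψ U ρ h1 h2 h3 h4 h5 h6 h7 h8 h9 h10 using hstep
    have hW : ∀ j, W j ∈ C.P := fun j => hG.mem.2 (h4 j)
    have hsmall : ∀ j, (C.MA (W j)).real (interior L) ≤ 1 / ((j : ℝ) + 1) := by
      intro j
      have e1 := (MA_le_of_smooth hn hX hG (h1 j) (h4 j) (h5 j) (h7 j) (h8 j) (h9 j)).trans (h10 j)
      have e2 : C.MA (W j) (interior L) ≤ ENNReal.ofReal (1 / ((j : ℝ) + 1)) :=
        (measure_mono (interior_subset.trans (h2 j))).trans e1
      exact ENNReal.toReal_le_of_le_ofReal (by positivity) e2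
    have h0 : (C.MA h).real (interior L) = 0 := by
      refine le_antisymm (le_of_forall_pos_le_add fun ε hε => ?_) measureReal_nonneg
      have e1 := ulim_open_le (F := atTop) (ν := fun j => C.MA (W j)) (l := C.MA h)
        (fun j => inferInstance) (fun s hs => MA_unif hh hW h6 hs) isOpen_interior
        (U := interior L) (half_pos hε)
      have e2 : ∀ᶠ j : ℕ in atTop, 1 / ((j : ℝ) + 1) < ε / 2 :=
        (tendsto_one_div_add_atTop_nhds_zero_nat (𝕜 := ℝ)).eventually_lt_const (half_pos hε)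
      obtain ⟨j, hj1, hj2⟩ := (e1.and e2).exists
      have := hsmall j
      linarith
    exact (measureReal_eq_zero_iff).1 h0
  refine measure_null_of_locally_null B fun x hx => ?_
  have : LocallyCompactSpace X := ChartedSpace.locallyCompactSpace (E n) X
  obtain ⟨L, hL, hxL, hLB⟩ := exists_compact_subset hB hx
  exact ⟨interior L, mem_nhdsWithin_of_mem_nhds (isOpen_interior.mem_nhds hxL), key L hLB hL⟩

end Pool.Agent.DMA
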