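import Pool.Agent.Lib.DMA.G6
import Pool.Agent.Lib.DMA.W3

/-! # DMA, row G7: balayage of bounded functions -/

set_option autoImplicit false

open scoped Manifold ContDiff Topology ComplexOrder
open Set Filter MeasureTheory

noncomputable section

namespace Pool.Agent.DMA

open Pool.Agent.K708 (E CMfd)

variable {n : ℕ} {X : CMfd n} {K : Kahler X}

/-- The balayage of one bounded `ω`-psh function. -/
private theorem exists_hat_one (hn : 0 < n) (hX : CompactSpace X) {C : Calc X n}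
    (hG : Good K C) {B : Set X} (hB : IsOpen B) (H : ∀ f, SPsh K f → ∃ h, IsBal K B f h)
    {f : X → ℝ} (hf : f ∈ C.P) :
    ∃ h ∈ C.P, (∀ x, x ∉ B → h x = f x) ∧
      (∀ g ∈ C.P, (∀ x, x ∉ B → g x ≤ f x) → ∀ x, g x ≤ h x) ∧ C.MA h B = 0 := by
  have hf' : BPsh K f := hG.mem.1 hf
  obtain ⟨c0, hc0⟩ := hf'.bdd
  obtain ⟨w, hw, -, hwa, hfw, hwl⟩ := diag hn hX (K := K) (u := fun _ => f) (fun _ => hf')
    (fun x => fun i j _ => le_refl _) (φ := fun x => ((f x : ℝ) : EReal))
    (fun x => tendsto_const_nhds) (fun _ _ => True)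
    (fun j => ⟨fun _ => c0 + 1, continuous_const,
      fun x => lt_of_le_of_lt (le_of_abs_le (hc0 x)) (lt_add_one _), fun w _ _ => trivial⟩)
  have hwl' : ∀ x, Tendsto (fun j => w j x) atTop (𝓝 (f x)) := fun x =>
    EReal.tendsto_coe.1 (hwl x)
  choose h hh using fun j => H (w j) (hw j)
  have ha : ∀ x, Antitone fun j => h j x := by
    intro x i j hij
    refine (hh i).max (h j) (hh j).bpsh (fun y hy => ?_) x
    rw [(hh j).eq y hy]
    exact hwa y hij
  have hfh : ∀ j x, f x ≤ h j x := fun j x => (hh j).max f hf' (fun y _ => (hfw j y).le) x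
  have hbb : ∀ x, BddBelow (range fun j => h j x) := by
    intro x
    refine ⟨f x, ?_⟩
    rintro _ ⟨j, rfl⟩
    exact hfh j x
  have hl : ∀ x, Tendsto (fun j => h j x) atTop (𝓝 (⨅ j, h j x)) := fun x =>
    tendsto_atTop_ciInf (ha x) (hbb x)
  have hmem : (fun x => ⨅ j, h j x) ∈ C.P := by
    refine C.P_lim h _ (fun j => hG.mem.2 (hh j).bpsh) ha hl ⟨-c0, fun x => ?_⟩
    exact le_ciInf fun j => le_trans (neg_le_of_abs_le (hc0 x)) (hfh j x)
  have hdec : Dec C.P (h, fun x => ⨅ j, h j x) :=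
    ⟨fun j => hG.mem.2 (hh j).bpsh, hmem, ha, hl⟩
  refine ⟨fun x => ⨅ j, h j x, hmem, fun x hx => ?_, fun g hg hgf x => ?_, ?_⟩
  · refine tendsto_nhds_unique (hl x) ?_
    have : (fun j => h j x) = fun j => w j x := funext fun j => (hh j).eq x hx
    rw [this]
    exact hwl' x
  · exact le_ciInf fun j => (hh j).max g (hG.mem.1 hg)
      (fun y hy => (hgf y hy).trans (hfw j y).le) x
  · have hfin : ∀ u : X → ℝ, IsFiniteMeasure (C.MA u) := fun u => C.fin _
    have := hfin (fun x => ⨅ j, h j x)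
    have hr : (C.MA (fun x => ⨅ j, h j x)).real B ≤ 0 := by
      refine le_of_forall_pos_le_add fun ε hε => ?_
      obtain ⟨j, hj⟩ := (ulim_open_le (F := atTop) (fun j => hfin (h j))
        (fun f hf => MA_conv hdec hf) hB hε).exists
      refine hj.trans ?_
      have : (C.MA (h j)).real B = 0 := by
        rw [Measure.real, bal_zero hn hX hG hB (hh j)]
        simp
      rw [this]
    have hr' : (C.MA (fun x => ⨅ j, h j x)).real B = 0 := le_antisymm hr measureReal_nonneg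
    rw [Measure.real, ENNReal.toReal_eq_zero_iff] at hr'
    exact hr'.resolve_right (measure_ne_top _ _)

theorem exists_hat (hn : 0 < n) (hX : CompactSpace X) {C : Calc X n}
    (hG : Good K C) {B : Set X} (hB : IsOpen B) (H : ∀ f, SPsh K f → ∃ h, IsBal K B f h) :
    ∃ hat, C.Bal B hat := by
  have key : ∀ f : X → ℝ, ∃ h : X → ℝ, f ∈ C.P → h ∈ C.P ∧ (∀ x, x ∉ B → h x = f x) ∧
      (∀ g ∈ C.P, (∀ x, x ∉ B → g x ≤ f x) → ∀ x, g x ≤ h x) ∧ C.MA h B = 0 := by
    intro f
    by_cases hf : f ∈ C.P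
    · obtain ⟨h, h1, h2⟩ := exists_hat_one hn hX hG hB H hf
      exact ⟨h, fun _ => ⟨h1, h2⟩⟩
    · exact ⟨f, fun h => absurd h hf⟩
  choose hat hhat using key
  exact ⟨hat, fun f hf => (hhat f hf).1, fun f hf => (hhat f hf).2.1,
    fun f hf => (hhat f hf).2.2.1, fun f hf => (hhat f hf).2.2.2⟩

end Pool.Agent.DMA
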