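import Pool.Agent.Lib.DMA.G7

/-! # DMA, row G8: full mass -/

set_option autoImplicit false

open scoped Manifold ContDiff Topology ComplexOrder
open Set Filter MeasureTheory

noncomputable section

namespace Pool.Agent.DMA

open Pool.Agent.K708 (E CMfd)

variable {n : ℕ} {X : CMfd n} {K : Kahler X}

/-- The Monge–Ampère measure of a smooth function has total mass `V`. -/
theorem G8_mass (hn : 0 < n) (hX : CompactSpace X) {C : Calc X n} (hG : Good K C) {u : X → ℝ}
    (hu : SPsh K u) : (ma K u).real univ = C.V := by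
  rw [ma_eq_calc hX hG.loc hu]
  refine C.mass _ (Multiset.card_replicate n u) ?_
  intro v hv
  rw [Multiset.eq_of_mem_replicate hv]
  exact hG.mem.2 (hu.bpsh hn hX)

theorem fullMass_of (hn : 0 < n) (hX : CompactSpace X) (hne : Nonempty X) {φ : X → EReal}
    (hφ : OPsh K φ) {μ : Measure X} (hμ : InDMA K φ μ)
    (h : ∀ τ : ℝ, μ.restrict (hiS φ τ) = (mab K (tr τ φ)).restrict (hiS φ τ))
    (h0 : μ {x | φ x = ⊥} = 0) : FullMass K φ := by
  obtain ⟨C, hG⟩ := exists_good hn hX hne K
  have hfin : IsFiniteMeasure μ := hμ.fin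
  have hvol : vol K = C.V := G8_mass hn hX hG (SPsh.zero K)
  have hmu : μ.real univ = C.V := by
    obtain ⟨u, hu, ha, hl⟩ := opsh_smooth_seq hn hX hφ
    have h1 := hμ.lim u hu ha hl (fun _ => 1) continuous_const
    simp only [integral_const, smul_eq_mul, mul_one] at h1
    have h2 : (fun j => (ma K (u j)).real univ) = fun _ => C.V := by
      funext j
      exact G8_mass hn hX hG (hu j)
    rw [h2] at h1
    exact (tendsto_nhds_unique h1 tendsto_const_nhds)
  have hreal : ∀ j : ℕ, (mab K (tr j φ)).real {x | ((-(j : ℝ) : ℝ) : EReal) < φ x} =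
      (μ (hiS φ (j : ℝ))).toReal := by
    intro j
    have h1 : μ (hiS φ (j : ℝ)) = mab K (tr j φ) (hiS φ (j : ℝ)) := by
      have h2 := congrArg (fun ν : Measure X => ν univ) (h j)
      simp only [Measure.restrict_apply_univ] at h2
      exact h2
    rw [h1]
    rfl
  have hun : μ (⋃ j : ℕ, hiS φ (j : ℝ)) = μ univ := by
    rw [iUnion_hiS]
    refine le_antisymm (measure_mono (subset_univ _)) ?_
    calc μ univ ≤ μ ({x | φ x ≠ ⊥} ∪ {x | φ x = ⊥}) := by
          refine measure_mono fun x _ => ?_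
          by_cases hx : φ x = ⊥
          · exact Or.inr hx
          · exact Or.inl hx
      _ ≤ μ {x | φ x ≠ ⊥} + μ {x | φ x = ⊥} := measure_union_le _ _
      _ = μ {x | φ x ≠ ⊥} := by rw [h0, add_zero]
  have hmono : Monotone fun j : ℕ => hiS φ (j : ℝ) := by
    intro i j hij
    exact hiS_mono φ (Nat.cast_le.2 hij)
  have ht : Tendsto (fun j : ℕ => μ (hiS φ (j : ℝ))) atTop (𝓝 (μ univ)) := by
    have h1 := tendsto_measure_iUnion_atTop (μ := μ) hmono
    rw [hun] at h1
    exact h1
  have ht2 : Tendsto (fun j : ℕ => (μ (hiS φ (j : ℝ))).toReal) atTop (𝓝 ((μ univ).toReal)) :=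
    (ENNReal.tendsto_toReal (measure_ne_top μ univ)).comp ht
  unfold FullMass
  rw [hvol, ← hmu]
  simp only [hreal]
  exact ht2

end Pool.Agent.DMA
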