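import Pool.Agent.Lib.DMA.CMa
import Pool.Agent.Lib.DMA.AMain

/-! # DMA, row GDef: definitions for the assembly -/

set_option autoImplicit false

open scoped Manifold ContDiff Topology ComplexOrder
open Set Filter MeasureTheory

noncomputable section

namespace Pool.Agent.DMA

open Pool.Agent.K708 (E CMfd)

variable {n : ℕ} {X : CMfd n} {K : Kahler X}

/-- `C` is the calculus of bounded `ω`-psh functions of the compact Kähler manifold. -/
structure Good (K : Kahler X) (C : Calc X n) : Prop where
  S : C.S = {f | Sm f}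
  P : C.P = {u | BPsh K u}
  V : 0 < C.V
  loc : ∀ u : Fin n → X → ℝ, (∀ i, SPsh K (u i)) →
    LocMix K univ u (C.M (Finset.univ.val.map u))

theorem Good.mem {C : Calc X n} (hG : Good K C) {u : X → ℝ} : u ∈ C.P ↔ BPsh K u := by
  rw [hG.P]
  rfl

theorem exists_good (hn : 0 < n) (hX : CompactSpace X) (hne : Nonempty X) (K : Kahler X) :
    ∃ C : Calc X n, Good K C := by
  obtain ⟨C, h1, h2, h3, h4⟩ := exists_calc hn hX hne K
  exact ⟨C, h1, h2, h3, h4⟩

end Pool.Agent.DMA
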