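import Pool.Agent.Lib.DMA.Defs

/-! # DMA: Kähler forms -/

set_option autoImplicit false

open scoped Manifold ContDiff Topology ComplexOrder
open Set Filter MeasureTheory

noncomputable section

namespace Pool.Agent.DMA

open Pool.Agent.K708 (E CMfd D)

variable {n : ℕ}

/-- Real 2-forms on `X` (no regularity): `Ω x` is a function of two tangent vectors at `x`; the
tangent space at `x` is identified with `ℂⁿ` by the preferred chart at `x`. -/
abbrev Form (X : CMfd n) := X → E n → E n → ℝ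

/-- Expression of a 2-form in a chart, evaluated at the vectors `u`, `v`. -/
def locF {X : CMfd n} (ψ : OpenPartialHomeomorph X (E n)) (Ω : Form X) (u v z : E n) : ℝ :=
  Ω (ψ.symm z) (D n n ψ.symm z u) (D n n ψ.symm z v)

/-- Directional derivative: the derivative at `z` of `f` in the direction `u`. -/
def dir (f : E n → ℝ) (z u : E n) : ℝ := fderiv ℝ f z u

/-- Kähler forms on `X`: real 2-forms (bilinear, alternating) which are smooth and closed (in all
holomorphic charts), of type `(1,1)` and positive. -/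
structure IsKahler {X : CMfd n} (Ω : Form X) : Prop where
  add : ∀ x u u' v, Ω x (u + u') v = Ω x u v + Ω x u' v
  smul : ∀ x (c : ℝ) u v, Ω x (c • u) v = c * Ω x u v
  alt : ∀ x u v, Ω x u v = -Ω x v u
  smooth : ∀ ψ ∈ CA X, ∀ u v, ContDiffOn ℝ ∞ (locF ψ Ω u v) ψ.target
  closed : ∀ ψ ∈ CA X, ∀ z ∈ ψ.target, ∀ u v w,
    dir (locF ψ Ω v w) z u + dir (locF ψ Ω w u) z v + dir (locF ψ Ω u v) z w = 0
  inv : ∀ x u v, Ω x (Complex.I • u) (Complex.I • v) = Ω x u v
  pos : ∀ x u, u ≠ 0 → 0 < Ω x u (Complex.I • u)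

/-- The Hermitian matrix of a real `(1,1)`-form `B` on `ℂⁿ`: if `B = i ∂∂bar ρ` it is
`∂_j ∂bar_k ρ`. -/
def gmF (B : E n → E n → ℝ) : Matrix (Fin n) (Fin n) ℂ := fun j k =>
  ((B (ej j) (iej k) : ℂ) - Complex.I * (B (ej j) (ej k) : ℂ)) / 2

end Pool.Agent.DMA
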