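import Pool.Agent.Lib.DMA.F6
import Pool.Agent.Lib.DMA.KDefs

/-! # DMA: from Kähler forms to local potentials -/

set_option autoImplicit false

open scoped Manifold ContDiff Topology ComplexOrder
open Set Filter MeasureTheory Metric

noncomputable section

namespace Pool.Agent.DMA

open Pool.Agent.K708 (E CMfd D F2 loc2)

variable {n : ℕ} {X : CMfd n}

namespace KFormAux

open CCompAux F6Aux CRuleAux Pool.Agent.K708

theorem add_right {Ω : Form X} (hΩ : IsKahler Ω) (x : X) (u v v' : E n) :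
    Ω x u (v + v') = Ω x u v + Ω x u v' := by
  rw [hΩ.alt x u (v + v'), hΩ.alt x u v, hΩ.alt x u v', hΩ.add]
  ring

theorem smul_right {Ω : Form X} (hΩ : IsKahler Ω) (x : X) (c : ℝ) (u v : E n) :
    Ω x u (c • v) = c * Ω x u v := by
  rw [hΩ.alt x u (c • v), hΩ.alt x u v, hΩ.smul]
  ring

/-- The form with values in continuous bilinear maps. -/
def toB {Ω : Form X} (hΩ : IsKahler Ω) : F2 n X := fun x =>
  (LinearMap.mk₂ ℝ (fun u v : E n => ((Ω x u v : ℝ) : ℂ))
    (fun u u' v => by rw [hΩ.add]; push_cast; rfl)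
    (fun c u v => by rw [hΩ.smul, Complex.real_smul]; push_cast; rfl)
    (fun u v v' => by rw [add_right hΩ]; push_cast; rfl)
    (fun c u v => by rw [smul_right hΩ, Complex.real_smul]; push_cast; rfl)).toContinuousBilinearMap

theorem toB_apply {Ω : Form X} (hΩ : IsKahler Ω) (x : X) (u v : E n) :
    toB hΩ x u v = ((Ω x u v : ℝ) : ℂ) := rfl

theorem loc2_toB {Ω : Form X} (hΩ : IsKahler Ω) (ψ : OpenPartialHomeomorph X (E n))
    (z u v : E n) : loc2 ψ (toB hΩ) z u v = ((locF ψ Ω u v z : ℝ) : ℂ) := rfl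

theorem gmE_toB {Ω : Form X} (hΩ : IsKahler Ω) (x : X) : gmE (toB hΩ x) = gmF (Ω x) := rfl

theorem loc2_smooth {Ω : Form X} (hΩ : IsKahler Ω) {ψ : OpenPartialHomeomorph X (E n)}
    (hψ : ψ ∈ DMA.CA X) : ContDiffOn ℝ ∞ (loc2 ψ (toB hΩ)) ψ.target := by
  rw [contDiffOn_clm_apply]
  intro u
  rw [contDiffOn_clm_apply]
  intro v
  exact Complex.ofRealCLM.contDiff.comp_contDiffOn (hΩ.smooth ψ hψ u v)

theorem comp_apply {F : Type} [NormedAddCommGroup F] [NormedSpace ℝ F]
    {c : E n → (E n →L[ℝ] F)} {z : E n} (hc : DifferentiableAt ℝ c z) (v : E n) :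
    HasFDerivAt (fun y => c y v) ((fderiv ℝ c z).flip v) z := by
  have h := hc.hasFDerivAt.clm_apply (hasFDerivAt_const v z)
  simpa using h

theorem fderiv_loc2 {Ω : Form X} (hΩ : IsKahler Ω) {ψ : OpenPartialHomeomorph X (E n)}
    (hψ : ψ ∈ DMA.CA X) {z : E n} (hz : z ∈ ψ.target) (u v w : E n) :
    fderiv ℝ (loc2 ψ (toB hΩ)) z u v w = ((dir (locF ψ Ω v w) z u : ℝ) : ℂ) := by
  have h1 : DifferentiableAt ℝ (loc2 ψ (toB hΩ)) z :=
    ((loc2_smooth hΩ hψ).contDiffAt (ψ.open_target.mem_nhds hz)).differentiableAt (by simp)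
  have h2 := comp_apply h1 v
  have h3 := comp_apply h2.differentiableAt w
  have h4 : DifferentiableAt ℝ (locF ψ Ω v w) z :=
    ((hΩ.smooth ψ hψ v w).contDiffAt (ψ.open_target.mem_nhds hz)).differentiableAt (by simp)
  have h5 : HasFDerivAt (fun y => ((locF ψ Ω v w y : ℝ) : ℂ))
      (Complex.ofRealCLM.comp (fderiv ℝ (locF ψ Ω v w) z)) z :=
    Complex.ofRealCLM.hasFDerivAt.comp z h4.hasFDerivAt
  have h6 := h3.unique h5
  have h7 := congrArg (fun L : E n →L[ℝ] ℂ => L u) h6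
  rw [h2.fderiv] at h7
  exact h7

/-- Local potentials of a Kähler form. -/
theorem exists_pot' {Ω : Form X} (hΩ : IsKahler Ω) (x : X) :
    ∃ (U : Set X) (ρ : X → ℝ), x ∈ U ∧ IsPot (fun y => gmF (Ω y)) U ρ := by
  have halt : ∀ (y : X) (u v : E n), toB hΩ y u v = -toB hΩ y v u := fun y u v => by
    rw [toB_apply, toB_apply, hΩ.alt]
    push_cast
    rfl
  have hinv : ∀ (y : X) (u v : E n),
      toB hΩ y (Complex.I • u) (Complex.I • v) = toB hΩ y u v := fun y u v => by
    rw [toB_apply, toB_apply, hΩ.inv]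
  have hφ : chartAt (E n) x ∈ DMA.CA X := chart_mem x
  have hxs : x ∈ (chartAt (E n) x).source := mem_chart_source _ _
  generalize chartAt (E n) x = φ at hφ hxs
  have hφR := ra_of_ca hφ
  set c := φ x with hc
  have hct : c ∈ φ.target := φ.map_source hxs
  obtain ⟨R, hR, hball⟩ := Metric.isOpen_iff.1 φ.open_target c hct
  have hsub : ∀ z ∈ ball (0 : E n) R, z + c ∈ φ.target := fun z hz => hball (by
    rw [mem_ball, dist_eq_norm, add_sub_cancel_right]
    rwa [mem_ball, dist_zero_right] at hz)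
  have hB : ContDiffOn ℝ ∞ (fun z => loc2 φ (toB hΩ) (z + c)) (ball (0 : E n) R) :=
    (loc2_smooth hΩ hφ).comp (contDiff_id.add contDiff_const).contDiffOn hsub
  have hfd : ∀ z, fderiv ℝ (fun z => loc2 φ (toB hΩ) (z + c)) z =
      fderiv ℝ (loc2 φ (toB hΩ)) (z + c) := fun z =>
    fderiv_comp_add_right (𝕜 := ℝ) (f := loc2 φ (toB hΩ)) (x := z) c
  obtain ⟨σ, hσ, hσe⟩ := local_pot (B := fun z => loc2 φ (toB hΩ) (z + c)) (half_pos hR)
    (half_lt_self hR) hB
    (fun z _ u v => by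
      simp only [loc2, ContinuousLinearMap.bilinearComp_apply]
      exact halt _ _ _)
    (fun z hz u v w => by
      rw [hfd, fderiv_loc2 hΩ hφ (hsub z hz), fderiv_loc2 hΩ hφ (hsub z hz),
        fderiv_loc2 hΩ hφ (hsub z hz)]
      have h := hΩ.closed φ hφ (z + c) (hsub z hz) u v w
      exact_mod_cast h)
    (fun z _ u v => by
      rw [loc2_toB]
      exact Complex.ofReal_im _)
    (fun z hz u v => loc2_inv hinv hφ (hsub z hz) u v)
  have hU : IsOpen (φ.source ∩ φ ⁻¹' ball c (R / 2)) := φ.isOpen_inter_preimage isOpen_ball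
  have hshift : ∀ y, φ y ∈ ball c (R / 2) → φ y - c ∈ ball (0 : E n) (R / 2) := fun y hy => by
    rwa [mem_ball, dist_zero_right, ← dist_eq_norm]
  refine ⟨φ.source ∩ φ ⁻¹' ball c (R / 2), fun y => σ (φ y - c), ⟨hxs, ?_⟩, hU, ?_, ?_⟩
  · rw [mem_preimage, ← hc]
    exact mem_ball_self (half_pos hR)
  · have h1 : ContMDiffOn 𝓘(ℝ, E n) 𝓘(ℝ, E n) ∞ φ φ.source :=
      contMDiffOn_of_mem_maximalAtlas hφR
    have h2 : ContDiffOn ℝ ∞ (fun z => σ (z - c)) (ball c (R / 2)) :=
      hσ.comp (contDiff_id.sub contDiff_const).contDiffOn fun z hz => by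
        rw [mem_ball, dist_eq_norm] at hz
        simpa using hz
    exact (contMDiffOn_iff_contDiffOn.2 h2).comp (h1.mono inter_subset_left) fun y hy => hy.2
  · rintro y ⟨hy, hyb⟩
    have hψ : chartAt (E n) y ∈ DMA.CA X := chart_mem y
    have hyψ : y ∈ (chartAt (E n) y).source := mem_chart_source _ _
    have hΩy : loc2 (chartAt (E n) y) (toB hΩ) (chartAt (E n) y y) = toB hΩ y :=
      loc2_chartAt (toB hΩ) y
    unfold hess
    generalize chartAt (E n) y = ψ at hψ hyψ hΩy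
    have hz : ψ y ∈ ψ.target := ψ.map_source hyψ
    have hz' : ψ.symm (ψ y) ∈ φ.source := by rwa [ψ.left_inv hyψ]
    have h1 : ContDiffAt ℂ 2 (φ ∘ ψ.symm) (ψ y) := (trans_holo hψ hφ hz hz').of_le le_top
    have e1 : (φ ∘ ψ.symm) (ψ y) = φ y := by
      rw [Function.comp_apply, ψ.left_inv hyψ]
    have h2 : ContDiffAt ℝ 2 (fun w => σ (w - c)) ((φ ∘ ψ.symm) (ψ y)) := by
      rw [e1]
      have h3 : ContDiffAt ℝ ∞ σ (φ y - c) := hσ.contDiffAt (isOpen_ball.mem_nhds (hshift y hyb))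
      have h4 : ContDiffAt ℝ 2 σ (φ y - c) := h3.of_le (WithTop.coe_le_coe.2 le_top)
      exact ContDiffAt.comp (g := σ) (f := fun w => w - c) (φ y) h4
        (contDiff_id.sub contDiff_const).contDiffAt
    have h5 := CH_comp h1 h2
    have h6 : CH (fun w => σ (w - c)) (φ y) = CH σ (φ y - c) := by
      have h7 : fderiv ℝ (fun w => σ (w - c)) = fun w => fderiv ℝ σ (w - c) := by
        funext w
        have h9 := fderiv_comp_add_right (𝕜 := ℝ) (f := σ) (x := w) (-c)
        simpa only [← sub_eq_add_neg] using h9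
      have h10 : fderiv ℝ (fun w => fderiv ℝ σ (w - c)) (φ y) =
          fderiv ℝ (fderiv ℝ σ) (φ y - c) := by
        have h9 := fderiv_comp_add_right (𝕜 := ℝ) (f := fderiv ℝ σ) (x := φ y) (-c)
        simpa only [← sub_eq_add_neg] using h9
      simp only [CH_D2]
      unfold D2
      rw [h7, h10]
    have h8 : CH σ (φ y - c) = gmE (loc2 φ (toB hΩ) (φ y)) := by
      have h9 := hσe (φ y - c) (hshift y hyb)
      rw [h9, sub_add_cancel]
    change CH (fun w => σ ((φ ∘ ψ.symm) w - c)) (ψ y) = gmE (toB hΩ y)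
    rw [h5, e1, h6, h8, ← gmE_comp _ (fun u v => by
        simp only [loc2, ContinuousLinearMap.bilinearComp_apply]
        exact halt _ _ _) (fun u v => loc2_inv hinv hφ (φ.map_source hy) u v),
      ← fderiv_real hψ hφ hz hz', ← hΩy,
      loc2_change (ra_of_ca hψ) hφR hz hz' (toB hΩ), ψ.left_inv hyψ]

end KFormAux

open KFormAux in
/-- The Hermitian matrices of a Kähler form, as a `Kahler` structure. -/
def ofForm {Ω : Form X} (hΩ : IsKahler Ω) : Kahler X where
  g := fun y => gmF (Ω y)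
  pos := fun x => by
    rw [← gmE_toB hΩ x]
    refine gmE_posDef (fun u v => ?_) (fun u v => ?_) (fun u v => ?_) fun u hu => ?_
    · rw [toB_apply, toB_apply, hΩ.alt]
      push_cast
      rfl
    · rw [toB_apply]
      exact Complex.ofReal_im _
    · rw [toB_apply, toB_apply, hΩ.inv]
    · rw [toB_apply]
      exact hΩ.pos x u hu
  pot := exists_pot' hΩ

end Pool.Agent.DMA
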