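import Pool.Agent.Lib.DMA.GMain
import Pool.Agent.Lib.DMA.KForm

/-! # DMA: the final statement for Kähler forms -/

set_option autoImplicit false

open scoped Manifold ContDiff Topology ComplexOrder
open Set Filter MeasureTheory

noncomputable section

namespace Pool.Agent.DMA

open Pool.Agent.K708 (E CMfd)

variable {n : ℕ} {X : CMfd n}

/-- The Monge–Ampère measures of smooth functions exist. -/
theorem ma_spec (hn : 0 < n) (hX : CompactSpace X) (K : Kahler X) {u : X → ℝ} (hu : SPsh K u) :
    IsMA K u (ma K u) := by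
  rcases isEmpty_or_nonempty X with he | hne
  · have h : IsMA K u (0 : Measure X) := by
      refine ⟨inferInstance, fun U ρ _ ψ _ f _ _ => ?_⟩
      have h1 : ψ.target ∩ ψ.symm ⁻¹' U = ∅ := by
        ext z
        simp only [mem_inter_iff, mem_empty_iff_false, iff_false]
        exact fun _ => he.false (ψ.symm z)
      rw [h1]
      simp
    rw [ma_eq_of_isMA hX h]
    exact h
  · obtain ⟨C, hG⟩ := exists_good hn hX hne K
    rw [ma_eq_calc hX hG.loc hu]
    have h1 := hG.loc (fun _ => u) fun _ => hu
    have h2 : (Finset.univ.val.map fun _ : Fin n => u) = Multiset.replicate n u := by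
      rw [Multiset.map_const']
      simp
    rw [h2] at h1
    exact LocMix.isMA (C.fin _) h1

/-- The Bedford–Taylor measures of bounded functions exist. -/
theorem mab_spec (hn : 0 < n) (hX : CompactSpace X) (hne : Nonempty X) (K : Kahler X) {v : X → ℝ}
    (hv : BPsh K v) : InDMA K (fun x => (v x : EReal)) (mab K v) ∧
      ∀ ν, InDMA K (fun x => (v x : EReal)) ν → ν = mab K v := by
  obtain ⟨C, hG⟩ := exists_good hn hX hne K
  exact ⟨(mab_eq hn hX hG hv).1, (mab_eq hn hX hG hv).2.2⟩

/-- The Monge–Ampère measures are well defined: those of smooth `ω`-psh functions exist, those of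
bounded `ω`-psh functions exist and are unique, and every `φ ∈ PSH(X, ω)` is the limit of a decreasing
sequence of smooth `ω`-psh functions. -/
structure WellPosed (K : Kahler X) : Prop where
  smooth : ∀ u, SPsh K u → IsMA K u (ma K u)
  bounded : ∀ v, BPsh K v → InDMA K (fun x => (v x : EReal)) (mab K v)
  unique : ∀ v ν, BPsh K v → InDMA K (fun x => (v x : EReal)) ν → ν = mab K v
  approx : ∀ φ, OPsh K φ → ∃ u : ℕ → X → ℝ, (∀ j, SPsh K (u j)) ∧
    (∀ x, Antitone fun j => u j x) ∧ ∀ x, Tendsto (fun j => (u j x : EReal)) atTop (𝓝 (φ x))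

/-- The measure `μ`, restricted to `{φ > -∞}`, is the non-pluripolar measure of `φ`: `μ` and the
Monge–Ampère measure of `max(φ, -τ)` agree on `{φ > -τ}`, for every `τ`. -/
def NonPluripolar (K : Kahler X) (φ : X → EReal) (μ : Measure X) : Prop :=
  ∀ τ : ℝ, μ.restrict {x | ((-τ : ℝ) : EReal) < φ x} =
    (mab K (tr τ φ)).restrict {x | ((-τ : ℝ) : EReal) < φ x}

theorem wellPosed (hn : 0 < n) (hX : CompactSpace X) (hne : Nonempty X) (K : Kahler X) :
    WellPosed K :=
  ⟨fun _ hu => ma_spec hn hX K hu, fun _ hv => (mab_spec hn hX hne K hv).1,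
    fun _ ν hv hν => (mab_spec hn hX hne K hv).2 ν hν, fun _ hφ => opsh_smooth_seq hn hX hφ⟩

end Pool.Agent.DMA
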