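import Pool.Agent.Lib.DMA.G8

/-! # DMA, row GMain: the main theorem -/

set_option autoImplicit false

open scoped Manifold ContDiff Topology ComplexOrder
open Set Filter MeasureTheory

noncomputable section

namespace Pool.Agent.DMA

open Pool.Agent.K708 (E CMfd)

variable {n : ℕ} {X : CMfd n} {K : Kahler X}

theorem good_geo (hn : 0 < n) (hX : CompactSpace X) {C : Calc X n} (hG : Good K C) : C.Geo := by
  intro x
  obtain ⟨B, B1, ρ, hρ, hpot, hB, hdis⟩ := exists_bal hn hX K x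
  refine ⟨B, B1, ρ, good_pot hn hX hG hρ hpot, fun r hr => ?_, hdis⟩
  obtain ⟨ho, hx, hcl, H⟩ := hB r hr
  exact ⟨ho, hx, hcl, exists_hat hn hX hG ho H⟩

/-- On a compact Kähler manifold, the Monge–Ampère measure of a function of `DMA(X, ω)`
restricted to `{φ > -∞}` is the non-pluripolar measure. -/
theorem dma_main (hn : 0 < n) (hX : CompactSpace X) {φ : X → EReal} (hφ : OPsh K φ)
    {μ : Measure X} (hμ : InDMA K φ μ) :
    (∀ τ : ℝ, μ.restrict (hiS φ τ) = (mab K (tr τ φ)).restrict (hiS φ τ)) ∧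
      (μ {x | φ x = ⊥} = 0 → FullMass K φ) := by
  obtain ⟨x0, -⟩ := hφ.ne_bot
  have hne : Nonempty X := ⟨x0⟩
  obtain ⟨C, hG⟩ := exists_good hn hX hne K
  obtain ⟨c, hA⟩ := adma hn hX hG hφ hμ
  have h : ∀ τ : ℝ, μ.restrict (hiS φ τ) = (mab K (tr τ φ)).restrict (hiS φ τ) := by
    intro τ
    rw [(mab_eq hn hX hG (hφ.psh τ)).2.1]
    exact amain (good_geo hn hX hG) hn hA τ
  exact ⟨h, fun h0 => fullMass_of hn hX hne hφ hμ h h0⟩

end Pool.Agent.DMA
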