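import Pool.Agent.Lib.DMA.DFin
import Pool.Agent.Lib.DMA.E13
import Pool.Agent.Lib.DMA.Calc

/-! # DMA: interface between the sections -/

set_option autoImplicit false

open scoped Manifold ContDiff Topology ComplexOrder
open Set Filter MeasureTheory

noncomputable section

namespace Pool.Agent.DMA

open Pool.Agent.K708 (E CMfd)

variable {n : ℕ}

/-- Balls (polydiscs) and balayage. -/
theorem exists_bal (hn : 0 < n) {X : CMfd n} (hX : CompactSpace X) (K : Kahler X) (x : X) :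
    ∃ (B : ℝ → Set X) (B1 : Set X) (ρ : X → ℝ), ContMDiff 𝓘(ℝ, E n) 𝓘(ℝ, ℝ) ∞ ρ ∧
      IsPot K.g B1 ρ ∧
      (∀ r ∈ Ioo (0 : ℝ) 1, IsOpen (B r) ∧ x ∈ B r ∧ closure (B r) ⊆ B1 ∧
        ∀ f, SPsh K f → ∃ h, IsBal K (B r) f h) ∧
      ∀ r ∈ Ioo (0 : ℝ) 1, ∀ s ∈ Ioo (0 : ℝ) 1, r ≠ s →
        Disjoint (frontier (B r)) (frontier (B s)) :=
  exists_bal' hn hX K x

end Pool.Agent.DMA
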