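import Pool.Agent.Lib.DMA.Sma

/-!
# Measures which agree on an open set
-/

set_option autoImplicit false

namespace Pool.Agent.DMA

open MeasureTheory Filter Topology Set
open scoped ENNReal

variable {X : Type} [TopologicalSpace X] [CompactSpace X] [TopologicalSpace.MetrizableSpace X]
  [MeasurableSpace X] [BorelSpace X]

/-- Measures with the same integrals of the continuous functions supported in `U` agree on `U`. -/
theorem restrict_eq {μ ν : Measure X} [IsFiniteMeasure μ] [IsFiniteMeasure ν] {U : Set X}
    (hU : IsOpen U) (h : ∀ f : X → ℝ, Continuous f → (∀ x, x ∉ U → f x = 0) →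
      ∫ x, f x ∂μ = ∫ x, f x ∂ν) : μ.restrict U = ν.restrict U := by
  let _ : MetricSpace X := TopologicalSpace.metrizableSpaceMetric X
  refine ext_of_forall_integral_eq_of_IsFiniteMeasure fun g => ?_
  rcases (Uᶜ).eq_empty_or_nonempty with he | hne
  · have hu : U = univ := compl_empty_iff.1 he
    subst hu
    rw [Measure.restrict_univ, Measure.restrict_univ]
    exact h g g.continuous fun x hx => absurd (mem_univ x) hx
  · let φ : ℕ → X → ℝ := fun k x => min 1 (k * Metric.infDist x Uᶜ)
    have hφc : ∀ k, Continuous (φ k) := fun k =>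
      continuous_const.min (continuous_const.mul (Metric.continuous_infDist_pt _))
    have hφ0 : ∀ k x, 0 ≤ φ k x := fun k x =>
      le_min zero_le_one (mul_nonneg (Nat.cast_nonneg _) Metric.infDist_nonneg)
    have hφ1 : ∀ k x, φ k x ≤ 1 := fun k x => min_le_left _ _
    have hφz : ∀ k x, x ∉ U → φ k x = 0 := by
      intro k x hx
      have h1 : Metric.infDist x Uᶜ = 0 := Metric.infDist_zero_of_mem hx
      show min 1 ((k : ℝ) * Metric.infDist x Uᶜ) = 0
      rw [h1, mul_zero]
      exact min_eq_right zero_le_one
    have hφt : ∀ x ∈ U, Tendsto (fun k => φ k x) atTop (𝓝 1) := by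
      intro x hx
      have h1 : 0 < Metric.infDist x Uᶜ := by
        rw [← (hU.isClosed_compl).notMem_iff_infDist_pos hne]
        exact fun h2 => h2 hx
      have h2 : ∀ᶠ k : ℕ in atTop, φ k x = 1 := by
        filter_upwards [eventually_ge_atTop ⌈(Metric.infDist x Uᶜ)⁻¹⌉₊] with k hk
        refine min_eq_left ?_
        have h3 : (Metric.infDist x Uᶜ)⁻¹ ≤ k := (Nat.le_ceil _).trans (by exact_mod_cast hk)
        calc (1 : ℝ) = (Metric.infDist x Uᶜ)⁻¹ * Metric.infDist x Uᶜ := (inv_mul_cancel₀ h1.ne').symm
          _ ≤ _ := by gcongr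
      exact tendsto_const_nhds.congr' (h2.mono fun k hk => hk.symm)
    have key : ∀ (ρ : Measure X) [IsFiniteMeasure ρ],
        Tendsto (fun k => ∫ x, φ k x * g x ∂ρ) atTop (𝓝 (∫ x in U, g x ∂ρ)) := by
      intro ρ _
      rw [← integral_indicator hU.measurableSet]
      refine tendsto_integral_of_dominated_convergence (fun x => ‖g x‖)
        (fun k => ((hφc k).mul g.continuous).aestronglyMeasurable) (g.integrable ρ).norm
        (fun k => Eventually.of_forall fun x => ?_) (Eventually.of_forall fun x => ?_)
      · rw [norm_mul, Real.norm_of_nonneg (hφ0 k x)]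
        exact mul_le_of_le_one_left (norm_nonneg _) (hφ1 k x)
      · by_cases hx : x ∈ U
        · rw [indicator_of_mem hx]
          have h1 := (hφt x hx).mul_const (g x)
          rwa [one_mul] at h1
        · rw [indicator_of_notMem hx]
          have h1 : ∀ k, φ k x * g x = 0 := fun k => by rw [hφz k x hx, zero_mul]
          simp only [h1]
          exact tendsto_const_nhds
    have e : ∀ k, ∫ x, φ k x * g x ∂μ = ∫ x, φ k x * g x ∂ν := fun k =>
      h _ ((hφc k).mul g.continuous) fun x hx => by rw [hφz k x hx, zero_mul]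
    have k1 := key μ
    simp only [e] at k1
    exact tendsto_nhds_unique k1 (key ν)

end Pool.Agent.DMA
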