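import Pool.Agent.Lib.DMA.ConvB
import Pool.Agent.Lib.DMA.Restr

/-!
# Locality on open sets
-/

set_option autoImplicit false
set_option linter.unusedSectionVars false

namespace Pool.Agent.DMA

open MeasureTheory Filter Topology Set
open scoped ENNReal ContDiff

variable {X : Type} [TopologicalSpace X] [CompactSpace X] [TopologicalSpace.MetrizableSpace X]
  [MeasurableSpace X] [BorelSpace X] {n : ℕ} (T : SMA X n)

namespace LocOAux

/-- Decreasing approximating sequences for all entries of a multiset. -/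
theorem exists_seq (m : Multiset (X → ℝ)) :
    T.In m → ∃ q : Multiset ((ℕ → X → ℝ) × (X → ℝ)), (q.map fun p => p.2) = m ∧
      (∀ p ∈ q, T.Dec p.1 p.2) ∧ ∀ p ∈ q, ∀ j, p.1 j ∈ T.P0 := by
  induction m using Multiset.induction_on with
  | empty =>
    intro _
    exact ⟨0, by simp, by simp, by simp⟩
  | cons u m ih =>
    intro hm
    have hu : u ∈ T.P := hm u (Multiset.mem_cons_self u m)
    obtain ⟨q, hq1, hq2, hq3⟩ := ih (fun v hv => hm v (Multiset.mem_cons_of_mem hv))
    obtain ⟨s, hs1, hs2, hs3⟩ := T.reg u hu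
    refine ⟨(s, u) ::ₘ q, ?_, ?_, ?_⟩
    · rw [Multiset.map_cons, hq1]
    · intro p hp
      rcases Multiset.mem_cons.1 hp with h | h
      · rw [h]
        exact ⟨fun j => T.P0_P (hs1 j), hs2, hs3, hu⟩
      · exact hq2 p h
    · intro p hp
      rcases Multiset.mem_cons.1 hp with h | h
      · rw [h]
        exact hs1
      · exact hq3 p h

/-- A constant sequence. -/
theorem dec_const {a : X → ℝ} (ha : a ∈ T.P) : T.Dec (fun _ => a) a :=
  ⟨fun _ => ha, fun _ _ _ => le_rfl, fun _ => tendsto_const_nhds, ha⟩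

/-- A smooth cut-off of the identity. -/
theorem exists_theta {ε : ℝ} (hε : 0 < ε) : ∃ θ : ℝ → ℝ, ContDiff ℝ ∞ θ ∧
    (∀ y, |y| < ε → θ y = 0) ∧ ∀ y, |y - θ y| ≤ 2 * ε := by
  refine ⟨fun y => y * Real.smoothTransition (y ^ 2 / ε ^ 2 - 1), ?_, ?_, ?_⟩
  · have h1 : ContDiff ℝ ∞ (fun y : ℝ => y ^ 2 / ε ^ 2 - 1) :=
      ((contDiff_id.pow 2).div_const _).sub contDiff_const
    exact contDiff_id.mul (Real.smoothTransition.contDiff.comp h1)
  · intro y hy
    have h1 : y ^ 2 < ε ^ 2 := by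
      rw [← sq_abs y]
      exact pow_lt_pow_left₀ hy (abs_nonneg y) (by norm_num)
    have h2 : y ^ 2 / ε ^ 2 - 1 ≤ 0 := by
      have : y ^ 2 / ε ^ 2 ≤ 1 := by
        rw [div_le_one (by positivity)]
        exact h1.le
      linarith
    simp only [Real.smoothTransition.zero_of_nonpos h2, mul_zero]
  · intro y
    by_cases hy : |y| ≤ 2 * ε
    · have h0 := Real.smoothTransition.nonneg (y ^ 2 / ε ^ 2 - 1)
      have h1 := Real.smoothTransition.le_one (y ^ 2 / ε ^ 2 - 1)
      have h2 : y - y * Real.smoothTransition (y ^ 2 / ε ^ 2 - 1) =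
          y * (1 - Real.smoothTransition (y ^ 2 / ε ^ 2 - 1)) := by ring
      show |y - y * Real.smoothTransition (y ^ 2 / ε ^ 2 - 1)| ≤ 2 * ε
      rw [h2, abs_mul]
      have h3 : |1 - Real.smoothTransition (y ^ 2 / ε ^ 2 - 1)| ≤ 1 := by
        rw [abs_le]
        constructor <;> linarith
      calc |y| * |1 - Real.smoothTransition (y ^ 2 / ε ^ 2 - 1)| ≤ |y| * 1 :=
            mul_le_mul_of_nonneg_left h3 (abs_nonneg y)
        _ = |y| := mul_one _
        _ ≤ 2 * ε := hy
    · have hy' : 2 * ε < |y| := not_le.1 hy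
      have h1 : (2 * ε) ^ 2 < y ^ 2 := by
        rw [← sq_abs y]
        exact pow_lt_pow_left₀ hy' (by positivity) (by norm_num)
      have h2 : 1 ≤ y ^ 2 / ε ^ 2 - 1 := by
        have : 2 ≤ y ^ 2 / ε ^ 2 := by
          rw [le_div_iff₀ (by positivity)]
          nlinarith
        linarith
      show |y - y * Real.smoothTransition (y ^ 2 / ε ^ 2 - 1)| ≤ 2 * ε
      rw [Real.smoothTransition.one_of_one_le h2, mul_one, sub_self, abs_zero]
      positivity

/-- Continuous functions are integrable for finite measures on compact spaces. -/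
theorem cont_integrable {f : X → ℝ} (hf : Continuous f) (ν : Measure X) [IsFiniteMeasure ν] :
    Integrable f ν :=
  hf.integrable_of_hasCompactSupport (HasCompactSupport.of_compactSpace f)

end LocOAux

open LocOAux

/-- Locality for smooth first entries. -/
theorem SMA.loc_smooth {m : Multiset (X → ℝ)} (hc : m.card + 1 = n) (hm : T.In m)
    {a b : X → ℝ} (ha : a ∈ T.P0) (hb : b ∈ T.P0) {U : Set X} (hU : IsOpen U)
    (h : ∀ x ∈ U, a x = b x) : (T.M (a ::ₘ m)).restrict U = (T.M (b ::ₘ m)).restrict U := by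
  obtain ⟨q, hq1, hq2, hq3⟩ := exists_seq T m hm
  have hqc : q.card + 1 = n := by
    rw [← hc, ← hq1, Multiset.card_map]
  apply restrict_eq hU
  intro f hf hfU
  have key : ∀ c : X → ℝ, c ∈ T.P0 →
      Tendsto (fun j => ∫ x, f x ∂T.M0 (c ::ₘ (q.map fun p => p.1 j))) atTop
        (𝓝 (∫ x, f x ∂T.M (c ::ₘ m))) := by
    intro c hcP
    have h1 := T.conv_weak (q := ((fun _ => c), c) ::ₘ q)
      (by rw [Multiset.card_cons]; exact hqc) (by
        intro p hp
        rcases Multiset.mem_cons.1 hp with h | h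
        · rw [h]
          exact dec_const T (T.P0_P hcP)
        · exact hq2 p h) hf
    simp only [Multiset.map_cons, hq1] at h1
    refine h1.congr fun j => ?_
    rw [T.M_smooth]
    · rw [Multiset.card_cons, Multiset.card_map]
      exact hqc
    · intro u hu
      rcases Multiset.mem_cons.1 hu with h | h
      · rw [h]
        exact hcP
      · obtain ⟨p, hp, rfl⟩ := Multiset.mem_map.1 h
        exact hq3 p hp j
  refine tendsto_nhds_unique (key a ha) ((key b hb).congr fun j => ?_)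
  symm
  refine T.loc _ ?_ ?_ a ha b hb U hU h f hf hfU
  · rw [Multiset.card_map]
    exact hqc
  · intro u hu
    obtain ⟨p, hp, rfl⟩ := Multiset.mem_map.1 hu
    exact hq3 p hp j

/-- Locality on open sets. -/
theorem SMA.loc_open {m : Multiset (X → ℝ)} (hc : m.card + 1 = n) (hm : T.In m)
    {a b : X → ℝ} (ha : a ∈ T.P) (hb : b ∈ T.P) {U : Set X} (hU : IsOpen U)
    (h : ∀ x ∈ U, a x = b x) : (T.M (a ::ₘ m)).restrict U = (T.M (b ::ₘ m)).restrict U := by
  have hIn : ∀ c ∈ T.P, T.In (c ::ₘ m) := by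
    intro c hcP u hu
    rcases Multiset.mem_cons.1 hu with h | h
    · rw [h]
      exact hcP
    · exact hm u h
  have hCard : ∀ c : X → ℝ, (c ::ₘ m).card = n := by
    intro c
    rw [Multiset.card_cons]
    exact hc
  apply restrict_eq hU
  intro f hf hfU
  have hV := T.V_pos
  have main : ∀ ε : ℝ, 0 < ε →
      |(∫ x, f x ∂T.M (a ::ₘ m)) - ∫ x, f x ∂T.M (b ::ₘ m)| ≤ 6 * ε * T.V := by
    intro ε hε
    obtain ⟨s, hs, hfs⟩ := T.S_dense f hf (ε / 2) (by positivity)
    have hsc := T.S_cont s hs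
    obtain ⟨θ, hθ1, hθ2, hθ3⟩ := exists_theta hε
    have hs' := T.S_comp s hs θ hθ1
    obtain ⟨C, hC, hp⟩ := T.S_scale _ hs'
    have hs'c := T.S_cont _ hs'
    -- the open set where the cut-off function vanishes
    have hW : IsOpen {x | |s x| < ε} := isOpen_lt hsc.abs continuous_const
    have hpW : ∀ x ∈ {x | |s x| < ε}, (fun x => θ (s x) / C) x = zf X x := by
      intro x hx
      show θ (s x) / C = 0
      rw [hθ2 _ hx, zero_div]
    have hloc := T.loc_smooth hc hm hp T.zero_P0 hW hpW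
    have hout : ∀ x, x ∉ {x | |s x| < ε} → a x - b x = 0 := by
      intro x hx
      by_cases hxU : x ∈ U
      · rw [h x hxU, sub_self]
      · exfalso
        apply hx
        have h1 := hfs x
        rw [hfU x hxU, zero_sub, abs_neg] at h1
        show |s x| < ε
        linarith
    have hib := T.M_ibp hc hm (T.P0_P hp) (T.P0_P T.zero_P0) ha hb
    have e1 : ∫ x, (a x - b x) ∂T.M ((fun x => θ (s x) / C) ::ₘ m) =
        ∫ x, (a x - b x) ∂T.M ((fun _ => 0) ::ₘ m) := by
      rw [← setIntegral_eq_integral_of_forall_compl_eq_zero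
          (μ := T.M ((fun x => θ (s x) / C) ::ₘ m)) hout,
        ← setIntegral_eq_integral_of_forall_compl_eq_zero
          (μ := T.M ((fun _ => 0) ::ₘ m)) hout, hloc]
    rw [e1, sub_self] at hib
    have e2 : ∀ c : X → ℝ, ∫ x, θ (s x) ∂T.M (c ::ₘ m) =
        C * ∫ x, ((fun x => θ (s x) / C) x - (fun _ => (0 : ℝ)) x) ∂T.M (c ::ₘ m) := by
      intro c
      rw [← integral_const_mul]
      refine integral_congr_ae (ae_of_all _ fun x => ?_)
      show θ (s x) = C * (θ (s x) / C - 0)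
      rw [sub_zero]
      field_simp
    have e3 : ∫ x, θ (s x) ∂T.M (a ::ₘ m) = ∫ x, θ (s x) ∂T.M (b ::ₘ m) := by
      rw [e2 a, e2 b, sub_eq_zero.1 hib]
    have hdiff : ∀ x, ‖f x - θ (s x)‖ ≤ 3 * ε := by
      intro x
      rw [Real.norm_eq_abs]
      have h1 := hfs x
      have h2 := hθ3 (s x)
      have h3 : f x - θ (s x) = (f x - s x) + (s x - θ (s x)) := by ring
      rw [h3]
      refine (abs_add_le _ _).trans ?_
      linarith
    have bound : ∀ c ∈ T.P,
        |(∫ x, f x ∂T.M (c ::ₘ m)) - ∫ x, θ (s x) ∂T.M (c ::ₘ m)| ≤ 3 * ε * T.V := by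
      intro c hcP
      rw [← integral_sub (cont_integrable hf _) (cont_integrable hs'c _)]
      have h1 := norm_integral_le_of_norm_le_const (μ := T.M (c ::ₘ m))
        (ae_of_all _ hdiff)
      rw [Real.norm_eq_abs] at h1
      refine h1.trans (le_of_eq ?_)
      rw [measureReal_def, T.M_mass (hCard c) (hIn c hcP), ENNReal.toReal_ofReal hV.le]
    have b1 := bound a ha
    have b2 := bound b hb
    rw [abs_le] at b1 b2 ⊢
    constructor <;> linarith [b1.1, b1.2, b2.1, b2.2]
  by_contra hne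
  have hpos : 0 < |(∫ x, f x ∂T.M (a ::ₘ m)) - ∫ x, f x ∂T.M (b ::ₘ m)| :=
    abs_pos.2 (sub_ne_zero.2 hne)
  have h1 := main (|(∫ x, f x ∂T.M (a ::ₘ m)) - ∫ x, f x ∂T.M (b ::ₘ m)| / (12 * T.V))
    (by positivity)
  have h2 : 6 * (|(∫ x, f x ∂T.M (a ::ₘ m)) - ∫ x, f x ∂T.M (b ::ₘ m)| / (12 * T.V)) * T.V =
      |(∫ x, f x ∂T.M (a ::ₘ m)) - ∫ x, f x ∂T.M (b ::ₘ m)| / 2 := by
    field_simp
    norm_num
  rw [h2] at h1
  linarith

end Pool.Agent.DMA
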