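import Pool.Agent.Lib.DMA.MeasE

/-!
# The mixed Monge-Ampère measures of bounded functions
-/

set_option autoImplicit false

namespace Pool.Agent.DMA

open MeasureTheory Filter Topology Set
open scoped ENNReal

variable {X : Type} [TopologicalSpace X] [CompactSpace X] [TopologicalSpace.MetrizableSpace X]
  [MeasurableSpace X] [BorelSpace X] {n : ℕ} (T : SMA X n)

open Classical in
/-- The measure `(ω + dd^c u₁) ∧ ⋯ ∧ (ω + dd^c uₙ)`. -/
noncomputable def SMA.M (m : Multiset (X → ℝ)) : Measure X :=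
  if h : m.card = n ∧ T.In m then Classical.choose (T.exists_M h.1 h.2) else 0

instance (m : Multiset (X → ℝ)) : IsFiniteMeasure (T.M m) := by
  constructor
  unfold SMA.M
  split_ifs with h
  · rw [(Classical.choose_spec (T.exists_M h.1 h.2)).1]
    exact ENNReal.ofReal_lt_top
  · simp

theorem SMA.M_mass {m : Multiset (X → ℝ)} (hc : m.card = n) (hm : T.In m) :
    T.M m univ = ENNReal.ofReal T.V := by
  unfold SMA.M
  rw [dif_pos ⟨hc, hm⟩]
  exact (Classical.choose_spec (T.exists_M hc hm)).1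

theorem SMA.M_int {m : Multiset (X → ℝ)} (hc : m.card = n) (hm : T.In m) {F : X → ℝ}
    (hF : F ∈ T.P) : ∫ x, F x ∂T.M m = T.D (F ::ₘ m) - T.D (zf X ::ₘ m) := by
  unfold SMA.M
  rw [dif_pos ⟨hc, hm⟩]
  exact (Classical.choose_spec (T.exists_M hc hm)).2 F hF

theorem SMA.P_integrable {F : X → ℝ} (hF : F ∈ T.P) (ν : Measure X) [IsFiniteMeasure ν] :
    Integrable F ν := by
  obtain ⟨C, hC⟩ := T.bdd F hF
  have hm : Measurable F := (T.usc F hF).measurable
  exact Integrable.of_bound hm.aestronglyMeasurable C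
    (Filter.Eventually.of_forall fun x => by rw [Real.norm_eq_abs]; exact hC x)

namespace MeasBAux

theorem cont_integrable {f : X → ℝ} (hf : Continuous f) (ν : Measure X) [IsFiniteMeasure ν] :
    Integrable f ν := by
  obtain ⟨C, hC⟩ := isCompact_univ.exists_bound_of_continuousOn (f := f) hf.continuousOn
  exact Integrable.of_bound hf.measurable.aestronglyMeasurable C
    (Filter.Eventually.of_forall fun x => hC x (mem_univ x))

theorem approx {f s : X → ℝ} (hf : Continuous f) (hs : Continuous s) {ε : ℝ}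
    (h : ∀ x, |f x - s x| ≤ ε) (ν : Measure X) [IsFiniteMeasure ν] :
    |∫ x, f x ∂ν - ∫ x, s x ∂ν| ≤ ε * ν.real univ := by
  rw [← integral_sub (cont_integrable hf ν) (cont_integrable hs ν)]
  have := norm_integral_le_of_norm_le_const (μ := ν) (f := fun x => f x - s x) (C := ε)
    (Filter.Eventually.of_forall fun x => by rw [Real.norm_eq_abs]; exact h x)
  rwa [Real.norm_eq_abs] at this

theorem in_cons {m : Multiset (X → ℝ)} (hm : T.In m) {u : X → ℝ} (hu : u ∈ T.P) :
    T.In (u ::ₘ m) := by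
  intro v hv
  rcases Multiset.mem_cons.1 hv with rfl | hv
  · exact hu
  · exact hm v hv

theorem in0_cons {m : Multiset (X → ℝ)} (hm : T.In0 m) {u : X → ℝ} (hu : u ∈ T.P0) :
    T.In0 (u ::ₘ m) := by
  intro v hv
  rcases Multiset.mem_cons.1 hv with rfl | hv
  · exact hu
  · exact hm v hv

theorem in0_in {m : Multiset (X → ℝ)} (hm : T.In0 m) : T.In m := fun u hu => T.P0_P (hm u hu)

theorem cons_card {m : Multiset (X → ℝ)} (hc : m.card + 1 = n) (u : X → ℝ) :
    (u ::ₘ m).card = n := by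
  rw [Multiset.card_cons, hc]

end MeasBAux

/-- Two finite measures which agree on `P0` are equal. -/
theorem SMA.ext_P0 {μ ν : Measure X} [IsFiniteMeasure μ] [IsFiniteMeasure ν]
    (h : ∀ F ∈ T.P0, ∫ x, F x ∂μ = ∫ x, F x ∂ν) : μ = ν := by
  have hS : ∀ s ∈ T.S, ∫ x, s x ∂μ = ∫ x, s x ∂ν := by
    intro s hs
    obtain ⟨C, hC, hp⟩ := T.S_scale s hs
    have h1 := h _ hp
    simp only [integral_div] at h1
    have hC' : C ≠ 0 := hC.ne'
    field_simp at h1
    exact h1
  apply ext_of_forall_integral_eq_of_IsFiniteMeasure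
  intro f
  apply eq_of_abs_sub_le_all
  intro δ hδ
  set K : ℝ := μ.real univ + ν.real univ + 1 with hK
  have hμ0 : 0 ≤ μ.real univ := measureReal_nonneg
  have hν0 : 0 ≤ ν.real univ := measureReal_nonneg
  have hKpos : 0 < K := by positivity
  obtain ⟨s, hs, hfs⟩ := T.S_dense f f.continuous (δ / K) (by positivity)
  have h1 := MeasBAux.approx f.continuous (T.S_cont s hs) hfs μ
  have h2 := MeasBAux.approx f.continuous (T.S_cont s hs) hfs ν
  have h3 := hS s hs
  have h4 : δ / K * μ.real univ + δ / K * ν.real univ ≤ δ := by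
    have : δ / K * μ.real univ + δ / K * ν.real univ = δ * ((μ.real univ + ν.real univ) / K) := by
      ring
    rw [this]
    have : (μ.real univ + ν.real univ) / K ≤ 1 := by
      rw [div_le_one hKpos]
      linarith
    nlinarith
  rw [abs_le] at h1 h2 ⊢
  constructor <;> linarith [h1.1, h1.2, h2.1, h2.2]

theorem SMA.M_smooth {m : Multiset (X → ℝ)} (hc : m.card = n) (hm : T.In0 m) :
    T.M m = T.M0 m := by
  haveI : IsFiniteMeasure (T.M0 m) := ⟨by rw [T.mass m hc hm]; exact ENNReal.ofReal_lt_top⟩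
  apply T.ext_P0
  intro F hF
  have hc' : ∀ u : X → ℝ, (u ::ₘ m).card = n + 1 := fun u => by rw [Multiset.card_cons, hc]
  rw [T.M_int hc (MeasBAux.in0_in T hm) (T.P0_P hF),
    T.D_eq (hc' F) (MeasBAux.in0_cons T hm hF),
    T.D_eq (hc' _) (MeasBAux.in0_cons T hm T.zero_P0),
    T.D0_cons hc hm hF T.zero_P0]
  simp

theorem SMA.M_addc {m : Multiset (X → ℝ)} (hc : m.card + 1 = n) (hm : T.In m) {u : X → ℝ}
    (hu : u ∈ T.P) (c : ℝ) : T.M ((fun x => u x + c) ::ₘ m) = T.M (u ::ₘ m) := by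
  apply T.ext_P0
  intro F hF
  have hz : zf X ∈ T.P := T.P0_P T.zero_P0
  rw [T.M_int (MeasBAux.cons_card hc _) (MeasBAux.in_cons T hm (T.const_P u hu c)) (T.P0_P hF),
    T.M_int (MeasBAux.cons_card hc _) (MeasBAux.in_cons T hm hu) (T.P0_P hF),
    Multiset.cons_swap F, Multiset.cons_swap (zf X), Multiset.cons_swap F,
    Multiset.cons_swap (zf X),
    T.D_addc (MeasBAux.cons_card hc _) (MeasBAux.in_cons T hm (T.P0_P hF)) hu,
    T.D_addc (MeasBAux.cons_card hc _) (MeasBAux.in_cons T hm hz) hu]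
  ring

theorem SMA.M_affine {m : Multiset (X → ℝ)} (hc : m.card + 1 = n) (hm : T.In m) {u v : X → ℝ}
    (hu : u ∈ T.P) (hv : v ∈ T.P) {t : ℝ} (ht : t ∈ Icc (0 : ℝ) 1) :
    T.M ((fun x => t * u x + (1 - t) * v x) ::ₘ m) =
      ENNReal.ofReal t • T.M (u ::ₘ m) + ENNReal.ofReal (1 - t) • T.M (v ::ₘ m) := by
  haveI : IsFiniteMeasure (ENNReal.ofReal t • T.M (u ::ₘ m)) :=
    Measure.smul_finite _ ENNReal.ofReal_ne_top
  haveI : IsFiniteMeasure (ENNReal.ofReal (1 - t) • T.M (v ::ₘ m)) :=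
    Measure.smul_finite _ ENNReal.ofReal_ne_top
  apply T.ext_P0
  intro F hF
  have hz : zf X ∈ T.P := T.P0_P T.zero_P0
  rw [integral_add_measure (T.P_integrable (T.P0_P hF) _) (T.P_integrable (T.P0_P hF) _),
    integral_smul_measure, integral_smul_measure,
    ENNReal.toReal_ofReal ht.1, ENNReal.toReal_ofReal (sub_nonneg.2 ht.2),
    T.M_int (MeasBAux.cons_card hc _) (MeasBAux.in_cons T hm (T.convex_P u hu v hv t ht))
      (T.P0_P hF),
    T.M_int (MeasBAux.cons_card hc _) (MeasBAux.in_cons T hm hu) (T.P0_P hF),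
    T.M_int (MeasBAux.cons_card hc _) (MeasBAux.in_cons T hm hv) (T.P0_P hF),
    Multiset.cons_swap F (fun x => t * u x + (1 - t) * v x) m,
    Multiset.cons_swap (zf X) (fun x => t * u x + (1 - t) * v x) m,
    Multiset.cons_swap F u m, Multiset.cons_swap (zf X) u m,
    Multiset.cons_swap F v m, Multiset.cons_swap (zf X) v m,
    T.D_affine (MeasBAux.cons_card hc _) (MeasBAux.in_cons T hm (T.P0_P hF)) hu hv ht,
    T.D_affine (MeasBAux.cons_card hc _) (MeasBAux.in_cons T hm hz) hu hv ht]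
  simp only [smul_eq_mul]
  ring

/-- Integration by parts. -/
theorem SMA.M_ibp {m : Multiset (X → ℝ)} (hc : m.card + 1 = n) (hm : T.In m)
    {f g a b : X → ℝ} (hf : f ∈ T.P) (hg : g ∈ T.P) (ha : a ∈ T.P) (hb : b ∈ T.P) :
    (∫ x, (f x - g x) ∂T.M (a ::ₘ m)) - ∫ x, (f x - g x) ∂T.M (b ::ₘ m) =
      (∫ x, (a x - b x) ∂T.M (f ::ₘ m)) - ∫ x, (a x - b x) ∂T.M (g ::ₘ m) := by
  have key : ∀ {p q r : X → ℝ}, p ∈ T.P → q ∈ T.P → r ∈ T.P →
      ∫ x, (p x - q x) ∂T.M (r ::ₘ m) = T.D (p ::ₘ r ::ₘ m) - T.D (q ::ₘ r ::ₘ m) := by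
    intro p q r hp hq hr
    rw [integral_sub (T.P_integrable hp _) (T.P_integrable hq _),
      T.M_int (MeasBAux.cons_card hc _) (MeasBAux.in_cons T hm hr) hp,
      T.M_int (MeasBAux.cons_card hc _) (MeasBAux.in_cons T hm hr) hq]
    ring
  rw [key hf hg ha, key hf hg hb, key ha hb hf, key ha hb hg, Multiset.cons_swap f a,
    Multiset.cons_swap g a, Multiset.cons_swap f b, Multiset.cons_swap g b]
  ring

/-- Convergence without a test function. -/
theorem SMA.conv0 {q : Multiset ((ℕ → X → ℝ) × (X → ℝ))} (hc : q.card = n)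
    (hq : ∀ p ∈ q, T.Dec p.1 p.2) {F : ℕ → X → ℝ} {G : X → ℝ} (hF : T.Dec F G) :
    Tendsto (fun j => ∫ x, F j x ∂T.M (q.map fun p => p.1 j)) atTop
      (𝓝 (∫ x, G x ∂T.M (q.map fun p => p.2))) := by
  have hz : zf X ∈ T.P := T.P0_P T.zero_P0
  have hz' : T.Dec (fun _ => zf X) (zf X) :=
    ⟨fun _ => hz, fun _ _ _ => le_rfl, fun _ => tendsto_const_nhds, hz⟩
  have h1 : ∀ j, T.In (q.map fun p => p.1 j) := by
    intro j u hu
    obtain ⟨p, hp, rfl⟩ := Multiset.mem_map.1 hu
    exact (hq p hp).mem j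
  have h2 : T.In (q.map fun p => p.2) := by
    intro u hu
    obtain ⟨p, hp, rfl⟩ := Multiset.mem_map.1 hu
    exact (hq p hp).lim_mem
  rw [T.M_int (by rw [Multiset.card_map, hc]) h2 hF.lim_mem]
  have h3 : (fun j => ∫ x, F j x ∂T.M (q.map fun p => p.1 j)) =
      fun j => T.D (((F, G) ::ₘ q).map fun p => p.1 j) -
        T.D ((((fun _ => zf X), zf X) ::ₘ q).map fun p => p.1 j) := by
    funext j
    rw [T.M_int (by rw [Multiset.card_map, hc]) (h1 j) (hF.mem j), Multiset.map_cons,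
      Multiset.map_cons]
  rw [h3]
  have h4 := T.D_tendsto (q := (F, G) ::ₘ q) (by rw [Multiset.card_cons, hc]) (by
    intro p hp
    rcases Multiset.mem_cons.1 hp with rfl | hp
    · exact hF
    · exact hq p hp)
  have h5 := T.D_tendsto (q := ((fun _ => zf X), zf X) ::ₘ q) (by rw [Multiset.card_cons, hc]) (by
    intro p hp
    rcases Multiset.mem_cons.1 hp with rfl | hp
    · exact hz'
    · exact hq p hp)
  have h6 := h4.sub h5
  simpa only [Multiset.map_cons] using h6

end Pool.Agent.DMA
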