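import Pool.Agent.Lib.DMA.DAff

/-!
# Existence of the mixed Monge-Ampère measures of bounded functions
-/

set_option autoImplicit false
set_option linter.unusedSectionVars false

namespace Pool.Agent.DMA

open MeasureTheory Filter Topology Set
open scoped ENNReal NNReal BoundedContinuousFunction

variable {X : Type} [TopologicalSpace X] [CompactSpace X] [TopologicalSpace.MetrizableSpace X]
  [MeasurableSpace X] [BorelSpace X] {n : ℕ} (T : SMA X n)

namespace MeasEAux

/-- Decreasing approximating sequences for all entries of a multiset. -/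
theorem exists_seq (m : Multiset (X → ℝ)) :
    T.In m → ∃ q : Multiset ((ℕ → X → ℝ) × (X → ℝ)), (q.map fun p => p.2) = m ∧
      (∀ p ∈ q, T.Dec p.1 p.2) ∧ ∀ p ∈ q, ∀ j, p.1 j ∈ T.P0 := by
  induction m using Multiset.induction_on with
  | empty =>
    intro _
    exact ⟨0, by simp, by simp, by simp⟩
  | cons u m ih =>
    intro hm
    have hu : u ∈ T.P := hm u (Multiset.mem_cons_self u m)
    obtain ⟨q, hq1, hq2, hq3⟩ := ih (fun v hv => hm v (Multiset.mem_cons_of_mem hv))
    obtain ⟨s, hs1, hs2, hs3⟩ := T.reg u hu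
    refine ⟨(s, u) ::ₘ q, ?_, ?_, ?_⟩
    · rw [Multiset.map_cons, hq1]
    · intro p hp
      rcases Multiset.mem_cons.1 hp with h | h
      · rw [h]
        exact ⟨fun j => T.P0_P (hs1 j), hs2, hs3, hu⟩
      · exact hq2 p h
    · intro p hp
      rcases Multiset.mem_cons.1 hp with h | h
      · rw [h]
        exact hs1
      · exact hq3 p h

/-- A constant sequence. -/
theorem dec_const {a : X → ℝ} (ha : a ∈ T.P) : T.Dec (fun _ => a) a :=
  ⟨fun _ => ha, fun _ _ _ => le_rfl, fun _ => tendsto_const_nhds, ha⟩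

/-- `T.D` converges when all entries but the first are constant. -/
theorem D_tendsto_first {m : Multiset (X → ℝ)} (hc : m.card = n) (hm : T.In m)
    {F : ℕ → X → ℝ} {G : X → ℝ} (hF : T.Dec F G) :
    Tendsto (fun j => T.D (F j ::ₘ m)) atTop (𝓝 (T.D (G ::ₘ m))) := by
  have h := T.D_tendsto (q := (F, G) ::ₘ m.map fun u => ((fun _ => u), u))
    (by rw [Multiset.card_cons, Multiset.card_map, hc]) (by
      intro p hp
      rcases Multiset.mem_cons.1 hp with h | h
      · rw [h]
        exact hF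
      · obtain ⟨u, hu, rfl⟩ := Multiset.mem_map.1 h
        exact dec_const T (hm u hu))
  simpa only [Multiset.map_cons, Multiset.map_map, Function.comp_def, Multiset.map_id'] using h

/-- `T.D` converges when the first entry is constant. -/
theorem D_tendsto_rest {q : Multiset ((ℕ → X → ℝ) × (X → ℝ))} (hc : q.card = n)
    (hq : ∀ p ∈ q, T.Dec p.1 p.2) {F : X → ℝ} (hF : F ∈ T.P) :
    Tendsto (fun j => T.D (F ::ₘ q.map fun p => p.1 j)) atTop
      (𝓝 (T.D (F ::ₘ q.map fun p => p.2))) := by
  have h := T.D_tendsto (q := ((fun _ => F), F) ::ₘ q)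
    (by rw [Multiset.card_cons, hc]) (by
      intro p hp
      rcases Multiset.mem_cons.1 hp with h | h
      · rw [h]
        exact dec_const T hF
      · exact hq p h)
  simpa only [Multiset.map_cons] using h

/-- Elements of `P` are integrable. -/
theorem integrable_P {F : X → ℝ} (hF : F ∈ T.P) (ν : Measure X) [IsFiniteMeasure ν] :
    Integrable F ν := by
  obtain ⟨C, hC⟩ := T.bdd F hF
  refine Integrable.mono' (integrable_const C)
    (T.usc F hF).measurable.aestronglyMeasurable (ae_of_all _ fun x => ?_)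
  rw [Real.norm_eq_abs]
  exact hC x

end MeasEAux

open MeasEAux

theorem SMA.exists_M {m : Multiset (X → ℝ)} (hc : m.card = n) (hm : T.In m) :
    ∃ μ : Measure X, μ univ = ENNReal.ofReal T.V ∧
      ∀ F ∈ T.P, ∫ x, F x ∂μ = T.D (F ::ₘ m) - T.D (zf X ::ₘ m) := by
  obtain ⟨q, hq1, hq2, hq3⟩ := exists_seq T m hm
  have hqc : q.card = n := by
    rw [← hc, ← hq1, Multiset.card_map]
  have hcj : ∀ j : ℕ, (q.map fun p => p.1 j).card = n := fun j => by
    rw [Multiset.card_map, hqc]
  have hInj : ∀ j : ℕ, T.In0 (q.map fun p => p.1 j) := by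
    intro j u hu
    obtain ⟨p, hp, rfl⟩ := Multiset.mem_map.1 hu
    exact hq3 p hp j
  have hmass : ∀ j : ℕ, T.M0 (q.map fun p => p.1 j) univ = ENNReal.ofReal T.V := fun j =>
    T.mass _ (hcj j) (hInj j)
  have hfin : ∀ j : ℕ, IsFiniteMeasure (T.M0 (q.map fun p => p.1 j)) := fun j =>
    ⟨by rw [hmass j]; exact ENNReal.ofReal_lt_top⟩
  -- the sequence of measures
  set ν : ℕ → FiniteMeasure X := fun j => ⟨T.M0 (q.map fun p => p.1 j), hfin j⟩ with hν
  have hνmass : ∀ j, (ν j).mass = T.V.toNNReal := by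
    intro j
    apply ENNReal.coe_injective
    rw [FiniteMeasure.ennreal_mass]
    exact hmass j
  let 𝓤 : Ultrafilter ℕ := Ultrafilter.of atTop
  have h𝓤 : (𝓤 : Filter ℕ) ≤ atTop := Ultrafilter.of_le atTop
  obtain ⟨μ, hμ1, hμ2⟩ := isCompact_iff_ultrafilter_le_nhds'.1
    (isCompact_setOfPred_finiteMeasure_eq_of_compactSpace X T.V.toNNReal) (𝓤.map ν) (by
      rw [Ultrafilter.mem_map]
      exact Filter.univ_mem' hνmass)
  have hμlim : Tendsto ν (𝓤 : Filter ℕ) (𝓝 μ) := hμ2
  have hμint := FiniteMeasure.tendsto_iff_forall_integral_tendsto.1 hμlim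
  refine ⟨(μ : Measure X), ?_, ?_⟩
  · rw [← FiniteMeasure.ennreal_mass]
    have : μ.mass = T.V.toNNReal := hμ1
    rw [this]
    rfl
  -- smooth functions
  have hsm : ∀ F ∈ T.P0, ∫ x, F x ∂(μ : Measure X) = T.D (F ::ₘ m) - T.D (zf X ::ₘ m) := by
    intro F hF
    have hFc : Continuous F := T.S_cont F (T.P0_S hF)
    have h1 := hμint (BoundedContinuousFunction.mkOfCompact ⟨F, hFc⟩)
    simp only [BoundedContinuousFunction.mkOfCompact_apply, ContinuousMap.coe_mk] at h1
    have h2 : Tendsto (fun j => ∫ x, F x ∂(ν j : Measure X)) atTop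
        (𝓝 (T.D (F ::ₘ m) - T.D (zf X ::ₘ m))) := by
      have h3 := (D_tendsto_rest T hqc hq2 (T.P0_P hF)).sub
        (D_tendsto_rest T hqc hq2 (T.P0_P T.zero_P0))
      rw [hq1] at h3
      refine h3.congr fun j => ?_
      have hInF : ∀ G ∈ T.P0, T.In0 (G ::ₘ q.map fun p => p.1 j) := by
        intro G hG u hu
        rcases Multiset.mem_cons.1 hu with h | h
        · rw [h]
          exact hG
        · exact hInj j u h
      rw [T.D_eq (by rw [Multiset.card_cons, hcj j]) (hInF F hF),
        T.D_eq (by rw [Multiset.card_cons, hcj j]) (hInF _ T.zero_P0),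
        T.D0_cons (hcj j) (hInj j) hF T.zero_P0]
      simp only [sub_zero]
      rfl
    exact tendsto_nhds_unique h1 (h2.mono_left h𝓤)
  intro F hF
  obtain ⟨s, hs1, hs2, hs3⟩ := T.reg F hF
  have hdec : T.Dec s F := ⟨fun j => T.P0_P (hs1 j), hs2, hs3, hF⟩
  have h1 : Tendsto (fun j => ∫ x, s j x ∂(μ : Measure X)) atTop
      (𝓝 (∫ x, F x ∂(μ : Measure X))) := by
    obtain ⟨C, hC⟩ := T.bdd F hF
    obtain ⟨C', hC'⟩ := T.bdd (s 0) (T.P0_P (hs1 0))
    refine tendsto_integral_of_dominated_convergence (fun _ => max C C') ?_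
      (integrable_const _) ?_ (ae_of_all _ hs3)
    · intro j
      exact (T.S_cont _ (T.P0_S (hs1 j))).measurable.aestronglyMeasurable
    · intro j
      refine ae_of_all _ fun x => ?_
      rw [Real.norm_eq_abs, abs_le]
      have hge : F x ≤ s j x :=
        le_of_tendsto (hs3 x) (eventually_atTop.2 ⟨j, fun k hk => hs2 hk x⟩)
      have hle : s j x ≤ s 0 x := hs2 (Nat.zero_le j) x
      have h2 := abs_le.1 (hC x)
      have h3 := abs_le.1 (hC' x)
      constructor
      · have := le_max_left C C'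
        linarith
      · have := le_max_right C C'
        linarith
  have h2 := (D_tendsto_first T hc hm hdec).sub
    (tendsto_const_nhds (x := T.D (zf X ::ₘ m)) (f := (atTop : Filter ℕ)))
  exact tendsto_nhds_unique h1 (h2.congr fun j => (hsm (s j) (hs1 j)).symm)

end Pool.Agent.DMA
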