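import Pool.Agent.Lib.DMA.Sma

/-!
# The pairing of smooth functions
-/

set_option autoImplicit false

namespace Pool.Agent.DMA

open MeasureTheory Filter Topology Set
open scoped ENNReal

variable {X : Type} [TopologicalSpace X] [CompactSpace X] [TopologicalSpace.MetrizableSpace X]
  [MeasurableSpace X] [BorelSpace X] {n : ℕ} (T : SMA X n)

namespace PairSAux

omit [CompactSpace X] [TopologicalSpace.MetrizableSpace X] [BorelSpace X] in
theorem cont {u : X → ℝ} (hu : u ∈ T.P0) : Continuous u := T.S_cont u (T.P0_S hu)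

omit [CompactSpace X] [TopologicalSpace.MetrizableSpace X] [BorelSpace X] in
theorem fin {m : Multiset (X → ℝ)} (hc : m.card = n) (hm : T.In0 m) :
    IsFiniteMeasure (T.M0 m) := ⟨by
  rw [T.mass m hc hm]
  exact ENNReal.ofReal_lt_top⟩

theorem integ {m : Multiset (X → ℝ)} (hc : m.card = n) (hm : T.In0 m) {f : X → ℝ}
    (hf : Continuous f) : Integrable f (T.M0 m) := by
  have := fin T hc hm
  exact hf.integrable_of_hasCompactSupport (HasCompactSupport.of_compactSpace f)

omit [CompactSpace X] [TopologicalSpace.MetrizableSpace X] [BorelSpace X] in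
theorem constInt {m : Multiset (X → ℝ)} (hc : m.card = n) (hm : T.In0 m) (c : ℝ) :
    ∫ _, c ∂T.M0 m = c * T.V := by
  rw [integral_const, smul_eq_mul, Measure.real, T.mass m hc hm,
    ENNReal.toReal_ofReal T.V_pos.le, mul_comm]

omit [CompactSpace X] [TopologicalSpace.MetrizableSpace X] [BorelSpace X] in
theorem perm {l₁ l₂ : List (X → ℝ)} (h : l₁.Perm l₂) : (∀ u ∈ l₁, u ∈ T.P0) →
    l₁.length ≤ n + 1 → T.D0l l₁ = T.D0l l₂ := by
  induction h with
  | nil => intro _ _; rfl
  | @cons a l₁ l₂ h ih =>
    intro h1 h2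
    have h3 := ih (fun u hu => h1 u (List.mem_cons_of_mem a hu))
      ((Nat.le_succ _).trans (by simpa using h2))
    have h4 : ((l₁ : List (X → ℝ)) : Multiset (X → ℝ)) = l₂ := Multiset.coe_eq_coe.mpr h
    show (∫ x, a x ∂T.M0 ((l₁ : Multiset (X → ℝ)) + Multiset.replicate (n - l₁.length) (zf X))) +
      T.D0l l₁ = (∫ x, a x ∂T.M0 ((l₂ : Multiset (X → ℝ)) +
        Multiset.replicate (n - l₂.length) (zf X))) + T.D0l l₂
    rw [h3, h4, h.length_eq]
  | swap a b l =>
    intro h1 h2
    have hlen : l.length + 1 ≤ n := by simpa using h2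
    set R : Multiset (X → ℝ) := (l : Multiset (X → ℝ)) +
      Multiset.replicate (n - (l.length + 1)) (zf X) with hR
    have hz : ∀ c : X → ℝ, (((c :: l : List (X → ℝ)) : Multiset (X → ℝ)) +
        Multiset.replicate (n - (c :: l).length) (zf X)) = c ::ₘ R := by
      intro c
      rw [hR, ← Multiset.cons_coe, Multiset.cons_add, List.length_cons]
    have hz0 : (l : Multiset (X → ℝ)) + Multiset.replicate (n - l.length) (zf X) =
        (fun _ => (0 : ℝ)) ::ₘ R := by
      rw [hR, ← Multiset.add_cons, ← Multiset.replicate_succ]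
      congr 2
      omega
    have hRc : R.card + 1 = n := by
      rw [hR, Multiset.card_add, Multiset.coe_card, Multiset.card_replicate]
      omega
    have hRm : ∀ u ∈ R, u ∈ T.P0 := by
      intro u hu
      rw [hR, Multiset.mem_add] at hu
      rcases hu with hu | hu
      · exact h1 u (List.mem_cons_of_mem _ (List.mem_cons_of_mem _ (Multiset.mem_coe.mp hu)))
      · rw [Multiset.eq_of_mem_replicate hu]
        exact T.zero_P0
    have hb : b ∈ T.P0 := h1 b (by simp)
    have ha : a ∈ T.P0 := h1 a (by simp)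
    have hibp := T.ibp R hRc hRm b hb a ha (fun _ => 0) T.zero_P0
    simp only [sub_zero] at hibp
    show (∫ x, b x ∂T.M0 (((a :: l : List (X → ℝ)) : Multiset (X → ℝ)) +
        Multiset.replicate (n - (a :: l).length) (zf X))) +
        ((∫ x, a x ∂T.M0 ((l : Multiset (X → ℝ)) + Multiset.replicate (n - l.length) (zf X))) +
          T.D0l l) =
      (∫ x, a x ∂T.M0 (((b :: l : List (X → ℝ)) : Multiset (X → ℝ)) +
        Multiset.replicate (n - (b :: l).length) (zf X))) +
        ((∫ x, b x ∂T.M0 ((l : Multiset (X → ℝ)) + Multiset.replicate (n - l.length) (zf X))) +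
          T.D0l l)
    rw [hz, hz, hz0]
    linarith
  | trans h₁ h₂ ih₁ ih₂ =>
    intro h1 h2
    rw [ih₁ h1 h2]
    exact ih₂ (fun u hu => h1 u (h₁.mem_iff.mpr hu)) (by rw [← h₁.length_eq]; exact h2)

omit [CompactSpace X] [TopologicalSpace.MetrizableSpace X] [BorelSpace X] in
theorem cons {m : Multiset (X → ℝ)} (hc : m.card = n) (hm : T.In0 m) {u : X → ℝ}
    (hu : u ∈ T.P0) : T.D0 (u ::ₘ m) = (∫ x, u x ∂T.M0 m) + T.D0l m.toList := by
  have h1 : (u ::ₘ m).toList.Perm (u :: m.toList) := by
    rw [← Multiset.coe_eq_coe, Multiset.coe_toList, ← Multiset.cons_coe, Multiset.coe_toList]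
  have h2 := perm T h1 (by
    intro v hv
    rw [Multiset.mem_toList, Multiset.mem_cons] at hv
    rcases hv with rfl | hv
    · exact hu
    · exact hm v hv) (by
    rw [Multiset.length_toList, Multiset.card_cons, hc])
  rw [SMA.D0, h2]
  show (∫ x, u x ∂T.M0 ((m.toList : Multiset (X → ℝ)) +
    Multiset.replicate (n - m.toList.length) (zf X))) + T.D0l m.toList = _
  rw [Multiset.coe_toList, Multiset.length_toList, hc, Nat.sub_self, Multiset.replicate_zero,
    add_zero]

end PairSAux

/-- The basic formula. -/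
theorem SMA.D0_cons {m : Multiset (X → ℝ)} (hc : m.card = n) (hm : T.In0 m) {u v : X → ℝ}
    (hu : u ∈ T.P0) (hv : v ∈ T.P0) :
    T.D0 (u ::ₘ m) - T.D0 (v ::ₘ m) = ∫ x, (u x - v x) ∂T.M0 m := by
  rw [PairSAux.cons T hc hm hu, PairSAux.cons T hc hm hv,
    integral_sub (PairSAux.integ T hc hm (PairSAux.cont T hu))
      (PairSAux.integ T hc hm (PairSAux.cont T hv))]
  ring

namespace PairSAux

theorem mono {m m' : Multiset (X → ℝ)} (h : Multiset.Rel (fun u v => u ≤ v) m m') :
    ∀ k : Multiset (X → ℝ), T.In0 m → T.In0 m' → T.In0 k → m.card + k.card = n + 1 →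
      T.D0 (m + k) ≤ T.D0 (m' + k) := by
  induction h with
  | zero => intro k _ _ _ _; exact le_refl _
  | @cons a b as bs hab h ih =>
    intro k hm hm' hk hc
    have ha : a ∈ T.P0 := hm a (Multiset.mem_cons_self a as)
    have hb : b ∈ T.P0 := hm' b (Multiset.mem_cons_self b bs)
    have has : T.In0 as := fun u hu => hm u (Multiset.mem_cons_of_mem hu)
    have hbs : T.In0 bs := fun u hu => hm' u (Multiset.mem_cons_of_mem hu)
    have hask : T.In0 (as + k) := by
      intro u hu
      rcases Multiset.mem_add.mp hu with hu | hu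
      · exact has u hu
      · exact hk u hu
    have hc' : (as + k).card = n := by
      rw [Multiset.card_cons] at hc
      rw [Multiset.card_add]
      omega
    have h1 := T.D0_cons hc' hask hb ha
    have h2 : 0 ≤ ∫ x, (b x - a x) ∂T.M0 (as + k) :=
      integral_nonneg fun x => sub_nonneg.mpr (hab x)
    have h3 := ih (b ::ₘ k) has hbs (by
      intro u hu
      rcases Multiset.mem_cons.mp hu with rfl | hu
      · exact hb
      · exact hk u hu) (by
      rw [Multiset.card_cons] at hc ⊢
      omega)
    rw [Multiset.cons_add, Multiset.cons_add]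
    rw [Multiset.add_cons, Multiset.add_cons] at h3
    linarith

theorem addc (c : ℝ) (m : Multiset (X → ℝ)) :
    ∀ k : Multiset (X → ℝ), T.In0 m → T.In0 k → m.card + k.card = n + 1 →
      T.D0 ((m.map fun u x => u x + c) + k) = T.D0 (m + k) + m.card * c * T.V := by
  induction m using Multiset.induction with
  | empty => intro k _ _ _; simp
  | cons a m ih =>
    intro k hm hk hc
    have ha : a ∈ T.P0 := hm a (Multiset.mem_cons_self a m)
    have hm' : T.In0 m := fun u hu => hm u (Multiset.mem_cons_of_mem hu)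
    have hmap : T.In0 ((m.map fun u x => u x + c) + k) := by
      intro u hu
      rcases Multiset.mem_add.mp hu with hu | hu
      · obtain ⟨v, hv, rfl⟩ := Multiset.mem_map.mp hu
        exact T.const_P0 v (hm' v hv) c
      · exact hk u hu
    have hc' : ((m.map fun u x => u x + c) + k).card = n := by
      rw [Multiset.card_cons] at hc
      rw [Multiset.card_add, Multiset.card_map]
      omega
    have h1 := T.D0_cons hc' hmap (T.const_P0 a ha c) ha
    have h2 : ∫ x, (a x + c - a x) ∂T.M0 ((m.map fun u x => u x + c) + k) = c * T.V := by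
      rw [← constInt T hc' hmap c]
      refine integral_congr_ae (Eventually.of_forall fun x => ?_)
      show a x + c - a x = c
      ring
    have h3 := ih (a ::ₘ k) hm' (by
      intro u hu
      rcases Multiset.mem_cons.mp hu with rfl | hu
      · exact ha
      · exact hk u hu) (by
      rw [Multiset.card_cons] at hc ⊢
      omega)
    rw [Multiset.map_cons, Multiset.cons_add, Multiset.cons_add, Multiset.card_cons]
    rw [Multiset.add_cons, Multiset.add_cons] at h3
    push_cast
    linarith

end PairSAux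

/-- Monotonicity. -/
theorem SMA.D0_mono {m m' : Multiset (X → ℝ)} (hc : m.card = n + 1) (hm : T.In0 m)
    (hm' : T.In0 m') (h : Multiset.Rel (fun u v => u ≤ v) m m') : T.D0 m ≤ T.D0 m' := by
  have h1 := PairSAux.mono T h 0 hm hm' (fun u hu => absurd hu (Multiset.notMem_zero u))
    (by rw [Multiset.card_zero, add_zero]; exact hc)
  rwa [add_zero, add_zero] at h1

/-- Adding the constant `c` to all entries. -/
theorem SMA.D0_addc {m : Multiset (X → ℝ)} (hc : m.card = n + 1) (hm : T.In0 m) (c : ℝ) :
    T.D0 (m.map fun u x => u x + c) = T.D0 m + (n + 1) * c * T.V := by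
  have h1 := PairSAux.addc T c m 0 hm (fun u hu => absurd hu (Multiset.notMem_zero u))
    (by rw [Multiset.card_zero, add_zero]; exact hc)
  rw [add_zero, add_zero, hc] at h1
  rw [h1]
  push_cast
  ring

theorem SMA.D0_affine {m : Multiset (X → ℝ)} (hc : m.card = n) (hm : T.In0 m) {u v : X → ℝ}
    (hu : u ∈ T.P0) (hv : v ∈ T.P0) {t : ℝ} (ht : t ∈ Icc (0 : ℝ) 1) :
    T.D0 ((fun x => t * u x + (1 - t) * v x) ::ₘ m) =
      t * T.D0 (u ::ₘ m) + (1 - t) * T.D0 (v ::ₘ m) := by
  have h1 := T.D0_cons hc hm (T.convex_P0 u hu v hv t ht) hv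
  have h2 := T.D0_cons hc hm hu hv
  have h3 : ∫ x, (t * u x + (1 - t) * v x - v x) ∂T.M0 m = t * ∫ x, (u x - v x) ∂T.M0 m := by
    rw [← integral_const_mul]
    refine integral_congr_ae (Eventually.of_forall fun x => ?_)
    show t * u x + (1 - t) * v x - v x = t * (u x - v x)
    ring
  rw [h3, ← h2] at h1
  linarith

end Pool.Agent.DMA
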