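import Mathlib

/-!
# Abstract Bedford-Taylor theory on a compact space: the data

`S` are the smooth functions, `P0` the smooth `ω`-psh functions, `P` the bounded `ω`-psh functions
on a compact Kähler manifold `X` of dimension `n`; for a multiset `m` of `n` elements `u₁, …, uₙ`
of `P0`, `M0 m` is the measure `(ω + dd^c u₁) ∧ ⋯ ∧ (ω + dd^c uₙ)`; `V` is its mass.
-/

set_option autoImplicit false

namespace Pool.Agent.DMA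

open MeasureTheory Filter Topology Set
open scoped ENNReal ContDiff

/-- The data. -/
structure SMA (X : Type) [TopologicalSpace X] [MeasurableSpace X] (n : ℕ) where
  /-- smooth functions -/
  S : Set (X → ℝ)
  /-- smooth `ω`-psh functions -/
  P0 : Set (X → ℝ)
  /-- bounded `ω`-psh functions -/
  P : Set (X → ℝ)
  /-- mixed Monge-Ampère measures of smooth functions -/
  M0 : Multiset (X → ℝ) → Measure X
  /-- the volume -/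
  V : ℝ
  n_pos : 1 ≤ n
  V_pos : 0 < V
  P0_P : P0 ⊆ P
  P0_S : P0 ⊆ S
  S_cont : ∀ s ∈ S, Continuous s
  S_add : ∀ s ∈ S, ∀ t ∈ S, (fun x => s x + t x) ∈ S
  S_mul : ∀ s ∈ S, ∀ t ∈ S, (fun x => s x * t x) ∈ S
  S_const : ∀ c : ℝ, (fun _ => c) ∈ S
  S_comp : ∀ s ∈ S, ∀ θ : ℝ → ℝ, ContDiff ℝ ∞ θ → (fun x => θ (s x)) ∈ S
  S_dense : ∀ f : X → ℝ, Continuous f → ∀ ε : ℝ, 0 < ε → ∃ s ∈ S, ∀ x, |f x - s x| ≤ ε
  S_scale : ∀ s ∈ S, ∃ C : ℝ, 0 < C ∧ (fun x => s x / C) ∈ P0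
  zero_P0 : (fun _ => (0 : ℝ)) ∈ P0
  const_P0 : ∀ u ∈ P0, ∀ c : ℝ, (fun x => u x + c) ∈ P0
  convex_P0 : ∀ u ∈ P0, ∀ v ∈ P0, ∀ t ∈ Icc (0 : ℝ) 1, (fun x => t * u x + (1 - t) * v x) ∈ P0
  usc : ∀ u ∈ P, UpperSemicontinuous u
  bdd : ∀ u ∈ P, ∃ C : ℝ, ∀ x, |u x| ≤ C
  const_P : ∀ u ∈ P, ∀ c : ℝ, (fun x => u x + c) ∈ P
  convex_P : ∀ u ∈ P, ∀ v ∈ P, ∀ t ∈ Icc (0 : ℝ) 1, (fun x => t * u x + (1 - t) * v x) ∈ P
  max_P : ∀ u ∈ P, ∀ v ∈ P, (fun x => max (u x) (v x)) ∈ P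
  lim_P : ∀ u : ℕ → X → ℝ, (∀ j, u j ∈ P) → Antitone u → ∀ v : X → ℝ,
    (∀ x, Tendsto (fun j => u j x) atTop (𝓝 (v x))) → (∃ c : ℝ, ∀ x, c ≤ v x) → v ∈ P
  /-- regularisation (Demailly, Błocki–Kołodziej) -/
  reg : ∀ u ∈ P, ∃ s : ℕ → X → ℝ, (∀ j, s j ∈ P0) ∧ Antitone s ∧
    ∀ x, Tendsto (fun j => s j x) atTop (𝓝 (u x))
  mass : ∀ m : Multiset (X → ℝ), m.card = n → (∀ u ∈ m, u ∈ P0) → M0 m univ = ENNReal.ofReal V
  affine : ∀ m : Multiset (X → ℝ), m.card + 1 = n → (∀ u ∈ m, u ∈ P0) → ∀ u ∈ P0, ∀ v ∈ P0,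
    ∀ t ∈ Icc (0 : ℝ) 1, ∀ f : X → ℝ, Continuous f →
      ∫ x, f x ∂M0 ((fun x => t * u x + (1 - t) * v x) ::ₘ m) =
        t * (∫ x, f x ∂M0 (u ::ₘ m)) + (1 - t) * ∫ x, f x ∂M0 (v ::ₘ m)
  addc : ∀ m : Multiset (X → ℝ), m.card + 1 = n → (∀ u ∈ m, u ∈ P0) → ∀ u ∈ P0, ∀ c : ℝ,
    M0 ((fun x => u x + c) ::ₘ m) = M0 (u ::ₘ m)
  /-- integration by parts -/
  ibp : ∀ m : Multiset (X → ℝ), m.card + 1 = n → (∀ u ∈ m, u ∈ P0) → ∀ f ∈ P0, ∀ a ∈ P0,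
    ∀ b ∈ P0, (∫ x, f x ∂M0 (a ::ₘ m)) - ∫ x, f x ∂M0 (b ::ₘ m) =
      (∫ x, (a x - b x) ∂M0 (f ::ₘ m)) - ∫ x, (a x - b x) ∂M0 ((fun _ => 0) ::ₘ m)
  /-- locality -/
  loc : ∀ m : Multiset (X → ℝ), m.card + 1 = n → (∀ u ∈ m, u ∈ P0) → ∀ a ∈ P0, ∀ b ∈ P0,
    ∀ U : Set X, IsOpen U → (∀ x ∈ U, a x = b x) → ∀ f : X → ℝ, Continuous f →
      (∀ x, x ∉ U → f x = 0) → ∫ x, f x ∂M0 (a ::ₘ m) = ∫ x, f x ∂M0 (b ::ₘ m)

section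

variable {X : Type} [TopologicalSpace X] [MeasurableSpace X] {n : ℕ} (T : SMA X n)

/-- The function `0`. -/
abbrev zf (X : Type) : X → ℝ := fun _ => 0

/-- All elements are smooth `ω`-psh functions. -/
def SMA.In0 (m : Multiset (X → ℝ)) : Prop := ∀ u ∈ m, u ∈ T.P0

/-- All elements are bounded `ω`-psh functions. -/
def SMA.In (m : Multiset (X → ℝ)) : Prop := ∀ u ∈ m, u ∈ T.P

/-- A decreasing sequence in `P` with limit `v` in `P`. -/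
structure SMA.Dec (u : ℕ → X → ℝ) (v : X → ℝ) : Prop where
  mem : ∀ j, u j ∈ T.P
  anti : Antitone u
  lim : ∀ x, Tendsto (fun j => u j x) atTop (𝓝 (v x))
  lim_mem : v ∈ T.P

/-- The pairing of smooth functions, for lists: `∑ ∫ uᵢ M(0, …, 0, uᵢ₊₁, …)`. -/
noncomputable def SMA.D0l : List (X → ℝ) → ℝ
  | [] => 0
  | u :: l => (∫ x, u x ∂T.M0 ((l : Multiset (X → ℝ)) + Multiset.replicate (n - l.length) (zf X))) +
      SMA.D0l l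

/-- The pairing of smooth functions. -/
noncomputable def SMA.D0 (m : Multiset (X → ℝ)) : ℝ := T.D0l m.toList

/-- `m'` is a smooth majorant of `m`. -/
def SMA.Maj (m m' : Multiset (X → ℝ)) : Prop := Multiset.Rel (fun u v => v ∈ T.P0 ∧ u ≤ v) m m'

/-- The pairing of bounded functions. -/
noncomputable def SMA.D (m : Multiset (X → ℝ)) : ℝ := sInf (T.D0 '' {m' | T.Maj m m'})

end

end Pool.Agent.DMA
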