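import Mathlib

/-! # DMA, row W1 -/

set_option autoImplicit false

open scoped Topology
open Set Filter MeasureTheory

noncomputable section

namespace Pool.Agent.DMA

variable {X : Type*} [TopologicalSpace X] [CompactSpace X] [T2Space X] [SecondCountableTopology X]
  [MeasurableSpace X] [BorelSpace X]

/-- Weak compactness (use `isCompact_setOfPred_finiteMeasure_le_of_compactSpace` and the
ultrafilter `hyperfilter ℕ`). -/
theorem exists_ulim (ν : ℕ → Measure X) {m : ℝ} (hν : ∀ j, IsFiniteMeasure (ν j))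
    (hm : ∀ j, (ν j).real univ ≤ m) :
    ∃ ν' : Measure X, IsFiniteMeasure ν' ∧ ∀ f : X → ℝ, Continuous f →
      Tendsto (fun j => ∫ x, f x ∂(ν j)) (hyperfilter ℕ : Filter ℕ) (𝓝 (∫ x, f x ∂ν')) := by
  set N : ℕ → FiniteMeasure X := fun j => ⟨ν j, hν j⟩ with hN
  have hcomp := isCompact_setOfPred_finiteMeasure_le_of_compactSpace X m.toNNReal
  have hmem : ∀ j, N j ∈ {μ : FiniteMeasure X | μ.mass ≤ m.toNNReal} := by
    intro j
    change (N j).mass ≤ m.toNNReal
    rw [← NNReal.coe_le_coe]
    refine le_trans ?_ (Real.le_coe_toNNReal m)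
    exact hm j
  obtain ⟨ν', -, h'⟩ := isCompact_iff_ultrafilter_le_nhds.1 hcomp
    ((hyperfilter ℕ : Ultrafilter ℕ).map N) (by
      rw [Ultrafilter.coe_map, le_principal_iff, mem_map]
      exact Eventually.of_forall hmem)
  refine ⟨(ν' : Measure X), inferInstance, fun f hf => ?_⟩
  have ht : Tendsto N (hyperfilter ℕ : Filter ℕ) (𝓝 ν') := by
    rw [Ultrafilter.coe_map] at h'
    exact h'
  exact (FiniteMeasure.tendsto_iff_forall_integral_tendsto.1 ht)
    (BoundedContinuousFunction.mkOfCompact ⟨f, hf⟩)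

end Pool.Agent.DMA
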