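import Pool.Agent.Lib.DMA.W1

/-! # DMA, row W2 -/

set_option autoImplicit false

open scoped Topology
open Set Filter MeasureTheory

noncomputable section

namespace Pool.Agent.DMA

variable {X : Type*} [TopologicalSpace X] [CompactSpace X] [T2Space X] [SecondCountableTopology X]
  [MeasurableSpace X] [BorelSpace X]

/-- Comparison on an open set by integrals of continuous functions. -/
theorem restrict_le_of_int {l l' : Measure X} [IsFiniteMeasure l] [IsFiniteMeasure l']
    {U : Set X} (hU : IsOpen U)
    (h : ∀ f : X → ℝ, Continuous f → (∀ x, 0 ≤ f x ∧ f x ≤ 1) → tsupport f ⊆ U →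
      ∫ x, f x ∂l ≤ ∫ x, f x ∂l') : l.restrict U ≤ l'.restrict U := by
  have hmet := TopologicalSpace.metrizableSpace_of_t3_secondCountable X
  have key : ∀ K : Set X, IsCompact K → K ⊆ U → l K ≤ l' K := by
    intro K hK hKU
    rw [K.measure_eq_iInf_isOpen l']
    refine le_iInf fun V => le_iInf fun hKV => le_iInf fun hV => ?_
    obtain ⟨f, hf1, hf2, hf3⟩ := exists_tsupport_one_of_isOpen_isClosed (hU.inter hV)
      isClosed_closure.isCompact hK.isClosed (subset_inter hKU hKV)
    have hint : ∀ m : Measure X, IsFiniteMeasure m → Integrable (fun x => f x) m :=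
      fun m hm => f.continuous.integrable_of_hasCompactSupport
        (HasCompactSupport.of_compactSpace _)
    have h1 : l.real K ≤ ∫ x, f x ∂l := by
      rw [← integral_indicator_one hK.measurableSet]
      refine integral_mono ((integrable_const (1 : ℝ)).indicator hK.measurableSet)
        (hint l inferInstance) fun x => ?_
      by_cases hx : x ∈ K
      · rw [indicator_of_mem hx]
        exact (hf2 hx).ge
      · rw [indicator_of_notMem hx]
        exact (hf3 x).1
    have h2 : ∫ x, f x ∂l' ≤ l'.real V := by
      rw [← integral_indicator_one hV.measurableSet]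
      refine integral_mono (hint l' inferInstance)
        ((integrable_const (1 : ℝ)).indicator hV.measurableSet) fun x => ?_
      by_cases hx : x ∈ V
      · rw [indicator_of_mem hx]
        exact (hf3 x).2
      · rw [indicator_of_notMem hx]
        have h4 : x ∉ tsupport f := fun h5 => hx (hf1 h5).2
        exact (image_eq_zero_of_notMem_tsupport h4).le
    have h3 := h (fun x => f x) f.continuous hf3 (hf1.trans inter_subset_left)
    exact (ENNReal.toReal_le_toReal (measure_ne_top _ _) (measure_ne_top _ _)).1
      ((h1.trans h3).trans h2)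
  refine Measure.le_iff.2 fun s hs => ?_
  rw [Measure.restrict_apply hs, Measure.restrict_apply hs,
    (hs.inter hU.measurableSet).measure_eq_iSup_isCompact_of_ne_top (measure_ne_top _ _)]
  refine iSup_le fun K => iSup_le fun hKs => iSup_le fun hK => ?_
  exact (key K hK (hKs.trans inter_subset_right)).trans (measure_mono hKs)

/-- If `ν_j = ν'_j` on an open set then the limits agree on it. -/
theorem ulim_open {F : Filter ℕ} [F.NeBot] {ν ν' : ℕ → Measure X} {l l' : Measure X}
    (hf : ∀ j, IsFiniteMeasure (ν j)) (hf' : ∀ j, IsFiniteMeasure (ν' j)) [IsFiniteMeasure l]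
    [IsFiniteMeasure l']
    (hl : ∀ f : X → ℝ, Continuous f → Tendsto (fun j => ∫ x, f x ∂(ν j)) F (𝓝 (∫ x, f x ∂l)))
    (hl' : ∀ f : X → ℝ, Continuous f → Tendsto (fun j => ∫ x, f x ∂(ν' j)) F (𝓝 (∫ x, f x ∂l')))
    {U : Set X} (hU : IsOpen U) (he : ∀ᶠ j in F, (ν j).restrict U = (ν' j).restrict U) :
    l.restrict U = l'.restrict U := by
  have key : ∀ f : X → ℝ, Continuous f → tsupport f ⊆ U → ∫ x, f x ∂l = ∫ x, f x ∂l' := by
    intro f hf hs
    refine tendsto_nhds_unique (hl f hf) ((hl' f hf).congr' ?_)
    filter_upwards [he] with j hj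
    have h1 : ∀ m : Measure X, ∫ x, f x ∂m = ∫ x in U, f x ∂m := by
      intro m
      refine (setIntegral_eq_integral_of_forall_compl_eq_zero fun x hx => ?_).symm
      exact image_eq_zero_of_notMem_tsupport fun h => hx (hs h)
    rw [h1 (ν' j), h1 (ν j), hj]
  exact le_antisymm (restrict_le_of_int hU fun f hf _ hs => (key f hf hs).le)
    (restrict_le_of_int hU fun f hf _ hs => (key f hf hs).ge)

end Pool.Agent.DMA
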